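import Pool.Agent.Lib.MP_305fdd_al.F8.CG.StmS
import Pool.Agent.Lib.MP_305fdd_al.F8.NC.DefsF
import Pool.Agent.Lib.MP_305fdd_al.F8.CG.P_Vtv

/-!
# MP_305fdd_al, all lattices (project NL): definitions

`evm m P e` is the value at `e` of the binary form with the coefficients `P`, `sb m A` the matrix of `P ↦ P ∘ A`, `sm m` the representation `g ↦ (P ↦ P ∘ g⁻¹)` of `SL₂`. `CH τ W z`: `z` is a crossed homomorphism on the subgroup `W`. `tV m f` is `sm m` over the ring `L`, `f : ℤ[w] → L`; `tM m n f f'` is the tensor product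
of `sm m` over `f` and `sm n` over `f'`. `Zh` is the ring `lim ℤ/m`, `OH = Zh[w]`; `GH` is the profinite completion of `SL₂(ℤ[w])`, as the group of the compatible families in the finite quotients.
-/

set_option autoImplicit false

namespace Pool.Agent.F8.NL

open Pool.Agent.F8.CG Pool.Agent.F8.BG Pool.Agent.MP_305fdd_al Pool.Agent.Lib.MP_305fdd_al
  Pool.Agent.F8
open scoped QuadraticAlgebra ComplexConjugate Kronecker

noncomputable section

/-! ### Binary forms -/

section Forms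

variable {R : Type} [CommRing R]

/-- the value of the binary form `∑ P i X^i Y^(m - i)` at `e` -/
def evm (m : ℕ) (P : Fin (m + 1) → R) (e : Fin 2 → R) : R :=
  ∑ i, P i * (e 0 ^ (i : ℕ) * e 1 ^ (m - i))

/-- the value of a form of bidegree `(m, n)` -/
def evM (m n : ℕ) (P : Fin (m + 1) × Fin (n + 1) → R) (e e' : Fin 2 → R) : R :=
  ∑ p, P p * (e 0 ^ (p.1 : ℕ) * e 1 ^ (m - p.1) * (e' 0 ^ (p.2 : ℕ) * e' 1 ^ (n - p.2)))

/-- the polynomial `(A₀₀ X + A₀₁)^j (A₁₀ X + A₁₁)^(m - j)` -/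
def sbp (m : ℕ) (A : Matrix (Fin 2) (Fin 2) R) (j : ℕ) : Polynomial R :=
  (Polynomial.C (A 0 0) * Polynomial.X + Polynomial.C (A 0 1)) ^ j *
    (Polynomial.C (A 1 0) * Polynomial.X + Polynomial.C (A 1 1)) ^ (m - j)

/-- the matrix of `P ↦ P ∘ A` -/
def sb (m : ℕ) (A : Matrix (Fin 2) (Fin 2) R) : Matrix (Fin (m + 1)) (Fin (m + 1)) R :=
  fun i j => (sbp m A j).coeff i

/-- the homogeneous evaluation of a polynomial of degree at most `m` -/
def hev {S : Type} [CommRing S] (g : R →+* S) (m : ℕ) (q : Polynomial R) (x y : S) : S :=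
  ∑ i ∈ Finset.range (m + 1), g (q.coeff i) * (x ^ i * y ^ (m - i))

theorem hev_one {S : Type} [CommRing S] (g : R →+* S) (x y : S) : hev g 0 1 x y = 1 := by
  simp [hev]

theorem hev_lin {S : Type} [CommRing S] (g : R →+* S) (m : ℕ) (q : Polynomial R)
    (hq : q.natDegree ≤ m) (x y : S) (α β : R) :
    hev g (m + 1) ((Polynomial.C α * Polynomial.X + Polynomial.C β) * q) x y =
      (g α * x + g β * y) * hev g m q x y := by
  unfold hev
  have h0 : ∀ i, ((Polynomial.C α * Polynomial.X + Polynomial.C β) * q).coeff i =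
      α * (Polynomial.X * q).coeff i + β * q.coeff i := by
    intro i
    rw [add_mul, Polynomial.coeff_add, mul_assoc, Polynomial.coeff_C_mul, Polynomial.coeff_C_mul]
  have h1 : ∑ i ∈ Finset.range (m + 1 + 1), g ((Polynomial.X * q).coeff i) *
      (x ^ i * y ^ (m + 1 - i)) = x * ∑ i ∈ Finset.range (m + 1), g (q.coeff i) *
      (x ^ i * y ^ (m - i)) := by
    rw [Finset.sum_range_succ', Finset.mul_sum]
    have h2 : (Polynomial.X * q).coeff 0 = 0 := by simp
    rw [h2, map_zero, zero_mul, add_zero]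
    refine Finset.sum_congr rfl fun i _ => ?_
    rw [Polynomial.coeff_X_mul, show m + 1 - (i + 1) = m - i by omega]
    ring
  have h3 : ∑ i ∈ Finset.range (m + 1 + 1), g (q.coeff i) * (x ^ i * y ^ (m + 1 - i)) =
      y * ∑ i ∈ Finset.range (m + 1), g (q.coeff i) * (x ^ i * y ^ (m - i)) := by
    rw [Finset.sum_range_succ, Finset.mul_sum, Polynomial.coeff_eq_zero_of_natDegree_lt
      (Nat.lt_succ_of_le hq), map_zero, zero_mul, add_zero]
    refine Finset.sum_congr rfl fun i hi => ?_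
    rw [show m + 1 - i = (m - i) + 1 by
      have := Finset.mem_range.1 hi
      omega]
    ring
  calc ∑ i ∈ Finset.range (m + 1 + 1), g (((Polynomial.C α * Polynomial.X +
        Polynomial.C β) * q).coeff i) * (x ^ i * y ^ (m + 1 - i))
      = g α * ∑ i ∈ Finset.range (m + 1 + 1), g ((Polynomial.X * q).coeff i) *
        (x ^ i * y ^ (m + 1 - i)) + g β * ∑ i ∈ Finset.range (m + 1 + 1), g (q.coeff i) *
        (x ^ i * y ^ (m + 1 - i)) := by
        rw [Finset.mul_sum, Finset.mul_sum, ← Finset.sum_add_distrib]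
        refine Finset.sum_congr rfl fun i _ => ?_
        rw [h0, map_add, map_mul, map_mul]
        ring
    _ = _ := by
        rw [h1, h3]
        ring

theorem deg_lin (α β : R) : (Polynomial.C α * Polynomial.X + Polynomial.C β).natDegree ≤ 1 :=
  Polynomial.natDegree_linear_le

theorem hev_pow {S : Type} [CommRing S] (g : R →+* S) (m k : ℕ) (q : Polynomial R)
    (hq : q.natDegree ≤ m) (x y : S) (α β : R) :
    hev g (k + m) ((Polynomial.C α * Polynomial.X + Polynomial.C β) ^ k * q) x y =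
      (g α * x + g β * y) ^ k * hev g m q x y := by
  induction k with
  | zero => simp
  | succ k ih =>
    have hd : ((Polynomial.C α * Polynomial.X + Polynomial.C β) ^ k * q).natDegree ≤ k + m := by
      refine (Polynomial.natDegree_mul_le).trans (add_le_add ?_ hq)
      refine (Polynomial.natDegree_pow_le).trans ?_
      exact (Nat.mul_le_mul_left k (deg_lin α β)).trans (by omega)
    rw [pow_succ', mul_assoc, show k + 1 + m = (k + m) + 1 by ring, hev_lin g (k + m) _ hd, ih]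
    ring

theorem hev_sbp {S : Type} [CommRing S] (g : R →+* S) (m j : ℕ) (hj : j ≤ m)
    (A : Matrix (Fin 2) (Fin 2) R) (x y : S) :
    hev g m (sbp m A j) x y = (g (A 0 0) * x + g (A 0 1) * y) ^ j *
      (g (A 1 0) * x + g (A 1 1) * y) ^ (m - j) := by
  unfold sbp
  have hd : ((Polynomial.C (A 1 0) * Polynomial.X + Polynomial.C (A 1 1)) ^ (m - j)).natDegree ≤
      m - j := by
    refine (Polynomial.natDegree_pow_le).trans ?_
    exact (Nat.mul_le_mul_left _ (deg_lin _ _)).trans (by omega)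
  have h := hev_pow g (m - j) j _ hd x y (A 0 0) (A 0 1)
  rw [show j + (m - j) = m by omega] at h
  rw [h]
  have h2 := hev_pow g 0 (m - j) 1 (by simp) x y (A 1 0) (A 1 1)
  rw [mul_one, add_zero, hev_one, mul_one] at h2
  rw [h2]

theorem hev_fin {S : Type} [CommRing S] (g : R →+* S) (m : ℕ) (q : Polynomial R) (x y : S) :
    hev g m q x y = ∑ i : Fin (m + 1), g (q.coeff i) * (x ^ (i : ℕ) * y ^ (m - i)) := by
  unfold hev
  rw [Finset.sum_range]

/-- the value of `P ∘ A` -/
theorem evm_sb (m : ℕ) (A : Matrix (Fin 2) (Fin 2) R) (P : Fin (m + 1) → R) (e : Fin 2 → R) :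
    evm m ((sb m A).mulVec P) e = evm m P (A.mulVec e) := by
  unfold evm
  have h : ∀ j : Fin (m + 1), ∑ i : Fin (m + 1), sb m A i j * (e 0 ^ (i : ℕ) * e 1 ^ (m - i)) =
      (A.mulVec e 0) ^ (j : ℕ) * (A.mulVec e 1) ^ (m - j) := by
    intro j
    have h1 := hev_sbp (RingHom.id R) m j (Nat.lt_succ_iff.1 j.2) A (e 0) (e 1)
    rw [hev_fin] at h1
    simp only [RingHom.id_apply] at h1
    rw [show A.mulVec e 0 = A 0 0 * e 0 + A 0 1 * e 1 by
      simp [Matrix.mulVec, dotProduct, Fin.sum_univ_two], show A.mulVec e 1 =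
      A 1 0 * e 0 + A 1 1 * e 1 by simp [Matrix.mulVec, dotProduct, Fin.sum_univ_two]]
    exact h1
  simp only [Matrix.mulVec, dotProduct, Finset.sum_mul]
  rw [Finset.sum_comm]
  refine Finset.sum_congr rfl fun j _ => ?_
  have h2 := h j
  simp only [Matrix.mulVec, dotProduct] at h2
  rw [← h2, Finset.mul_sum]
  exact Finset.sum_congr rfl fun i _ => by ring

theorem sbp_deg (m j : ℕ) (hj : j ≤ m) (A : Matrix (Fin 2) (Fin 2) R) :
    (sbp m A j).natDegree ≤ m := by
  unfold sbp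
  refine (Polynomial.natDegree_mul_le).trans ?_
  have h1 : ((Polynomial.C (A 0 0) * Polynomial.X + Polynomial.C (A 0 1)) ^ j).natDegree ≤ j := by
    refine (Polynomial.natDegree_pow_le).trans ?_
    exact (Nat.mul_le_mul_left _ (deg_lin _ _)).trans (by omega)
  have h2 : ((Polynomial.C (A 1 0) * Polynomial.X + Polynomial.C (A 1 1)) ^ (m - j)).natDegree ≤
      m - j := by
    refine (Polynomial.natDegree_pow_le).trans ?_
    exact (Nat.mul_le_mul_left _ (deg_lin _ _)).trans (by omega)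
  omega

theorem sb_mul (m : ℕ) (A B : Matrix (Fin 2) (Fin 2) R) : sb m (A * B) = sb m B * sb m A := by
  ext i j
  have hj : (j : ℕ) ≤ m := Nat.lt_succ_iff.1 j.2
  have h1 := hev_sbp (Polynomial.C : R →+* Polynomial R) m j hj A
    (Polynomial.C (B 0 0) * Polynomial.X + Polynomial.C (B 0 1))
    (Polynomial.C (B 1 0) * Polynomial.X + Polynomial.C (B 1 1))
  have h2 : sbp m (A * B) j = (Polynomial.C (A 0 0) * (Polynomial.C (B 0 0) * Polynomial.X +
      Polynomial.C (B 0 1)) + Polynomial.C (A 0 1) * (Polynomial.C (B 1 0) * Polynomial.X +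
      Polynomial.C (B 1 1))) ^ (j : ℕ) * (Polynomial.C (A 1 0) * (Polynomial.C (B 0 0) *
      Polynomial.X + Polynomial.C (B 0 1)) + Polynomial.C (A 1 1) * (Polynomial.C (B 1 0) *
      Polynomial.X + Polynomial.C (B 1 1))) ^ (m - j) := by
    unfold sbp
    rw [Matrix.mul_apply, Matrix.mul_apply, Matrix.mul_apply, Matrix.mul_apply]
    simp only [Fin.sum_univ_two, map_add, map_mul]
    congr 2 <;> ring
  show (sbp m (A * B) j).coeff i = _
  rw [h2, ← h1, hev_fin, Polynomial.finsetSum_coeff, Matrix.mul_apply]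
  refine Finset.sum_congr rfl fun k _ => ?_
  rw [Polynomial.coeff_C_mul, mul_comm]
  rfl

theorem sb_one (m : ℕ) : sb m (1 : Matrix (Fin 2) (Fin 2) R) = 1 := by
  ext i j
  show (sbp m 1 j).coeff i = _
  unfold sbp
  simp only [Matrix.one_apply_eq, Matrix.one_apply_ne (show (0 : Fin 2) ≠ 1 by
    decide), Matrix.one_apply_ne (show (1 : Fin 2) ≠ 0 by decide), map_one, one_mul, map_zero,
    add_zero, zero_mul, zero_add, one_pow, mul_one]
  rw [Polynomial.coeff_X_pow, Matrix.one_apply]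
  simp only [Fin.ext_iff]

theorem sb_map {S : Type} [CommRing S] (f : R →+* S) (m : ℕ) (A : Matrix (Fin 2) (Fin 2) R) :
    sb m (A.map f) = (sb m A).map f := by
  ext i j
  show (sbp m (A.map f) j).coeff i = f ((sbp m A j).coeff i)
  rw [← Polynomial.coeff_map]
  congr 1
  unfold sbp
  simp [Polynomial.map_mul, Polynomial.map_pow, Polynomial.map_add]

/-- the representation on the binary forms -/
def sm (m : ℕ) : SL2 R →* Matrix (Fin (m + 1)) (Fin (m + 1)) R where
  toFun g := sb m (g⁻¹).val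
  map_one' := by
    rw [inv_one]
    exact sb_one m
  map_mul' g h := by
    rw [mul_inv_rev]
    exact sb_mul m _ _

theorem sm_apply (m : ℕ) (g : SL2 R) : sm m g = sb m (g⁻¹).val := rfl

theorem evm_sm (m : ℕ) (g : SL2 R) (P : Fin (m + 1) → R) (e : Fin 2 → R) :
    evm m ((sm m g).mulVec P) e = evm m P ((g⁻¹).val.mulVec e) := evm_sb m _ P e

theorem evm_smul (m : ℕ) (P : Fin (m + 1) → R) (l : R) (e : Fin 2 → R) :
    evm m P (l • e) = l ^ m * evm m P e := by
  unfold evm
  rw [Finset.mul_sum]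
  refine Finset.sum_congr rfl fun i _ => ?_
  have h : m = (i : ℕ) + (m - i) := by
    have := i.2
    omega
  simp only [Pi.smul_apply, smul_eq_mul, mul_pow]
  rw [show l ^ m = l ^ (i : ℕ) * l ^ (m - i) by rw [← pow_add, ← h]]
  ring

theorem evm_add (m : ℕ) (P Q : Fin (m + 1) → R) (e : Fin 2 → R) :
    evm m (P + Q) e = evm m P e + evm m Q e := by
  unfold evm
  rw [← Finset.sum_add_distrib]
  exact Finset.sum_congr rfl fun i _ => by rw [Pi.add_apply, add_mul]

theorem evm_csmul (m : ℕ) (c : R) (P : Fin (m + 1) → R) (e : Fin 2 → R) :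
    evm m (c • P) e = c * evm m P e := by
  unfold evm
  rw [Finset.mul_sum]
  exact Finset.sum_congr rfl fun i _ => by rw [Pi.smul_apply, smul_eq_mul, mul_assoc]

theorem evm_map {S : Type} [CommRing S] (f : R →+* S) (m : ℕ) (P : Fin (m + 1) → R)
    (e : Fin 2 → R) : evm m (fun i => f (P i)) (fun i => f (e i)) = f (evm m P e) := by
  unfold evm
  rw [map_sum]
  exact Finset.sum_congr rfl fun i _ => by rw [map_mul, map_mul, map_pow, map_pow]

/-- the tensor product of two forms -/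
def tens {m n : ℕ} (P : Fin (m + 1) → R) (Q : Fin (n + 1) → R) : Fin (m + 1) × Fin (n + 1) → R :=
  fun p => P p.1 * Q p.2

theorem evM_tens {m n : ℕ} (P : Fin (m + 1) → R) (Q : Fin (n + 1) → R) (e e' : Fin 2 → R) :
    evM m n (tens P Q) e e' = evm m P e * evm n Q e' := by
  unfold evM evm tens
  rw [Finset.sum_mul_sum, ← Finset.univ_product_univ, Finset.sum_product]
  exact Finset.sum_congr rfl fun i _ => Finset.sum_congr rfl fun j _ => by ring

end Forms

/-! ### Crossed homomorphisms -/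

/-- `z` is a crossed homomorphism on `W`. -/
def CH {G ι L : Type} [Group G] [Fintype ι] [DecidableEq ι] [CommRing L]
    (τ : G →* Matrix ι ι L) (W : Subgroup G) (z : G → ι → L) : Prop :=
  ∀ x ∈ W, ∀ y ∈ W, z (x * y) = z x + (τ x).mulVec (z y)

/-- the tensor product of two representations -/
def kr {G ι κ L : Type} [Group G] [Fintype ι] [DecidableEq ι] [Fintype κ] [DecidableEq κ]
    [CommRing L] (τ : G →* Matrix ι ι L) (τ' : G →* Matrix κ κ L) :
    G →* Matrix (ι × κ) (ι × κ) L where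
  toFun g := τ g ⊗ₖ τ' g
  map_one' := by
    rw [map_one, map_one]
    exact Matrix.one_kronecker_one
  map_mul' g h := by
    rw [map_mul, map_mul]
    exact Matrix.mul_kronecker_mul _ _ _ _

theorem kr_tens {G L : Type} {m n : ℕ} [Group G] [CommRing L]
    (τ : G →* Matrix (Fin (m + 1)) (Fin (m + 1)) L)
    (τ' : G →* Matrix (Fin (n + 1)) (Fin (n + 1)) L) (g : G) (P : Fin (m + 1) → L)
    (Q : Fin (n + 1) → L) : (kr τ τ' g).mulVec (tens P Q) =
      tens ((τ g).mulVec P) ((τ' g).mulVec Q) := by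
  ext p
  show ∑ q, (τ g ⊗ₖ τ' g) p q * (P q.1 * Q q.2) = (∑ i, τ g p.1 i * P i) * ∑ j, τ' g p.2 j * Q j
  rw [Finset.sum_mul_sum, ← Finset.univ_product_univ, Finset.sum_product]
  refine Finset.sum_congr rfl fun i _ => Finset.sum_congr rfl fun j _ => ?_
  rw [Matrix.kroneckerMap_apply]
  ring

variable {a b : ℤ}

/-- the forms of degree `m` over `L` -/
def tV (m : ℕ) {L : Type} [CommRing L] (f : Qf a b ℤ →+* L) :
    GQ a b →* Matrix (Fin (m + 1)) (Fin (m + 1)) L := (sm m).comp (SLm f)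

/-- the forms of bidegree `(m, n)` over `L` -/
def tM (m n : ℕ) {L : Type} [CommRing L] (f f' : Qf a b ℤ →+* L) :
    GQ a b →* Matrix (Fin (m + 1) × Fin (n + 1)) (Fin (m + 1) × Fin (n + 1)) L :=
  kr (tV m f) (tV n f')

/-- `N` is a level of `W` -/
def Lv (W : Subgroup (GQ a b)) (N : ℕ) : Prop :=
  N ≠ 0 ∧ ∀ (e : Fin 2 → Qf a b ℤ) (t : Qf a b ℤ), tv e ((N : Qf a b ℤ) * t) ∈ W

/-- the value of `z` at the cusp `e`, multiplied with the level `N` -/
def bv (m N : ℕ) {L : Type} [CommRing L] (f : Qf a b ℤ →+* L) (z : GQ a b → Fin (m + 1) → L)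
    (e : Fin 2 → Qf a b ℤ) : L := evm m (z (tv e (N : Qf a b ℤ))) fun i => f (e i)

/-- `e` and `e'` define the same cusp of `W` -/
def Cs (W : Subgroup (GQ a b)) (e e' : Fin 2 → Qf a b ℤ) : Prop :=
  ∃ x ∈ W, ∃ u : Qf a b ℤ, IsUnit u ∧ e' = u • x.val.mulVec e

/-! ### Completions -/

/-- the ring `lim ℤ/m` -/
def Zh : Subring (∀ m : ℕ+, ZMod m) where
  carrier := {x | ∀ (m n : ℕ+) (h : (m : ℕ) ∣ n), ZMod.castHom h (ZMod m) (x n) = x m}
  mul_mem' hx hy m n h := by rw [Pi.mul_apply, Pi.mul_apply, map_mul, hx m n h, hy m n h]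
  one_mem' m n h := by rw [Pi.one_apply, Pi.one_apply, map_one]
  add_mem' hx hy m n h := by rw [Pi.add_apply, Pi.add_apply, map_add, hx m n h, hy m n h]
  zero_mem' m n h := by rw [Pi.zero_apply, Pi.zero_apply, map_zero]
  neg_mem' hx m n h := by rw [Pi.neg_apply, Pi.neg_apply, map_neg, hx m n h]

/-- the projection to `ℤ/m` -/
def rZ (m : ℕ+) : Zh →+* ZMod m := (Pi.evalRingHom _ m).comp Zh.subtype

/-- the ring `Zh[w]` -/
abbrev OH (a b : ℤ) : Type := Qf a b Zh

/-- the embedding of `ℤ[w]` -/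
def jH (a b : ℤ) : Qf a b ℤ →+* OH a b := Qfm a b (Int.castRingHom Zh)

/-- the projection to `(ℤ/m)[w]` -/
def rH (a b : ℤ) (m : ℕ+) : OH a b →+* Qf a b (ZMod m) := Qfm a b (rZ m)

theorem rH_jH (m : ℕ+) (x : Qf a b ℤ) :
    rH a b m (jH a b x) = Qfm a b (Int.castRingHom (ZMod m)) x := by
  apply QuadraticAlgebra.ext
  · show rZ m (Int.castRingHom Zh x.re) = _
    simp [Qfm_apply]
  · show rZ m (Int.castRingHom Zh x.im) = _
    simp [Qfm_apply]

/-- the normal subgroups of finite index -/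
structure NF (a b : ℤ) where
  /-- the subgroup -/
  N : Subgroup (GQ a b)
  /-- normal -/
  nor : N.Normal
  /-- of finite index -/
  fin : N.FiniteIndex

instance (X : NF a b) : X.N.Normal := X.nor

instance (X : NF a b) : X.N.FiniteIndex := X.fin

/-- the profinite completion of `SL₂(ℤ[w])` -/
def GH (a b : ℤ) : Subgroup (∀ X : NF a b, GQ a b ⧸ X.N) where
  carrier := {x | ∀ (X Y : NF a b) (h : X.N ≤ Y.N),
    QuotientGroup.map X.N Y.N (MonoidHom.id _) h (x X) = x Y}
  mul_mem' hx hy X Y h := by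
    rw [Pi.mul_apply, Pi.mul_apply, map_mul, hx X Y h, hy X Y h]
  one_mem' X Y h := by rw [Pi.one_apply, Pi.one_apply, map_one]
  inv_mem' hx X Y h := by rw [Pi.inv_apply, Pi.inv_apply, map_inv, hx X Y h]

/-- the projection -/
def pr (X : NF a b) : GH a b →* GQ a b ⧸ X.N :=
  (Pi.evalMonoidHom (fun X : NF a b => GQ a b ⧸ X.N) X).comp (GH a b).subtype

/-- the map to the completion -/
def iH (a b : ℤ) : GQ a b →* GH a b where
  toFun g := ⟨fun X => QuotientGroup.mk' X.N g, fun _ _ _ => rfl⟩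
  map_one' := rfl
  map_mul' _ _ := rfl

theorem pr_iH (X : NF a b) (g : GQ a b) : pr X (iH a b g) = QuotientGroup.mk' X.N g := rfl

theorem GH_ext {x y : GH a b} (h : ∀ X : NF a b, pr X x = pr X y) : x = y :=
  Subtype.ext (funext h)

/-- `x` is congruent to `g` modulo `X` -/
def Ap (X : NF a b) (x : GH a b) (g : GQ a b) : Prop := pr X x = QuotientGroup.mk' X.N g

theorem Ap_ex (X : NF a b) (x : GH a b) : ∃ g, Ap X x g := by
  obtain ⟨g, hg⟩ := QuotientGroup.mk'_surjective X.N (pr X x)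
  exact ⟨g, hg.symm⟩

/-- the closure of the subgroup `W` -/
def clH (W : Subgroup (GQ a b)) : Subgroup (GH a b) where
  carrier := {x | ∀ X : NF a b, ∃ g ∈ W, Ap X x g}
  mul_mem' {x y} hx hy X := by
    obtain ⟨g, hg, h1⟩ := hx X
    obtain ⟨g', hg', h2⟩ := hy X
    refine ⟨g * g', mul_mem hg hg', ?_⟩
    show pr X (x * y) = _
    rw [map_mul, map_mul, h1, h2]
  one_mem' X := ⟨1, one_mem W, by
    show pr X 1 = _
    rw [map_one, map_one]⟩
  inv_mem' {x} hx X := by
    obtain ⟨g, hg, h1⟩ := hx X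
    refine ⟨g⁻¹, inv_mem hg, ?_⟩
    show pr X x⁻¹ = _
    rw [map_inv, map_inv, h1]

/-- the principal congruence subgroup of level `m` -/
def NFG (a b : ℤ) (m : ℕ+) : NF a b where
  N := (rdq a b m).ker
  nor := inferInstance
  fin := by
    have : Finite (Qf a b (ZMod m)) := inferInstance
    exact Subgroup.finiteIndex_ker _

/-- the reduction of the profinite completion modulo `m` -/
def pm (m : ℕ+) : GH a b →* SL2 (Qf a b (ZMod m)) :=
  (QuotientGroup.kerLift (rdq a b m)).comp (pr (NFG a b m))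

theorem pm_ap (m : ℕ+) {x : GH a b} {g : GQ a b} (h : Ap (NFG a b m) x g) :
    pm m x = rdq a b m g := by
  show QuotientGroup.kerLift (rdq a b m) (pr (NFG a b m) x) = _
  rw [show pr (NFG a b m) x = QuotientGroup.mk' _ g from h]
  rfl

theorem pm_iH (m : ℕ+) (g : GQ a b) : pm m (iH a b g) = rdq a b m g := pm_ap m rfl

theorem rdq_map {m n : ℕ+} (h : (m : ℕ) ∣ n) (g : GQ a b) :
    SLm (Qfm a b (ZMod.castHom h (ZMod m))) (rdq a b n g) = rdq a b m g := by
  apply Subtype.ext
  refine Matrix.ext fun i j => ?_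
  apply QuadraticAlgebra.ext
  · show ZMod.castHom h (ZMod m) (((g.val i j).re : ℤ) : ZMod n) = (((g.val i j).re : ℤ) : ZMod m)
    rw [map_intCast]
  · show ZMod.castHom h (ZMod m) (((g.val i j).im : ℤ) : ZMod n) = (((g.val i j).im : ℤ) : ZMod m)
    rw [map_intCast]

theorem NFG_le {m n : ℕ+} (h : (m : ℕ) ∣ n) : (NFG a b n).N ≤ (NFG a b m).N := by
  intro g hg
  have h1 : rdq a b n g = 1 := hg
  show rdq a b m g = 1
  rw [← rdq_map h, h1, map_one]

theorem Ap_le {X Y : NF a b} (h : X.N ≤ Y.N) {x : GH a b} {g : GQ a b} (hx : Ap X x g) :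
    Ap Y x g := by
  show pr Y x = _
  rw [← show QuotientGroup.map X.N Y.N (MonoidHom.id _) h (pr X x) = pr Y x from x.2 X Y h,
    show pr X x = _ from hx]
  rfl

theorem pm_map {m n : ℕ+} (h : (m : ℕ) ∣ n) (x : GH a b) :
    SLm (Qfm a b (ZMod.castHom h (ZMod m))) (pm n x) = pm m x := by
  obtain ⟨g, hg⟩ := Ap_ex (NFG a b n) x
  rw [pm_ap n hg, pm_ap m (Ap_le (NFG_le h) hg), rdq_map]

/-- the entries of the matrix of `x` -/
def piE (x : GH a b) (i j : Fin 2) : OH a b :=
  ⟨⟨fun m => ((pm m x).val i j).re, fun m n h => by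
    show ZMod.castHom h (ZMod m) ((pm n x).val i j).re = ((pm m x).val i j).re
    rw [← pm_map h]
    rfl⟩, ⟨fun m => ((pm m x).val i j).im, fun m n h => by
    show ZMod.castHom h (ZMod m) ((pm n x).val i j).im = ((pm m x).val i j).im
    rw [← pm_map h]
    rfl⟩⟩

theorem OH_ext {x y : OH a b} (h : ∀ m : ℕ+, rH a b m x = rH a b m y) : x = y := by
  apply QuadraticAlgebra.ext
  · exact Subtype.ext (funext fun m => congrArg QuadraticAlgebra.re (h m))
  · exact Subtype.ext (funext fun m => congrArg QuadraticAlgebra.im (h m))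

/-- the matrix of `x` -/
def piH (a b : ℤ) : GH a b →* SL2 (OH a b) where
  toFun x := ⟨Matrix.of (piE x), by
    apply OH_ext
    intro m
    rw [Matrix.det_fin_two, map_sub, map_mul, map_mul, map_one]
    have h := (pm m x).2
    rw [Matrix.det_fin_two] at h
    exact h⟩
  map_one' := by
    apply Subtype.ext
    refine Matrix.ext fun i j => ?_
    apply OH_ext
    intro m
    show (pm m 1).val i j = rH a b m ((1 : Matrix (Fin 2) (Fin 2) (OH a b)) i j)
    rw [map_one]
    fin_cases i <;> fin_cases j <;> simp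
  map_mul' x y := by
    apply Subtype.ext
    refine Matrix.ext fun i j => ?_
    apply OH_ext
    intro m
    show (pm m (x * y)).val i j = rH a b m ((Matrix.of (piE x) * Matrix.of (piE y)) i j)
    rw [map_mul, Matrix.mul_apply, Fin.sum_univ_two, map_add, map_mul, map_mul]
    show ((pm m x).val * (pm m y).val) i j = _
    rw [Matrix.mul_apply, Fin.sum_univ_two]
    rfl

theorem piH_pm (m : ℕ+) (x : GH a b) : SLm (rH a b m) (piH a b x) = pm m x := rfl

theorem SL_jH_ext {x y : SL2 (OH a b)} (h : ∀ m : ℕ+, SLm (rH a b m) x = SLm (rH a b m) y) :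
    x = y := by
  apply Subtype.ext
  refine Matrix.ext fun i j => ?_
  apply OH_ext
  intro m
  exact congrFun (congrFun (congrArg Subtype.val (h m)) i) j

theorem piH_iH (g : GQ a b) : piH a b (iH a b g) = SLm (jH a b) g := by
  apply SL_jH_ext
  intro m
  rw [piH_pm, pm_iH]
  apply Subtype.ext
  refine Matrix.ext fun i j => ?_
  exact (rH_jH m (g.val i j)).symm

/-- the level of `X` -/
def lvN (X : NF a b) : ℕ+ := ⟨X.N.index, Nat.pos_of_ne_zero X.fin.index_ne_zero⟩

theorem eU_nsmul {R : Type} [CommRing R] (n : ℕ) (t : R) : (eU t : SL2 R) ^ n = eU ((n : R) * t) := by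
  induction n with
  | zero =>
    rw [pow_zero, Nat.cast_zero, zero_mul, eU_eq_tv, tv_zero_aux]
  | succ n ih =>
    rw [pow_succ, ih]
    apply Subtype.ext
    show (!![1, (n : R) * t; 0, 1] : Matrix (Fin 2) (Fin 2) R) * !![1, t; 0, 1] =
      !![1, ((n + 1 : ℕ) : R) * t; 0, 1]
    ext i j
    fin_cases i <;> fin_cases j <;> simp
    ring

theorem lvN_mem (X : NF a b) (t : Qf a b ℤ) : (eU (((lvN X : ℕ+) : ℕ) * t) : GQ a b) ∈ X.N := by
  rw [← eU_nsmul]
  exact Subgroup.pow_index_mem X.N (eU t)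

/-- a lift of the reduction modulo `m` -/
def lfH (m : ℕ+) (s : OH a b) : Qf a b ℤ := ⟨((rZ m s.re).val : ℤ), ((rZ m s.im).val : ℤ)⟩

theorem lfH_rH (m : ℕ+) (s : OH a b) :
    Qfm a b (Int.castRingHom (ZMod m)) (lfH m s) = rH a b m s := by
  apply QuadraticAlgebra.ext
  · show (((rZ m s.re).val : ℤ) : ZMod m) = rZ m s.re
    rw [Int.cast_natCast, ZMod.natCast_zmod_val]
  · show (((rZ m s.im).val : ℤ) : ZMod m) = rZ m s.im
    rw [Int.cast_natCast, ZMod.natCast_zmod_val]

theorem Qfm_dvd {m : ℕ} {x y : Qf a b ℤ} (h : Qfm a b (Int.castRingHom (ZMod m)) x =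
    Qfm a b (Int.castRingHom (ZMod m)) y) : ∃ z, x = y + (m : Qf a b ℤ) * z := by
  have h1 := congrArg QuadraticAlgebra.re h
  have h2 := congrArg QuadraticAlgebra.im h
  have h3 : ((x.re : ℤ) : ZMod m) = ((y.re : ℤ) : ZMod m) := h1
  have h4 : ((x.im : ℤ) : ZMod m) = ((y.im : ℤ) : ZMod m) := h2
  rw [eq_comm, ZMod.intCast_eq_intCast_iff_dvd_sub] at h3 h4
  obtain ⟨c, hc⟩ := h3
  obtain ⟨d, hd⟩ := h4
  refine ⟨⟨c, d⟩, ?_⟩
  apply QuadraticAlgebra.ext
  · simp
    linarith
  · simp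
    linarith

theorem rZ_map {m n : ℕ+} (h : (m : ℕ) ∣ n) (x : Zh) : ZMod.castHom h (ZMod m) (rZ n x) = rZ m x :=
  x.2 m n h

theorem rH_map {m n : ℕ+} (h : (m : ℕ) ∣ n) (s : OH a b) :
    Qfm a b (ZMod.castHom h (ZMod m)) (rH a b n s) = rH a b m s :=
  QuadraticAlgebra.ext (rZ_map h s.re) (rZ_map h s.im)

theorem Qfm_cast {m n : ℕ+} (h : (m : ℕ) ∣ n) (x : Qf a b ℤ) :
    Qfm a b (ZMod.castHom h (ZMod m)) (Qfm a b (Int.castRingHom (ZMod n)) x) =
      Qfm a b (Int.castRingHom (ZMod m)) x :=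
  QuadraticAlgebra.ext (map_intCast _ _) (map_intCast _ _)

theorem eU_add {R : Type} [CommRing R] (s t : R) : (eU (s + t) : SL2 R) = eU s * eU t := by
  rw [eU_eq_tv, eU_eq_tv, eU_eq_tv]
  exact (p_Vtv _ _ _ _).2.1

theorem uH_aux (X : NF a b) (m : ℕ+) (s : OH a b) (t : Qf a b ℤ)
    (hm : ∀ z : Qf a b ℤ, (eU (((m : ℕ+) : ℕ) * z) : GQ a b) ∈ X.N)
    (ht : rH a b m s = Qfm a b (Int.castRingHom (ZMod m)) t) (n : ℕ+) (h : (m : ℕ) ∣ n) :
    QuotientGroup.mk' X.N (eU (lfH n s)) = QuotientGroup.mk' X.N (eU t) := by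
  have h1 : Qfm a b (Int.castRingHom (ZMod m)) (lfH n s) =
      Qfm a b (Int.castRingHom (ZMod m)) t := by
    rw [← ht, ← Qfm_cast h, lfH_rH, rH_map]
  obtain ⟨z, hz⟩ := Qfm_dvd h1
  rw [hz, add_comm, eU_add, map_mul, show QuotientGroup.mk' X.N (eU (((m : ℕ+) : ℕ) * z)) = 1 from
    (QuotientGroup.eq_one_iff _).2 (hm z), one_mul]

/-- the closure of the group of the matrices `eU t` -/
def uH (s : OH a b) : GH a b := ⟨fun X => QuotientGroup.mk' X.N (eU (lfH (lvN X) s)), by
  intro X Y h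
  show QuotientGroup.mk' Y.N (eU (lfH (lvN X) s)) = QuotientGroup.mk' Y.N (eU (lfH (lvN Y) s))
  exact uH_aux Y (lvN Y) s (lfH (lvN Y) s) (lvN_mem Y) (lfH_rH _ s).symm (lvN X)
    (Subgroup.index_dvd_of_le h)⟩

/-- the approximation of `uH s` -/
theorem uH_ap (X : NF a b) (m : ℕ+) (s : OH a b) (t : Qf a b ℤ)
    (hm : ∀ z : Qf a b ℤ, (eU (((m : ℕ+) : ℕ) * z) : GQ a b) ∈ X.N)
    (ht : rH a b m s = Qfm a b (Int.castRingHom (ZMod m)) t) : Ap X (uH s) (eU t) := by
  show QuotientGroup.mk' X.N (eU (lfH (lvN X) s)) = QuotientGroup.mk' X.N (eU t)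
  have h1 := uH_aux X m s t hm ht (lvN X * m) (by
    rw [PNat.mul_coe]
    exact dvd_mul_left _ _)
  have h2 := uH_aux X (lvN X) s (lfH (lvN X) s) (lvN_mem X) (lfH_rH _ s).symm (lvN X * m) (by
    rw [PNat.mul_coe]
    exact dvd_mul_right _ _)
  rw [← h1, ← h2]

end

end Pool.Agent.F8.NL
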