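import Pool.Agent.Lib.MP_305fdd_al.F8.NL.StmI

/-!
# MP_305fdd_al, all lattices (project NL): definitions for block T (the vanishing theorem)

`evc m n P e` is the value of the form `P` of bidegree `(m, n)` at `e`, `conj e`, and `ev1 m n P x` the value at `(x, 1)`. `Gf m n c B R x = ev1 m n c x + B x^(m+1) + R conj x^(n+1)`. `TD m n N z e v c B R`: torus data of the crossed homomorphism `z` at the vector `e`, `v` is a complementary vector:
`z (tv e (N t))` at the vector `x e + v` is `Gf x - Gf (x - N t)`. The file proves the basic facts.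
-/

set_option autoImplicit false

namespace Pool.Agent.F8.NL

open Pool.Agent.F8.CG Pool.Agent.F8.BG Pool.Agent.MP_305fdd_al Pool.Agent.Lib.MP_305fdd_al
  Pool.Agent.F8
open scoped QuadraticAlgebra ComplexConjugate Kronecker

noncomputable section

/-! ### Forms of bidegree `(m, n)` -/

section Forms

variable {R : Type} [CommRing R]

theorem evM_add (m n : ℕ) (P Q : Fin (m + 1) × Fin (n + 1) → R) (e e' : Fin 2 → R) :
    evM m n (P + Q) e e' = evM m n P e e' + evM m n Q e e' := by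
  unfold evM
  rw [← Finset.sum_add_distrib]
  exact Finset.sum_congr rfl fun i _ => by rw [Pi.add_apply, add_mul]

theorem evM_csmul (m n : ℕ) (c : R) (P : Fin (m + 1) × Fin (n + 1) → R) (e e' : Fin 2 → R) :
    evM m n (c • P) e e' = c * evM m n P e e' := by
  unfold evM
  rw [Finset.mul_sum]
  exact Finset.sum_congr rfl fun i _ => by rw [Pi.smul_apply, smul_eq_mul, mul_assoc]

theorem evM_neg (m n : ℕ) (P : Fin (m + 1) × Fin (n + 1) → R) (e e' : Fin 2 → R) :
    evM m n (-P) e e' = -evM m n P e e' := by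
  unfold evM
  rw [← Finset.sum_neg_distrib]
  exact Finset.sum_congr rfl fun i _ => by rw [Pi.neg_apply, neg_mul]

theorem evM_sub (m n : ℕ) (P Q : Fin (m + 1) × Fin (n + 1) → R) (e e' : Fin 2 → R) :
    evM m n (P - Q) e e' = evM m n P e e' - evM m n Q e e' := by
  rw [sub_eq_add_neg, evM_add, evM_neg, sub_eq_add_neg]

theorem evM_zero (m n : ℕ) (e e' : Fin 2 → R) :
    evM m n (0 : Fin (m + 1) × Fin (n + 1) → R) e e' = 0 := by
  unfold evM
  exact Finset.sum_eq_zero fun i _ => by rw [Pi.zero_apply, zero_mul]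

theorem evM_smul (m n : ℕ) (P : Fin (m + 1) × Fin (n + 1) → R) (l l' : R) (e e' : Fin 2 → R) :
    evM m n P (l • e) (l' • e') = l ^ m * l' ^ n * evM m n P e e' := by
  unfold evM
  rw [Finset.mul_sum]
  refine Finset.sum_congr rfl fun p _ => ?_
  have h : m = (p.1 : ℕ) + (m - p.1) := by
    have := p.1.2
    omega
  have h' : n = (p.2 : ℕ) + (n - p.2) := by
    have := p.2.2
    omega
  simp only [Pi.smul_apply, smul_eq_mul, mul_pow]
  rw [show l ^ m = l ^ (p.1 : ℕ) * l ^ (m - p.1) by rw [← pow_add, ← h],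
    show l' ^ n = l' ^ (p.2 : ℕ) * l' ^ (n - p.2) by rw [← pow_add, ← h']]
  ring

/-- the leading coefficient -/
theorem evM_10 (m n : ℕ) (P : Fin (m + 1) × Fin (n + 1) → R) :
    evM m n P ![1, 0] ![1, 0] = P (Fin.last m, Fin.last n) := by
  unfold evM
  rw [Finset.sum_eq_single (Fin.last m, Fin.last n)]
  · simp
  · rintro ⟨i, j⟩ _ h
    simp only [Matrix.cons_val_zero, Matrix.cons_val_one, one_pow, one_mul]
    by_cases hi : i = Fin.last m
    · have hj : j ≠ Fin.last n := fun h' => h (by rw [hi, h'])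
      have : n - (j : ℕ) ≠ 0 := by
        have h1 := j.2
        have h2 : (j : ℕ) ≠ n := fun h3 => hj (Fin.ext h3)
        omega
      rw [zero_pow this, mul_zero, mul_zero]
    · have : m - (i : ℕ) ≠ 0 := by
        have h1 := i.2
        have h2 : (i : ℕ) ≠ m := fun h3 => hi (Fin.ext h3)
        omega
      rw [zero_pow this, zero_mul, mul_zero]
  · intro h
    exact absurd (Finset.mem_univ _) h

/-- the coefficient of `x^m` -/
theorem evM_11 (m n : ℕ) (P : Fin (m + 1) × Fin (n + 1) → R) :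
    evM m n P ![1, 0] ![0, 1] = P (Fin.last m, 0) := by
  unfold evM
  rw [Finset.sum_eq_single (Fin.last m, 0)]
  · simp
  · rintro ⟨i, j⟩ _ h
    simp only [Matrix.cons_val_zero, Matrix.cons_val_one, one_pow, one_mul, mul_one]
    by_cases hi : i = Fin.last m
    · have hj : j ≠ 0 := fun h' => h (by rw [hi, h'])
      have : (j : ℕ) ≠ 0 := fun h3 => hj (Fin.ext h3)
      rw [zero_pow this, mul_zero, mul_zero]
    · have : m - (i : ℕ) ≠ 0 := by
        have h1 := i.2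
        have h2 : (i : ℕ) ≠ m := fun h3 => hi (Fin.ext h3)
        omega
      rw [zero_pow this, zero_mul, mul_zero]
  · intro h
    exact absurd (Finset.mem_univ _) h

/-- the substitution of linear forms in a form of bidegree `(m, n)` -/
def sb2 (m n : ℕ) (A A' : Matrix (Fin 2) (Fin 2) R) (P : Fin (m + 1) × Fin (n + 1) → R) :
    Fin (m + 1) × Fin (n + 1) → R := (sb m A ⊗ₖ sb n A').mulVec P

theorem sb_mono (m : ℕ) (A : Matrix (Fin 2) (Fin 2) R) (j : Fin (m + 1)) (e : Fin 2 → R) :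
    ∑ i : Fin (m + 1), sb m A i j * (e 0 ^ (i : ℕ) * e 1 ^ (m - i)) =
      (A.mulVec e 0) ^ (j : ℕ) * (A.mulVec e 1) ^ (m - j) := by
  have h := evm_sb m A (Pi.single j 1) e
  unfold evm at h
  rw [Finset.sum_eq_single (a := j) (f := fun i : Fin (m + 1) => (Pi.single j 1 : Fin (m + 1) → R) i *
    ((A.mulVec e 0) ^ (i : ℕ) * (A.mulVec e 1) ^ (m - i)))] at h
  · rw [Pi.single_eq_same, one_mul] at h
    rw [← h]
    refine Finset.sum_congr rfl fun i _ => ?_
    rw [Matrix.mulVec_single_one]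
    rfl
  · intro i _ hi
    rw [Pi.single_eq_of_ne hi, zero_mul]
  · intro h'
    exact absurd (Finset.mem_univ _) h'

theorem evM_sb2 (m n : ℕ) (A A' : Matrix (Fin 2) (Fin 2) R) (P : Fin (m + 1) × Fin (n + 1) → R)
    (e e' : Fin 2 → R) :
    evM m n (sb2 m n A A' P) e e' = evM m n P (A.mulVec e) (A'.mulVec e') := by
  unfold evM sb2
  simp only [Matrix.mulVec, dotProduct, Finset.sum_mul]
  rw [Finset.sum_comm]
  refine Finset.sum_congr rfl fun q _ => ?_
  have h1 := sb_mono m A q.1 e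
  have h2 := sb_mono n A' q.2 e'
  simp only [Matrix.mulVec, dotProduct] at h1 h2
  rw [← h1, ← h2, Finset.sum_mul_sum, Finset.mul_sum, ← Finset.univ_product_univ,
    Finset.sum_product]
  refine Finset.sum_congr rfl fun i _ => ?_
  rw [Finset.mul_sum]
  refine Finset.sum_congr rfl fun j _ => ?_
  rw [Matrix.kroneckerMap_apply]
  ring

theorem tM_sb2 {a b : ℤ} {L : Type} [CommRing L] (m n : ℕ) (f f' : Qf a b ℤ →+* L) (g : GQ a b)
    (P : Fin (m + 1) × Fin (n + 1) → L) : (tM m n f f' g).mulVec P =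
      sb2 m n ((g⁻¹).val.map f) ((g⁻¹).val.map f') P := by
  show (sb m ((SLm f g)⁻¹).val ⊗ₖ sb n ((SLm f' g)⁻¹).val).mulVec P = _
  rw [← map_inv, ← map_inv]
  rfl

theorem evM_tM {a b : ℤ} {L : Type} [CommRing L] (m n : ℕ) (f f' : Qf a b ℤ →+* L) (g : GQ a b)
    (P : Fin (m + 1) × Fin (n + 1) → L) (e e' : Fin 2 → L) :
    evM m n ((tM m n f f' g).mulVec P) e e' =
      evM m n P (((g⁻¹).val.map f).mulVec e) (((g⁻¹).val.map f').mulVec e') := by
  rw [tM_sb2, evM_sb2]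

end Forms

/-! ### The complex values -/

variable {a b : ℤ}

/-- the value of a form at `e`, `conj e` -/
def evc (m n : ℕ) (P : Fin (m + 1) × Fin (n + 1) → ℂ) (e : Fin 2 → ℂ) : ℂ :=
  evM m n P e fun i => conj (e i)

/-- the value of a form at the vector `(x, 1)` -/
def ev1 (m n : ℕ) (P : Fin (m + 1) × Fin (n + 1) → ℂ) (x : ℂ) : ℂ := evc m n P ![x, 1]

theorem conj_vec (x y : ℂ) : (fun i => conj ((![x, y] : Fin 2 → ℂ) i)) = ![conj x, conj y] := by
  funext i
  fin_cases i <;> rfl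

theorem ev1_eq (m n : ℕ) (P : Fin (m + 1) × Fin (n + 1) → ℂ) (x : ℂ) :
    ev1 m n P x = ∑ p, P p * (x ^ (p.1 : ℕ) * conj x ^ (p.2 : ℕ)) := by
  unfold ev1 evc evM
  refine Finset.sum_congr rfl fun p _ => ?_
  rw [conj_vec]
  simp

theorem evc_add (m n : ℕ) (P Q : Fin (m + 1) × Fin (n + 1) → ℂ) (e : Fin 2 → ℂ) :
    evc m n (P + Q) e = evc m n P e + evc m n Q e := evM_add m n P Q e _

theorem evc_sub (m n : ℕ) (P Q : Fin (m + 1) × Fin (n + 1) → ℂ) (e : Fin 2 → ℂ) :
    evc m n (P - Q) e = evc m n P e - evc m n Q e := evM_sub m n P Q e _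

theorem evc_neg (m n : ℕ) (P : Fin (m + 1) × Fin (n + 1) → ℂ) (e : Fin 2 → ℂ) :
    evc m n (-P) e = -evc m n P e := evM_neg m n P e _

theorem evc_csmul (m n : ℕ) (c : ℂ) (P : Fin (m + 1) × Fin (n + 1) → ℂ) (e : Fin 2 → ℂ) :
    evc m n (c • P) e = c * evc m n P e := evM_csmul m n c P e _

theorem evc_smul (m n : ℕ) (P : Fin (m + 1) × Fin (n + 1) → ℂ) (l : ℂ) (e : Fin 2 → ℂ) :
    evc m n P (l • e) = l ^ m * conj l ^ n * evc m n P e := by
  unfold evc
  have h : (fun i => conj ((l • e) i)) = conj l • fun i => conj (e i) := by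
    funext i
    simp
  rw [h, evM_smul]

/-- the leading coefficient -/
theorem evc_10 (m n : ℕ) (P : Fin (m + 1) × Fin (n + 1) → ℂ) :
    evc m n P ![1, 0] = P (Fin.last m, Fin.last n) := by
  unfold evc
  rw [conj_vec, map_one, map_zero, evM_10]

theorem conj_mv (A : Matrix (Fin 2) (Fin 2) ℂ) (e : Fin 2 → ℂ) :
    (fun i => conj (A.mulVec e i)) = (A.map (starRingEnd ℂ)).mulVec fun i => conj (e i) := by
  funext i
  simp [Matrix.mulVec, dotProduct]

/-- the substitution `P ∘ A` -/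
def sbC (m n : ℕ) (A : Matrix (Fin 2) (Fin 2) ℂ) (P : Fin (m + 1) × Fin (n + 1) → ℂ) :
    Fin (m + 1) × Fin (n + 1) → ℂ := sb2 m n A (A.map (starRingEnd ℂ)) P

theorem evc_sbC (m n : ℕ) (A : Matrix (Fin 2) (Fin 2) ℂ) (P : Fin (m + 1) × Fin (n + 1) → ℂ)
    (e : Fin 2 → ℂ) : evc m n (sbC m n A P) e = evc m n P (A.mulVec e) := by
  unfold evc sbC
  rw [evM_sb2, conj_mv]

/-- equivariance -/
theorem evc_tM (m n : ℕ) (g : GQ a b) (P : Fin (m + 1) × Fin (n + 1) → ℂ) (e : Fin 2 → ℂ) :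
    evc m n ((tM m n (iC a b) (cC a b) g).mulVec P) e =
      evc m n P ((iG a b g⁻¹).val.mulVec e) := by
  unfold evc
  rw [evM_tM, conj_mv]
  rfl

theorem mv_mv (g h : SL2 ℂ) (e : Fin 2 → ℂ) :
    (g * h).val.mulVec e = g.val.mulVec (h.val.mulVec e) := by
  rw [Matrix.mulVec_mulVec]
  rfl

theorem mv_mvO (g h : GQ a b) (e : Fin 2 → Qf a b ℤ) :
    (g * h).val.mulVec e = g.val.mulVec (h.val.mulVec e) := by
  rw [Matrix.mulVec_mulVec]
  rfl

theorem mv_inv (g : GQ a b) (e : Fin 2 → ℂ) :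
    (iG a b g⁻¹).val.mulVec ((iG a b g).val.mulVec e) = e := by
  rw [← mv_mv, ← map_mul, inv_mul_cancel, map_one]
  exact Matrix.one_mulVec e

theorem mv_inv' (g : GQ a b) (e : Fin 2 → ℂ) :
    (iG a b g).val.mulVec ((iG a b g⁻¹).val.mulVec e) = e := by
  rw [← mv_mv, ← map_mul, mul_inv_cancel, map_one]
  exact Matrix.one_mulVec e

theorem vC_mv (g : GQ a b) (e : Fin 2 → Qf a b ℤ) :
    vC a b (g.val.mulVec e) = (iG a b g).val.mulVec (vC a b e) := by
  funext i
  show iC a b (g.val.mulVec e i) = (g.val.map (iC a b)).mulVec (vC a b e) i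
  simp [Matrix.mulVec, dotProduct, vC]

theorem vC_smul (l : Qf a b ℤ) (e : Fin 2 → Qf a b ℤ) : vC a b (l • e) = iC a b l • vC a b e := by
  funext i
  show iC a b (l * e i) = _
  rw [map_mul]
  rfl

theorem vC_col (g : GQ a b) (j : Fin 2) :
    vC a b (colG g j) = (iG a b g).val.mulVec (Pi.single j 1) := by
  funext i
  rw [Matrix.mulVec_single_one]
  rfl

theorem iG_tv (e : Fin 2 → Qf a b ℤ) (t : Qf a b ℤ) :
    iG a b (tv e t) = tv (vC a b e) (iC a b t) := SLm_tv (iC a b) e t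

/-- transvections -/
theorem tv_mv (e : Fin 2 → Qf a b ℤ) (t : Qf a b ℤ) (v : Fin 2 → ℂ) :
    (iG a b (tv e t)).val.mulVec v = v + (iC a b t * CG.om (vC a b e) v) • vC a b e := by
  rw [iG_tv]
  exact (p_Vtv ℂ (vC a b e) 0 (iC a b t)).1 v

theorem tv_inv (e : Fin 2 → Qf a b ℤ) (t : Qf a b ℤ) : (tv e t : GQ a b)⁻¹ = tv e (-t) := by
  rw [inv_eq_iff_mul_eq_one, ← (p_Vtv _ e t (-t)).2.1, add_neg_cancel, tv_zero_aux]

theorem om_self (e : Fin 2 → ℂ) : CG.om e e = 0 := by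
  unfold CG.om
  ring

theorem om_add (e v w : Fin 2 → ℂ) : CG.om e (v + w) = CG.om e v + CG.om e w := by
  unfold CG.om
  simp only [Pi.add_apply]
  ring

theorem om_smul (e v : Fin 2 → ℂ) (c : ℂ) : CG.om e (c • v) = c * CG.om e v := by
  unfold CG.om
  simp only [Pi.smul_apply, smul_eq_mul]
  ring

theorem om_smul' (e v : Fin 2 → ℂ) (c : ℂ) : CG.om (c • e) v = c * CG.om e v := by
  unfold CG.om
  simp only [Pi.smul_apply, smul_eq_mul]
  ring

theorem om_mv (g : GQ a b) (e v : Fin 2 → ℂ) :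
    CG.om ((iG a b g).val.mulVec e) ((iG a b g).val.mulVec v) = CG.om e v :=
  (p_Vtv ℂ e 0 0).2.2.2.2.2 (iG a b g) v

/-- vectors with `ω(e, v) = 0` -/
theorem om_par (e v : Fin 2 → ℂ) (he : e ≠ 0) (h : CG.om e v = 0) : ∃ c : ℂ, v = c • e := by
  unfold CG.om at h
  by_cases h0 : e 0 = 0
  · have h1 : e 1 ≠ 0 := fun h1 => he (by
      funext i
      fin_cases i
      · exact h0
      · exact h1)
    refine ⟨v 1 / e 1, ?_⟩
    funext i
    fin_cases i
    · show v 0 = v 1 / e 1 * e 0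
      rw [h0, zero_mul, zero_sub, neg_eq_zero] at h
      rw [h0, mul_zero]
      exact (mul_eq_zero.1 h).resolve_left h1
    · show v 1 = v 1 / e 1 * e 1
      field_simp
  · refine ⟨v 0 / e 0, ?_⟩
    funext i
    fin_cases i
    · show v 0 = v 0 / e 0 * e 0
      field_simp
    · show v 1 = v 0 / e 0 * e 1
      field_simp
      linear_combination h

/-- complementary vectors exist -/
theorem om_ex (e : Fin 2 → ℂ) (he : e ≠ 0) : ∃ v, CG.om e v = 1 := by
  by_cases h0 : e 0 = 0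
  · have h1 : e 1 ≠ 0 := fun h1 => he (by
      funext i
      fin_cases i
      · exact h0
      · exact h1)
    refine ⟨![-(e 1)⁻¹, 0], ?_⟩
    simp [CG.om, h1]
  · refine ⟨![0, (e 0)⁻¹], ?_⟩
    simp [CG.om, h0]

/-- the embedding is injective -/
theorem iCinj (h : b ^ 2 + 4 * a < 0) {x y : Qf a b ℤ} (hxy : iC a b x = iC a b y) : x = y := by
  rw [iC_apply, iC_apply] at hxy
  have him := wC_im h
  have h1 := congrArg Complex.im hxy
  simp only [Complex.add_im, Complex.intCast_im, Complex.mul_im, Complex.intCast_re, zero_mul,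
    add_zero, zero_add] at h1
  have h2 : x.im = y.im := by
    have : ((x.im : ℤ) : ℝ) = y.im := mul_right_cancel₀ him.ne' h1
    exact_mod_cast this
  have h3 := congrArg Complex.re hxy
  rw [h2] at h3
  have h4 : x.re = y.re := by
    simp only [Complex.add_re, Complex.intCast_re] at h3
    have : ((x.re : ℤ) : ℝ) = y.re := by linarith
    exact_mod_cast this
  exact QuadraticAlgebra.ext h4 h2

theorem iC_ne (h : b ^ 2 + 4 * a < 0) {x : Qf a b ℤ} (hx : x ≠ 0) : iC a b x ≠ 0 := fun h0 =>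
  hx (iCinj h (by rw [h0, map_zero]))

theorem vC_ne (h : b ^ 2 + 4 * a < 0) {e : Fin 2 → Qf a b ℤ} (he : e ≠ 0) : vC a b e ≠ 0 := by
  intro h0
  apply he
  funext i
  exact iCinj h (show iC a b (e i) = iC a b 0 by
    rw [map_zero]
    exact congrFun h0 i)

/-- `1`, `w` are independent of their conjugates -/
theorem cj_ind (h : b ^ 2 + 4 * a < 0) {x y : ℂ}
    (hxy : ∀ t : Qf a b ℤ, x * iC a b t + y * conj (iC a b t) = 0) : x = 0 ∧ y = 0 := by
  have h1 := hxy 1
  have h2 := hxy ⟨0, 1⟩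
  rw [map_one, map_one, mul_one, mul_one] at h1
  rw [iC_apply] at h2
  simp only [Int.cast_zero, Int.cast_one, one_mul, zero_add] at h2
  have h3 : x * (CG.wC a b - conj (CG.wC a b)) = 0 := by
    linear_combination h2 - conj (CG.wC a b) * h1
  have h4 : CG.wC a b - conj (CG.wC a b) ≠ 0 := by
    intro h5
    have h6 := congrArg Complex.im h5
    simp only [Complex.sub_im, Complex.conj_im, Complex.zero_im] at h6
    have := wC_im h
    linarith
  have h5 : x = 0 := (mul_eq_zero.1 h3).resolve_right h4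
  refine ⟨h5, ?_⟩
  rw [h5, zero_add] at h1
  exact h1

/-! ### Levels -/

theorem tv_nsmul {R : Type} [CommRing R] (n : ℕ) (e : Fin 2 → R) (t : R) :
    (tv e t : SL2 R) ^ n = tv e ((n : R) * t) := by
  induction n with
  | zero => rw [pow_zero, Nat.cast_zero, zero_mul, tv_zero_aux]
  | succ n ih =>
    rw [pow_succ, ih, ← (p_Vtv R e _ _).2.1]
    congr 1
    push_cast
    ring

/-- subgroups of finite index have a level -/
theorem Lv_ex (W : Subgroup (GQ a b)) (hW : W.FiniteIndex) : ∃ N, Lv W N := by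
  refine ⟨W.index.factorial, Nat.factorial_ne_zero _, fun e t => ?_⟩
  rw [← tv_nsmul]
  exact Subgroup.pow_mem_of_index_ne_zero_of_dvd hW.index_ne_zero (tv e t) fun m h1 h2 =>
    Nat.dvd_factorial h1 h2

/-! ### Crossed homomorphisms -/

section CHom

variable {G ι L : Type} [Group G] [Fintype ι] [DecidableEq ι] [CommRing L]
  {τ : G →* Matrix ι ι L} {W : Subgroup G} {z : G → ι → L}

theorem CH_one (h : CH τ W z) : z 1 = 0 := by
  have h1 := h 1 W.one_mem 1 W.one_mem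
  rw [mul_one, map_one, Matrix.one_mulVec] at h1
  exact (add_eq_left.1 h1.symm)

theorem CH_inv (h : CH τ W z) {x : G} (hx : x ∈ W) : z x⁻¹ = -(τ x⁻¹).mulVec (z x) := by
  have h1 := h x⁻¹ (inv_mem hx) x hx
  rw [inv_mul_cancel, CH_one h] at h1
  exact eq_neg_of_add_eq_zero_left h1.symm

theorem CH_conj (h : CH τ W z) {x p : G} (hx : x ∈ W) (hp : p ∈ W) :
    z (x * p * x⁻¹) = z x + (τ x).mulVec (z p) - (τ (x * p * x⁻¹)).mulVec (z x) := by
  rw [h _ (mul_mem hx hp) _ (inv_mem hx), h x hx p hp, CH_inv h hx, Matrix.mulVec_neg,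
    Matrix.mulVec_mulVec, ← map_mul]
  abel

end CHom

/-! ### Pairs -/

/-- the vector of a pair -/
def pv (e : ℂ × ℂ) : Fin 2 → ℂ := ![e.1, e.2]

theorem pv_va (g : GQ a b) (e : ℂ × ℂ) : pv (va g e) = (iG a b g).val.mulVec (pv e) := by
  funext i
  show _ = (g.val.map (iC a b)).mulVec (pv e) i
  fin_cases i <;> simp [pv, va, Matrix.mulVec, dotProduct]

theorem pv_smul (l : ℂ) (e : ℂ × ℂ) : pv (l * e.1, l * e.2) = l • pv e := by
  funext i
  fin_cases i <;> simp [pv]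

/-- the function of a form on pairs -/
theorem evc_pv (m n : ℕ) (P : Fin (m + 1) × Fin (n + 1) → ℂ) (e : ℂ × ℂ) : evc m n P (pv e) =
    ∑ p, P p * (e.1 ^ (p.1 : ℕ) * e.2 ^ (m - p.1) *
      (conj e.1 ^ (p.2 : ℕ) * conj e.2 ^ (n - p.2))) := by
  unfold evc evM pv
  rw [conj_vec]
  rfl

theorem evc_mem (m n : ℕ) (P : Fin (m + 1) × Fin (n + 1) → ℂ) :
    (fun e : ℂ × ℂ => evc m n P (pv e)) ∈ PolH m n := by
  have h : (fun e : ℂ × ℂ => evc m n P (pv e)) = ∑ p, P p • fun e : ℂ × ℂ =>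
      e.1 ^ (p.1 : ℕ) * e.2 ^ (m - p.1) * (conj e.1 ^ (p.2 : ℕ) * conj e.2 ^ (n - p.2)) := by
    funext e
    rw [evc_pv, Finset.sum_apply]
    rfl
  rw [h]
  exact Submodule.sum_mem _ fun p _ => Submodule.smul_mem _ _ (Submodule.subset_span ⟨p, rfl⟩)

theorem mem_evc (m n : ℕ) (P : ℂ × ℂ → ℂ) (hP : P ∈ PolH m n) :
    ∃ c : Fin (m + 1) × Fin (n + 1) → ℂ, ∀ e, P e = evc m n c (pv e) := by
  unfold PolH at hP
  induction hP using Submodule.span_induction with
  | mem x h =>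
    obtain ⟨p, rfl⟩ := h
    refine ⟨Pi.single p 1, fun e => ?_⟩
    rw [evc_pv, Finset.sum_eq_single p]
    · rw [Pi.single_eq_same, one_mul]
    · intro q _ hq
      rw [Pi.single_eq_of_ne hq, zero_mul]
    · intro h
      exact absurd (Finset.mem_univ _) h
  | zero => exact ⟨0, fun e => by rw [evc_pv]; simp⟩
  | add x y _ _ hx hy =>
    obtain ⟨c, hc⟩ := hx
    obtain ⟨d, hd⟩ := hy
    exact ⟨c + d, fun e => by rw [evc_add, Pi.add_apply, hc, hd]⟩
  | smul k x _ hx =>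
    obtain ⟨c, hc⟩ := hx
    exact ⟨k • c, fun e => by rw [evc_csmul, Pi.smul_apply, hc, smul_eq_mul]⟩

/-! ### Torus data -/

/-- the functions on the torus -/
def Gf (m n : ℕ) (c : Fin (m + 1) × Fin (n + 1) → ℂ) (B R : ℂ) (x : ℂ) : ℂ :=
  ev1 m n c x + B * x ^ (m + 1) + R * conj x ^ (n + 1)

/-- torus data -/
def TD (m n N : ℕ) (z : GQ a b → Fin (m + 1) × Fin (n + 1) → ℂ) (e : Fin 2 → Qf a b ℤ)
    (v : Fin 2 → ℂ) (c : Fin (m + 1) × Fin (n + 1) → ℂ) (B R : ℂ) : Prop :=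
  ∀ (t : Qf a b ℤ) (x : ℂ), evc m n (z (tv e ((N : Qf a b ℤ) * t))) (x • vC a b e + v) =
    Gf m n c B R x - Gf m n c B R (x - N * iC a b t)

/-- the homogeneous function of a crossed homomorphism -/
structure HFn (m n N : ℕ) (W : Subgroup (GQ a b)) (z : GQ a b → Fin (m + 1) × Fin (n + 1) → ℂ)
    (f : (Fin 2 → Qf a b ℤ) → ℂ) : Prop where
  /-- homogeneous -/
  hom : ∀ (l : Qf a b ℤ) (e : Fin 2 → Qf a b ℤ), l ≠ 0 → e ≠ 0 →
    f (l • e) = iC a b l ^ m * conj (iC a b l) ^ n * f e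
  /-- equivariant -/
  eqv : ∀ x ∈ W, ∀ e : Fin 2 → Qf a b ℤ, e ≠ 0 →
    f (x.val.mulVec e) = f e - evc m n (z x) (vC a b (x.val.mulVec e))
  /-- the values on the unipotent elements -/
  uni : ∀ g : GQ a b, ∃ (c : Fin (m + 1) × Fin (n + 1) → ℂ) (R : ℂ),
    c (Fin.last m, Fin.last n) = -f (colG g 0) ∧ TD m n N z (colG g 0) (vC a b (colG g 1)) c 0 R

/-- the extension of the homogeneous function to `k²` -/
structure FxM (m n : ℕ) (W : Subgroup (GQ a b)) (z : GQ a b → Fin (m + 1) × Fin (n + 1) → ℂ)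
    (f : (Fin 2 → Qf a b ℤ) → ℂ) (F : ℂ × ℂ → ℂ) : Prop where
  /-- zero -/
  zer : F 0 = 0
  /-- homogeneous -/
  hom : ∀ (l : ℂ) (e : ℂ × ℂ), l ∈ kC a b → l ≠ 0 → e.1 ∈ kC a b → e.2 ∈ kC a b →
    F (l * e.1, l * e.2) = l ^ m * conj l ^ n * F e
  /-- extension -/
  ext : ∀ e : Fin 2 → Qf a b ℤ, e ≠ 0 → F (iC a b (e 0), iC a b (e 1)) = f e
  /-- equivariant -/
  eqv : ∀ x ∈ W, ∀ e : ℂ × ℂ, e.1 ∈ kC a b → e.2 ∈ kC a b → e ≠ 0 →
    F (va x e) = F e - evc m n (z x) (pv (va x e))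

end

end Pool.Agent.F8.NL
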