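import Pool.Agent.Lib.MP_305fdd_al.F8.NL.StmA

set_option autoImplicit false

namespace Pool.Agent.F8.NL

open Pool.Agent.F8.CG Pool.Agent.F8.BG Pool.Agent.MP_305fdd_al Pool.Agent.Lib.MP_305fdd_al
  Pool.Agent.F8
open scoped QuadraticAlgebra ComplexConjugate

noncomputable section

private theorem Aapp_iC_inj {a b : ℤ} (h : b ^ 2 + 4 * a < 0) (x : Qf a b ℤ)
    (hx : iC a b x = 0) : x = 0 := by
  have him := wC_im h
  rw [iC_apply] at hx
  have h1 := congrArg Complex.im hx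
  have h2 := congrArg Complex.re hx
  simp only [Complex.add_im, Complex.intCast_im, Complex.mul_im, Complex.intCast_re, zero_mul,
    add_zero, zero_add, Complex.zero_im] at h1
  simp only [Complex.add_re, Complex.intCast_re, Complex.mul_re, Complex.intCast_im, zero_mul,
    sub_zero, Complex.zero_re] at h2
  have h3 : (x.im : ℝ) = 0 := by
    rcases mul_eq_zero.1 h1 with h | h
    · exact h
    · exact absurd h him.ne'
  rw [h3, zero_mul, add_zero] at h2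
  have h4 : x.im = 0 := by exact_mod_cast h3
  have h5 : x.re = 0 := by exact_mod_cast h2
  ext
  · exact h5
  · exact h4

/-- linear forms -/
private theorem Aapp_lin {a b : ℤ} {x : ℂ} (hx : x ∈ kC a b) (r s : Qf a b ℤ) :
    iC a b r * x + iC a b s * 1 ∈ kC a b := by
  obtain ⟨p, q, hq, h⟩ := hx
  refine ⟨r * p + s * q, q, hq, ?_⟩
  rw [map_add, map_mul, map_mul]
  linear_combination iC a b r * h

/-- quotients -/
private theorem Aapp_quo {a b : ℤ} (hn : b ^ 2 + 4 * a < 0) {x y : ℂ} (hx : x ∈ kC a b)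
    (hy : y ∈ kC a b) (h0 : y ≠ 0) : x / y ∈ kC a b := by
  obtain ⟨p, q, hq, h⟩ := hx
  obtain ⟨p', q', hq', h'⟩ := hy
  have n1 : iC a b q' ≠ 0 := fun e => hq' (Aapp_iC_inj hn _ e)
  have n2 : iC a b q ≠ 0 := fun e => hq (Aapp_iC_inj hn _ e)
  refine ⟨p * q', p' * q, ?_, ?_⟩
  · intro e
    have e1 := congrArg (iC a b) e
    rw [map_mul, ← h', map_zero] at e1
    exact mul_ne_zero (mul_ne_zero h0 n1) n2 e1
  · rw [map_mul, map_mul, ← h', ← h]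
    field_simp

private theorem Aapp_one_mem (a b : ℤ) : (1 : ℂ) ∈ kC a b :=
  ⟨1, 1, one_ne_zero, by rw [map_one, mul_one]⟩

private theorem Aapp_zero_mem (a b : ℤ) : (0 : ℂ) ∈ kC a b :=
  ⟨0, 1, one_ne_zero, by rw [map_one, map_zero, mul_one]⟩

/-- the numerical estimate -/
private theorem Aapp_est (n k : ℕ) (κ u v D δ : ℝ) (hu : 0 ≤ u) (hv : 0 ≤ v)
    (hD : 0 < D) (hD5 : D ≤ 5 * δ) (hδ : 0 < δ) (h1 : v ^ 2 ≤ 2 * D)
    (h2 : u ^ 2 ≤ 2 * (D + δ ^ 2 / D)) :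
    (κ * (v ^ (n + 1 + k) * (v + u) ^ (n + 1))) ^ 2 ≤
      (κ ^ 2 * (10 ^ k * 408 ^ (n + 1))) * δ ^ (n + 2 + k + n) := by
  have h3 : (v + u) ^ 2 ≤ 8 * D + 4 * (δ ^ 2 / D) := by nlinarith [sq_nonneg (v - u)]
  have h4 : 0 ≤ 8 * D + 4 * (δ ^ 2 / D) := by positivity
  have h5 : v ^ 2 * (v + u) ^ 2 ≤ 408 * δ ^ 2 := by
    calc v ^ 2 * (v + u) ^ 2 ≤ 2 * D * (8 * D + 4 * (δ ^ 2 / D)) :=
          mul_le_mul h1 h3 (by positivity) (by positivity)
      _ = 16 * D ^ 2 + 8 * δ ^ 2 := by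
          field_simp
          ring
      _ ≤ 408 * δ ^ 2 := by nlinarith
  have h6 : (v ^ 2 * (v + u) ^ 2) ^ (n + 1) ≤ (408 * δ ^ 2) ^ (n + 1) :=
    pow_le_pow_left₀ (by positivity) h5 _
  have h7 : (v ^ 2) ^ k ≤ (10 * δ) ^ k :=
    pow_le_pow_left₀ (by positivity) (by linarith) _
  have gen : ∀ w : ℝ, (κ * (v ^ (n + 1 + k) * w ^ (n + 1))) ^ 2 =
      κ ^ 2 * ((v ^ 2 * w ^ 2) ^ (n + 1) * (v ^ 2) ^ k) := fun w => by ring
  calc (κ * (v ^ (n + 1 + k) * (v + u) ^ (n + 1))) ^ 2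
      = κ ^ 2 * ((v ^ 2 * (v + u) ^ 2) ^ (n + 1) * (v ^ 2) ^ k) := gen (v + u)
    _ ≤ κ ^ 2 * ((408 * δ ^ 2) ^ (n + 1) * (10 * δ) ^ k) := by
        apply mul_le_mul_of_nonneg_left _ (sq_nonneg κ)
        exact mul_le_mul h6 h7 (by positivity) (by positivity)
    _ = (κ ^ 2 * (10 ^ k * 408 ^ (n + 1))) * δ ^ (n + 2 + k + n) := by ring

/-- [NL A app] local approximation by polynomials -/
theorem p_Aapp (hpol : A_pol) (hgr : A_gr) (hred : A_red) : A_app := by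
  intro a b hn hE hP m n hmn Ω _ _ F hF
  obtain ⟨κ, hκ, hgrow⟩ := hgr a b hn hE m n (by omega) Ω F hF
  obtain ⟨k, rfl⟩ := Nat.exists_eq_add_of_le hmn
  refine ⟨κ ^ 2 * (10 ^ k * 408 ^ (n + 1)), by positivity, ?_⟩
  intro o x₀ δ hδ _
  obtain ⟨g, D, hD, hD5, hr1, hr2⟩ := hred a b hn hE hP x₀ δ hδ
  obtain ⟨P, hPm, hPe⟩ := hF.eqv g (g • o)
  refine ⟨-P, (PolH (n + 2 + k) n).neg_mem hPm, ?_⟩
  intro x hx hxx
  have he0 : ((x, 1) : ℂ × ℂ) ≠ 0 := fun e => one_ne_zero (congrArg Prod.snd e)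
  have h1 := hPe (x, 1) hx (Aapp_one_mem a b) he0
  rw [inv_smul_smul] at h1
  have h2 : F o (x, 1) - (-P) (x, 1) = F (g • o) (va g (x, 1)) := by
    rw [h1, Pi.neg_apply, sub_neg_eq_add]
  rw [h2]
  set U : ℂ := iC a b (g.val 0 0) * x + iC a b (g.val 0 1) * 1 with hU
  set V : ℂ := iC a b (g.val 1 0) * x + iC a b (g.val 1 1) * 1 with hV
  have hva : va g (x, 1) = (U, V) := rfl
  have hUk : U ∈ kC a b := Aapp_lin hx _ _
  have hVk : V ∈ kC a b := Aapp_lin hx _ _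
  rw [hva]
  -- the norms
  have key : ∀ r s : ℂ, ‖r * x + s * 1‖ ^ 2 ≤ 2 * (‖r * x₀ + s‖ ^ 2 + (‖r‖ * δ) ^ 2) := by
    intro r s
    have e1 : r * x + s * 1 = (r * x₀ + s) + r * (x - x₀) := by ring
    have e2 : ‖r * x + s * 1‖ ≤ ‖r * x₀ + s‖ + ‖r‖ * δ := by
      rw [e1]
      refine (norm_add_le _ _).trans (add_le_add le_rfl ?_)
      rw [norm_mul]
      exact mul_le_mul_of_nonneg_left hxx (norm_nonneg _)
    have e3 : ‖r * x + s * 1‖ ^ 2 ≤ (‖r * x₀ + s‖ + ‖r‖ * δ) ^ 2 :=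
      pow_le_pow_left₀ (norm_nonneg _) e2 2
    nlinarith [sq_nonneg (‖r * x₀ + s‖ - ‖r‖ * δ)]
  have hV2 : ‖V‖ ^ 2 ≤ 2 * D := by
    have := key (iC a b (g.val 1 0)) (iC a b (g.val 1 1))
    rw [hr1] at this
    exact this
  have hU2 : ‖U‖ ^ 2 ≤ 2 * (D + δ ^ 2 / D) := by
    have := key (iC a b (g.val 0 0)) (iC a b (g.val 0 1))
    exact this.trans (mul_le_mul_of_nonneg_left hr2 (by norm_num))
  by_cases hV0 : V = 0
  · -- the denominator is zero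
    have hU0 : U ≠ 0 := by
      intro hU0
      have e1 : va g⁻¹ (va g (x, 1)) = (x, 1) := by rw [← va_mul, inv_mul_cancel, va_one]
      rw [hva, hU0, hV0] at e1
      have e2 := congrArg Prod.snd e1
      simp [va] at e2
    have h3 : F (g • o) (U, V) = 0 := by
      have := hF.hom (g • o) U (1, 0) hUk hU0 (Aapp_one_mem a b) (Aapp_zero_mem a b)
      rw [hF.inf] at this
      simp only [mul_one, mul_zero] at this
      rw [hV0]
      exact this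
    rw [h3, norm_zero, zero_pow two_ne_zero]
    positivity
  · have h3 : F (g • o) (U, V) = V ^ (n + 2 + k) * conj V ^ n * F (g • o) (U / V, 1) := by
      have := hF.hom (g • o) V (U / V, 1) hVk hV0 (Aapp_quo hn hUk hVk hV0) (Aapp_one_mem a b)
      simp only [mul_one] at this
      rw [mul_div_cancel₀ _ hV0] at this
      exact this
    have h4 := hgrow (g • o) (U / V) (Aapp_quo hn hUk hVk hV0)
    have hVp : 0 < ‖V‖ := norm_pos_iff.2 hV0
    have h5 : ‖F (g • o) (U, V)‖ ≤ κ * (‖V‖ ^ (n + 1 + k) * (‖V‖ + ‖U‖) ^ (n + 1)) := by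
      rw [h3, norm_mul, norm_mul, norm_pow, norm_pow, RCLike.norm_conj]
      calc ‖V‖ ^ (n + 2 + k) * ‖V‖ ^ n * ‖F (g • o) (U / V, 1)‖
          ≤ ‖V‖ ^ (n + 2 + k) * ‖V‖ ^ n * (κ * (1 + ‖U / V‖) ^ (n + 1)) :=
            mul_le_mul_of_nonneg_left h4 (by positivity)
        _ = κ * (‖V‖ ^ (n + 1 + k) * (‖V‖ * (1 + ‖U / V‖)) ^ (n + 1)) := by
            rw [mul_pow]
            ring
        _ = κ * (‖V‖ ^ (n + 1 + k) * (‖V‖ + ‖U‖) ^ (n + 1)) := by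
            rw [mul_add, mul_one, norm_div, mul_div_cancel₀ _ hVp.ne']
    refine (pow_le_pow_left₀ (norm_nonneg _) h5 2).trans ?_
    exact Aapp_est n k κ ‖U‖ ‖V‖ D δ (norm_nonneg _) (norm_nonneg _) hD hD5 hδ hV2 hU2

end

end Pool.Agent.F8.NL
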