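import Pool.Agent.Lib.MP_305fdd_al.F8.NL.StmA

/-!
# MP_305fdd_al, lattices commensurable with `SL₂(ℤ[w])`: piece Ac0, linear growth (helper38)
-/

set_option autoImplicit false

namespace Pool.Agent.F8.NL

/-- PIECE NL c0 -/
theorem p_Ac0 : A_c0 := by
  intro G κ hG hκ
  have hd : Differentiable ℂ (dslope G 0) := by
    have h1 : DifferentiableOn ℂ (dslope G 0) Set.univ :=
      (Complex.differentiableOn_dslope Filter.univ_mem).2 hG.differentiableOn
    exact differentiableOn_univ.1 h1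
  have hb : Bornology.IsBounded (Set.range (dslope G 0)) := by
    obtain ⟨B, hB⟩ := (isCompact_closedBall (0 : ℂ) 1).exists_bound_of_continuousOn
      hd.continuous.continuousOn
    refine isBounded_iff_forall_norm_le.2 ⟨max B (2 * |κ| + ‖G 0‖), ?_⟩
    rintro _ ⟨x, rfl⟩
    by_cases hx : ‖x‖ ≤ 1
    · exact (hB x (by simpa using hx)).trans (le_max_left _ _)
    · have hx1 : 1 < ‖x‖ := not_le.1 hx
      have hx0 : x ≠ 0 := by
        rintro rfl
        simp at hx
      refine le_trans ?_ (le_max_right _ _)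
      rw [dslope_of_ne _ hx0, slope_def_field, norm_div, sub_zero, div_le_iff₀ (by linarith)]
      have h1 : ‖G x‖ ≤ |κ| * (1 + ‖x‖) := by
        have h2 := hκ x
        rw [pow_one] at h2
        exact h2.trans (mul_le_mul_of_nonneg_right (le_abs_self κ) (by positivity))
      have h3 : |κ| * (1 + ‖x‖) ≤ |κ| * (2 * ‖x‖) :=
        mul_le_mul_of_nonneg_left (by linarith) (abs_nonneg κ)
      have h4 : ‖G 0‖ ≤ ‖G 0‖ * ‖x‖ := le_mul_of_one_le_right (norm_nonneg _) hx1.le
      calc ‖G x - G 0‖ ≤ ‖G x‖ + ‖G 0‖ := norm_sub_le _ _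
        _ ≤ |κ| * (2 * ‖x‖) + ‖G 0‖ * ‖x‖ := by linarith
        _ = (2 * |κ| + ‖G 0‖) * ‖x‖ := by ring
  refine ⟨dslope G 0 0, G 0, fun x => ?_⟩
  have h1 : dslope G 0 x = dslope G 0 0 := hd.apply_eq_apply_of_bounded hb x 0
  have h2 : (x - 0) • dslope G 0 x = G x - G 0 := sub_smul_dslope G 0 x
  rw [h1, sub_zero, smul_eq_mul] at h2
  rw [mul_comm, h2, sub_add_cancel]

end Pool.Agent.F8.NL
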