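import Pool.Agent.Lib.MP_305fdd_al.F8.NL.StmA

/-!
# MP_305fdd_al, lattices commensurable with `SL₂(ℤ[w])`: piece Ac1, quadratic growth (helper20)
-/

set_option autoImplicit false

namespace Pool.Agent.F8.NL

open scoped ComplexConjugate

/-- Division by `x` lowers the growth by one. -/
private theorem Ac1_step (f : ℂ → ℂ) (hf : Differentiable ℂ f) (n : ℕ) (C : ℝ) (hC : 0 ≤ C)
    (h : ∀ x, ‖f x‖ ≤ C * (1 + ‖x‖) ^ (n + 1)) :
    ∃ (g : ℂ → ℂ) (C' : ℝ), 0 ≤ C' ∧ Differentiable ℂ g ∧ (∀ x, ‖g x‖ ≤ C' * (1 + ‖x‖) ^ n) ∧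
      ∀ x, f x = f 0 + x * g x := by
  have hd : Differentiable ℂ (dslope f 0) := by
    have h1 : DifferentiableOn ℂ (dslope f 0) Set.univ :=
      (Complex.differentiableOn_dslope Filter.univ_mem).2 hf.differentiableOn
    exact differentiableOn_univ.1 h1
  obtain ⟨B, hB⟩ := (isCompact_closedBall (0 : ℂ) 1).exists_bound_of_continuousOn
    hd.continuous.continuousOn
  have h0 : ‖f 0‖ ≤ C := by
    have := h 0
    simpa using this
  refine ⟨dslope f 0, max B (4 * C), le_trans (by positivity) (le_max_right _ _), hd,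
    fun x => ?_, fun x => ?_⟩
  · have hp : (1 : ℝ) ≤ (1 + ‖x‖) ^ n := one_le_pow₀ (by linarith [norm_nonneg x])
    by_cases hx : ‖x‖ ≤ 1
    · have h1 : ‖dslope f 0 x‖ ≤ B := hB x (by simpa using hx)
      have h2 : 0 ≤ max B (4 * C) := le_trans (by positivity) (le_max_right _ _)
      calc ‖dslope f 0 x‖ ≤ max B (4 * C) := h1.trans (le_max_left _ _)
        _ ≤ max B (4 * C) * (1 + ‖x‖) ^ n := le_mul_of_one_le_right h2 hp
    · have hx1 : 1 < ‖x‖ := not_le.1 hx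
      have hx0 : x ≠ 0 := by
        rintro rfl
        simp at hx
      refine le_trans ?_ (mul_le_mul_of_nonneg_right (le_max_right B (4 * C)) (by positivity))
      rw [dslope_of_ne _ hx0, slope_def_field, norm_div, sub_zero, div_le_iff₀ (by linarith)]
      have h3 : C ≤ C * (1 + ‖x‖) ^ (n + 1) :=
        le_mul_of_one_le_right hC (one_le_pow₀ (by linarith [norm_nonneg x]))
      have h4 : C * (1 + ‖x‖) ^ (n + 1) ≤ C * (1 + ‖x‖) ^ n * (2 * ‖x‖) := by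
        rw [pow_succ, ← mul_assoc]
        exact mul_le_mul_of_nonneg_left (by linarith) (by positivity)
      calc ‖f x - f 0‖ ≤ ‖f x‖ + ‖f 0‖ := norm_sub_le _ _
        _ ≤ C * (1 + ‖x‖) ^ (n + 1) + C * (1 + ‖x‖) ^ (n + 1) :=
          add_le_add (h x) (h0.trans h3)
        _ ≤ C * (1 + ‖x‖) ^ n * (2 * ‖x‖) + C * (1 + ‖x‖) ^ n * (2 * ‖x‖) := add_le_add h4 h4
        _ = 4 * C * (1 + ‖x‖) ^ n * ‖x‖ := by ring
  · have h2 : (x - 0) • dslope f 0 x = f x - f 0 := sub_smul_dslope f 0 x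
    rw [sub_zero, smul_eq_mul] at h2
    rw [h2]
    ring

private theorem Ac1_const (f : ℂ → ℂ) (hf : Differentiable ℂ f) (C : ℝ)
    (h : ∀ x, ‖f x‖ ≤ C * (1 + ‖x‖) ^ 0) : ∀ x, f x = f 0 := by
  intro x
  refine hf.apply_eq_apply_of_bounded ?_ x 0
  refine isBounded_iff_forall_norm_le.2 ⟨C, ?_⟩
  rintro _ ⟨y, rfl⟩
  simpa using h y

/-- PIECE NL c1 -/
theorem p_Ac1 : A_c1 := by
  intro G₀ G₁ κ hG₀ hG₁ h
  have hκ : 0 ≤ κ := by
    have := (norm_nonneg _).trans (h 0)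
    simpa using this
  -- the entire function `x G₀ x + R ^ 2 G₁ x` is bounded on the disc of radius `R`
  have hH : ∀ R : ℝ, 0 < R → ∀ x : ℂ, ‖x‖ ≤ R →
      ‖x * G₀ x + (R : ℂ) ^ 2 * G₁ x‖ ≤ R * (κ * (1 + R) ^ 2) := by
    intro R hR x hx
    have hd : Differentiable ℂ fun y : ℂ => y * G₀ y + (R : ℂ) ^ 2 * G₁ y :=
      (differentiable_id.mul hG₀).add (hG₁.const_mul _)
    have hfr : ∀ z ∈ frontier (Metric.ball (0 : ℂ) R),
        ‖z * G₀ z + (R : ℂ) ^ 2 * G₁ z‖ ≤ R * (κ * (1 + R) ^ 2) := by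
      intro z hz
      rw [frontier_ball _ hR.ne', mem_sphere_zero_iff_norm] at hz
      have e1 : (R : ℂ) ^ 2 = z * conj z := by
        rw [Complex.mul_conj, Complex.normSq_eq_norm_sq, hz]
        push_cast
        rfl
      have e2 : z * G₀ z + (R : ℂ) ^ 2 * G₁ z = z * (G₀ z + conj z * G₁ z) := by
        rw [e1]
        ring
      have e3 := h z
      rw [hz] at e3
      rw [e2, norm_mul, hz]
      exact mul_le_mul_of_nonneg_left e3 hR.le
    refine Complex.norm_le_of_forall_mem_frontier_norm_le (U := Metric.ball (0 : ℂ) R)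
      Metric.isBounded_ball hd.diffContOnCl hfr ?_
    rw [closure_ball _ hR.ne']
    simpa using hx
  -- linear growth of `G₁`
  have hG1 : ∀ x, ‖G₁ x‖ ≤ 6 * κ * 2 * (1 + ‖x‖) ^ (0 + 1) := by
    intro x
    set R : ℝ := 1 + ‖x‖ with hR
    have hx0 : 0 ≤ ‖x‖ := norm_nonneg x
    have hR1 : 1 ≤ R := by linarith
    have h1 := hH R (by linarith) x (by linarith)
    have h2 := hH (2 * R) (by linarith) x (by linarith)
    have e1 : (3 * (R : ℂ) ^ 2) * G₁ x = (x * G₀ x + ((2 * R : ℝ) : ℂ) ^ 2 * G₁ x) -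
        (x * G₀ x + (R : ℂ) ^ 2 * G₁ x) := by
      push_cast
      ring
    have e2 : 3 * R ^ 2 * ‖G₁ x‖ ≤ 2 * R * (κ * (1 + 2 * R) ^ 2) + R * (κ * (1 + R) ^ 2) := by
      have e3 : ‖(3 * (R : ℂ) ^ 2) * G₁ x‖ = 3 * R ^ 2 * ‖G₁ x‖ := by
        rw [norm_mul, norm_mul, norm_pow, Complex.norm_real, Real.norm_of_nonneg (by linarith)]
        norm_num
      rw [← e3, e1]
      exact (norm_sub_le _ _).trans (add_le_add h2 h1)
    have e4 : (1 + 2 * R) ^ 2 ≤ (3 * R) ^ 2 := pow_le_pow_left₀ (by linarith) (by linarith) 2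
    have e5 : (1 + R) ^ 2 ≤ (2 * R) ^ 2 := pow_le_pow_left₀ (by linarith) (by linarith) 2
    have e6 : 3 * R ^ 2 * ‖G₁ x‖ ≤ 3 * R ^ 2 * (12 * κ * R) := by
      calc 3 * R ^ 2 * ‖G₁ x‖ ≤ 2 * R * (κ * (1 + 2 * R) ^ 2) + R * (κ * (1 + R) ^ 2) := e2
        _ ≤ 2 * R * (κ * (3 * R) ^ 2) + R * (κ * (2 * R) ^ 2) := by
          gcongr
        _ = R ^ 3 * κ * 22 := by ring
        _ ≤ R ^ 3 * κ * 36 := by
          refine mul_le_mul_of_nonneg_left (by norm_num) ?_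
          positivity
        _ = 3 * R ^ 2 * (12 * κ * R) := by ring
    have e7 := le_of_mul_le_mul_left e6 (by positivity)
    rw [zero_add, pow_one]
    linarith
  obtain ⟨g, C, -, hg, hgb, hge⟩ := Ac1_step G₁ hG₁ 0 (6 * κ * 2) (by positivity) hG1
  have hgc := Ac1_const g hg C hgb
  -- quadratic growth of `G₀`
  have hG0 : ∀ x, ‖G₀ x‖ ≤ 13 * κ * (1 + ‖x‖) ^ (1 + 1) := by
    intro x
    have e1 : G₀ x = (G₀ x + conj x * G₁ x) - conj x * G₁ x := by ring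
    have e2 : ‖conj x * G₁ x‖ ≤ (1 + ‖x‖) * (6 * κ * 2 * (1 + ‖x‖)) := by
      rw [norm_mul, RCLike.norm_conj]
      have := hG1 x
      rw [zero_add, pow_one] at this
      exact mul_le_mul (by linarith) this (norm_nonneg _) (by positivity)
    rw [e1]
    calc ‖(G₀ x + conj x * G₁ x) - conj x * G₁ x‖ ≤ _ := norm_sub_le _ _
      _ ≤ κ * (1 + ‖x‖) ^ 2 + (1 + ‖x‖) * (6 * κ * 2 * (1 + ‖x‖)) := add_le_add (h x) e2
      _ = 13 * κ * (1 + ‖x‖) ^ (1 + 1) := by ring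
  obtain ⟨g₁, C₁, hC₁, hg₁, hgb₁, hge₁⟩ := Ac1_step G₀ hG₀ 1 (13 * κ) (by positivity) hG0
  obtain ⟨g₂, C₂, -, hg₂, hgb₂, hge₂⟩ := Ac1_step g₁ hg₁ 0 C₁ hC₁ hgb₁
  have hgc₂ := Ac1_const g₂ hg₂ C₂ hgb₂
  refine ⟨g₂ 0, g₁ 0, G₀ 0, g 0, G₁ 0, fun x => ⟨?_, ?_⟩⟩
  · rw [hge₁ x, hge₂ x, hgc₂ x]
    ring
  · rw [hge x, hgc x]
    ring

end Pool.Agent.F8.NL
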