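import Pool.Agent.Lib.MP_305fdd_al.F8.NL.StmA

/-!
# [NL A ext] the continuous extension
-/

set_option autoImplicit false

namespace Pool.Agent.F8.NL

open Pool.Agent.F8.CG Pool.Agent.F8.BG Pool.Agent.MP_305fdd_al Pool.Agent.Lib.MP_305fdd_al
  Pool.Agent.F8
open scoped QuadraticAlgebra ComplexConjugate Topology

private theorem Aext_im {a b : ℤ} (h : b ^ 2 + 4 * a < 0) : (CG.wC a b).im ≠ 0 := by
  have hs : 0 < Real.sqrt (-(b ^ 2 + 4 * a : ℤ)) := by
    apply Real.sqrt_pos.2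
    have : ((b ^ 2 + 4 * a : ℤ) : ℝ) < 0 := by exact_mod_cast h
    linarith
  rw [CG.wC_eq h]
  have h1 : (((b : ℝ) / 2 : ℝ) + ((Real.sqrt (-(b ^ 2 + 4 * a : ℤ)) / 2 : ℝ) : ℂ) *
      Complex.I : ℂ).im = Real.sqrt (-(b ^ 2 + 4 * a : ℤ)) / 2 := by
    rw [Complex.add_im, Complex.ofReal_im, Complex.mul_im, Complex.ofReal_im, Complex.ofReal_re,
      Complex.I_re, Complex.I_im]
    ring
  rw [h1]
  positivity

/-- `kC` is dense. -/
private theorem Aext_near {a b : ℤ} (h : b ^ 2 + 4 * a < 0) (x : ℂ) {ε : ℝ} (hε : 0 < ε) :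
    ∃ y ∈ kC a b, ‖y - x‖ < ε := by
  obtain ⟨v, hv⟩ : ∃ v : ℝ, v * (CG.wC a b).im = x.im :=
    ⟨x.im / (CG.wC a b).im, div_mul_cancel₀ _ (Aext_im h)⟩
  obtain ⟨u, hu⟩ : ∃ u : ℝ, u + v * (CG.wC a b).re = x.re :=
    ⟨x.re - v * (CG.wC a b).re, sub_add_cancel _ _⟩
  have hx : (u : ℂ) + (v : ℂ) * CG.wC a b = x := by
    apply Complex.ext
    · simp [hu]
    · simp [hv]
  obtain ⟨n, hn⟩ := exists_nat_gt ((1 + ‖CG.wC a b‖) / ε)
  have hn0 : (0 : ℝ) < n := lt_of_le_of_lt (by positivity) hn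
  have hn1 : (n : ℂ) ≠ 0 := by
    intro h0
    have : (n : ℝ) = 0 := by exact_mod_cast h0
    exact hn0.ne' this
  let p : Qf a b ℤ := ⟨⌊(n : ℝ) * u⌋, ⌊(n : ℝ) * v⌋⟩
  refine ⟨iC a b p / n, ⟨p, (n : Qf a b ℤ), ?_, ?_⟩, ?_⟩
  · intro h0
    have h1 := congrArg (iC a b) h0
    rw [map_natCast, map_zero] at h1
    exact hn1 h1
  · rw [map_natCast, div_mul_cancel₀ _ hn1]
  · have h1 : iC a b p / n - x = (iC a b p - n * x) / n := by
      field_simp
    have h2 : iC a b p - n * x = (((⌊(n : ℝ) * u⌋ : ℝ) - n * u : ℝ) : ℂ) +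
        (((⌊(n : ℝ) * v⌋ : ℝ) - n * v : ℝ) : ℂ) * CG.wC a b := by
      rw [iC_apply, ← hx]
      push_cast
      ring
    have h3 : ‖iC a b p - n * x‖ ≤ 1 + ‖CG.wC a b‖ := by
      rw [h2]
      refine (norm_add_le _ _).trans ?_
      rw [norm_mul, Complex.norm_real, Complex.norm_real, Real.norm_eq_abs, Real.norm_eq_abs]
      have h4 : ∀ r : ℝ, |(⌊r⌋ : ℝ) - r| ≤ 1 := by
        intro r
        rw [abs_le]
        constructor
        · linarith [Int.lt_floor_add_one r]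
        · linarith [Int.floor_le r]
      have h5 := h4 ((n : ℝ) * u)
      have h6 := mul_le_mul_of_nonneg_right (h4 ((n : ℝ) * v)) (norm_nonneg (CG.wC a b))
      linarith
    rw [h1, norm_div, Complex.norm_natCast, div_lt_iff₀ hn0]
    rw [div_lt_iff₀ hε] at hn
    linarith

private theorem Aext_neBot {a b : ℤ} (h : b ^ 2 + 4 * a < 0) (x : ℂ) : (𝓝[kC a b] x).NeBot := by
  rw [← mem_closure_iff_nhdsWithin_neBot, Metric.mem_closure_iff]
  intro ε hε
  obtain ⟨y, hy, hyx⟩ := Aext_near h x hε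
  exact ⟨y, hy, by rw [dist_comm, dist_eq_norm]; exact hyx⟩

theorem p_Aext (hpol : A_pol) : A_ext := by
  intro a b h m n hm f C κ hgr hap
  have hcont : ∀ P ∈ PolH m n, Continuous fun x : ℂ => P (x, 1) := fun P hP =>
    ((hpol m n).2.2.1 P hP).comp (by fun_prop)
  have hC : 0 ≤ C := by
    obtain ⟨P, hP, h1⟩ := hap 0 1 one_pos le_rfl
    obtain ⟨y, hy, hy1⟩ := Aext_near h 0 one_pos
    have h2 := h1 y hy hy1.le
    rw [one_pow, mul_one] at h2
    exact (sq_nonneg _).trans h2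
  -- the limit
  have hlim : ∀ x₀ : ℂ, ∃ y, Filter.Tendsto f (𝓝[kC a b] x₀) (𝓝 y) := by
    intro x₀
    have := Aext_neBot h x₀
    have hc : Cauchy (Filter.map f (𝓝[kC a b] x₀)) := by
      rw [Metric.cauchy_iff]
      refine ⟨inferInstance, fun ε hε => ?_⟩
      -- the choice of `δ`
      obtain ⟨δ, hδ0, hδ1, hδ⟩ : ∃ δ : ℝ, 0 < δ ∧ δ ≤ 1 ∧ C * δ ^ (m + n) ≤ (ε / 8) ^ 2 := by
        refine ⟨min 1 ((ε / 8) ^ 2 / (C + 1)), lt_min one_pos (by positivity), min_le_left _ _, ?_⟩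
        set δ := min 1 ((ε / 8) ^ 2 / (C + 1)) with hδ
        have hδ0 : 0 < δ := lt_min one_pos (by positivity)
        have h1 : δ ^ (m + n) ≤ δ ^ 1 :=
          pow_le_pow_of_le_one hδ0.le (min_le_left _ _) (by omega)
        rw [pow_one] at h1
        have h2 : δ ≤ (ε / 8) ^ 2 / (C + 1) := min_le_right _ _
        rw [le_div_iff₀ (by positivity)] at h2
        nlinarith
      obtain ⟨P, hP, h1⟩ := hap x₀ δ hδ0 hδ1
      have h2 := (hcont P hP).continuousAt (x := x₀)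
      rw [Metric.continuousAt_iff] at h2
      obtain ⟨η, hη0, hη⟩ := h2 (ε / 8) (by positivity)
      have h3 : ∀ x ∈ kC a b, ‖x - x₀‖ < min δ η → ‖f x - P (x₀, 1)‖ < ε / 4 := by
        intro x hx hxx
        have h4 : ‖f x - P (x, 1)‖ ≤ ε / 8 := by
          have h5 := (h1 x hx ((hxx.trans_le (min_le_left _ _)).le)).trans hδ
          exact abs_le_of_sq_le_sq' h5 (by positivity) |>.2
        have h6 : ‖P (x, 1) - P (x₀, 1)‖ < ε / 8 := by
          have h7 := hη (x := x) (by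
            rw [dist_eq_norm]
            exact hxx.trans_le (min_le_right _ _))
          rw [dist_eq_norm] at h7
          exact h7
        calc ‖f x - P (x₀, 1)‖ = ‖(f x - P (x, 1)) + (P (x, 1) - P (x₀, 1))‖ := by
              congr 1
              ring
          _ ≤ ‖f x - P (x, 1)‖ + ‖P (x, 1) - P (x₀, 1)‖ := norm_add_le _ _
          _ < ε / 4 := by linarith
      refine ⟨f '' (kC a b ∩ Metric.ball x₀ (min δ η)), ?_, ?_⟩
      · rw [Filter.mem_map]
        refine Filter.mem_of_superset ?_ (Set.subset_preimage_image f _)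
        exact inter_mem_nhdsWithin _ (Metric.ball_mem_nhds x₀ (lt_min hδ0 hη0))
      · rintro _ ⟨x, ⟨hx, hxx⟩, rfl⟩ _ ⟨x', ⟨hx', hxx'⟩, rfl⟩
        rw [Metric.mem_ball, dist_eq_norm] at hxx hxx'
        have h4 := h3 x hx hxx
        have h5 := h3 x' hx' hxx'
        rw [dist_eq_norm]
        calc ‖f x - f x'‖ = ‖(f x - P (x₀, 1)) - (f x' - P (x₀, 1))‖ := by
              congr 1
              ring
          _ ≤ ‖f x - P (x₀, 1)‖ + ‖f x' - P (x₀, 1)‖ := norm_sub_le _ _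
          _ < ε := by linarith
    exact CompleteSpace.complete hc
  choose G hG using hlim
  refine ⟨G, 2 ^ (m + n) * C, fun x hx => ?_, fun x => ?_, fun x₀ δ hδ0 hδ1 => ?_⟩
  · have h1 : Filter.Tendsto f (pure x) (𝓝 (G x)) :=
      (hG x).mono_left (pure_le_nhdsWithin hx)
    have h2 : Filter.Tendsto f (pure x) (𝓝 (f x)) := tendsto_pure_nhds f x
    exact tendsto_nhds_unique h1 h2
  · have := Aext_neBot h x
    refine le_of_tendsto_of_tendsto (hG x).norm
      (g := fun y => κ * (1 + ‖y‖) ^ (n + 1)) ?_ ?_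
    · exact ((by fun_prop : Continuous fun y : ℂ => κ * (1 + ‖y‖) ^ (n + 1)).tendsto x).mono_left
        nhdsWithin_le_nhds
    · filter_upwards [self_mem_nhdsWithin] with y hy using hgr y hy
  · obtain ⟨P, hP, h1⟩ := hap x₀ (2 * δ) (by positivity) (by linarith)
    refine ⟨P, hP, fun x hx => ?_⟩
    have := Aext_neBot h x
    have h2 : Filter.Tendsto (fun y => ‖f y - P (y, 1)‖ ^ 2) (𝓝[kC a b] x)
        (𝓝 (‖G x - P (x, 1)‖ ^ 2)) :=
      (((hG x).sub (((hcont P hP).tendsto x).mono_left nhdsWithin_le_nhds)).norm).pow 2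
    have h3 : 2 ^ (m + n) * C * δ ^ (m + n) = C * (2 * δ) ^ (m + n) := by
      rw [mul_pow]
      ring
    rw [h3]
    refine le_of_tendsto h2 ?_
    filter_upwards [self_mem_nhdsWithin, nhdsWithin_le_nhds (Metric.ball_mem_nhds x hδ0)] with y hy hyx
    refine h1 y hy ?_
    rw [Metric.mem_ball, dist_eq_norm] at hyx
    calc ‖y - x₀‖ = ‖(y - x) + (x - x₀)‖ := by
          congr 1
          ring
      _ ≤ ‖y - x‖ + ‖x - x₀‖ := norm_add_le _ _
      _ ≤ 2 * δ := by linarith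

end Pool.Agent.F8.NL
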