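import Pool.Agent.Lib.MP_305fdd_al.F8.NL.StmA

set_option autoImplicit false

namespace Pool.Agent.F8.NL

open Pool.Agent.F8.CG Pool.Agent.F8.BG Pool.Agent.MP_305fdd_al Pool.Agent.Lib.MP_305fdd_al
  Pool.Agent.F8
open scoped QuadraticAlgebra ComplexConjugate

noncomputable section

private theorem Agr_nq {a b : ℤ} (h : b ^ 2 + 4 * a < 0) (z : Qf a b ℤ) :
    ‖iC a b z‖ ^ 2 = ((nq z : ℤ) : ℝ) := by
  have hD : (0 : ℝ) ≤ -((b ^ 2 + 4 * a : ℤ) : ℝ) := by
    have : ((b ^ 2 + 4 * a : ℤ) : ℝ) < 0 := by exact_mod_cast h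
    linarith
  have hs := Real.sq_sqrt hD
  rw [← Complex.normSq_eq_norm_sq, iC_apply, wC_eq h]
  set s : ℝ := Real.sqrt (-((b ^ 2 + 4 * a : ℤ) : ℝ)) with hsdef
  have h1 : (z.re : ℂ) + (z.im : ℂ) * ((((b : ℝ) / 2 : ℝ) : ℂ) + ((s / 2 : ℝ) : ℂ) * Complex.I) =
      (((z.re : ℝ) + (z.im : ℝ) * b / 2 : ℝ) : ℂ) + (((z.im : ℝ) * s / 2 : ℝ) : ℂ) * Complex.I := by
    push_cast
    ring
  rw [h1, Complex.normSq_add_mul_I]
  unfold nq
  push_cast at hs ⊢
  linear_combination ((z.im : ℝ) ^ 2 / 4) * hs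

private theorem Agr_ge {a b : ℤ} (h : b ^ 2 + 4 * a < 0) {z : Qf a b ℤ} (hz : z ≠ 0) :
    1 ≤ ‖iC a b z‖ := by
  have h0 : nq z ≠ 0 := fun e => hz (nq_eq_zero h e)
  have h1 : 1 ≤ nq z := by
    have := nq_nonneg h z
    omega
  have h2 : (1 : ℝ) ≤ ‖iC a b z‖ ^ 2 := by
    rw [Agr_nq h]
    exact_mod_cast h1
  nlinarith [norm_nonneg (iC a b z)]

private theorem Agr_inj {a b : ℤ} (h : b ^ 2 + 4 * a < 0) {z : Qf a b ℤ} (hz : z ≠ 0) :
    iC a b z ≠ 0 := by
  intro e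
  have := Agr_ge h hz
  rw [e, norm_zero] at this
  linarith

private theorem Agr_ring (a b : ℤ) (p : Qf a b ℤ) : iC a b p ∈ kC a b :=
  ⟨p, 1, one_ne_zero, by rw [map_one, mul_one]⟩

private theorem Agr_mS {a b : ℤ} (e : ℂ × ℂ) : va (mS : GQ a b) e = (-e.2, e.1) := by
  have h00 : (mS : GQ a b).val 0 0 = 0 := rfl
  have h01 : (mS : GQ a b).val 0 1 = -1 := rfl
  have h10 : (mS : GQ a b).val 1 0 = 1 := rfl
  have h11 : (mS : GQ a b).val 1 1 = 0 := rfl
  unfold va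
  rw [h00, h01, h10, h11]
  ext <;> simp

theorem p_Agr (hpol : A_pol) : A_gr := by
  intro a b hn hE m n hm Ω _ _ F hF
  obtain ⟨C₁, hC₁⟩ := hF.gro
  set C : ℝ := max C₁ 0 with hCdef
  have hC0 : 0 ≤ C := le_max_right _ _
  have hC : ∀ (o : Ω) (β : Qf a b ℤ), ∀ x ∈ kC a b, ‖x‖ ≤ 1 →
      ‖F o (x + iC a b β, 1) - F ((eU β : GQ a b)⁻¹ • o) (x, 1)‖ ≤
        C * (1 + ‖iC a b β‖) ^ (n + 1) := fun o β x hx hx1 =>
    (hC₁ o β x hx hx1).trans (mul_le_mul_of_nonneg_right (le_max_left _ _) (by positivity))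
  have h1k : (1 : ℂ) ∈ kC a b := by simpa using Agr_ring a b 1
  have h0k : (0 : ℂ) ∈ kC a b := by simpa using Agr_ring a b 0
  -- the polynomials
  have hP0 : ∀ o : Ω, ∃ P ∈ PolH m n, ∀ e : ℂ × ℂ, e.1 ∈ kC a b → e.2 ∈ kC a b → e ≠ 0 →
      F o (va (mS : GQ a b) e) = F ((mS : GQ a b)⁻¹ • o) e + P e := fun o => hF.eqv mS o
  choose P hPm hP using hP0
  have hPc : ∀ o, Continuous (P o) := fun o => (hpol m n).2.2.1 _ (hPm o)
  obtain ⟨D, hD0, hD⟩ : ∃ D : ℝ, 0 ≤ D ∧ ∀ o, ∀ x : ℂ, ‖x‖ ≤ 1 → ‖P o (1, -x)‖ ≤ D := by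
    have h1 : ∀ o, ∃ M : ℝ, ∀ x : ℂ, ‖x‖ ≤ 1 → ‖P o (1, -x)‖ ≤ M := by
      intro o
      have hc : Continuous (fun x : ℂ => P o (1, -x)) :=
        (hPc o).comp (continuous_const.prodMk continuous_neg)
      obtain ⟨M, hM⟩ := (isCompact_closedBall (0 : ℂ) 1).exists_bound_of_continuousOn
        hc.continuousOn
      exact ⟨M, fun x hx => hM x (by simpa using hx)⟩
    choose M hM using h1
    obtain ⟨M', hM'⟩ := (Set.finite_range M).bddAbove
    exact ⟨max M' 0, le_max_right _ _, fun o x hx =>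
      (hM o x hx).trans ((hM' ⟨o, rfl⟩).trans (le_max_left _ _))⟩
  set K : ℝ := 32 * (C * 3 ^ (n + 1) + D) with hK
  have hK0 : 0 ≤ K := by positivity
  have hzero : ∀ o, ‖F o (0, 1)‖ ≤ K := by
    intro o
    have h1 := hP o (1, 0) h1k h0k (by simp)
    rw [Agr_mS] at h1
    simp only [neg_zero] at h1
    rw [h1, hF.inf, zero_add]
    have h2 := hD o 0 (by simp)
    rw [neg_zero] at h2
    have h3 : 0 ≤ C * 3 ^ (n + 1) := by positivity
    refine h2.trans ?_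
    rw [hK]
    linarith
  have key : ∀ N : ℕ, ∀ (p q : Qf a b ℤ), q ≠ 0 → (nq q).toNat ≤ N → ∀ x : ℂ,
      x * iC a b q = iC a b p → ‖x‖ ≤ 31 / 32 → ∀ o, ‖F o (x, 1)‖ ≤ K := by
    intro N
    induction N with
    | zero =>
      intro p q hq hn' x hx _ o
      exfalso
      have h0 : nq q ≠ 0 := fun e => hq (nq_eq_zero hn e)
      have h1 := nq_nonneg hn q
      omega
    | succ N ih =>
      intro p q hq hn' x hx hxl o
      by_cases hx0 : x = 0
      · rw [hx0]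
        exact hzero o
      have hx1 : 0 < ‖x‖ := norm_pos_iff.2 hx0
      have hxk : x ∈ kC a b := ⟨p, q, hq, hx⟩
      have hnxk : -x ∈ kC a b := ⟨-p, q, hq, by rw [neg_mul, hx, map_neg]⟩
      have hp : p ≠ 0 := by
        intro e
        rw [e, map_zero] at hx
        rcases mul_eq_zero.1 hx with h | h
        · exact hx0 h
        · exact Agr_inj hn hq h
      set z := -1 / x with hz
      have hzx : z * x = -1 := by
        rw [hz]
        field_simp
      have hzp : z * iC a b p = iC a b (-q) := by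
        rw [← hx, ← mul_assoc, hzx, map_neg]
        ring
      have hzk : z ∈ kC a b := ⟨-q, p, hp, hzp⟩
      obtain ⟨β, hβ⟩ := hE z
      set y := z - iC a b β with hy
      have hyp : y * iC a b p = iC a b (-q - β * p) := by
        rw [hy, sub_mul, hzp, map_sub, map_mul]
      have hyk : y ∈ kC a b := ⟨-q - β * p, p, hp, hyp⟩
      have hlt : nq p < nq q := by
        have h4 : ‖iC a b p‖ ^ 2 = ‖x‖ ^ 2 * ‖iC a b q‖ ^ 2 := by
          rw [← hx, norm_mul]
          ring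
        rw [Agr_nq hn, Agr_nq hn] at h4
        have h5 : (0 : ℝ) < ((nq q : ℤ) : ℝ) := by
          have h0 : nq q ≠ 0 := fun e => hq (nq_eq_zero hn e)
          have h1 := nq_nonneg hn q
          exact_mod_cast lt_of_le_of_ne h1 (Ne.symm h0)
        have h6 : ‖x‖ ^ 2 < 1 := by nlinarith
        have h7 : ((nq p : ℤ) : ℝ) < ((nq q : ℤ) : ℝ) := by
          rw [h4]
          nlinarith
        exact_mod_cast h7
      have h0 := nq_nonneg hn p
      set o' := (mS : GQ a b)⁻¹ • o with ho'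
      have h8 := ih (-q - β * p) p hp (by omega) y hyp hβ ((eU β : GQ a b)⁻¹ • o')
      have h9 := hC o' β y hyk (hβ.trans (by norm_num))
      have hyz : y + iC a b β = z := by rw [hy]; ring
      rw [hyz] at h9
      have h10 : ‖F o' (z, 1)‖ ≤ K + C * (1 + ‖iC a b β‖) ^ (n + 1) := by
        have h11 : F o' (z, 1) = F ((eU β : GQ a b)⁻¹ • o') (y, 1) +
            (F o' (z, 1) - F ((eU β : GQ a b)⁻¹ • o') (y, 1)) := by ring
        rw [h11]
        exact (norm_add_le _ _).trans (add_le_add h8 h9)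
      have hzn : ‖z‖ = 1 / ‖x‖ := by
        rw [hz, norm_div, norm_neg, norm_one]
      have hβn : ‖iC a b β‖ ≤ 1 / ‖x‖ + 1 := by
        have h12 : iC a b β = z - y := by rw [hy]; ring
        rw [h12]
        refine (norm_sub_le _ _).trans ?_
        rw [hzn]
        have : ‖y‖ ≤ 1 := hβ.trans (by norm_num)
        linarith
      -- inversion
      have h13 := hP o (1, -x) h1k hnxk (by simp)
      rw [Agr_mS] at h13
      simp only [neg_neg] at h13
      have hnx0 : -x ≠ 0 := neg_ne_zero.2 hx0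
      have h14 := hF.hom o' (-x) (z, 1) hnxk hnx0 hzk h1k
      have h15 : (-x * z, -x * 1) = ((1 : ℂ), -x) := by
        ext
        · show -x * z = 1
          rw [neg_mul, mul_comm, hzx, neg_neg]
        · show -x * 1 = -x
          ring
      rw [h15] at h14
      rw [h14] at h13
      rw [h13]
      refine (norm_add_le _ _).trans ?_
      have h16 : ‖P o (1, -x)‖ ≤ D := hD o x (hxl.trans (by norm_num))
      have h17 : ‖(-x) ^ m * conj (-x) ^ n * F o' (z, 1)‖ = ‖x‖ ^ (m + n) * ‖F o' (z, 1)‖ := by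
        rw [norm_mul, norm_mul, norm_pow, norm_pow, Complex.norm_conj, norm_neg, ← pow_add]
      rw [h17]
      have hxle : ‖x‖ ≤ 1 := hxl.trans (by norm_num)
      have h18 : ‖x‖ ^ (m + n) ≤ ‖x‖ ^ (n + 1) :=
        pow_le_pow_of_le_one hx1.le hxle (by omega)
      have h19 : ‖x‖ ^ (n + 1) ≤ 31 / 32 := by
        rw [pow_succ]
        have h20 : ‖x‖ ^ n ≤ 1 := pow_le_one₀ hx1.le hxle
        nlinarith [pow_nonneg hx1.le n]
      have h21 : ‖x‖ ^ (m + n) * K ≤ 31 / 32 * K :=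
        mul_le_mul_of_nonneg_right (h18.trans h19) hK0
      have h22 : ‖x‖ ^ (m + n) * (C * (1 + ‖iC a b β‖) ^ (n + 1)) ≤ C * 3 ^ (n + 1) := by
        have h23 : (1 + ‖iC a b β‖) ^ (n + 1) ≤ (2 + 1 / ‖x‖) ^ (n + 1) :=
          pow_le_pow_left₀ (by positivity) (by linarith) _
        have h24 : ‖x‖ ^ (n + 1) * (2 + 1 / ‖x‖) ^ (n + 1) ≤ 3 ^ (n + 1) := by
          rw [← mul_pow]
          refine pow_le_pow_left₀ (by positivity) ?_ _
          have h25 : ‖x‖ * (2 + 1 / ‖x‖) = 2 * ‖x‖ + 1 := by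
            field_simp
          rw [h25]
          linarith
        calc ‖x‖ ^ (m + n) * (C * (1 + ‖iC a b β‖) ^ (n + 1))
            ≤ ‖x‖ ^ (n + 1) * (C * (2 + 1 / ‖x‖) ^ (n + 1)) := by
              refine mul_le_mul h18 (mul_le_mul_of_nonneg_left h23 hC0) (by positivity)
                (by positivity)
          _ = C * (‖x‖ ^ (n + 1) * (2 + 1 / ‖x‖) ^ (n + 1)) := by ring
          _ ≤ C * 3 ^ (n + 1) := mul_le_mul_of_nonneg_left h24 hC0
      have h26 : ‖x‖ ^ (m + n) * ‖F o' (z, 1)‖ ≤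
          ‖x‖ ^ (m + n) * (K + C * (1 + ‖iC a b β‖) ^ (n + 1)) :=
        mul_le_mul_of_nonneg_left h10 (by positivity)
      rw [mul_add] at h26
      have h27 : 31 / 32 * K + C * 3 ^ (n + 1) + D = K := by
        rw [hK]
        ring
      linarith
  refine ⟨K + C * 2 ^ (n + 1), by positivity, fun o x hxk => ?_⟩
  obtain ⟨p, q, hq, hpq⟩ := hxk
  obtain ⟨β, hβ⟩ := hE x
  set y := x - iC a b β with hy
  have hyq : y * iC a b q = iC a b (p - β * q) := by
    rw [hy, sub_mul, hpq, map_sub, map_mul]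
  have hyk : y ∈ kC a b := ⟨p - β * q, q, hq, hyq⟩
  have h1 := key _ (p - β * q) q hq le_rfl y hyq hβ ((eU β : GQ a b)⁻¹ • o)
  have h2 := hC o β y hyk (hβ.trans (by norm_num))
  have hyx : y + iC a b β = x := by rw [hy]; ring
  rw [hyx] at h2
  have h3 : ‖iC a b β‖ ≤ ‖x‖ + 1 := by
    have h12 : iC a b β = x - y := by rw [hy]; ring
    rw [h12]
    refine (norm_sub_le _ _).trans ?_
    have : ‖y‖ ≤ 1 := hβ.trans (by norm_num)
    linarith
  have h4 : ‖F o (x, 1)‖ ≤ K + C * (1 + ‖iC a b β‖) ^ (n + 1) := by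
    have h11 : F o (x, 1) = F ((eU β : GQ a b)⁻¹ • o) (y, 1) +
        (F o (x, 1) - F ((eU β : GQ a b)⁻¹ • o) (y, 1)) := by ring
    rw [h11]
    exact (norm_add_le _ _).trans (add_le_add h1 h2)
  have hx0 := norm_nonneg x
  have h5 : (1 + ‖iC a b β‖) ^ (n + 1) ≤ 2 ^ (n + 1) * (1 + ‖x‖) ^ (n + 1) := by
    rw [← mul_pow]
    exact pow_le_pow_left₀ (by positivity) (by linarith) _
  have h6 : (1 : ℝ) ≤ (1 + ‖x‖) ^ (n + 1) := one_le_pow₀ (by linarith)
  refine h4.trans ?_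
  rw [add_mul]
  refine add_le_add (le_mul_of_one_le_right hK0 h6) ?_
  rw [mul_assoc]
  exact mul_le_mul_of_nonneg_left h5 hC0

end

end Pool.Agent.F8.NL
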