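import Pool.Agent.Lib.MP_305fdd_al.F8.NL.StmA

/-!
# MP_305fdd_al, NL: a function with good holomorphic approximations is holomorphic

With the approximations `T k` for the radii `4 ^ -(k+1)` the slopes of `T k` and `T (k+1)` at `x₀`
differ by at most a constant times `2 ^ -k` (Schwarz lemma), so the slope of `G` is close to the
slope of `T m` on a punctured ball, and it satisfies the Cauchy criterion.
-/

set_option autoImplicit false

namespace Pool.Agent.F8.NL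

open Filter Topology Metric Set

private lemma Ahol_step (G T T' : ℂ → ℂ) (c : ℝ) (hc : 0 < c) (x₀ : ℂ) (k : ℕ)
    (hT : Differentiable ℂ T) (hT' : Differentiable ℂ T')
    (h : ∀ x, ‖x - x₀‖ ≤ (1 / 4 : ℝ) ^ (k + 1) → ‖G x - T x‖ ≤ c * (1 / 8) ^ (k + 1))
    (h' : ∀ x, ‖x - x₀‖ ≤ (1 / 4 : ℝ) ^ (k + 2) → ‖G x - T' x‖ ≤ c * (1 / 8) ^ (k + 2))
    (x : ℂ) (hx : ‖x - x₀‖ < (1 / 4 : ℝ) ^ (k + 2)) (hne : x ≠ x₀) :
    ‖slope T x₀ x - slope T' x₀ x‖ ≤ 16 * c * (1 / 2) ^ (k + 1) := by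
  have hp : (0 : ℝ) < (1 / 8) ^ (k + 1) := by positivity
  have hb : ∀ y, ‖y - x₀‖ < (1 / 4 : ℝ) ^ (k + 2) →
      ‖T y - T' y‖ ≤ c * (1 / 8) ^ (k + 1) * (9 / 8) := by
    intro y hy
    have h1 := h y (hy.le.trans (pow_le_pow_of_le_one (by norm_num) (by norm_num) (by omega)))
    have h2 := h' y hy.le
    have e : T y - T' y = (G y - T' y) - (G y - T y) := by ring
    rw [e]
    refine (norm_sub_le _ _).trans ?_
    have : c * (1 / 8 : ℝ) ^ (k + 2) = c * (1 / 8) ^ (k + 1) * (1 / 8) := by ring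
    linarith
  have h0 : ‖x₀ - x₀‖ < (1 / 4 : ℝ) ^ (k + 2) := by
    rw [sub_self, norm_zero]; positivity
  have hd : DifferentiableOn ℂ (fun y => T y - T' y) (ball x₀ ((1 / 4 : ℝ) ^ (k + 2))) :=
    (hT.sub hT').differentiableOn
  have hmaps : MapsTo (fun y => T y - T' y) (ball x₀ ((1 / 4 : ℝ) ^ (k + 2)))
      (closedBall (T x₀ - T' x₀) (4 * c * (1 / 8) ^ (k + 1))) := by
    intro y hy
    rw [mem_ball_iff_norm] at hy
    rw [mem_closedBall_iff_norm]
    refine (norm_sub_le _ _).trans ?_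
    have h1 := hb y hy
    have h2 := hb x₀ h0
    have : 0 < c * (1 / 8 : ℝ) ^ (k + 1) := by positivity
    nlinarith
  have hs := Complex.norm_dslope_le_div_of_mapsTo_ball hd hmaps (mem_ball_iff_norm.2 hx)
  rw [dslope_of_ne _ hne] at hs
  have e1 : slope (fun y => T y - T' y) x₀ x = slope T x₀ x - slope T' x₀ x := by
    simp only [slope_def_field]; ring
  rw [e1] at hs
  refine hs.trans (le_of_eq ?_)
  have e2 : (1 / 8 : ℝ) ^ (k + 1) = (1 / 2) ^ (k + 1) * (1 / 4) ^ (k + 1) := by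
    rw [← mul_pow]; norm_num
  rw [e2, show (1 / 4 : ℝ) ^ (k + 2) = (1 / 4) ^ (k + 1) * (1 / 4) by ring]
  have : (1 / 4 : ℝ) ^ (k + 1) ≠ 0 := by positivity
  field_simp
  norm_num

theorem p_Ahol : A_hol := by
  intro G C h x₀
  set c : ℝ := Real.sqrt C + 1 with hcdef
  have hc : 0 < c := by positivity
  have hex : ∀ k : ℕ, ∃ T : ℂ → ℂ, Differentiable ℂ T ∧
      ∀ x, ‖x - x₀‖ ≤ (1 / 4 : ℝ) ^ (k + 1) → ‖G x - T x‖ ≤ c * (1 / 8) ^ (k + 1) := by
    intro k
    obtain ⟨T, hT, hT1⟩ := h x₀ ((1 / 4 : ℝ) ^ (k + 1)) (by positivity)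
      (pow_le_of_le_one (by norm_num) (by norm_num) (by omega))
    refine ⟨T, hT, fun x hx => ?_⟩
    have h1 := hT1 x hx
    have e : C * ((1 / 4 : ℝ) ^ (k + 1)) ^ 3 = C * ((1 / 8) ^ (k + 1)) ^ 2 := by
      rw [← pow_mul, ← pow_mul, mul_comm (k + 1) 3, mul_comm (k + 1) 2, pow_mul, pow_mul]
      norm_num
    rw [e] at h1
    have hp : (0 : ℝ) < (1 / 8) ^ (k + 1) := by positivity
    have hC : C ≤ c ^ 2 := by
      rcases le_or_gt 0 C with h0 | h0
      · have := Real.sq_sqrt h0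
        have := Real.sqrt_nonneg C
        rw [hcdef]; nlinarith
      · exact h0.le.trans (sq_nonneg _)
    have h2 : ‖G x - T x‖ ^ 2 ≤ (c * (1 / 8) ^ (k + 1)) ^ 2 := by
      rw [mul_pow]
      exact h1.trans (mul_le_mul_of_nonneg_right hC (sq_nonneg _))
    exact le_of_sq_le_sq h2 (by positivity)
  choose T hT hT1 using hex
  -- the slopes of `T m` and `T k`
  have htel : ∀ (m n : ℕ) (x : ℂ), x ≠ x₀ → ‖x - x₀‖ < (1 / 4 : ℝ) ^ (m + n + 1) →
      ‖slope (T m) x₀ x - slope (T (m + n)) x₀ x‖ ≤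
        16 * c * ((1 / 2) ^ m - (1 / 2) ^ (m + n)) := by
    intro m n
    induction n with
    | zero => intro x _ _; simp
    | succ n ih =>
      intro x hne hx
      have h1 := ih x hne (hx.trans_le
        (pow_le_pow_of_le_one (by norm_num) (by norm_num) (by omega)))
      have h2 := Ahol_step G (T (m + n)) (T (m + n + 1)) c hc x₀ (m + n) (hT _) (hT _)
        (hT1 _) (hT1 _) x hx hne
      have e : slope (T m) x₀ x - slope (T (m + (n + 1))) x₀ x =
        (slope (T m) x₀ x - slope (T (m + n)) x₀ x) +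
        (slope (T (m + n)) x₀ x - slope (T (m + n + 1)) x₀ x) := by
        rw [← add_assoc]; ring
      rw [e]
      refine (norm_add_le _ _).trans ?_
      have e3 : (1 / 2 : ℝ) ^ (m + (n + 1)) = (1 / 2) ^ (m + n) / 2 := by
        rw [← add_assoc, pow_succ]; ring
      have e4 : (1 / 2 : ℝ) ^ (m + n + 1) = (1 / 2) ^ (m + n) / 2 := by
        rw [pow_succ]; ring
      rw [e3]; rw [e4] at h2
      linarith
  -- the slope of `G`
  have hG : ∀ (m : ℕ) (x : ℂ), x ≠ x₀ → ‖x - x₀‖ < (1 / 4 : ℝ) ^ (m + 3) →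
      ‖slope G x₀ x - slope (T m) x₀ x‖ ≤ 64 * c * (1 / 2) ^ m := by
    intro m x hne hx
    have hr : 0 < ‖x - x₀‖ := norm_pos_iff.2 (sub_ne_zero.2 hne)
    obtain ⟨n, hn1, hn2⟩ := exists_nat_pow_near_of_lt_one hr
      (hx.le.trans (pow_le_one₀ (by norm_num) (by norm_num)))
      (show (0 : ℝ) < 1 / 4 by norm_num) (show (1 / 4 : ℝ) < 1 by norm_num)
    have hmn : m + 2 < n := by
      by_contra hcon
      have : (1 / 4 : ℝ) ^ (m + 3) ≤ (1 / 4) ^ (n + 1) :=
        pow_le_pow_of_le_one (by norm_num) (by norm_num) (by omega)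
      linarith
    obtain ⟨l, rfl⟩ : ∃ l, n = m + l + 2 := ⟨n - m - 2, by omega⟩
    have hx2 : ‖x - x₀‖ < (1 / 4 : ℝ) ^ (m + l + 1) := by
      refine hn2.trans_lt ?_
      exact pow_lt_pow_right_of_lt_one₀ (by norm_num) (by norm_num) (by omega)
    have h1 := htel m l x hne hx2
    have hx0 : ‖x₀ - x₀‖ ≤ (1 / 4 : ℝ) ^ (m + l + 1) := by
      rw [sub_self, norm_zero]; positivity
    have h2 : ‖slope G x₀ x - slope (T (m + l)) x₀ x‖ ≤ 32 * c * (1 / 2) ^ (m + l) := by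
      have e : slope G x₀ x - slope (T (m + l)) x₀ x =
          ((G x - T (m + l) x) - (G x₀ - T (m + l) x₀)) / (x - x₀) := by
        simp only [slope_def_field]; ring
      rw [e, norm_div, div_le_iff₀ hr]
      refine (norm_sub_le _ _).trans ?_
      have g1 := hT1 (m + l) x hx2.le
      have g2 := hT1 (m + l) x₀ hx0
      have e8 : (1 / 8 : ℝ) ^ (m + l + 1) = (1 / 2) ^ (m + l) * (1 / 4) ^ (m + l + 2 + 1) * 8 := by
        rw [show (1 / 8 : ℝ) = 1 / 2 * (1 / 4) by norm_num, mul_pow]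
        ring
      have hp : (0 : ℝ) < c * (1 / 2) ^ (m + l) := by positivity
      have g3 : c * (1 / 2) ^ (m + l) * (1 / 4 : ℝ) ^ (m + l + 2 + 1) ≤
          c * (1 / 2) ^ (m + l) * ‖x - x₀‖ := mul_le_mul_of_nonneg_left hn1.le hp.le
      rw [e8] at g1 g2
      nlinarith
    have e : slope G x₀ x - slope (T m) x₀ x = (slope G x₀ x - slope (T (m + l)) x₀ x) -
      (slope (T m) x₀ x - slope (T (m + l)) x₀ x) := by ring
    rw [e]
    refine (norm_sub_le _ _).trans ?_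
    have h3 : (1 / 2 : ℝ) ^ (m + l) ≤ (1 / 2) ^ m :=
      pow_le_pow_of_le_one (by norm_num) (by norm_num) (by omega)
    have h4 : (0 : ℝ) < (1 / 2) ^ (m + l) := by positivity
    nlinarith
  -- the Cauchy criterion
  have hcau : Cauchy (map (slope G x₀) (𝓝[≠] x₀)) := by
    rw [Metric.cauchy_iff]
    refine ⟨inferInstance, fun ε hε => ?_⟩
    obtain ⟨m, hm⟩ : ∃ m : ℕ, 64 * c * (1 / 2 : ℝ) ^ m < ε / 4 := by
      obtain ⟨m, hm⟩ := exists_pow_lt_of_lt_one (show 0 < ε / 4 / (64 * c) by positivity)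
        (show (1 / 2 : ℝ) < 1 by norm_num)
      refine ⟨m, ?_⟩
      rw [lt_div_iff₀ (by positivity)] at hm
      linarith
    have hlim : Tendsto (slope (T m) x₀) (𝓝[≠] x₀) (𝓝 (deriv (T m) x₀)) :=
      hasDerivAt_iff_tendsto_slope.1 ((hT m) x₀).hasDerivAt
    have hev : ∀ᶠ x in 𝓝[≠] x₀, dist (slope G x₀ x) (deriv (T m) x₀) < ε / 2 := by
      have h1 := (Metric.tendsto_nhds.1 hlim) (ε / 4) (by positivity)
      have h2 : ∀ᶠ x in 𝓝[≠] x₀, ‖x - x₀‖ < (1 / 4 : ℝ) ^ (m + 3) := by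
        have : ball x₀ ((1 / 4 : ℝ) ^ (m + 3)) ∈ 𝓝[≠] x₀ :=
          mem_nhdsWithin_of_mem_nhds (ball_mem_nhds _ (by positivity))
        filter_upwards [this] with x hx
        exact mem_ball_iff_norm.1 hx
      filter_upwards [h1, h2, self_mem_nhdsWithin] with x g1 g2 g3
      have g4 := hG m x g3 g2
      rw [← dist_eq_norm] at g4
      linarith [dist_triangle (slope G x₀ x) (slope (T m) x₀ x) (deriv (T m) x₀)]
    refine ⟨ball (deriv (T m) x₀) (ε / 2), hev, fun x hx y hy => ?_⟩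
    rw [mem_ball] at hx hy
    rw [dist_comm] at hy
    linarith [dist_triangle x (deriv (T m) x₀) y]
  obtain ⟨d, hd⟩ := cauchy_map_iff_exists_tendsto.1 hcau
  exact (hasDerivAt_iff_tendsto_slope.2 hd).differentiableAt

end Pool.Agent.F8.NL
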