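import Pool.Agent.Lib.MP_305fdd_al.F8.NL.StmA

/-!
# [NL A main] assembly of block A
-/

set_option autoImplicit false

namespace Pool.Agent.F8.NL

open Pool.Agent.F8.CG Pool.Agent.F8.BG Pool.Agent.MP_305fdd_al Pool.Agent.Lib.MP_305fdd_al
  Pool.Agent.F8
open scoped QuadraticAlgebra ComplexConjugate

noncomputable section

/-- comparison of the error terms -/
private lemma Amain_err (C δ : ℝ) (k l : ℕ) (hkl : l ≤ k) (h0 : 0 < δ) (h1 : δ ≤ 1) :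
    C * δ ^ k ≤ |C| * δ ^ l := by
  have h2 : δ ^ k ≤ δ ^ l := pow_le_pow_of_le_one h0.le h1 hkl
  have h3 : 0 ≤ δ ^ k := by positivity
  calc C * δ ^ k ≤ |C| * δ ^ k := mul_le_mul_of_nonneg_right (le_abs_self C) h3
    _ ≤ |C| * δ ^ l := mul_le_mul_of_nonneg_left h2 (abs_nonneg C)

/-- a sum with at most three terms -/
private lemma Amain_sum (m : ℕ) (hm : 2 ≤ m) (g : ℕ → ℂ) (hg : ∀ i, 3 ≤ i → g i = 0) :
    ∑ i : Fin (m + 1), g (i : ℕ) = g 0 + g 1 + g 2 := by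
  rw [Fin.sum_univ_eq_sum_range g (m + 1)]
  have h : Finset.range 3 ⊆ Finset.range (m + 1) := by
    intro i hi
    rw [Finset.mem_range] at hi ⊢
    omega
  rw [← Finset.sum_subset h fun i _ hi => hg i (by simpa using hi)]
  simp [Finset.sum_range_succ]

/-- the case `n = 0` -/
private lemma Amain_zero (hpol : A_pol) (hhol : A_hol) (hc0 : A_c0) (m : ℕ) (hm : 3 ≤ m)
    (G : ℂ → ℂ) (C κ : ℝ) (hgr : ∀ x, ‖G x‖ ≤ κ * (1 + ‖x‖) ^ (0 + 1))
    (happ : ∀ (x₀ : ℂ) (δ : ℝ), 0 < δ → δ ≤ 1 / 2 → ∃ P ∈ PolH m 0, ∀ x, ‖x - x₀‖ ≤ δ →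
      ‖G x - P (x, 1)‖ ^ 2 ≤ C * δ ^ (m + 0)) :
    ∃ P ∈ PolH m 0, ∀ x : ℂ, G x = P (x, 1) := by
  obtain ⟨-, -, -, hone, hrep⟩ := hpol m 0
  have hG : Differentiable ℂ G := by
    refine hhol G |C| fun x₀ δ h0 h1 => ?_
    obtain ⟨P, hP, hPG⟩ := happ x₀ δ h0 (by linarith)
    obtain ⟨c, hc⟩ := hone P hP
    refine ⟨fun x => P (x, 1), ?_, fun x hx => ?_⟩
    · have h2 : (fun x : ℂ => P (x, 1)) = fun x : ℂ => ∑ i : Fin (m + 1), c i 0 * x ^ (i : ℕ) := by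
        funext x
        rw [hc x]
        refine Finset.sum_congr rfl fun i _ => ?_
        simp
      rw [h2]
      fun_prop
    · exact (hPG x hx).trans (Amain_err C δ (m + 0) 3 (by omega) h0 (by linarith))
  obtain ⟨α, β, hαβ⟩ := hc0 G κ hG hgr
  obtain ⟨P, hP, hPx⟩ := hrep fun i _ => if (i : ℕ) = 1 then α else if (i : ℕ) = 0 then β else 0
  refine ⟨P, hP, fun x => ?_⟩
  rw [hPx x, hαβ x]
  have h := Amain_sum m (by omega) (fun i => ∑ j : Fin (0 + 1), (if i = 1 then α else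
    if i = 0 then β else 0) * (x ^ i * conj x ^ (j : ℕ))) fun i hi => by
      refine Finset.sum_eq_zero fun j _ => ?_
      rw [if_neg (by omega), if_neg (by omega), zero_mul]
  rw [h]
  simp
  ring

/-- the case `n = 1` -/
private lemma Amain_one (hpol : A_pol) (hone' : A_one) (hc1 : A_c1) (m : ℕ) (hm : 4 ≤ m)
    (G : ℂ → ℂ) (C κ : ℝ) (hgr : ∀ x, ‖G x‖ ≤ κ * (1 + ‖x‖) ^ (1 + 1))
    (happ : ∀ (x₀ : ℂ) (δ : ℝ), 0 < δ → δ ≤ 1 / 2 → ∃ P ∈ PolH m 1, ∀ x, ‖x - x₀‖ ≤ δ →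
      ‖G x - P (x, 1)‖ ^ 2 ≤ C * δ ^ (m + 1)) :
    ∃ P ∈ PolH m 1, ∀ x : ℂ, G x = P (x, 1) := by
  obtain ⟨-, -, -, hone, hrep⟩ := hpol m 1
  obtain ⟨G₀, G₁, hG₀, hG₁, hG⟩ := hone' G |C| fun x₀ δ h0 h1 => by
    obtain ⟨P, hP, hPG⟩ := happ x₀ δ h0 h1
    obtain ⟨c, hc⟩ := hone P hP
    refine ⟨fun x => ∑ i : Fin (m + 1), c i 0 * x ^ (i : ℕ),
      fun x => ∑ i : Fin (m + 1), c i 1 * x ^ (i : ℕ), by fun_prop, by fun_prop, fun x hx => ?_⟩
    have h2 : (∑ i : Fin (m + 1), c i 0 * x ^ (i : ℕ)) +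
        conj x * (∑ i : Fin (m + 1), c i 1 * x ^ (i : ℕ)) = P (x, 1) := by
      rw [hc x, Finset.mul_sum, ← Finset.sum_add_distrib]
      refine Finset.sum_congr rfl fun i _ => ?_
      rw [Fin.sum_univ_two]
      simp
      ring
    simp only [h2]
    exact (hPG x hx).trans (Amain_err C δ (m + 1) 5 (by omega) h0 (by linarith))
  obtain ⟨α, β, γ, α', β', h⟩ := hc1 G₀ G₁ κ hG₀ hG₁ fun x => by
    rw [← hG x]
    exact hgr x
  obtain ⟨P, hP, hPx⟩ := hrep fun i j => if (j : ℕ) = 0 then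
    (if (i : ℕ) = 2 then α else if (i : ℕ) = 1 then β else if (i : ℕ) = 0 then γ else 0) else
    (if (i : ℕ) = 1 then α' else if (i : ℕ) = 0 then β' else 0)
  refine ⟨P, hP, fun x => ?_⟩
  rw [hPx x, hG x, (h x).1, (h x).2]
  have h := Amain_sum m (by omega) (fun i => ∑ j : Fin (1 + 1), (if (j : ℕ) = 0 then
    (if i = 2 then α else if i = 1 then β else if i = 0 then γ else 0) else
    (if i = 1 then α' else if i = 0 then β' else 0)) * (x ^ i * conj x ^ (j : ℕ))) fun i hi => by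
      refine Finset.sum_eq_zero fun j _ => ?_
      rw [if_neg (by omega : ¬ i = 2), if_neg (by omega : ¬ i = 1), if_neg (by omega : ¬ i = 0),
        if_neg (by omega : ¬ i = 1), if_neg (by omega : ¬ i = 0), ite_self, zero_mul]
  rw [h]
  simp
  ring

/-- [NL A main] MAIN RESULT of block A. -/
theorem p_Amain (hpol : A_pol) (hgr : A_gr) (happ : A_app) (hext : A_ext) (hhol : A_hol)
    (hone : A_one) (hc0 : A_c0) (hc1 : A_c1) : A_main := by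
  intro a b hab hEu hpid m n hmn Ω _ _ F hF o
  obtain ⟨κ, hκ, hk⟩ := hgr a b hab hEu m n (by omega) Ω F hF
  obtain ⟨C, hC, hCapp⟩ := happ a b hab hEu hpid m n (by omega) Ω F hF
  obtain ⟨G, C', hGF, hGgr, hGapp⟩ := hext a b hab m n (by omega) (fun x => F o (x, 1)) C κ
    (fun x hx => hk o x hx) (fun x₀ δ h0 h1 => hCapp o x₀ δ h0 h1)
  have hmain : ∃ P ∈ PolH m n, ∀ x : ℂ, G x = P (x, 1) := by
    rcases hmn with ⟨rfl, hm⟩ | ⟨rfl, hm⟩
    · exact Amain_zero hpol hhol hc0 m hm G C' κ hGgr hGapp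
    · exact Amain_one hpol hone hc1 m hm G C' κ hGgr hGapp
  obtain ⟨P, hP, hPG⟩ := hmain
  exact ⟨P, hP, fun x hx => by rw [← hPG x]; exact (hGF x hx).symm⟩

end

end Pool.Agent.F8.NL
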