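import Pool.Agent.Lib.MP_305fdd_al.F8.NL.StmA

/-! # NL A pol: bihomogeneous polynomials -/

set_option autoImplicit false

namespace Pool.Agent.F8.NL

open scoped ComplexConjugate

noncomputable section

/-- homogeneous polynomials of degree `m` in two variables -/
private def Apol_L (m : ℕ) : Submodule ℂ (ℂ × ℂ → ℂ) :=
  Submodule.span ℂ (Set.range fun i : Fin (m + 1) => fun e : ℂ × ℂ =>
    e.1 ^ (i : ℕ) * e.2 ^ (m - i))

private lemma Apol_gen (m i : ℕ) (hi : i ≤ m) :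
    (fun e : ℂ × ℂ => e.1 ^ i * e.2 ^ (m - i)) ∈ Apol_L m :=
  Submodule.subset_span ⟨⟨i, by omega⟩, rfl⟩

private lemma Apol_mul (a b : ℕ) (f g : ℂ × ℂ → ℂ) (hf : f ∈ Apol_L a) (hg : g ∈ Apol_L b) :
    (fun e => f e * g e) ∈ Apol_L (a + b) := by
  refine Submodule.span_induction (p := fun f _ => (fun e => f e * g e) ∈ Apol_L (a + b))
    ?_ ?_ ?_ ?_ hf
  · rintro _ ⟨i, rfl⟩
    refine Submodule.span_induction (p := fun g _ => (fun e : ℂ × ℂ =>
      (e.1 ^ (i : ℕ) * e.2 ^ (a - i)) * g e) ∈ Apol_L (a + b)) ?_ ?_ ?_ ?_ hg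
    · rintro _ ⟨j, rfl⟩
      have hi := i.isLt
      have hj := j.isLt
      have h := Apol_gen (a + b) ((i : ℕ) + j) (by omega)
      have h2 : (fun e : ℂ × ℂ => e.1 ^ (i : ℕ) * e.2 ^ (a - (i : ℕ)) *
          (e.1 ^ (j : ℕ) * e.2 ^ (b - (j : ℕ)))) =
          fun e : ℂ × ℂ => e.1 ^ ((i : ℕ) + j) * e.2 ^ (a + b - ((i : ℕ) + j)) := by
        funext e
        have h3 : a + b - ((i : ℕ) + j) = (a - i) + (b - j) := by omega
        rw [h3, pow_add, pow_add]
        ring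
      simpa only [h2] using h
    · have h2 : (fun e : ℂ × ℂ => e.1 ^ (i : ℕ) * e.2 ^ (a - (i : ℕ)) *
          (0 : ℂ × ℂ → ℂ) e) = 0 := by
        funext e; simp
      rw [h2]; exact (Apol_L (a + b)).zero_mem
    · intro x y _ _ hx hy
      have h := (Apol_L (a + b)).add_mem hx hy
      have h2 : (fun e : ℂ × ℂ => e.1 ^ (i : ℕ) * e.2 ^ (a - (i : ℕ)) * (x + y) e) =
          (fun e : ℂ × ℂ => e.1 ^ (i : ℕ) * e.2 ^ (a - (i : ℕ)) * x e) +
          (fun e : ℂ × ℂ => e.1 ^ (i : ℕ) * e.2 ^ (a - (i : ℕ)) * y e) := by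
        funext e; simp only [Pi.add_apply]; ring
      rw [h2]; exact h
    · intro c x _ hx
      have h := (Apol_L (a + b)).smul_mem c hx
      have h2 : (fun e : ℂ × ℂ => e.1 ^ (i : ℕ) * e.2 ^ (a - (i : ℕ)) * (c • x) e) =
          c • (fun e : ℂ × ℂ => e.1 ^ (i : ℕ) * e.2 ^ (a - (i : ℕ)) * x e) := by
        funext e; simp only [Pi.smul_apply, smul_eq_mul]; ring
      rw [h2]; exact h
  · have h2 : (fun e : ℂ × ℂ => (0 : ℂ × ℂ → ℂ) e * g e) = 0 := by
      funext e; simp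
    rw [h2]; exact (Apol_L (a + b)).zero_mem
  · intro x y _ _ hx hy
    have h := (Apol_L (a + b)).add_mem hx hy
    have h2 : (fun e : ℂ × ℂ => (x + y) e * g e) =
        (fun e : ℂ × ℂ => x e * g e) + (fun e : ℂ × ℂ => y e * g e) := by
      funext e; simp only [Pi.add_apply]; ring
    rw [h2]; exact h
  · intro c x _ hx
    have h := (Apol_L (a + b)).smul_mem c hx
    have h2 : (fun e : ℂ × ℂ => (c • x) e * g e) = c • (fun e : ℂ × ℂ => x e * g e) := by
      funext e; simp only [Pi.smul_apply, smul_eq_mul]; ring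
    rw [h2]; exact h

private lemma Apol_lin (p q : ℂ) : (fun e : ℂ × ℂ => p * e.1 + q * e.2) ∈ Apol_L 1 := by
  have h1 := (Apol_L 1).smul_mem p (Apol_gen 1 1 le_rfl)
  have h0 := (Apol_L 1).smul_mem q (Apol_gen 1 0 (by omega))
  have h := (Apol_L 1).add_mem h1 h0
  have h2 : (fun e : ℂ × ℂ => p * e.1 + q * e.2) =
      (p • fun e : ℂ × ℂ => e.1 ^ 1 * e.2 ^ (1 - 1)) +
      (q • fun e : ℂ × ℂ => e.1 ^ 0 * e.2 ^ (1 - 0)) := by
    funext e
    simp
  rw [h2]; exact h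

private lemma Apol_pow (f : ℂ × ℂ → ℂ) (hf : f ∈ Apol_L 1) (k : ℕ) :
    (fun e => f e ^ k) ∈ Apol_L k := by
  induction k with
  | zero =>
    have h := Apol_gen 0 0 le_rfl
    simpa using h
  | succ k ih =>
    have h := Apol_mul k 1 _ f ih hf
    simpa only [pow_succ] using h

private lemma Apol_two (m i : ℕ) (hi : i ≤ m) (p q r s : ℂ) :
    (fun e : ℂ × ℂ => (p * e.1 + q * e.2) ^ i * (r * e.1 + s * e.2) ^ (m - i)) ∈ Apol_L m := by
  have h := Apol_mul i (m - i) _ _ (Apol_pow _ (Apol_lin p q) i)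
    (Apol_pow _ (Apol_lin r s) (m - i))
  rwa [Nat.add_sub_cancel' hi] at h

private lemma Apol_conj (m n : ℕ) (f g : ℂ × ℂ → ℂ) (hf : f ∈ Apol_L m) (hg : g ∈ Apol_L n) :
    (fun e => f e * conj (g e)) ∈ PolH m n := by
  refine Submodule.span_induction (p := fun f _ => (fun e => f e * conj (g e)) ∈ PolH m n)
    ?_ ?_ ?_ ?_ hf
  · rintro _ ⟨i, rfl⟩
    refine Submodule.span_induction (p := fun g _ => (fun e : ℂ × ℂ =>
      (e.1 ^ (i : ℕ) * e.2 ^ (m - i)) * conj (g e)) ∈ PolH m n) ?_ ?_ ?_ ?_ hg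
    · rintro _ ⟨j, rfl⟩
      refine Submodule.subset_span ⟨(i, j), ?_⟩
      funext e
      simp only [map_mul, map_pow]
    · have h2 : (fun e : ℂ × ℂ => e.1 ^ (i : ℕ) * e.2 ^ (m - (i : ℕ)) *
          conj ((0 : ℂ × ℂ → ℂ) e)) = 0 := by
        funext e; simp
      rw [h2]; exact (PolH m n).zero_mem
    · intro x y _ _ hx hy
      have h := (PolH m n).add_mem hx hy
      have h2 : (fun e : ℂ × ℂ => e.1 ^ (i : ℕ) * e.2 ^ (m - (i : ℕ)) * conj ((x + y) e)) =
          (fun e : ℂ × ℂ => e.1 ^ (i : ℕ) * e.2 ^ (m - (i : ℕ)) * conj (x e)) +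
          (fun e : ℂ × ℂ => e.1 ^ (i : ℕ) * e.2 ^ (m - (i : ℕ)) * conj (y e)) := by
        funext e; simp only [Pi.add_apply, map_add]; ring
      rw [h2]; exact h
    · intro c x _ hx
      have h := (PolH m n).smul_mem (conj c) hx
      have h2 : (fun e : ℂ × ℂ => e.1 ^ (i : ℕ) * e.2 ^ (m - (i : ℕ)) * conj ((c • x) e)) =
          (conj c) • (fun e : ℂ × ℂ => e.1 ^ (i : ℕ) * e.2 ^ (m - (i : ℕ)) * conj (x e)) := by
        funext e; simp only [Pi.smul_apply, smul_eq_mul, map_mul]; ring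
      rw [h2]; exact h
  · have h2 : (fun e : ℂ × ℂ => (0 : ℂ × ℂ → ℂ) e * conj (g e)) = 0 := by
      funext e; simp
    rw [h2]; exact (PolH m n).zero_mem
  · intro x y _ _ hx hy
    have h := (PolH m n).add_mem hx hy
    have h2 : (fun e : ℂ × ℂ => (x + y) e * conj (g e)) =
        (fun e : ℂ × ℂ => x e * conj (g e)) + (fun e : ℂ × ℂ => y e * conj (g e)) := by
      funext e; simp only [Pi.add_apply]; ring
    rw [h2]; exact h
  · intro c x _ hx
    have h := (PolH m n).smul_mem c hx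
    have h2 : (fun e : ℂ × ℂ => (c • x) e * conj (g e)) =
        c • (fun e : ℂ × ℂ => x e * conj (g e)) := by
      funext e; simp only [Pi.smul_apply, smul_eq_mul]; ring
    rw [h2]; exact h

private lemma Apol_sub (m n : ℕ) (P : ℂ × ℂ → ℂ) (hP : P ∈ PolH m n) (p q r s : ℂ) :
    (fun e : ℂ × ℂ => P (p * e.1 + q * e.2, r * e.1 + s * e.2)) ∈ PolH m n := by
  refine Submodule.span_induction (p := fun P _ =>
    (fun e : ℂ × ℂ => P (p * e.1 + q * e.2, r * e.1 + s * e.2)) ∈ PolH m n) ?_ ?_ ?_ ?_ hP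
  · rintro _ ⟨⟨i, j⟩, rfl⟩
    have hi := i.isLt
    have hj := j.isLt
    have h := Apol_conj m n _ _ (Apol_two m i (by omega) p q r s)
      (Apol_two n j (by omega) p q r s)
    simpa only [map_mul, map_pow] using h
  · exact (PolH m n).zero_mem
  · intro x y _ _ hx hy
    exact (PolH m n).add_mem hx hy
  · intro c x _ hx
    exact (PolH m n).smul_mem c hx

private lemma Apol_rep (m n : ℕ) (P : ℂ × ℂ → ℂ) : P ∈ PolH m n ↔
    ∃ c : Fin (m + 1) × Fin (n + 1) → ℂ, P = fun e : ℂ × ℂ => ∑ p, c p *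
      (e.1 ^ (p.1 : ℕ) * e.2 ^ (m - p.1) * (conj e.1 ^ (p.2 : ℕ) * conj e.2 ^ (n - p.2))) := by
  rw [PolH, Submodule.mem_span_range_iff_exists_fun]
  constructor
  · rintro ⟨c, rfl⟩
    refine ⟨c, ?_⟩
    funext e
    simp only [Finset.sum_apply, Pi.smul_apply, smul_eq_mul]
  · rintro ⟨c, rfl⟩
    refine ⟨c, ?_⟩
    funext e
    simp only [Finset.sum_apply, Pi.smul_apply, smul_eq_mul]

/-- [NL A pol] -/
theorem p_Apol : A_pol := by
  intro m n
  refine ⟨fun P hP p q r s => Apol_sub m n P hP p q r s, ?_, ?_, ?_, ?_⟩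
  · intro P hP l e
    obtain ⟨c, rfl⟩ := (Apol_rep m n P).1 hP
    simp only
    rw [Finset.mul_sum]
    refine Finset.sum_congr rfl fun p _ => ?_
    have hi : (p.1 : ℕ) ≤ m := by have := p.1.isLt; omega
    have hj : (p.2 : ℕ) ≤ n := by have := p.2.isLt; omega
    have h1 : l ^ m = l ^ (p.1 : ℕ) * l ^ (m - p.1) := by
      rw [← pow_add, Nat.add_sub_cancel' hi]
    have h2 : conj l ^ n = conj l ^ (p.2 : ℕ) * conj l ^ (n - p.2) := by
      rw [← pow_add, Nat.add_sub_cancel' hj]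
    rw [h1, h2]
    simp only [map_mul, mul_pow]
    ring
  · intro P hP
    obtain ⟨c, rfl⟩ := (Apol_rep m n P).1 hP
    refine continuous_finsetSum _ fun p _ => ?_
    have hc1 : Continuous fun e : ℂ × ℂ => conj e.1 := Complex.continuous_conj.comp continuous_fst
    have hc2 : Continuous fun e : ℂ × ℂ => conj e.2 := Complex.continuous_conj.comp continuous_snd
    exact continuous_const.mul (((continuous_fst.pow _).mul (continuous_snd.pow _)).mul
      ((hc1.pow _).mul (hc2.pow _)))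
  · intro P hP
    obtain ⟨c, rfl⟩ := (Apol_rep m n P).1 hP
    refine ⟨fun i j => c (i, j), fun x => ?_⟩
    simp only [one_pow, mul_one, map_one]
    rw [Fintype.sum_prod_type]
  · intro c
    refine ⟨_, (Apol_rep m n _).2 ⟨fun p => c p.1 p.2, rfl⟩, fun x => ?_⟩
    simp only [one_pow, mul_one, map_one]
    rw [Fintype.sum_prod_type]

end

end Pool.Agent.F8.NL
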