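import Pool.Agent.Lib.MP_305fdd_al.F8.NL.StmA
import Pool.Agent.Lib.MP_305fdd_al.F8.CG.P_Vcov

/-!
# MP_305fdd_al, all lattices commensurable with `SL₂(ℤ[w])`: reduction theory (piece Ared)
-/

set_option autoImplicit false

namespace Pool.Agent.F8.NL

open Pool.Agent.F8.CG Pool.Agent.F8.BG Pool.Agent.MP_305fdd_al Pool.Agent.Lib.MP_305fdd_al
  Pool.Agent.F8
open scoped QuadraticAlgebra ComplexConjugate

noncomputable section

private theorem Ared_dX {a b : ℤ} (g : GQ a b) (X : MM) : dX (ac g X) = dX X := by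
  have h : iC a b (g.val 0 0) * iC a b (g.val 1 1) - iC a b (g.val 0 1) * iC a b (g.val 1 0) = 1 := by
    rw [← map_mul, ← map_mul, ← map_sub, ← Matrix.det_fin_two, g.2, map_one]
  simp only [dX, ac, Prod.fst_add, Prod.snd_add, Prod.smul_fst, Prod.smul_snd, smul_eq_mul]
  linear_combination (X.1.1 * X.2.2 - X.1.2 * X.2.1) * h

/-- the identity of Lagrange -/
private theorem Ared_lag (Y : MM) :
    (‖Y.1.1‖ ^ 2 + ‖Y.1.2‖ ^ 2) * nr Y =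
      ‖Y.1.1 * conj Y.2.1 + Y.1.2 * conj Y.2.2‖ ^ 2 + ‖dX Y‖ ^ 2 := by
  unfold nr dX
  simp only [← Complex.normSq_eq_norm_sq]
  obtain ⟨⟨⟨p1, p2⟩, ⟨q1, q2⟩⟩, ⟨⟨r1, r2⟩, ⟨s1, s2⟩⟩⟩ := Y
  simp only [Complex.normSq_apply, Complex.add_re, Complex.add_im, Complex.mul_re, Complex.mul_im,
    Complex.conj_re, Complex.conj_im, Complex.sub_re, Complex.sub_im]
  ring

private theorem Ared_nr_pos (Y : MM) (h : dX Y ≠ 0) : 0 < nr Y := by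
  by_contra h1
  have h2 : 0 ≤ ‖Y.2.1‖ ^ 2 := sq_nonneg _
  have h3 : 0 ≤ ‖Y.2.2‖ ^ 2 := sq_nonneg _
  unfold nr at h1
  have h4 : ‖Y.2.1‖ ^ 2 = 0 := by linarith
  have h5 : ‖Y.2.2‖ ^ 2 = 0 := by linarith
  have h6 : Y.2.1 = 0 := by simpa using h4
  have h7 : Y.2.2 = 0 := by simpa using h5
  apply h
  unfold dX
  rw [h6, h7]
  ring

/-- the norms of a row of `ac g X`, `X = ((x₀, δ), (1, 0))` -/
private theorem Ared_row (p q x₀ : ℂ) (δ : ℝ) (hδ : 0 < δ) :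
    ‖p * x₀ + q * 1‖ ^ 2 + ‖p * (δ : ℂ) + q * 0‖ ^ 2 = ‖p * x₀ + q‖ ^ 2 + (‖p‖ * δ) ^ 2 := by
  rw [mul_one, mul_zero, add_zero, norm_mul, Complex.norm_real, Real.norm_eq_abs, abs_of_pos hδ]

/-- [NL Ared] reduction theory. -/
theorem p_Ared : A_red := by
  intro a b hab hE hP x₀ δ hδ
  set X : MM := ((x₀, (δ : ℂ)), ((1 : ℂ), (0 : ℂ))) with hX
  have hdX : dX X = -(δ : ℂ) := by
    rw [hX]
    show x₀ * 0 - (δ : ℂ) * 1 = -(δ : ℂ)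
    ring
  have hndX : ‖dX X‖ = δ := by
    rw [hdX, norm_neg, Complex.norm_real, Real.norm_eq_abs, abs_of_pos hδ]
  have hX0 : dX X ≠ 0 := by
    rw [← norm_pos_iff, hndX]
    exact hδ
  obtain ⟨g, hg⟩ := ((p_Vcov a b hab hE hP).2 X hX0).1
  obtain ⟨-, h2, h3⟩ := hg
  have hdY : dX (ac g X) = dX X := Ared_dX g X
  have hn0 : 0 < nr (ac g X) := Ared_nr_pos _ (by rw [hdY]; exact hX0)
  have hlag := Ared_lag (ac g X)
  rw [hdY, hndX] at h2 hlag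
  have hrow1 : ‖(ac g X).1.1‖ ^ 2 + ‖(ac g X).1.2‖ ^ 2 =
      ‖iC a b (g.val 0 0) * x₀ + iC a b (g.val 0 1)‖ ^ 2 + (‖iC a b (g.val 0 0)‖ * δ) ^ 2 :=
    Ared_row _ _ x₀ δ hδ
  have hrow2 : nr (ac g X) =
      ‖iC a b (g.val 1 0) * x₀ + iC a b (g.val 1 1)‖ ^ 2 + (‖iC a b (g.val 1 0)‖ * δ) ^ 2 :=
    Ared_row _ _ x₀ δ hδ
  refine ⟨g, nr (ac g X), hn0, h2, hrow2.symm, ?_⟩
  rw [← hrow1]
  have h5 := pow_le_pow_left₀ (norm_nonneg _) h3 2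
  have h6 : nr (ac g X) + δ ^ 2 / nr (ac g X) = (nr (ac g X) ^ 2 + δ ^ 2) / nr (ac g X) := by
    field_simp
  rw [h6, le_div_iff₀ hn0, hlag]
  nlinarith [sq_nonneg (nr (ac g X))]

end

end Pool.Agent.F8.NL
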