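import Pool.Agent.Lib.MP_305fdd_al.F8.NL.StmE

/-! Piece `Bbv` of project NL: the functional `bv`. -/

set_option autoImplicit false

namespace Pool.Agent.F8.NL

open Pool.Agent.F8.CG Pool.Agent.F8.BG Pool.Agent.MP_305fdd_al Pool.Agent.Lib.MP_305fdd_al
  Pool.Agent.F8
open scoped QuadraticAlgebra ComplexConjugate

/-- the coefficient of `X^k` of a translated polynomial of degree at most `k + 1` -/
private theorem Bbv_coeff {L : Type} [CommRing L] (k : ℕ) (q : Fin (k + 2) → L) (r : L) :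
    (∑ i, Polynomial.C (q i) * (Polynomial.X + Polynomial.C r) ^ (i : ℕ)).coeff k =
      q ⟨k, by omega⟩ + (k + 1 : L) * r * q (Fin.last (k + 1)) := by
  rw [Polynomial.finsetSum_coeff, Fin.sum_univ_castSucc, Fin.sum_univ_castSucc]
  have h0 : ∑ i : Fin k, (Polynomial.C (q i.castSucc.castSucc) *
      (Polynomial.X + Polynomial.C r) ^ ((i.castSucc.castSucc : Fin (k + 2)) : ℕ)).coeff k = 0 := by
    refine Finset.sum_eq_zero fun i _ => ?_
    rw [Polynomial.coeff_C_mul, Polynomial.coeff_X_add_C_pow, Nat.choose_eq_zero_of_lt, Nat.cast_zero,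
      mul_zero, mul_zero]
    exact i.2
  rw [h0, zero_add, Polynomial.coeff_C_mul, Polynomial.coeff_X_add_C_pow, Polynomial.coeff_C_mul,
    Polynomial.coeff_X_add_C_pow]
  have h1 : (((Fin.last k).castSucc : Fin (k + 2)) : ℕ) = k := by simp
  have h2 : ((Fin.last (k + 1) : Fin (k + 2)) : ℕ) = k + 1 := by simp
  have h3 : ((Fin.last k).castSucc : Fin (k + 2)) = ⟨k, by omega⟩ := rfl
  rw [h1, h2, h3, Nat.sub_self, Nat.choose_self, show k + 1 - k = 1 by omega, Nat.choose_succ_self_right]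
  push_cast
  ring

/-- the value at `(1, 0)` -/
private theorem Bbv_last {L : Type} [CommRing L] (m : ℕ) (q : Fin (m + 1) → L) :
    evm m q ![1, 0] = q (Fin.last m) := by
  unfold evm
  rw [Finset.sum_eq_single (Fin.last m)]
  · simp
  · intro i _ hi
    have h : (i : ℕ) < m := by
      rcases lt_or_eq_of_le (Nat.lt_succ_iff.1 i.2) with h | h
      · exact h
      · exact absurd (Fin.ext h) hi
    have h2 : m - (i : ℕ) ≠ 0 := by omega
    simp [h2]
  · intro h
    exact absurd (Finset.mem_univ _) h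

/-- the value at `(x, 1)` as the value of a polynomial -/
private theorem Bbv_eval {L : Type} [CommRing L] (m : ℕ) (q : Fin (m + 1) → L) (r x : L) :
    (∑ i, Polynomial.C (q i) * (Polynomial.X + Polynomial.C r) ^ (i : ℕ)).eval x =
      evm m q ![x + r, 1] := by
  rw [Polynomial.eval_finsetSum]
  unfold evm
  refine Finset.sum_congr rfl fun i _ => ?_
  simp

private theorem Bbv_mv {R : Type} [CommRing R] (M : Matrix (Fin 2) (Fin 2) R) (v : Fin 2 → R)
    (i : Fin 2) : M.mulVec v i = M i 0 * v 0 + M i 1 * v 1 := by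
  rw [Matrix.mulVec_eq_sum]
  simp [Fin.sum_univ_two, mul_comm]

private theorem Bbv_inv {R : Type} [CommRing R] (e : Fin 2 → R) (t : R) :
    (tv e t)⁻¹ = tv e (-t) := by
  have h := (p_Vtv R e (-t) t).2.1
  have h0 : tv e (-t + t) = (1 : SL2 R) := by
    apply Subtype.ext
    show !![1 - (-t + t) * e 0 * e 1, (-t + t) * e 0 ^ 2; -((-t + t) * e 1 ^ 2),
      1 + (-t + t) * e 0 * e 1] = (1 : Matrix (Fin 2) (Fin 2) R)
    ext i j
    fin_cases i <;> fin_cases j <;> simp
  rw [h0] at h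
  exact (eq_inv_of_mul_eq_one_left h.symm).symm

private theorem Bbv_fix {R : Type} [CommRing R] (e : Fin 2 → R) (t : R) :
    (tv e t)⁻¹.val.mulVec e = e := by
  rw [Bbv_inv, (p_Vtv R e 0 (-t)).1 e]
  have : CG.om e e = 0 := by
    unfold CG.om
    ring
  rw [this, mul_zero, zero_smul, add_zero]

/-- the main computation -/
private theorem Bbv_core {L : Type} [CommRing L] [IsDomain L] [CharZero L] (k : ℕ)
    (E : Fin 2 → L) (hE : E ≠ 0) (S T : L) (P Q : Fin (k + 2) → L)
    (h : P + (sm (k + 1) (tv E S)).mulVec Q = Q + (sm (k + 1) (tv E T)).mulVec P) :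
    S * evm (k + 1) Q E = T * evm (k + 1) P E := by
  obtain ⟨v, hv⟩ : ∃ v : Fin 2 → L, CG.om E v ≠ 0 := by
    by_cases h0 : E 0 = 0
    · refine ⟨![1, 0], ?_⟩
      intro h1
      apply hE
      have h2 : E 1 = 0 := by
        simpa [CG.om] using h1
      ext i
      fin_cases i
      · exact h0
      · exact h2
    · refine ⟨![0, 1], ?_⟩
      intro h1
      apply h0
      simpa [CG.om] using h1
  set A : Matrix (Fin 2) (Fin 2) L := !![E 0, v 0; E 1, v 1] with hA
  set P' := (sb (k + 1) A).mulVec P with hP'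
  set Q' := (sb (k + 1) A).mulVec Q with hQ'
  have hA1 : ∀ x : L, A.mulVec ![x, 1] = x • E + v := by
    intro x
    ext i
    rw [Bbv_mv]
    fin_cases i <;> simp [hA] <;> ring
  have hA0 : A.mulVec ![1, 0] = E := by
    ext i
    rw [Bbv_mv]
    fin_cases i <;> simp [hA]
  have hv1 : ∀ (R : Fin (k + 2) → L) (U x : L), evm (k + 1) ((sm (k + 1) (tv E U)).mulVec R)
      (x • E + v) = evm (k + 1) ((sb (k + 1) A).mulVec R) ![x + -(CG.om E v * U), 1] := by
    intro R U x
    rw [evm_sm, evm_sb, hA1, Bbv_inv, (p_Vtv L E 0 (-U)).1]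
    congr 1
    have h1 : CG.om E (x • E + v) = CG.om E v := by
      simp only [CG.om, Pi.add_apply, Pi.smul_apply, smul_eq_mul]
      ring
    rw [h1]
    ext i
    simp only [Pi.add_apply, Pi.smul_apply, smul_eq_mul]
    ring
  have hx : ∀ x : L, evm (k + 1) P' ![x + 0, 1] + evm (k + 1) Q' ![x + -(CG.om E v * S), 1] =
      evm (k + 1) Q' ![x + 0, 1] + evm (k + 1) P' ![x + -(CG.om E v * T), 1] := by
    intro x
    have h1 := congrArg (fun R => evm (k + 1) R (x • E + v)) h
    simp only [evm_add] at h1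
    rw [hv1, hv1, ← hA1, ← evm_sb, ← evm_sb] at h1
    rw [add_zero]
    exact h1
  have hp : (∑ i, Polynomial.C (P' i) * (Polynomial.X + Polynomial.C 0) ^ (i : ℕ)) +
      (∑ i, Polynomial.C (Q' i) * (Polynomial.X + Polynomial.C (-(CG.om E v * S))) ^ (i : ℕ)) =
      (∑ i, Polynomial.C (Q' i) * (Polynomial.X + Polynomial.C 0) ^ (i : ℕ)) +
      (∑ i, Polynomial.C (P' i) * (Polynomial.X + Polynomial.C (-(CG.om E v * T))) ^ (i : ℕ)) := by
    apply Polynomial.funext
    intro x
    rw [Polynomial.eval_add, Polynomial.eval_add, Bbv_eval, Bbv_eval, Bbv_eval, Bbv_eval]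
    exact hx x
  have hc := congrArg (fun p => Polynomial.coeff p k) hp
  simp only [Polynomial.coeff_add] at hc
  rw [Bbv_coeff, Bbv_coeff, Bbv_coeff, Bbv_coeff] at hc
  have hl : ∀ R : Fin (k + 2) → L, ((sb (k + 1) A).mulVec R) (Fin.last (k + 1)) =
      evm (k + 1) R E := by
    intro R
    refine (Bbv_last (k + 1) _).symm.trans ?_
    rw [evm_sb, hA0]
  rw [hP', hQ', hl, hl] at hc
  have h3 : ((k + 1 : L) * CG.om E v) * (S * evm (k + 1) Q E) =
      ((k + 1 : L) * CG.om E v) * (T * evm (k + 1) P E) := by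
    linear_combination -hc
  have h4 : (k + 1 : L) ≠ 0 := by
    exact_mod_cast Nat.succ_ne_zero k
  exact mul_left_cancel₀ (mul_ne_zero h4 hv) h3

variable {a b : ℤ}

private theorem Bbv_SLm {L : Type} [CommRing L] (f : Qf a b ℤ →+* L) (e : Fin 2 → Qf a b ℤ)
    (t : Qf a b ℤ) : SLm f (tv e t) = tv (fun i => f (e i)) (f t) := by
  apply Subtype.ext
  refine Matrix.ext fun i j => ?_
  show f ((!![1 - t * e 0 * e 1, t * e 0 ^ 2; -(t * e 1 ^ 2), 1 + t * e 0 * e 1] :
    Matrix (Fin 2) (Fin 2) (Qf a b ℤ)) i j) = (!![1 - f t * f (e 0) * f (e 1), f t * f (e 0) ^ 2;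
    -(f t * f (e 1) ^ 2), 1 + f t * f (e 0) * f (e 1)] : Matrix (Fin 2) (Fin 2) L) i j
  fin_cases i <;> fin_cases j <;> simp

private theorem Bbv_fmv {L : Type} [CommRing L] (f : Qf a b ℤ →+* L) (x : GQ a b)
    (e : Fin 2 → Qf a b ℤ) : (fun i => f (x.val.mulVec e i)) =
      (SLm f x).val.mulVec fun i => f (e i) := by
  ext i
  rw [Bbv_mv, Bbv_mv, map_add, map_mul, map_mul]
  rfl

private theorem Bbv_two {L : Type} [CommRing L] [IsDomain L] [CharZero L] (m : ℕ) (hm : 1 ≤ m)
    (f : Qf a b ℤ →+* L) (hf : Function.Injective f) (W : Subgroup (GQ a b))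
    (z : GQ a b → Fin (m + 1) → L) (hz : CH (tV m f) W z) (e : Fin 2 → Qf a b ℤ)
    (s t : Qf a b ℤ) (hs : tv e s ∈ W) (ht : tv e t ∈ W) :
    f s * evm m (z (tv e t)) (fun i => f (e i)) = f t * evm m (z (tv e s)) (fun i => f (e i)) := by
  obtain ⟨k, rfl⟩ : ∃ k, m = k + 1 := ⟨m - 1, by omega⟩
  by_cases he : e = 0
  · have h0 : (fun i => f (e i)) = (0 : L) • (fun i : Fin 2 => f (e i)) := by
      rw [he]
      ext i
      simp
    rw [h0, evm_smul, evm_smul, zero_pow (Nat.succ_ne_zero k)]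
    ring
  · have hE : (fun i => f (e i)) ≠ 0 := by
      intro h
      apply he
      ext1 i
      have h1 := congrFun h i
      exact hf (by rw [Pi.zero_apply, map_zero]; exact h1)
    have h1 := hz _ hs _ ht
    have h2 := hz _ ht _ hs
    have h3 : tv e s * tv e t = tv e t * tv e s := by
      rw [← (p_Vtv _ e s t).2.1, ← (p_Vtv _ e t s).2.1, add_comm]
    rw [h3, h2] at h1
    have h4 : ∀ u, tV (k + 1) f (tv e u) = sm (k + 1) (tv (fun i => f (e i)) (f u)) := by
      intro u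
      show sm (k + 1) (SLm f (tv e u)) = _
      rw [Bbv_SLm]
    rw [h4, h4] at h1
    exact Bbv_core k _ hE (f s) (f t) (z (tv e s)) (z (tv e t)) h1.symm

theorem p_Bbv : B_bv := by
  intro a b _ m hm L _ _ _ f hf
  have key := fun W z hz e s t hs ht => Bbv_two m hm f hf W z hz e s t hs ht
  have hNW : ∀ (W : Subgroup (GQ a b)) (N : ℕ), Lv W N → ∀ e : Fin 2 → Qf a b ℤ,
      tv e (N : Qf a b ℤ) ∈ W := by
    intro W N hN e
    have h := hN.2 e 1
    rwa [mul_one] at h
  have hall : ∀ (W : Subgroup (GQ a b)) (N : ℕ), Lv W N → ∀ z, CH (tV m f) W z →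
    ∀ (e : Fin 2 → Qf a b ℤ) (t : Qf a b ℤ), tv e t ∈ W →
    (N : L) * evm m (z (tv e t)) (fun i => f (e i)) = bv m N f z e * f t := by
    intro W N hN z hz e t ht
    have h := key W z hz e N t (hNW W N hN e) ht
    rw [map_natCast] at h
    rw [h, mul_comm]
    rfl
  have hmul : ∀ (W : Subgroup (GQ a b)) (N : ℕ), Lv W N → ∀ z, CH (tV m f) W z →
    ∀ (e : Fin 2 → Qf a b ℤ) (t : Qf a b ℤ),
    evm m (z (tv e ((N : Qf a b ℤ) * t))) (fun i => f (e i)) = bv m N f z e * f t := by
    intro W N hN z hz e t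
    have h := hall W N hN z hz e _ (hN.2 e t)
    rw [map_mul, map_natCast] at h
    have hN0 : (N : L) ≠ 0 := Nat.cast_ne_zero.2 hN.1
    exact mul_left_cancel₀ hN0 (by rw [h]; ring)
  refine ⟨hmul, hall, ?_, ?_, ?_, ?_⟩
  · intro W N hN z hz x hx e
    have hp := hNW W N hN e
    have hy := hNW W N hN (x.val.mulVec e)
    have h1 : x * tv e (N : Qf a b ℤ) * x⁻¹ = tv (x.val.mulVec e) (N : Qf a b ℤ) :=
      (p_Vtv _ e 0 (N : Qf a b ℤ)).2.2.1 x
    have h2 : tv (x.val.mulVec e) (N : Qf a b ℤ) * x = x * tv e (N : Qf a b ℤ) := by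
      rw [← h1]
      group
    have h3 := hz _ hy _ hx
    have h4 := hz _ hx _ hp
    rw [h2, h4] at h3
    have h5 := congrArg (fun R => evm m R ((SLm f x).val.mulVec fun i => f (e i))) h3
    simp only [evm_add] at h5
    have h6 : evm m ((tV m f x).mulVec (z (tv e (N : Qf a b ℤ))))
        ((SLm f x).val.mulVec fun i => f (e i)) =
        evm m (z (tv e (N : Qf a b ℤ))) fun i => f (e i) := by
      show evm m ((sm m (SLm f x)).mulVec _) _ = _
      rw [evm_sm, Matrix.mulVec_mulVec, ← Matrix.SpecialLinearGroup.coe_mul, inv_mul_cancel,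
        Matrix.SpecialLinearGroup.coe_one, Matrix.one_mulVec]
    have h7 : evm m ((tV m f (tv (x.val.mulVec e) (N : Qf a b ℤ))).mulVec (z x))
        ((SLm f x).val.mulVec fun i => f (e i)) =
        evm m (z x) ((SLm f x).val.mulVec fun i => f (e i)) := by
      show evm m ((sm m (SLm f _)).mulVec _) _ = _
      rw [evm_sm, Bbv_SLm, Bbv_fmv, Bbv_fix]
    rw [h6, h7] at h5
    unfold bv
    rw [Bbv_fmv]
    linear_combination -h5
  · intro W N hN z hz l e
    have h1 : tv (l • e) (N : Qf a b ℤ) = tv e ((N : Qf a b ℤ) * l ^ 2) := by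
      rw [(p_Vtv _ e 0 (N : Qf a b ℤ)).2.2.2.1 l, mul_comm]
    have h2 : (fun i => f ((l • e) i)) = f l • (fun i : Fin 2 => f (e i)) := by
      ext i
      simp
    show evm m (z (tv (l • e) (N : Qf a b ℤ))) (fun i => f ((l • e) i)) = _
    rw [h1, h2, evm_smul, hmul W N hN z hz e (l ^ 2), map_pow]
    ring
  · intro W N k hN z hz e
    have h1 := hmul W N hN z hz e (k : Qf a b ℤ)
    unfold bv at h1 ⊢
    rw [Nat.cast_mul, h1, map_natCast]
    ring
  · intro W N hN z hz e
    obtain ⟨v, hv⟩ := hz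
    have h1 := hv _ (hNW W N hN e)
    have h2 : z (tv e (N : Qf a b ℤ)) + v = (tV m f (tv e (N : Qf a b ℤ))).mulVec v := by
      rw [h1, sub_add_cancel]
    have h3 := congrArg (fun R => evm m R fun i => f (e i)) h2
    simp only [evm_add] at h3
    have h4 : evm m ((tV m f (tv e (N : Qf a b ℤ))).mulVec v) (fun i => f (e i)) =
        evm m v fun i => f (e i) := by
      show evm m ((sm m (SLm f _)).mulVec _) _ = _
      rw [evm_sm, Bbv_SLm, Bbv_fix]
    rw [h4] at h3
    unfold bv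
    linear_combination h3

end Pool.Agent.F8.NL
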