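import Pool.Agent.Lib.MP_305fdd_al.F8.NL.StmC
import Pool.Agent.Lib.MP_305fdd_al.F8.CG.P_Cun

/-!
# MP_305fdd_al, all lattices (project NL): `C_bor`

The closure of the group of the upper triangular matrices in the profinite completion.
-/

set_option autoImplicit false

namespace Pool.Agent.F8.NL

open Pool.Agent.F8.CG Pool.Agent.F8.BG Pool.Agent.MP_305fdd_al Pool.Agent.Lib.MP_305fdd_al
  Pool.Agent.F8
open scoped QuadraticAlgebra ComplexConjugate Kronecker

variable {a b : ℤ}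

/-- the intersection -/
private def Cbor_inf (X Y : NF a b) : NF a b where
  N := X.N ⊓ Y.N
  nor := inferInstance
  fin := inferInstance

private theorem Cbor_l (X Y : NF a b) : (Cbor_inf X Y).N ≤ X.N := inf_le_left

private theorem Cbor_r (X Y : NF a b) : (Cbor_inf X Y).N ≤ Y.N := inf_le_right

/-- the class of the left upper entry determines the unit -/
private theorem Cbor_unit (h : b ^ 2 + 4 * a < 0) {u v u' v' : Qf a b ℤ} (h1 : u * v = 1)
    (h2 : u' * v' = 1) (h3 : Qfm a b (Int.castRingHom (ZMod 3)) u' =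
      Qfm a b (Int.castRingHom (ZMod 3)) u) : u' = u ∧ v' = v := by
  have h4 : Qfm a b (Int.castRingHom (ZMod 3)) (u' * v) =
      Qfm a b (Int.castRingHom (ZMod 3)) 1 := by
    rw [map_mul, h3, ← map_mul, h1]
  obtain ⟨z, hz⟩ := Qfm_dvd h4
  have h5 : (u' * v) * (v' * u) = 1 := by linear_combination (u' * v') * h1 + h2
  have h6 : u' * v = 1 := by
    refine p_Cun a b h 3 le_rfl (u' * v) (v' * u) h5 ?_ ?_
    · rw [hz]
      refine ⟨z.re, ?_⟩
      simp
    · rw [hz]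
      refine ⟨z.im, ?_⟩
      simp
  have h7 : u' = u := by linear_combination u * h6 - u' * h1
  refine ⟨h7, ?_⟩
  rw [h7] at h2
  linear_combination v * h2 - v' * h1

private theorem Cbor_mem {g : GQ a b} (hg : g ∈ Bor a b) : g.val 0 0 * g.val 1 1 = 1 := by
  have h1 := G.SL_det g
  rw [show g.val 1 0 = 0 from hg, mul_zero, sub_zero] at h1
  exact h1

private theorem Cbor_eq {g : GQ a b} (hg : g ∈ Bor a b) {u v : Qf a b ℤ} (h : u * v = 1)
    (h0 : g.val 0 0 = u) (h1 : g.val 1 1 = v) : g = dg u v h * eU (v * g.val 0 1) := by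
  unfold dg eU
  rw [AB.mx_mul]
  apply G.SL_ext
  · show g.val 0 0 = u * 1 + 0 * 0
    rw [h0]
    ring
  · show g.val 0 1 = u * (v * g.val 0 1) + 0 * 1
    linear_combination (-g.val 0 1) * h
  · show g.val 1 0 = 0 * 1 + v * 0
    rw [show g.val 1 0 = 0 from hg]
    ring
  · show g.val 1 1 = 0 * (v * g.val 0 1) + v * 1
    rw [h1]
    ring

private theorem Cbor_ap (h : b ^ 2 + 4 * a < 0) {x : GH a b} (hx : x ∈ clH (Bor a b)) :
    ∃ (u v : Qf a b ℤ) (huv : u * v = 1), ∀ X : NF a b, ∃ t, Ap X x (dg u v huv * eU t) := by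
  obtain ⟨g₀, hg₀, hA₀⟩ := hx (NFG a b 3)
  refine ⟨g₀.val 0 0, g₀.val 1 1, Cbor_mem hg₀, fun X => ?_⟩
  obtain ⟨g, hg, hA⟩ := hx (Cbor_inf X (NFG a b 3))
  have h1 := pm_ap 3 hA₀
  have h2 := pm_ap 3 (Ap_le (Cbor_r X (NFG a b 3)) hA)
  have h3 : Qfm a b (Int.castRingHom (ZMod 3)) (g.val 0 0) =
      Qfm a b (Int.castRingHom (ZMod 3)) (g₀.val 0 0) := by
    have h4 : rdq a b ((3 : ℕ+) : ℕ) g = rdq a b ((3 : ℕ+) : ℕ) g₀ := by rw [← h2, h1]
    exact congrFun (congrFun (congrArg Subtype.val h4) 0) 0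
  obtain ⟨h4, h5⟩ := Cbor_unit h (Cbor_mem hg₀) (Cbor_mem hg) h3
  refine ⟨g₀.val 1 1 * g.val 0 1, ?_⟩
  rw [← Cbor_eq hg (Cbor_mem hg₀) h4 h5]
  exact Ap_le (Cbor_l X (NFG a b 3)) hA

private theorem Cbor_uni {x : GH a b} (hx : ∀ X : NF a b, ∃ t, Ap X x (eU t)) :
    x = uH ((piH a b x).val 0 1) := by
  apply GH_ext
  intro X
  obtain ⟨t, ht⟩ := hx (Cbor_inf X (NFG a b (lvN X)))
  have h1 := pm_ap (lvN X) (Ap_le (Cbor_r X (NFG a b (lvN X))) ht)
  have h2 : rH a b (lvN X) ((piH a b x).val 0 1) =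
      Qfm a b (Int.castRingHom (ZMod (lvN X))) t := by
    have h3 : (SLm (rH a b (lvN X)) (piH a b x)).val 0 1 =
        (rdq a b (lvN X) (eU t)).val 0 1 := by
      rw [piH_pm, h1]
    exact h3
  have h3 : pr X x = _ := Ap_le (Cbor_l X (NFG a b (lvN X))) ht
  have h4 : pr X (uH ((piH a b x).val 0 1)) = _ := uH_ap X (lvN X) _ t (lvN_mem X) h2
  rw [h3, h4]

private theorem Cbor_dg {u v : Qf a b ℤ} (h : u * v = 1) : dg u v h ∈ Bor a b := rfl

private theorem Cbor_eU (t : Qf a b ℤ) : (eU t : GQ a b) ∈ Bor a b := rfl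

/-- [NL C bor] -/
theorem p_Cbor (hu : C_u) : C_bor := by
  intro a b h x
  have _ := hu
  constructor
  · intro hx
    obtain ⟨u, v, huv, hA⟩ := Cbor_ap h hx
    refine ⟨u, v, huv, (piH a b ((iH a b (dg u v huv))⁻¹ * x)).val 0 1, ?_⟩
    rw [← Cbor_uni (x := (iH a b (dg u v huv))⁻¹ * x)]
    · rw [mul_inv_cancel_left]
    · intro X
      obtain ⟨t, ht⟩ := hA X
      refine ⟨t, ?_⟩
      show pr X ((iH a b (dg u v huv))⁻¹ * x) = _
      rw [map_mul, map_inv, pr_iH, show pr X x = _ from ht, map_mul, inv_mul_cancel_left]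
  · rintro ⟨u, v, huv, s, rfl⟩
    refine mul_mem (fun X => ⟨dg u v huv, Cbor_dg huv, rfl⟩) fun X => ?_
    exact ⟨eU (lfH (lvN X) s), Cbor_eU _,
      uH_ap X (lvN X) s (lfH (lvN X) s) (lvN_mem X) (lfH_rH _ _).symm⟩

end Pool.Agent.F8.NL
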