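import Pool.Agent.Lib.MP_305fdd_al.F8.NL.StmC

/-!
# MP_305fdd_al, all lattices (project NL): closures
-/

set_option autoImplicit false

namespace Pool.Agent.F8.NL

open Pool.Agent.F8.CG Pool.Agent.F8.BG Pool.Agent.MP_305fdd_al Pool.Agent.Lib.MP_305fdd_al
  Pool.Agent.F8
open scoped QuadraticAlgebra ComplexConjugate Kronecker

noncomputable section

private theorem Ccl_mem {a b : ℤ} {W : Subgroup (GQ a b)} {X : NF a b} (hX : X.N ≤ W)
    {x : GH a b} {g g' : GQ a b} (h : Ap X x g) (h' : Ap X x g') (hg : g' ∈ W) : g ∈ W := by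
  have h1 : QuotientGroup.mk' X.N g' = QuotientGroup.mk' X.N g := by
    rw [← show pr X x = QuotientGroup.mk' X.N g' from h', show pr X x = _ from h]
  have h2 : g'⁻¹ * g ∈ X.N := QuotientGroup.eq.1 h1
  have h3 := mul_mem hg (hX h2)
  rwa [mul_inv_cancel_left] at h3

private theorem Ccl_ap {a b : ℤ} {W : Subgroup (GQ a b)} {X : NF a b} (hX : X.N ≤ W)
    {x : GH a b} {g : GQ a b} (h : Ap X x g) : x ∈ clH W ↔ g ∈ W := by
  constructor
  · intro hx
    obtain ⟨g', hg', h'⟩ := hx X
    exact Ccl_mem hX h h' hg'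
  · intro hg Y
    let Z : NF a b := ⟨X.N ⊓ Y.N, inferInstance, inferInstance⟩
    obtain ⟨g', hg'⟩ := Ap_ex Z x
    have hZX : Z.N ≤ X.N := inf_le_left (a := X.N) (b := Y.N)
    have hZY : Z.N ≤ Y.N := inf_le_right (a := X.N) (b := Y.N)
    exact ⟨g', Ccl_mem hX (Ap_le hZX hg') h hg, Ap_le hZY hg'⟩

theorem p_Ccl : C_cl := by
  intro a b W hW
  have hX : ∃ X : NF a b, X.N ≤ W := by
    refine ⟨⟨W.normalCore, inferInstance, inferInstance⟩, ?_⟩
    exact Subgroup.normalCore_le W
  refine ⟨hX, fun g => ?_, fun X x g h hx => Ccl_ap h hx, ?_⟩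
  · obtain ⟨X, hX⟩ := hX
    exact Ccl_ap hX (show Ap X (iH a b g) g from rfl)
  · intro D h hD
    obtain ⟨X, hX⟩ := hX
    have h1 : ((pr X).comp h).ker ≤ (clH W).comap h := by
      intro d hd
      show h d ∈ clH W
      have h2 : Ap X (h d) 1 := by
        show pr X (h d) = QuotientGroup.mk' X.N 1
        rw [map_one]
        exact hd
      exact (Ccl_ap hX h2).2 (one_mem W)
    have h3 : ((pr X).comp h).ker.FiniteIndex := by
      have : Finite (GQ a b ⧸ X.N) := inferInstance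
      exact Subgroup.finiteIndex_ker _
    have h4 : ((clH W).comap h).FiniteIndex := Subgroup.finiteIndex_of_le h1
    refine ⟨?_⟩
    rw [Subgroup.index_map_subtype]
    exact mul_ne_zero h4.index_ne_zero hD.index_ne_zero

end

end Pool.Agent.F8.NL
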