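import Pool.Agent.Lib.MP_305fdd_al.F8.NL.StmC
import Mathlib.CategoryTheory.CofilteredSystem

/-!
# MP_305fdd_al, all lattices (project NL): compactness of the profinite completion
-/

set_option autoImplicit false

namespace Pool.Agent.F8.NL

open Pool.Agent.F8.CG Pool.Agent.F8.BG Pool.Agent.MP_305fdd_al Pool.Agent.Lib.MP_305fdd_al
  Pool.Agent.F8
open scoped QuadraticAlgebra ComplexConjugate Kronecker

noncomputable section

open CategoryTheory in
theorem p_Ccpt : C_cpt := by
  intro a b S hne hS
  let P : Preorder (NF a b) :=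
    { le := fun X Y => Y.N ≤ X.N
      le_refl := fun X => le_refl X.N
      le_trans := fun X Y Z h h' => le_trans (α := Subgroup (GQ a b)) h' h }
  have hdir : IsDirectedOrder (NF a b) := ⟨fun X Y =>
    ⟨⟨X.N ⊓ Y.N, inferInstance, inferInstance⟩, inf_le_left (a := X.N) (b := Y.N),
      inf_le_right (a := X.N) (b := Y.N)⟩⟩
  let F : (NF a b)ᵒᵖ ⥤ Type :=
    { obj := fun X => {x : GQ a b ⧸ X.unop.N // x ∈ S X.unop}
      map := fun {X Y} f => ↾(fun x => ⟨QuotientGroup.map X.unop.N Y.unop.N (MonoidHom.id _)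
        (CategoryTheory.leOfHom f.unop) x.1, hS _ _ _ _ x.2⟩)
      map_id := by
        intro X
        ext x
        obtain ⟨x, hx⟩ := x
        induction x using QuotientGroup.induction_on with
        | H z => rfl
      map_comp := by
        intro X Y Z f g
        ext x
        obtain ⟨x, hx⟩ := x
        induction x using QuotientGroup.induction_on with
        | H z => rfl }
  have hfin : ∀ X : (NF a b)ᵒᵖ, Finite (F.obj X) := fun X => by
    show Finite {x : GQ a b ⧸ X.unop.N // x ∈ S X.unop}
    infer_instance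
  have hnon : ∀ X : (NF a b)ᵒᵖ, Nonempty (F.obj X) := fun X => by
    obtain ⟨x, hx⟩ := hne X.unop
    exact ⟨⟨x, hx⟩⟩
  obtain ⟨u, hu⟩ := nonempty_sections_of_finite_inverse_system F
  refine ⟨⟨fun X => (u (Opposite.op X)).1, ?_⟩, fun X => (u (Opposite.op X)).2⟩
  intro X Y h
  have h1 : @LE.le (NF a b) P.toLE Y X := h
  have h2 := hu (CategoryTheory.homOfLE h1).op
  exact congrArg Subtype.val h2

end

end Pool.Agent.F8.NL
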