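import Pool.Agent.Lib.MP_305fdd_al.F8.NL.StmC

/-!
# MP_305fdd_al, all lattices (project NL): the extension of a crossed homomorphism to the closure
-/

set_option autoImplicit false

namespace Pool.Agent.F8.NL

open Pool.Agent.F8.CG Pool.Agent.F8.BG Pool.Agent.MP_305fdd_al Pool.Agent.Lib.MP_305fdd_al
  Pool.Agent.F8
open scoped QuadraticAlgebra ComplexConjugate Kronecker

noncomputable section

variable {a b : ℤ}

private theorem Cext_ap {X : NF a b} {x : GH a b} {g g' : GQ a b} (h : Ap X x g)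
    (h' : Ap X x g') : ∃ n ∈ X.N, g' = g * n := by
  refine ⟨g⁻¹ * g', ?_, by group⟩
  have h1 : QuotientGroup.mk' X.N g = QuotientGroup.mk' X.N g' := h.symm.trans h'
  exact QuotientGroup.eq.1 h1

/-- the intersection -/
private def Cext_inf (X Y : NF a b) : NF a b := ⟨X.N ⊓ Y.N, inferInstance, inferInstance⟩

private theorem Cext_mul {X : NF a b} {x y : GH a b} {g h : GQ a b} (hx : Ap X x g)
    (hy : Ap X y h) : Ap X (x * y) (g * h) := by
  show pr X (x * y) = _
  rw [map_mul, map_mul, show pr X x = _ from hx, show pr X y = _ from hy]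

private theorem Cext_natne (M : ℕ+) : ((M : ℕ) : Qf a b ℤ) ≠ 0 := by
  intro h
  have h1 := congrArg QuadraticAlgebra.re h
  have h2 : (((M : ℕ) : Qf a b ℤ)).re = ((M : ℕ) : ℤ) := QuadraticAlgebra.re_natCast _
  rw [h2, QuadraticAlgebra.re_zero] at h1
  exact M.ne_zero (by exact_mod_cast h1)

private theorem Cext_dvd {M : ℕ+} {x y : Qf a b ℤ} (h : ((M : ℕ) : Qf a b ℤ) ∣ x - y) :
    Qfm a b (Int.castRingHom (ZMod M)) x = Qfm a b (Int.castRingHom (ZMod M)) y := by
  obtain ⟨t, ht⟩ := h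
  have h1 : x = y + ((M : ℕ) : Qf a b ℤ) * t := by rw [← ht]; ring
  have h2 : Qfm a b (Int.castRingHom (ZMod M)) ((M : ℕ) : Qf a b ℤ) = 0 := by
    rw [map_natCast]
    apply QuadraticAlgebra.ext
    · rw [QuadraticAlgebra.re_natCast, QuadraticAlgebra.re_zero]
      exact ZMod.natCast_self _
    · rw [QuadraticAlgebra.im_natCast, QuadraticAlgebra.im_zero]
  rw [h1, map_add, map_mul, h2, zero_mul, add_zero]

/-- the extension exists -/
private theorem Cext_one (hloc : C_loc) (hcl : C_cl) (hd : b ^ 2 + 4 * a < 0)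
    (W : Subgroup (GQ a b)) (hW : W.FiniteIndex) (κ : Type) [Fintype κ] [DecidableEq κ]
    (τ : GQ a b →* Matrix κ κ (Qf a b ℤ)) (z : GQ a b → κ → Qf a b ℤ) (hz : CH τ W z) :
    ∃ Z, ExtH W z Z := by
  obtain ⟨⟨X₀, hX₀⟩, -, hmem, -⟩ := hcl a b W hW
  have hX : ∀ M : ℕ+, ∃ X : NF a b, X.N ≤ W ∧ ∀ g ∈ W, ∀ n ∈ X.N, ∀ i,
      Qfm a b (Int.castRingHom (ZMod M)) (z (g * n) i) =
        Qfm a b (Int.castRingHom (ZMod M)) (z g i) := by
    intro M
    obtain ⟨X, hX, h⟩ := hloc a b hd κ τ W hW ((M : ℕ) : Qf a b ℤ) (Cext_natne M)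
      (fun _ _ _ => 0) X₀ hX₀ (fun g _ h _ n _ n' _ i => by simp) (fun g _ i => by simp) z
      (fun g hg h hh i => by
        have h1 := hz g hg h hh
        have h2 : z (g * h) - z g - (τ g).mulVec (z h) - (fun _ => 0) = 0 := by
          rw [h1]
          funext i
          simp
        rw [h2]
        exact dvd_zero _)
    exact ⟨X, hX.trans hX₀, fun g hg n hn i => Cext_dvd (h g hg n hn i)⟩
  choose X hXW hXz using hX
  have key : ∀ (M : ℕ+) (x : GH a b), x ∈ clH W → ∀ g g', Ap (X M) x g → Ap (X M) x g' → ∀ i,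
      Qfm a b (Int.castRingHom (ZMod M)) (z g' i) =
        Qfm a b (Int.castRingHom (ZMod M)) (z g i) := by
    intro M x hx g g' hg hg' i
    obtain ⟨n, hn, rfl⟩ := Cext_ap hg hg'
    exact hXz M g ((hmem (X M) x g (hXW M) hg).1 hx) n hn i
  have hZ : ∀ x : GH a b, ∃ Zx : κ → OH a b, x ∈ clH W → ∀ (M : ℕ+) (g : GQ a b), Ap (X M) x g →
      ∀ i, rH a b M (Zx i) = Qfm a b (Int.castRingHom (ZMod M)) (z g i) := by
    intro x
    by_cases hx : x ∈ clH W
    · have hex : ∀ M : ℕ+, ∃ g, Ap (X M) x g := fun M => Ap_ex (X M) x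
      choose g hg using hex
      have hcomp : ∀ (i : κ) (m n : ℕ+) (h : (m : ℕ) ∣ n),
          Qfm a b (ZMod.castHom h (ZMod m)) (Qfm a b (Int.castRingHom (ZMod n)) (z (g n) i)) =
            Qfm a b (Int.castRingHom (ZMod m)) (z (g m) i) := by
        intro i m n h
        obtain ⟨g', hg'⟩ := Ap_ex (Cext_inf (X n) (X m)) x
        have h1 : Ap (X n) x g' := Ap_le (show (Cext_inf (X n) (X m)).N ≤ (X n).N from
          inf_le_left) hg'
        have h2 : Ap (X m) x g' := Ap_le (show (Cext_inf (X n) (X m)).N ≤ (X m).N from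
          inf_le_right) hg'
        rw [key n x hx g' (g n) h1 (hg n) i, Qfm_cast h, key m x hx (g m) g' (hg m) h2 i]
      refine ⟨fun i => ⟨⟨fun m => (Qfm a b (Int.castRingHom (ZMod m)) (z (g m) i)).re,
        fun m n h => congrArg QuadraticAlgebra.re (hcomp i m n h)⟩,
        ⟨fun m => (Qfm a b (Int.castRingHom (ZMod m)) (z (g m) i)).im,
        fun m n h => congrArg QuadraticAlgebra.im (hcomp i m n h)⟩⟩, ?_⟩
      intro _ M g' hg' i
      rw [key M x hx (g M) g' (hg M) hg' i]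
      rfl
    · exact ⟨0, fun h => absurd h hx⟩
  choose Z hZ using hZ
  exact ⟨Z, fun M => ⟨X M, hXW M, fun x hx g hg i => hZ x hx M g hg i⟩⟩

/-- the extension is a crossed homomorphism -/
private theorem Cext_two (hcl : C_cl) (W : Subgroup (GQ a b)) (hW : W.FiniteIndex)
    (κ : Type) [Fintype κ] [DecidableEq κ] (τ : GQ a b →* Matrix κ κ (Qf a b ℤ))
    (T : GH a b →* Matrix κ κ (OH a b))
    (hT : ∀ (M : ℕ+) (x : GH a b) (g : GQ a b), Ap (NFG a b M) x g →
      (T x).map (rH a b M) = (τ g).map (Qfm a b (Int.castRingHom (ZMod M))))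
    (z : GQ a b → κ → Qf a b ℤ) (hz : CH τ W z) (Z : GH a b → κ → OH a b) (hZ : ExtH W z Z) :
    CH T (clH W) Z := by
  obtain ⟨-, -, hmem, -⟩ := hcl a b W hW
  intro x hx y hy
  funext i
  apply OH_ext
  intro M
  obtain ⟨X, hXW, hX⟩ := hZ M
  obtain ⟨g, hg⟩ := Ap_ex (Cext_inf X (NFG a b M)) x
  obtain ⟨h, hh⟩ := Ap_ex (Cext_inf X (NFG a b M)) y
  have l1 : (Cext_inf X (NFG a b M)).N ≤ X.N := inf_le_left
  have l2 : (Cext_inf X (NFG a b M)).N ≤ (NFG a b M).N := inf_le_right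
  have hg1 := Ap_le l1 hg
  have hh1 := Ap_le l1 hh
  have hgW : g ∈ W := (hmem X x g hXW hg1).1 hx
  have hhW : h ∈ W := (hmem X y h hXW hh1).1 hy
  have h3 := hT M x g (Ap_le l2 hg)
  have h4 : ∀ j, rH a b M (T x i j) = Qfm a b (Int.castRingHom (ZMod M)) (τ g i j) := fun j =>
    congrFun (congrFun h3 i) j
  rw [hX (x * y) (mul_mem hx hy) (g * h) (Cext_mul hg1 hh1) i, hz g hgW h hhW, Pi.add_apply,
    Pi.add_apply, map_add, map_add, hX x hx g hg1 i]
  congr 1
  show Qfm a b (Int.castRingHom (ZMod M)) (∑ j, τ g i j * z h j) =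
    rH a b M (∑ j, T x i j * Z y j)
  rw [map_sum, map_sum]
  refine Finset.sum_congr rfl fun j _ => ?_
  rw [map_mul, map_mul, h4 j, hX y hy h hh1 j]

private theorem Cext_sm {R S : Type} [CommRing R] [CommRing S] (f : R →+* S) (m : ℕ) (g : SL2 R) :
    (sm m g).map f = sm m (SLm f g) := by
  rw [sm_apply, sm_apply, ← map_inv, ← sb_map]
  rfl

private theorem Cext_cj {R S : Type} [CommRing R] [CommRing S] (f : R →+* S) (x : Qf a b R) :
    Qfm a b f (cjq a b R x) = cjq a b S (Qfm a b f x) := by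
  apply QuadraticAlgebra.ext
  · show f (x.re + b * x.im) = f x.re + b * f x.im
    rw [map_add, map_mul, map_intCast]
  · show f (-x.im) = -f x.im
    rw [map_neg]

private theorem Cext_SLcj {R S : Type} [CommRing R] [CommRing S] (f : R →+* S)
    (g : SL2 (Qf a b R)) :
    SLm (Qfm a b f) (SLm (cjq a b R) g) = SLm (cjq a b S) (SLm (Qfm a b f) g) := by
  apply Subtype.ext
  refine Matrix.ext fun i j => ?_
  exact Cext_cj f (g.val i j)

/-- the extension of a crossed homomorphism to the closure -/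
theorem p_Cext (hloc : C_loc) (hcl : C_cl) : C_ext := by
  intro a b hd W hW
  refine ⟨fun κ _ _ τ z hz => Cext_one hloc hcl hd W hW κ τ z hz, ?_, ?_, ?_⟩
  · intro m z hz Z hZ
    refine Cext_two hcl W hW _ (tV m (RingHom.id (Qf a b ℤ))) (tH a b m) ?_ z hz Z hZ
    intro M x g hg
    show (sm m (piH a b x)).map (rH a b M) = (sm m (SLm (RingHom.id (Qf a b ℤ)) g)).map _
    rw [Cext_sm, Cext_sm, piH_pm, pm_ap M hg]
    congr 1
  · intro m z hz Z hZ
    refine Cext_two hcl W hW _ (tV m (cjq a b ℤ)) (tHc a b m) ?_ z hz Z hZ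
    intro M x g hg
    show (sm m (SLm (cjq a b Zh) (piH a b x))).map (rH a b M) = (sm m (SLm (cjq a b ℤ) g)).map _
    rw [Cext_sm, Cext_sm, Cext_SLcj, show SLm (rH a b M) (SLm (cjq a b Zh) (piH a b x)) =
      SLm (cjq a b (ZMod M)) (SLm (rH a b M) (piH a b x)) from Cext_SLcj _ _, piH_pm, pm_ap M hg]
    rfl
  · intro κ z Z hZ g hg i
    obtain ⟨-, hm, -, -⟩ := hcl a b W hW
    apply OH_ext
    intro M
    obtain ⟨X, hXW, hX⟩ := hZ M
    rw [hX (iH a b g) ((hm g).2 hg) g rfl i, rH_jH]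

end

end Pool.Agent.F8.NL
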