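import Pool.Agent.Lib.MP_305fdd_al.F8.NL.StmC

/-! # NL C gl: the matrix `C` -/

set_option autoImplicit false

namespace Pool.Agent.F8.NL

open Pool.Agent.F8.CG Pool.Agent.F8.BG Pool.Agent.MP_305fdd_al Pool.Agent.Lib.MP_305fdd_al
  Pool.Agent.F8
open scoped QuadraticAlgebra ComplexConjugate Kronecker

noncomputable section

private lemma Cgl_fin {F : Type} [Finite F] (f : ℕ → F) :
    ∃ y, ∀ᶠ n in (Filter.hyperfilter ℕ : Filter ℕ), f n = y := by
  by_contra hc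
  push Not at hc
  have h1 : ∀ y, ∀ᶠ n in (Filter.hyperfilter ℕ : Filter ℕ), ¬ f n = y := hc
  have h2 : ∀ᶠ n in (Filter.hyperfilter ℕ : Filter ℕ), ∀ y, ¬ f n = y :=
    Filter.eventually_all.2 h1
  obtain ⟨n, hn⟩ := h2.exists
  exact hn (f n) rfl

/-- `n!` -/
private def Cgl_fa (n : ℕ) : ℕ+ := ⟨n.factorial, Nat.factorial_pos n⟩

private lemma Cgl_dvd (m : ℕ+) :
    ∀ᶠ n in (Filter.hyperfilter ℕ : Filter ℕ), (m : ℕ) ∣ (Cgl_fa n : ℕ) := by
  have h : ∀ᶠ n in (Filter.atTop : Filter ℕ), (m : ℕ) ∣ (Cgl_fa n : ℕ) := by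
    filter_upwards [Filter.eventually_ge_atTop (m : ℕ)] with n hn
    exact Nat.dvd_factorial m.pos hn
  have h1 : (Filter.hyperfilter ℕ : Filter ℕ) ≤ Filter.atTop := by
    rw [← Nat.cofinite_eq_atTop]
    exact Filter.hyperfilter_le_cofinite
  exact h1 h

variable {a b : ℤ}

private lemma Cgl_ext {M N : Matrix (Fin 2) (Fin 2) (OH a b)}
    (h : ∀ m : ℕ+, M.map (rH a b m) = N.map (rH a b m)) : M = N := by
  refine Matrix.ext fun i j => OH_ext fun m => ?_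
  exact congrFun (congrFun (h m) i) j

/-- the pair of matrices -/
private abbrev Cgl_T (a b : ℤ) (m : ℕ+) : Type :=
  Matrix (Fin 2) (Fin 2) (Qf a b (ZMod m)) × Matrix (Fin 2) (Fin 2) (Qf a b (ZMod m))

/-- the reduction -/
private def Cgl_r {m n : ℕ+} (h : (m : ℕ) ∣ n) (p : Cgl_T a b n) : Cgl_T a b m :=
  (p.1.map (Qfm a b (ZMod.castHom h (ZMod m))), p.2.map (Qfm a b (ZMod.castHom h (ZMod m))))

private lemma Cgl_rr {m n k : ℕ+} (h : (m : ℕ) ∣ n) (h' : (n : ℕ) ∣ k) (h'' : (m : ℕ) ∣ k)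
    (p : Cgl_T a b k) : Cgl_r h (Cgl_r h' p) = Cgl_r h'' p := by
  have h1 : (ZMod.castHom h (ZMod m)).comp (ZMod.castHom h' (ZMod n)) =
      ZMod.castHom h'' (ZMod m) := Subsingleton.elim _ _
  have h2 : ∀ z : Qf a b (ZMod k), Qfm a b (ZMod.castHom h (ZMod m))
      (Qfm a b (ZMod.castHom h' (ZMod n)) z) = Qfm a b (ZMod.castHom h'' (ZMod m)) z := by
    intro z
    apply QuadraticAlgebra.ext
    · exact congrArg (fun f => f z.re) h1
    · exact congrArg (fun f => f z.im) h1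
  apply Prod.ext
  · exact Matrix.ext fun i j => h2 (p.1 i j)
  · exact Matrix.ext fun i j => h2 (p.2 i j)

/-- the property of the pairs -/
private def Cgl_G {D : Subgroup (GQ a b)} (h : D →* GH a b) (m : ℕ+) (p : Cgl_T a b m) : Prop :=
  p.1 * p.2 = 1 ∧ p.2 * p.1 = 1 ∧ ∀ x : D, (pm m (h x)).val = p.1 * (rdq a b m x).val * p.2

private lemma Cgl_Gr {D : Subgroup (GQ a b)} (h : D →* GH a b) {m n : ℕ+} (hm : (m : ℕ) ∣ n)
    (p : Cgl_T a b n) (hp : Cgl_G h n p) : Cgl_G h m (Cgl_r hm p) := by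
  obtain ⟨h1, h2, h3⟩ := hp
  refine ⟨?_, ?_, fun x => ?_⟩
  · show p.1.map _ * p.2.map _ = 1
    rw [← Matrix.map_mul, h1]
    exact Matrix.map_one _ (map_zero _) (map_one _)
  · show p.2.map _ * p.1.map _ = 1
    rw [← Matrix.map_mul, h2]
    exact Matrix.map_one _ (map_zero _) (map_one _)
  · rw [← pm_map hm, ← rdq_map hm]
    show (pm n (h x)).val.map _ = p.1.map _ * (rdq a b n x).val.map _ * p.2.map _
    rw [← Matrix.map_mul, ← Matrix.map_mul, h3]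

theorem p_Cgl : C_gl := by
  classical
  intro a b D h hyp
  have hyp' : ∀ m : ℕ+, ∃ p : Cgl_T a b m, Cgl_G h m p := fun m => by
    obtain ⟨C, E, h1⟩ := hyp m
    exact ⟨(C, E), h1⟩
  choose p hp using hyp'
  let q : ∀ (m : ℕ+) (_ : ℕ), Cgl_T a b m := fun m n =>
    if hd : (m : ℕ) ∣ (Cgl_fa n : ℕ) then Cgl_r hd (p (Cgl_fa n)) else 0
  have hq : ∀ (m : ℕ+) (n : ℕ) (hd : (m : ℕ) ∣ (Cgl_fa n : ℕ)),
      q m n = Cgl_r hd (p (Cgl_fa n)) := fun m n hd => dif_pos hd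
  have hy' : ∀ m : ℕ+, ∃ y, ∀ᶠ n in (Filter.hyperfilter ℕ : Filter ℕ), q m n = y := fun m => by
    have : Finite (Qf a b (ZMod m)) := inferInstance
    exact Cgl_fin (q m)
  choose y hy using hy'
  have hG : ∀ m : ℕ+, Cgl_G h m (y m) := by
    intro m
    obtain ⟨n, h1, h2⟩ := ((hy m).and (Cgl_dvd m)).exists
    rw [← h1, hq m n h2]
    exact Cgl_Gr h h2 _ (hp _)
  have hc : ∀ (m n : ℕ+) (hd : (m : ℕ) ∣ n), Cgl_r hd (y n) = y m := by
    intro m n hd
    obtain ⟨k, h1, h2, h3⟩ := ((hy m).and ((hy n).and (Cgl_dvd n))).exists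
    rw [← h1, ← h2, hq n k h3, hq m k (hd.trans h3), Cgl_rr]
  let C : Matrix (Fin 2) (Fin 2) (OH a b) := fun i j =>
    ⟨⟨fun m => ((y m).1 i j).re, fun m n hd => by
      show ZMod.castHom hd (ZMod m) ((y n).1 i j).re = ((y m).1 i j).re
      rw [← hc m n hd]
      rfl⟩, ⟨fun m => ((y m).1 i j).im, fun m n hd => by
      show ZMod.castHom hd (ZMod m) ((y n).1 i j).im = ((y m).1 i j).im
      rw [← hc m n hd]
      rfl⟩⟩
  let E : Matrix (Fin 2) (Fin 2) (OH a b) := fun i j =>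
    ⟨⟨fun m => ((y m).2 i j).re, fun m n hd => by
      show ZMod.castHom hd (ZMod m) ((y n).2 i j).re = ((y m).2 i j).re
      rw [← hc m n hd]
      rfl⟩, ⟨fun m => ((y m).2 i j).im, fun m n hd => by
      show ZMod.castHom hd (ZMod m) ((y n).2 i j).im = ((y m).2 i j).im
      rw [← hc m n hd]
      rfl⟩⟩
  have hC : ∀ m : ℕ+, C.map (rH a b m) = (y m).1 := fun m => rfl
  have hE : ∀ m : ℕ+, E.map (rH a b m) = (y m).2 := fun m => rfl
  refine ⟨C, E, ?_, ?_, fun x => ?_⟩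
  · refine Cgl_ext fun m => ?_
    rw [Matrix.map_mul, hC, hE, (hG m).1]
    exact (Matrix.map_one _ (map_zero _) (map_one _)).symm
  · refine Cgl_ext fun m => ?_
    rw [Matrix.map_mul, hC, hE, (hG m).2.1]
    exact (Matrix.map_one _ (map_zero _) (map_one _)).symm
  · refine Cgl_ext fun m => ?_
    rw [Matrix.map_mul, Matrix.map_mul, hC, hE]
    have h1 : (SLm (jH a b) (x : GQ a b)).val.map (rH a b m) = (rdq a b m x).val :=
      Matrix.ext fun i j => rH_jH m ((x : GQ a b).val i j)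
    rw [h1]
    exact (hG m).2.2 x

end

end Pool.Agent.F8.NL
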