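import Pool.Agent.Lib.MP_305fdd_al.F8.NL.StmC

/-!
# MP_305fdd_al, all lattices (project NL): proof of `C_o` (arithmetic of `OH`)
-/

set_option autoImplicit false

namespace Pool.Agent.F8.NL

open Pool.Agent.F8.CG Pool.Agent.F8.BG Pool.Agent.MP_305fdd_al Pool.Agent.Lib.MP_305fdd_al
  Pool.Agent.F8
open scoped QuadraticAlgebra

noncomputable section

/-- the norm as a positive integer -/
private theorem Co_n {a b : ℤ} (hn : b ^ 2 + 4 * a < 0) {t : Qf a b ℤ} (ht : t ≠ 0) :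
    ∃ n : ℕ+, t * cjq a b ℤ t = ((n : ℕ) : Qf a b ℤ) := by
  have h0 : 0 ≤ nq t := nq_nonneg hn t
  have h1 : nq t ≠ 0 := fun h => ht (nq_eq_zero hn h)
  have h2 : 0 < (nq t).toNat := by omega
  refine ⟨⟨(nq t).toNat, h2⟩, ?_⟩
  have h3 : (((nq t).toNat : ℕ) : ℤ) = nq t := Int.toNat_of_nonneg h0
  rw [mul_cjq]
  apply QuadraticAlgebra.ext
  · show nq t = (((nq t).toNat : ℕ) : Qf a b ℤ).re
    rw [QuadraticAlgebra.re_natCast]
    exact h3.symm
  · show (0 : ℤ) = (((nq t).toNat : ℕ) : Qf a b ℤ).im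
    rw [QuadraticAlgebra.im_natCast]

private theorem Co_int {k : ℤ} (h : ∀ m : ℕ+, ((k : ℤ) : ZMod m) = 0) : k = 0 := by
  have h1 := h ⟨k.natAbs + 1, Nat.succ_pos _⟩
  have h2 : (((k.natAbs + 1 : ℕ) : ℤ)) ∣ k := (ZMod.intCast_zmod_eq_zero_iff_dvd _ _).1 h1
  refine Int.eq_zero_of_abs_lt_dvd h2 ?_
  rw [Int.abs_eq_natAbs]
  push_cast
  omega

private theorem Co_inj (a b : ℤ) : Function.Injective (jH a b) := by
  rw [injective_iff_map_eq_zero]
  intro t ht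
  have h : ∀ m : ℕ+, Qfm a b (Int.castRingHom (ZMod m)) t = 0 := by
    intro m
    rw [← rH_jH, ht, map_zero]
  apply QuadraticAlgebra.ext
  · exact Co_int fun m => congrArg QuadraticAlgebra.re (h m)
  · exact Co_int fun m => congrArg QuadraticAlgebra.im (h m)

/-- the classes of a product -/
private theorem Co_mul {a b : ℤ} (m : ℕ+) (q : Qf a b ℤ) (x : OH a b) :
    Qfm a b (Int.castRingHom (ZMod m)) (q * lfH m x) = rH a b m (jH a b q * x) := by
  rw [map_mul, map_mul, lfH_rH, rH_jH]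

private theorem Co_tf {a b : ℤ} (hn : b ^ 2 + 4 * a < 0) (t : Qf a b ℤ) (x : OH a b)
    (ht : t ≠ 0) (hx : jH a b t * x = 0) : x = 0 := by
  have hD : IsDomain (Qf a b ℤ) := Qf_domain hn
  obtain ⟨n, hnt⟩ := Co_n hn ht
  apply OH_ext
  intro m
  have h1 : Qfm a b (Int.castRingHom (ZMod (m * n : ℕ+))) (t * lfH (m * n) x) =
      Qfm a b (Int.castRingHom (ZMod (m * n : ℕ+))) 0 := by
    rw [Co_mul, hx, map_zero, map_zero]
  obtain ⟨z, hz⟩ := Qfm_dvd h1
  have h2 : t * (lfH (m * n) x - ((m : ℕ) : Qf a b ℤ) * (cjq a b ℤ t * z)) = 0 := by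
    have h3 : (((m * n : ℕ+) : ℕ) : Qf a b ℤ) = ((m : ℕ) : Qf a b ℤ) * (t * cjq a b ℤ t) := by
      rw [hnt, PNat.mul_coe, Nat.cast_mul]
    rw [h3] at hz
    linear_combination hz
  have h4 : lfH (m * n) x = ((m : ℕ) : Qf a b ℤ) * (cjq a b ℤ t * z) := by
    rcases mul_eq_zero.1 h2 with h5 | h5
    · exact absurd h5 ht
    · exact sub_eq_zero.1 h5
  have hd : (m : ℕ) ∣ ((m * n : ℕ+) : ℕ) := by
    rw [PNat.mul_coe]
    exact dvd_mul_right _ _
  rw [← rH_map hd x, ← lfH_rH, Qfm_cast hd, h4, map_mul, map_natCast, map_zero]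
  have h6 : (((m : ℕ) : ℕ) : Qf a b (ZMod m)) = 0 := by
    apply QuadraticAlgebra.ext
    · rw [QuadraticAlgebra.re_natCast]
      exact ZMod.natCast_self _
    · rw [QuadraticAlgebra.im_natCast]
      rfl
  rw [h6, zero_mul]

private theorem Co_div {a b : ℤ} (hn : b ^ 2 + 4 * a < 0) (p q : Qf a b ℤ) (x : OH a b)
    (hq : q ≠ 0) (hx : jH a b q * x = jH a b p) : ∃ r, p = q * r ∧ x = jH a b r := by
  obtain ⟨n, hnq⟩ := Co_n hn hq
  have h1 : Qfm a b (Int.castRingHom (ZMod n)) (q * lfH n x) =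
      Qfm a b (Int.castRingHom (ZMod n)) p := by
    rw [Co_mul, hx, rH_jH]
  obtain ⟨z, hz⟩ := Qfm_dvd h1
  rw [← hnq] at hz
  have h2 : p = q * (lfH n x - cjq a b ℤ q * z) := by
    linear_combination -hz
  refine ⟨lfH n x - cjq a b ℤ q * z, h2, ?_⟩
  refine sub_eq_zero.1 (Co_tf hn q _ hq ?_)
  rw [mul_sub, hx, ← map_mul, ← h2, sub_self]

/-- [NL C o] arithmetic of `OH`. -/
theorem p_Co : C_o := by
  intro a b hn
  have hD : IsDomain (Qf a b ℤ) := Qf_domain hn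
  refine ⟨Co_inj a b, Co_tf hn, Co_div hn, ?_, ?_⟩
  · intro t ht
    obtain ⟨x, hx⟩ := ht.exists_right_inv
    have h0 : t ≠ 0 := by
      intro h
      rw [h, map_zero, zero_mul] at hx
      have h1 : (0 : Qf a b ℤ) = 1 := Co_inj a b (by rw [map_zero, map_one, hx])
      exact zero_ne_one h1
    obtain ⟨r, hr, -⟩ := Co_div hn 1 t x h0 (by rw [hx, map_one])
    exact IsUnit.of_mul_eq_one r hr.symm
  · intro R _ e e' f h
    have h1 : e 0 * e' 1 - e 1 * e' 0 = 1 := h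
    funext i
    fin_cases i
    · show f 0 = (f 0 * e' 1 - f 1 * e' 0) * e 0 + (e 0 * f 1 - e 1 * f 0) * e' 0
      linear_combination -f 0 * h1
    · show f 1 = (f 0 * e' 1 - f 1 * e' 0) * e 1 + (e 0 * f 1 - e 1 * f 0) * e' 1
      linear_combination -f 1 * h1

end

end Pool.Agent.F8.NL
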