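import Pool.Agent.Lib.MP_305fdd_al.F8.NL.StmC

/-!
# MP_305fdd_al, all lattices (project NL): `C_u`

The homomorphism `uH` to the profinite completion.
-/

set_option autoImplicit false

namespace Pool.Agent.F8.NL

open Pool.Agent.F8.CG Pool.Agent.F8.BG Pool.Agent.MP_305fdd_al Pool.Agent.Lib.MP_305fdd_al
  Pool.Agent.F8
open scoped QuadraticAlgebra ComplexConjugate Kronecker

variable {a b : ℤ}

private theorem Cu_pr (X : NF a b) (s : OH a b) (t : Qf a b ℤ)
    (ht : rH a b (lvN X) s = Qfm a b (Int.castRingHom (ZMod (lvN X))) t) :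
    pr X (uH s) = QuotientGroup.mk' X.N (eU t) := uH_ap X (lvN X) s t (lvN_mem X) ht

private theorem Cu_add (s t : OH a b) : uH (s + t) = uH s * uH t := by
  apply GH_ext
  intro X
  rw [map_mul, Cu_pr X s (lfH (lvN X) s) (lfH_rH _ _).symm,
    Cu_pr X t (lfH (lvN X) t) (lfH_rH _ _).symm,
    Cu_pr X (s + t) (lfH (lvN X) s + lfH (lvN X) t)
      (by rw [map_add, map_add, lfH_rH, lfH_rH]), eU_add, map_mul]

private theorem Cu_jH (t : Qf a b ℤ) : uH (jH a b t) = iH a b (eU t) := by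
  apply GH_ext
  intro X
  rw [Cu_pr X _ t (rH_jH _ _), pr_iH]

private theorem Cu_zero {R : Type} [CommRing R] : (eU (0 : R) : SL2 R) = 1 := by
  rw [eU_eq_tv, tv_zero_aux]

private theorem Cu_cast (m : ℕ+) :
    Qfm a b (Int.castRingHom (ZMod m)) (((m : ℕ+) : ℕ) : Qf a b ℤ) = 0 := by
  rw [map_natCast]
  apply QuadraticAlgebra.ext
  · simp
  · simp

private theorem Cu_lv (m : ℕ+) (z : Qf a b ℤ) :
    (eU (((m : ℕ+) : ℕ) * z) : GQ a b) ∈ (NFG a b m).N := by
  show SLm (Qfm a b (Int.castRingHom (ZMod m))) (eU _) = 1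
  rw [eU_map, map_mul, Cu_cast, zero_mul, Cu_zero]

private theorem Cu_pi (s : OH a b) : piH a b (uH s) = eU s := by
  apply SL_jH_ext
  intro m
  rw [piH_pm, pm_ap m (uH_ap (NFG a b m) m s (lfH m s) (Cu_lv m) (lfH_rH _ _).symm), eU_map]
  show SLm (Qfm a b (Int.castRingHom (ZMod m))) (eU _) = _
  rw [eU_map, lfH_rH]

private theorem Cu_dg (u v t : Qf a b ℤ) (h : u * v = 1) :
    dg u v h * eU t * (dg u v h)⁻¹ = eU (u ^ 2 * t) := by
  unfold dg eU
  rw [AB.mx_inv, AB.mx_mul, AB.mx_mul]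
  apply AB.mx_congr
  · linear_combination h
  · ring
  · ring
  · linear_combination h

/-- [NL C u] -/
theorem p_Cu : C_u := by
  intro a b
  refine ⟨Cu_add, Cu_jH, Cu_pi, fun X => ⟨lvN X, fun s hs => ?_⟩, fun s hs => ?_, fun u v h s => ?_⟩
  · rw [Cu_pr X s 0 (by rw [hs, map_zero]), Cu_zero, map_one]
  · have h1 := Cu_pi s
    rw [hs, map_one] at h1
    have h2 : (1 : SL2 (OH a b)).val 0 1 = (eU s : SL2 (OH a b)).val 0 1 :=
      congrArg (fun g : SL2 (OH a b) => g.val 0 1) h1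
    exact h2.symm
  · apply GH_ext
    intro X
    rw [map_mul, map_mul, map_inv, pr_iH, Cu_pr X s (lfH (lvN X) s) (lfH_rH _ _).symm,
      Cu_pr X (jH a b u ^ 2 * s) (u ^ 2 * lfH (lvN X) s)
        (by rw [map_mul, map_pow, rH_jH, map_mul, map_pow, lfH_rH]), ← map_inv, ← map_mul,
      ← map_mul, Cu_dg]

end Pool.Agent.F8.NL
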