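import Pool.Agent.Lib.MP_305fdd_al.F8.NL.StmC
import Pool.Agent.Lib.MP_305fdd_al.F8.CG.P_CCsp
import Mathlib.NumberTheory.Padics.Hensel
import Mathlib.NumberTheory.Padics.RingHoms

/-!
# MP_305fdd_al, project NL, piece Cv: split primes
-/

set_option autoImplicit false

namespace Pool.Agent.F8.NL

open Pool.Agent.F8.CG Pool.Agent.F8.BG Pool.Agent.MP_305fdd_al Pool.Agent.Lib.MP_305fdd_al
  Pool.Agent.F8
open scoped QuadraticAlgebra

noncomputable section

/-- `q ^ k` as a positive natural number -/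
private def Cv_q (q : ℕ) [Fact q.Prime] (k : ℕ) : ℕ+ := ⟨q ^ k, pow_pos (Fact.out : q.Prime).pos k⟩

private def Cv_f (q : ℕ) [Fact q.Prime] (k : ℕ) : Zh →+* ZMod (q ^ k) := rZ (Cv_q q k)

private theorem Cv_comp (q : ℕ) [Fact q.Prime] (k1 k2 : ℕ) (hk : k1 ≤ k2) :
    (ZMod.castHom (pow_dvd_pow q hk) _).comp (Cv_f q k2) = Cv_f q k1 := by
  ext x
  exact rZ_map (m := Cv_q q k1) (n := Cv_q q k2) (pow_dvd_pow q hk) x

/-- the projection to the `q`-adic integers -/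
private def Cv_l (q : ℕ) [Fact q.Prime] : Zh →+* ℤ_[q] := PadicInt.lift (Cv_comp q)

private theorem Cv_spec (q : ℕ) [Fact q.Prime] (k : ℕ) (m : ℕ+) (hm : (m : ℕ) = q ^ k) (x : Zh)
    (h : rZ m x = 0) : (q : ℤ_[q]) ^ k ∣ Cv_l q x := by
  have h1 : m = Cv_q q k := PNat.eq hm
  subst h1
  have h2 : (PadicInt.toZModPow k) (Cv_l q x) = 0 :=
    (RingHom.congr_fun (PadicInt.lift_spec (Cv_comp q) k) x).trans h
  rwa [← RingHom.mem_ker, PadicInt.ker_toZModPow, Ideal.mem_span_singleton] at h2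

private theorem Cv_root (a b : ℤ) (q : ℕ) [Fact q.Prime] (t : ZMod q)
    (ht : t * t = (a : ZMod q) + (b : ZMod q) * t) (hd : ¬ (q : ℤ) ∣ b ^ 2 + 4 * a) :
    ∃ T : ℤ_[q], T * T = (a : ℤ_[q]) + (b : ℤ_[q]) * T := by
  have hz : ∀ x : ℤ_[q], PadicInt.toZMod x = 0 ↔ ‖x‖ < 1 := by
    intro x
    rw [← RingHom.mem_ker, PadicInt.ker_toZMod, IsLocalRing.mem_maximalIdeal, PadicInt.mem_nonunits]
  let F : Polynomial ℤ_[q] := Polynomial.X ^ 2 - Polynomial.C (b : ℤ_[q]) * Polynomial.X -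
    Polynomial.C (a : ℤ_[q])
  have hF : ∀ x : ℤ_[q], Polynomial.aeval x F = x ^ 2 - b * x - a := by
    intro x
    simp [F]
  have hF' : ∀ x : ℤ_[q], Polynomial.aeval x F.derivative = 2 * x - b := by
    intro x
    simp [F]
    exact Or.inl one_add_one_eq_two
  let x : ℤ_[q] := (t.val : ℤ_[q])
  have hx : PadicInt.toZMod x = t := by
    simp [x]
  have h1 : ‖x ^ 2 - b * x - a‖ < 1 := by
    rw [← hz]
    rw [map_sub, map_sub, map_pow, map_mul, map_intCast, map_intCast, hx]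
    linear_combination ht
  have h2 : ‖2 * x - b‖ = 1 := by
    rw [← PadicInt.isUnit_iff, ← not_not (a := IsUnit _), PadicInt.not_isUnit_iff, ← hz]
    rw [map_sub, map_mul, map_intCast, hx]
    intro h3
    apply hd
    rw [← ZMod.intCast_zmod_eq_zero_iff_dvd]
    rw [map_ofNat] at h3
    push_cast
    linear_combination (2 * t - b) * h3 - 4 * ht
  obtain ⟨T, hT, -⟩ := hensels_lemma (F := F) (a := x) (by
    rw [hF, hF', h2, one_pow]
    exact h1)
  refine ⟨T, ?_⟩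
  rw [hF] at hT
  linear_combination hT

theorem p_Cv : C_v := by
  intro a b hD hP n hn
  have ha : a ≠ 0 := by
    rintro rfl
    nlinarith [sq_nonneg b]
  have hd : (b ^ 2 + 4 * a).natAbs ≠ 0 := by
    rw [Int.natAbs_ne_zero]
    exact hD.ne
  obtain ⟨q, hq, t, hqn, ht⟩ := p_CCsp a b ha (n * (b ^ 2 + 4 * a).natAbs) (mul_ne_zero hn hd)
  have hqd : ¬ (q : ℤ) ∣ b ^ 2 + 4 * a := by
    intro h
    exact hqn (Dvd.dvd.mul_left (Int.natCast_dvd.1 h) n)
  obtain ⟨T, hT⟩ := Cv_root a b q t ht hqd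
  let v : OH a b →+* ℤ_[q] := evq a b (Cv_l q) T hT
  have hv : ∀ x : Qf a b ℤ, v (jH a b x) = (x.re : ℤ_[q]) + (x.im : ℤ_[q]) * T := by
    intro x
    show Cv_l q (Int.castRingHom Zh x.re) + Cv_l q (Int.castRingHom Zh x.im) * T = _
    rw [eq_intCast, eq_intCast, map_intCast, map_intCast]
  have hq0 : (q : Qf a b ℤ) ≠ 0 := by
    rw [Nat.cast_ne_zero]
    exact hq.out.ne_zero
  have hm : ∀ x : ℤ_[q], PadicInt.toZMod x = 0 ↔ (q : ℤ_[q]) ∣ x := by
    intro x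
    rw [← RingHom.mem_ker, PadicInt.ker_toZMod, PadicInt.maximalIdeal_eq_span_p,
      Ideal.mem_span_singleton]
  let I : Ideal (Qf a b ℤ) := RingHom.ker ((PadicInt.toZMod (p := q)).comp (v.comp (jH a b)))
  obtain ⟨π, hπ⟩ := (hP.principal I).principal
  have hI : ∀ x : Qf a b ℤ, π ∣ x ↔ (q : ℤ_[q]) ∣ v (jH a b x) := by
    intro x
    rw [← Ideal.mem_span_singleton, ← hm]
    have h1 : Ideal.span {π} = I := hπ.symm
    rw [h1]
    rfl
  refine ⟨q, hq, v, π, ⟨?_, ?_, ?_⟩, fun h => hqn (Dvd.dvd.mul_right h _), ?_, hI⟩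
  · intro k m x hmk hx
    have h1 : rZ m x.re = 0 := congrArg QuadraticAlgebra.re hx
    have h2 : rZ m x.im = 0 := congrArg QuadraticAlgebra.im hx
    show (q : ℤ_[q]) ^ k ∣ Cv_l q x.re + Cv_l q x.im * T
    exact dvd_add (Cv_spec q k m hmk _ h1) (Dvd.dvd.mul_right (Cv_spec q k m hmk _ h2) T)
  · rw [hv, hv]
    have h1 : (((wq a b ℤ).re : ℤ) : ℤ_[q]) + ((wq a b ℤ).im : ℤ) * T -
        (((cjq a b ℤ (wq a b ℤ)).re : ℤ) + ((cjq a b ℤ (wq a b ℤ)).im : ℤ) * T) =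
        2 * T - b := by
      simp [wq, cjq_apply]
      ring
    rw [h1]
    have h2 : IsUnit ((2 * T - (b : ℤ_[q])) ^ 2) := by
      have h3 : (2 * T - (b : ℤ_[q])) ^ 2 = ((b ^ 2 + 4 * a : ℤ) : ℤ_[q]) := by
        push_cast
        linear_combination 4 * hT
      rw [h3, ← not_not (a := IsUnit _), PadicInt.not_isUnit_iff, PadicInt.norm_int_lt_one_iff_dvd]
      exact hqd
    exact (isUnit_pow_iff two_ne_zero).1 h2
  · rw [injective_iff_map_eq_zero]
    intro x hx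
    have h1 : v (jH a b (x * cjq a b ℤ x)) = 0 := by
      rw [map_mul, map_mul]
      have h2 : v (jH a b x) = 0 := hx
      rw [h2, zero_mul]
    rw [mul_cjq, hv] at h1
    have h3 : ((nq x : ℤ) : ℤ_[q]) = 0 := by
      simpa using h1
    exact nq_eq_zero hD (Int.cast_eq_zero.1 h3)
  · rintro rfl
    apply hq0
    have h1 := (hI (q : Qf a b ℤ)).2 (by
      rw [map_natCast, map_natCast])
    exact zero_dvd_iff.1 h1

end

end Pool.Agent.F8.NL
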