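import Pool.Agent.Lib.MP_305fdd_al.F8.NL.StmE

set_option autoImplicit false

namespace Pool.Agent.F8.NL

open Pool.Agent.F8.CG Pool.Agent.F8.BG Pool.Agent.MP_305fdd_al Pool.Agent.Lib.MP_305fdd_al
  Pool.Agent.F8
open scoped QuadraticAlgebra ComplexConjugate

noncomputable section

private theorem Ebd_om (e v : Fin 2 → ℂ) : ‖CG.om e v‖ ≤ 2 * ‖e‖ * ‖v‖ := by
  unfold CG.om
  have e0 := norm_le_pi_norm e 0
  have e1 := norm_le_pi_norm e 1
  have v0 := norm_le_pi_norm v 0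
  have v1 := norm_le_pi_norm v 1
  calc ‖e 0 * v 1 - e 1 * v 0‖ ≤ ‖e 0 * v 1‖ + ‖e 1 * v 0‖ := norm_sub_le _ _
    _ = ‖e 0‖ * ‖v 1‖ + ‖e 1‖ * ‖v 0‖ := by rw [norm_mul, norm_mul]
    _ ≤ ‖e‖ * ‖v‖ + ‖e‖ * ‖v‖ := add_le_add
        (mul_le_mul e0 v1 (norm_nonneg _) (norm_nonneg _))
        (mul_le_mul e1 v0 (norm_nonneg _) (norm_nonneg _))
    _ = 2 * ‖e‖ * ‖v‖ := by ring

private theorem Ebd_comb (e : Fin 2 → ℂ) (g : SL2 ℂ) :
    e = CG.om e (colG g 1) • colG g 0 - CG.om e (colG g 0) • colG g 1 := by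
  have hdet : g.val 0 0 * g.val 1 1 - g.val 0 1 * g.val 1 0 = 1 := by
    rw [← Matrix.det_fin_two]
    exact g.2
  funext i
  simp only [Pi.sub_apply, Pi.smul_apply, smul_eq_mul, CG.om, colG]
  fin_cases i
  · show e 0 = (e 0 * g.val 1 1 - e 1 * g.val 0 1) * g.val 0 0 -
      (e 0 * g.val 1 0 - e 1 * g.val 0 0) * g.val 0 1
    linear_combination (-e 0) * hdet
  · show e 1 = (e 0 * g.val 1 1 - e 1 * g.val 0 1) * g.val 1 0 -
      (e 0 * g.val 1 0 - e 1 * g.val 0 0) * g.val 1 1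
    linear_combination (-e 1) * hdet

private theorem Ebd_sE (g : SL2 ℂ) (M : ℝ) (hM : 0 < M) (h0 : ‖colG g 0‖ ≤ M)
    (h1 : ‖colG g 1‖ ≤ M) (e : Fin 2 → ℂ) (he : e ≠ 0) : ‖sE e g‖ ≤ 8 * M ^ 4 / ‖e‖ := by
  have hn : 0 < ‖e‖ := norm_pos_iff.2 he
  set p := ‖CG.om e (colG g 0)‖ with hp
  set q := ‖CG.om e (colG g 1)‖ with hq
  have hp0 : 0 ≤ p := norm_nonneg _
  have hq0 : 0 ≤ q := norm_nonneg _
  have hle : ‖e‖ ≤ M * (p + q) := by
    have h2 : ‖e‖ ≤ q * ‖colG g 0‖ + p * ‖colG g 1‖ := by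
      conv_lhs => rw [Ebd_comb e g]
      refine (norm_sub_le _ _).trans ?_
      rw [norm_smul, norm_smul]
    refine h2.trans ?_
    nlinarith [mul_le_mul_of_nonneg_left h0 hq0, mul_le_mul_of_nonneg_left h1 hp0]
  have hb : ‖e‖ ^ 2 ≤ 2 * M ^ 2 * nE e g := by
    have h3 : ‖e‖ ^ 2 ≤ (M * (p + q)) ^ 2 := pow_le_pow_left₀ (norm_nonneg _) hle 2
    refine h3.trans ?_
    unfold nE
    rw [← hp, ← hq]
    nlinarith [mul_nonneg (sq_nonneg M) (sq_nonneg (p - q))]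
  have hN : 0 < nE e g := by
    by_contra h
    have h2 : 0 < ‖e‖ ^ 2 := by positivity
    have h3 : 0 < 2 * M ^ 2 := by positivity
    nlinarith [not_lt.1 h]
  have hv : ‖conj (CG.om e (colG g 0)) • colG g 0 + conj (CG.om e (colG g 1)) • colG g 1‖ ≤
      4 * ‖e‖ * M ^ 2 := by
    refine (norm_add_le _ _).trans ?_
    rw [norm_smul, norm_smul, Complex.norm_conj, Complex.norm_conj]
    have k0 := mul_le_mul_of_nonneg_right (Ebd_om e (colG g 0)) (norm_nonneg (colG g 0))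
    have k1 := mul_le_mul_of_nonneg_right (Ebd_om e (colG g 1)) (norm_nonneg (colG g 1))
    have l0 : ‖colG g 0‖ * ‖colG g 0‖ ≤ M * M := mul_le_mul h0 h0 (norm_nonneg _) hM.le
    have l1 : ‖colG g 1‖ * ‖colG g 1‖ ≤ M * M := mul_le_mul h1 h1 (norm_nonneg _) hM.le
    calc _ ≤ 2 * ‖e‖ * ‖colG g 0‖ * ‖colG g 0‖ + 2 * ‖e‖ * ‖colG g 1‖ * ‖colG g 1‖ :=
          add_le_add k0 k1
      _ = 2 * ‖e‖ * (‖colG g 0‖ * ‖colG g 0‖ + ‖colG g 1‖ * ‖colG g 1‖) := by ring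
      _ ≤ 2 * ‖e‖ * (M * M + M * M) :=
          mul_le_mul_of_nonneg_left (add_le_add l0 l1) (by positivity)
      _ = 4 * ‖e‖ * M ^ 2 := by ring
  unfold sE
  rw [norm_smul, norm_inv, Complex.norm_real, Real.norm_of_nonneg hN.le]
  rw [inv_mul_le_iff₀ hN, mul_div_assoc', le_div_iff₀ hn]
  calc _ ≤ 4 * ‖e‖ * M ^ 2 * ‖e‖ := mul_le_mul_of_nonneg_right hv hn.le
    _ = 4 * M ^ 2 * ‖e‖ ^ 2 := by ring
    _ ≤ 4 * M ^ 2 * (2 * M ^ 2 * nE e g) := mul_le_mul_of_nonneg_left hb (by positivity)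
    _ = _ := by ring

private theorem Ebd_lin (α β : ℂ) (q : Polynomial ℂ) (B : ℝ) (hq : ∀ i, ‖q.coeff i‖ ≤ B) :
    ∀ i, ‖((Polynomial.C α * Polynomial.X + Polynomial.C β) * q).coeff i‖ ≤
      (‖α‖ + ‖β‖) * B := by
  intro i
  have h0 : ((Polynomial.C α * Polynomial.X + Polynomial.C β) * q).coeff i =
      α * (Polynomial.X * q).coeff i + β * q.coeff i := by
    rw [add_mul, Polynomial.coeff_add, mul_assoc, Polynomial.coeff_C_mul, Polynomial.coeff_C_mul]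
  have hB : 0 ≤ B := (norm_nonneg _).trans (hq 0)
  have h1 : ‖(Polynomial.X * q).coeff i‖ ≤ B := by
    cases i with
    | zero => simpa using hB
    | succ i => rw [Polynomial.coeff_X_mul]; exact hq i
  rw [h0, add_mul]
  refine (norm_add_le _ _).trans ?_
  rw [norm_mul, norm_mul]
  exact add_le_add (mul_le_mul_of_nonneg_left h1 (norm_nonneg _))
    (mul_le_mul_of_nonneg_left (hq i) (norm_nonneg _))

private theorem Ebd_pow (α β : ℂ) (q : Polynomial ℂ) (B : ℝ) (hq : ∀ i, ‖q.coeff i‖ ≤ B)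
    (j : ℕ) : ∀ i, ‖((Polynomial.C α * Polynomial.X + Polynomial.C β) ^ j * q).coeff i‖ ≤
      (‖α‖ + ‖β‖) ^ j * B := by
  induction j with
  | zero => simpa using hq
  | succ j ih =>
    intro i
    have h1 := Ebd_lin α β _ _ ih i
    rw [← mul_assoc] at h1
    rw [pow_succ' (Polynomial.C α * Polynomial.X + Polynomial.C β) j]
    refine h1.trans (le_of_eq ?_)
    ring

private theorem Ebd_one (i : ℕ) : ‖(1 : Polynomial ℂ).coeff i‖ ≤ 1 := by
  rw [Polynomial.coeff_one]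
  split_ifs <;> simp

private theorem Ebd_sbp (m : ℕ) (A : Matrix (Fin 2) (Fin 2) ℂ) (S : ℝ)
    (h0 : ‖A 0 0‖ + ‖A 0 1‖ ≤ S) (h1 : ‖A 1 0‖ + ‖A 1 1‖ ≤ S) (j : ℕ) (hj : j ≤ m) (i : ℕ) :
    ‖(sbp m A j).coeff i‖ ≤ S ^ m := by
  unfold sbp
  have h2 := Ebd_pow (A 1 0) (A 1 1) 1 1 Ebd_one (m - j)
  rw [mul_one, mul_one] at h2
  have h3 := Ebd_pow (A 0 0) (A 0 1) _ _ h2 j i
  refine h3.trans ?_
  have hS : 0 ≤ S := (add_nonneg (norm_nonneg _) (norm_nonneg _)).trans h0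
  calc (‖A 0 0‖ + ‖A 0 1‖) ^ j * (‖A 1 0‖ + ‖A 1 1‖) ^ (m - j)
      ≤ S ^ j * S ^ (m - j) := by
        refine mul_le_mul (pow_le_pow_left₀ (by positivity) h0 _)
          (pow_le_pow_left₀ (by positivity) h1 _) (by positivity) (by positivity)
    _ = S ^ m := by
        rw [← pow_add]
        congr 1
        omega

private theorem Ebd_Om (m : ℕ) (s s' : Fin 2 → ℂ) :
    ‖Om m s s'‖ ≤ 2 ^ (m + 1) * (‖s‖ + ‖s'‖) ^ (m + 2) := by
  set S : ℝ := ‖s‖ + ‖s'‖ with hS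
  have n0 := norm_nonneg s
  have n1 := norm_nonneg s'
  have hS0 : 0 ≤ S := by positivity
  have hlf : ∀ i : Fin (m + 1), ‖lf m s s' i‖ ≤ (2 * S) ^ m := by
    intro i
    refine (pi_norm_le_iff_of_nonneg (by positivity)).2 fun k => ?_
    show ‖(sbp m !![-s' 1, s' 0; -s 1, s 0] i).coeff k‖ ≤ _
    refine Ebd_sbp m _ (2 * S) ?_ ?_ i (by have := i.2; omega) k
    · show ‖-s' 1‖ + ‖s' 0‖ ≤ 2 * S
      rw [norm_neg]
      have a0 := norm_le_pi_norm s' 0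
      have a1 := norm_le_pi_norm s' 1
      linarith
    · show ‖-s 1‖ + ‖s 0‖ ≤ 2 * S
      rw [norm_neg]
      have a0 := norm_le_pi_norm s 0
      have a1 := norm_le_pi_norm s 1
      linarith
  have hsum : ‖∑ i, lf m s s' i‖ ≤ (m + 1) * (2 * S) ^ m := by
    refine (norm_sum_le_of_le _ fun i _ => hlf i).trans ?_
    rw [Finset.sum_const, Finset.card_univ, Fintype.card_fin, nsmul_eq_mul]
    push_cast
    exact le_rfl
  have hom : ‖CG.om s' s‖ ≤ 2 * S * S := by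
    refine (Ebd_om _ _).trans ?_
    exact mul_le_mul (mul_le_mul_of_nonneg_left (by linarith) (by norm_num)) (by linarith)
      (norm_nonneg _) (by positivity)
  have hm : ‖((m : ℂ) + 1)‖ = (m : ℝ) + 1 := by
    have h1 : ((m : ℂ) + 1) = (((m : ℝ) + 1 : ℝ) : ℂ) := by push_cast; rfl
    rw [h1, Complex.norm_real, Real.norm_of_nonneg (by positivity)]
  have hm0 : (0 : ℝ) < (m : ℝ) + 1 := by positivity
  unfold Om
  rw [norm_smul, norm_div, hm, div_mul_eq_mul_div, div_le_iff₀ hm0]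
  calc ‖CG.om s' s‖ * ‖∑ i, lf m s s' i‖ ≤ (2 * S * S) * ((m + 1) * (2 * S) ^ m) :=
        mul_le_mul hom hsum (norm_nonneg _) (by positivity)
    _ = 2 ^ (m + 1) * S ^ (m + 2) * ((m : ℝ) + 1) := by
        rw [mul_pow]
        ring

private theorem Ebd_evm (m : ℕ) (P : Fin (m + 1) → ℂ) (v : Fin 2 → ℂ) :
    ‖evm m P v‖ ≤ (m + 1) * ‖P‖ * ‖v‖ ^ m := by
  unfold evm
  have h1 : ∀ i : Fin (m + 1), ‖P i * (v 0 ^ (i : ℕ) * v 1 ^ (m - i))‖ ≤ ‖P‖ * ‖v‖ ^ m := by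
    intro i
    rw [norm_mul, norm_mul, norm_pow, norm_pow]
    refine mul_le_mul (norm_le_pi_norm P i) ?_ (by positivity) (norm_nonneg _)
    have hi : (i : ℕ) + (m - i) = m := by
      have := i.2
      omega
    calc ‖v 0‖ ^ (i : ℕ) * ‖v 1‖ ^ (m - (i : ℕ)) ≤ ‖v‖ ^ (i : ℕ) * ‖v‖ ^ (m - (i : ℕ)) := by
          refine mul_le_mul (pow_le_pow_left₀ (norm_nonneg _) (norm_le_pi_norm v 0) _)
            (pow_le_pow_left₀ (norm_nonneg _) (norm_le_pi_norm v 1) _) (by positivity)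
            (by positivity)
      _ = ‖v‖ ^ m := by rw [← pow_add, hi]
  refine (norm_sum_le_of_le _ fun i _ => h1 i).trans ?_
  rw [Finset.sum_const, Finset.card_univ, Fintype.card_fin, nsmul_eq_mul, mul_assoc]
  push_cast
  exact le_rfl

theorem p_Ebd : E_bd := by
  refine ⟨fun m => ⟨2 ^ (m + 1), fun s s' => Ebd_Om m s s'⟩, ?_, ?_, ?_⟩
  · intro R
    refine ⟨8 * (1 + |R|) ^ 4, fun e x he hx => ?_⟩
    have hR : ‖x‖ ≤ |R| := hx.trans (le_abs_self R)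
    have hR0 : 0 ≤ |R| := abs_nonneg R
    refine Ebd_sE (eU x) (1 + |R|) (by positivity) ?_ ?_ e he
    · refine (pi_norm_le_iff_of_nonneg (by positivity)).2 fun k => ?_
      fin_cases k
      · show ‖(1 : ℂ)‖ ≤ _
        rw [norm_one]
        linarith
      · show ‖(0 : ℂ)‖ ≤ _
        rw [norm_zero]
        positivity
    · refine (pi_norm_le_iff_of_nonneg (by positivity)).2 fun k => ?_
      fin_cases k
      · show ‖x‖ ≤ _
        linarith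
      · show ‖(1 : ℂ)‖ ≤ _
        rw [norm_one]
        linarith
  · intro g
    have g0 := norm_nonneg (colG g 0)
    have g1 := norm_nonneg (colG g 1)
    refine ⟨8 * (‖colG g 0‖ + ‖colG g 1‖ + 1) ^ 4, fun e he => ?_⟩
    exact Ebd_sE g _ (by positivity) (by linarith) (by linarith) e he
  · intro m P v
    exact Ebd_evm m P v

end

end Pool.Agent.F8.NL
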