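import Pool.Agent.Lib.MP_305fdd_al.F8.NL.StmE
import Pool.Agent.Lib.MP_305fdd_al.F8.CG.P_Lalg

/-!
# MP_305fdd_al, project NL, piece Ebv: the values of the Eisenstein series at the cusps
-/

set_option autoImplicit false

namespace Pool.Agent.F8.NL

open Pool.Agent.F8.CG Pool.Agent.F8.BG Pool.Agent.MP_305fdd_al Pool.Agent.Lib.MP_305fdd_al
  Pool.Agent.F8
open scoped QuadraticAlgebra ComplexConjugate

noncomputable section

private theorem Ebv_mv {a b : ℤ} (x : GQ a b) (e : Fin 2 → Qf a b ℤ) :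
    vC a b (x.val.mulVec e) = (iG a b x).val.mulVec (vC a b e) := by
  funext i
  show iC a b (x.val.mulVec e i) = (x.val.map (iC a b)).mulVec (vC a b e) i
  rw [Matrix.mulVec, Matrix.mulVec, dotProduct, dotProduct, Fin.sum_univ_two, Fin.sum_univ_two,
    map_add, map_mul, map_mul]
  rfl

private theorem Ebv_prm {a b : ℤ} (x : GQ a b) {e : Fin 2 → Qf a b ℤ} (he : Prm e) :
    Prm (x.val.mulVec e) := by
  obtain ⟨g, hg⟩ := he
  refine ⟨x * g, ?_⟩
  rw [← hg]
  funext i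
  show (x.val * g.val) i 0 = x.val.mulVec (fun i => g.val i 0) i
  rfl

private theorem Ebv_inv {a b : ℤ} (u v : GQ a b) (huv : u * v = 1) (e : Fin 2 → Qf a b ℤ) :
    u.val.mulVec (v.val.mulVec e) = e := by
  rw [Matrix.mulVec_mulVec, ← Matrix.SpecialLinearGroup.coe_mul, huv,
    Matrix.SpecialLinearGroup.coe_one, Matrix.one_mulVec]

/-- the action on the primitive vectors -/
private def Ebv_eq {a b : ℤ} (x : GQ a b) :
    {e : Fin 2 → Qf a b ℤ // Prm e} ≃ {e : Fin 2 → Qf a b ℤ // Prm e} where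
  toFun e := ⟨x.val.mulVec e.1, Ebv_prm x e.2⟩
  invFun e := ⟨(x⁻¹).val.mulVec e.1, Ebv_prm x⁻¹ e.2⟩
  left_inv e := Subtype.ext (Ebv_inv _ _ (inv_mul_cancel x) e.1)
  right_inv e := Subtype.ext (Ebv_inv _ _ (mul_inv_cancel x) e.1)

/-- a complementary vector -/
private theorem Ebv_comp {a b : ℤ} {e : Fin 2 → Qf a b ℤ} (he : Prm e) : ∃ v, CG.om e v = 1 := by
  obtain ⟨g, hg⟩ := he
  refine ⟨colG g 1, ?_⟩
  rw [← hg]
  show g.val 0 0 * g.val 1 1 - g.val 1 0 * g.val 0 1 = 1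
  have h3 := g.property
  rw [Matrix.det_fin_two] at h3
  linear_combination h3

private theorem Ebv_om_smul {R : Type} [CommRing R] (u : R) (e v : Fin 2 → R) :
    CG.om (u • e) v = u * CG.om e v := by
  simp only [CG.om, Pi.smul_apply, smul_eq_mul]
  ring

private theorem Ebv_om_vC {a b : ℤ} (e v : Fin 2 → Qf a b ℤ) :
    CG.om (vC a b e) (vC a b v) = iC a b (CG.om e v) := by
  show iC a b (e 0) * iC a b (v 1) - iC a b (e 1) * iC a b (v 0) = _
  unfold CG.om
  rw [map_sub, map_mul, map_mul]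

private theorem Ebv_om_norm (e v : Fin 2 → ℂ) : ‖CG.om e v‖ ≤ 2 * ‖e‖ * ‖v‖ := by
  unfold CG.om
  have h0 := norm_le_pi_norm e 0
  have h1 := norm_le_pi_norm e 1
  have h2 := norm_le_pi_norm v 0
  have h3 := norm_le_pi_norm v 1
  calc ‖e 0 * v 1 - e 1 * v 0‖ ≤ ‖e 0 * v 1‖ + ‖e 1 * v 0‖ := norm_sub_le _ _
    _ = ‖e 0‖ * ‖v 1‖ + ‖e 1‖ * ‖v 0‖ := by rw [norm_mul, norm_mul]
    _ ≤ ‖e‖ * ‖v‖ + ‖e‖ * ‖v‖ := by gcongr
    _ = 2 * ‖e‖ * ‖v‖ := by ring

private theorem Ebv_smul {a b : ℤ} (u : (Qf a b ℤ)ˣ) {e : Fin 2 → Qf a b ℤ} (he : Prm e) :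
    Prm ((u : Qf a b ℤ) • e) := by
  obtain ⟨g, hg⟩ := he
  have hd := g.property
  rw [Matrix.det_fin_two] at hd
  have hu := u.mul_inv
  refine ⟨AB.mx ((u : Qf a b ℤ) * g.val 0 0) ((↑u⁻¹ : Qf a b ℤ) * g.val 0 1)
    ((u : Qf a b ℤ) * g.val 1 0) ((↑u⁻¹ : Qf a b ℤ) * g.val 1 1) ?_, ?_⟩
  · linear_combination ((u : Qf a b ℤ) * ↑u⁻¹) * hd + hu
  · rw [← hg]
    funext i
    fin_cases i <;> rfl

/-- a vector with `ω(f, e) = 0` is a multiple of `e` -/
private theorem Ebv_par {R : Type} [CommRing R] (e f v : Fin 2 → R) (hv : CG.om e v = 1)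
    (h : CG.om f e = 0) : f = CG.om f v • e := by
  have hv' : e 0 * v 1 - e 1 * v 0 = 1 := hv
  have h' : f 0 * e 1 - f 1 * e 0 = 0 := h
  funext i
  fin_cases i
  · show f 0 = (f 0 * v 1 - f 1 * v 0) * e 0
    linear_combination (-(f 0)) * hv' - v 0 * h'
  · show f 1 = (f 0 * v 1 - f 1 * v 0) * e 1
    linear_combination (-(f 1)) * hv' - v 1 * h'

private theorem Ebv_unit {a b : ℤ} {e f : Fin 2 → Qf a b ℤ} (he : Prm e) (hf : Prm f)
    (h : CG.om f e = 0) : ∃ u : (Qf a b ℤ)ˣ, (u : Qf a b ℤ) • e = f := by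
  obtain ⟨v, hv⟩ := Ebv_comp he
  obtain ⟨v', hv'⟩ := Ebv_comp hf
  have h1 := Ebv_par e f v hv h
  have h2 := Ebv_par f e v' hv' (by
    unfold CG.om at h ⊢
    linear_combination -h)
  have h3 : CG.om e v' * CG.om f v = 1 := by
    have h4 := hv
    rw [h2, Ebv_om_smul] at h4
    exact h4
  exact ⟨⟨CG.om f v, CG.om e v', by rw [mul_comm]; exact h3, h3⟩, h1.symm⟩

/-- the value of a form as a continuous linear map -/
private def Ebv_ev (m : ℕ) (v : Fin 2 → ℂ) : (Fin (m + 1) → ℂ) →L[ℂ] ℂ :=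
  LinearMap.toContinuousLinearMap
    { toFun := fun P => evm m P v
      map_add' := fun P Q => evm_add m P Q v
      map_smul' := fun c P => evm_csmul m c P v }

private theorem Ebv_arch {x y : ℂ} {C : ℝ} (h : ∀ t : ℕ, ‖x * t - y * t‖ ≤ C) : x = y := by
  by_contra hne
  have h1 : 0 < ‖x - y‖ := norm_pos_iff.2 (sub_ne_zero.2 hne)
  obtain ⟨t, ht⟩ := exists_nat_gt (C / ‖x - y‖)
  rw [div_lt_iff₀ h1] at ht
  have h2 := h t
  rw [← sub_mul, norm_mul, Complex.norm_natCast] at h2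
  linarith [mul_comm ‖x - y‖ (t : ℝ)]

/-- the terms of the multiples of `e` -/
private theorem Ebv_term1 {a b : ℤ} (hom : E_om) (m : ℕ) (hm : Even m)
    (u : Qf a b ℤ) (hu : u ^ (m + 2) = 1)
    (e : Fin 2 → Qf a b ℤ) (he : vC a b (u • e) ≠ 0) (x : Qf a b ℤ) :
    evm m (OmE m (vC a b (u • e)) 1 (iG a b (tv e x))) (vC a b e) = iC a b x := by
  obtain ⟨hn, hs, -, -⟩ := p_Lalg
  obtain ⟨-, -, -, -, h5, -⟩ := hom m
  set f : Fin 2 → ℂ := vC a b (u • e) with hf
  set τ : SL2 ℂ := iG a b (tv e x) with hτ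
  set s : Fin 2 → ℂ := sE f 1 with hsd
  have hfe : f = iC a b u • vC a b e := by
    funext i
    show iC a b (u * e i) = iC a b u * iC a b (e i)
    rw [map_mul]
  have hact : ∀ v : Fin 2 → ℂ, τ.val.mulVec v = v + (iC a b x * CG.om (vC a b e) v) • vC a b e := by
    intro v
    have h1 : τ = tv (vC a b e) (iC a b x) := by
      apply Subtype.ext
      refine Matrix.ext fun i j => ?_
      show iC a b ((tv e x).val i j) = _
      fin_cases i <;> fin_cases j
      · show iC a b (1 - x * e 0 * e 1) = 1 - iC a b x * iC a b (e 0) * iC a b (e 1)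
        rw [map_sub, map_mul, map_mul, map_one]
      · show iC a b (x * e 0 ^ 2) = iC a b x * iC a b (e 0) ^ 2
        rw [map_mul, map_pow]
      · show iC a b (-(x * e 1 ^ 2)) = -(iC a b x * iC a b (e 1) ^ 2)
        rw [map_neg, map_mul, map_pow]
      · show iC a b (1 + x * e 0 * e 1) = 1 + iC a b x * iC a b (e 0) * iC a b (e 1)
        rw [map_add, map_mul, map_mul, map_one]
    rw [h1]
    exact (p_Vtv ℂ (vC a b e) 0 (iC a b x)).1 v
  have hoe : CG.om (vC a b e) f = 0 := by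
    rw [hfe]
    simp only [CG.om, Pi.smul_apply, smul_eq_mul]
    ring
  have hτf : τ.val.mulVec f = f := by
    rw [hact f, hoe, mul_zero, zero_smul, add_zero]
  have hs' : sE f τ = τ.val.mulVec s := by
    have h1 := hs f 1 τ
    rw [hτf, mul_one] at h1
    exact h1
  have o1 : CG.om f s = 1 := (hn f 1 he).2
  have o2 : CG.om f (sE f τ) = 1 := (hn f τ he).2
  have h6 := h5 f s (sE f τ) o1 o2
  rw [hm.neg_one_pow, one_mul] at h6
  have h7 : CG.om (sE f τ) s = iC a b x * CG.om (vC a b e) s ^ 2 := by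
    rw [hs', hact s]
    simp only [CG.om, Pi.add_apply, Pi.smul_apply, smul_eq_mul]
    ring
  have h8 : iC a b u * CG.om (vC a b e) s = 1 := by
    rw [← Ebv_om_smul, ← hfe]
    exact o1
  have h9 : iC a b u ^ (m + 2) = 1 := by rw [← map_pow, hu, map_one]
  show evm m (Om m s (sE f τ)) (vC a b e) = iC a b x
  have h10 : ∀ Q : Fin (m + 1) → ℂ, evm m Q f = iC a b u ^ m * evm m Q (vC a b e) := by
    intro Q
    rw [hfe, evm_smul]
  rw [h10, h7] at h6
  have h11 : iC a b u ^ (m + 2) * evm m (Om m s (sE f τ)) (vC a b e) =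
      iC a b x * (iC a b u * CG.om (vC a b e) s) ^ 2 := by
    rw [pow_add]
    linear_combination iC a b u ^ 2 * h6
  rw [h9, h8, one_mul, one_pow, mul_one] at h11
  exact h11

/-- the other terms -/
private theorem Ebv_term2 (hom : E_om) (m : ℕ) (f v : Fin 2 → ℂ) (hf : f ≠ 0)
    (h1 : 1 ≤ ‖CG.om f v‖) (τ : SL2 ℂ) :
    ‖evm m (OmE m f 1 τ) v‖ ≤ ‖CG.om (sE f τ) v‖ ^ (m + 1) + ‖CG.om (sE f 1) v‖ ^ (m + 1) := by
  obtain ⟨hn, -, -, -⟩ := p_Lalg
  obtain ⟨-, h2, -, -, -, -⟩ := hom m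
  have h3 := h2 f (sE f 1) (sE f τ) v (hn f 1 hf).2 (hn f τ hf).2
  have h4 : ‖((m : ℂ) + 1) * CG.om f v * evm m (OmE m f 1 τ) v‖ ≤
      ‖CG.om (sE f τ) v‖ ^ (m + 1) + ‖CG.om (sE f 1) v‖ ^ (m + 1) := by
    show ‖((m : ℂ) + 1) * CG.om f v * evm m (Om m (sE f 1) (sE f τ)) v‖ ≤ _
    rw [h3]
    refine (norm_sub_le _ _).trans ?_
    rw [norm_pow, norm_pow]
  refine le_trans ?_ h4
  rw [norm_mul, norm_mul]
  have h5 : 1 ≤ ‖(m : ℂ) + 1‖ := by
    have : (m : ℂ) + 1 = ((m + 1 : ℕ) : ℂ) := by push_cast; ring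
    rw [this, Complex.norm_natCast]
    exact_mod_cast Nat.le_add_left 1 m
  have h6 : 1 ≤ ‖(m : ℂ) + 1‖ * ‖CG.om f v‖ := one_le_mul_of_one_le_of_one_le h5 h1
  calc ‖evm m (OmE m f 1 τ) v‖ = 1 * ‖evm m (OmE m f 1 τ) v‖ := (one_mul _).symm
    _ ≤ ‖(m : ℂ) + 1‖ * ‖CG.om f v‖ * ‖evm m (OmE m f 1 τ) v‖ :=
      mul_le_mul_of_nonneg_right h6 (norm_nonneg _)

theorem p_Ebv (hom : E_om) (hbd : E_bd) (hsm : E_sm) (hcoc : E_coc) (hbv : B_bv) : E_bv := by
  intro a b h m hm hme hun W F hF hW hU N hL e he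
  obtain ⟨hn1, hsl, hsum⟩ := hsm a b h
  -- injectivity of the embedding
  have hz1 : ∀ z : Qf a b ℤ, z ≠ 0 → 1 ≤ ‖iC a b z‖ := by
    intro z hz
    have h1 := hn1 (fun _ => z) (fun h0 => hz (congrFun h0 0))
    have h2 : vC a b (fun _ => z) = fun _ => iC a b z := rfl
    rw [h2, pi_norm_const] at h1
    exact h1
  have hz0 : ∀ z : Qf a b ℤ, z ≠ 0 → iC a b z ≠ 0 := by
    intro z hz h0
    have h1 := hz1 z hz
    rw [h0, norm_zero] at h1
    linarith
  have hinj : Function.Injective (iC a b) := by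
    rw [injective_iff_map_eq_zero]
    intro z hz
    by_contra hne
    exact hz0 z hne hz
  have hne0 : ∀ f : Fin 2 → Qf a b ℤ, Prm f → f ≠ 0 := by
    intro f hf h0
    obtain ⟨v, hv⟩ := Ebv_comp hf
    rw [h0] at hv
    have h1 : CG.om (0 : Fin 2 → Qf a b ℤ) v = 0 := by
      show (0 : Qf a b ℤ) * v 1 - 0 * v 0 = 0
      ring
    rw [h1] at hv
    have h2 := congrArg QuadraticAlgebra.re hv
    simp at h2
  have hv1 : ∀ f : Fin 2 → Qf a b ℤ, Prm f → 1 ≤ ‖vC a b f‖ := fun f hf => hn1 f (hne0 f hf)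
  have hv0 : ∀ f : Fin 2 → Qf a b ℤ, Prm f → vC a b f ≠ 0 := by
    intro f hf h0
    have h1 := hv1 f hf
    rw [h0, norm_zero] at h1
    linarith
  obtain ⟨CF, hCF⟩ := hF
  obtain ⟨C₁, hC₁⟩ := hbd.2.2.1 1
  -- the units
  have hfin : Finite (Qf a b ℤ)ˣ := by
    have hpos : m + 2 ≠ 0 := by omega
    have : NeZero (m + 2) := ⟨hpos⟩
    let ψ : (Qf a b ℤ)ˣ → rootsOfUnity (m + 2) ℂ := fun u =>
      ⟨Units.map (iC a b : Qf a b ℤ →* ℂ) u, by
        rw [mem_rootsOfUnity, ← map_pow]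
        have h1 : u ^ (m + 2) = 1 := Units.ext (by
          rw [Units.val_pow_eq_pow_val, hun u u.isUnit, Units.val_one])
        rw [h1, map_one]⟩
    refine Finite.of_injective ψ fun u u' huu => ?_
    have h1 : Units.map (iC a b : Qf a b ℤ →* ℂ) u = Units.map (iC a b : Qf a b ℤ →* ℂ) u' :=
      congrArg Subtype.val huu
    have h2 : iC a b (u : Qf a b ℤ) = iC a b (u' : Qf a b ℤ) := congrArg Units.val h1
    exact Units.ext (hinj h2)
  -- the constant
  set G : {f : Fin 2 → Qf a b ℤ // Prm f} → ℝ := fun f => (‖vC a b f.1‖ ^ (m + 1))⁻¹ with hG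
  have hGs : Summable G := (hsl (m + 1) (by omega)).comp_injective
    (Subtype.val_injective (p := fun e => Prm e))
  set K : ℝ := |CF| * (2 * |C₁| * ‖vC a b e‖) ^ (m + 1) with hK
  have hK0 : 0 ≤ K := by positivity
  have hbound : ∀ t : ℕ, ‖bv m N (iC a b) (Ez a b m F) e * t -
      (N * Nat.card (Qf a b ℤ)ˣ * F e) * t‖ ≤ K * (∑' f, G f + ∑' f, G f) := by
    intro t
    set x : Qf a b ℤ := (N : Qf a b ℤ) * (t : Qf a b ℤ) with hx
    set τ : GQ a b := tv e x with hτ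
    have hB : BvM a b m (iC a b) := hbv a b h m (by omega) ℂ (iC a b) hinj
    have hCH : CH (tV m (iC a b)) W (Ez a b m F) :=
      hcoc a b h m (by omega) W F ⟨CF, hCF⟩ hW
    have h1 := hB.mul W N hL (Ez a b m F) hCH e (t : Qf a b ℤ)
    rw [map_natCast] at h1
    rw [← h1]
    -- the terms
    set A : {f : Fin 2 → Qf a b ℤ // Prm f} → ℂ := fun f =>
      F f * evm m (OmE m (vC a b f.1) 1 (iG a b τ)) (vC a b e) with hA
    have hS : Summable fun f : {f : Fin 2 → Qf a b ℤ // Prm f} =>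
        F f • OmE m (vC a b f.1) 1 (iG a b τ) :=
      hsum m (by omega) F ⟨CF, hCF⟩ 1 (iG a b τ)
    have hev : evm m (Ez a b m F τ) (fun i => iC a b (e i)) = ∑' f, A f := by
      have h2 := (Ebv_ev m (vC a b e)).map_tsum hS
      refine Eq.trans h2 (tsum_congr fun f => ?_)
      exact evm_csmul m (F f) _ _
    have hAs : Summable A := by
      have h2 := (Ebv_ev m (vC a b e)).summable hS
      exact h2.congr fun f => (evm_csmul m (F f) _ _)
    -- the multiples of e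
    let φ : (Qf a b ℤ)ˣ → {f : Fin 2 → Qf a b ℤ // Prm f} := fun u =>
      ⟨(u : Qf a b ℤ) • e, Ebv_smul u he⟩
    have hφ : Function.Injective φ := by
      intro u u' huu
      obtain ⟨v, hv⟩ := Ebv_comp he
      have h2 : (u : Qf a b ℤ) • e = (u' : Qf a b ℤ) • e := congrArg Subtype.val huu
      have h3 := congrArg (fun w => CG.om w v) h2
      simp only [Ebv_om_smul, hv, mul_one] at h3
      exact Units.ext h3
    set S : Set {f : Fin 2 → Qf a b ℤ // Prm f} := {f | CG.om f.1 e = 0} with hSd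
    have hφS : ∀ u, φ u ∈ S := by
      intro u
      show CG.om ((u : Qf a b ℤ) • e) e = 0
      rw [Ebv_om_smul]
      show (u : Qf a b ℤ) * (e 0 * e 1 - e 1 * e 0) = 0
      ring
    have hI1 : ∑' f, S.indicator A f = (N * Nat.card (Qf a b ℤ)ˣ * F e) * t := by
      rw [← hφ.tsum_eq (f := S.indicator A) ?_]
      · have h2 : ∀ u, S.indicator A (φ u) = F e * (N * t) := by
          intro u
          rw [Set.indicator_of_mem (hφS u)]
          show F ((u : Qf a b ℤ) • e) * evm m (OmE m (vC a b ((u : Qf a b ℤ) • e)) 1 (iG a b τ))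
            (vC a b e) = _
          rw [hU u u.isUnit e he, Ebv_term1 hom m hme (u : Qf a b ℤ) (hun u u.isUnit) e
            (hv0 _ (Ebv_smul u he)) x, hx, map_mul, map_natCast, map_natCast]
        simp_rw [h2]
        rw [tsum_const, nsmul_eq_mul]
        ring
      · intro f hf
        have h2 : f ∈ S := by
          by_contra hc
          exact hf (Set.indicator_of_notMem hc A)
        obtain ⟨u, hu⟩ := Ebv_unit he f.2 h2
        exact ⟨u, Subtype.ext hu⟩
    -- the other vectors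
    have hτe : τ.val.mulVec e = e := by
      rw [hτ, (p_Vtv _ e 0 x).1 e]
      have h2 : CG.om e e = 0 := by
        show e 0 * e 1 - e 1 * e 0 = 0
        ring
      rw [h2, mul_zero, zero_smul, add_zero]
    obtain ⟨-, hs, -, -⟩ := p_Lalg
    have hone : ∀ f : {f : Fin 2 → Qf a b ℤ // Prm f},
        ‖CG.om (sE (vC a b f.1) 1) (vC a b e)‖ ^ (m + 1) ≤
          (2 * |C₁| * ‖vC a b e‖) ^ (m + 1) * G f := by
      intro f
      have h2 : ‖CG.om (sE (vC a b f.1) 1) (vC a b e)‖ ≤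
          (2 * |C₁| * ‖vC a b e‖) * ‖vC a b f.1‖⁻¹ := by
        refine (Ebv_om_norm _ _).trans ?_
        have h3 : ‖sE (vC a b f.1) 1‖ ≤ |C₁| * ‖vC a b f.1‖⁻¹ := by
          refine (hC₁ _ (hv0 _ f.2)).trans ?_
          rw [div_eq_mul_inv]
          exact mul_le_mul_of_nonneg_right (le_abs_self _) (inv_nonneg.2 (norm_nonneg _))
        calc 2 * ‖sE (vC a b f.1) 1‖ * ‖vC a b e‖
            ≤ 2 * (|C₁| * ‖vC a b f.1‖⁻¹) * ‖vC a b e‖ := by gcongr
          _ = (2 * |C₁| * ‖vC a b e‖) * ‖vC a b f.1‖⁻¹ := by ring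
      calc ‖CG.om (sE (vC a b f.1) 1) (vC a b e)‖ ^ (m + 1)
          ≤ ((2 * |C₁| * ‖vC a b e‖) * ‖vC a b f.1‖⁻¹) ^ (m + 1) :=
            pow_le_pow_left₀ (norm_nonneg _) h2 _
        _ = (2 * |C₁| * ‖vC a b e‖) ^ (m + 1) * G f := by
            rw [mul_pow, inv_pow]
    have htwo : ∀ f : {f : Fin 2 → Qf a b ℤ // Prm f},
        ‖CG.om (sE (vC a b f.1) (iG a b τ)) (vC a b e)‖ ^ (m + 1) ≤
          (2 * |C₁| * ‖vC a b e‖) ^ (m + 1) * G ((Ebv_eq τ).symm f) := by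
      intro f
      refine le_trans (le_of_eq ?_) (hone ((Ebv_eq τ).symm f))
      congr 2
      have h2 : τ.val.mulVec ((Ebv_eq τ).symm f).1 = f.1 :=
        congrArg Subtype.val ((Ebv_eq τ).apply_symm_apply f)
      have h3 := hs (vC a b ((Ebv_eq τ).symm f).1) 1 (iG a b τ)
      rw [← Ebv_mv, h2, mul_one] at h3
      have h4 : vC a b e = (iG a b τ).val.mulVec (vC a b e) := by
        rw [← Ebv_mv, hτe]
      rw [h3, h4, (p_Vtv ℂ (sE (vC a b ((Ebv_eq τ).symm f).1) 1) 0 0).2.2.2.2.2, ← h4]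
    have hI2 : ‖∑' f, Sᶜ.indicator A f‖ ≤ K * (∑' f, G f + ∑' f, G f) := by
      have h2 : HasSum (fun f => K * (G ((Ebv_eq τ).symm f) + G f))
          (K * (∑' f, G f + ∑' f, G f)) := by
        refine HasSum.mul_left K (HasSum.add ?_ hGs.hasSum)
        have h3 := ((Ebv_eq τ).symm.hasSum_iff (f := G)).2 hGs.hasSum
        exact h3
      refine tsum_of_norm_bounded h2 fun f => ?_
      by_cases hf : f ∈ S
      · have h3 : Sᶜ.indicator A f = 0 :=
          Set.indicator_of_notMem (fun hc : f ∈ Sᶜ => hc hf) A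
        rw [h3, norm_zero]
        have h4 : ∀ g, 0 ≤ G g := fun g => by positivity
        exact mul_nonneg hK0 (add_nonneg (h4 _) (h4 _))
      · rw [Set.indicator_of_mem (show f ∈ Sᶜ from hf)]
        show ‖F f * evm m (OmE m (vC a b f.1) 1 (iG a b τ)) (vC a b e)‖ ≤ _
        rw [norm_mul]
        have h3 : 1 ≤ ‖CG.om (vC a b f.1) (vC a b e)‖ := by
          rw [Ebv_om_vC]
          exact hz1 _ hf
        have h4 := Ebv_term2 hom m (vC a b f.1) (vC a b e) (hv0 _ f.2) h3 (iG a b τ)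
        calc ‖F f‖ * ‖evm m (OmE m (vC a b f.1) 1 (iG a b τ)) (vC a b e)‖
            ≤ |CF| * ((2 * |C₁| * ‖vC a b e‖) ^ (m + 1) * G ((Ebv_eq τ).symm f) +
              (2 * |C₁| * ‖vC a b e‖) ^ (m + 1) * G f) :=
              mul_le_mul ((hCF _).trans (le_abs_self _))
                (h4.trans (add_le_add (htwo f) (hone f))) (norm_nonneg _) (abs_nonneg _)
          _ = K * (G ((Ebv_eq τ).symm f) + G f) := by
              rw [hK]
              ring
    have hsplit : ∑' f, A f = ∑' f, S.indicator A f + ∑' f, Sᶜ.indicator A f := by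
      rw [← (hAs.indicator S).tsum_add (hAs.indicator Sᶜ)]
      refine tsum_congr fun f => ?_
      exact (congrFun (Set.indicator_self_add_compl S A) f).symm
    rw [hev, hsplit, hI1, add_sub_cancel_left]
    exact hI2
  have h9 := Ebv_arch hbound
  exact h9

end

end Pool.Agent.F8.NL
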