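import Pool.Agent.Lib.MP_305fdd_al.F8.NL.StmE
import Pool.Agent.Lib.MP_305fdd_al.F8.CG.P_Lalg

/-!
# MP_305fdd_al, project NL, piece Ecoc: the Eisenstein series is a crossed homomorphism
-/

set_option autoImplicit false

namespace Pool.Agent.F8.NL

open Pool.Agent.F8.CG Pool.Agent.F8.BG Pool.Agent.MP_305fdd_al Pool.Agent.Lib.MP_305fdd_al
  Pool.Agent.F8
open scoped QuadraticAlgebra ComplexConjugate

noncomputable section

private theorem Ecoc_mv {a b : ℤ} (x : GQ a b) (e : Fin 2 → Qf a b ℤ) :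
    vC a b (x.val.mulVec e) = (iG a b x).val.mulVec (vC a b e) := by
  funext i
  show iC a b (x.val.mulVec e i) = (x.val.map (iC a b)).mulVec (vC a b e) i
  rw [Matrix.mulVec, Matrix.mulVec, dotProduct, dotProduct, Fin.sum_univ_two, Fin.sum_univ_two,
    map_add, map_mul, map_mul]
  rfl

private theorem Ecoc_ne {a b : ℤ} {e : Fin 2 → Qf a b ℤ} (he : Prm e) : e ≠ 0 := by
  obtain ⟨g, hg⟩ := he
  intro h0
  have h1 : g.val 0 0 = 0 := (congrFun hg 0).trans (congrFun h0 0)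
  have h2 : g.val 1 0 = 0 := (congrFun hg 1).trans (congrFun h0 1)
  have h3 := g.property
  rw [Matrix.det_fin_two, h1, h2, zero_mul, mul_zero, sub_zero] at h3
  have h4 := congrArg QuadraticAlgebra.re h3
  simp at h4

private theorem Ecoc_prm {a b : ℤ} (x : GQ a b) {e : Fin 2 → Qf a b ℤ} (he : Prm e) :
    Prm (x.val.mulVec e) := by
  obtain ⟨g, hg⟩ := he
  refine ⟨x * g, ?_⟩
  rw [← hg]
  funext i
  show (x.val * g.val) i 0 = x.val.mulVec (fun i => g.val i 0) i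
  rfl

private theorem Ecoc_inv {a b : ℤ} (u v : GQ a b) (huv : u * v = 1) (e : Fin 2 → Qf a b ℤ) :
    u.val.mulVec (v.val.mulVec e) = e := by
  rw [Matrix.mulVec_mulVec, ← Matrix.SpecialLinearGroup.coe_mul, huv,
    Matrix.SpecialLinearGroup.coe_one, Matrix.one_mulVec]

/-- the action on the primitive vectors -/
private def Ecoc_eq {a b : ℤ} (x : GQ a b) :
    {e : Fin 2 → Qf a b ℤ // Prm e} ≃ {e : Fin 2 → Qf a b ℤ // Prm e} where
  toFun e := ⟨x.val.mulVec e.1, Ecoc_prm x e.2⟩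
  invFun e := ⟨(x⁻¹).val.mulVec e.1, Ecoc_prm x⁻¹ e.2⟩
  left_inv e := Subtype.ext (Ecoc_inv _ _ (inv_mul_cancel x) e.1)
  right_inv e := Subtype.ext (Ecoc_inv _ _ (mul_inv_cancel x) e.1)

theorem p_Ecoc (hom : E_om) (hsm : E_sm) : E_coc := by
  intro a b h m hm W F hF hW x hx y hy
  obtain ⟨hn1, -, hsum⟩ := hsm a b h
  obtain ⟨-, -, h3, h4, -, -⟩ := hom m
  obtain ⟨hn, hs, -, -⟩ := p_Lalg
  have hv : ∀ e : {e : Fin 2 → Qf a b ℤ // Prm e}, vC a b e.1 ≠ 0 := by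
    intro e h0
    have h1 := hn1 e.1 (Ecoc_ne e.2)
    rw [h0, norm_zero] at h1
    linarith
  have hadd : ∀ (e : {e : Fin 2 → Qf a b ℤ // Prm e}) (g₀ g₁ g₂ : SL2 ℂ),
      OmE m (vC a b e.1) g₀ g₂ = OmE m (vC a b e.1) g₀ g₁ + OmE m (vC a b e.1) g₁ g₂ := by
    intro e g₀ g₁ g₂
    exact (h3 (vC a b e.1) _ _ _ (hn _ g₀ (hv e)).2 (hn _ g₁ (hv e)).2 (hn _ g₂ (hv e)).2).symm
  have hS := hsum m hm F hF
  have hxy : iG a b (x * y) = iG a b x * iG a b y := map_mul _ _ _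
  -- the first step
  have e1 : Ez a b m F (x * y) = Ez a b m F x +
      ∑' e : {e : Fin 2 → Qf a b ℤ // Prm e},
        F e • OmE m (vC a b e) (iG a b x) (iG a b x * iG a b y) := by
    unfold Ez
    rw [← (hS 1 (iG a b x)).tsum_add (hS (iG a b x) (iG a b x * iG a b y))]
    refine tsum_congr fun e => ?_
    rw [hxy, hadd e 1 (iG a b x), smul_add]
  -- the second step
  let φ : (Fin (m + 1) → ℂ) →L[ℂ] (Fin (m + 1) → ℂ) :=
    LinearMap.toContinuousLinearMap (Matrix.mulVecLin (sm m (iG a b x)))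
  have e2 : (tV m (iC a b) x).mulVec (Ez a b m F y) =
      ∑' e : {e : Fin 2 → Qf a b ℤ // Prm e},
        (sm m (iG a b x)).mulVec (F e • OmE m (vC a b e) 1 (iG a b y)) :=
    φ.map_tsum (hS 1 (iG a b y))
  rw [e1, e2, ← (Ecoc_eq x).tsum_eq]
  congr 1
  refine tsum_congr fun e => ?_
  show F (x.val.mulVec e.1) • OmE m (vC a b (x.val.mulVec e.1)) (iG a b x)
    (iG a b x * iG a b y) = _
  rw [hW x hx e.1 e.2, Ecoc_mv, Matrix.mulVec_smul]
  congr 1
  unfold OmE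
  rw [← h4, ← hs, ← hs, mul_one]

end

end Pool.Agent.F8.NL
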