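import Pool.Agent.Lib.MP_305fdd_al.F8.NL.StmE

/-!
# MP_305fdd_al, NL: the crossed homomorphisms of the group of the matrices `eU (N t)`

The operator `G ↦ G - G(X - c)` is surjective on the polynomials, its kernel are the constants.
-/

set_option autoImplicit false

namespace Pool.Agent.F8.NL

open Pool.Agent.F8.CG Pool.Agent.F8.BG Pool.Agent.MP_305fdd_al Pool.Agent.Lib.MP_305fdd_al
  Pool.Agent.F8
open scoped QuadraticAlgebra ComplexConjugate
open Polynomial

noncomputable section

private def Edc_e (c : ℂ) (k : ℕ) : ℂ[X] := ∏ j ∈ Finset.range k, (X + C ((j : ℂ) * c))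

private theorem Edc_e_monic (c : ℂ) (k : ℕ) : (Edc_e c k).Monic :=
  monic_prod_of_monic _ _ fun _ _ => monic_X_add_C _

private theorem Edc_e_deg (c : ℂ) (k : ℕ) : (Edc_e c k).degree = k := by
  unfold Edc_e
  rw [degree_prod]
  simp only [degree_X_add_C]
  simp

private theorem Edc_e_diff (c : ℂ) (k : ℕ) :
    Edc_e c (k + 1) - (Edc_e c (k + 1)).comp (X - C c) = C (((k : ℂ) + 1) * c) * Edc_e c k := by
  have h1 : (Edc_e c (k + 1)).comp (X - C c) = (X - C c) * Edc_e c k := by
    unfold Edc_e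
    rw [Polynomial.prod_comp, Finset.prod_range_succ']
    have : ∀ j ∈ Finset.range k, ((X + C (((j + 1 : ℕ) : ℂ) * c)) : ℂ[X]).comp (X - C c) =
        X + C ((j : ℂ) * c) := by
      intro j _
      simp only [add_comp, X_comp, C_comp]
      push_cast
      rw [show (((j : ℂ) + 1) * c) = (j : ℂ) * c + c by ring, C_add]
      ring
    rw [Finset.prod_congr rfl this]
    simp [mul_comm]
  rw [h1]
  unfold Edc_e
  rw [Finset.prod_range_succ]
  rw [show (((k : ℂ) + 1) * c) = (k : ℂ) * c + c by ring, C_add]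
  ring

private theorem Edc_surj (c : ℂ) (hc : c ≠ 0) (n : ℕ) : ∀ P : ℂ[X], P.degree < n →
    ∃ G : ℂ[X], G - G.comp (X - C c) = P := by
  induction n with
  | zero =>
    intro P hP
    refine ⟨0, ?_⟩
    have : P = 0 := by
      rw [← degree_eq_bot]
      by_contra h
      have h2 := Polynomial.degree_eq_natDegree (fun h0 => h (by rw [h0, degree_zero]) : P ≠ 0)
      rw [h2] at hP
      exact absurd hP (by simp)
    rw [this]; simp
  | succ n ih =>
    intro P hP
    have h1 : (P - C (P.coeff n) * Edc_e c n).degree < n := by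
      rw [Polynomial.degree_lt_iff_coeff_zero]
      intro i hi
      rw [coeff_sub, coeff_C_mul]
      rcases eq_or_lt_of_le hi with h | h
      · rw [← h]
        have : (Edc_e c n).coeff n = 1 := by
          have h2 := Edc_e_monic c n
          unfold Monic leadingCoeff at h2
          rwa [natDegree_eq_of_degree_eq_some (Edc_e_deg c n)] at h2
        rw [this]; ring
      · have g1 : P.coeff i = 0 := coeff_eq_zero_of_degree_lt
          (lt_of_lt_of_le hP (by exact_mod_cast h))
        have g2 : (Edc_e c n).coeff i = 0 := coeff_eq_zero_of_degree_lt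
          (by rw [Edc_e_deg]; exact_mod_cast h)
        rw [g1, g2]
        ring
    obtain ⟨G, hG⟩ := ih _ h1
    have hn : ((n : ℂ) + 1) ≠ 0 := by exact_mod_cast Nat.succ_ne_zero n
    refine ⟨G + C (P.coeff n / (((n : ℂ) + 1) * c)) * Edc_e c (n + 1), ?_⟩
    have h2 := Edc_e_diff c n
    rw [add_comp, mul_comp, C_comp]
    have h3 : C (P.coeff n / (((n : ℂ) + 1) * c)) * (C (((n : ℂ) + 1) * c) * Edc_e c n) =
        C (P.coeff n) * Edc_e c n := by
      rw [← mul_assoc, ← C_mul]
      congr 2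
      field_simp
    linear_combination hG + C (P.coeff n / (((n : ℂ) + 1) * c)) * h2 + h3

private theorem Edc_const (c : ℂ) (hc : c ≠ 0) (P : ℂ[X]) (h : P = P.comp (X - C c)) :
    P = C (P.eval 0) := by
  have h1 : ∀ n : ℕ, P.eval ((n : ℂ) * c) = P.eval 0 := by
    intro n
    induction n with
    | zero => simp
    | succ n ih =>
      rw [h, eval_comp]
      simp only [eval_sub, eval_X, eval_C]
      rw [show (((n + 1 : ℕ) : ℂ) * c - c) = (n : ℂ) * c by push_cast; ring, ih]
      have := congrArg (fun q => q.eval 0) h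
      rw [← h]
  refine Polynomial.eq_of_infinite_eval_eq _ _ ?_
  refine Set.infinite_of_injective_forall_mem (f := fun n : ℕ => (n : ℂ) * c) ?_ ?_
  · intro i j hij
    have : (i : ℂ) * c = (j : ℂ) * c := hij
    exact_mod_cast mul_right_cancel₀ hc this
  · intro n
    show P.eval ((n : ℂ) * c) = (C (P.eval 0)).eval ((n : ℂ) * c)
    rw [h1, eval_C]

/-- the polynomial of a form -/
private def Edc_p {m : ℕ} (P : Fin (m + 1) → ℂ) : ℂ[X] := ∑ i : Fin (m + 1), C (P i) * X ^ (i : ℕ)

private theorem Edc_p_eval {m : ℕ} (P : Fin (m + 1) → ℂ) (x : ℂ) :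
    (Edc_p P).eval x = evm m P ![x, 1] := by
  unfold Edc_p evm
  rw [eval_finsetSum]
  refine Finset.sum_congr rfl fun i _ => ?_
  simp

theorem p_Edc : E_dc := by
  intro a b hab m W N hN z hz
  obtain ⟨hN0, hW⟩ := hN
  have hNC : (N : ℂ) ≠ 0 := by exact_mod_cast hN0
  have hmem : ∀ t : Qf a b ℤ, (eU ((N : Qf a b ℤ) * t) : GQ a b) ∈ W := by
    intro t
    rw [eU_eq_tv]
    exact hW _ t
  set p : Qf a b ℤ → ℂ[X] := fun t => Edc_p (z (eU ((N : Qf a b ℤ) * t))) with hp
  -- the cocycle relation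
  have hcoc : ∀ s t : Qf a b ℤ, p (s + t) = p s + (p t).comp (X - C ((N : ℂ) * iC a b s)) := by
    intro s t
    apply Polynomial.funext
    intro x
    rw [eval_add, eval_comp]
    simp only [hp, eval_sub, eval_X, eval_C]
    rw [Edc_p_eval, Edc_p_eval, Edc_p_eval]
    have h1 := hz _ (hmem s) _ (hmem t)
    rw [← eU_add, ← mul_add] at h1
    rw [h1, evm_add]
    congr 1
    show evm m ((sm m (SLm (iC a b) (eU ((N : Qf a b ℤ) * s)))).mulVec _) _ = _
    rw [evm_sm, eU_map, map_mul, map_natCast]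
    congr 1
    have h2 : (eU ((N : ℂ) * iC a b s) : SL2 ℂ)⁻¹ = eU (-((N : ℂ) * iC a b s)) := by
      rw [inv_eq_iff_mul_eq_one, ← eU_add, add_neg_cancel]
      unfold eU
      apply Subtype.ext
      show !![(1 : ℂ), 0; 0, 1] = 1
      exact Matrix.one_fin_two.symm
    rw [h2]
    show (!![(1 : ℂ), -((N : ℂ) * iC a b s); 0, 1]).mulVec ![x, 1] = _
    ext i
    fin_cases i <;> simp [Matrix.mulVec, dotProduct, Fin.sum_univ_two]
    ring
  obtain ⟨G, hG⟩ := Edc_surj ((N : ℂ)) hNC ((p 1).natDegree + 1) (p 1)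
    (lt_of_le_of_lt degree_le_natDegree (by exact_mod_cast Nat.lt_succ_self _))
  have hx1 : (N : ℂ) * iC a b 1 = N := by rw [map_one, mul_one]
  -- composition of translations
  have hcc : ∀ (Q : ℂ[X]) (u v : ℂ), (Q.comp (X - C u)).comp (X - C v) = Q.comp (X - C (u + v)) := by
    intro Q u v
    rw [comp_assoc]
    congr 1
    simp only [sub_comp, X_comp, C_comp, C_add]
    ring
  set k : Qf a b ℤ → ℂ[X] := fun t => p t - G + G.comp (X - C ((N : ℂ) * iC a b t)) with hk
  have hkc : ∀ t, k t = C ((k t).eval 0) := by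
    intro t
    apply Edc_const (N : ℂ) hNC
    have e1 := hcoc 1 t
    have e2 := hcoc t 1
    rw [hx1] at e1
    rw [add_comm t 1, e1] at e2
    -- p 1 + (p t)(X - N) = p t + (p 1)(X - x_t)
    simp only [hk]
    rw [add_comp, sub_comp, hcc]
    rw [← hG, sub_comp, hcc] at e2
    rw [add_comm (N : ℂ) ((N : ℂ) * iC a b t)] at e2
    linear_combination -e2
  have hka : ∀ s t, (k (s + t)).eval 0 = (k s).eval 0 + (k t).eval 0 := by
    intro s t
    have h1 : k (s + t) = k s + (k t).comp (X - C ((N : ℂ) * iC a b s)) := by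
      simp only [hk]
      rw [add_comp, sub_comp, hcc, hcoc, map_add, mul_add, add_comm ((N : ℂ) * iC a b t)]
      ring
    rw [h1, eval_add, hkc t, C_comp, eval_C]
  let K : Qf a b ℤ →+ ℂ := AddMonoidHom.mk' (fun t => (k t).eval 0) hka
  have hK : ∀ t : Qf a b ℤ, K t = (t.re : ℂ) * K 1 + (t.im : ℂ) * K (wq a b ℤ) := by
    intro t
    have h1 : t = t.re • (1 : Qf a b ℤ) + t.im • wq a b ℤ := by
      apply QuadraticAlgebra.ext <;> simp [wq]
    conv_lhs => rw [h1]
    rw [map_add, map_zsmul, map_zsmul, zsmul_eq_mul, zsmul_eq_mul]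
  have hw := CG.wC_im hab
  have hww : conj (CG.wC a b) - CG.wC a b ≠ 0 := by
    intro h
    have := congrArg Complex.im h
    simp at this
    linarith
  set r : ℂ := (K (wq a b ℤ) - K 1 * CG.wC a b) / (conj (CG.wC a b) - CG.wC a b) with hr
  have hr1 : r * (conj (CG.wC a b) - CG.wC a b) = K (wq a b ℤ) - K 1 * CG.wC a b := by
    rw [hr, div_mul_cancel₀ _ hww]
  refine ⟨G + C ((K 1 - r) / N) * X, r, fun t x => ?_⟩
  have h1 : p t = G - G.comp (X - C ((N : ℂ) * iC a b t)) + C (K t) := by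
    have := hkc t
    have h2 : C (K t) = k t := this.symm
    rw [h2]
    simp only [hk]
    ring
  have h3 : evm m (z (eU ((N : Qf a b ℤ) * t))) ![x + N * iC a b t, 1] =
      (p t).eval (x + N * iC a b t) := (Edc_p_eval _ _).symm
  rw [h3, h1]
  simp only [eval_add, eval_sub, eval_comp, eval_X, eval_C, eval_mul]
  rw [add_sub_cancel_right, hK t]
  have h4 : iC a b t = (t.re : ℂ) + (t.im : ℂ) * CG.wC a b := rfl
  have h5 : conj (iC a b t) = (t.re : ℂ) + (t.im : ℂ) * conj (CG.wC a b) := by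
    rw [h4, map_add, map_mul, map_intCast, map_intCast]
  have h6 : (K 1 - r) / N * (N : ℂ) = K 1 - r := div_mul_cancel₀ _ hNC
  rw [h5, h4]
  linear_combination (-(t.re : ℂ) - (t.im : ℂ) * CG.wC a b) * h6 - (t.im : ℂ) * hr1

end

end Pool.Agent.F8.NL
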