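import Pool.Agent.Lib.MP_305fdd_al.F8.NL.StmE
import Pool.Agent.Lib.MP_305fdd_al.F8.CG.P_Lalg

set_option autoImplicit false

namespace Pool.Agent.F8.NL

open Pool.Agent.F8.CG Pool.Agent.F8.BG Pool.Agent.MP_305fdd_al Pool.Agent.Lib.MP_305fdd_al
  Pool.Agent.F8
open scoped QuadraticAlgebra ComplexConjugate

noncomputable section

/-- `f` is real differentiable at `x` and `i f'(1) - f'(i) = w` -/
private def Edif_HD (f : ℂ → ℂ) (x w : ℂ) : Prop :=
  ∃ S : ℂ →L[ℝ] ℂ, HasFDerivAt f S x ∧ Complex.I * S 1 - S Complex.I = w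

private theorem Edif_const (c x : ℂ) : Edif_HD (fun _ => c) x 0 :=
  ⟨0, hasFDerivAt_const c x, by simp⟩

private theorem Edif_id (x : ℂ) : Edif_HD (fun y => y) x 0 :=
  ⟨ContinuousLinearMap.id ℝ ℂ, hasFDerivAt_id x, by simp⟩

private theorem Edif_conj (x : ℂ) : Edif_HD (fun y => conj y) x (2 * Complex.I) := by
  refine ⟨(Complex.conjCLE : ℂ →L[ℝ] ℂ), (Complex.conjCLE : ℂ →L[ℝ] ℂ).hasFDerivAt, ?_⟩
  simp only [ContinuousLinearEquiv.coe_coe, Complex.conjCLE_apply, map_one, Complex.conj_I]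
  ring

private theorem Edif_add {f g : ℂ → ℂ} {x w w' : ℂ} (hf : Edif_HD f x w) (hg : Edif_HD g x w') :
    Edif_HD (fun y => f y + g y) x (w + w') := by
  obtain ⟨S, hS, h1⟩ := hf
  obtain ⟨T, hT, h2⟩ := hg
  refine ⟨S + T, hS.add hT, ?_⟩
  simp only [add_apply]
  rw [← h1, ← h2]
  ring

private theorem Edif_mul {f g : ℂ → ℂ} {x w w' : ℂ} (hf : Edif_HD f x w) (hg : Edif_HD g x w') :
    Edif_HD (fun y => f y * g y) x (f x * w' + w * g x) := by
  obtain ⟨S, hS, h1⟩ := hf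
  obtain ⟨T, hT, h2⟩ := hg
  refine ⟨f x • T + g x • S, hS.mul hT, ?_⟩
  simp only [add_apply, smul_apply, smul_eq_mul]
  rw [← h1, ← h2]
  ring

private theorem Edif_inv {f : ℂ → ℂ} {x w : ℂ} (hf : Edif_HD f x w) (h0 : f x ≠ 0) :
    Edif_HD (fun y => (f y)⁻¹) x (-w / f x ^ 2) := by
  obtain ⟨S, hS, h1⟩ := hf
  have h2 : HasFDerivAt (fun z : ℂ => z⁻¹)
      ((ContinuousLinearMap.toSpanSingleton ℂ (-((f x) ^ 2)⁻¹)).restrictScalars ℝ) (f x) :=
    ((hasDerivAt_inv h0).hasFDerivAt).restrictScalars ℝ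
  refine ⟨_, h2.comp x hS, ?_⟩
  simp only [ContinuousLinearMap.comp_apply, ContinuousLinearMap.coe_restrictScalars',
    ContinuousLinearMap.toSpanSingleton_apply, smul_eq_mul]
  rw [← h1]
  field_simp
  ring

private theorem Edif_congr {f g : ℂ → ℂ} {x w w' : ℂ} (h : Edif_HD f x w) (hf : f = g)
    (hw : w = w') : Edif_HD g x w' := by
  rw [← hf, ← hw]
  exact h

/-- the sum of the `W^i p^(m-i)` -/
private def Edif_A (W p : ℂ) : ℕ → ℂ
  | 0 => 1
  | m + 1 => p * Edif_A W p m + W ^ (m + 1)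

/-- its derivative -/
private def Edif_B (W p : ℂ) : ℕ → ℂ
  | 0 => 0
  | m + 1 => p * Edif_B W p m + (m + 1) * W ^ m

private theorem Edif_A_eq (W p : ℂ) (m : ℕ) :
    ∑ i : Fin (m + 1), W ^ (i : ℕ) * p ^ (m - i) = Edif_A W p m := by
  induction m with
  | zero => simp [Edif_A]
  | succ m ih =>
    rw [Fin.sum_univ_castSucc]
    simp only [Fin.val_castSucc, Fin.val_last, Nat.sub_self, pow_zero, mul_one]
    rw [Edif_A, ← ih, Finset.mul_sum]
    congr 1
    refine Finset.sum_congr rfl fun i _ => ?_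
    have h : m + 1 - (i : ℕ) = (m - i) + 1 := by
      have := i.2
      omega
    rw [h, pow_succ]
    ring

private theorem Edif_AB (W p : ℂ) (m : ℕ) :
    Edif_A W p m + (W - p) * Edif_B W p m = (m + 1) * W ^ m := by
  induction m with
  | zero => simp [Edif_A, Edif_B]
  | succ m ih =>
    rw [Edif_A, Edif_B]
    push_cast
    linear_combination p * ih

private theorem Edif_pow {f : ℂ → ℂ} {x w : ℂ} (hf : Edif_HD f x w) (n : ℕ) :
    Edif_HD (fun y => f y ^ (n + 1)) x ((n + 1) * f x ^ n * w) := by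
  induction n with
  | zero => exact Edif_congr hf (by funext y; simp) (by simp)
  | succ n ih =>
    refine Edif_congr (Edif_mul ih hf) (by funext y; rw [← pow_succ]) ?_
    push_cast
    ring

private theorem Edif_Ad {f g : ℂ → ℂ} {x w : ℂ} (hf : Edif_HD f x w) (hg : Edif_HD g x 0)
    (m : ℕ) : Edif_HD (fun y => Edif_A (f y) (g y) m) x (w * Edif_B (f x) (g x) m) := by
  induction m with
  | zero => exact Edif_congr (Edif_const 1 x) rfl (by simp [Edif_B])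
  | succ m ih =>
    refine Edif_congr (Edif_add (Edif_mul hg ih) (Edif_pow hf m)) rfl ?_
    rw [Edif_B]
    ring

private theorem Edif_lf (m : ℕ) (s s' : Fin 2 → ℂ) (i : Fin (m + 1)) (v : Fin 2 → ℂ) :
    evm m (lf m s s' i) v = CG.om s' v ^ (i : ℕ) * CG.om s v ^ (m - i) := by
  have h1 := hev_sbp (RingHom.id ℂ) m i (Nat.lt_succ_iff.1 i.2)
    !![-s' 1, s' 0; -s 1, s 0] (v 0) (v 1)
  rw [hev_fin] at h1
  simp only [RingHom.id_apply] at h1
  have h2 : evm m (lf m s s' i) v = ∑ k : Fin (m + 1),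
      (sbp m !![-s' 1, s' 0; -s 1, s 0] i).coeff k * (v 0 ^ (k : ℕ) * v 1 ^ (m - k)) := rfl
  rw [h2, h1]
  have h3 : (!![-s' 1, s' 0; -s 1, s 0] : Matrix (Fin 2) (Fin 2) ℂ) 0 0 * v 0 +
      (!![-s' 1, s' 0; -s 1, s 0] : Matrix (Fin 2) (Fin 2) ℂ) 0 1 * v 1 = CG.om s' v := by
    show -s' 1 * v 0 + s' 0 * v 1 = s' 0 * v 1 - s' 1 * v 0
    ring
  have h4 : (!![-s' 1, s' 0; -s 1, s 0] : Matrix (Fin 2) (Fin 2) ℂ) 1 0 * v 0 +
      (!![-s' 1, s' 0; -s 1, s 0] : Matrix (Fin 2) (Fin 2) ℂ) 1 1 * v 1 = CG.om s v := by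
    show -s 1 * v 0 + s 0 * v 1 = s 0 * v 1 - s 1 * v 0
    ring
  rw [h3, h4]

private theorem Edif_sum {ι : Type} (t : Finset ι) (m : ℕ) (P : ι → Fin (m + 1) → ℂ)
    (v : Fin 2 → ℂ) : evm m (∑ i ∈ t, P i) v = ∑ i ∈ t, evm m (P i) v := by
  unfold evm
  rw [Finset.sum_comm]
  refine Finset.sum_congr rfl fun k _ => ?_
  rw [Finset.sum_apply, Finset.sum_mul]

private theorem Edif_val (m : ℕ) (s s' v : Fin 2 → ℂ) : evm m (Om m s s') v =
    CG.om s' s / ((m : ℂ) + 1) * Edif_A (CG.om s' v) (CG.om s v) m := by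
  unfold Om
  rw [evm_csmul, Edif_sum, ← Edif_A_eq]
  congr 1
  exact Finset.sum_congr rfl fun i _ => Edif_lf m s s' i v

/-- the complex number `|e₀ - x e₁|² + |e₁|²` -/
private def Edif_D (e : Fin 2 → ℂ) (x : ℂ) : ℂ :=
  (e 0 - x * e 1) * conj (e 0 - x * e 1) + e 1 * conj (e 1)

private theorem Edif_Deq (e : Fin 2 → ℂ) (x : ℂ) :
    ((‖e 0 - x * e 1‖ ^ 2 + ‖e 1‖ ^ 2 : ℝ) : ℂ) = Edif_D e x := by
  unfold Edif_D
  rw [Complex.mul_conj, Complex.mul_conj, Complex.normSq_eq_norm_sq, Complex.normSq_eq_norm_sq]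
  push_cast
  ring

private theorem Edif_D0 (e : Fin 2 → ℂ) (he : e ≠ 0) (x : ℂ) : Edif_D e x ≠ 0 := by
  rw [← Edif_Deq]
  intro h
  have h1 : ‖e 0 - x * e 1‖ ^ 2 + ‖e 1‖ ^ 2 = 0 := by exact_mod_cast h
  have h2 : ‖e 1‖ = 0 := by
    nlinarith [sq_nonneg ‖e 0 - x * e 1‖, sq_nonneg ‖e 1‖]
  have h3 : ‖e 0 - x * e 1‖ = 0 := by
    nlinarith [sq_nonneg ‖e 0 - x * e 1‖, sq_nonneg ‖e 1‖]
  have h4 := norm_eq_zero.1 h2
  have h5 := norm_eq_zero.1 h3
  rw [h4, mul_zero, sub_zero] at h5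
  apply he
  funext i
  fin_cases i
  · exact h5
  · exact h4

private theorem Edif_c0 (x : ℂ) : colG (eU x : SL2 ℂ) 0 = ![1, 0] := by
  funext i
  fin_cases i <;> rfl

private theorem Edif_c1 (x : ℂ) : colG (eU x : SL2 ℂ) 1 = ![x, 1] := by
  funext i
  fin_cases i <;> rfl

private theorem Edif_o0 (e : Fin 2 → ℂ) : CG.om e ![1, 0] = -e 1 := by
  show e 0 * 0 - e 1 * 1 = -e 1
  ring

private theorem Edif_o1 (e : Fin 2 → ℂ) (x : ℂ) : CG.om e ![x, 1] = e 0 - x * e 1 := by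
  show e 0 * 1 - e 1 * x = _
  ring

private theorem Edif_s (e : Fin 2 → ℂ) (x : ℂ) : sE e (eU x) =
    ![(Edif_D e x)⁻¹ * (-conj (e 1) + conj (e 0 - x * e 1) * x),
      (Edif_D e x)⁻¹ * conj (e 0 - x * e 1)] := by
  unfold sE nE
  rw [Edif_c0, Edif_c1, Edif_o0, Edif_o1, norm_neg, add_comm (‖e 1‖ ^ 2), Edif_Deq]
  funext i
  fin_cases i
  · show (Edif_D e x)⁻¹ * (conj (-e 1) * 1 + conj (e 0 - x * e 1) * x) =
      (Edif_D e x)⁻¹ * (-conj (e 1) + conj (e 0 - x * e 1) * x)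
    rw [map_neg, mul_one]
  · show (Edif_D e x)⁻¹ * (conj (-e 1) * 0 + conj (e 0 - x * e 1) * 1) =
      (Edif_D e x)⁻¹ * conj (e 0 - x * e 1)
    ring

/-- PIECE NL Edif -/
theorem p_Edif : E_dif := by
  intro m e hev he
  set s : Fin 2 → ℂ := sE e 1 with hs
  have hes : e 0 * s 1 - e 1 * s 0 = 1 := (p_Lalg.1 e 1 he).2
  have hSx : Sx m e = fun x => ((Edif_D e x)⁻¹ *
      ((-conj (e 1) + conj (e 0 - x * e 1) * x) * s 1 - conj (e 0 - x * e 1) * s 0)) *
        ((m : ℂ) + 1)⁻¹ * Edif_A (-conj (e 1) * (Edif_D e x)⁻¹) (s 0 - x * s 1) m := by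
    funext x
    unfold Sx OmE
    rw [Edif_val, Edif_s, ← hs]
    have h1 : CG.om ![(Edif_D e x)⁻¹ * (-conj (e 1) + conj (e 0 - x * e 1) * x),
      (Edif_D e x)⁻¹ * conj (e 0 - x * e 1)] s = (Edif_D e x)⁻¹ *
      ((-conj (e 1) + conj (e 0 - x * e 1) * x) * s 1 - conj (e 0 - x * e 1) * s 0) := by
      show (Edif_D e x)⁻¹ * (-conj (e 1) + conj (e 0 - x * e 1) * x) * s 1 -
        (Edif_D e x)⁻¹ * conj (e 0 - x * e 1) * s 0 = _
      ring
    have h2 : CG.om ![(Edif_D e x)⁻¹ * (-conj (e 1) + conj (e 0 - x * e 1) * x),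
      (Edif_D e x)⁻¹ * conj (e 0 - x * e 1)] ![x, 1] = -conj (e 1) * (Edif_D e x)⁻¹ := by
      show (Edif_D e x)⁻¹ * (-conj (e 1) + conj (e 0 - x * e 1) * x) * 1 -
        (Edif_D e x)⁻¹ * conj (e 0 - x * e 1) * x = _
      ring
    rw [h1, h2, Edif_o1, div_eq_mul_inv]
  have key : ∀ x, Edif_HD (Sx m e) x (-2 * Complex.I * Jd m e x) := by
    intro x
    have hD0 := Edif_D0 e he x
    have hL : Edif_HD (fun x => e 0 - x * e 1) x 0 :=
      Edif_congr (Edif_add (Edif_const (e 0) x) (Edif_mul (Edif_id x) (Edif_const (-e 1) x)))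
        (by funext y; ring) (by ring)
    have hLc : Edif_HD (fun x => conj (e 0 - x * e 1)) x (-2 * Complex.I * conj (e 1)) :=
      Edif_congr (Edif_add (Edif_const (conj (e 0)) x)
        (Edif_mul (Edif_conj x) (Edif_const (-conj (e 1)) x)))
        (by funext y; rw [map_sub, map_mul]; ring) (by ring)
    have hD : Edif_HD (Edif_D e) x ((e 0 - x * e 1) * (-2 * Complex.I * conj (e 1))) :=
      Edif_congr (Edif_add (Edif_mul hL hLc) (Edif_const (e 1 * conj (e 1)) x)) rfl (by ring)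
    have hDi := Edif_inv hD hD0
    have hp : Edif_HD (fun x => s 0 - x * s 1) x 0 :=
      Edif_congr (Edif_add (Edif_const (s 0) x) (Edif_mul (Edif_id x) (Edif_const (-s 1) x)))
        (by funext y; ring) (by ring)
    have hN : Edif_HD (fun x => (-conj (e 1) + conj (e 0 - x * e 1) * x) * s 1 -
        conj (e 0 - x * e 1) * s 0) x (2 * Complex.I * conj (e 1) * (s 0 - x * s 1)) :=
      Edif_congr (Edif_add (Edif_mul (Edif_add (Edif_const (-conj (e 1)) x)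
        (Edif_mul hLc (Edif_id x))) (Edif_const (s 1) x)) (Edif_mul hLc (Edif_const (-s 0) x)))
        (by funext y; ring) (by ring)
    have hW := Edif_mul (Edif_const (-conj (e 1)) x) hDi
    have hz := Edif_mul (Edif_mul hDi hN) (Edif_const ((m : ℂ) + 1)⁻¹ x)
    have hA := Edif_Ad hW hp m
    have hT := Edif_mul hz hA
    rw [hSx]
    refine Edif_congr hT rfl ?_
    have hAB := Edif_AB (-conj (e 1) * (Edif_D e x)⁻¹) (s 0 - x * s 1) m
    unfold Jd
    rw [Edif_Deq]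
    have hm : (m : ℂ) + 1 ≠ 0 := Nat.cast_add_one_ne_zero m
    have hq : Edif_D e x * (s 0 - x * s 1) + (e 0 - x * e 1) *
        ((-conj (e 1) + conj (e 0 - x * e 1) * x) * s 1 - conj (e 0 - x * e 1) * s 0) =
        -conj (e 1) := by
      unfold Edif_D
      linear_combination (-conj (e 1)) * hes
    set D := Edif_D e x
    set N := (-conj (e 1) + conj (e 0 - x * e 1) * x) * s 1 - conj (e 0 - x * e 1) * s 0
    set p := s 0 - x * s 1
    set L := e 0 - x * e 1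
    set c := conj (e 1)
    set A := Edif_A (-c * D⁻¹) p m
    set B := Edif_B (-c * D⁻¹) p m
    have hWp : -c * D⁻¹ - p = N * L * D⁻¹ := by
      field_simp
      linear_combination (-1 : ℂ) * hq
    rw [hWp] at hAB
    have h1 : (-c * D⁻¹) ^ m = (c / D) ^ m := by
      rw [show -c * D⁻¹ = -(c / D) by rw [div_eq_mul_inv]; ring, hev.neg_pow]
    rw [h1] at hAB
    have h3 : (c / D) ^ (m + 2) = (c / D) ^ m * (c ^ 2 * D⁻¹ ^ 2) := by
      rw [pow_add]
      congr 1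
      rw [div_eq_mul_inv]
      ring
    rw [h3]
    have h4 : (c / D) ^ m = ((m : ℂ) + 1)⁻¹ * (A + N * L * D⁻¹ * B) := by
      rw [hAB]
      field_simp
    rw [h4]
    have h5 : p = D⁻¹ * (-c - N * L) := by
      field_simp
      linear_combination hq
    simp only [mul_zero, zero_add, add_zero, zero_mul]
    have hDD : D * D⁻¹ = 1 := mul_inv_cancel₀ hD0
    rw [h5]
    field_simp
    ring
  choose S' hS' using key
  refine ⟨S', fun x => (hS' x).1, fun x => (hS' x).2, ?_⟩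
  unfold Jd
  refine Continuous.pow (Continuous.div continuous_const ?_ fun x => ?_) _
  · fun_prop
  · rw [Edif_Deq]
    exact Edif_D0 e he x

end

end Pool.Agent.F8.NL
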