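import Pool.Agent.Lib.MP_305fdd_al.F8.NL.StmE

set_option autoImplicit false

namespace Pool.Agent.F8.NL

open Pool.Agent.F8.CG Pool.Agent.F8.BG Pool.Agent.MP_305fdd_al Pool.Agent.Lib.MP_305fdd_al
  Pool.Agent.F8
open scoped QuadraticAlgebra ComplexConjugate

noncomputable section

private theorem Ejsm_D (e : Fin 2 → ℂ) (x : ℂ) (R : ℝ) (hR : 0 ≤ R) (hx : ‖x‖ ≤ R) :
    ‖e‖ ^ 2 ≤ 2 * (1 + R ^ 2) * (‖e 0 - x * e 1‖ ^ 2 + ‖e 1‖ ^ 2) := by
  set p := ‖e 0 - x * e 1‖ with hp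
  set q := ‖e 1‖ with hq
  have hp0 : 0 ≤ p := norm_nonneg _
  have hq0 : 0 ≤ q := norm_nonneg _
  have h0 : ‖e 0‖ ≤ p + R * q := by
    calc ‖e 0‖ = ‖(e 0 - x * e 1) + x * e 1‖ := by ring_nf
      _ ≤ p + ‖x * e 1‖ := norm_add_le _ _
      _ ≤ p + R * q := by
          rw [norm_mul]
          have := mul_le_mul_of_nonneg_right hx hq0
          linarith
  have h1 : ‖e‖ ≤ Real.sqrt (2 * (1 + R ^ 2) * (p ^ 2 + q ^ 2)) := by
    refine (pi_norm_le_iff_of_nonneg (Real.sqrt_nonneg _)).2 fun k => ?_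
    fin_cases k
    · show ‖e 0‖ ≤ _
      refine Real.le_sqrt_of_sq_le ?_
      have h2 : ‖e 0‖ ^ 2 ≤ (p + R * q) ^ 2 := pow_le_pow_left₀ (norm_nonneg _) h0 2
      nlinarith [sq_nonneg (p - R * q), sq_nonneg (R * p), sq_nonneg q, sq_nonneg p]
    · show ‖e 1‖ ≤ _
      refine Real.le_sqrt_of_sq_le ?_
      rw [← hq]
      nlinarith [sq_nonneg (R * p), sq_nonneg (R * q), sq_nonneg q, sq_nonneg p]
  have h2 : ‖e‖ ^ 2 ≤ Real.sqrt (2 * (1 + R ^ 2) * (p ^ 2 + q ^ 2)) ^ 2 :=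
    pow_le_pow_left₀ (norm_nonneg _) h1 2
  rwa [Real.sq_sqrt (by positivity)] at h2

private theorem Ejsm_Jd (m : ℕ) (e : Fin 2 → ℂ) (he : e ≠ 0) (x : ℂ) (R : ℝ) (hR : 0 ≤ R)
    (hx : ‖x‖ ≤ R) : ‖Jd m e x‖ ≤ (2 * (1 + R ^ 2)) ^ (m + 2) * (‖e‖ ^ (m + 2))⁻¹ := by
  have hn : 0 < ‖e‖ := norm_pos_iff.2 he
  have hD := Ejsm_D e x R hR hx
  set D : ℝ := ‖e 0 - x * e 1‖ ^ 2 + ‖e 1‖ ^ 2 with hDd
  have hc : 0 < 2 * (1 + R ^ 2) := by positivity
  have hD0 : 0 < D := by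
    by_contra h
    have h2 : 0 < ‖e‖ ^ 2 := by positivity
    nlinarith [not_lt.1 h]
  have h1 : ‖conj (e 1) / ((D : ℝ) : ℂ)‖ ≤ 2 * (1 + R ^ 2) / ‖e‖ := by
    rw [norm_div, Complex.norm_conj, Complex.norm_real, Real.norm_of_nonneg hD0.le,
      div_le_div_iff₀ hD0 hn]
    calc ‖e 1‖ * ‖e‖ ≤ ‖e‖ * ‖e‖ := mul_le_mul_of_nonneg_right (norm_le_pi_norm e 1) hn.le
      _ = ‖e‖ ^ 2 := by ring
      _ ≤ _ := hD
  unfold Jd
  rw [norm_pow, ← hDd]
  refine (pow_le_pow_left₀ (norm_nonneg _) h1 _).trans (le_of_eq ?_)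
  rw [div_pow, div_eq_mul_inv]

private theorem Ejsm_Jn (a b : ℤ) (m N : ℕ) (e : Fin 2 → Qf a b ℤ) (he : vC a b e ≠ 0) :
    ‖Jn a b m N e‖ ≤ ((2 * (1 + (N + N * sD a b) ^ 2)) ^ (m + 2) * (N * sD a b) * N) *
      (‖vC a b e‖ ^ (m + 2))⁻¹ := by
  have hs : 0 ≤ sD a b := Real.sqrt_nonneg _
  have hN : (0 : ℝ) ≤ N := Nat.cast_nonneg _
  have hB : 0 ≤ (N : ℝ) * sD a b := mul_nonneg hN hs
  set M : ℝ := (2 * (1 + (N + N * sD a b) ^ 2)) ^ (m + 2) * (‖vC a b e‖ ^ (m + 2))⁻¹ with hM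
  unfold Jn
  have h1 : ∀ s ∈ Set.uIoc (0 : ℝ) N,
      ‖∫ r in (0 : ℝ)..(N * sD a b), Jd m (vC a b e) (s + r * Complex.I)‖ ≤
        M * (N * sD a b) := by
    intro s hs'
    rw [Set.uIoc_of_le hN] at hs'
    have h2 : ∀ r ∈ Set.uIoc (0 : ℝ) (N * sD a b),
        ‖Jd m (vC a b e) (s + r * Complex.I)‖ ≤ M := by
      intro r hr
      rw [Set.uIoc_of_le hB] at hr
      refine Ejsm_Jd m _ he _ _ (by positivity) ?_
      refine (norm_add_le _ _).trans ?_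
      rw [norm_mul, Complex.norm_I, mul_one, Complex.norm_real, Complex.norm_real,
        Real.norm_of_nonneg hs'.1.le, Real.norm_of_nonneg hr.1.le]
      exact add_le_add hs'.2 hr.2
    have h3 := intervalIntegral.norm_integral_le_of_norm_le_const h2
    rwa [sub_zero, abs_of_nonneg hB] at h3
  have h4 := intervalIntegral.norm_integral_le_of_norm_le_const h1
  rw [sub_zero, abs_of_nonneg hN] at h4
  refine h4.trans (le_of_eq ?_)
  rw [hM]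
  ring

theorem p_Ejsm (hbd : E_bd) (hsm : E_sm) : E_jsm := by
  obtain ⟨hbO, hbU, hbG, hbv⟩ := hbd
  intro a b hab m hm
  obtain ⟨hge, hsum, -⟩ := hsm a b hab
  have hne : ∀ e : Fin 2 → Qf a b ℤ, Prm e → vC a b e ≠ 0 := by
    intro e he h0
    have he0 : e ≠ 0 := by
      rintro rfl
      obtain ⟨g, hg⟩ := he
      have hd := g.2
      rw [Matrix.det_fin_two] at hd
      have h00 : g.val 0 0 = 0 := congrFun hg 0
      have h10 : g.val 1 0 = 0 := congrFun hg 1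
      rw [h00, h10] at hd
      simp at hd
    have h1 := hge e he0
    rw [h0, norm_zero] at h1
    linarith
  refine ⟨fun N => ?_, fun R => ?_⟩
  · have h1 : Summable fun e : {e : Fin 2 → Qf a b ℤ // Prm e} =>
        ((2 * (1 + (N + N * sD a b) ^ 2)) ^ (m + 2) * (N * sD a b) * N) *
          (‖vC a b e‖ ^ (m + 2))⁻¹ :=
      ((hsum (m + 2) (by omega)).comp_injective Subtype.val_injective).mul_left _
    exact Summable.of_nonneg_of_le (fun _ => norm_nonneg _)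
      (fun e => Ejsm_Jn a b m N e.1 (hne e.1 e.2)) h1
  · obtain ⟨C1, hC1⟩ := hbO m
    obtain ⟨C2, hC2⟩ := hbU R
    obtain ⟨C3, hC3⟩ := hbG 1
    refine ⟨(m + 1) * (|C1| * (|C2| + |C3|) ^ (m + 2)) * (1 + |R|) ^ m, fun e he x hx => ?_⟩
    have hv := hne e he
    have hn : 0 < ‖vC a b e‖ := norm_pos_iff.2 hv
    have k1 : ‖sE (vC a b e) 1‖ ≤ |C3| / ‖vC a b e‖ :=
      (hC3 _ hv).trans (div_le_div_of_nonneg_right (le_abs_self _) hn.le)
    have k2 : ‖sE (vC a b e) (eU x)‖ ≤ |C2| / ‖vC a b e‖ :=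
      (hC2 _ x hv hx).trans (div_le_div_of_nonneg_right (le_abs_self _) hn.le)
    have k3 : ‖OmE m (vC a b e) 1 (eU x)‖ ≤
        (|C1| * (|C2| + |C3|) ^ (m + 2)) * (‖vC a b e‖ ^ (m + 2))⁻¹ := by
      refine (hC1 _ _).trans ?_
      have k4 : ‖sE (vC a b e) 1‖ + ‖sE (vC a b e) (eU x)‖ ≤ (|C2| + |C3|) / ‖vC a b e‖ := by
        rw [add_div]
        linarith
      have k5 := pow_le_pow_left₀ (by positivity) k4 (m + 2)
      calc C1 * (‖sE (vC a b e) 1‖ + ‖sE (vC a b e) (eU x)‖) ^ (m + 2)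
          ≤ |C1| * (‖sE (vC a b e) 1‖ + ‖sE (vC a b e) (eU x)‖) ^ (m + 2) :=
            mul_le_mul_of_nonneg_right (le_abs_self _) (by positivity)
        _ ≤ |C1| * ((|C2| + |C3|) / ‖vC a b e‖) ^ (m + 2) :=
            mul_le_mul_of_nonneg_left k5 (abs_nonneg _)
        _ = _ := by
            rw [div_pow, div_eq_mul_inv]
            ring
    have k6 : ‖(![x, 1] : Fin 2 → ℂ)‖ ≤ 1 + |R| := by
      have hR : ‖x‖ ≤ |R| := hx.trans (le_abs_self R)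
      refine (pi_norm_le_iff_of_nonneg (by positivity)).2 fun k => ?_
      fin_cases k
      · show ‖x‖ ≤ _
        linarith
      · show ‖(1 : ℂ)‖ ≤ _
        rw [norm_one]
        linarith [abs_nonneg R]
    have k7 := pow_le_pow_left₀ (norm_nonneg _) k6 m
    unfold Sx
    refine (hbv m _ _).trans ?_
    calc ((m : ℝ) + 1) * ‖OmE m (vC a b e) 1 (eU x)‖ * ‖(![x, 1] : Fin 2 → ℂ)‖ ^ m
        ≤ ((m : ℝ) + 1) * ((|C1| * (|C2| + |C3|) ^ (m + 2)) * (‖vC a b e‖ ^ (m + 2))⁻¹) *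
            (1 + |R|) ^ m := by
          refine mul_le_mul (mul_le_mul_of_nonneg_left k3 (by positivity)) k7 (by positivity)
            (by positivity)
      _ = _ := by ring

end

end Pool.Agent.F8.NL
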