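import Pool.Agent.Lib.MP_305fdd_al.F8.NL.StmE

/-!
# MP_305fdd_al, all lattices (project NL): the main result of block E
-/

set_option autoImplicit false

namespace Pool.Agent.F8.NL

open Pool.Agent.F8.CG Pool.Agent.F8.BG Pool.Agent.MP_305fdd_al Pool.Agent.Lib.MP_305fdd_al
  Pool.Agent.F8
open scoped QuadraticAlgebra ComplexConjugate

/-- the main result of block E -/
theorem p_Emain (hcoc : E_coc) (hbv : E_bv) (hrv : E_rv) (hjsm : E_jsm) : E_main := by
  intro a b hD _ _ m hm hev hun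
  have hm3 : 3 ≤ m := by omega
  refine ⟨fun N _ => (hjsm a b hD m hm3).1 N, ?_⟩
  intro W F hF hW hu
  refine ⟨Ez a b m F, hcoc a b hD m hm3 W F hF hW, ?_⟩
  intro N hN
  exact ⟨hbv a b hD m hm hev hun W F hF hW hu N hN, hrv a b hD m hm3 hev W F hF hW N hN⟩

end Pool.Agent.F8.NL
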