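import Pool.Agent.Lib.MP_305fdd_al.F8.NL.StmE

set_option autoImplicit false

namespace Pool.Agent.F8.NL

open Pool.Agent.F8.CG Pool.Agent.F8.BG Pool.Agent.MP_305fdd_al Pool.Agent.Lib.MP_305fdd_al
  Pool.Agent.F8
open scoped QuadraticAlgebra ComplexConjugate

noncomputable section

private theorem Eom_lf (m : ℕ) (s s' : Fin 2 → ℂ) (i : Fin (m + 1)) (v : Fin 2 → ℂ) :
    evm m (lf m s s' i) v = CG.om s' v ^ (i : ℕ) * CG.om s v ^ (m - i) := by
  have h1 := hev_sbp (RingHom.id ℂ) m i (Nat.lt_succ_iff.1 i.2)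
    !![-s' 1, s' 0; -s 1, s 0] (v 0) (v 1)
  rw [hev_fin] at h1
  simp only [RingHom.id_apply] at h1
  have h2 : evm m (lf m s s' i) v = ∑ k : Fin (m + 1),
      (sbp m !![-s' 1, s' 0; -s 1, s 0] i).coeff k * (v 0 ^ (k : ℕ) * v 1 ^ (m - k)) := rfl
  rw [h2, h1]
  have h3 : (!![-s' 1, s' 0; -s 1, s 0] : Matrix (Fin 2) (Fin 2) ℂ) 0 0 * v 0 +
      (!![-s' 1, s' 0; -s 1, s 0] : Matrix (Fin 2) (Fin 2) ℂ) 0 1 * v 1 = CG.om s' v := by
    show -s' 1 * v 0 + s' 0 * v 1 = s' 0 * v 1 - s' 1 * v 0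
    ring
  have h4 : (!![-s' 1, s' 0; -s 1, s 0] : Matrix (Fin 2) (Fin 2) ℂ) 1 0 * v 0 +
      (!![-s' 1, s' 0; -s 1, s 0] : Matrix (Fin 2) (Fin 2) ℂ) 1 1 * v 1 = CG.om s v := by
    show -s 1 * v 0 + s 0 * v 1 = s 0 * v 1 - s 1 * v 0
    ring
  rw [h3, h4]

private theorem Eom_sum {ι : Type} (t : Finset ι) (m : ℕ) (P : ι → Fin (m + 1) → ℂ)
    (v : Fin 2 → ℂ) : evm m (∑ i ∈ t, P i) v = ∑ i ∈ t, evm m (P i) v := by
  unfold evm
  rw [Finset.sum_comm]
  refine Finset.sum_congr rfl fun k _ => ?_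
  rw [Finset.sum_apply, Finset.sum_mul]

private theorem Eom_val (m : ℕ) (s s' v : Fin 2 → ℂ) : evm m (Om m s s') v =
    CG.om s' s / ((m : ℂ) + 1) *
      ∑ i : Fin (m + 1), CG.om s' v ^ (i : ℕ) * CG.om s v ^ (m - i) := by
  unfold Om
  rw [evm_csmul, Eom_sum]
  congr 1
  exact Finset.sum_congr rfl fun i _ => Eom_lf m s s' i v

private theorem Eom_ne (m : ℕ) : (m : ℂ) + 1 ≠ 0 := Nat.cast_add_one_ne_zero m

private theorem Eom_two (m : ℕ) (e s s' v : Fin 2 → ℂ) (h1 : CG.om e s = 1)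
    (h2 : CG.om e s' = 1) : ((m : ℂ) + 1) * CG.om e v * evm m (Om m s s') v =
      CG.om s' v ^ (m + 1) - CG.om s v ^ (m + 1) := by
  have h3 : CG.om s' v - CG.om s v = CG.om s' s * CG.om e v := by
    unfold CG.om at h1 h2 ⊢
    linear_combination (-(s' 0 * v 1 - s' 1 * v 0)) * h1 + (s 0 * v 1 - s 1 * v 0) * h2
  have h4 := geom_sum₂_mul (CG.om s' v) (CG.om s v) (m + 1)
  rw [Finset.sum_range] at h4
  simp only [Nat.add_sub_cancel] at h4
  rw [← h4, Eom_val, h3]
  field_simp [Eom_ne m]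

private theorem Eom_six (m : ℕ) (P Q : Fin (m + 1) → ℂ) (e : Fin 2 → ℂ) (he : e ≠ 0)
    (h : ∀ v, CG.om e v ≠ 0 → evm m P v = evm m Q v) : P = Q := by
  set p : Polynomial ℂ := ∑ i : Fin (m + 1), Polynomial.C (P i - Q i) * Polynomial.X ^ (i : ℕ)
    with hp
  have hfin : Set.Finite {x : ℂ | e 0 - e 1 * x = 0} := by
    refine Set.Subsingleton.finite fun x hx y hy => ?_
    have hx' : e 0 - e 1 * x = 0 := hx
    have hy' : e 0 - e 1 * y = 0 := hy
    have h3 : e 1 * (x - y) = 0 := by linear_combination hy' - hx'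
    rcases mul_eq_zero.1 h3 with h4 | h4
    · exfalso
      apply he
      funext i
      have h5 : e 0 = 0 := by
        rw [h4, zero_mul, sub_zero] at hx'
        exact hx'
      fin_cases i
      · exact h5
      · exact h4
    · exact sub_eq_zero.1 h4
  have hinf : Set.Infinite {x : ℂ | e 0 - e 1 * x = 0}ᶜ := hfin.infinite_compl
  have hp0 : p = 0 := by
    refine Polynomial.eq_zero_of_infinite_isRoot p (hinf.mono fun x hx => ?_)
    have hx' : CG.om e ![x, 1] ≠ 0 := by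
      intro h0
      apply hx
      have h1 : e 0 * (1 : ℂ) - e 1 * x = 0 := h0
      show e 0 - e 1 * x = 0
      linear_combination h1
    have h2 := h ![x, 1] hx'
    show Polynomial.eval x p = 0
    rw [hp, Polynomial.eval_finsetSum]
    have h3 : ∀ i : Fin (m + 1), Polynomial.eval x (Polynomial.C (P i - Q i) *
        Polynomial.X ^ (i : ℕ)) = P i * ((![x, 1] : Fin 2 → ℂ) 0 ^ (i : ℕ) *
          (![x, 1] : Fin 2 → ℂ) 1 ^ (m - i)) - Q i * ((![x, 1] : Fin 2 → ℂ) 0 ^ (i : ℕ) *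
          (![x, 1] : Fin 2 → ℂ) 1 ^ (m - i)) := by
      intro i
      simp only [Polynomial.eval_mul, Polynomial.eval_C, Polynomial.eval_pow, Polynomial.eval_X,
        Matrix.cons_val_zero, Matrix.cons_val_one, one_pow, mul_one]
      ring
    rw [Finset.sum_congr rfl fun i _ => h3 i, Finset.sum_sub_distrib]
    exact sub_eq_zero.2 h2
  funext i
  have h6 : p.coeff i = P i - Q i := by
    rw [hp, Polynomial.finsetSum_coeff]
    rw [Finset.sum_eq_single i]
    · rw [Polynomial.coeff_C_mul, Polynomial.coeff_X_pow, if_pos rfl, mul_one]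
    · intro j _ hj
      rw [Polynomial.coeff_C_mul, Polynomial.coeff_X_pow, if_neg, mul_zero]
      intro h7
      exact hj (Fin.ext h7.symm)
    · intro h7
      exact absurd (Finset.mem_univ i) h7
  rw [hp0, Polynomial.coeff_zero] at h6
  exact (sub_eq_zero.1 h6.symm)

private theorem Eom_ne0 (e s : Fin 2 → ℂ) (h : CG.om e s = 1) : e ≠ 0 := by
  intro h0
  rw [h0] at h
  simp [CG.om] at h

private theorem Eom_om (h : SL2 ℂ) (s v : Fin 2 → ℂ) :
    CG.om (h.val.mulVec s) v = CG.om s ((h⁻¹).val.mulVec v) := by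
  have h1 : (h⁻¹).val = !![h.val 1 1, -h.val 0 1; -h.val 1 0, h.val 0 0] := by
    have := Matrix.SpecialLinearGroup.coe_inv h
    rw [Matrix.adjugate_fin_two] at this
    exact this
  rw [h1]
  simp only [CG.om, Matrix.mulVec, dotProduct, Fin.sum_univ_two, Matrix.of_apply,
    Matrix.cons_val_zero, Matrix.cons_val_one, Matrix.cons_val', Matrix.cons_val_fin_one]
  ring

private theorem Eom_om2 (h : SL2 ℂ) (s s' : Fin 2 → ℂ) :
    CG.om (h.val.mulVec s') (h.val.mulVec s) = CG.om s' s := by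
  have hdet : h.val 0 0 * h.val 1 1 - h.val 0 1 * h.val 1 0 = 1 := by
    rw [← Matrix.det_fin_two]
    exact h.2
  simp only [CG.om, Matrix.mulVec, dotProduct, Fin.sum_univ_two]
  linear_combination (s' 0 * s 1 - s' 1 * s 0) * hdet

/-- [NL E om] the algebra of `Om`. -/
theorem p_Eom : E_om := by
  intro m
  refine ⟨fun s s' i v => Eom_lf m s s' i v, fun e s s' v h1 h2 => Eom_two m e s s' v h1 h2,
    ?_, ?_, ?_, fun P Q e he h => Eom_six m P Q e he h⟩
  · intro e s s' s'' h1 h2 h3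
    refine Eom_six m _ _ e (Eom_ne0 e s h1) fun v hv => ?_
    have h4 := Eom_two m e s s' v h1 h2
    have h5 := Eom_two m e s' s'' v h2 h3
    have h6 := Eom_two m e s s'' v h1 h3
    have hne : ((m : ℂ) + 1) * CG.om e v ≠ 0 := mul_ne_zero (Eom_ne m) hv
    apply mul_left_cancel₀ hne
    rw [evm_add, mul_add, h4, h5, h6]
    ring
  · intro h s s'
    refine Eom_six m _ _ ![1, 0] (fun h0 => ?_) fun v _ => ?_
    · have := congrFun h0 0
      simp at this
    · rw [evm_sm, Eom_val, Eom_val, Eom_om2, Eom_om, Eom_om]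
  · intro e s s' h1 h2
    have h3 : CG.om s' e = -1 := by
      unfold CG.om at h2 ⊢
      linear_combination -h2
    have h4 : CG.om s e = -1 := by
      unfold CG.om at h1 ⊢
      linear_combination -h1
    rw [Eom_val, h3, h4]
    have h5 : ∀ i : Fin (m + 1), (-1 : ℂ) ^ (i : ℕ) * (-1) ^ (m - i) = (-1) ^ m := by
      intro i
      rw [← pow_add]
      congr 1
      have := i.2
      omega
    rw [Finset.sum_congr rfl fun i _ => h5 i, Finset.sum_const, Finset.card_univ,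
      Fintype.card_fin, nsmul_eq_mul]
    push_cast
    field_simp [Eom_ne m]

end

end Pool.Agent.F8.NL
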