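import Pool.Agent.Lib.MP_305fdd_al.F8.NL.StmE
import Pool.Agent.Lib.MP_305fdd_al.F8.CG.P_Lalg

/-!
# MP_305fdd_al, lattices commensurable with `SL₂(ℤ[w])`: piece Erv, the number `r` of the Eisenstein series (helper20)
-/

set_option autoImplicit false

namespace Pool.Agent.F8.NL

open Pool.Agent.F8.CG Pool.Agent.F8.BG Pool.Agent.MP_305fdd_al Pool.Agent.Lib.MP_305fdd_al
  Pool.Agent.F8
open scoped QuadraticAlgebra ComplexConjugate

noncomputable section

/-! ### The term of one vector -/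

private theorem Erv_c0 (x : ℂ) : colG (eU x) 0 = ![1, 0] := by
  funext i
  fin_cases i <;> rfl

private theorem Erv_c1 (x : ℂ) : colG (eU x) 1 = ![x, 1] := by
  funext i
  fin_cases i <;> rfl

private theorem Erv_sum (m : ℕ) {ι : Type} (s : Finset ι) (P : ι → Fin (m + 1) → ℂ)
    (v : Fin 2 → ℂ) : evm m (∑ i ∈ s, P i) v = ∑ i ∈ s, evm m (P i) v := by
  unfold evm
  rw [Finset.sum_comm]
  refine Finset.sum_congr rfl fun j _ => ?_
  rw [Finset.sum_apply, Finset.sum_mul]

private theorem Erv_om {X : Type} [TopologicalSpace X] {f g : X → Fin 2 → ℂ} (hf : Continuous f)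
    (hg : Continuous g) : Continuous fun x => CG.om (f x) (g x) := by
  unfold CG.om
  have h1 : ∀ i, Continuous fun x => f x i := fun i => (continuous_apply i).comp hf
  have h2 : ∀ i, Continuous fun x => g x i := fun i => (continuous_apply i).comp hg
  exact ((h1 0).mul (h2 1)).sub ((h1 1).mul (h2 0))

private theorem Erv_col : Continuous fun x : ℂ => (![x, 1] : Fin 2 → ℂ) := by
  refine continuous_pi fun i => ?_
  fin_cases i
  · exact continuous_id
  · exact continuous_const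

private theorem Erv_sE {e : Fin 2 → ℂ} (he : e ≠ 0) : Continuous fun x : ℂ => sE e (eU x) := by
  have hn : Continuous fun x : ℂ => nE e (eU x) := by
    unfold nE
    simp only [Erv_c0, Erv_c1]
    exact (continuous_const).add ((Erv_om continuous_const Erv_col).norm.pow 2)
  unfold sE
  simp only [Erv_c0, Erv_c1]
  have h1 : Continuous fun x : ℂ => (((nE e (eU x) : ℝ) : ℂ))⁻¹ := by
    refine Continuous.inv₀ (Complex.continuous_ofReal.comp hn) fun x => ?_
    exact Complex.ofReal_ne_zero.2 (CG.p_Lalg.1 e (eU x) he).1.ne'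
  have h2 : Continuous fun x : ℂ => conj (CG.om e ![x, 1]) :=
    Complex.continuous_conj.comp (Erv_om continuous_const Erv_col)
  have h3 : Continuous fun x : ℂ => conj (CG.om e ![x, 1]) • (![x, 1] : Fin 2 → ℂ) :=
    h2.smul Erv_col
  exact h1.smul (continuous_const.add h3)

private theorem Erv_cont (hom : E_om) (m : ℕ) {e : Fin 2 → ℂ} (he : e ≠ 0) :
    Continuous (Sx m e) := by
  have h : ∀ x, Sx m e x = CG.om (sE e (eU x)) (sE e 1) / ((m : ℂ) + 1) *
      ∑ i : Fin (m + 1), CG.om (sE e (eU x)) ![x, 1] ^ (i : ℕ) *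
        CG.om (sE e 1) ![x, 1] ^ (m - i) := by
    intro x
    unfold Sx OmE Om
    rw [evm_csmul, Erv_sum]
    congr 1
    exact Finset.sum_congr rfl fun i _ => (hom m).1 _ _ _ _
  rw [show Sx m e = fun x => _ from funext h]
  have h1 := Erv_sE he
  refine ((Erv_om h1 continuous_const).div_const _).mul (continuous_finsetSum _ fun i _ => ?_)
  exact ((Erv_om h1 Erv_col).pow _).mul ((Erv_om continuous_const Erv_col).pow _)

private theorem Erv_inv {R : Type} [CommRing R] {u v : SL2 R} (huv : u * v = 1) (e : Fin 2 → R) :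
    u.val.mulVec (v.val.mulVec e) = e := by
  rw [Matrix.mulVec_mulVec, ← Matrix.SpecialLinearGroup.coe_mul, huv,
    Matrix.SpecialLinearGroup.coe_one, Matrix.one_mulVec]

private theorem Erv_mvU (l x : ℂ) : (eU l : SL2 ℂ).val.mulVec ![x, 1] = ![x + l, 1] := by
  show (!![1, l; 0, 1] : Matrix (Fin 2) (Fin 2) ℂ).mulVec ![x, 1] = ![x + l, 1]
  funext i
  fin_cases i <;> simp [Matrix.mulVec, dotProduct, Fin.sum_univ_two]

private theorem Erv_shift (hom : E_om) (m : ℕ) {e e' : Fin 2 → ℂ} (he' : e' ≠ 0) (l x : ℂ)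
    (hee : e = (eU l : SL2 ℂ).val.mulVec e') :
    Sx m e (x + l) = evm m (OmE m e 1 (eU l)) ![x + l, 1] + Sx m e' x := by
  have he : e ≠ 0 := by
    rintro rfl
    apply he'
    rw [← Erv_inv (inv_mul_cancel (eU l : SL2 ℂ)) e', ← hee, Matrix.mulVec_zero]
  have h1 := fun g => (CG.p_Lalg.1 e g he).2
  have h2 : OmE m e 1 (eU (x + l)) = OmE m e 1 (eU l) + OmE m e (eU l) (eU (x + l)) :=
    ((hom m).2.2.1 e (sE e 1) (sE e (eU l)) (sE e (eU (x + l))) (h1 _) (h1 _) (h1 _)).symm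
  have h3 : OmE m e (eU l) (eU (x + l)) = (sm m (eU l)).mulVec (OmE m e' 1 (eU x)) := by
    unfold OmE
    rw [hee, show sE ((eU l : SL2 ℂ).val.mulVec e') (eU l) =
      (eU l : SL2 ℂ).val.mulVec (sE e' 1) by
        rw [← CG.p_Lalg.2.1, mul_one], show sE ((eU l : SL2 ℂ).val.mulVec e') (eU (x + l)) =
      (eU l : SL2 ℂ).val.mulVec (sE e' (eU x)) by
        rw [← CG.p_Lalg.2.1, ← eU_add, add_comm l x]]
    exact (hom m).2.2.2.1 _ _ _
  unfold Sx
  rw [h2, evm_add, h3, evm_sm, show ((eU l : SL2 ℂ)⁻¹).val.mulVec ![x + l, 1] = ![x, 1] by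
    rw [← Erv_mvU, Erv_inv (inv_mul_cancel (eU l : SL2 ℂ))]]

/-! ### Evaluation as a continuous linear map -/

private def Erv_ev (m : ℕ) (v : Fin 2 → ℂ) : (Fin (m + 1) → ℂ) →L[ℂ] ℂ :=
  LinearMap.toContinuousLinearMap
    { toFun := fun P => evm m P v
      map_add' := fun P Q => evm_add m P Q v
      map_smul' := fun c P => evm_csmul m c P v }

private theorem Erv_ev_apply (m : ℕ) (v : Fin 2 → ℂ) (P : Fin (m + 1) → ℂ) :
    Erv_ev m v P = evm m P v := rfl

/-! ### The ring -/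

private theorem Erv_inj {a b : ℤ} (h : b ^ 2 + 4 * a < 0) {z : Qf a b ℤ}
    (hz : iC a b z = 0) : z = 0 := by
  have h1 := wC_im h
  rw [iC_apply] at hz
  have h2 := congrArg Complex.im hz
  simp only [Complex.add_im, Complex.mul_im, Complex.intCast_im, Complex.intCast_re,
    zero_mul, add_zero, zero_add, Complex.zero_im] at h2
  have h3 : z.im = 0 := by
    rcases mul_eq_zero.1 h2 with h4 | h4
    · exact_mod_cast h4
    · exact absurd h4 h1.ne'
  rw [h3] at hz
  have h4 : z.re = 0 := by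
    simpa using hz
  ext
  · exact h4
  · exact h3

private theorem Erv_mv {a b : ℤ} (x : GQ a b) (e : Fin 2 → Qf a b ℤ) :
    vC a b (x.val.mulVec e) = (iG a b x).val.mulVec (vC a b e) := by
  funext i
  show iC a b (x.val.mulVec e i) = (x.val.map (iC a b)).mulVec (vC a b e) i
  rw [Matrix.mulVec, Matrix.mulVec, dotProduct, dotProduct, Fin.sum_univ_two, Fin.sum_univ_two,
    map_add, map_mul, map_mul]
  rfl

private theorem Erv_prm {a b : ℤ} (x : GQ a b) {e : Fin 2 → Qf a b ℤ} (he : Prm e) :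
    Prm (x.val.mulVec e) := by
  obtain ⟨g, rfl⟩ := he
  refine ⟨x * g, ?_⟩
  funext i
  show (x.val * g.val) i 0 = x.val.mulVec (fun j => g.val j 0) i
  rw [Matrix.mul_apply]
  rfl

private theorem Erv_ne {a b : ℤ} {e : Fin 2 → Qf a b ℤ} (he : Prm e) : e ≠ 0 := by
  obtain ⟨g, rfl⟩ := he
  intro h
  have h0 : g.val 0 0 = 0 := congrFun h 0
  have h1 : g.val 1 0 = 0 := congrFun h 1
  have h2 := g.2
  rw [Matrix.det_fin_two, h0, h1, zero_mul, mul_zero, sub_zero] at h2
  have h3 := congrArg QuadraticAlgebra.re h2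
  simp at h3

private theorem Erv_vne {a b : ℤ} (h : b ^ 2 + 4 * a < 0) {e : Fin 2 → Qf a b ℤ}
    (he : Prm e) : vC a b e ≠ 0 := by
  intro h1
  apply Erv_ne he
  funext i
  exact Erv_inj h (congrFun h1 i)

private def Erv_E {a b : ℤ} (x : GQ a b) : {e : Fin 2 → Qf a b ℤ // Prm e} ≃
    {e : Fin 2 → Qf a b ℤ // Prm e} where
  toFun e := ⟨x.val.mulVec e.1, Erv_prm x e.2⟩
  invFun e := ⟨(x⁻¹).val.mulVec e.1, Erv_prm _ e.2⟩
  left_inv _ := Subtype.ext (Erv_inv (inv_mul_cancel x) _)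
  right_inv _ := Subtype.ext (Erv_inv (mul_inv_cancel x) _)

private instance Erv_cnt {a b : ℤ} : Countable {e : Fin 2 → Qf a b ℤ // Prm e} := by
  have h : Countable (Qf a b ℤ) := by
    refine Function.Injective.countable (f := fun z : Qf a b ℤ => (z.re, z.im)) ?_
    intro x y hxy
    exact QuadraticAlgebra.ext (congrArg Prod.fst hxy) (congrArg Prod.snd hxy)
  infer_instance

/-! ### Integrals -/

/-- the boundary integral -/
private def Erv_Bd (A B : ℝ) (f : ℂ → ℂ) : ℂ :=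
  (∫ x in (0 : ℝ)..A, f x) - (∫ x in (0 : ℝ)..A, f (x + B * Complex.I)) +
    Complex.I * (∫ y in (0 : ℝ)..B, f (A + y * Complex.I)) -
    Complex.I * ∫ y in (0 : ℝ)..B, f (y * Complex.I)

private theorem Erv_int {ι : Type} [Countable ι] {f : ι → ℝ → ℂ} (hf : ∀ i, Continuous (f i))
    {S : ℝ → ℂ} {u : ι → ℝ} (hu : Summable u) {A : ℝ} (hA : 0 ≤ A)
    (hfu : ∀ i t, 0 ≤ t → t ≤ A → ‖f i t‖ ≤ u i) (hS : ∀ t, HasSum (fun i => f i t) (S t)) :
    HasSum (fun i => ∫ t in (0 : ℝ)..A, f i t) (∫ t in (0 : ℝ)..A, S t) := by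
  refine intervalIntegral.hasSum_integral_of_dominated_convergence (fun i _ => u i)
    (fun i => (hf i).aestronglyMeasurable) (fun i => ?_) ?_ ?_ ?_
  · refine Filter.Eventually.of_forall fun t ht => ?_
    rw [Set.uIoc_of_le hA] at ht
    exact hfu i t ht.1.le ht.2
  · exact Filter.Eventually.of_forall fun t _ => hu
  · exact intervalIntegrable_const
  · exact Filter.Eventually.of_forall fun t _ => hS t

private theorem Erv_l1 (B : ℂ) : Continuous fun x : ℝ => ((x : ℂ) + B) :=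
  Complex.continuous_ofReal.add continuous_const

private theorem Erv_l2 (A : ℂ) : Continuous fun y : ℝ => (A + (y : ℂ) * Complex.I) :=
  continuous_const.add (Complex.continuous_ofReal.mul continuous_const)

private theorem Erv_l3 : Continuous fun y : ℝ => ((y : ℂ) * Complex.I) :=
  Complex.continuous_ofReal.mul continuous_const

private theorem Erv_hs {ι : Type} [Countable ι] {f : ι → ℂ → ℂ} (hf : ∀ i, Continuous (f i))
    {S : ℂ → ℂ} {u : ι → ℝ} (hu : Summable u) {A B : ℝ} (hA : 0 ≤ A) (hB : 0 ≤ B)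
    (hfu : ∀ i x, ‖x‖ ≤ A + B → ‖f i x‖ ≤ u i) (hS : ∀ x, HasSum (fun i => f i x) (S x)) :
    HasSum (fun i => Erv_Bd A B (f i)) (Erv_Bd A B S) := by
  have hn : ∀ s t : ℝ, 0 ≤ s → s ≤ A → 0 ≤ t → t ≤ B → ‖(s : ℂ) + t * Complex.I‖ ≤ A + B := by
    intro s t hs hs' ht ht'
    refine (norm_add_le _ _).trans ?_
    rw [norm_mul, Complex.norm_I, mul_one, Complex.norm_real, Complex.norm_real,
      Real.norm_of_nonneg hs, Real.norm_of_nonneg ht]
    linarith
  have h1 := Erv_int (f := fun i (t : ℝ) => f i t) (fun i => (hf i).comp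
    Complex.continuous_ofReal) hu hA (fun i t ht ht' => hfu i t (by
      have := hn t 0 ht ht' le_rfl hB
      simpa using this)) (fun t => hS t)
  have h2 := Erv_int (f := fun i (t : ℝ) => f i (t + B * Complex.I)) (fun i => (hf i).comp
    (Erv_l1 _)) hu hA (fun i t ht ht' => hfu i _ (hn t B ht ht' hB le_rfl)) (fun t => hS _)
  have h3 := Erv_int (f := fun i (t : ℝ) => f i (A + t * Complex.I)) (fun i => (hf i).comp
    (Erv_l2 _)) hu hB (fun i t ht ht' => hfu i _ (hn A t hA le_rfl ht ht')) (fun t => hS _)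
  have h4 := Erv_int (f := fun i (t : ℝ) => f i (t * Complex.I)) (fun i => (hf i).comp
    Erv_l3) hu hB (fun i t ht ht' => hfu i _ (by
      have := hn 0 t le_rfl hA ht ht'
      simpa using this)) (fun t => hS _)
  exact ((h1.sub h2).add (h3.mul_left Complex.I)).sub (h4.mul_left Complex.I)

private theorem Erv_isub {f g : ℂ → ℂ} (hf : Continuous f) (hg : Continuous g) {h : ℝ → ℂ}
    (hh : Continuous h) (s t : ℝ) : (∫ x in s..t, (f (h x) - g (h x))) =
      (∫ x in s..t, f (h x)) - ∫ x in s..t, g (h x) :=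
  intervalIntegral.integral_sub ((hf.comp hh).intervalIntegrable _ _)
    ((hg.comp hh).intervalIntegrable _ _)

private theorem Erv_iadd {f : ℂ → ℂ} (hf : Continuous f) (p : ℂ) {h : ℝ → ℂ}
    (hh : Continuous h) (t : ℝ) : (∫ x in (0 : ℝ)..t, (f (h x) + p)) =
      (∫ x in (0 : ℝ)..t, f (h x)) + t * p := by
  have h1 : (∫ x in (0 : ℝ)..t, (f (h x) + p)) =
      (∫ x in (0 : ℝ)..t, f (h x)) + ∫ _x in (0 : ℝ)..t, p :=
    intervalIntegral.integral_add ((hf.comp hh).intervalIntegrable _ _) intervalIntegrable_const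
  rw [h1, intervalIntegral.integral_const, sub_zero]
  rfl

private theorem Erv_Bd_sub (A B : ℝ) {f g : ℂ → ℂ} (hf : Continuous f) (hg : Continuous g) :
    Erv_Bd A B (fun x => f x - g x) = Erv_Bd A B f - Erv_Bd A B g := by
  have e1 := Erv_isub hf hg Complex.continuous_ofReal 0 A
  have e2 := Erv_isub hf hg (Erv_l1 (B * Complex.I)) 0 A
  have e3 := Erv_isub hf hg (Erv_l2 A) 0 B
  have e4 := Erv_isub hf hg Erv_l3 0 B
  unfold Erv_Bd
  beta_reduce at e1 e2 e3 e4 ⊢
  rw [e1, e2, e3, e4]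
  ring

private theorem Erv_Bd_mul (A B : ℝ) (c : ℂ) (f : ℂ → ℂ) :
    Erv_Bd A B (fun x => c * f x) = c * Erv_Bd A B f := by
  unfold Erv_Bd
  simp only [intervalIntegral.integral_const_mul]
  ring

private theorem Erv_Bd_pol (A B : ℝ) (G : Polynomial ℂ) : Erv_Bd A B (fun x => G.eval x) = 0 := by
  have h := Complex.integral_boundary_rect_eq_zero_of_differentiableOn (fun x => G.eval x) 0
    ⟨A, B⟩ G.differentiable.differentiableOn
  unfold Erv_Bd
  simpa using h

/-- the boundary integral of a function with the periods `A` and `B i` up to constants -/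
private theorem Erv_Bd_per (A B : ℝ) {f : ℂ → ℂ} (hf : Continuous f) (p q : ℂ)
    (h1 : ∀ x, f (x + A) = f x + p) (h2 : ∀ x, f (x + B * Complex.I) = f x + q) :
    Erv_Bd A B f = -(A * q) + Complex.I * (B * p) := by
  unfold Erv_Bd
  have e1 : (∫ x in (0 : ℝ)..A, f (x + B * Complex.I)) = (∫ x in (0 : ℝ)..A, f x) + A * q := by
    simp only [h2]
    exact Erv_iadd hf q Complex.continuous_ofReal A
  have e2 : (∫ y in (0 : ℝ)..B, f (A + y * Complex.I)) =
      (∫ y in (0 : ℝ)..B, f (y * Complex.I)) + B * p := by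
    have h3 : ∀ y : ℝ, f (A + y * Complex.I) = f (y * Complex.I) + p := fun y => by
      rw [add_comm, h1]
    simp only [h3]
    exact Erv_iadd hf p Erv_l3 B
  rw [e1, e2]
  ring

/-! ### The Eisenstein series -/

section Main

variable {a b : ℤ} {m : ℕ} {F : (Fin 2 → Qf a b ℤ) → ℂ}

/-- the sum of the terms -/
private def Erv_S (a b : ℤ) (m : ℕ) (F : (Fin 2 → Qf a b ℤ) → ℂ) (x : ℂ) : ℂ :=
  ∑' e : {e : Fin 2 → Qf a b ℤ // Prm e}, F e * Sx m (vC a b e) x

private theorem Erv_bnd (h : b ^ 2 + 4 * a < 0) (hsm : E_sm) (hjsm : E_jsm) (hm : 3 ≤ m)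
    (hF : ∃ C : ℝ, ∀ e, ‖F e‖ ≤ C) (R : ℝ) :
    ∃ u : {e : Fin 2 → Qf a b ℤ // Prm e} → ℝ, Summable u ∧
    ∀ (e : {e : Fin 2 → Qf a b ℤ // Prm e}) (x : ℂ), ‖x‖ ≤ R → ‖F e * Sx m (vC a b e) x‖ ≤ u e := by
  obtain ⟨C, hC⟩ := hF
  obtain ⟨D, hD⟩ := (hjsm a b h m hm).2 R
  refine ⟨fun e => C * (D * (‖vC a b e‖ ^ (m + 2))⁻¹), ?_, fun e x hx => ?_⟩
  · have h1 := ((hsm a b h).2.1 (m + 2) (by omega)).comp_injective
      (Subtype.val_injective (p := fun e : Fin 2 → Qf a b ℤ => Prm e))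
    exact (h1.mul_left D).mul_left C
  · rw [norm_mul]
    have h1 := hD e.1 e.2 x hx
    exact mul_le_mul (hC _) h1 (norm_nonneg _) ((norm_nonneg _).trans (hC e.1))

private theorem Erv_hS (h : b ^ 2 + 4 * a < 0) (hsm : E_sm) (hjsm : E_jsm) (hm : 3 ≤ m)
    (hF : ∃ C : ℝ, ∀ e, ‖F e‖ ≤ C) (x : ℂ) :
    HasSum (fun e : {e : Fin 2 → Qf a b ℤ // Prm e} => F e * Sx m (vC a b e) x)
      (Erv_S a b m F x) := by
  obtain ⟨u, hu, hb⟩ := Erv_bnd h hsm hjsm hm hF ‖x‖
  exact (Summable.of_norm_bounded hu fun e => hb e x le_rfl).hasSum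

private theorem Erv_Sc (h : b ^ 2 + 4 * a < 0) (hom : E_om) (hsm : E_sm) (hjsm : E_jsm)
    (hm : 3 ≤ m) (hF : ∃ C : ℝ, ∀ e, ‖F e‖ ≤ C) : Continuous (Erv_S a b m F) := by
  refine continuous_iff_continuousAt.2 fun x => ?_
  obtain ⟨u, hu, hb⟩ := Erv_bnd h hsm hjsm hm hF (‖x‖ + 1)
  have h1 : ContinuousOn (Erv_S a b m F) (Metric.closedBall 0 (‖x‖ + 1)) := by
    refine continuousOn_tsum (fun e => ?_) hu fun e y hy => hb e y (by simpa using hy)
    exact (continuous_const.mul (Erv_cont hom m (Erv_vne h e.2))).continuousOn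
  refine h1.continuousAt (Metric.closedBall_mem_nhds_of_mem ?_)
  simp

private theorem Erv_Ss (h : b ^ 2 + 4 * a < 0) (hom : E_om) (hsm : E_sm) (hjsm : E_jsm)
    (hm : 3 ≤ m) (hF : ∃ C : ℝ, ∀ e, ‖F e‖ ≤ C) (s : Qf a b ℤ)
    (hs : ∀ e, Prm e → F ((eU s : GQ a b).val.mulVec e) = F e) (x : ℂ) :
    Erv_S a b m F (x + iC a b s) = Erv_S a b m F x +
      evm m (Ez a b m F (eU s)) ![x + iC a b s, 1] := by
  set l := iC a b s with hl
  have hg : iG a b (eU s) = eU l := eU_map (iC a b) s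
  have h1 : HasSum (fun e : {e : Fin 2 → Qf a b ℤ // Prm e} =>
      F e * evm m (OmE m (vC a b e) 1 (eU l)) ![x + l, 1])
      (evm m (Ez a b m F (eU s)) ![x + l, 1]) := by
    have h2 := (((hsm a b h).2.2 m hm F hF 1 (eU l)).hasSum.mapL (Erv_ev m ![x + l, 1]))
    have h2' : (fun e : {e : Fin 2 → Qf a b ℤ // Prm e} =>
        F e * evm m (OmE m (vC a b e) 1 (eU l)) ![x + l, 1]) =
        fun e : {e : Fin 2 → Qf a b ℤ // Prm e} => Erv_ev m ![x + l, 1] (F e • OmE m (vC a b e) 1 (eU l)) := by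
      funext e
      rw [Erv_ev_apply, evm_csmul]
    unfold Ez
    rw [hg, h2']
    exact h2
  have h3 := Erv_hS (F := F) h hsm hjsm hm hF x
  have h4 : HasSum (fun e : {e : Fin 2 → Qf a b ℤ // Prm e} =>
      F (Erv_E (eU s)⁻¹ e) * Sx m (vC a b (Erv_E (eU s)⁻¹ e)) x) (Erv_S a b m F x) :=
    (Erv_E (eU s)⁻¹).hasSum_iff.2 h3
  have h5 := h4.add h1
  refine (Erv_hS h hsm hjsm hm hF (x + l)).unique ?_
  have h6 : (fun e : {e : Fin 2 → Qf a b ℤ // Prm e} => F e * Sx m (vC a b e) (x + l)) =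
      fun e => F (Erv_E (eU s)⁻¹ e) * Sx m (vC a b (Erv_E (eU s)⁻¹ e)) x +
        F e * evm m (OmE m (vC a b e) 1 (eU l)) ![x + l, 1] := by
    funext e
    have e1 : (eU s : GQ a b).val.mulVec (Erv_E (eU s)⁻¹ e).1 = e.1 :=
      Erv_inv (mul_inv_cancel (eU s : GQ a b)) e.1
    have e2 : F (Erv_E (eU s)⁻¹ e).1 = F e.1 := by
      rw [← hs _ (Erv_E (eU s)⁻¹ e).2, e1]
    have e3 : vC a b e.1 = (eU l : SL2 ℂ).val.mulVec (vC a b (Erv_E (eU s)⁻¹ e).1) := by
      rw [← hg, ← Erv_mv, e1]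
    rw [e2, Erv_shift hom m (Erv_vne h (Erv_E (eU s)⁻¹ e).2) l x e3]
    ring
  rw [h6]
  exact h5

end Main

private theorem Erv_cw {a b : ℤ} (h : b ^ 2 + 4 * a < 0) :
    iC a b ⟨-b, 2⟩ = (sD a b : ℝ) * Complex.I := by
  rw [iC_apply, wC_eq h]
  show ((-b : ℤ) : ℂ) + ((2 : ℤ) : ℂ) * _ = _
  unfold sD
  push_cast
  ring

/-- PIECE NL Erv -/
theorem p_Erv (hom : E_om) (hsm : E_sm) (hcoc : E_coc) (hgrn : E_grn) (hjsm : E_jsm)
    (hdc : E_dc) : E_rv := by
  intro a b h m hm hev W F hF hW N hN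
  obtain ⟨G, r, hG⟩ := hdc a b h m W N hN (Ez a b m F) (hcoc a b h m hm W F hF hW)
  refine ⟨r, ⟨Polynomial.C (G.eval 0) - G.comp (-(Polynomial.C (N : ℂ) * Polynomial.X)),
    fun t => ?_⟩, ?_⟩
  · have h1 := hG t (-(N * iC a b t))
    rw [neg_add_cancel] at h1
    have h2 : evm m (Ez a b m F (eU ((N : Qf a b ℤ) * t))) ![0, 1] =
        Ez a b m F (eU ((N : Qf a b ℤ) * t)) 0 := by
      unfold evm
      rw [Finset.sum_eq_single 0]
      · simp
      · intro i _ hi
        have : (i : ℕ) ≠ 0 := fun hc => hi (Fin.ext hc)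
        simp [this]
      · intro hc
        exact absurd (Finset.mem_univ _) hc
    rw [h2] at h1
    rw [h1]
    simp only [Polynomial.eval_sub, Polynomial.eval_C, Polynomial.eval_comp, Polynomial.eval_neg,
      Polynomial.eval_mul, Polynomial.eval_X]
    rfl
  · -- the boundary integral
    have hsd : 0 ≤ sD a b := Real.sqrt_nonneg _
    have hW' : ∀ (t : Qf a b ℤ) (e), Prm e →
        F ((eU ((N : Qf a b ℤ) * t) : GQ a b).val.mulVec e) = F e := fun t e he =>
      hW _ (by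
        rw [eU_eq_tv]
        exact hN.2 _ t) e he
    have hS := Erv_Sc (F := F) h hom hsm hjsm hm hF
    have hper : ∀ (t : Qf a b ℤ) (x : ℂ), Erv_S a b m F (x + N * iC a b t) -
        G.eval (x + N * iC a b t) = Erv_S a b m F x - G.eval x + r * conj (iC a b t) := by
      intro t x
      have h1 := Erv_Ss h hom hsm hjsm hm hF ((N : Qf a b ℤ) * t) (hW' t) x
      rw [map_mul, map_natCast] at h1
      rw [h1, hG t x]
      ring
    have h1 : Erv_Bd N (N * sD a b : ℝ) (fun x => Erv_S a b m F x - G.eval x) =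
        2 * Complex.I * (((N * sD a b : ℝ) : ℂ) * r) := by
      rw [Erv_Bd_per N (N * sD a b : ℝ)
        (f := fun x => Erv_S a b m F x - G.eval x) (hS.sub G.continuous) r (-(r * (sD a b * Complex.I)))]
      · push_cast
        ring
      · intro x
        have h2 := hper 1 x
        rw [map_one, mul_one, map_one, mul_one] at h2
        exact_mod_cast h2
      · intro x
        have h2 := hper ⟨-b, 2⟩ x
        rw [Erv_cw h] at h2
        rw [map_mul, Complex.conj_I, Complex.conj_ofReal] at h2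
        have h3 : ((N * sD a b : ℝ) : ℂ) * Complex.I = N * (sD a b * Complex.I) := by
          push_cast
          ring
        rw [h3, h2]
        ring
    rw [Erv_Bd_sub _ _ hS G.continuous, Erv_Bd_pol, sub_zero] at h1
    obtain ⟨u, hu, hb⟩ := Erv_bnd (F := F) h hsm hjsm hm hF (N + N * sD a b)
    have h2 := Erv_hs (A := N) (B := N * sD a b)
      (f := fun (e : {e : Fin 2 → Qf a b ℤ // Prm e}) x => F e * Sx m (vC a b e) x) (fun e =>
      (continuous_const (y := F e)).mul (Erv_cont hom m (Erv_vne h e.2))) hu (by positivity)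
      (by positivity) hb (fun x => Erv_hS (F := F) h hsm hjsm hm hF x)
    have h3 : ∀ e : {e : Fin 2 → Qf a b ℤ // Prm e},
        Erv_Bd N (N * sD a b) (fun x => F e * Sx m (vC a b e) x) =
          (-2 * Complex.I) * (F e * Jn a b m N e) := by
      intro e
      rw [Erv_Bd_mul]
      have h4 := hgrn m (vC a b e) hev (Erv_vne h e.2) N (N * sD a b)
      have h5 : Erv_Bd N (N * sD a b) (Sx m (vC a b e)) = -2 * Complex.I * Jn a b m N e := h4
      rw [h5]
      ring
    have h4 : Summable fun e : {e : Fin 2 → Qf a b ℤ // Prm e} => F e * Jn a b m N e := by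
      obtain ⟨C, hC⟩ := hF
      refine Summable.of_norm_bounded (((hjsm a b h m hm).1 N).mul_left C) fun e => ?_
      rw [norm_mul]
      exact mul_le_mul_of_nonneg_right (hC _) (norm_nonneg _)
    beta_reduce at h2
    rw [show (fun e : {e : Fin 2 → Qf a b ℤ // Prm e} => Erv_Bd N (N * sD a b)
      (fun x => F e * Sx m (vC a b e) x)) = fun e : {e : Fin 2 → Qf a b ℤ // Prm e} =>
        (-2 * Complex.I) * (F e * Jn a b m N e) from funext h3] at h2
    have h5 := h2.unique (h4.hasSum.mul_left (-2 * Complex.I))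
    rw [h1] at h5
    have h6 : (2 * Complex.I) * (((N * sD a b : ℝ) : ℂ) * r +
        ∑' e : {e : Fin 2 → Qf a b ℤ // Prm e}, F e * Jn a b m N e) = 0 := by
      linear_combination h5
    have h7 : (2 * Complex.I : ℂ) ≠ 0 := by simp
    exact eq_neg_of_add_eq_zero_left ((mul_eq_zero.1 h6).resolve_left h7)

end

end Pool.Agent.F8.NL
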