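import Pool.Agent.Lib.MP_305fdd_al.F8.NL.StmE
import Pool.Agent.Lib.MP_305fdd_al.F8.CG.P_Llat

/-!
# [NL E sm] summability
-/

set_option autoImplicit false

namespace Pool.Agent.F8.NL

open Pool.Agent.F8.CG Pool.Agent.F8.BG Pool.Agent.MP_305fdd_al Pool.Agent.Lib.MP_305fdd_al
  Pool.Agent.F8
open scoped QuadraticAlgebra ComplexConjugate

noncomputable section

private theorem Esm_nq {a b : ℤ} (h : b ^ 2 + 4 * a < 0) (z : Qf a b ℤ) :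
    ‖iC a b z‖ ^ 2 = ((nq z : ℤ) : ℝ) := by
  have hD : (0 : ℝ) ≤ -((b ^ 2 + 4 * a : ℤ) : ℝ) := by
    have : ((b ^ 2 + 4 * a : ℤ) : ℝ) < 0 := by exact_mod_cast h
    linarith
  have hs := Real.sq_sqrt hD
  rw [← Complex.normSq_eq_norm_sq, iC_apply, wC_eq h]
  set s : ℝ := Real.sqrt (-((b ^ 2 + 4 * a : ℤ) : ℝ)) with hsdef
  have h1 : (z.re : ℂ) + (z.im : ℂ) * ((((b : ℝ) / 2 : ℝ) : ℂ) + ((s / 2 : ℝ) : ℂ) * Complex.I) =
      (((z.re : ℝ) + (z.im : ℝ) * b / 2 : ℝ) : ℂ) + (((z.im : ℝ) * s / 2 : ℝ) : ℂ) * Complex.I := by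
    push_cast
    ring
  rw [h1, Complex.normSq_add_mul_I]
  unfold nq
  push_cast at hs ⊢
  linear_combination ((z.im : ℝ) ^ 2 / 4) * hs

private theorem Esm_ge {a b : ℤ} (h : b ^ 2 + 4 * a < 0) {z : Qf a b ℤ} (hz : z ≠ 0) :
    1 ≤ ‖iC a b z‖ := by
  have h0 : nq z ≠ 0 := fun e => hz (nq_eq_zero h e)
  have h1 : 1 ≤ nq z := by
    have := nq_nonneg h z
    omega
  have h2 : (1 : ℝ) ≤ ‖iC a b z‖ ^ 2 := by
    rw [Esm_nq h]
    exact_mod_cast h1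
  nlinarith [norm_nonneg (iC a b z)]

private theorem Esm_vC {a b : ℤ} (h : b ^ 2 + 4 * a < 0) (e : Fin 2 → Qf a b ℤ) (he : e ≠ 0) :
    1 ≤ ‖vC a b e‖ := by
  obtain ⟨j, hj⟩ : ∃ j, e j ≠ 0 := by
    by_contra hc
    push Not at hc
    exact he (funext hc)
  exact (Esm_ge h hj).trans (norm_le_pi_norm (vC a b e) j)

private theorem Esm_prm {a b : ℤ} {e : Fin 2 → Qf a b ℤ} (he : Prm e) : e ≠ 0 := by
  obtain ⟨g, rfl⟩ := he
  intro h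
  have h0 : g.val 0 0 = 0 := congrFun h 0
  have h1 : g.val 1 0 = 0 := congrFun h 1
  have hd : g.val 0 0 * g.val 1 1 - g.val 0 1 * g.val 1 0 = 1 := by
    rw [← Matrix.det_fin_two]
    exact g.2
  rw [h0, h1] at hd
  have hd' : (0 : Qf a b ℤ) = 1 := by
    rw [← hd]
    ring
  have h2 := congrArg QuadraticAlgebra.re hd'
  simp at h2

private theorem Esm_sum {a b : ℤ} (h : b ^ 2 + 4 * a < 0) (k : ℕ) (hk : 5 ≤ k) :
    Summable fun e : Fin 2 → Qf a b ℤ => (‖vC a b e‖ ^ k)⁻¹ := by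
  refine Summable.of_nonneg_of_le (fun e => by positivity) (fun e => ?_) (p_Llat a b h).1
  by_cases he : e = 0
  · subst he
    have h0 : vC a b (0 : Fin 2 → Qf a b ℤ) = 0 := by
      funext i
      show iC a b 0 = 0
      rw [map_zero]
    rw [h0, norm_zero, zero_pow (by omega), zero_pow (by omega)]
  · have h1 := Esm_vC h e he
    exact inv_anti₀ (by positivity) (pow_le_pow_right₀ h1 hk)

/-- [NL E sm] summability. -/
theorem p_Esm (hbd : E_bd) : E_sm := by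
  intro a b h
  refine ⟨Esm_vC h, Esm_sum h, fun m hm F hF g g' => ?_⟩
  obtain ⟨CF, hCF⟩ := hF
  obtain ⟨C₁, hC₁⟩ := hbd.1 m
  obtain ⟨C₂, hC₂⟩ := hbd.2.2.1 g
  obtain ⟨C₃, hC₃⟩ := hbd.2.2.1 g'
  have hs : Summable fun e : {e : Fin 2 → Qf a b ℤ // Prm e} =>
      (|CF| * (|C₁| * (|C₂| + |C₃|) ^ (m + 2))) * (‖vC a b e.1‖ ^ (m + 2))⁻¹ :=
    ((Esm_sum h (m + 2) (by omega)).comp_injective
      (Subtype.val_injective (p := fun e => Prm e))).mul_left _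
  refine Summable.of_norm_bounded hs fun e => ?_
  have hv : vC a b e.1 ≠ 0 := by
    intro h0
    have h1 := Esm_vC h e.1 (Esm_prm e.2)
    rw [h0, norm_zero] at h1
    linarith
  have hn : 0 < ‖vC a b e.1‖ := norm_pos_iff.2 hv
  have h1 : ‖sE (vC a b e.1) g‖ + ‖sE (vC a b e.1) g'‖ ≤ (|C₂| + |C₃|) / ‖vC a b e.1‖ := by
    rw [add_div]
    exact add_le_add
      ((hC₂ _ hv).trans (div_le_div_of_nonneg_right (le_abs_self _) hn.le))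
      ((hC₃ _ hv).trans (div_le_div_of_nonneg_right (le_abs_self _) hn.le))
  have h2 : ‖OmE m (vC a b e.1) g g'‖ ≤
      |C₁| * (|C₂| + |C₃|) ^ (m + 2) * (‖vC a b e.1‖ ^ (m + 2))⁻¹ := by
    have h3 : 0 ≤ (‖sE (vC a b e.1) g‖ + ‖sE (vC a b e.1) g'‖) ^ (m + 2) := by positivity
    calc ‖OmE m (vC a b e.1) g g'‖
        ≤ C₁ * (‖sE (vC a b e.1) g‖ + ‖sE (vC a b e.1) g'‖) ^ (m + 2) := hC₁ _ _
      _ ≤ |C₁| * (‖sE (vC a b e.1) g‖ + ‖sE (vC a b e.1) g'‖) ^ (m + 2) :=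
        mul_le_mul_of_nonneg_right (le_abs_self _) h3
      _ ≤ |C₁| * ((|C₂| + |C₃|) / ‖vC a b e.1‖) ^ (m + 2) :=
        mul_le_mul_of_nonneg_left (pow_le_pow_left₀ (by positivity) h1 _) (abs_nonneg _)
      _ = |C₁| * (|C₂| + |C₃|) ^ (m + 2) * (‖vC a b e.1‖ ^ (m + 2))⁻¹ := by
        rw [div_pow, div_eq_mul_inv]
        ring
  rw [norm_smul]
  calc ‖F e.1‖ * ‖OmE m (vC a b e.1) g g'‖
      ≤ |CF| * (|C₁| * (|C₂| + |C₃|) ^ (m + 2) * (‖vC a b e.1‖ ^ (m + 2))⁻¹) :=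
        mul_le_mul ((hCF _).trans (le_abs_self _)) h2 (norm_nonneg _) (abs_nonneg _)
    _ = (|CF| * (|C₁| * (|C₂| + |C₃|) ^ (m + 2))) * (‖vC a b e.1‖ ^ (m + 2))⁻¹ := by ring

end

end Pool.Agent.F8.NL
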