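import Pool.Agent.Lib.MP_305fdd_al.F8.NL.StmH

/-!
# MP_305fdd_al, all lattices (project NL): cup products of crossed homomorphisms with disjoint
supports
-/

set_option autoImplicit false

namespace Pool.Agent.F8.NL

open Pool.Agent.F8.CG Pool.Agent.F8.BG Pool.Agent.MP_305fdd_al Pool.Agent.Lib.MP_305fdd_al
  Pool.Agent.F8
open scoped QuadraticAlgebra ComplexConjugate Kronecker

noncomputable section

private theorem Haa_mv {G κ R L : Type} [Group G] [Fintype κ] [DecidableEq κ] [CommRing R]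
    [CommRing L] (f : R →+* L) (τ : G →* Matrix κ κ R) (x : G) (w : κ → R) :
    (fun i => f ((τ x).mulVec w i)) = (mpM f τ x).mulVec fun i => f (w i) := by
  funext i
  exact RingHom.map_mulVec f (τ x) w i

private theorem Haa_relsum {n : ℕ} {α : MulAut (FreeGroup (Fin n))} {K V : Type} [CommRing K]
    [AddCommGroup V] [Module K V] (σ : GR α →* Module.End K V) {k : ℕ} (l : Fin k → K)
    (c : Fin k → GR α → GR α → V) (ρ : Fin k → Fin n → V) (h : ∀ j, RelV σ (c j) (ρ j)) :
    RelV σ (fun x y => ∑ j, l j • c j x y) (∑ j, l j • ρ j) := by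
  choose F h1 h2 h3 using h
  refine ⟨fun g => ∑ j, l j • F j g, ?_, ?_, ?_⟩
  · intro i
    show ∑ j, l j • F j (FreeGroup.of i) = 0
    simp only [h1, smul_zero, Finset.sum_const_zero]
  · intro g g'
    show ∑ j, l j • F j (g * g') = ∑ j, l j • F j g + σ (iR α g) (∑ j, l j • F j g') +
      ∑ j, l j • c j (iR α g) (iR α g')
    rw [map_sum, ← Finset.sum_add_distrib, ← Finset.sum_add_distrib]
    refine Finset.sum_congr rfl fun j _ => ?_
    rw [h2, map_smul, smul_add, smul_add]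
  · intro i
    rw [Finset.sum_apply]
    show ∑ j, l j • ρ j i = ∑ j, l j • c j (tR α) (iR α (FreeGroup.of i)) -
      ∑ j, l j • c j (iR α (α (FreeGroup.of i))) (tR α) - ∑ j, l j • F j (α (FreeGroup.of i))
    rw [← Finset.sum_sub_distrib, ← Finset.sum_sub_distrib]
    refine Finset.sum_congr rfl fun j _ => ?_
    rw [h3, smul_sub, smul_sub]

private theorem Haa_cocsum {G K V : Type} [Group G] [CommRing K]
    [AddCommGroup V] [Module K V] (σ : G →* Module.End K V) {k : ℕ} (l : Fin k → K)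
    (c : Fin k → G → G → V) (h : ∀ j, CocE σ (c j)) :
    CocE σ (fun x y => ∑ j, l j • c j x y) := by
  intro x y z
  show σ x (∑ j, l j • c j y z) - ∑ j, l j • c j (x * y) z + ∑ j, l j • c j x (y * z) -
    ∑ j, l j • c j x y = 0
  rw [map_sum, ← Finset.sum_sub_distrib, ← Finset.sum_add_distrib, ← Finset.sum_sub_distrib]
  refine Finset.sum_eq_zero fun j _ => ?_
  rw [map_smul, ← smul_sub, ← smul_add, ← smul_sub, h j x y z, smul_zero]

private theorem Haa_relsub {n : ℕ} {α : MulAut (FreeGroup (Fin n))} {K V : Type} [CommRing K]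
    [AddCommGroup V] [Module K V] (σ : GR α →* Module.End K V) (d : K)
    (c c' : GR α → GR α → V) (ρ ρ' : Fin n → V) (h : RelV σ c ρ) (h' : RelV σ c' ρ') :
    RelV σ (fun x y => d • c x y - c' x y) (d • ρ - ρ') := by
  obtain ⟨F, h1, h2, h3⟩ := h
  obtain ⟨F', h1', h2', h3'⟩ := h'
  refine ⟨fun g => d • F g - F' g, ?_, ?_, ?_⟩
  · intro i
    show d • F (FreeGroup.of i) - F' (FreeGroup.of i) = 0
    rw [h1, h1', smul_zero, sub_zero]
  · intro g g'
    show d • F (g * g') - F' (g * g') = d • F g - F' g + σ (iR α g) (d • F g' - F' g') +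
      (d • c (iR α g) (iR α g') - c' (iR α g) (iR α g'))
    rw [h2, h2', map_sub, map_smul, smul_add, smul_add]
    abel
  · intro i
    show d • ρ i - ρ' i = d • c (tR α) (iR α (FreeGroup.of i)) - c' (tR α) (iR α (FreeGroup.of i)) -
      (d • c (iR α (α (FreeGroup.of i))) (tR α) - c' (iR α (α (FreeGroup.of i))) (tR α)) -
      (d • F (α (FreeGroup.of i)) - F' (α (FreeGroup.of i)))
    rw [h3, h3', smul_sub, smul_sub]
    abel

private theorem Haa_cocsub {G K V : Type} [Group G] [CommRing K]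
    [AddCommGroup V] [Module K V] (σ : G →* Module.End K V) (d : K)
    (c c' : G → G → V) (h : CocE σ c) (h' : CocE σ c') :
    CocE σ (fun x y => d • c x y - c' x y) := by
  intro x y z
  show σ x (d • c y z - c' y z) - (d • c (x * y) z - c' (x * y) z) +
    (d • c x (y * z) - c' x (y * z)) - (d • c x y - c' x y) = 0
  have h1 : d • (σ x (c y z) - c (x * y) z + c x (y * z) - c x y) -
      (σ x (c' y z) - c' (x * y) z + c' x (y * z) - c' x y) = 0 := by
    rw [h x y z, h' x y z, smul_zero, sub_zero]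
  rw [← h1, map_sub, map_smul, smul_sub, smul_add, smul_sub]
  abel

private theorem Haa_tens_add {R : Type} [CommRing R] {m n : ℕ} (P P' : Fin (m + 1) → R)
    (Q : Fin (n + 1) → R) : tens (P + P') Q = tens P Q + tens P' Q := by
  funext p
  exact add_mul _ _ _

private theorem Haa_tens_add' {R : Type} [CommRing R] {m n : ℕ} (P : Fin (m + 1) → R)
    (Q Q' : Fin (n + 1) → R) : tens P (Q + Q') = tens P Q + tens P Q' := by
  funext p
  exact mul_add _ _ _

variable {a b : ℤ}

private theorem Haa_coc {m : ℕ} {W : Subgroup (GQ a b)} {n : ℕ} {α : MulAut (FreeGroup (Fin n))}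
    (e : W ≃* GR α) (z : GQ a b → Fin (m + 1) → Qf a b ℤ)
    (z' : GQ a b → Fin (1 + 1) → Qf a b ℤ) (hz : CH (tV m (RingHom.id _)) W z)
    (hz' : CH (tV 1 (cjq a b ℤ)) W z') :
    CocE (sgO m e) (fun x y => cup z z' (pb e x) (pb e y)) := by
  intro x y w
  have hx : pb e x ∈ W := (e.symm x).2
  have hy : pb e y ∈ W := (e.symm y).2
  have hw : pb e w ∈ W := (e.symm w).2
  show (tMO a b m (pb e x)).mulVec (cup z z' (pb e y) (pb e w)) -
    cup z z' (pb e (x * y)) (pb e w) + cup z z' (pb e x) (pb e (y * w)) -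
    cup z z' (pb e x) (pb e y) = 0
  rw [map_mul, map_mul]
  unfold cup
  rw [show (tMO a b m (pb e x)) = kr (tV m (RingHom.id _)) (tV 1 (cjq a b ℤ)) (pb e x) from rfl,
    kr_tens, hz _ hx _ hy, hz' _ hy _ hw, Matrix.mulVec_add, Haa_tens_add, Haa_tens_add',
    Matrix.mulVec_mulVec, map_mul (tV 1 (cjq a b ℤ))]
  abel

private theorem Haa_evlin {m N k : ℕ} (e : Fin 2 → Qf a b ℤ) (d : ℂ) (l : Fin k → ℂ)
    (c₀ : GQ a b → GQ a b → Fin (m + 1) × Fin (1 + 1) → ℂ)
    (c : Fin k → GQ a b → GQ a b → Fin (m + 1) × Fin (1 + 1) → ℂ) :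
    Evt m N e (fun x y => d • c₀ x y - ∑ j, l j • c j x y) =
      d * Evt m N e c₀ - ∑ j, l j * Evt m N e (c j) := by
  unfold Evt evM
  simp only [Finset.mul_sum]
  rw [Finset.sum_comm (s := (Finset.univ : Finset (Fin k))), ← Finset.sum_sub_distrib]
  refine Finset.sum_congr rfl fun p _ => ?_
  set P := tv e (N : Qf a b ℤ)
  set P' := tv e ((N : Qf a b ℤ) * wq a b ℤ)
  rw [show ((d • c₀ P P' - ∑ j, l j • c j P P' - (d • c₀ P' P - ∑ j, l j • c j P' P)) p) =
    d * ((c₀ P P' - c₀ P' P) p) - ∑ j, l j * ((c j P P' - c j P' P) p) by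
    have h1 : ∀ Q Q' : GQ a b, (∑ j, l j • c j Q Q') p = ∑ j, l j * c j Q Q' p := by
      intro Q Q'
      rw [Finset.sum_apply]
      rfl
    have h2 : ∑ j, l j * ((c j P P' - c j P' P) p) =
        ∑ j, l j * c j P P' p - ∑ j, l j * c j P' P p := by
      rw [← Finset.sum_sub_distrib]
      refine Finset.sum_congr rfl fun j _ => ?_
      show l j * (c j P P' p - c j P' P p) = _
      ring
    rw [h2, ← h1, ← h1]
    show d * c₀ P P' p - (∑ j, l j • c j P P') p - (d * c₀ P' P p - (∑ j, l j • c j P' P) p) =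
      d * (c₀ P P' p - c₀ P' P p) - _
    ring]
  rw [sub_mul, Finset.sum_mul, mul_assoc]
  exact congrArg _ (Finset.sum_congr rfl fun j _ => mul_assoc _ _ _)

private theorem Haa_wC (h : b ^ 2 + 4 * a < 0) : conj (CG.wC a b) - CG.wC a b ≠ 0 := by
  intro h0
  have h1 := congrArg Complex.im h0
  rw [Complex.sub_im, Complex.conj_im, Complex.zero_im] at h1
  have h2 : (CG.wC a b).im = 0 := by linarith
  rw [wC_eq h] at h2
  have hD : (0 : ℝ) < (-(b ^ 2 + 4 * a : ℤ) : ℝ) := by
    have : ((b ^ 2 + 4 * a : ℤ) : ℝ) < 0 := by exact_mod_cast h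
    linarith
  have h3 := Real.sqrt_pos.2 hD
  simp at h2
  have h4 : Real.sqrt (-(b ^ 2 + 4 * a : ℤ)) = 0 := by
    simpa using h2
  linarith

theorem p_Haa (hrel : H_rel) (hmap : H_map) (hev : H_ev) (hsp : H_sp) : H_aa := by
  intro a b hneg hEu hPID hFG M₀ hM₀ hLD hHW m hm4 hmE hUn W hWf hWle N hLv z hz z' hz' hdis
  have hdom : IsDomain (Qf a b ℤ) := BG.Qf_domain hneg
  obtain ⟨n, α, ⟨e⟩⟩ := hHW W hWle hWf
  obtain ⟨k, v, Z, Z', ρ, HB⟩ := hsp a b hneg hEu hPID hFG M₀ hM₀ hLD m hm4 hmE hUn W hWf hWle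
    N hLv n α e
  obtain ⟨-, hinj, -, hM, -⟩ := hmap a b hneg
  have hcoc0 := Haa_coc e z z' hz hz'
  obtain ⟨ρ₀, hρ₀⟩ := (hrel n α (Qf a b ℤ) _ (sgO m e) _ hcoc0).1
  obtain ⟨d, c, hd, hmem⟩ := HB.spn ρ₀
  have hcocs := Haa_cocsum (sgO m e) c (fun j x y => cup (Z j) (Z' j) (pb e x) (pb e y))
    (fun j => Haa_coc e (Z j) (Z' j) (HB.ch j) (HB.ch' j))
  have hrels := Haa_relsum (sgO m e) c (fun j x y => cup (Z j) (Z' j) (pb e x) (pb e y)) ρ HB.rel
  have hC := Haa_cocsub (sgO m e) d _ _ hcoc0 hcocs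
  have hR := Haa_relsub (sgO m e) d _ _ _ _ hρ₀ hrels
  obtain ⟨f, hf⟩ := ((hrel n α (Qf a b ℤ) _ (sgO m e) _ hC).2 _ hR).2 hmem
  classical
  let F : GQ a b → Fin (m + 1) × Fin (1 + 1) → Qf a b ℤ := fun x =>
    if h : x ∈ W then f (e ⟨x, h⟩) else 0
  have hF : ∀ x (h : x ∈ W), F x = f (e ⟨x, h⟩) := fun x h => dif_pos h
  have hpb : ∀ w (hw : w ∈ W), pb e (e ⟨w, hw⟩) = w := by
    intro w hw
    show ((e.symm (e ⟨w, hw⟩) : W) : GQ a b) = w
    rw [e.symm_apply_apply]
  have h5 : ∀ x ∈ W, ∀ y ∈ W, d • cup z z' x y - ∑ j, c j • cup (Z j) (Z' j) x y =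
      (tMO a b m x).mulVec (F y) - F (x * y) + F x := by
    intro x hx y hy
    have h6 : d • cup z z' (pb e (e ⟨x, hx⟩)) (pb e (e ⟨y, hy⟩)) -
        ∑ j, c j • cup (Z j) (Z' j) (pb e (e ⟨x, hx⟩)) (pb e (e ⟨y, hy⟩)) =
        (tMO a b m (pb e (e ⟨x, hx⟩))).mulVec (f (e ⟨y, hy⟩)) -
        f (e ⟨x, hx⟩ * e ⟨y, hy⟩) + f (e ⟨x, hx⟩) := hf _ _
    rw [hpb, hpb] at h6
    rw [h6, hF y hy, hF x hx, hF (x * y) (mul_mem hx hy), ← map_mul]
    rfl
  have hc : ∀ i, c i = 0 := by
    intro i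
    have h7 : ∀ x ∈ W, ∀ y ∈ W, (iC a b d • (fun p => iC a b (cup z z' x y p)) -
        ∑ j, iC a b (c j) • (fun p => iC a b (cup (Z j) (Z' j) x y p))) =
        (tM m 1 (iC a b) (cC a b) x).mulVec (fun p => iC a b (F y p)) -
          (fun p => iC a b (F (x * y) p)) + fun p => iC a b (F x p) := by
      intro x hx y hy
      rw [hM, ← Haa_mv (iC a b) (tMO a b m)]
      funext p
      have h8 := congrArg (iC a b) (congrFun (h5 x hx y hy) p)
      rw [show (d • cup z z' x y - ∑ j, c j • cup (Z j) (Z' j) x y) p = d * cup z z' x y p -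
        ∑ j, c j * cup (Z j) (Z' j) x y p by
        rw [Pi.sub_apply, Finset.sum_apply]
        rfl] at h8
      rw [map_sub, map_sum, map_mul] at h8
      rw [show (iC a b d • (fun p => iC a b (cup z z' x y p)) -
        ∑ j, iC a b (c j) • (fun p => iC a b (cup (Z j) (Z' j) x y p))) p =
        iC a b d * iC a b (cup z z' x y p) - ∑ j, iC a b (c j * cup (Z j) (Z' j) x y p) by
        rw [Pi.sub_apply, Finset.sum_apply]
        simp only [map_mul]
        rfl]
      rw [h8]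
      show iC a b ((tMO a b m x).mulVec (F y) p - F (x * y) p + F x p) = _
      rw [map_add, map_sub]
      rfl
    have h8 := (hev a b hneg m (by omega) W N hLv (v i)).1 (fun x p => iC a b (F x p))
      (fun x y => iC a b d • (fun p => iC a b (cup z z' x y p)) -
        ∑ j, iC a b (c j) • (fun p => iC a b (cup (Z j) (Z' j) x y p))) h7
    rw [Haa_evlin (v i) (iC a b d) (fun j => iC a b (c j))
      (fun x y p => iC a b (cup z z' x y p)) (fun j x y p => iC a b (cup (Z j) (Z' j) x y p)),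
      (hev a b hneg m (by omega) W N hLv (v i)).2 z hz z' hz',
      mul_eq_zero.2 (hdis (v i) (HB.prm i)), map_zero, zero_mul, mul_zero, zero_sub,
      neg_eq_zero, Finset.sum_eq_single i] at h8
    · rw [(hev a b hneg m (by omega) W N hLv (v i)).2 (Z i) (HB.ch i) (Z' i) (HB.ch' i)] at h8
      have h9 : iC a b (bv m N (RingHom.id _) (Z i) (v i) * bv 1 N (cjq a b ℤ) (Z' i) (v i)) ≠
          0 := by
        intro h0
        exact HB.dia i (hinj (by rw [h0, map_zero]))
      rcases mul_eq_zero.1 h8 with h10 | h10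
      · exact hinj (by rw [h10, map_zero])
      · exact absurd h10 (mul_ne_zero h9 (Haa_wC hneg))
    · intro j _ hji
      rw [(hev a b hneg m (by omega) W N hLv (v i)).2 (Z j) (HB.ch j) (Z' j) (HB.ch' j),
        HB.off i j (Ne.symm hji), zero_mul, map_zero, zero_mul, mul_zero]
    · intro h
      exact absurd (Finset.mem_univ i) h
  refine ⟨d, fun x => - F x, hd, ?_⟩
  intro x hx y hy
  have h6 := h5 x hx y hy
  rw [show ∑ j, c j • cup (Z j) (Z' j) x y = 0 from
    Finset.sum_eq_zero fun j _ => by rw [hc j, zero_smul], sub_zero] at h6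
  show - F (x * y) = - F x + (tMO a b m x).mulVec (- F y) + d • cup z z' x y
  rw [h6, Matrix.mulVec_neg]
  abel

end

end Pool.Agent.F8.NL
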