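import Pool.Agent.Lib.MP_305fdd_al.F8.NL.StmH
import Pool.Agent.Lib.MP_305fdd_al.F8.NL.DefsT

/-!
# MP_305fdd_al, all lattices (project NL): cup products span the second cohomology
-/

set_option autoImplicit false

namespace Pool.Agent.F8.NL

open Pool.Agent.F8.CG Pool.Agent.F8.BG Pool.Agent.MP_305fdd_al Pool.Agent.Lib.MP_305fdd_al
  Pool.Agent.F8
open scoped QuadraticAlgebra ComplexConjugate Kronecker

noncomputable section

private theorem Hbb_mv {G κ R L : Type} [Group G] [Fintype κ] [DecidableEq κ] [CommRing R]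
    [CommRing L] (f : R →+* L) (τ : G →* Matrix κ κ R) (x : G) (w : κ → R) (u : κ) :
    (mpM f τ x).mulVec (fun i => f (w i)) u = f ((τ x).mulVec w u) :=
  (RingHom.map_mulVec f (τ x) w u).symm

private theorem Hbb_lin {κ R : Type} [Fintype κ] [DecidableEq κ] [CommRing R]
    (A : Matrix κ κ R) (d : R) (v w : κ → R) (u : κ) :
    A.mulVec (fun u => v u - d * w u) u = A.mulVec v u - d * A.mulVec w u := by
  have h : (fun u => v u - d * w u) = v - d • w := rfl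
  rw [h, Matrix.mulVec_sub, Matrix.mulVec_smul]
  rfl

private theorem Hbb_rel {n : ℕ} {α : MulAut (FreeGroup (Fin n))} {κ R L : Type} [Fintype κ]
    [DecidableEq κ] [CommRing R] [CommRing L] (f : R →+* L) (τ : GR α →* Matrix κ κ R)
    (q d : R) (hf : ∀ v, q ∣ v → f (d * v) = 0) (c₀ c : GR α → GR α → κ → R)
    (r₀ ρ₀ : Fin n → κ → R) (F₁ : FreeGroup (Fin n) → κ → R) (h0 : RelV (tE τ) c₀ r₀)
    (h1 : ∀ i u, q ∣ F₁ (FreeGroup.of i) u)
    (h2 : ∀ g h u, q ∣ F₁ (g * h) u - (F₁ g u + (τ (iR α g)).mulVec (F₁ h) u +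
      c (iR α g) (iR α h) u))
    (h3 : ∀ i u, q ∣ ρ₀ i u - (c (tR α) (iR α (FreeGroup.of i)) u -
      c (iR α (α (FreeGroup.of i))) (tR α) u - F₁ (α (FreeGroup.of i)) u)) :
    RelV (tE (mpM f τ)) (fun x y u => f (c₀ x y u - d * c x y u))
      (fun i u => f (r₀ i u - d * ρ₀ i u)) := by
  obtain ⟨f₀, g1, g2, g3⟩ := h0
  refine ⟨fun g u => f (f₀ g u - d * F₁ g u), ?_, ?_, ?_⟩
  · intro i
    funext u
    show f (f₀ (FreeGroup.of i) u - d * F₁ (FreeGroup.of i) u) = 0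
    rw [map_sub, hf _ (h1 i u), g1]
    show f 0 - 0 = 0
    rw [map_zero, sub_zero]
  · intro g h
    funext u
    show f (f₀ (g * h) u - d * F₁ (g * h) u) = f (f₀ g u - d * F₁ g u) +
      (mpM f τ (iR α g)).mulVec (fun u => f (f₀ h u - d * F₁ h u)) u +
      f (c₀ (iR α g) (iR α h) u - d * c (iR α g) (iR α h) u)
    rw [Hbb_mv f τ, Hbb_lin, ← map_add, ← map_add]
    have h4 := congrFun (g2 g h) u
    have h5 : f₀ (g * h) u = f₀ g u + (τ (iR α g)).mulVec (f₀ h) u +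
      c₀ (iR α g) (iR α h) u := h4
    have h6 : f₀ (g * h) u - d * F₁ (g * h) u = (f₀ g u - d * F₁ g u +
        ((τ (iR α g)).mulVec (f₀ h) u - d * (τ (iR α g)).mulVec (F₁ h) u) +
        (c₀ (iR α g) (iR α h) u - d * c (iR α g) (iR α h) u)) -
        d * (F₁ (g * h) u - (F₁ g u + (τ (iR α g)).mulVec (F₁ h) u +
          c (iR α g) (iR α h) u)) := by
      rw [h5]
      ring
    rw [h6, map_sub, hf _ (h2 g h u), sub_zero]
  · intro i
    funext u
    show f (r₀ i u - d * ρ₀ i u) = f (c₀ (tR α) (iR α (FreeGroup.of i)) u -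
      d * c (tR α) (iR α (FreeGroup.of i)) u) - f (c₀ (iR α (α (FreeGroup.of i))) (tR α) u -
      d * c (iR α (α (FreeGroup.of i))) (tR α) u) -
      f (f₀ (α (FreeGroup.of i)) u - d * F₁ (α (FreeGroup.of i)) u)
    rw [← map_sub, ← map_sub]
    have h5 : r₀ i u = c₀ (tR α) (iR α (FreeGroup.of i)) u -
      c₀ (iR α (α (FreeGroup.of i))) (tR α) u - f₀ (α (FreeGroup.of i)) u := congrFun (g3 i) u
    have h6 : r₀ i u - d * ρ₀ i u = (c₀ (tR α) (iR α (FreeGroup.of i)) u -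
        d * c (tR α) (iR α (FreeGroup.of i)) u - (c₀ (iR α (α (FreeGroup.of i))) (tR α) u -
        d * c (iR α (α (FreeGroup.of i))) (tR α) u) -
        (f₀ (α (FreeGroup.of i)) u - d * F₁ (α (FreeGroup.of i)) u)) -
        d * (ρ₀ i u - (c (tR α) (iR α (FreeGroup.of i)) u -
          c (iR α (α (FreeGroup.of i))) (tR α) u - F₁ (α (FreeGroup.of i)) u)) := by
      rw [h5]
      ring
    rw [h6, map_sub, hf _ (h3 i u), sub_zero]

private theorem Hbb_coc {G κ R L : Type} [Group G] [Fintype κ]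
    [DecidableEq κ] [CommRing R] [CommRing L] (f : R →+* L) (τ : G →* Matrix κ κ R)
    (q d : R) (hf : ∀ v, q ∣ v → f (d * v) = 0) (c₀ c : G → G → κ → R)
    (h0 : CocE (tE τ) c₀)
    (h1 : ∀ x y z u, q ∣ ((τ x).mulVec (c y z) - c (x * y) z + c x (y * z) - c x y) u) :
    CocE (tE (mpM f τ)) (fun x y u => f (c₀ x y u - d * c x y u)) := by
  intro x y z
  funext u
  show (mpM f τ x).mulVec (fun u => f (c₀ y z u - d * c y z u)) u -
    f (c₀ (x * y) z u - d * c (x * y) z u) + f (c₀ x (y * z) u - d * c x (y * z) u) -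
    f (c₀ x y u - d * c x y u) = 0
  rw [Hbb_mv f τ, Hbb_lin, ← map_sub, ← map_add, ← map_sub]
  have h2 : (τ x).mulVec (c₀ y z) u - c₀ (x * y) z u + c₀ x (y * z) u - c₀ x y u = 0 :=
    congrFun (h0 x y z) u
  have h3 := hf _ (h1 x y z u)
  have h4 : (τ x).mulVec (c₀ y z) u - d * (τ x).mulVec (c y z) u -
      (c₀ (x * y) z u - d * c (x * y) z u) + (c₀ x (y * z) u - d * c x (y * z) u) -
      (c₀ x y u - d * c x y u) =
      ((τ x).mulVec (c₀ y z) u - c₀ (x * y) z u + c₀ x (y * z) u - c₀ x y u) -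
      d * (((τ x).mulVec (c y z) - c (x * y) z + c x (y * z) - c x y) u) := by
    show _ = _ - d * ((τ x).mulVec (c y z) u - c (x * y) z u + c x (y * z) u - c x y u)
    ring
  rw [h4, map_sub, h3, h2, map_zero, sub_zero]

private theorem Hbb_fx {n : ℕ} {α : MulAut (FreeGroup (Fin n))} {κ R L : Type} [Fintype κ]
    [DecidableEq κ] [CommRing R] [CommRing L] (f : R →+* L) (τ : GR α →* Matrix κ κ R)
    (ρ : Fin n → κ → R) (h : ρ ∈ FxR α (tE τ)) :
    (fun i u => f (ρ i u)) ∈ FxR α (tE (mpM f τ)) := by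
  obtain ⟨y, a₀, h1, h2⟩ := h
  refine ⟨fun g u => f (y g u), fun u => f (a₀ u), ?_, ?_⟩
  · intro g h
    funext u
    show f (y (g * h) u) = f (y g u) + (mpM f τ (iR α g)).mulVec (fun u => f (y h u)) u
    rw [Hbb_mv f τ, ← map_add]
    exact congrArg f (congrFun (h1 g h) u)
  · intro i
    funext u
    show f (ρ i u) = f (y (α (FreeGroup.of i)) u) -
      (mpM f τ (tR α)).mulVec (fun u => f (y (FreeGroup.of i) u)) u +
      (mpM f τ (iR α (α (FreeGroup.of i)))).mulVec (fun u => f (a₀ u)) u - f (a₀ u)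
    rw [Hbb_mv f τ, Hbb_mv f τ, ← map_sub, ← map_add, ← map_sub]
    exact congrArg f (congrFun (h2 i) u)

private theorem Hbb_relsum {n : ℕ} {α : MulAut (FreeGroup (Fin n))} {K V : Type} [CommRing K]
    [AddCommGroup V] [Module K V] (σ : GR α →* Module.End K V) {k : ℕ} (l : Fin k → K)
    (c : Fin k → GR α → GR α → V) (ρ : Fin k → Fin n → V) (h : ∀ j, RelV σ (c j) (ρ j)) :
    RelV σ (fun x y => ∑ j, l j • c j x y) (∑ j, l j • ρ j) := by
  choose F h1 h2 h3 using h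
  refine ⟨fun g => ∑ j, l j • F j g, ?_, ?_, ?_⟩
  · intro i
    show ∑ j, l j • F j (FreeGroup.of i) = 0
    simp only [h1, smul_zero, Finset.sum_const_zero]
  · intro g g'
    show ∑ j, l j • F j (g * g') = ∑ j, l j • F j g + σ (iR α g) (∑ j, l j • F j g') +
      ∑ j, l j • c j (iR α g) (iR α g')
    rw [map_sum, ← Finset.sum_add_distrib, ← Finset.sum_add_distrib]
    refine Finset.sum_congr rfl fun j _ => ?_
    rw [h2, map_smul, smul_add, smul_add]
  · intro i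
    rw [Finset.sum_apply]
    show ∑ j, l j • ρ j i = ∑ j, l j • c j (tR α) (iR α (FreeGroup.of i)) -
      ∑ j, l j • c j (iR α (α (FreeGroup.of i))) (tR α) - ∑ j, l j • F j (α (FreeGroup.of i))
    rw [← Finset.sum_sub_distrib, ← Finset.sum_sub_distrib]
    refine Finset.sum_congr rfl fun j _ => ?_
    rw [h3, smul_sub, smul_sub]

private theorem Hbb_cocsum {G K V : Type} [Group G] [CommRing K]
    [AddCommGroup V] [Module K V] (σ : G →* Module.End K V) {k : ℕ} (l : Fin k → K)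
    (c : Fin k → G → G → V) (h : ∀ j, CocE σ (c j)) :
    CocE σ (fun x y => ∑ j, l j • c j x y) := by
  intro x y z
  show σ x (∑ j, l j • c j y z) - ∑ j, l j • c j (x * y) z + ∑ j, l j • c j x (y * z) -
    ∑ j, l j • c j x y = 0
  rw [map_sum, ← Finset.sum_sub_distrib, ← Finset.sum_add_distrib, ← Finset.sum_sub_distrib]
  refine Finset.sum_eq_zero fun j _ => ?_
  rw [map_smul, ← smul_sub, ← smul_add, ← smul_sub, h j x y z, smul_zero]

private theorem Hbb_tens_add {R : Type} [CommRing R] {m n : ℕ} (P P' : Fin (m + 1) → R)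
    (Q : Fin (n + 1) → R) : tens (P + P') Q = tens P Q + tens P' Q := by
  funext p
  exact add_mul _ _ _

private theorem Hbb_tens_add' {R : Type} [CommRing R] {m n : ℕ} (P : Fin (m + 1) → R)
    (Q Q' : Fin (n + 1) → R) : tens P (Q + Q') = tens P Q + tens P Q' := by
  funext p
  exact mul_add _ _ _

variable {a b : ℤ}

private theorem Hbb_cc {m : ℕ} {W : Subgroup (GQ a b)} {n : ℕ} {α : MulAut (FreeGroup (Fin n))}
    (e : W ≃* GR α) (z : GQ a b → Fin (m + 1) → Qf a b ℤ)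
    (z' : GQ a b → Fin (1 + 1) → Qf a b ℤ) (hz : CH (tV m (RingHom.id _)) W z)
    (hz' : CH (tV 1 (cjq a b ℤ)) W z') :
    CocE (sgO m e) (fun x y => cup z z' (pb e x) (pb e y)) := by
  intro x y w
  have hx : pb e x ∈ W := (e.symm x).2
  have hy : pb e y ∈ W := (e.symm y).2
  have hw : pb e w ∈ W := (e.symm w).2
  show (tMO a b m (pb e x)).mulVec (cup z z' (pb e y) (pb e w)) -
    cup z z' (pb e (x * y)) (pb e w) + cup z z' (pb e x) (pb e (y * w)) -
    cup z z' (pb e x) (pb e y) = 0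
  rw [map_mul, map_mul]
  unfold cup
  rw [show (tMO a b m (pb e x)) = kr (tV m (RingHom.id _)) (tV 1 (cjq a b ℤ)) (pb e x) from rfl,
    kr_tens, hz _ hx _ hy, hz' _ hy _ hw, Matrix.mulVec_add, Hbb_tens_add, Hbb_tens_add',
    Matrix.mulVec_mulVec, map_mul (tV 1 (cjq a b ℤ))]
  abel

theorem p_Hbb (hrel : H_rel) (hsp : H_sp) : H_bb := by
  intro a b hneg hEu hPID hFG M₀ hM₀ hLD hHW m hm4 hmE hUn W hWf hWle q c hq hc
  have hdom : IsDomain (Qf a b ℤ) := BG.Qf_domain hneg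
  obtain ⟨N, hLv⟩ := Lv_ex W hWf
  obtain ⟨n, α, ⟨e⟩⟩ := hHW W hWle hWf
  obtain ⟨k, v, Z, Z', ρ, HB⟩ := hsp a b hneg hEu hPID hFG M₀ hM₀ hLD m hm4 hmE hUn W hWf hWle
    N hLv n α e
  let τ : GR α →* Matrix (Fin (m + 1) × Fin (1 + 1)) (Fin (m + 1) × Fin (1 + 1)) (Qf a b ℤ) :=
    (tMO a b m).comp (pb e)
  have hmem : ∀ x, pb e x ∈ W := fun x => (e.symm x).2
  let cc : GR α → GR α → Fin (m + 1) × Fin (1 + 1) → Qf a b ℤ := fun x y => c (pb e x) (pb e y)
  have hcc : ∀ x y z u, q ∣ ((τ x).mulVec (cc y z) - cc (x * y) z + cc x (y * z) - cc x y) u := by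
    intro x y z u
    have h := hc _ (hmem x) _ (hmem y) _ (hmem z) u
    rw [← map_mul, ← map_mul] at h
    exact h
  -- modulo `q`
  let f₁ : Qf a b ℤ →+* Qf a b ℤ ⧸ Ideal.span {q} := Ideal.Quotient.mk _
  have hs1 : Function.Surjective f₁ := Ideal.Quotient.mk_surjective
  have hf1 : ∀ v, f₁ v = 0 ↔ q ∣ v := fun v => by
    rw [← Ideal.mem_span_singleton]
    exact Ideal.Quotient.eq_zero_iff_mem
  have hcoc1 : CocE (tE (mpM f₁ τ)) (fun x y u => f₁ (cc x y u)) := by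
    intro x y z
    funext u
    show (mpM f₁ τ x).mulVec (fun u => f₁ (cc y z u)) u - f₁ (cc (x * y) z u) +
      f₁ (cc x (y * z) u) - f₁ (cc x y u) = 0
    rw [Hbb_mv f₁ τ, ← map_sub, ← map_add, ← map_sub]
    exact (hf1 _).2 (hcc x y z u)
  obtain ⟨ρ₁, F, g1, g2, g3⟩ := (hrel n α _ _ (tE (mpM f₁ τ)) _ hcoc1).1
  choose F₁ hF₁ using fun (g : FreeGroup (Fin n)) (u : Fin (m + 1) × Fin (1 + 1)) => hs1 (F g u)
  choose ρ₀ hρ₀ using fun (i : Fin n) (u : Fin (m + 1) × Fin (1 + 1)) => hs1 (ρ₁ i u)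
  have hFf : ∀ g, (fun u => f₁ (F₁ g u)) = F g := fun g => funext fun u => hF₁ g u
  obtain ⟨d, l, hd, hmemF⟩ := HB.spn ρ₀
  -- modulo `d * q`
  let f₂ : Qf a b ℤ →+* Qf a b ℤ ⧸ Ideal.span {d * q} := Ideal.Quotient.mk _
  have hs2 : Function.Surjective f₂ := Ideal.Quotient.mk_surjective
  have hf2 : ∀ v, f₂ v = 0 ↔ d * q ∣ v := fun v => by
    rw [← Ideal.mem_span_singleton]
    exact Ideal.Quotient.eq_zero_iff_mem
  have hf : ∀ v, q ∣ v → f₂ (d * v) = 0 := fun v hv => (hf2 _).2 (mul_dvd_mul_left d hv)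
  let c₀ : GR α → GR α → Fin (m + 1) × Fin (1 + 1) → Qf a b ℤ :=
    fun x y => ∑ j, l j • cup (Z j) (Z' j) (pb e x) (pb e y)
  have hcoc0 : CocE (tE τ) c₀ := Hbb_cocsum (sgO m e) l
    (fun j x y => cup (Z j) (Z' j) (pb e x) (pb e y))
    (fun j => Hbb_cc e (Z j) (Z' j) (HB.ch j) (HB.ch' j))
  have hrel0 : RelV (tE τ) c₀ (∑ j, l j • ρ j) := Hbb_relsum (sgO m e) l
    (fun j x y => cup (Z j) (Z' j) (pb e x) (pb e y)) ρ HB.rel
  have hcoc2 := Hbb_coc f₂ τ q d hf c₀ cc hcoc0 hcc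
  have hrel2 := Hbb_rel f₂ τ q d hf c₀ cc (∑ j, l j • ρ j) ρ₀ F₁ hrel0
    (fun i u => (hf1 _).1 (by rw [hF₁, g1]; rfl))
    (fun g h u => (hf1 _).1 (by
      have h1 := congrFun (g2 g h) u
      rw [map_sub, map_add, map_add, hF₁, hF₁, h1]
      have h2 : f₁ ((τ (iR α g)).mulVec (F₁ h) u) = (mpM f₁ τ (iR α g)).mulVec (F h) u := by
        rw [← hFf h, Hbb_mv f₁ τ]
      rw [h2]
      exact sub_self _))
    (fun i u => (hf1 _).1 (by
      have h1 := congrFun (g3 i) u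
      rw [map_sub, map_sub, map_sub, hρ₀, hF₁, h1]
      exact sub_self _))
  have hmem2 : (fun i u => f₂ ((∑ j, l j • ρ j) i u - d * ρ₀ i u)) ∈
      FxR α (tE (mpM f₂ τ)) := by
    have h1 := Hbb_fx f₂ τ _ (Submodule.neg_mem _ hmemF)
    have h2 : (fun i u => f₂ ((-(d • ρ₀ - ∑ j, l j • ρ j)) i u)) =
        fun i u => f₂ ((∑ j, l j • ρ j) i u - d * ρ₀ i u) := by
      funext i u
      rw [neg_sub]
      rfl
    rw [← h2]
    exact h1
  obtain ⟨y₂, hy₂⟩ := ((hrel n α _ _ (tE (mpM f₂ τ)) _ hcoc2).2 _ hrel2).2 hmem2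
  choose Y hY using fun (x : GR α) (u : Fin (m + 1) × Fin (1 + 1)) => hs2 (y₂ x u)
  have hYf : ∀ x, (fun u => f₂ (Y x u)) = y₂ x := fun x => funext fun u => hY x u
  classical
  let T : GQ a b → Fin (m + 1) × Fin (1 + 1) → Qf a b ℤ := fun x =>
    if h : x ∈ W then Y (e ⟨x, h⟩) else 0
  have hT : ∀ x (h : x ∈ W), T x = Y (e ⟨x, h⟩) := fun x h => dif_pos h
  have hpb : ∀ w (hw : w ∈ W), pb e (e ⟨w, hw⟩) = w := by
    intro w hw
    show ((e.symm (e ⟨w, hw⟩) : W) : GQ a b) = w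
    rw [e.symm_apply_apply]
  refine ⟨d, k, fun j => fun x => l j • Z j x, Z', fun x => - T x, hd, ?_, HB.ch', ?_⟩
  · intro j x hx y hy
    show l j • Z j (x * y) = l j • Z j x + (tV m (RingHom.id _) x).mulVec (l j • Z j y)
    rw [HB.ch j x hx y hy, smul_add, Matrix.mulVec_smul]
  · intro g hg h hh i
    rw [← hf2]
    have h1 := congrFun (hy₂ (e ⟨g, hg⟩) (e ⟨h, hh⟩)) i
    have h2 : f₂ ((∑ j, l j • cup (Z j) (Z' j) g h) i - d * c g h i) =
        f₂ ((tMO a b m g).mulVec (T h) i - T (g * h) i + T g i) := by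
      have h3 : f₂ (c₀ (e ⟨g, hg⟩) (e ⟨h, hh⟩) i - d * cc (e ⟨g, hg⟩) (e ⟨h, hh⟩) i) =
          (mpM f₂ τ (e ⟨g, hg⟩)).mulVec (y₂ (e ⟨h, hh⟩)) i -
            y₂ (e ⟨g, hg⟩ * e ⟨h, hh⟩) i + y₂ (e ⟨g, hg⟩) i := h1
      have h4 : c₀ (e ⟨g, hg⟩) (e ⟨h, hh⟩) = ∑ j, l j • cup (Z j) (Z' j) g h := by
        show ∑ j, l j • cup (Z j) (Z' j) (pb e (e ⟨g, hg⟩)) (pb e (e ⟨h, hh⟩)) = _
        rw [hpb, hpb]
      have h5 : cc (e ⟨g, hg⟩) (e ⟨h, hh⟩) = c g h := by
        show c (pb e (e ⟨g, hg⟩)) (pb e (e ⟨h, hh⟩)) = _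
        rw [hpb, hpb]
      rw [h4, h5, ← hYf (e ⟨h, hh⟩), Hbb_mv f₂ τ, ← hY, ← hY] at h3
      rw [h3, hT h hh, hT g hg, hT (g * h) (mul_mem hg hh), map_add, map_sub]
      have h6 : τ (e ⟨g, hg⟩) = tMO a b m g := by
        show tMO a b m (pb e (e ⟨g, hg⟩)) = _
        rw [hpb]
      rw [h6, ← map_mul]
      rfl
    have h7 : (∑ j, cup (fun x => l j • Z j x) (Z' j) g h) =
        ∑ j, l j • cup (Z j) (Z' j) g h := by
      refine Finset.sum_congr rfl fun j _ => ?_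
      funext p
      show l j * Z j g p.1 * _ = l j * (Z j g p.1 * _)
      ring
    show f₂ (((fun x => - T x) (g * h) - (fun x => - T x) g -
      (tMO a b m g).mulVec ((fun x => - T x) h) -
      (∑ j, cup (fun x => l j • Z j x) (Z' j) g h - d • c g h)) i) = 0
    rw [h7]
    have h8 : ((fun x => - T x) (g * h) - (fun x => - T x) g -
        (tMO a b m g).mulVec ((fun x => - T x) h) -
        (∑ j, l j • cup (Z j) (Z' j) g h - d • c g h)) i =
        ((tMO a b m g).mulVec (T h) i - T (g * h) i + T g i) -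
          ((∑ j, l j • cup (Z j) (Z' j) g h) i - d * c g h i) := by
      show - T (g * h) i - (- T g i) - (tMO a b m g).mulVec (- T h) i -
        ((∑ j, l j • cup (Z j) (Z' j) g h) i - d * c g h i) = _
      rw [Matrix.mulVec_neg]
      show - T (g * h) i - (- T g i) - (- (tMO a b m g).mulVec (T h) i) - _ = _
      ring
    rw [h8, map_sub, ← h2, sub_self]

end

end Pool.Agent.F8.NL
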