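import Pool.Agent.Lib.MP_305fdd_al.F8.NL.StmH

/-!
# MP_305fdd_al, all lattices (project NL): descent of the image of the Fox map
-/

set_option autoImplicit false

namespace Pool.Agent.F8.NL

open Pool.Agent.F8.CG Pool.Agent.F8.BG Pool.Agent.MP_305fdd_al Pool.Agent.Lib.MP_305fdd_al
  Pool.Agent.F8
open scoped QuadraticAlgebra ComplexConjugate Kronecker

noncomputable section

/-! ### crossed homomorphisms of a free group -/

section free

variable {ι K V : Type} [CommRing K] [AddCommGroup V] [Module K V]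
  (σ : FreeGroup ι →* Module.End K V)

private theorem Hdes_inv (g : FreeGroup ι) (x : V) : σ g⁻¹ (σ g x) = x := by
  rw [← Module.End.mul_apply, ← map_mul, inv_mul_cancel, map_one, Module.End.one_apply]

private theorem Hdes_inv' (g : FreeGroup ι) (x : V) : σ g (σ g⁻¹ x) = x := by
  rw [← Module.End.mul_apply, ← map_mul, mul_inv_cancel, map_one, Module.End.one_apply]

/-- the affine permutation -/
private def HdesP (v : ι → V) (i : ι) : Equiv.Perm V where
  toFun x := v i + σ (FreeGroup.of i) x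
  invFun x := σ (FreeGroup.of i)⁻¹ (x - v i)
  left_inv x := by
    beta_reduce
    rw [add_sub_cancel_left, Hdes_inv]
  right_inv x := by
    beta_reduce
    rw [Hdes_inv', add_sub_cancel]

private theorem Hdes_aff (v : ι → V) (g : FreeGroup ι) : ∀ x : V,
    FreeGroup.lift (HdesP σ v) g x = FreeGroup.lift (HdesP σ v) g 0 + σ g x := by
  induction g using FreeGroup.induction_on with
  | C1 =>
    intro x
    simp
  | of i =>
    intro x
    rw [FreeGroup.lift_apply_of]
    show v i + σ (FreeGroup.of i) x = v i + σ (FreeGroup.of i) 0 + σ (FreeGroup.of i) x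
    rw [map_zero, add_zero]
  | inv_of i _ =>
    intro x
    rw [map_inv, FreeGroup.lift_apply_of]
    show σ (FreeGroup.of i)⁻¹ (x - v i) = σ (FreeGroup.of i)⁻¹ (0 - v i) + σ (FreeGroup.of i)⁻¹ x
    rw [map_sub, map_sub, map_zero]
    abel
  | mul g h hg hh =>
    intro x
    rw [map_mul, Equiv.Perm.mul_apply, Equiv.Perm.mul_apply, hh, hg,
      hg (FreeGroup.lift (HdesP σ v) h 0), map_add, map_mul, Module.End.mul_apply]
    abel

private theorem Hdes_ex (v : ι → V) : ∃ y : FreeGroup ι → V,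
    (∀ g h, y (g * h) = y g + σ g (y h)) ∧ ∀ i, y (FreeGroup.of i) = v i := by
  refine ⟨fun g => FreeGroup.lift (HdesP σ v) g 0, fun g h => ?_, fun i => ?_⟩
  · beta_reduce
    rw [map_mul, Equiv.Perm.mul_apply, Hdes_aff σ v g (FreeGroup.lift (HdesP σ v) h 0)]
  · beta_reduce
    rw [FreeGroup.lift_apply_of]
    show v i + σ (FreeGroup.of i) 0 = v i
    rw [map_zero, add_zero]

private theorem Hdes_one (y : FreeGroup ι → V) (hy : ∀ g h, y (g * h) = y g + σ g (y h)) :
    y 1 = 0 := by
  have h := hy 1 1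
  rw [mul_one, map_one, Module.End.one_apply] at h
  exact left_eq_add.1 h

private theorem Hdes_uq (y y' : FreeGroup ι → V) (hy : ∀ g h, y (g * h) = y g + σ g (y h))
    (hy' : ∀ g h, y' (g * h) = y' g + σ g (y' h))
    (hi : ∀ i, y (FreeGroup.of i) = y' (FreeGroup.of i)) (g : FreeGroup ι) : y g = y' g := by
  induction g using FreeGroup.induction_on with
  | C1 => rw [Hdes_one σ y hy, Hdes_one σ y' hy']
  | of i => exact hi i
  | inv_of i _ =>
    have h1 := hy (FreeGroup.of i)⁻¹ (FreeGroup.of i)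
    have h2 := hy' (FreeGroup.of i)⁻¹ (FreeGroup.of i)
    rw [inv_mul_cancel, Hdes_one σ y hy] at h1
    rw [inv_mul_cancel, Hdes_one σ y' hy'] at h2
    rw [hi i] at h1
    rw [h1] at h2
    exact add_right_cancel h2
  | mul g h hg hh => rw [hy, hy', hg, hh]

end free

/-! ### linear algebra -/

private theorem Hdes_lin {R L : Type} [CommRing R] [IsDomain R] [Field L] (f : R →+* L)
    (hf : Function.Injective f) {I J : Type} [Fintype J] (B : J → I → R) (ρ : I → R) (l : J → L)
    (h : ∀ i, f (ρ i) = ∑ j, l j * f (B j i)) :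
    ∃ (d : R) (c : J → R), d ≠ 0 ∧ ∀ i, d * ρ i = ∑ j, c j * B j i := by
  let K : Type := FractionRing R
  let g : K →+* L := IsFractionRing.lift hf
  have hg : ∀ r, g (algebraMap R K r) = f r := fun r => IsFractionRing.lift_algebraMap hf r
  let _ : Algebra K L := g.toAlgebra
  obtain ⟨π, hπ⟩ := LinearMap.exists_leftInverse_of_injective (Algebra.linearMap K L)
    (LinearMap.ker_eq_bot.2 g.injective)
  have hπ' : ∀ k : K, π (g k) = k := fun k => LinearMap.congr_fun hπ k
  have h1 : ∀ i, algebraMap R K (ρ i) = ∑ j, π (l j) * algebraMap R K (B j i) := by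
    intro i
    rw [← hπ' (algebraMap R K (ρ i)), hg, h i, map_sum]
    refine Finset.sum_congr rfl fun j _ => ?_
    have h2 : l j * f (B j i) = algebraMap R K (B j i) • l j := by
      rw [← hg, mul_comm]
      rfl
    rw [h2, map_smul, smul_eq_mul, mul_comm]
  obtain ⟨b, hb⟩ := IsLocalization.exist_integer_multiples_of_finite (nonZeroDivisors R)
    (fun j => π (l j))
  choose c hc using hb
  refine ⟨b, c, nonZeroDivisors.coe_ne_zero b, fun i => ?_⟩
  apply IsFractionRing.injective R K
  rw [map_mul, h1, map_sum, Finset.mul_sum]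
  refine Finset.sum_congr rfl fun j _ => ?_
  rw [map_mul, hc, Algebra.smul_def, mul_assoc]

/-! ### the image of the Fox map -/

section fox

variable {R : Type} [CommRing R] {n : ℕ} {α : MulAut (FreeGroup (Fin n))} {κ : Type} [Fintype κ]
  [DecidableEq κ] (τ : GR α →* Matrix κ κ R)

/-- the first family of columns -/
private def HdesA (D : Fin n × κ → FreeGroup (Fin n) → κ → R) (p : Fin n × κ) (i : Fin n)
    (u : κ) : R :=
  D p (α (FreeGroup.of i)) u - (τ (tR α)).mulVec (D p (FreeGroup.of i)) u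

/-- the second family of columns -/
private def HdesB (v : κ) (i : Fin n) (u : κ) : R :=
  τ (iR α (α (FreeGroup.of i))) u v - (1 : Matrix κ κ R) u v

private theorem Hdes_to (D : Fin n × κ → FreeGroup (Fin n) → κ → R)
    (hD : ∀ p g h, D p (g * h) = D p g + (τ (iR α g)).mulVec (D p h))
    (hD' : ∀ p i, D p (FreeGroup.of i) = if p.1 = i then Pi.single p.2 1 else 0)
    {L : Type} [CommRing L] (f : R →+* L) (x : Fin n → κ → L)
    (hx : x ∈ FxR α (tE (mpM f τ))) :
    ∃ (c : Fin n × κ → L) (c' : κ → L), ∀ i u, x i u =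
      ∑ p, c p * f (HdesA τ D p i u) + ∑ v, c' v * f (HdesB τ v i u) := by
  obtain ⟨y, a₀, hy, hya⟩ := hx
  have hy1 : ∀ g, y g = fun u => ∑ p : Fin n × κ, y (FreeGroup.of p.1) p.2 * f (D p g u) := by
    apply Hdes_uq ((tE (mpM f τ)).comp (iR α)) y _ hy
    · intro g h
      funext u
      show ∑ p : Fin n × κ, y (FreeGroup.of p.1) p.2 * f (D p (g * h) u) =
        ∑ p : Fin n × κ, y (FreeGroup.of p.1) p.2 * f (D p g u) +
        ∑ v, f (τ (iR α g) u v) * ∑ p : Fin n × κ, y (FreeGroup.of p.1) p.2 * f (D p h v)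
      simp only [Finset.mul_sum]
      rw [Finset.sum_comm, ← Finset.sum_add_distrib]
      refine Finset.sum_congr rfl fun p _ => ?_
      rw [hD, Pi.add_apply, map_add, mul_add]
      congr 1
      simp only [Matrix.mulVec, dotProduct]
      rw [map_sum, Finset.mul_sum]
      refine Finset.sum_congr rfl fun v _ => ?_
      rw [map_mul]
      ring
    · intro i
      funext u
      rw [Finset.sum_eq_single (i, u)]
      · rw [hD', if_pos rfl, Pi.single_eq_same, map_one, mul_one]
      · intro p _ hp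
        rw [hD']
        by_cases h1 : p.1 = i
        · rw [if_pos h1]
          have h2 : u ≠ p.2 := by
            rintro rfl
            exact hp (Prod.ext h1 rfl)
          rw [Pi.single_eq_of_ne h2, map_zero, mul_zero]
        · rw [if_neg h1, Pi.zero_apply, map_zero, mul_zero]
      · intro h1
        exact absurd (Finset.mem_univ _) h1
  refine ⟨fun p => y (FreeGroup.of p.1) p.2, a₀, fun i u => ?_⟩
  have h1 := congrFun (hya i) u
  rw [h1]
  show y (α (FreeGroup.of i)) u - ∑ v, f (τ (tR α) u v) * y (FreeGroup.of i) v +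
    ∑ v, f (τ (iR α (α (FreeGroup.of i))) u v) * a₀ v - a₀ u = _
  have h2 : y (α (FreeGroup.of i)) u - ∑ v, f (τ (tR α) u v) * y (FreeGroup.of i) v =
      ∑ p : Fin n × κ, y (FreeGroup.of p.1) p.2 * f (HdesA τ D p i u) := by
    have h3 : ∀ v, y (FreeGroup.of i) v = ∑ p : Fin n × κ, y (FreeGroup.of p.1) p.2 *
        f (D p (FreeGroup.of i) v) := fun v => congrFun (hy1 (FreeGroup.of i)) v
    have h4 : y (α (FreeGroup.of i)) u = ∑ p : Fin n × κ, y (FreeGroup.of p.1) p.2 *
        f (D p (α (FreeGroup.of i)) u) := congrFun (hy1 (α (FreeGroup.of i))) u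
    have h5 : ∑ v, f (τ (tR α) u v) * y (FreeGroup.of i) v = ∑ p : Fin n × κ,
        ∑ v, f (τ (tR α) u v) * (y (FreeGroup.of p.1) p.2 * f (D p (FreeGroup.of i) v)) := by
      rw [Finset.sum_comm]
      exact Finset.sum_congr rfl fun v _ => by rw [h3 v, Finset.mul_sum]
    rw [h4, h5, ← Finset.sum_sub_distrib]
    refine Finset.sum_congr rfl fun p _ => ?_
    unfold HdesA
    rw [map_sub, mul_sub]
    congr 1
    simp only [Matrix.mulVec, dotProduct]
    rw [map_sum, Finset.mul_sum]
    refine Finset.sum_congr rfl fun v _ => ?_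
    rw [map_mul]
    ring
  have h5 : ∑ v, f (τ (iR α (α (FreeGroup.of i))) u v) * a₀ v - a₀ u =
      ∑ v, a₀ v * f (HdesB τ v i u) := by
    unfold HdesB
    simp only [map_sub, mul_sub, Finset.sum_sub_distrib]
    congr 1
    · exact Finset.sum_congr rfl fun v _ => mul_comm _ _
    · rw [Finset.sum_eq_single u]
      · rw [Matrix.one_apply_eq, map_one, mul_one]
      · intro v _ hv
        rw [Matrix.one_apply_ne hv.symm, map_zero, mul_zero]
      · intro h1
        exact absurd (Finset.mem_univ _) h1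
  rw [← h2, ← h5]
  ring

private theorem Hdes_of (D : Fin n × κ → FreeGroup (Fin n) → κ → R)
    (hD : ∀ p g h, D p (g * h) = D p g + (τ (iR α g)).mulVec (D p h))
    (c : Fin n × κ → R) (c' : κ → R) (x : Fin n → κ → R)
    (hx : ∀ i u, x i u = ∑ p, c p * HdesA τ D p i u + ∑ v, c' v * HdesB τ v i u) :
    x ∈ FxR α (tE τ) := by
  have hA : ∀ p, HdesA τ D p ∈ FxR α (tE τ) := by
    intro p
    refine ⟨D p, 0, hD p, fun i => ?_⟩
    funext u
    show HdesA τ D p i u = (D p (α (FreeGroup.of i)) - (τ (tR α)).mulVec (D p (FreeGroup.of i)) +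
      (τ (iR α (α (FreeGroup.of i)))).mulVec 0 - 0) u
    rw [Matrix.mulVec_zero, add_zero, sub_zero]
    rfl
  have hB : ∀ v, HdesB τ v ∈ FxR α (tE τ) := by
    intro v
    refine ⟨0, Pi.single v 1, fun g h => ?_, fun i => ?_⟩
    · simp
    · funext u
      show HdesB τ v i u = (0 : κ → R) u - (τ (tR α)).mulVec 0 u +
        (τ (iR α (α (FreeGroup.of i)))).mulVec (Pi.single v 1) u - (Pi.single v 1 : κ → R) u
      rw [Matrix.mulVec_zero, Pi.zero_apply, sub_zero, zero_add, Matrix.mulVec_single_one]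
      show _ = τ (iR α (α (FreeGroup.of i))) u v - (Pi.single v 1 : κ → R) u
      unfold HdesB
      congr 1
      rw [Matrix.one_apply, Pi.single_apply]
  have h1 : x = ∑ p, c p • HdesA τ D p + ∑ v, c' v • HdesB τ v := by
    funext i u
    rw [hx]
    simp only [Pi.add_apply, Finset.sum_apply, Pi.smul_apply, smul_eq_mul]
  rw [h1]
  exact add_mem (sum_mem fun p _ => Submodule.smul_mem _ _ (hA p))
    (sum_mem fun v _ => Submodule.smul_mem _ _ (hB v))

end fox

theorem p_Hdes : H_des := by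
  intro R L _ _ _ f hf n α κ _ _ τ k ρ' ρ l hl
  have hex : ∀ p : Fin n × κ, ∃ y : FreeGroup (Fin n) → κ → R,
      (∀ g h, y (g * h) = y g + (τ (iR α g)).mulVec (y h)) ∧
      ∀ i, y (FreeGroup.of i) = if p.1 = i then Pi.single p.2 1 else 0 := by
    intro p
    exact Hdes_ex ((tE τ).comp (iR α)) (fun i => if p.1 = i then Pi.single p.2 1 else 0)
  choose D hD hD' using hex
  obtain ⟨c, c', hc⟩ := Hdes_to τ D hD hD' f _ hl
  let B : Fin k ⊕ ((Fin n × κ) ⊕ κ) → Fin n × κ → R := fun j q =>
    match j with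
    | Sum.inl j => ρ' j q.1 q.2
    | Sum.inr (Sum.inl p) => HdesA τ D p q.1 q.2
    | Sum.inr (Sum.inr v) => HdesB τ v q.1 q.2
  let l' : Fin k ⊕ ((Fin n × κ) ⊕ κ) → L := fun j =>
    match j with
    | Sum.inl j => l j
    | Sum.inr (Sum.inl p) => c p
    | Sum.inr (Sum.inr v) => c' v
  obtain ⟨d, e, hd, he⟩ := Hdes_lin f hf B (fun q : Fin n × κ => ρ q.1 q.2) l' (by
    intro q
    rw [Fintype.sum_sum_type, Fintype.sum_sum_type]
    have h1 := hc q.1 q.2
    simp only [Pi.sub_apply, Finset.sum_apply, Pi.smul_apply, smul_eq_mul] at h1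
    show f (ρ q.1 q.2) = ∑ j, l j * f (ρ' j q.1 q.2) + (∑ p, c p * f (HdesA τ D p q.1 q.2) +
      ∑ v, c' v * f (HdesB τ v q.1 q.2))
    rw [← h1]
    ring)
  refine ⟨d, fun j => e (Sum.inl j), hd, ?_⟩
  apply Hdes_of τ D hD (fun p => e (Sum.inr (Sum.inl p))) (fun v => e (Sum.inr (Sum.inr v)))
  intro i u
  have h1 := he (i, u)
  rw [Fintype.sum_sum_type, Fintype.sum_sum_type] at h1
  simp only [Pi.sub_apply, Finset.sum_apply, Pi.smul_apply, smul_eq_mul]
  rw [sub_eq_iff_eq_add]
  have h2 : d * ρ i u = ∑ j, e (Sum.inl j) * ρ' j i u +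
      (∑ p, e (Sum.inr (Sum.inl p)) * HdesA τ D p i u +
      ∑ v, e (Sum.inr (Sum.inr v)) * HdesB τ v i u) := h1
  rw [h2]
  ring

end

end Pool.Agent.F8.NL
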