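import Pool.Agent.Lib.MP_305fdd_al.F8.NL.StmH
import Pool.Agent.Lib.MP_305fdd_al.F8.NL.DefsT

/-! Piece `Hev` of project NL: the torus functional. -/

set_option autoImplicit false

namespace Pool.Agent.F8.NL

open Pool.Agent.F8.CG Pool.Agent.F8.BG Pool.Agent.MP_305fdd_al Pool.Agent.Lib.MP_305fdd_al
  Pool.Agent.F8
open scoped QuadraticAlgebra ComplexConjugate Kronecker

variable {a b : ℤ}

private theorem Hev_comm {R : Type} [CommRing R] (e : Fin 2 → R) (s t : R) :
    tv e s * tv e t = tv e t * tv e s := by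
  rw [← (p_Vtv _ e s t).2.1, ← (p_Vtv _ e t s).2.1, add_comm]

private theorem Hev_mul1 {R : Type} [CommRing R] (e : Fin 2 → R) (t : R) :
    (tv e t).val.mulVec e = e := by
  rw [(p_Vtv R e 0 t).1 e]
  have : CG.om e e = 0 := by
    unfold CG.om
    ring
  rw [this, mul_zero, zero_smul, add_zero]

private theorem Hev_fix {R : Type} [CommRing R] (e : Fin 2 → R) (t : R) :
    ((tv e t)⁻¹).val.mulVec e = e := by
  have h : ((tv e t)⁻¹).val.mulVec ((tv e t).val.mulVec e) = e := by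
    rw [Matrix.mulVec_mulVec, ← Matrix.SpecialLinearGroup.coe_mul, inv_mul_cancel,
      Matrix.SpecialLinearGroup.coe_one, Matrix.one_mulVec]
  rwa [Hev_mul1] at h

/-- base change of a vector -/
private theorem Hev_map {L : Type} [CommRing L] (f : Qf a b ℤ →+* L) (e : Fin 2 → Qf a b ℤ)
    (t : Qf a b ℤ) :
    ((SLm f (tv e t))⁻¹).val.mulVec (fun i => f (e i)) = fun i => f (e i) := by
  have h : (fun i => f (((tv e t)⁻¹).val.mulVec e i)) =
      ((SLm f (tv e t))⁻¹).val.mulVec fun i => f (e i) := by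
    rw [← map_inv]
    funext i
    show f (((tv e t)⁻¹).val.mulVec e i) = ((((tv e t)⁻¹).val.map f).mulVec fun i => f (e i)) i
    simp [Matrix.mulVec, dotProduct]
  rw [← h, Hev_fix]

private theorem Hev_evc (m : ℕ) (e : Fin 2 → Qf a b ℤ) (t : Qf a b ℤ)
    (P : Fin (m + 1) × Fin (1 + 1) → ℂ) :
    evc m 1 ((tM m 1 (iC a b) (cC a b) (tv e t)).mulVec P) (vC a b e) =
      evc m 1 P (vC a b e) := by
  rw [evc_tM, ← vC_mv, Hev_fix]

private theorem Hev_evM_map {R S : Type} [CommRing R] [CommRing S] (f : R →+* S) (m n : ℕ)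
    (P : Fin (m + 1) × Fin (n + 1) → R) (e e' : Fin 2 → R) :
    evM m n (fun i => f (P i)) (fun i => f (e i)) (fun i => f (e' i)) = f (evM m n P e e') := by
  unfold evM
  rw [map_sum]
  refine Finset.sum_congr rfl fun i _ => ?_
  rw [map_mul, map_mul, map_mul, map_mul, map_pow, map_pow, map_pow, map_pow]

private theorem Hev_cup (m : ℕ) (z : GQ a b → Fin (m + 1) → Qf a b ℤ)
    (z' : GQ a b → Fin (1 + 1) → Qf a b ℤ) (e : Fin 2 → Qf a b ℤ) (s t : Qf a b ℤ) :
    evM m 1 (cup z z' (tv e s) (tv e t)) e (fun i => cjq a b ℤ (e i)) =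
      evm m (z (tv e s)) e * evm 1 (z' (tv e t)) (fun i => cjq a b ℤ (e i)) := by
  unfold cup
  rw [evM_tens]
  congr 1
  show evm 1 ((sm 1 (SLm (cjq a b ℤ) (tv e s))).mulVec _) _ = _
  rw [evm_sm, Hev_map]

theorem p_Hev (hmap : H_map) (hbv : B_bv) : H_ev := by
  intro a b hneg m hm W N hN e
  have hdom : IsDomain (Qf a b ℤ) := Qf_domain hneg
  have hchar : CharZero (Qf a b ℤ) := ⟨fun x y hxy => by
    have h1 := congrArg QuadraticAlgebra.re hxy
    simpa using h1⟩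
  have hp : tv e (N : Qf a b ℤ) ∈ W := by
    have h := hN.2 e 1
    rwa [mul_one] at h
  have hq : tv e ((N : Qf a b ℤ) * wq a b ℤ) ∈ W := hN.2 e _
  have hc : tv e ((N : Qf a b ℤ) * wq a b ℤ) * tv e (N : Qf a b ℤ) =
      tv e (N : Qf a b ℤ) * tv e ((N : Qf a b ℤ) * wq a b ℤ) := Hev_comm _ _ _
  refine ⟨?_, ?_⟩
  · intro f c h
    show evc m 1 (c _ _ - c _ _) (vC a b e) = 0
    rw [h _ hp _ hq, h _ hq _ hp, hc]
    simp only [evc_sub, evc_add, Hev_evc]
    ring
  · intro z hz z' hz'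
    have hcj := (hmap a b hneg).1
    have hB := (hbv a b hneg m hm (Qf a b ℤ) (RingHom.id _) Function.injective_id).mul W N hN z hz e
    have hinj : Function.Injective (cjq a b ℤ) := by
      intro x y hxy
      rw [← cjq_cjq x, hxy, cjq_cjq]
    have hB' := (hbv a b hneg 1 le_rfl (Qf a b ℤ) (cjq a b ℤ) hinj).mul W N hN z' hz' e
    have hv : (fun i => conj (vC a b e i)) = fun i => iC a b (cjq a b ℤ (e i)) := by
      funext i
      rw [hcj]
      rfl
    have hd : (fun i => iC a b (cup z z' (tv e (N : Qf a b ℤ)) (tv e ((N : Qf a b ℤ) * wq a b ℤ)) i))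
        - (fun i => iC a b (cup z z' (tv e ((N : Qf a b ℤ) * wq a b ℤ)) (tv e (N : Qf a b ℤ)) i)) =
        fun i => iC a b ((cup z z' (tv e (N : Qf a b ℤ)) (tv e ((N : Qf a b ℤ) * wq a b ℤ)) -
          cup z z' (tv e ((N : Qf a b ℤ) * wq a b ℤ)) (tv e (N : Qf a b ℤ))) i) := by
      funext i
      rw [Pi.sub_apply, Pi.sub_apply, map_sub]
    show evM m 1 ((fun i => iC a b (cup z z' (tv e (N : Qf a b ℤ))
      (tv e ((N : Qf a b ℤ) * wq a b ℤ)) i)) - (fun i => iC a b (cup z z'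
      (tv e ((N : Qf a b ℤ) * wq a b ℤ)) (tv e (N : Qf a b ℤ)) i))) (vC a b e)
      (fun i => conj (vC a b e i)) = _
    rw [hd, hv]
    have h1 := Hev_evM_map (iC a b) m 1 (cup z z' (tv e (N : Qf a b ℤ))
      (tv e ((N : Qf a b ℤ) * wq a b ℤ)) - cup z z' (tv e ((N : Qf a b ℤ) * wq a b ℤ))
      (tv e (N : Qf a b ℤ))) e (fun i => cjq a b ℤ (e i))
    refine Eq.trans h1 ?_
    rw [evM_sub, Hev_cup, Hev_cup]
    have h2 := hB (wq a b ℤ)
    have h3 := hB' (wq a b ℤ)
    have h4 : evm m (z (tv e (N : Qf a b ℤ))) e = bv m N (RingHom.id _) z e := rfl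
    have h5 : evm 1 (z' (tv e (N : Qf a b ℤ))) (fun i => cjq a b ℤ (e i)) =
      bv 1 N (cjq a b ℤ) z' e := rfl
    have h6 : evm m (z (tv e ((N : Qf a b ℤ) * wq a b ℤ))) e =
      bv m N (RingHom.id _) z e * wq a b ℤ := h2
    rw [h3, h4, h5, h6]
    have h7 : iC a b (cjq a b ℤ (wq a b ℤ)) = conj (CG.wC a b) := by
      rw [hcj, iC_apply]
      simp [wq]
    have h8 : iC a b (wq a b ℤ) = CG.wC a b := by
      rw [iC_apply]
      simp [wq]
    rw [map_sub, map_mul, map_mul, map_mul, map_mul, map_mul, h7, h8]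
    ring

end Pool.Agent.F8.NL
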