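import Pool.Agent.Lib.MP_305fdd_al.F8.NL.StmH

/-!
# MP_305fdd_al, all lattices (project NL): naturality of the modules
-/

set_option autoImplicit false

namespace Pool.Agent.F8.NL

open Pool.Agent.F8.CG Pool.Agent.F8.BG Pool.Agent.MP_305fdd_al Pool.Agent.Lib.MP_305fdd_al
  Pool.Agent.F8
open scoped QuadraticAlgebra ComplexConjugate Kronecker

noncomputable section

private theorem Hmap_re {a b : ℤ} (h : b ^ 2 + 4 * a < 0) : conj (CG.wC a b) = b - CG.wC a b := by
  rw [wC_eq h]
  simp only [map_add, map_mul, Complex.conj_ofReal, Complex.conj_I]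
  push_cast
  ring

private theorem Hmap_conj {a b : ℤ} (h : b ^ 2 + 4 * a < 0) (x : Qf a b ℤ) :
    iC a b (cjq a b ℤ x) = conj (iC a b x) := by
  rw [iC_apply, iC_apply, cjq_apply, map_add, map_mul, Hmap_re h]
  simp only [map_intCast]
  push_cast
  ring

private theorem Hmap_inj0 {a b : ℤ} (h : b ^ 2 + 4 * a < 0) (x : Qf a b ℤ)
    (hx : iC a b x = 0) : x = 0 := by
  rw [iC_apply] at hx
  have h1 := congrArg Complex.im hx
  have h2 := congrArg Complex.re hx
  simp only [Complex.add_im, Complex.mul_im, Complex.intCast_im, Complex.intCast_re, zero_mul,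
    add_zero, zero_add, Complex.zero_im] at h1
  have h3 : (x.im : ℝ) = 0 := by
    rcases mul_eq_zero.1 h1 with h4 | h4
    · exact h4
    · exact absurd h4 (wC_im h).ne'
  have h4 : x.im = 0 := by exact_mod_cast h3
  simp only [h4, Int.cast_zero, zero_mul, add_zero, Complex.intCast_re, Complex.zero_re] at h2
  have h5 : x.re = 0 := by exact_mod_cast h2
  exact QuadraticAlgebra.ext h5 h4

private theorem Hmap_tV {a b : ℤ} (m : ℕ) {K L : Type} [CommRing K] [CommRing L]
    (g : Qf a b ℤ →+* K) (f : K →+* L) : tV m (f.comp g) = mpM f (tV m g) := by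
  ext x i j
  show sm m (SLm (f.comp g) x) i j = f (sm m (SLm g x) i j)
  rw [sm_apply, sm_apply]
  have h : ((SLm (f.comp g) x)⁻¹).val = (((SLm g x)⁻¹).val).map f := by
    rw [← map_inv, ← map_inv]
    rfl
  rw [h, sb_map]
  rfl

theorem p_Hmap : H_map := by
  intro a b hD
  have hc := Hmap_conj hD
  refine ⟨hc, ?_, ?_, ?_, ?_⟩
  · rw [injective_iff_map_eq_zero]
    exact Hmap_inj0 hD
  · intro m L _ f
    exact Hmap_tV m (RingHom.id _) f
  · intro m
    have h1 : cC a b = (iC a b).comp (cjq a b ℤ) := by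
      ext x
      exact (hc x).symm
    have h2 : tM m 1 (iC a b) (cC a b) = kr (mpM (iC a b) (tV m (RingHom.id _)))
        (mpM (iC a b) (tV 1 (cjq a b ℤ))) := by
      rw [← Hmap_tV, ← Hmap_tV, ← h1]
      rfl
    rw [h2]
    ext x p q
    show iC a b _ * iC a b _ = iC a b (_ * _)
    rw [map_mul]
  · intro W N z hz
    refine ⟨?_, ?_⟩
    · intro x hx y hy
      have h1 := hz x hx y hy
      funext i
      have h2 := congrArg (cjq a b ℤ) (congrFun h1 i)
      have h3 : tV 1 (cjq a b ℤ) = mpM (cjq a b ℤ) (tV 1 (RingHom.id (Qf a b ℤ))) :=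
        Hmap_tV 1 (RingHom.id _) (cjq a b ℤ)
      beta_reduce
      rw [h2, Pi.add_apply, Pi.add_apply, map_add, h3]
      congr 1
      simp only [Matrix.mulVec, dotProduct]
      rw [map_sum]
      refine Finset.sum_congr rfl fun j _ => ?_
      rw [map_mul]
      rfl
    · intro e
      exact evm_map (cjq a b ℤ) 1 (z (tv e (N : Qf a b ℤ))) e

end

end Pool.Agent.F8.NL
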