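import Pool.Agent.Lib.MP_305fdd_al.F8.NL.StmH
import Pool.Agent.Lib.MP_305fdd_al.F8.CG.P_Uext

/-!
# MP_305fdd_al, all lattices (project NL): the relation vector of a 2-cocycle of `F ⋊ ℤ`
-/

set_option autoImplicit false

namespace Pool.Agent.F8.NL

open Pool.Agent.F8.CG Pool.Agent.F8.BG Pool.Agent.MP_305fdd_al Pool.Agent.Lib.MP_305fdd_al
  Pool.Agent.F8
open scoped QuadraticAlgebra ComplexConjugate Kronecker

noncomputable section

/-! ### extensions -/

/-- an extension with the 2-cocycle `c` -/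
private structure HrelX {G K V E : Type} [Group G] [Group E] [CommRing K] [AddCommGroup V]
    [Module K V] (σ : G →* Module.End K V) (c : G → G → V) (pr : E →* G)
    (j : Multiplicative V →* E) (s : G → E) : Prop where
  inj : Function.Injective j
  ker : ∀ u, pr u = 1 ↔ ∃ v, j v = u
  sec : ∀ x, pr (s x) = x
  mul : ∀ x y, s x * s y = j (Multiplicative.ofAdd (c x y)) * s (x * y)
  cnj : ∀ u v, u * j (Multiplicative.ofAdd v) * u⁻¹ = j (Multiplicative.ofAdd (σ (pr u) v))

/-- twisted crossed homomorphisms -/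
private def HrelT {G H K V : Type} [Group G] [Group H] [CommRing K] [AddCommGroup V]
    [Module K V] (σ : G →* Module.End K V) (c : G → G → V) (ρ : H →* G) (f : H → V) : Prop :=
  ∀ g h, f (g * h) = f g + σ (ρ g) (f h) + c (ρ g) (ρ h)

section ext

variable {G H K V E : Type} [Group G] [Group H] [Group E] [CommRing K] [AddCommGroup V]
  [Module K V] {σ : G →* Module.End K V} {c : G → G → V} {pr : E →* G}
  {j : Multiplicative V →* E} {s : G → E}

private theorem Hrel_prod (h : HrelX σ c pr j s) (a b : V) (x y : G) :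
    (j (Multiplicative.ofAdd a) * s x) * (j (Multiplicative.ofAdd b) * s y) =
      j (Multiplicative.ofAdd (a + σ x b + c x y)) * s (x * y) := by
  have h1 : s x * j (Multiplicative.ofAdd b) = j (Multiplicative.ofAdd (σ x b)) * s x := by
    have h2 := h.cnj (s x) b
    rw [h.sec] at h2
    rw [← h2]
    group
  calc (j (Multiplicative.ofAdd a) * s x) * (j (Multiplicative.ofAdd b) * s y)
      = j (Multiplicative.ofAdd a) * (s x * j (Multiplicative.ofAdd b)) * s y := by group
    _ = j (Multiplicative.ofAdd a) * (j (Multiplicative.ofAdd (σ x b)) * s x) * s y := by rw [h1]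
    _ = j (Multiplicative.ofAdd a) * j (Multiplicative.ofAdd (σ x b)) * (s x * s y) := by group
    _ = j (Multiplicative.ofAdd a) * j (Multiplicative.ofAdd (σ x b)) *
          (j (Multiplicative.ofAdd (c x y)) * s (x * y)) := by rw [h.mul]
    _ = _ := by
        rw [← mul_assoc, ← map_mul, ← map_mul, ← ofAdd_add, ← ofAdd_add]

private theorem Hrel_inj (h : HrelX σ c pr j s) {a b : V} {x : G}
    (hab : j (Multiplicative.ofAdd a) * s x = j (Multiplicative.ofAdd b) * s x) : a = b := by
  have h1 := h.inj (mul_right_cancel hab)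
  exact Multiplicative.ofAdd.injective h1

private def Hrel_hom (h : HrelX σ c pr j s) (ρ : H →* G) (f : H → V) (hf : HrelT σ c ρ f) : H →* E :=
  MonoidHom.mk' (fun g => j (Multiplicative.ofAdd (f g)) * s (ρ g)) (by
    intro g g'
    rw [Hrel_prod h, hf, map_mul])

private theorem Hrel_dec (h : HrelX σ c pr j s) (ρ : H →* G) (Φ : H →* E)
    (hΦ : ∀ g, pr (Φ g) = ρ g) :
    ∃ f : H → V, (∀ g, Φ g = j (Multiplicative.ofAdd (f g)) * s (ρ g)) ∧ HrelT σ c ρ f := by
  have h1 : ∀ g, ∃ a : V, Φ g = j (Multiplicative.ofAdd a) * s (ρ g) := by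
    intro g
    have h2 : pr (Φ g * (s (ρ g))⁻¹) = 1 := by
      rw [map_mul, map_inv, hΦ, h.sec, mul_inv_cancel]
    obtain ⟨a, ha⟩ := (h.ker _).1 h2
    refine ⟨Multiplicative.toAdd a, ?_⟩
    rw [ofAdd_toAdd, ha]
    group
  choose f hf using h1
  refine ⟨f, hf, ?_⟩
  intro g g'
  have h2 := map_mul Φ g g'
  rw [hf, hf g, hf g', Hrel_prod h, map_mul] at h2
  exact Hrel_inj h h2

end ext

section free

variable {G K V E : Type} [Group G] [Group E] [CommRing K] [AddCommGroup V]
  [Module K V] {σ : G →* Module.End K V} {c : G → G → V} {pr : E →* G}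
  {j : Multiplicative V →* E} {s : G → E}

private theorem Hrel_pr (h : HrelX σ c pr j s) (a : V) (x : G) :
    pr (j (Multiplicative.ofAdd a) * s x) = x := by
  rw [map_mul, h.sec, (h.ker _).2 ⟨_, rfl⟩, one_mul]

private theorem Hrel_free_ex (h : HrelX σ c pr j s) {ι : Type} (ρ : FreeGroup ι →* G) (v : ι → V) :
    ∃ f : FreeGroup ι → V, HrelT σ c ρ f ∧ ∀ i, f (FreeGroup.of i) = v i := by
  let Φ : FreeGroup ι →* E :=
    FreeGroup.lift fun i => j (Multiplicative.ofAdd (v i)) * s (ρ (FreeGroup.of i))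
  have hΦ : ∀ g, pr (Φ g) = ρ g := by
    have h1 : pr.comp Φ = ρ := by
      apply FreeGroup.ext_hom
      intro i
      show pr (Φ (FreeGroup.of i)) = _
      rw [FreeGroup.lift_apply_of, Hrel_pr h]
    exact fun g => DFunLike.congr_fun h1 g
  obtain ⟨f, hf, hT⟩ := Hrel_dec h ρ Φ hΦ
  refine ⟨f, hT, fun i => ?_⟩
  have h1 := hf (FreeGroup.of i)
  rw [FreeGroup.lift_apply_of] at h1
  exact (Hrel_inj h h1).symm

end free

section GRα

variable {ι K V E : Type} {α : MulAut (FreeGroup ι)} [Group E] [CommRing K] [AddCommGroup V]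
  [Module K V] {σ : GR α →* Module.End K V} {c : GR α → GR α → V} {pr : E →* GR α}
  {j : Multiplicative V →* E} {s : GR α → E}

private theorem Hrel_GR_ex (h : HrelX σ c pr j s) (f : FreeGroup ι → V) (τ : V)
    (hf : HrelT σ c (iR α) f)
    (hrel : ∀ i, τ + σ (tR α) (f (FreeGroup.of i)) + c (tR α) (iR α (FreeGroup.of i)) =
      f (α (FreeGroup.of i)) + σ (iR α (α (FreeGroup.of i))) τ +
        c (iR α (α (FreeGroup.of i))) (tR α)) :
    ∃ F : GR α → V, HrelT σ c (MonoidHom.id _) F ∧
      (∀ i, F (iR α (FreeGroup.of i)) = f (FreeGroup.of i)) ∧ F (tR α) = τ := by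
  let X : ι → E := fun i => j (Multiplicative.ofAdd (f (FreeGroup.of i))) * s (iR α (FreeGroup.of i))
  let T : E := j (Multiplicative.ofAdd τ) * s (tR α)
  have hlift : ∀ g, FreeGroup.lift X g = j (Multiplicative.ofAdd (f g)) * s (iR α g) := by
    have h1 : FreeGroup.lift X = Hrel_hom h (iR α) f hf := by
      apply FreeGroup.ext_hom
      intro i
      rw [FreeGroup.lift_apply_of]
      rfl
    intro g
    rw [h1]
    rfl
  have hr : ∀ i, T * X i * T⁻¹ = FreeGroup.lift X (α (FreeGroup.of i)) := by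
    intro i
    rw [mul_inv_eq_iff_eq_mul, hlift]
    show (j (Multiplicative.ofAdd τ) * s (tR α)) *
      (j (Multiplicative.ofAdd (f (FreeGroup.of i))) * s (iR α (FreeGroup.of i))) =
      (j (Multiplicative.ofAdd (f (α (FreeGroup.of i)))) * s (iR α (α (FreeGroup.of i)))) *
        (j (Multiplicative.ofAdd τ) * s (tR α))
    rw [Hrel_prod h, Hrel_prod h, hrel, tR_mul]
  let Φ : GR α →* E := liR X T hr
  have hΦi : ∀ i, Φ (iR α (FreeGroup.of i)) = X i := fun i => liR_of hr i
  have hΦt : Φ (tR α) = T := liR_tR hr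
  have hΦ : ∀ g, pr (Φ g) = MonoidHom.id _ g := by
    have h1 : pr.comp Φ = MonoidHom.id _ := by
      apply homR_ext
      · intro i
        show pr (Φ (iR α (FreeGroup.of i))) = _
        rw [hΦi]
        exact Hrel_pr h _ _
      · show pr (Φ (tR α)) = _
        rw [hΦt]
        exact Hrel_pr h _ _
    exact fun g => DFunLike.congr_fun h1 g
  obtain ⟨F, hF, hT⟩ := Hrel_dec h (MonoidHom.id _) Φ hΦ
  refine ⟨F, hT, fun i => ?_, ?_⟩
  · have h1 := hF (iR α (FreeGroup.of i))
    rw [hΦi] at h1
    exact (Hrel_inj h h1).symm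
  · have h1 := hF (tR α)
    rw [hΦt] at h1
    exact (Hrel_inj h h1).symm

end GRα

/-! ### the relation vector -/

theorem p_Hrel : H_rel := by
  intro n α K V _ _ _ σ c hc
  obtain ⟨E, gE, pr, j, s, h1, h2, h3, h4, h5, -⟩ := p_Uext (GR α) K V σ c hc
  have hX : HrelX σ c pr j s := ⟨h1, h2, h3, h4, h5⟩
  constructor
  · obtain ⟨f, hf, hfi⟩ := Hrel_free_ex hX (iR α) (fun _ => (0 : V))
    exact ⟨_, f, hfi, hf, fun i => rfl⟩
  · rintro ρ ⟨f, hf0, hf, hρ⟩
    constructor
    · rintro ⟨f₁, hf₁⟩
      refine ⟨fun g => -(f g + f₁ (iR α g)), -f₁ (tR α), fun g h => ?_, fun i => ?_⟩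
      · have e1 := hf g h
        have e2 := hf₁ (iR α g) (iR α h)
        rw [← map_mul (iR α)] at e2
        beta_reduce
        rw [e1, e2, map_neg, map_add]
        abel
      · have e1 := hf₁ (tR α) (iR α (FreeGroup.of i))
        have e2 := hf₁ (iR α (α (FreeGroup.of i))) (tR α)
        rw [tR_mul] at e1
        beta_reduce
        rw [hρ, e1, e2, hf0, zero_add, map_neg, map_neg]
        abel
    · rintro ⟨y, a₀, hy, hya⟩
      obtain ⟨F, hF, -, -⟩ := Hrel_GR_ex hX (fun g => f g + y g) a₀
        (by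
          intro g h
          beta_reduce
          rw [hf, hy, map_add]
          abel)
        (by
          intro i
          have e1 := hρ i
          rw [hya] at e1
          beta_reduce
          rw [hf0, zero_add]
          have e2 : c (tR α) (iR α (FreeGroup.of i)) =
              (y (α (FreeGroup.of i)) - σ (tR α) (y (FreeGroup.of i)) +
                σ (iR α (α (FreeGroup.of i))) a₀ - a₀) +
              c (iR α (α (FreeGroup.of i))) (tR α) + f (α (FreeGroup.of i)) := by
            rw [e1]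
            abel
          rw [e2]
          abel)
      refine ⟨fun x => -F x, fun x x' => ?_⟩
      have e1 : F (x * x') = F x + σ x (F x') + c x x' := hF x x'
      beta_reduce
      rw [e1, map_neg]
      abel

end

end Pool.Agent.F8.NL
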