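import Pool.Agent.Lib.MP_305fdd_al.F8.NL.StmH

/-!
# MP_305fdd_al, all lattices (project NL): the cup products are a basis
-/

set_option autoImplicit false

namespace Pool.Agent.F8.NL

open Pool.Agent.F8.CG Pool.Agent.F8.BG Pool.Agent.MP_305fdd_al Pool.Agent.Lib.MP_305fdd_al
  Pool.Agent.F8
open scoped QuadraticAlgebra ComplexConjugate Kronecker

noncomputable section

private theorem Hsp_mv {G κ R L : Type} [Group G] [Fintype κ] [DecidableEq κ] [CommRing R]
    [CommRing L] (f : R →+* L) (τ : G →* Matrix κ κ R) (x : G) (w : κ → R) :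
    (fun i => f ((τ x).mulVec w i)) = (mpM f τ x).mulVec fun i => f (w i) := by
  funext i
  exact RingHom.map_mulVec f (τ x) w i

private theorem Hsp_relmap {n : ℕ} {α : MulAut (FreeGroup (Fin n))} {κ R L : Type} [Fintype κ]
    [DecidableEq κ] [CommRing R] [CommRing L] (f : R →+* L) (τ : GR α →* Matrix κ κ R)
    (c : GR α → GR α → κ → R) (ρ : Fin n → κ → R) (h : RelV (tE τ) c ρ) :
    RelV (tE (mpM f τ)) (fun x y i => f (c x y i)) (fun i u => f (ρ i u)) := by
  obtain ⟨F, h1, h2, h3⟩ := h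
  refine ⟨fun g i => f (F g i), ?_, ?_, ?_⟩
  · intro i
    funext u
    show f (F (FreeGroup.of i) u) = 0
    rw [h1]
    exact map_zero f
  · intro g h
    show (fun i => f (F (g * h) i)) = (fun i => f (F g i)) +
      (mpM f τ (iR α g)).mulVec (fun i => f (F h i)) + fun i => f (c (iR α g) (iR α h) i)
    rw [← Hsp_mv f τ, h2]
    funext i
    show f (F g i + (τ (iR α g)).mulVec (F h) i + c (iR α g) (iR α h) i) = _
    rw [map_add, map_add]
    rfl
  · intro i
    funext u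
    show f (ρ i u) = _
    rw [h3]
    show f (c (tR α) (iR α (FreeGroup.of i)) u - c (iR α (α (FreeGroup.of i))) (tR α) u -
      F (α (FreeGroup.of i)) u) = _
    rw [map_sub, map_sub]
    rfl

private theorem Hsp_cocmap {G κ R L : Type} [Group G] [Fintype κ]
    [DecidableEq κ] [CommRing R] [CommRing L] (f : R →+* L) (τ : G →* Matrix κ κ R)
    (c : G → G → κ → R) (h : CocE (tE τ) c) :
    CocE (tE (mpM f τ)) (fun x y i => f (c x y i)) := by
  intro x y z
  have h1 := h x y z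
  show (mpM f τ x).mulVec (fun i => f (c y z i)) - (fun i => f (c (x * y) z i)) +
    (fun i => f (c x (y * z) i)) - (fun i => f (c x y i)) = 0
  rw [← Hsp_mv f τ]
  funext i
  have h2 := congrFun h1 i
  show f ((τ x).mulVec (c y z) i) - f (c (x * y) z i) + f (c x (y * z) i) - f (c x y i) = 0
  rw [← map_sub, ← map_add, ← map_sub]
  rw [show (τ x).mulVec (c y z) i - c (x * y) z i + c x (y * z) i - c x y i = 0 from h2, map_zero]

private theorem Hsp_relsum {n : ℕ} {α : MulAut (FreeGroup (Fin n))} {K V : Type} [CommRing K]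
    [AddCommGroup V] [Module K V] (σ : GR α →* Module.End K V) {k : ℕ} (l : Fin k → K)
    (c : Fin k → GR α → GR α → V) (ρ : Fin k → Fin n → V) (h : ∀ j, RelV σ (c j) (ρ j)) :
    RelV σ (fun x y => ∑ j, l j • c j x y) (∑ j, l j • ρ j) := by
  choose F h1 h2 h3 using h
  refine ⟨fun g => ∑ j, l j • F j g, ?_, ?_, ?_⟩
  · intro i
    show ∑ j, l j • F j (FreeGroup.of i) = 0
    simp only [h1, smul_zero, Finset.sum_const_zero]
  · intro g g'
    show ∑ j, l j • F j (g * g') = ∑ j, l j • F j g + σ (iR α g) (∑ j, l j • F j g') +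
      ∑ j, l j • c j (iR α g) (iR α g')
    rw [map_sum, ← Finset.sum_add_distrib, ← Finset.sum_add_distrib]
    refine Finset.sum_congr rfl fun j _ => ?_
    rw [h2, map_smul, smul_add, smul_add]
  · intro i
    rw [Finset.sum_apply]
    show ∑ j, l j • ρ j i = ∑ j, l j • c j (tR α) (iR α (FreeGroup.of i)) -
      ∑ j, l j • c j (iR α (α (FreeGroup.of i))) (tR α) - ∑ j, l j • F j (α (FreeGroup.of i))
    rw [← Finset.sum_sub_distrib, ← Finset.sum_sub_distrib]
    refine Finset.sum_congr rfl fun j _ => ?_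
    rw [h3, smul_sub, smul_sub]

private theorem Hsp_cocsum {G K V : Type} [Group G] [CommRing K]
    [AddCommGroup V] [Module K V] (σ : G →* Module.End K V) {k : ℕ} (l : Fin k → K)
    (c : Fin k → G → G → V) (h : ∀ j, CocE σ (c j)) :
    CocE σ (fun x y => ∑ j, l j • c j x y) := by
  intro x y z
  show σ x (∑ j, l j • c j y z) - ∑ j, l j • c j (x * y) z + ∑ j, l j • c j x (y * z) -
    ∑ j, l j • c j x y = 0
  rw [map_sum, ← Finset.sum_sub_distrib, ← Finset.sum_add_distrib, ← Finset.sum_sub_distrib]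
  refine Finset.sum_eq_zero fun j _ => ?_
  rw [map_smul, ← smul_sub, ← smul_add, ← smul_sub, h j x y z, smul_zero]

private theorem Hsp_tens_add {R : Type} [CommRing R] {m n : ℕ} (P P' : Fin (m + 1) → R)
    (Q : Fin (n + 1) → R) : tens (P + P') Q = tens P Q + tens P' Q := by
  funext p
  exact add_mul _ _ _

private theorem Hsp_tens_add' {R : Type} [CommRing R] {m n : ℕ} (P : Fin (m + 1) → R)
    (Q Q' : Fin (n + 1) → R) : tens P (Q + Q') = tens P Q + tens P Q' := by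
  funext p
  exact mul_add _ _ _

variable {a b : ℤ}

private theorem Hsp_coc {m : ℕ} {W : Subgroup (GQ a b)} {n : ℕ} {α : MulAut (FreeGroup (Fin n))}
    (e : W ≃* GR α) (z : GQ a b → Fin (m + 1) → Qf a b ℤ)
    (z' : GQ a b → Fin (1 + 1) → Qf a b ℤ) (hz : CH (tV m (RingHom.id _)) W z)
    (hz' : CH (tV 1 (cjq a b ℤ)) W z') :
    CocE (sgO m e) (fun x y => cup z z' (pb e x) (pb e y)) := by
  intro x y w
  have hx : pb e x ∈ W := (e.symm x).2
  have hy : pb e y ∈ W := (e.symm y).2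
  have hw : pb e w ∈ W := (e.symm w).2
  show (tMO a b m (pb e x)).mulVec (cup z z' (pb e y) (pb e w)) -
    cup z z' (pb e (x * y)) (pb e w) + cup z z' (pb e x) (pb e (y * w)) -
    cup z z' (pb e x) (pb e y) = 0
  rw [map_mul, map_mul]
  unfold cup
  rw [show (tMO a b m (pb e x)) = kr (tV m (RingHom.id _)) (tV 1 (cjq a b ℤ)) (pb e x) from rfl,
    kr_tens, hz _ hx _ hy, hz' _ hy _ hw, Matrix.mulVec_add, Hsp_tens_add, Hsp_tens_add',
    Matrix.mulVec_mulVec, map_mul (tV 1 (cjq a b ℤ))]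
  abel

private theorem Hsp_cusp {W : Subgroup (GQ a b)} (g g' x : GQ a b) (hx : x ∈ W) (u : Qf a b ℤ)
    (h : colG g' 0 = u • x.val.mulVec (colG g 0)) :
    (Quotient.mk _ ((g' : GQ a b) : CG.Pr a b) : Cusp W) = Quotient.mk _ ((g : GQ a b) : CG.Pr a b) := by
  apply Quotient.sound
  show MulAction.orbitRel W (CG.Pr a b) _ _
  rw [MulAction.orbitRel_apply]
  refine ⟨⟨x, hx⟩, ?_⟩
  show ((x * g : GQ a b) : CG.Pr a b) = ((g' : GQ a b) : CG.Pr a b)
  rw [QuotientGroup.eq]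
  show ((x * g)⁻¹ * g').val 1 0 = 0
  have h1 : ∀ i, g'.val i 0 = u * (x * g).val i 0 := by
    intro i
    have h2 := congrFun h i
    rw [show colG g' 0 i = g'.val i 0 from rfl] at h2
    rw [h2]
    show u * (x.val.mulVec (colG g 0)) i = u * (x.val * g.val) i 0
    rw [Matrix.mul_apply]
    rfl
  show ((x * g)⁻¹.val * g'.val) 1 0 = 0
  rw [Matrix.mul_apply, Fin.sum_univ_two, h1 0, h1 1, Matrix.SpecialLinearGroup.SL2_inv_expl]
  show (-(x * g).val 1 0) * (u * (x * g).val 0 0) + (x * g).val 0 0 * (u * (x * g).val 1 0) = 0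
  ring

private theorem Hsp_dim {m : ℕ} {W : Subgroup (GQ a b)} {n : ℕ} {α : MulAut (FreeGroup (Fin n))}
    (e : W ≃* GR α)
    (hm : tM m 1 (iC a b) (cC a b) = mpM (iC a b) (tMO a b m)) :
    Module.finrank ℂ (ZE (tE (mpM (iC a b) ((tMO a b m).comp (pb e))))) =
      Module.finrank ℂ (ZE (tE ((tM m 1 (iC a b) (cC a b)).comp W.subtype))) := by
  have h1 : ∀ x : W, tE (mpM (iC a b) ((tMO a b m).comp (pb e))) (e x) =
      tE ((tM m 1 (iC a b) (cC a b)).comp W.subtype) x := by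
    intro x
    rw [hm]
    show Matrix.mulVecLin (mpM (iC a b) (tMO a b m) (pb e (e x))) =
      Matrix.mulVecLin (mpM (iC a b) (tMO a b m) (x : GQ a b))
    rw [show pb e (e x) = (x : GQ a b) by
      show ((e.symm (e x) : W) : GQ a b) = x
      rw [e.symm_apply_apply]]
  refine LinearEquiv.finrank_eq (LinearEquiv.ofLinearMap (M := ZE (tE (mpM (iC a b)
    ((tMO a b m).comp (pb e))))) (M₂ := ZE (tE ((tM m 1 (iC a b) (cC a b)).comp W.subtype)))
    { toFun := fun z => ⟨fun x => z.1 (e x), ?_⟩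
      map_add' := fun _ _ => rfl
      map_smul' := fun _ _ => rfl }
    { toFun := fun z => ⟨fun x => z.1 (e.symm x), ?_⟩
      map_add' := fun _ _ => rfl
      map_smul' := fun _ _ => rfl } ?_ ?_)
  · intro x y
    show z.1 (e (x * y)) = z.1 (e x) + _
    rw [map_mul, z.2 (e x) (e y), h1]
  · intro x y
    show z.1 (e.symm (x * y)) = z.1 (e.symm x) + _
    rw [map_mul, z.2 (e.symm x) (e.symm y), ← h1, e.apply_symm_apply]
  · apply LinearMap.ext
    intro z
    apply Subtype.ext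
    funext x
    show z.1 (e.symm (e x)) = z.1 x
    rw [e.symm_apply_apply]
  · apply LinearMap.ext
    intro z
    apply Subtype.ext
    funext x
    show z.1 (e (e.symm x)) = z.1 x
    rw [e.apply_symm_apply]

private theorem Hsp_evsum {m N k : ℕ} (e : Fin 2 → Qf a b ℤ) (l : Fin k → ℂ)
    (c : Fin k → GQ a b → GQ a b → Fin (m + 1) × Fin (1 + 1) → ℂ) :
    Evt m N e (fun x y => ∑ j, l j • c j x y) = ∑ j, l j * Evt m N e (c j) := by
  unfold Evt evM
  simp only [Finset.mul_sum]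
  rw [Finset.sum_comm]
  refine Finset.sum_congr rfl fun p _ => ?_
  rw [show ((∑ j, l j • c j (tv e (N : Qf a b ℤ)) (tv e ((N : Qf a b ℤ) * wq a b ℤ)) -
    ∑ j, l j • c j (tv e ((N : Qf a b ℤ) * wq a b ℤ)) (tv e (N : Qf a b ℤ))) p) =
    ∑ j, l j * ((c j (tv e (N : Qf a b ℤ)) (tv e ((N : Qf a b ℤ) * wq a b ℤ)) -
      c j (tv e ((N : Qf a b ℤ) * wq a b ℤ)) (tv e (N : Qf a b ℤ))) p) by
    rw [← Finset.sum_sub_distrib, Finset.sum_apply]
    refine Finset.sum_congr rfl fun j _ => ?_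
    simp only [Pi.sub_apply, Pi.smul_apply, smul_eq_mul]
    ring]
  rw [Finset.sum_mul]
  exact Finset.sum_congr rfl fun j _ => mul_assoc _ _ _

private theorem Hsp_wC (h : b ^ 2 + 4 * a < 0) : conj (CG.wC a b) - CG.wC a b ≠ 0 := by
  intro h0
  have h1 := congrArg Complex.im h0
  rw [Complex.sub_im, Complex.conj_im, Complex.zero_im] at h1
  have h2 : (CG.wC a b).im = 0 := by linarith
  rw [wC_eq h] at h2
  have hD : (0 : ℝ) < (-(b ^ 2 + 4 * a : ℤ) : ℝ) := by
    have : ((b ^ 2 + 4 * a : ℤ) : ℝ) < 0 := by exact_mod_cast h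
    linarith
  have h3 := Real.sqrt_pos.2 hD
  simp at h2
  have h4 : Real.sqrt (-(b ^ 2 + 4 * a : ℤ)) = 0 := by
    simpa using h2
  linarith

theorem p_Hsp (hdim : T_dim) (hex : X_ex) (hex1 : X_ex1) (hrel : H_rel) (hdm : H_dm)
    (hdes : H_des) (hmap : H_map) (hev : H_ev) : H_sp := by
  intro a b hneg hEu hPID hFG M₀ hM₀ hLD m hm4 hmE hUn W hWf hWle N hLv n α e
  have hdom : IsDomain (Qf a b ℤ) := BG.Qf_domain hneg
  obtain ⟨hfin, hfd, hle⟩ := hdim a b hneg hEu hPID m hm4 W hWf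
  obtain ⟨-, hinj, -, hM, hcj⟩ := hmap a b hneg
  set k := Nat.card (Cusp W) with hk
  let ε : Fin k ≃ Cusp W := (Finite.equivFin (Cusp W)).symm
  have hg : ∀ j : Fin k, ∃ g : GQ a b,
      (Quotient.mk _ ((g : GQ a b) : CG.Pr a b) : Cusp W) = ε j := by
    intro j
    obtain ⟨p, hp⟩ := Quotient.exists_rep (ε j)
    obtain ⟨g, hg⟩ := QuotientGroup.mk_surjective p
    exact ⟨g, by rw [hg]; exact hp⟩
  choose g hg using hg
  let v : Fin k → Fin 2 → Qf a b ℤ := fun j => colG (g j) 0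
  have hv : ∀ j, Prm (v j) := fun j => ⟨g j, rfl⟩
  have hz := fun j => hex a b hneg hEu hPID hFG m hm4 hmE hUn W hWf N hLv (v j) (hv j)
  choose z hz using hz
  have hz1 := fun j => hex1 a b hneg hEu hPID hFG M₀ hM₀ hLD W hWf hWle N hLv (v j) (hv j)
  choose z1 hz1 using hz1
  let z' : Fin k → GQ a b → Fin (1 + 1) → Qf a b ℤ := fun j x i => cjq a b ℤ (z1 j x i)
  have hz'c : ∀ j, CH (tV 1 (cjq a b ℤ)) W (z' j) := fun j =>
    (hcj W N (z1 j) (hz1 j).1).1
  have hz'b : ∀ j, bv 1 N (cjq a b ℤ) (z' j) (v j) ≠ 0 := by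
    intro j h0
    rw [(hcj W N (z1 j) (hz1 j).1).2 (v j)] at h0
    apply (hz1 j).2.1
    rw [← cjq_cjq (bv 1 N (RingHom.id _) (z1 j) (v j)), h0, map_zero]
  have hoff : ∀ i j, i ≠ j → bv m N (RingHom.id _) (z j) (v i) = 0 := by
    intro i j hij
    refine (hz j).2.2 (v i) (hv i) ?_
    rintro ⟨x, hx, u, -, hxu⟩
    apply hij
    apply ε.injective
    rw [← hg i, ← hg j]
    exact Hsp_cusp (g j) (g i) x hx u hxu
  have hdia : ∀ j, bv m N (RingHom.id _) (z j) (v j) * bv 1 N (cjq a b ℤ) (z' j) (v j) ≠ 0 :=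
    fun j => mul_ne_zero (hz j).2.1 (hz'b j)
  have hcoc : ∀ j, CocE (sgO m e) (fun x y => cup (z j) (z' j) (pb e x) (pb e y)) :=
    fun j => Hsp_coc e (z j) (z' j) (hz j).1 (hz'c j)
  have hρ := fun j => (hrel n α (Qf a b ℤ) (Fin (m + 1) × Fin (1 + 1) → Qf a b ℤ) (sgO m e)
    (fun x y => cup (z j) (z' j) (pb e x) (pb e y)) (hcoc j)).1
  choose ρ hρ using hρ
  refine ⟨k, v, z, z', ρ, fun j => (hz j).1, hz'c, hv, hdia, hoff, hρ, ?_⟩
  intro ρ₀
  -- over the complex numbers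
  let τ : GR α →* Matrix (Fin (m + 1) × Fin (1 + 1)) (Fin (m + 1) × Fin (1 + 1)) (Qf a b ℤ) :=
    (tMO a b m).comp (pb e)
  let σ : GR α →* Module.End ℂ (Fin (m + 1) × Fin (1 + 1) → ℂ) := tE (mpM (iC a b) τ)
  let ρC : Fin k → Fin n → Fin (m + 1) × Fin (1 + 1) → ℂ := fun j i u => iC a b (ρ j i u)
  have hli : LinearIndependent ℂ (fun j => (FxR α σ).mkQ (ρC j)) := by
    rw [Fintype.linearIndependent_iff]
    intro l hl
    have h1 : ∑ j, l j • ρC j ∈ FxR α σ := by
      rw [← Submodule.ker_mkQ (FxR α σ), LinearMap.mem_ker, map_sum, ← hl]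
      exact Finset.sum_congr rfl fun j _ => map_smul _ _ _
    have h2 := fun j => Hsp_relmap (iC a b) τ (fun x y => cup (z j) (z' j) (pb e x) (pb e y))
      (ρ j) (hρ j)
    have h3 := Hsp_relsum σ l (fun j x y i => iC a b (cup (z j) (z' j) (pb e x) (pb e y) i)) ρC h2
    have h4 := Hsp_cocsum σ l (fun j x y i => iC a b (cup (z j) (z' j) (pb e x) (pb e y) i))
      (fun j => Hsp_cocmap (iC a b) τ _ (hcoc j))
    obtain ⟨f, hf⟩ := ((hrel n α ℂ _ σ _ h4).2 _ h3).2 h1
    classical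
    let F : GQ a b → Fin (m + 1) × Fin (1 + 1) → ℂ := fun x =>
      if h : x ∈ W then f (e ⟨x, h⟩) else 0
    have hF : ∀ x (h : x ∈ W), F x = f (e ⟨x, h⟩) := fun x h => dif_pos h
    have h5 : ∀ x ∈ W, ∀ y ∈ W, (∑ j, l j • (fun i => iC a b (cup (z j) (z' j) x y i))) =
        (tM m 1 (iC a b) (cC a b) x).mulVec (F y) - F (x * y) + F x := by
      intro x hx y hy
      have h6 := hf (e ⟨x, hx⟩) (e ⟨y, hy⟩)
      have hpb : ∀ w (hw : w ∈ W), pb e (e ⟨w, hw⟩) = w := by
        intro w hw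
        show ((e.symm (e ⟨w, hw⟩) : W) : GQ a b) = w
        rw [e.symm_apply_apply]
      have h6' : (∑ j, l j • (fun i => iC a b (cup (z j) (z' j) (pb e (e ⟨x, hx⟩))
          (pb e (e ⟨y, hy⟩)) i))) = (mpM (iC a b) (tMO a b m) (pb e (e ⟨x, hx⟩))).mulVec
          (f (e ⟨y, hy⟩)) - f (e ⟨x, hx⟩ * e ⟨y, hy⟩) + f (e ⟨x, hx⟩) := h6
      rw [hpb, hpb] at h6'
      rw [h6', hF y hy, hF x hx, hF (x * y) (mul_mem hx hy), ← map_mul, hM]
      rfl
    intro i
    have h7 := (hev a b hneg m (by omega) W N hLv (v i)).1 F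
      (fun x y => ∑ j, l j • (fun i => iC a b (cup (z j) (z' j) x y i))) h5
    rw [Hsp_evsum (v i) l (fun j x y i => iC a b (cup (z j) (z' j) x y i))] at h7
    rw [Finset.sum_eq_single i] at h7
    · rw [(hev a b hneg m (by omega) W N hLv (v i)).2 (z i) (hz i).1 (z' i) (hz'c i)] at h7
      have h8 : iC a b (bv m N (RingHom.id _) (z i) (v i) * bv 1 N (cjq a b ℤ) (z' i) (v i)) ≠ 0 := by
        intro h0
        exact hdia i (hinj (by rw [h0, map_zero]))
      rcases mul_eq_zero.1 h7 with h9 | h9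
      · exact h9
      · exact absurd h9 (mul_ne_zero h8 (Hsp_wC hneg))
    · intro j _ hji
      rw [(hev a b hneg m (by omega) W N hLv (v i)).2 (z j) (hz j).1 (z' j) (hz'c j),
        hoff i j (Ne.symm hji), zero_mul, map_zero, zero_mul, mul_zero]
    · intro h
      exact absurd (Finset.mem_univ i) h
  have hcard : Module.finrank ℂ ((Fin n → Fin (m + 1) × Fin (1 + 1) → ℂ) ⧸ FxR α σ) ≤ k := by
    have h1 := hdm n α ℂ (Fin (m + 1) × Fin (1 + 1) → ℂ) σ
    have h2 : Module.finrank ℂ (Fin (m + 1) × Fin (1 + 1) → ℂ) = 2 * (m + 1) := by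
      rw [Module.finrank_pi, Fintype.card_prod, Fintype.card_fin, Fintype.card_fin]
      ring
    have h3 : Module.finrank ℂ (ZE σ) ≤ 2 * (m + 1) + k := by
      rw [show Module.finrank ℂ (ZE σ) = _ from Hsp_dim e (hM m)]
      exact hle
    omega
  have hspan : Submodule.span ℂ (Set.range fun j => (FxR α σ).mkQ (ρC j)) = ⊤ := by
    apply LinearIndependent.span_eq_top_of_card_eq_finrank' hli
    apply le_antisymm
    · exact hli.fintype_card_le_finrank
    · rw [Fintype.card_fin]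
      exact hcard
  have hmem : (FxR α σ).mkQ (fun i u => iC a b (ρ₀ i u)) ∈
      Submodule.span ℂ (Set.range fun j => (FxR α σ).mkQ (ρC j)) := by
    rw [hspan]
    exact Submodule.mem_top
  rw [Submodule.mem_span_range_iff_exists_fun] at hmem
  obtain ⟨l, hl⟩ := hmem
  refine hdes (Qf a b ℤ) ℂ (iC a b) hinj n α (Fin (m + 1) × Fin (1 + 1)) τ k ρ ρ₀ l ?_
  show (fun i u => iC a b (ρ₀ i u)) - ∑ j, l j • ρC j ∈ FxR α σ
  rw [← Submodule.ker_mkQ (FxR α σ), LinearMap.mem_ker, map_sub, map_sum, ← hl, sub_eq_zero]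
  exact Finset.sum_congr rfl fun j _ => (map_smul _ _ _).symm

end

end Pool.Agent.F8.NL
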