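import Pool.Agent.Lib.MP_305fdd_al.F8.NL.StmM

/-!
# MP_305fdd_al, all lattices (project NL): the values of the pull-back at the cusps
-/

set_option autoImplicit false

namespace Pool.Agent.F8.NL

open Pool.Agent.F8.CG Pool.Agent.F8.BG Pool.Agent.MP_305fdd_al Pool.Agent.Lib.MP_305fdd_al
  Pool.Agent.F8
open scoped QuadraticAlgebra ComplexConjugate Kronecker

noncomputable section

private theorem Mbv_mem {a b : ℤ} {D : Subgroup (GQ a b)} {h : D →* GH a b}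
    {W : Subgroup (GQ a b)} {x : GQ a b} (hx : x ∈ hcm h W) : ∃ hD : x ∈ D, h ⟨x, hD⟩ ∈ clH W := by
  obtain ⟨y, hy, hyx⟩ := hx
  subst hyx
  exact ⟨y.2, hy⟩

private theorem Mbv_col {R : Type} [CommRing R] (g : SL2 R) :
    g.val.mulVec ![1, 0] = colG g 0 := by
  funext i
  show ∑ j, g.val i j * (![1, 0] : Fin 2 → R) j = g.val i 0
  rw [Fin.sum_univ_two]
  simp

private theorem Mbv_colmul {R : Type} [CommRing R] (x y : SL2 R) :
    colG (x * y) 0 = x.val.mulVec (colG y 0) := rfl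

/-- the value of the extension at the cusp of `k` -/
private theorem Mbv_key {a b : ℤ} {m : ℕ} {X : NF a b} {N : ℕ} (hN : Lv X.N N)
    (hB : BvM a b m (RingHom.id (Qf a b ℤ))) {z : GQ a b → Fin (m + 1) → Qf a b ℤ}
    (hz : CH (tV m (RingHom.id (Qf a b ℤ))) X.N z) {Z : GH a b → Fin (m + 1) → OH a b}
    (hZ : ExtH X.N z Z) {k : GH a b} {g : GQ a b} (hg : Ap X k g) (s : OH a b)
    (hx : k * uH ((N : OH a b) * s) * k⁻¹ ∈ clH X.N) :
    evm m (Z (k * uH ((N : OH a b) * s) * k⁻¹)) (colG (piH a b k) 0) =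
      jH a b (bv m N (RingHom.id _) z (colG g 0)) * s := by
  apply OH_ext
  intro M
  obtain ⟨X', hX', hV⟩ := hZ M
  let U : NF a b := ⟨(X'.N ⊓ X.N) ⊓ (NFG a b M).N, inferInstance, inferInstance⟩
  have u1 : U.N ≤ X'.N := inf_le_left.trans inf_le_left
  have u2 : U.N ≤ X.N := inf_le_left.trans inf_le_right
  have u3 : U.N ≤ (NFG a b M).N := inf_le_right
  obtain ⟨γ, hγ⟩ := Ap_ex U k
  have d1 : ((lvN U : ℕ+) : ℕ) ∣ ((lvN U * M : ℕ+) : ℕ) := by
    rw [PNat.mul_coe]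
    exact dvd_mul_right _ _
  have d2 : (M : ℕ) ∣ ((lvN U * M : ℕ+) : ℕ) := by
    rw [PNat.mul_coe]
    exact dvd_mul_left _ _
  let t₀ : Qf a b ℤ := lfH (lvN U * M) s
  have r1 : rH a b (lvN U) s = Qfm a b (Int.castRingHom (ZMod (lvN U))) t₀ := by
    rw [← rH_map d1, ← lfH_rH (lvN U * M), Qfm_cast d1]
  have r2 : rH a b M s = Qfm a b (Int.castRingHom (ZMod M)) t₀ := by
    rw [← rH_map d2, ← lfH_rH (lvN U * M), Qfm_cast d2]
  have hap : Ap U (uH ((N : OH a b) * s)) (eU ((N : Qf a b ℤ) * t₀)) :=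
    uH_ap U (lvN U) _ _ (lvN_mem U) (by rw [map_mul, map_mul, r1, map_natCast, map_natCast])
  have hapx : Ap U (k * uH ((N : OH a b) * s) * k⁻¹) (γ * eU ((N : Qf a b ℤ) * t₀) * γ⁻¹) := by
    show pr U _ = _
    rw [map_mul, map_mul, map_inv, show pr U k = _ from hγ,
      show pr U (uH ((N : OH a b) * s)) = _ from hap]
    rfl
  have htv : γ * eU ((N : Qf a b ℤ) * t₀) * γ⁻¹ = tv (colG γ 0) ((N : Qf a b ℤ) * t₀) := by
    rw [← (p_Vtv _ ![1, 0] 0 ((N : Qf a b ℤ) * t₀)).2.2.2.2.1,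
      (p_Vtv _ ![1, 0] 0 ((N : Qf a b ℤ) * t₀)).2.2.1, Mbv_col]
  have hn : γ * g⁻¹ ∈ X.N := by
    rw [← QuotientGroup.eq_one_iff]
    show QuotientGroup.mk' X.N (γ * g⁻¹) = 1
    rw [map_mul, map_inv, ← show pr X k = QuotientGroup.mk' X.N γ from Ap_le u2 hγ,
      ← show pr X k = QuotientGroup.mk' X.N g from hg, mul_inv_cancel]
  have hbv : bv m N (RingHom.id _) z (colG γ 0) = bv m N (RingHom.id _) z (colG g 0) := by
    rw [← hB.inv X.N N hN z hz (γ * g⁻¹) hn (colG g 0), ← Mbv_colmul, inv_mul_cancel_right]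
  have hmul := hB.mul X.N N hN z hz (colG γ 0) t₀
  rw [hbv, ← htv] at hmul
  have h1 : ∀ i, rH a b M (Z (k * uH ((N : OH a b) * s) * k⁻¹) i) =
      Qfm a b (Int.castRingHom (ZMod M)) (z (γ * eU ((N : Qf a b ℤ) * t₀) * γ⁻¹) i) :=
    hV _ hx _ (Ap_le u1 hapx)
  have h2 : ∀ i, rH a b M (colG (piH a b k) 0 i) =
      Qfm a b (Int.castRingHom (ZMod M)) (colG γ 0 i) := by
    intro i
    have h3 := pm_ap M (Ap_le u3 hγ)
    exact congrFun (congrFun (congrArg Subtype.val h3) i) 0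
  rw [← evm_map, funext h1, funext h2, evm_map, map_mul, rH_jH, r2, ← map_mul]
  congr 1

theorem p_Mbv (_hext : C_ext) (_hu : C_u) (hbv : B_bv) (hpb : P_pb) (_hcl : C_cl) : M_bv := by
  intro a b hneg m hm D h C E hC X N N₂ hN hN' z hz Z hZ L _ v e k ε hk g hg
  have hdom : IsDomain (Qf a b ℤ) := Qf_domain hneg
  have hchar : CharZero (Qf a b ℤ) := ⟨fun x y hxy => by
    have h1 := congrArg QuadraticAlgebra.re hxy
    simpa using h1⟩
  have hB := hbv a b hneg m hm (Qf a b ℤ) (RingHom.id _) Function.injective_id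
  have hm1 := Mbv_mem (hN'.2 e 1)
  rw [mul_one] at hm1
  obtain ⟨ht, hx⟩ := hm1
  obtain ⟨s, hs1, hs2⟩ := hk.cnj _ ht
  obtain ⟨ε', hε'⟩ := hk.unit.exists_right_inv
  have hdet : C.det * E.det = 1 := by rw [← Matrix.det_mul, hC.inv, Matrix.det_one]
  have hs : s = (N : OH a b) * (ε' ^ 2 * E.det * (N₂ : OH a b)) := by
    rw [map_natCast, Nat.cast_mul] at hs2
    calc s = (ε * ε') ^ 2 * (C.det * E.det) * s := by rw [hε', hdet]; ring
      _ = ε' ^ 2 * E.det * (ε ^ 2 * C.det * s) := by ring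
      _ = _ := by rw [hs2]; ring
  rw [hs1, hs] at hx
  have key := Mbv_key hN hB hz hZ hg (ε' ^ 2 * E.det * (N₂ : OH a b)) hx
  have hvec : C.mulVec (eH e) = ε' • colG (piH a b k) 0 := by
    rw [← Mbv_col, hk.vec, smul_smul, mul_comm ε' ε, hε', one_smul]
  have hval : bv m (N * N₂) (v.comp (jH a b)) (pbk m v h C Z) e =
      v (evm m (Z (h ⟨_, ht⟩)) (C.mulVec (eH e))) :=
    (((hpb a b hneg D h C E hC).1 X.N m L v Z).2.2 e _ ht).1
  rw [hval, hs1, hs, hvec, evm_smul, key, ← map_mul, ← map_natCast v, ← map_mul]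
  congr 1
  generalize jH a b (bv m N (RingHom.id _) z (colG g 0)) = B
  calc ε ^ (m + 2) * C.det * (ε' ^ m * (B * (ε' ^ 2 * E.det * (N₂ : OH a b)))) =
      (ε * ε') ^ (m + 2) * (C.det * E.det) * ((N₂ : OH a b) * B) := by ring
    _ = _ := by rw [hε', hdet, one_pow, one_mul, one_mul]

end

end Pool.Agent.F8.NL
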