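import Pool.Agent.Lib.MP_305fdd_al.F8.NL.StmM

/-!
# MP_305fdd_al, NL: the crossed homomorphisms on the group of the `uH s`

As `E_dc`, over the field of fractions of `ℤ[w]`, then multiplied with a common denominator.
-/

set_option autoImplicit false

namespace Pool.Agent.F8.NL

open Pool.Agent.F8.CG Pool.Agent.F8.BG Pool.Agent.MP_305fdd_al Pool.Agent.Lib.MP_305fdd_al
  Pool.Agent.F8
open scoped QuadraticAlgebra ComplexConjugate
open Polynomial

noncomputable section

section Fld

variable {K : Type} [Field K] [CharZero K]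

private def Mdc_e (c : K) (k : ℕ) : K[X] := ∏ j ∈ Finset.range k, (X + C ((j : K) * c))

omit [CharZero K] in
private theorem Mdc_e_monic (c : K) (k : ℕ) : (Mdc_e c k).Monic :=
  monic_prod_of_monic _ _ fun _ _ => monic_X_add_C _

omit [CharZero K] in
private theorem Mdc_e_deg (c : K) (k : ℕ) : (Mdc_e c k).degree = k := by
  unfold Mdc_e
  rw [degree_prod]
  simp only [degree_X_add_C]
  simp

omit [CharZero K] in
private theorem Mdc_e_diff (c : K) (k : ℕ) :
    Mdc_e c (k + 1) - (Mdc_e c (k + 1)).comp (X - C c) = C (((k : K) + 1) * c) * Mdc_e c k := by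
  have h1 : (Mdc_e c (k + 1)).comp (X - C c) = (X - C c) * Mdc_e c k := by
    unfold Mdc_e
    rw [Polynomial.prod_comp, Finset.prod_range_succ']
    have : ∀ j ∈ Finset.range k, ((X + C (((j + 1 : ℕ) : K) * c)) : K[X]).comp (X - C c) =
        X + C ((j : K) * c) := by
      intro j _
      simp only [add_comp, X_comp, C_comp]
      push_cast
      rw [show (((j : K) + 1) * c) = (j : K) * c + c by ring, C_add]
      ring
    rw [Finset.prod_congr rfl this]
    simp [mul_comm]
  rw [h1]
  unfold Mdc_e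
  rw [Finset.prod_range_succ]
  rw [show (((k : K) + 1) * c) = (k : K) * c + c by ring, C_add]
  ring

private theorem Mdc_surj (c : K) (hc : c ≠ 0) (n : ℕ) : ∀ P : K[X], P.degree < n →
    ∃ G : K[X], G - G.comp (X - C c) = P := by
  induction n with
  | zero =>
    intro P hP
    refine ⟨0, ?_⟩
    have : P = 0 := by
      rw [← degree_eq_bot]
      by_contra h
      have h2 := Polynomial.degree_eq_natDegree (fun h0 => h (by rw [h0, degree_zero]) : P ≠ 0)
      rw [h2] at hP
      exact absurd hP (by simp)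
    rw [this]; simp
  | succ n ih =>
    intro P hP
    have h1 : (P - C (P.coeff n) * Mdc_e c n).degree < n := by
      rw [Polynomial.degree_lt_iff_coeff_zero]
      intro i hi
      rw [coeff_sub, coeff_C_mul]
      rcases eq_or_lt_of_le hi with h | h
      · rw [← h]
        have : (Mdc_e c n).coeff n = 1 := by
          have h2 := Mdc_e_monic c n
          unfold Monic leadingCoeff at h2
          rwa [natDegree_eq_of_degree_eq_some (Mdc_e_deg c n)] at h2
        rw [this]; ring
      · have g1 : P.coeff i = 0 := coeff_eq_zero_of_degree_lt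
          (lt_of_lt_of_le hP (by exact_mod_cast h))
        have g2 : (Mdc_e c n).coeff i = 0 := coeff_eq_zero_of_degree_lt
          (by rw [Mdc_e_deg]; exact_mod_cast h)
        rw [g1, g2]
        ring
    obtain ⟨G, hG⟩ := ih _ h1
    have hn : ((n : K) + 1) ≠ 0 := by exact_mod_cast Nat.succ_ne_zero n
    refine ⟨G + C (P.coeff n / (((n : K) + 1) * c)) * Mdc_e c (n + 1), ?_⟩
    have h2 := Mdc_e_diff c n
    rw [add_comp, mul_comp, C_comp]
    have h3 : C (P.coeff n / (((n : K) + 1) * c)) * (C (((n : K) + 1) * c) * Mdc_e c n) =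
        C (P.coeff n) * Mdc_e c n := by
      rw [← mul_assoc, ← C_mul]
      congr 2
      field_simp
    linear_combination hG + C (P.coeff n / (((n : K) + 1) * c)) * h2 + h3

private theorem Mdc_const (c : K) (hc : c ≠ 0) (P : K[X]) (h : P = P.comp (X - C c)) :
    P = C (P.eval 0) := by
  have h1 : ∀ n : ℕ, P.eval ((n : K) * c) = P.eval 0 := by
    intro n
    induction n with
    | zero => simp
    | succ n ih =>
      rw [h, eval_comp]
      simp only [eval_sub, eval_X, eval_C]
      rw [show (((n + 1 : ℕ) : K) * c - c) = (n : K) * c by push_cast; ring, ih]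
      have := congrArg (fun q => q.eval 0) h
      rw [← h]
  refine Polynomial.eq_of_infinite_eval_eq _ _ ?_
  refine Set.infinite_of_injective_forall_mem (f := fun n : ℕ => (n : K) * c) ?_ ?_
  · intro i j hij
    have : (i : K) * c = (j : K) * c := hij
    exact_mod_cast mul_right_cancel₀ hc this
  · intro n
    show P.eval ((n : K) * c) = (C (P.eval 0)).eval ((n : K) * c)
    rw [h1, eval_C]

/-- the difference equation over a field -/
private theorem Mdc_main {a b : ℤ} (f : Qf a b ℤ →+* K) (hf : Function.Injective f)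
    (hab : b ^ 2 + 4 * a < 0) (N : ℕ) (hN : N ≠ 0) (p : Qf a b ℤ → K[X])
    (hcoc : ∀ s t : Qf a b ℤ, p (s + t) = p s + (p t).comp (X - C ((N : K) * f s))) :
    ∃ (G : K[X]) (r : K), ∀ t : Qf a b ℤ,
      p t = G - G.comp (X - C ((N : K) * f t)) + C (r * f (cjq a b ℤ t)) := by
  have hNC : (N : K) ≠ 0 := by exact_mod_cast hN
  obtain ⟨G, hG⟩ := Mdc_surj ((N : K)) hNC ((p 1).natDegree + 1) (p 1)
    (lt_of_le_of_lt degree_le_natDegree (by exact_mod_cast Nat.lt_succ_self _))
  have hx1 : (N : K) * f 1 = N := by rw [map_one, mul_one]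
  -- composition of translations
  have hcc : ∀ (Q : K[X]) (u v : K), (Q.comp (X - C u)).comp (X - C v) = Q.comp (X - C (u + v)) := by
    intro Q u v
    rw [comp_assoc]
    congr 1
    simp only [sub_comp, X_comp, C_comp, C_add]
    ring
  set k : Qf a b ℤ → K[X] := fun t => p t - G + G.comp (X - C ((N : K) * f t)) with hk
  have hkc : ∀ t, k t = C ((k t).eval 0) := by
    intro t
    apply Mdc_const (N : K) hNC
    have e1 := hcoc 1 t
    have e2 := hcoc t 1
    rw [hx1] at e1
    rw [add_comm t 1, e1] at e2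
    simp only [hk]
    rw [add_comp, sub_comp, hcc]
    rw [← hG, sub_comp, hcc] at e2
    rw [add_comm (N : K) ((N : K) * f t)] at e2
    linear_combination -e2
  have hka : ∀ s t, (k (s + t)).eval 0 = (k s).eval 0 + (k t).eval 0 := by
    intro s t
    have h1 : k (s + t) = k s + (k t).comp (X - C ((N : K) * f s)) := by
      simp only [hk]
      rw [add_comp, sub_comp, hcc, hcoc, map_add, mul_add, add_comm ((N : K) * f t)]
      ring
    rw [h1, eval_add, hkc t, C_comp, eval_C]
  let L : Qf a b ℤ →+ K := AddMonoidHom.mk' (fun t => (k t).eval 0) hka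
  have hL : ∀ t : Qf a b ℤ, L t = (t.re : K) * L 1 + (t.im : K) * L (wq a b ℤ) := by
    intro t
    have h1 : t = t.re • (1 : Qf a b ℤ) + t.im • wq a b ℤ := by
      apply QuadraticAlgebra.ext <;> simp [wq]
    conv_lhs => rw [h1]
    rw [map_add, map_zsmul, map_zsmul, zsmul_eq_mul, zsmul_eq_mul]
  have hft : ∀ t : Qf a b ℤ, f t = (t.re : K) + (t.im : K) * f (wq a b ℤ) := by
    intro t
    have h1 : t = (t.re : Qf a b ℤ) + (t.im : Qf a b ℤ) * wq a b ℤ := by
      apply QuadraticAlgebra.ext <;> simp [wq]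
    conv_lhs => rw [h1]
    rw [map_add, map_mul, map_intCast, map_intCast]
  have hfc : ∀ t : Qf a b ℤ, f (cjq a b ℤ t) =
      (t.re : K) + (t.im : K) * f (cjq a b ℤ (wq a b ℤ)) := by
    intro t
    have h1 : t = (t.re : Qf a b ℤ) + (t.im : Qf a b ℤ) * wq a b ℤ := by
      apply QuadraticAlgebra.ext <;> simp [wq]
    conv_lhs => rw [h1]
    rw [map_add, map_mul, map_intCast, map_intCast, map_add, map_mul, map_intCast, map_intCast]
  have hww : f (cjq a b ℤ (wq a b ℤ)) - f (wq a b ℤ) ≠ 0 := by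
    intro h
    have h1 : cjq a b ℤ (wq a b ℤ) = wq a b ℤ := hf (sub_eq_zero.mp h)
    have h2 := congrArg QuadraticAlgebra.im h1
    have h3 : (-1 : ℤ) = 1 := h2
    norm_num at h3
  obtain ⟨r, hr⟩ : ∃ r : K, r = (L (wq a b ℤ) - L 1 * f (wq a b ℤ)) /
    (f (cjq a b ℤ (wq a b ℤ)) - f (wq a b ℤ)) := ⟨_, rfl⟩
  have hr1 : r * (f (cjq a b ℤ (wq a b ℤ)) - f (wq a b ℤ)) =
      L (wq a b ℤ) - L 1 * f (wq a b ℤ) := by
    rw [hr, div_mul_cancel₀ _ hww]
  refine ⟨G + C ((L 1 - r) / N) * X, r, fun t => ?_⟩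
  have h1 : p t = G - G.comp (X - C ((N : K) * f t)) + C (L t) := by
    have := hkc t
    have h2 : C (L t) = k t := this.symm
    rw [h2]
    simp only [hk]
    ring
  have h6 : (L 1 - r) / N * (N : K) = L 1 - r := div_mul_cancel₀ _ hNC
  have h7 : L t = (L 1 - r) / N * ((N : K) * f t) + r * f (cjq a b ℤ t) := by
    rw [hL t, hfc t, hft t]
    linear_combination (-(t.re : K) - (t.im : K) * f (wq a b ℤ)) * h6 - (t.im : K) * hr1
  rw [h1, h7]
  simp only [add_comp, mul_comp, C_comp, X_comp, C_add, C_mul]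
  ring

end Fld

/-- the polynomial of a form -/
private def Mdc_p {R : Type} [CommRing R] {m : ℕ} (P : Fin (m + 1) → R) : R[X] :=
  ∑ i : Fin (m + 1), C (P i) * X ^ (i : ℕ)

private theorem Mdc_p_eval {R : Type} [CommRing R] {m : ℕ} (P : Fin (m + 1) → R) (x : R) :
    (Mdc_p P).eval x = evm m P ![x, 1] := by
  unfold Mdc_p evm
  rw [eval_finsetSum]
  refine Finset.sum_congr rfl fun i _ => ?_
  simp

/-- the equation over `ℤ[w]` -/
private theorem Mdc_int {a b : ℤ} (hab : b ^ 2 + 4 * a < 0) (N : ℕ) (hN : N ≠ 0)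
    (p : Qf a b ℤ → (Qf a b ℤ)[X])
    (hcoc : ∀ s t : Qf a b ℤ, p (s + t) = p s + (p t).comp (X - C ((N : Qf a b ℤ) * s))) :
    ∃ (d r : Qf a b ℤ) (G : (Qf a b ℤ)[X]), d ≠ 0 ∧ ∀ t : Qf a b ℤ,
      C d * p t = G - G.comp (X - C ((N : Qf a b ℤ) * t)) + C (r * cjq a b ℤ t) := by
  have hdom : IsDomain (Qf a b ℤ) := Qf_domain hab
  obtain ⟨f, hfd⟩ : ∃ f : Qf a b ℤ →+* FractionRing (Qf a b ℤ),
    f = algebraMap (Qf a b ℤ) (FractionRing (Qf a b ℤ)) := ⟨_, rfl⟩
  have hf : Function.Injective f := by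
    rw [hfd]
    exact IsFractionRing.injective (Qf a b ℤ) (FractionRing (Qf a b ℤ))
  have hch : CharZero (FractionRing (Qf a b ℤ)) := by
    have h0 : CharZero (Qf a b ℤ) := ⟨fun i j hij => by
      have := congrArg QuadraticAlgebra.re hij
      simpa using this⟩
    exact charZero_of_injective_ringHom hf
  obtain ⟨G, r, hG⟩ := Mdc_main f hf hab N hN (fun t => (p t).map f) (by
    intro s t
    beta_reduce
    rw [hcoc, Polynomial.map_add, Polynomial.map_comp, Polynomial.map_sub, map_X, map_C,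
      map_mul, map_natCast])
  -- a common denominator
  obtain ⟨d, hd0, hd⟩ : ∃ d : Qf a b ℤ, d ≠ 0 ∧ (∃ r' : Qf a b ℤ, f r' = f d * r) ∧
      ∃ G' : (Qf a b ℤ)[X], G'.map f = C (f d) * G := by
    obtain ⟨d₁, h0, h1⟩ :=
      IsLocalization.integerNormalization_spec (nonZeroDivisors (Qf a b ℤ)) G
    obtain ⟨⟨r₁, d₂⟩, h2⟩ := IsLocalization.surj (nonZeroDivisors (Qf a b ℤ)) r
    rw [← hfd] at h1 h2
    refine ⟨d₁ * d₂.1, mul_ne_zero (nonZeroDivisors.ne_zero h0) (nonZeroDivisors.ne_zero d₂.2),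
      ⟨d₁ * r₁, ?_⟩, ⟨C d₂.1 * IsLocalization.integerNormalization
        (nonZeroDivisors (Qf a b ℤ)) G, ?_⟩⟩
    · have h3 : r * f d₂.1 = f r₁ := h2
      rw [map_mul, map_mul, ← h3]
      ring
    · rw [Polynomial.map_mul, map_C, h1, map_mul, C_mul]
      have h4 : d₁ • G = C (f d₁) * G := by
        rw [← Polynomial.smul_eq_C_mul, hfd, algebraMap_smul]
      rw [h4]
      ring
  obtain ⟨⟨r', hr'⟩, G', hG'⟩ := hd
  refine ⟨d, r', G', hd0, fun t => ?_⟩
  apply Polynomial.map_injective f hf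
  rw [Polynomial.map_mul, map_C, Polynomial.map_add, Polynomial.map_sub, Polynomial.map_comp,
    Polynomial.map_sub, map_X, map_C, map_C, hG', hG t]
  have h5 : f (r' * cjq a b ℤ t) = f d * (r * f (cjq a b ℤ t)) := by
    rw [map_mul, hr', mul_assoc]
  have h6 : f ((N : Qf a b ℤ) * t) = (N : FractionRing (Qf a b ℤ)) * f t := by
    rw [map_mul, map_natCast]
  rw [h5, h6, mul_comp, C_comp, C_mul (a := f d)]
  ring

private theorem Mdc_conj {a b : ℤ} (h : b ^ 2 + 4 * a < 0) (t : Qf a b ℤ) :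
    iC a b (cjq a b ℤ t) = cC a b t := by
  have h0 : conj (CG.wC a b) = (b : ℂ) - CG.wC a b := by
    rw [CG.wC_eq h]
    simp only [map_add, map_mul, Complex.conj_ofReal, Complex.conj_I]
    push_cast
    ring
  show _ = conj (iC a b t)
  rw [iC_apply, iC_apply, map_add, map_mul, map_intCast, map_intCast, h0]
  show ((t.re + b * t.im : ℤ) : ℂ) + ((-t.im : ℤ) : ℂ) * CG.wC a b = _
  push_cast
  ring

private theorem Mdc_inj {a b : ℤ} (h : b ^ 2 + 4 * a < 0) (x : Qf a b ℤ)
    (hx : iC a b x = 0) : x = 0 := by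
  have him := CG.wC_im h
  rw [iC_apply] at hx
  have h1 := congrArg Complex.im hx
  have h2 := congrArg Complex.re hx
  simp only [Complex.add_im, Complex.intCast_im, Complex.mul_im, Complex.intCast_re, zero_mul,
    add_zero, zero_add, Complex.zero_im] at h1
  simp only [Complex.add_re, Complex.intCast_re, Complex.mul_re, Complex.intCast_im, zero_mul,
    sub_zero, Complex.zero_re] at h2
  have h3 : (x.im : ℝ) = 0 := by
    rcases mul_eq_zero.1 h1 with h | h
    · exact h
    · exact absurd h him.ne'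
  rw [h3, zero_mul, add_zero] at h2
  have h4 : x.im = 0 := by exact_mod_cast h3
  have h5 : x.re = 0 := by exact_mod_cast h2
  apply QuadraticAlgebra.ext
  · exact h5
  · exact h4

theorem p_Mdc (hext : C_ext) (hu : C_u) : M_dc := by
  intro a b hab m X₀ N hLv z hz Z hZ
  have _h1 := hext
  have _h2 := hu
  obtain ⟨hN0, hW⟩ := hLv
  have hdom : IsDomain (Qf a b ℤ) := Qf_domain hab
  have hinf : Infinite (Qf a b ℤ) := Infinite.of_injective (fun n : ℤ => (n : Qf a b ℤ)) (by
    intro i j hij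
    have := congrArg QuadraticAlgebra.re hij
    simpa using this)
  have hmem : ∀ t : Qf a b ℤ, (eU ((N : Qf a b ℤ) * t) : GQ a b) ∈ X₀.N := by
    intro t
    rw [eU_eq_tv]
    exact hW _ t
  -- the equation over `ℤ[w]`
  obtain ⟨d, r, G, hd, hG⟩ := Mdc_int hab N hN0 (fun t => Mdc_p (z (eU ((N : Qf a b ℤ) * t)))) (by
    intro s t
    beta_reduce
    apply Polynomial.funext
    intro x
    rw [eval_add, eval_comp]
    simp only [eval_sub, eval_X, eval_C]
    rw [Mdc_p_eval, Mdc_p_eval, Mdc_p_eval]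
    have h1 := hz _ (hmem s) _ (hmem t)
    rw [← eU_add, ← mul_add] at h1
    rw [h1, evm_add]
    congr 1
    show evm m ((sm m (SLm (RingHom.id (Qf a b ℤ)) (eU ((N : Qf a b ℤ) * s)))).mulVec _) _ = _
    rw [evm_sm, eU_map, RingHom.id_apply]
    congr 1
    have h2 : (eU ((N : Qf a b ℤ) * s) : SL2 (Qf a b ℤ))⁻¹ = eU (-((N : Qf a b ℤ) * s)) := by
      rw [inv_eq_iff_mul_eq_one, ← eU_add, add_neg_cancel]
      unfold eU
      apply Subtype.ext
      show !![(1 : Qf a b ℤ), 0; 0, 1] = 1
      exact Matrix.one_fin_two.symm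
    rw [h2]
    show (!![(1 : Qf a b ℤ), -((N : Qf a b ℤ) * s); 0, 1]).mulVec ![x, 1] = _
    funext i
    fin_cases i
    · simp [Matrix.mulVec, dotProduct, Fin.sum_univ_two]
      ring
    · simp [Matrix.mulVec, dotProduct, Fin.sum_univ_two])
  beta_reduce at hG
  have hG2 : ∀ t x : Qf a b ℤ, d * evm m (z (eU ((N : Qf a b ℤ) * t))) ![x, 1] =
      G.eval x - G.eval (x - (N : Qf a b ℤ) * t) + r * cjq a b ℤ t := by
    intro t x
    have h1 := congrArg (fun q => q.eval x) (hG t)
    beta_reduce at h1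
    rw [eval_mul, eval_C, Mdc_p_eval] at h1
    rw [h1]
    simp only [eval_add, eval_sub, eval_comp, eval_X, eval_C]
  refine ⟨d, r, G, hd, ?_, ?_⟩
  · -- the number r
    have hiC : iC a b d ≠ 0 := by
      intro h
      exact hd (Mdc_inj hab d h)
    refine ⟨C ((iC a b d)⁻¹) * (C (iC a b (G.eval 0)) -
      (G.map (iC a b)).comp (C (-(N : ℂ)) * X)), fun t => ?_⟩
    have h1 := congrArg (iC a b) (hG2 t 0)
    have h2 : evm m (z (eU ((N : Qf a b ℤ) * t))) ![0, 1] = z (eU ((N : Qf a b ℤ) * t)) 0 := by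
      unfold evm
      rw [Finset.sum_eq_single 0]
      · simp
      · intro i _ hi
        have h3 : (i : ℕ) ≠ 0 := fun h => hi (Fin.ext h)
        simp [h3]
      · intro h
        exact absurd (Finset.mem_univ _) h
    rw [h2, map_mul, map_add, map_sub, map_mul, Mdc_conj hab] at h1
    show iC a b (z (eU ((N : Qf a b ℤ) * t)) 0) = _
    rw [eval_mul, eval_C, eval_sub, eval_C, eval_comp, eval_mul, eval_C, eval_X]
    have h4 : (G.map (iC a b)).eval (-(N : ℂ) * iC a b t) =
        iC a b (G.eval (0 - (N : Qf a b ℤ) * t)) := by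
      rw [← Polynomial.eval_map_apply]
      congr 1
      rw [map_sub, map_zero, map_mul, map_natCast]
      ring
    rw [h4]
    field_simp
    linear_combination h1
  · -- the completion
    intro s x
    have hcl : uH ((N : OH a b) * s) ∈ clH X₀.N := by
      intro Y
      refine ⟨eU ((N : Qf a b ℤ) * lfH (lvN Y) s), hmem _, ?_⟩
      apply uH_ap Y (lvN Y) _ _ (lvN_mem Y)
      rw [map_mul, map_mul, map_natCast, map_natCast, lfH_rH]
    apply OH_ext
    intro M
    obtain ⟨Y, hY, hYZ⟩ := hZ M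
    obtain ⟨t, ht⟩ : ∃ t, t = lfH (M * lvN Y) s := ⟨_, rfl⟩
    obtain ⟨x', hx'⟩ : ∃ x', x' = lfH M x := ⟨_, rfl⟩
    have ht2 : rH a b (M * lvN Y) s = Qfm a b (Int.castRingHom (ZMod (M * lvN Y : ℕ+))) t := by
      rw [ht, lfH_rH]
    have hxM : rH a b M x = Qfm a b (Int.castRingHom (ZMod M)) x' := by
      rw [hx', lfH_rH]
    have hdv : ((M : ℕ+) : ℕ) ∣ ((M * lvN Y : ℕ+) : ℕ) := by
      rw [PNat.mul_coe]
      exact dvd_mul_right _ _
    have htM : rH a b M s = Qfm a b (Int.castRingHom (ZMod M)) t := by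
      rw [← rH_map hdv, ht2, Qfm_cast]
    have hap : Ap Y (uH ((N : OH a b) * s)) (eU ((N : Qf a b ℤ) * t)) := by
      apply uH_ap Y (M * lvN Y)
      · intro y
        have h1 := lvN_mem Y (((M : ℕ+) : ℕ) * y)
        rw [← mul_assoc, mul_comm (((lvN Y : ℕ+) : ℕ) : Qf a b ℤ)] at h1
        rw [PNat.mul_coe, Nat.cast_mul]
        exact h1
      · rw [map_mul, map_mul, map_natCast, map_natCast, ht2]
    have hZi := hYZ _ hcl _ hap
    obtain ⟨φ, hφ⟩ : ∃ φ : Qf a b ℤ →+* Qf a b (ZMod M), φ = Qfm a b (Int.castRingHom (ZMod M)) :=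
      ⟨_, rfl⟩
    have hφj : ∀ y : Qf a b ℤ, rH a b M (jH a b y) = φ y := by
      intro y
      rw [hφ, rH_jH]
    have hφc : (rH a b M).comp (jH a b) = φ := RingHom.ext hφj
    rw [← hφ] at hxM htM hZi
    have hcj : rH a b M (cjq a b Zh s) = φ (cjq a b ℤ t) := by
      have h1 : rH a b M (cjq a b Zh s) = cjq a b (ZMod M) (rH a b M s) := by
        apply QuadraticAlgebra.ext
        · show rZ M (s.re + (b : Zh) * s.im) = rZ M s.re + (b : ZMod M) * rZ M s.im
          rw [map_add, map_mul, map_intCast]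
        · show rZ M (-s.im) = -rZ M s.im
          rw [map_neg]
      have h2 : φ (cjq a b ℤ t) = cjq a b (ZMod M) (φ t) := by
        rw [hφ]
        apply QuadraticAlgebra.ext
        · show ((t.re + b * t.im : ℤ) : ZMod M) = ((t.re : ℤ) : ZMod M) + (b : ZMod M) * ((t.im : ℤ) : ZMod M)
          push_cast
          ring
        · show ((-t.im : ℤ) : ZMod M) = -((t.im : ℤ) : ZMod M)
          push_cast
          ring
      rw [h1, h2, htM]
    have hev : ∀ (y : OH a b) (y' : Qf a b ℤ), rH a b M y = φ y' →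
        rH a b M ((G.map (jH a b)).eval y) = φ (G.eval y') := by
      intro y y' hy
      rw [← Polynomial.eval_map_apply, Polynomial.map_map, hφc, hy, Polynomial.eval_map_apply]
    have hevm : rH a b M (evm m (Z (uH ((N : OH a b) * s))) ![x, 1]) =
        φ (evm m (z (eU ((N : Qf a b ℤ) * t))) ![x', 1]) := by
      rw [← evm_map, ← evm_map]
      congr 1
      · funext i
        exact hZi i
      · funext i
        fin_cases i
        · exact hxM
        · show rH a b M 1 = φ 1
          rw [map_one, map_one]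
    rw [map_mul, hφj, hevm, ← map_mul, hG2, map_add, map_sub, map_mul, map_add, map_sub, map_mul,
      hφj, hcj, hev x x' hxM, hev (x - (N : OH a b) * s) (x' - (N : Qf a b ℤ) * t) (by
        rw [map_sub, map_mul, map_natCast, hxM, htM, map_sub, map_mul, map_natCast])]

end

end Pool.Agent.F8.NL
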