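import Pool.Agent.Lib.MP_305fdd_al.F8.NL.StmM
import Pool.Agent.Lib.MP_305fdd_al.F8.NL.P_Cu
import Pool.Agent.Lib.MP_305fdd_al.F8.CG.P_Cun

/-!
# MP_305fdd_al, all lattices (project NL): `M_div`

Divisibility in `OH`, and the elements which are approximated by the matrices `eU t`.
-/

set_option autoImplicit false

namespace Pool.Agent.F8.NL

open Pool.Agent.F8.CG Pool.Agent.F8.BG Pool.Agent.MP_305fdd_al Pool.Agent.Lib.MP_305fdd_al
  Pool.Agent.F8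
open scoped QuadraticAlgebra ComplexConjugate Kronecker

private theorem Mdiv_Zh (m : ℕ+) (x : Zh) (hx : rZ m x = 0) :
    ∃ y : Zh, x = ((m : ℕ) : Zh) * y := by
  have h1 : ∀ n : ℕ+, ∃ c : ℕ, x.1 (m * n) = (((m : ℕ) * c : ℕ) : ZMod ((m * n : ℕ+) : ℕ)) := by
    intro n
    have hd : (m : ℕ) ∣ ((m * n : ℕ+) : ℕ) := by
      rw [PNat.mul_coe]
      exact dvd_mul_right _ _
    have h2 : ZMod.castHom hd (ZMod m) (x.1 (m * n)) = 0 := by
      rw [x.2 m (m * n) hd]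
      exact hx
    have h3 : (m : ℕ) ∣ (x.1 (m * n)).val := by
      rw [← ZMod.natCast_eq_zero_iff, ZMod.natCast_val]
      rw [ZMod.castHom_apply] at h2
      exact h2
    obtain ⟨c, hc⟩ := h3
    exact ⟨c, by rw [← hc, ZMod.natCast_zmod_val]⟩
  choose c hc using h1
  have hy : (fun n : ℕ+ => ((c n : ℕ) : ZMod n)) ∈ Zh := by
    intro n n' h
    show ZMod.castHom h (ZMod n) ((c n' : ℕ) : ZMod n') = ((c n : ℕ) : ZMod n)
    rw [map_natCast]
    have hd : ((m * n : ℕ+) : ℕ) ∣ ((m * n' : ℕ+) : ℕ) := by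
      rw [PNat.mul_coe, PNat.mul_coe]
      exact mul_dvd_mul_left _ h
    have h2 := x.2 (m * n) (m * n') hd
    rw [hc, hc, map_natCast, ZMod.natCast_eq_natCast_iff, PNat.mul_coe] at h2
    rw [ZMod.natCast_eq_natCast_iff]
    exact Nat.ModEq.mul_left_cancel' m.ne_zero h2
  refine ⟨⟨_, hy⟩, ?_⟩
  apply Subtype.ext
  funext n
  have hd : (n : ℕ) ∣ ((m * n : ℕ+) : ℕ) := by
    rw [PNat.mul_coe]
    exact dvd_mul_left _ _
  have h3 : (((m : ℕ) : Zh)).1 n = ((m : ℕ) : ZMod n) := map_natCast (rZ n) (m : ℕ)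
  show x.1 n = (((m : ℕ) : Zh)).1 n * ((c n : ℕ) : ZMod n)
  rw [h3, ← x.2 n (m * n) hd, hc, map_natCast, Nat.cast_mul]

variable {a b : ℤ}

private theorem Mdiv_one (m : ℕ+) (x : OH a b) (hx : rH a b m x = 0) :
    ∃ y : OH a b, x = ((m : ℕ) : OH a b) * y := by
  obtain ⟨y, hy⟩ := Mdiv_Zh m x.re (congrArg QuadraticAlgebra.re hx)
  obtain ⟨z, hz⟩ := Mdiv_Zh m x.im (congrArg QuadraticAlgebra.im hx)
  refine ⟨⟨y, z⟩, ?_⟩
  apply QuadraticAlgebra.ext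
  · rw [hy]
    simp
  · rw [hz]
    simp

/-- [NL M div] -/
theorem p_Mdiv (hbor : C_bor) : M_div := by
  intro a b hab
  refine ⟨Mdiv_one, fun x hx => ?_⟩
  have h1 : x ∈ clH (Bor a b) := by
    intro X
    obtain ⟨t, ht⟩ := hx X
    exact ⟨eU t, rfl, ht⟩
  obtain ⟨u, v, h, s, h2⟩ := (hbor a b hab x).1 h1
  obtain ⟨t, ht⟩ := hx (NFG a b 3)
  have h3 : pm 3 x = rdq a b (3 : ℕ+) (eU t) := pm_ap 3 ht
  have h4 : pm 3 x = rdq a b (3 : ℕ+) (dg u v h) * SLm (rH a b 3) (eU s) := by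
    rw [h2, map_mul, pm_iH, ← piH_pm, (p_Cu a b).2.2.1]
  rw [h3] at h4
  have h5 := congrArg (fun g : SL2 (Qf a b (ZMod (3 : ℕ+))) => g.val 0 0) h4
  have h6 : Qfm a b (Int.castRingHom (ZMod (3 : ℕ+))) u = 1 := by
    have h7 : (rdq a b (3 : ℕ+) (eU t)).val 0 0 = 1 := map_one (Qfm a b _)
    have h8 : (rdq a b (3 : ℕ+) (dg u v h) * SLm (rH a b 3) (eU s)).val 0 0 =
        Qfm a b (Int.castRingHom (ZMod (3 : ℕ+))) u * rH a b 3 1 +
          Qfm a b (Int.castRingHom (ZMod (3 : ℕ+))) 0 * rH a b 3 0 := by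
      show ((rdq a b (3 : ℕ+) (dg u v h)).val * (SLm (rH a b 3) (eU s)).val) 0 0 = _
      rw [Matrix.mul_apply, Fin.sum_univ_two]
      rfl
    have h5' : (rdq a b (3 : ℕ+) (eU t)).val 0 0 =
        (rdq a b (3 : ℕ+) (dg u v h) * SLm (rH a b 3) (eU s)).val 0 0 := h5
    rw [h7, h8, map_one, map_zero, zero_mul, add_zero, mul_one] at h5'
    exact h5'.symm
  have h9 := congrArg QuadraticAlgebra.re h6
  have h10 := congrArg QuadraticAlgebra.im h6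
  have h11 : ((3 : ℕ) : ℤ) ∣ u.re - 1 := by
    have h12 : ((u.re : ℤ) : ZMod 3) = ((1 : ℤ) : ZMod 3) := by
      rw [Int.cast_one]
      exact h9
    rw [eq_comm, ZMod.intCast_eq_intCast_iff_dvd_sub] at h12
    exact h12
  have h13 : ((3 : ℕ) : ℤ) ∣ u.im := by
    rw [← ZMod.intCast_zmod_eq_zero_iff_dvd]
    exact h10
  have hu : u = 1 := p_Cun a b hab 3 le_rfl u v h h11 h13
  subst hu
  have hv : v = 1 := by rw [← h, one_mul]
  subst hv
  refine ⟨s, ?_⟩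
  rw [h2]
  have h14 : dg (1 : Qf a b ℤ) 1 h = 1 := by
    rw [AB.mx_one]
    rfl
  rw [h14, map_one, one_mul]

end Pool.Agent.F8.NL
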