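import Pool.Agent.Lib.MP_305fdd_al.F8.NL.StmM

/-!
# MP_305fdd_al, lattices commensurable with `SL₂(ℤ[w])`: piece Mfin, the numbers `ep e` up to units (helper16)
-/

set_option autoImplicit false

namespace Pool.Agent.F8.NL

open Pool.Agent.F8.CG Pool.Agent.F8.BG Pool.Agent.MP_305fdd_al Pool.Agent.Lib.MP_305fdd_al
  Pool.Agent.F8
open scoped QuadraticAlgebra ComplexConjugate Kronecker

noncomputable section

private theorem Mfin_col {R : Type} [CommRing R] (x g : SL2 R) :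
    colG (x * g) 0 = x.val.mulVec (colG g 0) := by
  ext i
  show (x.val * g.val) i 0 = _
  rw [Matrix.mul_apply]
  rfl

private theorem Mfin_eU {R : Type} [CommRing R] (g : SL2 R) (r : R) :
    colG (g * eU r) 0 = colG g 0 := by
  ext i
  show (g.val * !![1, r; 0, 1]) i 0 = g.val i 0
  rw [Matrix.mul_apply, Fin.sum_univ_two]
  simp

private theorem Mfin_dg {R : Type} [CommRing R] (g : SL2 R) (u v : R) (h : u * v = 1) :
    colG (g * dg u v h) 0 = u • colG g 0 := by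
  ext i
  show (g.val * !![u, 0; 0, v]) i 0 = u * g.val i 0
  rw [Matrix.mul_apply, Fin.sum_univ_two]
  simp [mul_comm]

/-- the product of a unit multiple -/
private theorem Mfin_Cs {a b : ℤ} (W : Subgroup (GQ a b)) (c u : Qf a b ℤ) (hu : IsUnit u)
    (e e' : Fin 2 → Qf a b ℤ) (hc : c = u) : Cs W (c • e) e' ↔ Cs W e e' := by
  subst hc
  obtain ⟨w, hw⟩ := isUnit_iff_exists_inv.1 hu
  constructor
  · rintro ⟨x, hx, u', hu', rfl⟩
    refine ⟨x, hx, u' * c, hu'.mul hu, ?_⟩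
    rw [Matrix.mulVec_smul, smul_smul]
  · rintro ⟨x, hx, u', hu', rfl⟩
    refine ⟨x, hx, u' * w, hu'.mul (IsUnit.of_mul_eq_one c (by rw [mul_comm]; exact hw)), ?_⟩
    rw [Matrix.mulVec_smul, smul_smul, mul_assoc, mul_comm w c, hw, mul_one]

private theorem Mfin_Ap_mul {a b : ℤ} {X : NF a b} {x y : GH a b} {g g' : GQ a b}
    (h : Ap X x g) (h' : Ap X y g') : Ap X (x * y) (g * g') := by
  show pr X (x * y) = _
  rw [map_mul, map_mul, show pr X x = _ from h, show pr X y = _ from h']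

private theorem Mfin_Ap_inv {a b : ℤ} {X : NF a b} {x : GH a b} {g : GQ a b}
    (h : Ap X x g) : Ap X x⁻¹ g⁻¹ := by
  show pr X x⁻¹ = _
  rw [map_inv, map_inv, show pr X x = _ from h]

private theorem Mfin_CsH_u {a b : ℤ} (X : NF a b) (k : GH a b) (r : OH a b)
    (e' : Fin 2 → Qf a b ℤ) : CsH X (k * uH r) e' ↔ CsH X k e' := by
  have h0 : Ap X (uH r) (eU (lfH (lvN X) r)) :=
    uH_ap X (lvN X) r (lfH (lvN X) r) (lvN_mem X) (lfH_rH _ r).symm
  constructor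
  · rintro ⟨g, hg, hc⟩
    have h1 := Mfin_Ap_mul hg (Mfin_Ap_inv h0)
    rw [mul_inv_cancel_right] at h1
    refine ⟨_, h1, ?_⟩
    have h2 := Mfin_eU (g * (eU (lfH (lvN X) r))⁻¹) (lfH (lvN X) r)
    rw [inv_mul_cancel_right] at h2
    rw [← h2]
    exact hc
  · rintro ⟨g, hg, hc⟩
    refine ⟨_, Mfin_Ap_mul hg h0, ?_⟩
    rw [Mfin_eU]
    exact hc

private theorem Mfin_CsH_d {a b : ℤ} (X : NF a b) (k : GH a b) (u v : Qf a b ℤ)
    (huv : u * v = 1) (e' : Fin 2 → Qf a b ℤ) :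
    CsH X (k * iH a b (dg u v huv)) e' ↔ CsH X k e' := by
  have h0 : Ap X (iH a b (dg u v huv)) (dg u v huv) := pr_iH X _
  have hu : IsUnit u := IsUnit.of_mul_eq_one v huv
  constructor
  · rintro ⟨g, hg, hc⟩
    have h1 := Mfin_Ap_mul hg (Mfin_Ap_inv h0)
    rw [mul_inv_cancel_right] at h1
    refine ⟨_, h1, ?_⟩
    have h2 := Mfin_dg (g * (dg u v huv)⁻¹) u v huv
    rw [inv_mul_cancel_right] at h2
    rw [h2] at hc
    exact (Mfin_Cs X.N u u hu _ _ rfl).1 hc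
  · rintro ⟨g, hg, hc⟩
    refine ⟨_, Mfin_Ap_mul hg h0, ?_⟩
    rw [Mfin_dg]
    exact (Mfin_Cs X.N u u hu _ _ rfl).2 hc

/-- PIECE NL Mfin -/
theorem p_Mfin (hk : M_k) : M_fin := by
  intro a b M₀ m H D hD h C E hC K ep hK
  have key : ∀ (x : D) (u : Qf a b ℤ) (e : Fin 2 → Qf a b ℤ), IsUnit u → Prm e →
      ep (u • (x : GQ a b).val.mulVec e) ^ (m + 2) = ep e ^ (m + 2) ∧
      ∀ (X : NF a b) (e' : Fin 2 → Qf a b ℤ), CsH X (K (u • (x : GQ a b).val.mulVec e)) e' ↔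
        CsH X (h x * K e) e' := by
    intro x u e hu he
    obtain ⟨v, huv⟩ := isUnit_iff_exists_inv.1 hu
    obtain ⟨g, hg⟩ := he
    have hx : Prm ((x : GQ a b).val.mulVec e) := ⟨(x : GQ a b) * g, by rw [Mfin_col, hg]⟩
    have hux : Prm (u • (x : GQ a b).val.mulVec e) :=
      ⟨(x : GQ a b) * g * dg u v huv, by rw [Mfin_dg, Mfin_col, hg]⟩
    have h1 : Kap h C ((x : GQ a b).val.mulVec e) (h x * K e) (ep e) :=
      (hk a b M₀ m H D hD h C E hC e (K e) (ep e) ⟨g, hg⟩ (hK e ⟨g, hg⟩)).1 x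
    have h2 := (hk a b M₀ m H D hD h C E hC _ _ _ hx h1).2.1 u v huv
    obtain ⟨u', v', huv', r, h3, h4⟩ :=
      (hk a b M₀ m H D hD h C E hC _ _ _ hux h2).2.2.2 _ _ (hK _ hux)
    have hu' : IsUnit u' := IsUnit.of_mul_eq_one v' huv'
    refine ⟨?_, fun X e' => ?_⟩
    · rw [h4, mul_pow, ← map_pow, H.une u' hu', map_one, one_mul]
    · rw [h3, ← mul_assoc, Mfin_CsH_u, Mfin_CsH_d, Mfin_CsH_d]
  refine ⟨key, ?_⟩
  classical
  have hfin : Finite (GQ a b ⧸ D) := Subgroup.finite_quotient_of_finiteIndex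
  let _ : Fintype (GQ a b ⧸ D) := Fintype.ofFinite _
  refine ⟨Finset.univ.image fun q : GQ a b ⧸ D =>
    ep (colG (Quotient.out q : GQ a b)⁻¹ 0) ^ (m + 2), ?_⟩
  rintro e ⟨g, rfl⟩
  let q : GQ a b ⧸ D := QuotientGroup.mk g⁻¹
  have h1 : (QuotientGroup.mk (Quotient.out q) : GQ a b ⧸ D) = QuotientGroup.mk g⁻¹ :=
    Quotient.out_eq' q
  have h2 := QuotientGroup.eq.1 h1
  refine Finset.mem_image.2 ⟨q, Finset.mem_univ _, ?_⟩
  have h3 := (key ⟨_, D.inv_mem h2⟩ 1 (colG (Quotient.out q : GQ a b)⁻¹ 0) isUnit_one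
    ⟨_, rfl⟩).1
  rw [one_smul, ← Mfin_col] at h3
  rw [← h3]
  congr 3
  group

end

end Pool.Agent.F8.NL
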