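import Pool.Agent.Lib.MP_305fdd_al.F8.NL.StmM

/-!
# MP_305fdd_al, all lattices (project NL): the identity (`M_idn`)
-/

set_option autoImplicit false

namespace Pool.Agent.F8.NL

open Pool.Agent.F8.CG Pool.Agent.F8.BG Pool.Agent.MP_305fdd_al Pool.Agent.Lib.MP_305fdd_al
  Pool.Agent.F8
open scoped QuadraticAlgebra ComplexConjugate Kronecker

noncomputable section

private theorem Midn_pos {P : Prop} (h : P) : indP P = 1 := by
  unfold indP
  exact if_pos h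

private theorem Midn_neg {P : Prop} (h : ¬ P) : indP P = 0 := by
  unfold indP
  exact if_neg h

private theorem Midn_congr {P Q : Prop} (h : P ↔ Q) : indP P = indP Q := by
  rw [propext h]

private theorem Midn_norm (P : Prop) : ‖indP P‖ ≤ 1 := by
  by_cases h : P
  · rw [Midn_pos h, norm_one]
  · rw [Midn_neg h, norm_zero]
    exact zero_le_one

private theorem Midn_sum {α : Type} (J : Finset α) (P : Prop) (Q : α → Prop)
    (h : P → ∃! j, j ∈ J ∧ Q j) (h' : ∀ j ∈ J, Q j → P) : indP P = ∑ j ∈ J, indP (Q j) := by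
  by_cases hp : P
  · obtain ⟨j, ⟨hj, hq⟩, huniq⟩ := h hp
    rw [Finset.sum_eq_single j, Midn_pos hp, Midn_pos hq]
    · intro i hi hij
      exact Midn_neg fun hi' => hij (huniq i ⟨hi, hi'⟩)
    · intro hj'
      exact absurd hj hj'
  · rw [Midn_neg hp, Finset.sum_eq_zero]
    intro j hj
    exact Midn_neg fun hq => hp (h' j hj hq)

private theorem Midn_col {a b : ℤ} (x g : GQ a b) :
    colG (x * g) 0 = x.val.mulVec (colG g 0) := rfl

private theorem Midn_mv {a b : ℤ} (g h : GQ a b) (e : Fin 2 → Qf a b ℤ) :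
    g.val.mulVec (h.val.mulVec e) = (g * h).val.mulVec e := by
  rw [Matrix.mulVec_mulVec]
  rfl

private theorem Midn_one {a b : ℤ} (e : Fin 2 → Qf a b ℤ) :
    (1 : GQ a b).val.mulVec e = e := Matrix.one_mulVec e

private theorem Midn_refl {a b : ℤ} (W : Subgroup (GQ a b)) (e : Fin 2 → Qf a b ℤ) :
    Cs W e e := ⟨1, one_mem W, 1, isUnit_one, by rw [Midn_one, one_smul]⟩

private theorem Midn_symm {a b : ℤ} {W : Subgroup (GQ a b)} {e e' : Fin 2 → Qf a b ℤ}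
    (h : Cs W e e') : Cs W e' e := by
  obtain ⟨x, hx, u, ⟨u, rfl⟩, rfl⟩ := h
  refine ⟨x⁻¹, inv_mem hx, ((u⁻¹ : (Qf a b ℤ)ˣ) : Qf a b ℤ), Units.isUnit _, ?_⟩
  rw [Matrix.mulVec_smul, Midn_mv, inv_mul_cancel, Midn_one, smul_smul, Units.inv_mul, one_smul]

private theorem Midn_trans {a b : ℤ} {W : Subgroup (GQ a b)} {e e' e'' : Fin 2 → Qf a b ℤ}
    (h : Cs W e e') (h' : Cs W e' e'') : Cs W e e'' := by
  obtain ⟨x, hx, u, hu, rfl⟩ := h
  obtain ⟨y, hy, w, hw, rfl⟩ := h'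
  refine ⟨y * x, mul_mem hy hx, w * u, hw.mul hu, ?_⟩
  rw [Matrix.mulVec_smul, Midn_mv, smul_smul]

/-- representatives -/
private theorem Midn_fin {a b : ℤ} (X : NF a b) (S : Set (Fin 2 → Qf a b ℤ)) :
    ∃ J : Finset (Fin 2 → Qf a b ℤ), (∀ j ∈ J, Prm j ∧ j ∈ S) ∧
      ∀ e, Prm e → e ∈ S → ∃! j, j ∈ J ∧ Cs X.N j e := by
  let cls : (Fin 2 → Qf a b ℤ) → Set (Fin 2 → Qf a b ℤ) := fun e => {e' | Cs X.N e e'}
  have hcls : ∀ e e', Cs X.N e e' → cls e = cls e' := fun e e' h =>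
    Set.ext fun f => ⟨fun h' => Midn_trans (Midn_symm h) h', fun h' => Midn_trans h h'⟩
  let s : Set (Fin 2 → Qf a b ℤ) := {e | Prm e ∧ e ∈ S}
  have hfin : (cls '' s).Finite := by
    have hfr : (Set.range fun q : GQ a b ⧸ X.N => cls (colG q.out 0)).Finite :=
      Set.finite_range _
    refine hfr.subset ?_
    rintro _ ⟨e, ⟨⟨g, rfl⟩, _⟩, rfl⟩
    refine ⟨(g : GQ a b ⧸ X.N), ?_⟩
    obtain ⟨x, hx⟩ := QuotientGroup.mk_out_eq_mul X.N g
    show cls (colG ((g : GQ a b ⧸ X.N)).out 0) = _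
    apply hcls
    apply Midn_symm
    refine ⟨g * x * g⁻¹, X.nor.conj_mem x x.2 g, 1, isUnit_one, ?_⟩
    rw [one_smul, ← Midn_col, inv_mul_cancel_right, hx]
  obtain ⟨s', hs', hbij⟩ := Set.exists_subset_bijOn s cls
  have hs'f : s'.Finite := Set.Finite.of_finite_image (hbij.image_eq ▸ hfin) hbij.injOn
  refine ⟨hs'f.toFinset, fun j hj => hs' (hs'f.mem_toFinset.1 hj), fun e he heS => ?_⟩
  obtain ⟨j, hj, hje⟩ := hbij.surjOn ⟨e, ⟨he, heS⟩, rfl⟩
  refine ⟨j, ⟨hs'f.mem_toFinset.2 hj, ?_⟩, ?_⟩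
  · have h1 : e ∈ cls e := Midn_refl X.N e
    rw [← hje] at h1
    exact h1
  · rintro j' ⟨hj', hje'⟩
    exact hbij.injOn (hs'f.mem_toFinset.1 hj') hj ((hcls _ _ hje').trans hje.symm)

private theorem Midn_mul {a b : ℤ} {X : NF a b} {x y : GH a b} {g g' : GQ a b} (h : Ap X x g)
    (h' : Ap X y g') : Ap X (x * y) (g * g') := by
  show pr X (x * y) = _
  rw [map_mul, map_mul, show pr X x = _ from h, show pr X y = _ from h']

private theorem Midn_inv {a b : ℤ} {X : NF a b} {x : GH a b} {g : GQ a b} (h : Ap X x g) :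
    Ap X x⁻¹ g⁻¹ := by
  show pr X x⁻¹ = _
  rw [map_inv, map_inv, show pr X x = _ from h]

private theorem Midn_two {a b : ℤ} {X : NF a b} {x : GH a b} {g g' : GQ a b} (h : Ap X x g)
    (h' : Ap X x g') : ∃ y ∈ X.N, g' = y * g := by
  refine ⟨g' * g⁻¹, ?_, by rw [inv_mul_cancel_right]⟩
  have h1 : QuotientGroup.mk' X.N (g' * g⁻¹) = 1 := by
    rw [map_mul, map_inv, ← show pr X x = QuotientGroup.mk' X.N g from h,
      ← show pr X x = QuotientGroup.mk' X.N g' from h', mul_inv_cancel]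
  exact (QuotientGroup.eq_one_iff (N := X.N) (g' * g⁻¹)).1 h1

private theorem Midn_prm {a b : ℤ} : Prm (![1, 0] : Fin 2 → Qf a b ℤ) := by
  refine ⟨1, ?_⟩
  funext i
  fin_cases i
  · show (1 : Matrix (Fin 2) (Fin 2) (Qf a b ℤ)) 0 0 = 1
    simp
  · show (1 : Matrix (Fin 2) (Fin 2) (Qf a b ℤ)) 1 0 = 0
    simp

private theorem Midn_prm' {a b : ℤ} (g : GQ a b) {e : Fin 2 → Qf a b ℤ} (h : Prm e) :
    Prm (g.val.mulVec e) := by
  obtain ⟨k, rfl⟩ := h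
  exact ⟨g * k, rfl⟩

section Adm

variable {a b : ℤ} {D : Subgroup (GQ a b)} {h : D →* GH a b} {n : ℕ} {X : NF a b}
  {S : Set (Fin 2 → Qf a b ℤ)}

private theorem Midn_cs (hS : Adm h n X S) {e e' : Fin 2 → Qf a b ℤ} (h1 : Cs X.N e e')
    (he : e ∈ S) : e' ∈ S := by
  obtain ⟨x, hx, u, hu, rfl⟩ := h1
  exact hS.uni u hu _ (hS.inv x hx _ he)

/-- the second indicator function and the classes -/
private theorem Midn_cl (hS : Adm h n X S) (k : GH a b) :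
    (∃ g, Ap X k g ∧ colG g 0 ∈ S) ↔ ∃ e', e' ∈ S ∧ CsH X k e' := by
  constructor
  · rintro ⟨g, hg, hgS⟩
    exact ⟨colG g 0, hgS, g, hg, Midn_refl _ _⟩
  · rintro ⟨e', he', g, hg, hc⟩
    exact ⟨g, hg, Midn_cs hS (Midn_symm hc) he'⟩

/-- one half of the invariance of the second function -/
private theorem Midn_tr (hS : Adm h n X S) (t : Qf a b ℤ)
    (ht : (eU ((n : Qf a b ℤ) * t) : GQ a b) ∈ D) (k : GH a b)
    (hk : ∃ g, Ap X k g ∧ colG g 0 ∈ S) : ∃ g, Ap X (h ⟨_, ht⟩ * k) g ∧ colG g 0 ∈ S := by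
  obtain ⟨g, hg, hgS⟩ := hk
  obtain ⟨x, hx⟩ := Ap_ex X (h ⟨_, ht⟩)
  exact ⟨x * g, Midn_mul hx hg, hS.tra t ht x hx _ hgS⟩

end Adm

private theorem Midn_eU {a b : ℤ} (n : ℕ) (t : Qf a b ℤ) :
    (eU ((n : Qf a b ℤ) * -t) : GQ a b) * eU ((n : Qf a b ℤ) * t) = 1 := by
  rw [← eU_add, mul_neg, neg_add_cancel, eU_eq_tv, tv_zero_aux]

/-- the invariance under the first function -/
private theorem Midn_one' {a b : ℤ} (hu : C_u) {D : Subgroup (GQ a b)} {h : D →* GH a b} {n : ℕ}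
    {X : NF a b} {S : Set (Fin 2 → Qf a b ℤ)} (hS : Adm h n X S) (hn : Lv D n)
    {C E : Matrix (Fin 2) (Fin 2) (OH a b)} (hC : C * E = 1) {k : GH a b} {ε : OH a b}
    (hK : Kap h C ![1, 0] k ε) {g₁ : GQ a b} (hg₁ : Ap X k g₁) (t : Qf a b ℤ)
    (e : Fin 2 → Qf a b ℤ) (he : e ∈ S) :
    (g₁ * eU ((n : Qf a b ℤ) * t) * g₁⁻¹).val.mulVec e ∈ S := by
  obtain ⟨hC1, hC2, -, hC4, -, -⟩ := hu a b
  obtain ⟨M, hM⟩ := hC4 X
  have hdet : IsUnit C.det := by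
    have h1 : C.det * E.det = 1 := by rw [← Matrix.det_mul, hC, Matrix.det_one]
    exact IsUnit.of_mul_eq_one _ h1
  have hunit : IsUnit (ε ^ 2 * C.det) := (hK.unit.pow 2).mul hdet
  obtain ⟨s', hs', hs''⟩ := hK.cnj ((n : Qf a b ℤ) * lfH M (ε ^ 2 * C.det * jH a b t))
    (hn.2 ![1, 0] _)
  have h1 : rH a b M (s' - (n : OH a b) * jH a b t) = 0 := by
    have h2 : rH a b M (ε ^ 2 * C.det) * rH a b M (s' - (n : OH a b) * jH a b t) = 0 := by
      rw [← map_mul, mul_sub, hs'', map_sub, map_mul (jH a b), map_mul (rH a b M) (jH a b _) _,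
        rH_jH M (lfH M _), lfH_rH, map_natCast (jH a b), ← map_mul, ← map_sub]
      rw [show (n : OH a b) * (ε ^ 2 * C.det * jH a b t) - ε ^ 2 * C.det *
        ((n : OH a b) * jH a b t) = 0 by ring, map_zero]
    exact (hunit.map (rH a b M)).mul_right_eq_zero.1 h2
  have h3 : pr X (uH s') = pr X (uH ((n : OH a b) * jH a b t)) := by
    have h4 : s' = (s' - (n : OH a b) * jH a b t) + (n : OH a b) * jH a b t := by ring
    rw [h4, hC1, map_mul, hM _ h1, one_mul]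
  have h4 : uH ((n : OH a b) * jH a b t) = iH a b (eU ((n : Qf a b ℤ) * t)) := by
    rw [← hC2, map_mul, map_natCast]
  have h5 : (eU ((n : Qf a b ℤ) * lfH M (ε ^ 2 * C.det * jH a b t)) : GQ a b) ∈ D := by
    rw [eU_eq_tv]
    exact hn.2 ![1, 0] _
  refine hS.tra _ h5 _ ?_ e he
  have h6 : (⟨_, h5⟩ : D) = ⟨_, hn.2 ![1, 0] (lfH M (ε ^ 2 * C.det * jH a b t))⟩ :=
    Subtype.ext (eU_eq_tv _)
  show pr X (h ⟨_, h5⟩) = _
  rw [h6, hs', map_mul, map_mul, map_inv, h3, h4, map_mul, map_mul, map_inv,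
    show pr X k = _ from hg₁]
  rfl

/-- [NL M idn] the identity -/
theorem p_Midn (hid : M_id1) (htil : M_til) (hfin : M_fin) (hE : E_main) (hu : C_u) : M_idn := by
  intro a b M₀ m hP D hD h C E hHD K ep hK v hv n hn X S g₁ hS hg₁
  obtain ⟨n₂, hn₂, hid'⟩ := hid a b M₀ m hP D hD h C E hHD K ep hK v hv n hn.1 X
  obtain ⟨hsum, -⟩ := hE a b hP.neg hP.eu hP.pid m hP.four hP.even hP.une
  have hsum' : ∀ N : ℕ, Summable fun e : PV a b => ‖Jn a b m N e‖ := by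
    intro N
    rcases eq_or_ne N 0 with rfl | hN
    · have h0 : (fun e : PV a b => ‖Jn a b m 0 e‖) = fun _ => 0 := by
        funext e
        unfold Jn
        simp
      rw [h0]
      exact summable_zero
    · exact hsum N hN
  obtain ⟨hf1, J₁, hJ₁⟩ := hfin a b M₀ m hP D hD h C E hHD K ep hK
  obtain ⟨J, hJ, hJu⟩ := Midn_fin X S
  have hK1 := hK ![1, 0] Midn_prm
  -- the two functions
  let F₁ : (Fin 2 → Qf a b ℤ) → ℂ := fun e => indP (g₁.val.mulVec e ∈ S)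
  let c : (Fin 2 → Qf a b ℤ) → ℂ := fun e => (v (ep e ^ (m + 2) * C.det))⁻¹
  let F₂ : (Fin 2 → Qf a b ℤ) → ℂ := fun e => c e * indP (∃ g, Ap X (K e) g ∧ colG g 0 ∈ S)
  have hF₁ : ∀ e : PV a b, F₁ e = ∑ j ∈ J, indP (Cs X.N j (g₁.val.mulVec e)) := by
    intro e
    refine Midn_sum J _ _ (fun h1 => hJu _ (Midn_prm' g₁ e.2) h1) ?_
    intro j hj h1
    exact Midn_cs hS h1 (hJ j hj).2
  have hF₂ : ∀ e : PV a b, indP (∃ g, Ap X (K e) g ∧ colG g 0 ∈ S) =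
      ∑ j ∈ J, indP (CsH X (K e) j) := by
    intro e
    refine Midn_sum J _ _ ?_ ?_
    · rintro ⟨g, hg, hgS⟩
      obtain ⟨j, ⟨hj, hjc⟩, huniq⟩ := hJu (colG g 0) ⟨g, rfl⟩ hgS
      refine ⟨j, ⟨hj, g, hg, Midn_symm hjc⟩, ?_⟩
      rintro j' ⟨hj', g', hg', hc'⟩
      refine huniq j' ⟨hj', ?_⟩
      obtain ⟨y, hy, rfl⟩ := Midn_two hg hg'
      refine Midn_trans (Midn_symm hc') (Midn_symm ⟨y, hy, 1, isUnit_one, ?_⟩)
      rw [one_smul, ← Midn_col]
    · intro j hj h1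
      exact (Midn_cl hS _).2 ⟨j, (hJ j hj).2, h1⟩
  have hcB : ∃ B : ℝ, ∀ e, Prm e → ‖c e‖ ≤ B := by
    refine ⟨∑ x ∈ J₁, ‖(v (x * C.det))⁻¹‖, fun e he => ?_⟩
    exact Finset.single_le_sum (f := fun x => ‖(v (x * C.det))⁻¹‖) (fun x _ => norm_nonneg _)
      (hJ₁ e he)
  obtain ⟨B, hB⟩ := hcB
  have hB0 : 0 ≤ B := (norm_nonneg _).trans (hB _ Midn_prm)
  have hsm : ∀ (F : PV a b → ℂ) (B' : ℝ), (∀ e, ‖F e‖ ≤ B') → ∀ N : ℕ,
      Summable fun e : PV a b => F e * Jn a b m N e := by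
    intro F B' hF N
    refine Summable.of_norm_bounded ((hsum' N).mul_left B') fun e => ?_
    rw [norm_mul]
    exact mul_le_mul_of_nonneg_right (hF e) (norm_nonneg _)
  -- the identity for `n * n₂`
  have hmain : v (ep ![1, 0] * C.det) ^ m * ∑' e : PV a b, F₁ e * Jn a b m (n * n₂) e =
      v (cjq a b Zh (ep ![1, 0] ^ 2 * C.det)) * ∑' e : PV a b, F₂ e * Jn a b m (n * n₂) e := by
    have h1 : ∑' e : PV a b, F₁ e * Jn a b m (n * n₂) e =
        ∑ j ∈ J, ∑' e : PV a b, indP (Cs X.N j (g₁.val.mulVec e)) * Jn a b m (n * n₂) e := by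
      rw [← Summable.tsum_finsetSum]
      · refine tsum_congr fun e => ?_
        rw [hF₁, Finset.sum_mul]
      · intro j _
        exact hsm _ 1 (fun e => Midn_norm _) _
    have h2 : ∑' e : PV a b, F₂ e * Jn a b m (n * n₂) e =
        ∑ j ∈ J, ∑' e : PV a b, (v (ep e ^ (m + 2) * C.det))⁻¹ * indP (CsH X (K e) j) *
          Jn a b m (n * n₂) e := by
      rw [← Summable.tsum_finsetSum]
      · refine tsum_congr fun e => ?_
        show c e * indP _ * _ = _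
        rw [hF₂, Finset.mul_sum, Finset.sum_mul]
      · intro j _
        refine hsm (fun e => (v (ep e ^ (m + 2) * C.det))⁻¹ * indP (CsH X (K e) j)) B
          (fun e => ?_) _
        rw [norm_mul]
        exact (mul_le_mul (hB e e.2) (Midn_norm _) (norm_nonneg _) hB0).trans (mul_one B).le
    rw [h1, h2, Finset.mul_sum, Finset.mul_sum]
    exact Finset.sum_congr rfl fun j hj => hid' j g₁ (hJ j hj).1 hg₁
  -- the invariance
  have hinv₁ : ∀ (t : Qf a b ℤ) (e : Fin 2 → Qf a b ℤ), Prm e →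
      F₁ ((eU ((n : Qf a b ℤ) * t) : GQ a b).val.mulVec e) = F₁ e := by
    intro t e _
    refine Midn_congr ⟨fun h1 => ?_, fun h1 => ?_⟩
    · have h2 := Midn_one' hu hS hn hHD.inv hK1 hg₁ (-t) _ h1
      rw [Midn_mv, Midn_mv] at h2
      have h3 : g₁ * eU ((n : Qf a b ℤ) * -t) * g₁⁻¹ * g₁ * eU ((n : Qf a b ℤ) * t) = g₁ := by
        rw [inv_mul_cancel_right, mul_assoc, Midn_eU, mul_one]
      rwa [h3] at h2
    · have h2 := Midn_one' hu hS hn hHD.inv hK1 hg₁ t _ h1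
      rw [Midn_mv, inv_mul_cancel_right] at h2
      rwa [Midn_mv]
  have hinv₂ : ∀ (t : Qf a b ℤ) (e : Fin 2 → Qf a b ℤ), Prm e →
      F₂ ((eU ((n : Qf a b ℤ) * t) : GQ a b).val.mulVec e) = F₂ e := by
    intro t e he
    have hx : ∀ t : Qf a b ℤ, (eU ((n : Qf a b ℤ) * t) : GQ a b) ∈ D := by
      intro t
      rw [eU_eq_tv]
      exact hn.2 ![1, 0] t
    obtain ⟨h1, h2⟩ := hf1 ⟨_, hx t⟩ 1 e isUnit_one he
    rw [one_smul] at h1 h2
    show (v (ep _ ^ (m + 2) * C.det))⁻¹ * _ = (v (ep _ ^ (m + 2) * C.det))⁻¹ * _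
    rw [h1]
    congr 1
    refine Midn_congr ?_
    rw [Midn_cl hS, exists_congr fun e' => and_congr_right fun _ => h2 X e', ← Midn_cl hS]
    constructor
    · intro h3
      have h4 := Midn_tr hS (-t) (hx (-t)) _ h3
      rwa [← mul_assoc, ← map_mul, show (⟨_, hx (-t)⟩ * ⟨_, hx t⟩ : D) = 1 from
        Subtype.ext (Midn_eU n t), map_one, one_mul] at h4
    · exact Midn_tr hS t (hx t) _
  have htil' := htil a b hP.neg m (by
    have := hP.four
    omega) hsum'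
  rw [htil' F₁ ⟨1, fun e _ => Midn_norm _⟩ n n₂ hinv₁, htil' F₂ ⟨B, fun e he => by
    show ‖c e * _‖ ≤ B
    rw [norm_mul]
    exact (mul_le_mul (hB e he) (Midn_norm _) (norm_nonneg _) hB0).trans (mul_one B).le⟩
    n n₂ hinv₂] at hmain
  have hne : ((n₂ : ℂ) ^ 2) ≠ 0 := pow_ne_zero 2 (Nat.cast_ne_zero.2 hn₂)
  refine mul_left_cancel₀ hne ?_
  linear_combination hmain

end

end Pool.Agent.F8.NL
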