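import Pool.Agent.Lib.MP_305fdd_al.F8.NL.StmM

/-!
# [NL M int] the sum over the orbit
-/

set_option autoImplicit false

namespace Pool.Agent.F8.NL

open Pool.Agent.F8.CG Pool.Agent.F8.BG Pool.Agent.MP_305fdd_al Pool.Agent.Lib.MP_305fdd_al
  Pool.Agent.F8
open scoped QuadraticAlgebra ComplexConjugate Kronecker

noncomputable section

private theorem Mint_inj {a b : ℤ} (h : b ^ 2 + 4 * a < 0) {z : Qf a b ℤ} (hz : z ≠ 0) :
    iC a b z ≠ 0 := by
  intro e
  have hw := wC_im h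
  rw [iC_apply] at e
  have him := congrArg Complex.im e
  have hre := congrArg Complex.re e
  simp only [Complex.add_im, Complex.intCast_im, Complex.mul_im, Complex.intCast_re, zero_mul,
    add_zero, zero_add, Complex.zero_im] at him
  have h1 : (z.im : ℝ) = 0 := (mul_eq_zero.1 him).resolve_right hw.ne'
  have h1' : z.im = 0 := by exact_mod_cast h1
  rw [h1'] at hre
  simp at hre
  exact hz (QuadraticAlgebra.ext hre h1')

private theorem Mint_sD {a b : ℤ} (h : b ^ 2 + 4 * a < 0) : 0 < sD a b := by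
  have : ((b ^ 2 + 4 * a : ℤ) : ℝ) < 0 := by exact_mod_cast h
  exact Real.sqrt_pos.2 (by linarith)

/-- the positive density -/
private def Mint_g (m : ℕ) (e : Fin 2 → ℂ) (x : ℂ) : ℝ :=
  ((‖e 0 - x * e 1‖ ^ 2 + ‖e 1‖ ^ 2) ^ (m + 2))⁻¹

private theorem Mint_g_pos (m : ℕ) (e : Fin 2 → ℂ) (he : e 1 ≠ 0) (x : ℂ) : 0 < Mint_g m e x := by
  have h1 : 0 < ‖e 1‖ := norm_pos_iff.2 he
  unfold Mint_g
  positivity

private theorem Mint_g_cont (m : ℕ) (e : Fin 2 → ℂ) (he : e 1 ≠ 0) :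
    Continuous (Mint_g m e) := by
  have h1 : 0 < ‖e 1‖ := norm_pos_iff.2 he
  unfold Mint_g
  refine Continuous.inv₀ (by fun_prop) fun x => ?_
  positivity

private theorem Mint_Jd (m : ℕ) (e : Fin 2 → ℂ) (x : ℂ) :
    Jd m e x = conj (e 1) ^ (m + 2) * ((Mint_g m e x : ℝ) : ℂ) := by
  unfold Jd Mint_g
  rw [div_pow, div_eq_mul_inv]
  push_cast
  rfl

/-- the positive number -/
private def Mint_r (a b : ℤ) (m N : ℕ) (e : Fin 2 → ℂ) : ℝ :=
  ∫ s in (0 : ℝ)..N, ∫ r in (0 : ℝ)..(N * sD a b), Mint_g m e (s + r * Complex.I)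

private theorem Mint_Jn (a b : ℤ) (m N : ℕ) (e : Fin 2 → Qf a b ℤ) :
    Jn a b m N e = conj (iC a b (e 1)) ^ (m + 2) * ((Mint_r a b m N (vC a b e) : ℝ) : ℂ) := by
  unfold Jn Mint_r
  rw [← intervalIntegral.integral_ofReal, ← intervalIntegral.integral_const_mul]
  refine intervalIntegral.integral_congr fun s _ => ?_
  show (∫ r in (0 : ℝ)..(N * sD a b), Jd m (vC a b e) (s + r * Complex.I)) = _
  rw [← intervalIntegral.integral_ofReal, ← intervalIntegral.integral_const_mul]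
  refine intervalIntegral.integral_congr fun r _ => ?_
  exact Mint_Jd m (vC a b e) _

private theorem Mint_pos {a b : ℤ} (h : b ^ 2 + 4 * a < 0) (m N : ℕ) (hN : N ≠ 0)
    (e : Fin 2 → ℂ) (he : e 1 ≠ 0) : 0 < Mint_r a b m N e := by
  have hN' : (0 : ℝ) < N := by exact_mod_cast Nat.pos_of_ne_zero hN
  have hB : 0 < N * sD a b := mul_pos hN' (Mint_sD h)
  have hc : Continuous (Function.uncurry fun s r : ℝ => Mint_g m e (s + r * Complex.I)) := by
    refine (Mint_g_cont m e he).comp ?_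
    fun_prop
  have hout : Continuous fun s : ℝ => ∫ r in (0 : ℝ)..(N * sD a b),
      Mint_g m e (s + r * Complex.I) :=
    intervalIntegral.continuous_parametric_intervalIntegral_of_continuous' hc _ _
  refine intervalIntegral.intervalIntegral_pos_of_pos (hout.intervalIntegrable _ _)
    (fun s => ?_) hN'
  have hin : Continuous fun r : ℝ => Mint_g m e (s + r * Complex.I) := by
    refine (Mint_g_cont m e he).comp ?_
    fun_prop
  exact intervalIntegral.intervalIntegral_pos_of_pos (hin.intervalIntegrable _ _)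
    (fun r => Mint_g_pos m e he _) hB

private theorem Mint_snd {a b : ℤ} (s : Qf a b ℤ) (f : Fin 2 → Qf a b ℤ) :
    (eU s : GQ a b).val.mulVec f 1 = f 1 := by
  show ((!![1, s; 0, 1] : Matrix (Fin 2) (Fin 2) (Qf a b ℤ)).mulVec f) 1 = f 1
  simp [Matrix.mulVec, dotProduct, Fin.sum_univ_two]

private theorem Mint_self {a b : ℤ} (n : ℕ) (f₀ : Fin 2 → Qf a b ℤ) :
    f₀ = (1 : Qf a b ℤ) • (eU ((n : Qf a b ℤ) * 0) : GQ a b).val.mulVec f₀ := by
  rw [mul_zero, one_smul]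
  have h1 : (eU (0 : Qf a b ℤ) : GQ a b) = 1 := by
    apply Subtype.ext
    show (!![1, 0; 0, 1] : Matrix (Fin 2) (Fin 2) (Qf a b ℤ)) = 1
    exact Matrix.one_fin_two.symm
  rw [h1, Matrix.SpecialLinearGroup.coe_one, Matrix.one_mulVec]

private theorem Mint_tsum {I : Type} (ρ : I → ℝ) (hs : Summable ρ) (h0 : ∀ i, 0 ≤ ρ i) (i : I)
    (hi : 0 < ρ i) : 0 < ∑' i, ρ i := hs.tsum_pos h0 i hi

open Classical in
theorem p_Mint : M_int := by
  intro a b h m hU hsum n hn f₀ hf₀ hf1 c hc hcc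
  set w : ℂ := conj (iC a b (f₀ 1)) ^ (m + 2) with hw
  have hw0 : w ≠ 0 := pow_ne_zero _ ((map_ne_zero _).2 (Mint_inj h hf1))
  set Q : PV a b → Prop := fun e => ∃ u t : Qf a b ℤ, IsUnit u ∧
    (e : Fin 2 → Qf a b ℤ) = u • (eU ((n : Qf a b ℤ) * t) : GQ a b).val.mulVec f₀ with hQ
  have hQw : ∀ e : PV a b, Q e → conj (iC a b (e.1 1)) ^ (m + 2) = w ∧ c e.1 = c f₀ := by
    rintro e ⟨u, t, hu, he⟩
    refine ⟨?_, by rw [he]; exact hcc u t hu⟩
    have h1 : e.1 1 = u * f₀ 1 := by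
      rw [he, Pi.smul_apply, smul_eq_mul, Mint_snd]
    rw [h1, map_mul, map_mul, mul_pow, ← map_pow, ← map_pow, hU u hu, map_one, map_one, one_mul]
  set ρ : PV a b → ℝ := fun e => if Q e then Mint_r a b m n (vC a b e.1) else 0 with hρ
  have hρp : ∀ e, Q e → 0 < Mint_r a b m n (vC a b e.1) := by
    intro e he
    refine Mint_pos h m n hn _ fun h0 => hw0 ?_
    rw [← (hQw e he).1]
    have h1 : iC a b (e.1 1) = 0 := h0
    rw [h1, map_zero, zero_pow (by omega)]
  have hρ0 : ∀ e, 0 ≤ ρ e := by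
    intro e
    simp only [hρ]
    split_ifs with he
    · exact (hρp e he).le
    · exact le_rfl
  have hρs : Summable ρ := by
    refine Summable.of_nonneg_of_le hρ0 (fun e => ?_) ((hsum n).mul_left ‖w‖⁻¹)
    simp only [hρ]
    split_ifs with he
    · rw [Mint_Jn, (hQw e he).1, norm_mul, Complex.norm_real, Real.norm_eq_abs,
        abs_of_pos (hρp e he), inv_mul_cancel_left₀ (norm_ne_zero_iff.2 hw0)]
    · positivity
  have hmain : ∀ e : PV a b, c e * indP (Q e) * Jn a b m n e = (c f₀ * w) * ((ρ e : ℝ) : ℂ) := by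
    intro e
    simp only [hρ, indP]
    split_ifs with he
    · rw [Mint_Jn, (hQw e he).1, (hQw e he).2]
      ring
    · simp
  have hQ0 : Q ⟨f₀, hf₀⟩ := ⟨1, 0, isUnit_one, Mint_self n f₀⟩
  have hρq : ∀ e, Q e → 0 < ρ e := by
    intro e he
    simp only [hρ]
    split_ifs
    exact hρp e he
  have hρf : 0 < ρ ⟨f₀, hf₀⟩ := hρq _ hQ0
  have hpos : 0 < ∑' e, ρ e := Mint_tsum ρ hρs hρ0 _ hρf
  rw [tsum_congr hmain, tsum_mul_left, ← Complex.ofReal_tsum]
  exact mul_ne_zero (mul_ne_zero hc hw0) (Complex.ofReal_ne_zero.2 hpos.ne')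

end

end Pool.Agent.F8.NL
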