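import Pool.Agent.Lib.MP_305fdd_al.F8.NL.StmM

/-!
# MP_305fdd_al, lattices commensurable with `SL₂(ℤ[w])`: piece Mk, the basic facts about `Kap` (helper22)
-/

set_option autoImplicit false

namespace Pool.Agent.F8.NL

open Pool.Agent.F8.CG Pool.Agent.F8.BG Pool.Agent.MP_305fdd_al Pool.Agent.Lib.MP_305fdd_al
  Pool.Agent.F8
open scoped QuadraticAlgebra ComplexConjugate Kronecker

noncomputable section

/-! ### Matrices -/

private theorem Mk_mv {R : Type} [CommRing R] (u v : SL2 R) (e : Fin 2 → R) :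
    (u * v).val.mulVec e = u.val.mulVec (v.val.mulVec e) := by
  rw [Matrix.mulVec_mulVec, ← Matrix.SpecialLinearGroup.coe_mul]

private theorem Mk_eU {R : Type} [CommRing R] (r : R) :
    (eU r : SL2 R).val.mulVec ![1, 0] = ![1, 0] := by
  show (!![1, r; 0, 1] : Matrix (Fin 2) (Fin 2) R).mulVec ![1, 0] = ![1, 0]
  funext i
  fin_cases i <;> simp [Matrix.mulVec, dotProduct, Fin.sum_univ_two]

private theorem Mk_dg {R S : Type} [CommRing R] [CommRing S] (f : R →+* S) (u v : R)
    (h : u * v = 1) : (SLm f (dg u v h)).val.mulVec ![1, 0] = f u • ![1, 0] := by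
  show ((!![u, 0; 0, v] : Matrix (Fin 2) (Fin 2) R).map f).mulVec ![1, 0] = _
  funext i
  fin_cases i <;> simp [Matrix.mulVec, dotProduct, Fin.sum_univ_two]

private theorem Mk_omC {R : Type} [CommRing R] (C : Matrix (Fin 2) (Fin 2) R)
    (x y : Fin 2 → R) : CG.om (C.mulVec x) (C.mulVec y) = C.det * CG.om x y := by
  rw [Matrix.det_fin_two]
  simp only [CG.om, Matrix.mulVec, dotProduct, Fin.sum_univ_two]
  ring

private theorem Mk_oms {R : Type} [CommRing R] (c : R) (x y : Fin 2 → R) :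
    CG.om (c • x) y = c * CG.om x y := by
  simp only [CG.om, Pi.smul_apply, smul_eq_mul]
  ring

private theorem Mk_oms' {R : Type} [CommRing R] (c : R) (x y : Fin 2 → R) :
    CG.om x (c • y) = c * CG.om x y := by
  simp only [CG.om, Pi.smul_apply, smul_eq_mul]
  ring

private theorem Mk_eHm {a b : ℤ} (x : GQ a b) (e : Fin 2 → Qf a b ℤ) :
    eH (x.val.mulVec e) = (SLm (jH a b) x).val.mulVec (eH e) := by
  funext i
  show jH a b (x.val.mulVec e i) = (x.val.map (jH a b)).mulVec (eH e) i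
  simp only [Matrix.mulVec, dotProduct, Fin.sum_univ_two, eH, Matrix.map_apply, map_add,
    map_mul]

private theorem Mk_eHs {a b : ℤ} (u : Qf a b ℤ) (e : Fin 2 → Qf a b ℤ) :
    eH (u • e) = jH a b u • eH e := by
  funext i
  simp only [eH, Pi.smul_apply, smul_eq_mul, map_mul]

/-- PIECE NL Mk -/
theorem p_Mk (hsep : M_sep) (hbor : C_bor) (hu : C_u) (ho : C_o) (hlv : P_lv) (hpb : P_pb) :
    M_k := by
  intro a b M₀ m H D hD h C E hC e k ε he hK
  have hneg := H.neg
  obtain ⟨-, hreg, -, -, -⟩ := ho a b hneg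
  obtain ⟨hadd, -, hpi, -, -, hconj⟩ := hu a b
  have huni : ∃ e2, CG.om (C.mulVec (eH e)) e2 = 1 := by
    obtain ⟨g, hg⟩ := he
    have h1 : CG.om e (colG g 1) = 1 := by
      rw [← hg]
      have := g.2
      rw [Matrix.det_fin_two] at this
      simp only [CG.om, colG]
      linear_combination this
    have h2 : CG.om (eH e) (eH (colG g 1)) = 1 := by
      have h3 := congrArg (jH a b) h1
      rw [map_one] at h3
      rw [← h3]
      simp only [CG.om, eH, map_sub, map_mul]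
    have hdet : C.det * E.det = 1 := by
      rw [← Matrix.det_mul, hC.inv, Matrix.det_one]
    refine ⟨E.det • C.mulVec (eH (colG g 1)), ?_⟩
    rw [Mk_oms', Mk_omC, h2, mul_one, mul_comm, hdet]
  refine ⟨fun x => ?_, fun u v huv => ?_, fun r => ?_, fun k' ε' hK' => ?_⟩
  · refine ⟨hK.unit, ?_, fun t ht => ?_⟩
    · have h1 : (piH a b (h x)).val * C = C * (SLm (jH a b) (x : GQ a b)).val := by
        rw [hC.lft, Matrix.mul_assoc, hC.inv', Matrix.mul_one]
      rw [map_mul, Mk_mv, hK.vec, Matrix.mulVec_smul, Matrix.mulVec_mulVec, h1,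
        ← Matrix.mulVec_mulVec, ← Mk_eHm]
    · have h1 : (x : GQ a b) * tv e t * (x : GQ a b)⁻¹ = tv ((x : GQ a b).val.mulVec e) t :=
        (p_Vtv _ e t t).2.2.1 _
      have h2 : tv e t ∈ D := by
        have h3 : tv e t = (x : GQ a b)⁻¹ * tv ((x : GQ a b).val.mulVec e) t * (x : GQ a b) := by
          rw [← h1]
          group
        rw [h3]
        exact mul_mem (mul_mem (inv_mem x.2) ht) x.2
      obtain ⟨s, hs, hs2⟩ := hK.cnj t h2
      refine ⟨s, ?_, hs2⟩
      have h3 : (⟨_, ht⟩ : D) = x * ⟨_, h2⟩ * x⁻¹ := Subtype.ext h1.symm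
      rw [h3, map_mul, map_mul, map_inv, hs]
      group
  · refine ⟨hK.unit, ?_, fun t ht => ?_⟩
    · rw [map_mul, Mk_mv, piH_iH, Mk_dg, Matrix.mulVec_smul, hK.vec, Mk_eHs,
        Matrix.mulVec_smul, smul_comm]
    · have h1 : tv (u • e) t = tv e (u ^ 2 * t) := (p_Vtv _ e t t).2.2.2.1 u
      have h2 : tv e (u ^ 2 * t) ∈ D := by
        rw [← h1]
        exact ht
      obtain ⟨s, hs, hs2⟩ := hK.cnj _ h2
      have h5 : jH a b u * jH a b v = 1 := by
        rw [← map_mul, huv, map_one]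
      refine ⟨jH a b v ^ 2 * s, ?_, ?_⟩
      · have h3 : (⟨_, ht⟩ : D) = ⟨_, h2⟩ := Subtype.ext h1
        have h4 := hconj u v huv (jH a b v ^ 2 * s)
        have h6 : jH a b u ^ 2 * (jH a b v ^ 2 * s) = s := by
          linear_combination (jH a b u * jH a b v + 1) * s * h5
        rw [h6] at h4
        rw [h3, hs, ← h4]
        group
      · rw [map_mul, map_pow] at hs2
        linear_combination jH a b v ^ 2 * hs2 + (jH a b u * jH a b v + 1) * jH a b t * h5
  · refine ⟨hK.unit, ?_, fun t ht => ?_⟩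
    · rw [map_mul, Mk_mv, hpi, Mk_eU, hK.vec]
    · obtain ⟨s, hs, hs2⟩ := hK.cnj t ht
      refine ⟨s, ?_, hs2⟩
      have h1 : uH r * uH s * (uH r)⁻¹ = (uH s : GH a b) := by
        rw [← hadd, add_comm, hadd, mul_inv_cancel_right]
      rw [hs]
      nth_rw 1 [← h1]
      group
  · obtain ⟨N, hN, hNt⟩ := hlv a b D hD
    obtain ⟨s, hs, hs2⟩ := hK.cnj _ (hNt e 1)
    obtain ⟨s', hs', hs2'⟩ := hK'.cnj _ (hNt e 1)
    have h1 : k⁻¹ * k' * uH s' * (k⁻¹ * k')⁻¹ = uH s := by
      have h2 : k' * uH s' * k'⁻¹ = k * uH s * k⁻¹ := hs'.symm.trans hs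
      calc k⁻¹ * k' * uH s' * (k⁻¹ * k')⁻¹ = k⁻¹ * (k' * uH s' * k'⁻¹) * k := by group
        _ = k⁻¹ * (k * uH s * k⁻¹) * k := by rw [h2]
        _ = uH s := by group
    have h2 : ∀ x, s' * x = 0 → x = 0 := by
      intro x hx
      refine hreg ((N : Qf a b ℤ) * 1) x ?_ ?_
      · rw [mul_one]
        intro h7
        have h8 := congrArg QuadraticAlgebra.re h7
        simp at h8
        exact hN h8
      · rw [← hs2', mul_assoc, hx, mul_zero]
    obtain ⟨u, v, huv, r, hg⟩ := (hbor a b hneg _).1 (hsep a b M₀ m H _ _ _ h2 h1)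
    have h3 : k' = k * (iH a b (dg u v huv) * uH r) := by
      rw [← hg]
      group
    refine ⟨u, v, huv, r, h3, ?_⟩
    obtain ⟨e2, he2⟩ := huni
    have h4 := hK'.vec
    rw [h3, map_mul, map_mul, Mk_mv, Mk_mv, hpi, Mk_eU, piH_iH, Mk_dg, Matrix.mulVec_smul,
      hK.vec, smul_smul] at h4
    have h5 := congrArg (fun y => CG.om y e2) h4
    rw [Mk_oms, Mk_oms, he2] at h5
    linear_combination -h5

end

end Pool.Agent.F8.NL
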