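import Pool.Agent.Lib.MP_305fdd_al.F8.NL.StmM

/-!
# MP_305fdd_al, all lattices (project NL): proof of `M_lim` (the limit)
-/

set_option autoImplicit false

namespace Pool.Agent.F8.NL

open Pool.Agent.F8.CG Pool.Agent.F8.BG Pool.Agent.MP_305fdd_al Pool.Agent.Lib.MP_305fdd_al
  Pool.Agent.F8
open Filter Topology

noncomputable section

/-- the filter of the small normal subgroups -/
private def Mlim_F (a b : ℤ) : Filter (NF a b) := ⨅ X : NF a b, 𝓟 {Y | Y.N ≤ X.N}

private theorem Mlim_mem {a b : ℤ} (X : NF a b) : {Y : NF a b | Y.N ≤ X.N} ∈ Mlim_F a b :=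
  mem_iInf_of_mem X (mem_principal_self _)

private theorem Mlim_ne (a b : ℤ) : (Mlim_F a b).NeBot := by
  have hne : Nonempty (NF a b) := ⟨⟨⊤, inferInstance, inferInstance⟩⟩
  refine iInf_neBot_of_directed ?_ ?_
  · intro X Y
    refine ⟨⟨X.N ⊓ Y.N, inferInstance, inferInstance⟩, ?_, ?_⟩
    · show 𝓟 {Z : NF a b | Z.N ≤ X.N ⊓ Y.N} ≤ 𝓟 {Z : NF a b | Z.N ≤ X.N}
      exact principal_mono.2 fun Z hZ => le_trans (show Z.N ≤ X.N ⊓ Y.N from hZ) inf_le_left
    · show 𝓟 {Z : NF a b | Z.N ≤ X.N ⊓ Y.N} ≤ 𝓟 {Z : NF a b | Z.N ≤ Y.N}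
      exact principal_mono.2 fun Z hZ => le_trans (show Z.N ≤ X.N ⊓ Y.N from hZ) inf_le_right
  · intro X
    exact principal_neBot_iff.2 ⟨X, le_refl X.N⟩

private theorem Mlim_le (p : Prop) : ‖indP p‖ ≤ 1 := by
  unfold indP
  split_ifs <;> simp

private theorem Mlim_ev {a b : ℤ} {I : Type} (P : NF a b → I → Prop)
    (hP : ∀ (X Y : NF a b), X.N ≤ Y.N → ∀ i, P X i → P Y i) (i : I) :
    Tendsto (fun Y => indP (P Y i)) (Mlim_F a b) (𝓝 (indP (∀ X, P X i))) := by
  refine tendsto_const_nhds.congr' ?_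
  by_cases h : ∀ X, P X i
  · exact Eventually.of_forall fun Y => by
      rw [show (∀ X, P X i) = (P Y i) from propext ⟨fun _ => h Y, fun _ => h⟩]
  · push Not at h
    obtain ⟨X₀, hX₀⟩ := h
    filter_upwards [Mlim_mem X₀] with Y hY
    rw [show (∀ X, P X i) = (P Y i) from propext ⟨fun g => absurd (g X₀) hX₀, fun g =>
      absurd (hP Y X₀ hY i g) hX₀⟩]

/-- [NL M lim] the limit. -/
theorem p_Mlim : M_lim := by
  intro a b I J c P Q α B α' hJ hc _ hPQ hX
  have hne := Mlim_ne a b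
  have h1 : Tendsto (fun Y : NF a b => ∑' i, indP (P Y i) * J i) (Mlim_F a b)
      (𝓝 (∑' i, indP (∀ X, P X i) * J i)) := by
    refine tendsto_tsum_of_dominated_convergence hJ (fun i => ?_) ?_
    · exact (Mlim_ev P (fun X Y h j => (hPQ X Y h j).1) i).mul tendsto_const_nhds
    · refine Eventually.of_forall fun Y i => ?_
      rw [norm_mul]
      exact mul_le_of_le_one_left (norm_nonneg _) (Mlim_le _)
  have h2 : Tendsto (fun Y : NF a b => ∑' i, c i * indP (Q Y i) * J i) (Mlim_F a b)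
      (𝓝 (∑' i, c i * indP (∀ X, Q X i) * J i)) := by
    refine tendsto_tsum_of_dominated_convergence (bound := fun i => B * ‖J i‖)
      (hJ.mul_left B) (fun i => ?_) ?_
    · exact (tendsto_const_nhds.mul (Mlim_ev Q (fun X Y h j => (hPQ X Y h j).2) i)).mul
        tendsto_const_nhds
    · refine Eventually.of_forall fun Y i => ?_
      rw [norm_mul, norm_mul]
      have h3 : ‖c i‖ * ‖indP (Q Y i)‖ ≤ B := by
        calc ‖c i‖ * ‖indP (Q Y i)‖ ≤ ‖c i‖ * 1 :=
              mul_le_mul_of_nonneg_left (Mlim_le _) (norm_nonneg _)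
          _ ≤ B := by rw [mul_one]; exact hc i
      exact mul_le_mul_of_nonneg_right h3 (norm_nonneg _)
  have h4 := h1.const_mul α'
  have h5 : (fun Y : NF a b => α' * ∑' i, indP (P Y i) * J i) =
      fun Y : NF a b => ∑' i, c i * indP (Q Y i) * J i := funext hX
  rw [h5] at h4
  exact tendsto_nhds_unique h4 h2

end

end Pool.Agent.F8.NL
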