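import Pool.Agent.Lib.MP_305fdd_al.F8.NL.StmM

/-!
# MP_305fdd_al, lattices commensurable with `SL₂(ℤ[w])`: piece Mmain, the correspondence of the cusps (helper20)
-/

set_option autoImplicit false

namespace Pool.Agent.F8.NL

open Pool.Agent.F8.CG Pool.Agent.F8.BG Pool.Agent.MP_305fdd_al Pool.Agent.Lib.MP_305fdd_al
  Pool.Agent.F8
open scoped QuadraticAlgebra ComplexConjugate Kronecker

noncomputable section

private theorem Mmain_jn0 (a b : ℤ) (m : ℕ) (e : Fin 2 → Qf a b ℤ) : Jn a b m 0 e = 0 := by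
  unfold Jn
  rw [Nat.cast_zero, intervalIntegral.integral_same]

private theorem Mmain_jn {a b : ℤ} {m N : ℕ} {e : Fin 2 → Qf a b ℤ} (he : e 1 = 0) :
    Jn a b m N e = 0 := by
  have h1 : ∀ x : ℂ, Jd m (vC a b e) x = 0 := by
    intro x
    unfold Jd
    have h2 : vC a b e 1 = 0 := by
      show iC a b (e 1) = 0
      rw [he, map_zero]
    rw [h2, map_zero, zero_div, zero_pow (by omega)]
  unfold Jn
  simp [h1]

private theorem Mmain_indP {P Q : Prop} (h : P ↔ Q) : indP P = indP Q := by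
  rw [propext h]

private theorem Mmain_ind0 {P : Prop} (h : indP P ≠ 0) : P := by
  by_contra hP
  apply h
  unfold indP
  rw [if_neg hP]

section Main

variable {a b : ℤ} {D : Subgroup (GQ a b)}

private theorem Mmain_K (hpair : P_pair) {M₀ m : ℕ} (H : PHyp a b M₀ m) (hD : D.FiniteIndex)
    {h : D →* GH a b} {C E : Matrix (Fin 2) (Fin 2) (OH a b)} (hC : HD h C E)
    {k₁ k₀ : GH a b} {ε₁ ε₀ : OH a b} {f₀ : Fin 2 → Qf a b ℤ} (hk₁ : Kap h C ![1, 0] k₁ ε₁)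
    (hf₀1 : f₀ 1 ≠ 0) (hk₀ : Kap h C f₀ k₀ ε₀) :
    ∃ K ep, KF h C K ep ∧ K ![1, 0] = k₁ ∧ K f₀ = k₀ := by
  classical
  have hex : ∀ e : Fin 2 → Qf a b ℤ, ∃ p : GH a b × OH a b, Prm e → Kap h C e p.1 p.2 := by
    intro e
    by_cases h1 : e = ![1, 0]
    · exact ⟨(k₁, ε₁), fun _ => h1 ▸ hk₁⟩
    · by_cases he : Prm e
      · obtain ⟨k, ε, h2, h3, h4⟩ := hpair a b M₀ m H D hD h C E hC e he
        exact ⟨(k, ε), fun _ => ⟨h2, h3, h4⟩⟩
      · exact ⟨(1, 1), fun hc => absurd hc he⟩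
  choose p hp using hex
  have hne : f₀ ≠ ![1, 0] := by
    rintro rfl
    exact hf₀1 rfl
  refine ⟨fun e => if e = ![1, 0] then k₁ else if e = f₀ then k₀ else (p e).1,
    fun e => if e = ![1, 0] then ε₁ else if e = f₀ then ε₀ else (p e).2, ?_, ?_, ?_⟩
  · intro e he
    by_cases h1 : e = ![1, 0]
    · simp only [if_pos h1]
      rw [h1]
      exact hk₁
    · by_cases h2 : e = f₀
      · simp only [if_neg h1, if_pos h2]
        rw [h2]
        exact hk₀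
      · simp only [if_neg h1, if_neg h2]
        exact hp e he
  · simp only [if_pos trivial]
  · simp only [if_neg hne, if_pos trivial]

private theorem Mmain_mem {n : ℕ} (hn : Lv D n) (t : Qf a b ℤ) :
    (eU ((n : Qf a b ℤ) * t) : GQ a b) ∈ D := by
  rw [eU_eq_tv]
  exact hn.2 _ t

private theorem Mmain_iff {h : D →* GH a b} {n : ℕ} {X : NF a b} {S : Set (Fin 2 → Qf a b ℤ)}
    (hS : Adm h n X S) {k : GH a b} {g g' : GQ a b} (hg : Ap X k g) (hg' : Ap X k g')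
    (e : Fin 2 → Qf a b ℤ) (he : g.val.mulVec e ∈ S) : g'.val.mulVec e ∈ S := by
  have h1 : QuotientGroup.mk' X.N g' = QuotientGroup.mk' X.N g := hg'.symm.trans hg
  have h2 : g' * g⁻¹ ∈ X.N := by
    rw [← QuotientGroup.eq_one_iff]
    show QuotientGroup.mk' X.N (g' * g⁻¹) = 1
    rw [map_mul, map_inv, h1, mul_inv_cancel]
  have h3 := hS.inv _ h2 _ he
  rw [Matrix.mulVec_mulVec, ← Matrix.SpecialLinearGroup.coe_mul, inv_mul_cancel_right] at h3
  exact h3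

end Main

/-- PIECE NL Mmain -/
theorem p_Mmain (hpair : P_pair) (hv : M_v) (hfin : M_fin) (hidn : M_idn) (hlim : M_lim)
    (hset : M_set) (hint : M_int) (hE : E_main) (hlv : P_lv) (_hk : M_k) : M_main := by
  intro a b M₀ m H D hD h C E hC k₁ k₀ ε₁ ε₀ f₀ hk₁ hf₀ hf₀1 hk₀
  obtain ⟨K, ep, hKF, rfl, rfl⟩ := Mmain_K hpair H hD hC hk₁ hf₀1 hk₀
  obtain ⟨v, hvv⟩ := hv a b H.neg H.pid
  obtain ⟨n, hn⟩ := hlv a b D hD
  have hJ : ∀ N : ℕ, Summable fun e : PV a b => ‖Jn a b m N e‖ := by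
    intro N
    by_cases hN : N = 0
    · subst hN
      simp only [Mmain_jn0, norm_zero]
      exact summable_zero
    · exact (hE a b H.neg H.eu H.pid m H.four H.even H.une).1 N hN
  obtain ⟨hadm, hmono, hQ, hlast⟩ := hset a b M₀ m H D hD h C E hC K ep hKF n hn f₀ hf₀ hf₀1
  obtain ⟨hfin1, J, hJf⟩ := hfin a b M₀ m H D hD h C E hC K ep hKF
  -- units
  have hdet : IsUnit C.det := by
    refine IsUnit.of_mul_eq_one E.det ?_
    rw [← Matrix.det_mul, hC.inv, Matrix.det_one]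
  have hun : ∀ e, Prm e → IsUnit (ep e) := fun e he => (hKF e he).unit
  have he1 : Prm (![1, 0] : Fin 2 → Qf a b ℤ) := by
    refine ⟨1, ?_⟩
    funext i
    fin_cases i
    · rfl
    · rfl
  set α' : ℂ := v (ep ![1, 0] * C.det) ^ m with hα'
  set B' : ℂ := v (cjq a b Zh (ep ![1, 0] ^ 2 * C.det)) with hB'
  have hB0 : B' ≠ 0 := (((((hun _ he1).pow 2).mul hdet).map (cjq a b Zh)).map v).ne_zero
  have hlimit := hlim a b (PV a b) (fun e => Jn a b m n e)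
    (fun e => B' * (v (ep e ^ (m + 2) * C.det))⁻¹)
    (fun X e => ∀ g₁, Ap X (K ![1, 0]) g₁ → g₁.val.mulVec e.1 ∈ Sf h n (K f₀) X)
    (fun X e => ∃ g, Ap X (K e) g ∧ colG g 0 ∈ Sf h n (K f₀) X) ‖α'‖
    (∑ x ∈ J, ‖B' * (v (x * C.det))⁻¹‖) α' (hJ n)
    (fun e => by
      exact Finset.single_le_sum (f := fun x => ‖B' * (v (x * C.det))⁻¹‖)
        (fun x _ => norm_nonneg _) (hJf e.1 e.2)) le_rfl
    (fun X Y hXY e => ⟨fun hP g₁ hg₁ => by
      obtain ⟨g', hg'⟩ := Ap_ex X (K ![1, 0])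
      exact Mmain_iff (hadm Y) (Ap_le hXY hg') hg₁ e.1 (hmono X Y hXY (hP g' hg')),
      fun ⟨g, hg, hg'⟩ => ⟨g, Ap_le hXY hg, hmono X Y hXY hg'⟩⟩)
    (fun X => by
      obtain ⟨g₁, hg₁⟩ := Ap_ex X (K ![1, 0])
      have h1 := hidn a b M₀ m H D hD h C E hC K ep hKF v hvv n hn X _ g₁ (hadm X) hg₁
      rw [← tsum_mul_left (a := v (cjq a b Zh (ep ![1, 0] ^ 2 * C.det)))] at h1
      have h2 : ∀ e : PV a b, indP (∀ g₁, Ap X (K ![1, 0]) g₁ →
          g₁.val.mulVec e.1 ∈ Sf h n (K f₀) X) = indP (g₁.val.mulVec e.1 ∈ Sf h n (K f₀) X) :=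
        fun e => Mmain_indP ⟨fun hP => hP g₁ hg₁, fun hP g' hg' =>
          Mmain_iff (hadm X) hg₁ hg' e.1 hP⟩
      simp only [h2]
      rw [h1]
      refine tsum_congr fun e => ?_
      rw [hB']
      ring)
  have hR : ∑' e : PV a b, (B' * (v (ep e ^ (m + 2) * C.det))⁻¹) *
      indP (∀ X : NF a b, ∃ g, Ap X (K e) g ∧ colG g 0 ∈ Sf h n (K f₀) X) * Jn a b m n e ≠ 0 := by
    have h1 := hint a b H.neg m H.une hJ n hn.1 f₀ hf₀ hf₀1
      (fun e => B' * (v (ep e ^ (m + 2) * C.det))⁻¹)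
      (mul_ne_zero hB0 (inv_ne_zero ((((hun _ hf₀).pow (m + 2)).mul hdet).map v).ne_zero))
      (fun u t hu => by
        rw [(hfin1 ⟨eU ((n : Qf a b ℤ) * t), Mmain_mem hn t⟩ u f₀ hu hf₀).1])
    have h2 : ∀ e : PV a b,
        indP (∀ X : NF a b, ∃ g, Ap X (K e) g ∧ colG g 0 ∈ Sf h n (K f₀) X) =
        indP (∃ u t : Qf a b ℤ, IsUnit u ∧
          (e : Fin 2 → Qf a b ℤ) = u • (eU ((n : Qf a b ℤ) * t) : GQ a b).val.mulVec f₀) :=
      fun e => Mmain_indP (hQ e.1 e.2)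
    simp only [h2]
    exact h1
  rw [← hlimit] at hR
  obtain ⟨e, he⟩ : ∃ e : PV a b, indP (∀ X : NF a b, ∀ g₁, Ap X (K ![1, 0]) g₁ →
      g₁.val.mulVec e.1 ∈ Sf h n (K f₀) X) * Jn a b m n e ≠ 0 := by
    by_contra hc
    push Not at hc
    apply hR
    simp only [hc, tsum_zero, mul_zero]
  have hP := Mmain_ind0 (left_ne_zero_of_mul he)
  have he2 : e.1 1 ≠ 0 := fun hc => (right_ne_zero_of_mul he) (Mmain_jn hc)
  obtain ⟨γ, hγ⟩ := e.2
  obtain ⟨s, b', hb', hs⟩ := hlast γ (fun X g₁ hg₁ => by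
    rw [hγ]
    exact hP X g₁ hg₁)
  refine ⟨s, γ, ?_, b', hb', hs⟩
  rw [← hγ] at he2
  exact he2

end

end Pool.Agent.F8.NL
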