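import Pool.Agent.Lib.MP_305fdd_al.F8.NL.StmM

/-!
# MP_305fdd_al, all lattices (project NL): the number `r` of the pull-back (`M_rv`)
-/

set_option autoImplicit false

namespace Pool.Agent.F8.NL

open Pool.Agent.F8.CG Pool.Agent.F8.BG Pool.Agent.MP_305fdd_al Pool.Agent.Lib.MP_305fdd_al
  Pool.Agent.F8
open scoped QuadraticAlgebra ComplexConjugate Kronecker

noncomputable section

private theorem Mrv_id {a b : ℤ} (g : GQ a b) : SLm (RingHom.id (Qf a b ℤ)) g = g := by
  apply Subtype.ext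
  exact Matrix.ext fun i j => rfl

private theorem Mrv_act {R : Type} [CommRing R] (g h : SL2 R) (v : Fin 2 → R) :
    (g * h).val.mulVec v = g.val.mulVec (h.val.mulVec v) := by
  rw [Matrix.mulVec_mulVec]
  rfl

private theorem Mrv_one {R : Type} [CommRing R] (v : Fin 2 → R) :
    (1 : SL2 R).val.mulVec v = v := by
  show (1 : Matrix (Fin 2) (Fin 2) R).mulVec v = v
  rw [Matrix.one_mulVec]

private theorem Mrv_smm {R S : Type} [CommRing R] [CommRing S] (f : R →+* S) (m : ℕ)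
    (g : SL2 R) : sm m (SLm f g) = (sm m g).map f := by
  show sb m ((SLm f g)⁻¹).val = (sb m (g⁻¹).val).map f
  rw [← map_inv, ← sb_map]
  rfl

private theorem Mrv_cj {a b : ℤ} (t : Qf a b ℤ) :
    cjq a b Zh (jH a b t) = jH a b (cjq a b ℤ t) := by
  apply QuadraticAlgebra.ext
  · rw [cjq_apply, cjq_apply]
    simp [jH, Qfm_apply]
  · rw [cjq_apply, cjq_apply]
    simp [jH, Qfm_apply]

private theorem Mrv_conj {a b : ℤ} (h : b ^ 2 + 4 * a < 0) :
    conj (CG.wC a b) = (b : ℂ) - CG.wC a b := by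
  rw [CG.wC_eq h]
  simp only [map_add, map_mul, Complex.conj_ofReal, Complex.conj_I]
  push_cast
  ring

private theorem Mrv_cC {a b : ℤ} (h : b ^ 2 + 4 * a < 0) (t : Qf a b ℤ) :
    iC a b (cjq a b ℤ t) = cC a b t := by
  show iC a b (cjq a b ℤ t) = conj (iC a b t)
  rw [iC_apply, iC_apply, cjq_apply, map_add, map_mul, Mrv_conj h]
  simp
  ring

/-- a form at `A (x, 1)` as a polynomial in `x` -/
private theorem Mrv_pol {R : Type} [CommRing R] (m : ℕ) (P : Fin (m + 1) → R)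
    (A : Matrix (Fin 2) (Fin 2) R) :
    ∃ Q : Polynomial R, ∀ x, Q.eval x = evm m P (A.mulVec ![x, 1]) := by
  refine ⟨∑ i : Fin (m + 1), Polynomial.C (P i) *
    ((Polynomial.C (A 0 0) * Polynomial.X + Polynomial.C (A 0 1)) ^ (i : ℕ) *
      (Polynomial.C (A 1 0) * Polynomial.X + Polynomial.C (A 1 1)) ^ (m - i)), fun x => ?_⟩
  rw [Polynomial.eval_finsetSum]
  unfold evm
  refine Finset.sum_congr rfl fun i _ => ?_
  simp [Matrix.mulVec, dotProduct, Fin.sum_univ_two]

/-- the value at `(0, 1)` -/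
private theorem Mrv_01 {R : Type} [CommRing R] (m : ℕ) (P : Fin (m + 1) → R) :
    evm m P ![0, 1] = P 0 := by
  unfold evm
  rw [Finset.sum_eq_single (0 : Fin (m + 1))]
  · simp
  · intro i _ hi
    have : (i : ℕ) ≠ 0 := fun h => hi (Fin.ext h)
    simp [this]
  · intro h
    exact absurd (Finset.mem_univ _) h

/-- the extension of the conjugate crossed homomorphism -/
private theorem Mrv_ext {a b : ℤ} {m : ℕ} {X : NF a b} {z : GQ a b → Fin (m + 1) → Qf a b ℤ}
    (hz : CH (tV m (RingHom.id (Qf a b ℤ))) X.N z) {Z : GH a b → Fin (m + 1) → OH a b}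
    (hZ : ExtH X.N z Z) (g : GQ a b) :
    CH (tV m (RingHom.id (Qf a b ℤ))) X.N (zcj g z) ∧
    ExtH X.N (zcj g z) fun x => (tH a b m (iH a b g)⁻¹).mulVec
      (Z (iH a b g * x * (iH a b g)⁻¹)) := by
  have hgW : ∀ x ∈ X.N, g * x * g⁻¹ ∈ X.N := fun x hx => X.nor.conj_mem x hx g
  have hgc : ∀ x ∈ clH X.N, iH a b g * x * (iH a b g)⁻¹ ∈ clH X.N := by
    intro x hx Y
    obtain ⟨g', hg', hap⟩ := hx Y
    refine ⟨g * g' * g⁻¹, hgW g' hg', ?_⟩
    show pr Y _ = _
    rw [map_mul, map_mul, map_inv, show pr Y x = _ from hap, pr_iH, map_mul, map_mul, map_inv]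
  refine ⟨?_, ?_⟩
  · intro x hx y hy
    show (tV m (RingHom.id _) g⁻¹).mulVec (z (g * (x * y) * g⁻¹)) =
      (tV m (RingHom.id _) g⁻¹).mulVec (z (g * x * g⁻¹)) +
        (tV m (RingHom.id _) x).mulVec ((tV m (RingHom.id _) g⁻¹).mulVec (z (g * y * g⁻¹)))
    rw [show g * (x * y) * g⁻¹ = (g * x * g⁻¹) * (g * y * g⁻¹) by group,
      hz _ (hgW x hx) _ (hgW y hy), Matrix.mulVec_add, Matrix.mulVec_mulVec, ← map_mul,
      Matrix.mulVec_mulVec, ← map_mul]
    congr 3
    group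
  · intro M
    obtain ⟨X₀, hX₀, h0⟩ := hZ M
    refine ⟨X₀, hX₀, fun x hx g' hg' i => ?_⟩
    have h1 : Ap X₀ (iH a b g * x * (iH a b g)⁻¹) (g * g' * g⁻¹) := by
      show pr X₀ _ = _
      rw [map_mul, map_mul, map_inv, show pr X₀ x = _ from hg', pr_iH, map_mul, map_mul, map_inv]
    have h2 := h0 _ (hgc x hx) _ h1
    have h3 : tH a b m (iH a b g)⁻¹ = (tV m (RingHom.id _) g⁻¹).map (jH a b) := by
      show sm m (piH a b (iH a b g)⁻¹) = (sm m (SLm (RingHom.id _) g⁻¹)).map (jH a b)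
      rw [← Mrv_smm, Mrv_id, ← map_inv (iH a b), piH_iH]
    show rH a b M ((tH a b m (iH a b g)⁻¹).mulVec (Z (iH a b g * x * (iH a b g)⁻¹)) i) =
      Qfm a b (Int.castRingHom (ZMod M)) ((tV m (RingHom.id _) g⁻¹).mulVec (z (g * g' * g⁻¹)) i)
    rw [h3]
    simp only [Matrix.mulVec, dotProduct, map_sum, map_mul, Matrix.map_apply]
    refine Finset.sum_congr rfl fun j _ => ?_
    rw [h2 j, rH_jH]

/-- the conjugation formula -/
private theorem Mrv_key {a b : ℤ} {m : ℕ} {V : Subgroup (GH a b)}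
    {Z : GH a b → Fin (m + 1) → OH a b} (hZ : CH (tH a b m) V Z) {n x : GH a b} (hn : n ∈ V)
    (hx : x ∈ V) (w : Fin 2 → OH a b) :
    evm m (Z (n * x * n⁻¹)) w + evm m (Z n) ((piH a b (n * x * n⁻¹))⁻¹.val.mulVec w) =
      evm m (Z n) w + evm m (Z x) ((piH a b n)⁻¹.val.mulVec w) := by
  have hev : ∀ (y : GH a b) (P : Fin (m + 1) → OH a b) (v : Fin 2 → OH a b),
      evm m ((tH a b m y).mulVec P) v = evm m P ((piH a b y)⁻¹.val.mulVec v) :=
    fun y P v => evm_sm m _ P v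
  have h1 := hZ (n * x * n⁻¹) (mul_mem (mul_mem hn hx) (inv_mem hn)) n hn
  have h2 := hZ n hn x hx
  rw [inv_mul_cancel_right, h2] at h1
  have h3 := congrArg (fun P => evm m P w) h1
  simp only [evm_add, hev] at h3
  exact h3.symm

theorem p_Mrv (hdc : M_dc) (hext : C_ext) (hu : C_u) (_hpb : P_pb) (hcl : C_cl) : M_rv := by
  intro a b hab m hm D h C E hHD X N N₂ hL hL2 z hz Z hZ v hv k ε hK g hg
  have hCH : CH (tH a b m) (clH X.N) Z := (hext a b hab X.N X.fin).2.1 m z hz Z hZ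
  obtain ⟨hz₁, hZ₁⟩ := Mrv_ext hz hZ g
  obtain ⟨d, r₀, G, hd, hR, hG⟩ := hdc a b hab m X N hL (zcj g z) hz₁ _ hZ₁
  have hvj : ∀ x, v (jH a b x) = iC a b x := fun x => RingHom.congr_fun hv x
  have hdC : iC a b d ≠ 0 := by
    intro h0
    apply hd
    rw [iC_apply] at h0
    have him := CG.wC_im hab
    have h1 := congrArg Complex.im h0
    simp only [Complex.add_im, Complex.intCast_im, Complex.mul_im, Complex.intCast_re, zero_mul,
      add_zero, zero_add, Complex.zero_im] at h1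
    have h2 : d.im = 0 := by
      have : ((d.im : ℤ) : ℝ) = 0 := (mul_eq_zero.1 h1).resolve_right him.ne'
      exact_mod_cast this
    rw [h2, Int.cast_zero, zero_mul, add_zero] at h0
    have h3 : d.re = 0 := by exact_mod_cast h0
    exact QuadraticAlgebra.ext h3 h2
  -- the units
  have hdet : C.det * E.det = 1 := by rw [← Matrix.det_mul, hHD.inv, Matrix.det_one]
  obtain ⟨ε', hε⟩ := hK.unit.exists_right_inv
  obtain ⟨u, hu1⟩ : ∃ u, u * (ε ^ 2 * C.det) = 1 := ⟨ε' ^ 2 * E.det, by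
    linear_combination (ε * ε' + 1) * (C.det * E.det) * hε + hdet⟩
  obtain ⟨η, hη⟩ : ∃ η, η = ε * C.det := ⟨_, rfl⟩
  obtain ⟨η', hη'⟩ : ∃ η', η * η' = 1 := ⟨ε' * E.det, by
    rw [hη]
    linear_combination (C.det * E.det) * hε + hdet⟩
  -- the vector `C (0, 1)`
  obtain ⟨w₂, hw₂⟩ : ∃ w₂, (piH a b k).val.mulVec w₂ = C.mulVec ![0, 1] :=
    ⟨(piH a b k)⁻¹.val.mulVec (C.mulVec ![0, 1]), by
      rw [← Mrv_act, mul_inv_cancel, Mrv_one]⟩
  have heH : eH (![1, 0] : Fin 2 → Qf a b ℤ) = ![1, 0] := by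
    funext i
    fin_cases i <;> simp [eH]
  have hvec := hK.vec
  rw [heH] at hvec
  have hw1 : w₂ 1 = η := by
    have h1 := (piH a b k).2
    rw [Matrix.det_fin_two] at h1
    have e0 := congrFun hw₂ 0
    have e1 := congrFun hw₂ 1
    have f0 := congrFun hvec 0
    have f1 := congrFun hvec 1
    simp only [Matrix.mulVec, dotProduct, Fin.sum_univ_two, Pi.smul_apply, smul_eq_mul,
      Matrix.cons_val_zero, Matrix.cons_val_one, mul_one, mul_zero, add_zero, zero_add] at e0 e1 f0 f1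
    rw [hη, Matrix.det_fin_two]
    linear_combination (-w₂ 1) * h1 + (piH a b k).val 0 0 * e1 - (piH a b k).val 1 0 * e0 +
      C 1 1 * f0 - C 0 1 * f1
  obtain ⟨x₀, hx₀⟩ : ∃ x₀, w₂ = η • ![x₀, 1] := ⟨η' * w₂ 0, by
    funext i
    fin_cases i
    · show w₂ 0 = η * (η' * w₂ 0)
      linear_combination (-w₂ 0) * hη'
    · show w₂ 1 = η * 1
      rw [mul_one, hw1]⟩
  -- the element `n`
  obtain ⟨n, hn⟩ : ∃ n, n = k * (iH a b g)⁻¹ := ⟨_, rfl⟩
  have hnc : n ∈ clH X.N := by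
    refine ((hcl a b X.N X.fin).2.2.1 X n 1 le_rfl ?_).2 (one_mem _)
    show pr X n = _
    rw [hn, map_mul, map_inv, show pr X k = _ from hg, pr_iH, mul_inv_cancel, map_one]
  obtain ⟨PP, hPP⟩ := Mrv_pol m (Z n) (piH a b k).val
  obtain ⟨hadd, -, hpi, -, -, -⟩ := hu a b
  refine ⟨iC a b r₀ / iC a b d, v η ^ m / iC a b d * (iC a b r₀ * (v (cjq a b Zh u) * N₂)), hR,
    ⟨Polynomial.C (v η ^ m / iC a b d) *
      (Polynomial.C (((Polynomial.C (jH a b d) * PP + G.map (jH a b)).map v).eval (v x₀)) -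
        ((Polynomial.C (jH a b d) * PP + G.map (jH a b)).map v).comp
          (Polynomial.C (v x₀) - Polynomial.C ((N : ℂ) * (v u * N₂)) * Polynomial.X)),
      fun t => ?_⟩, ?_⟩
  · have hmem := hL2.2 ![1, 0] t
    rw [← eU_eq_tv] at hmem
    obtain ⟨⟨y, hyD⟩, hy, hy'⟩ := hmem
    have hyt : y = eU (((N * N₂ : ℕ) : Qf a b ℤ) * t) := hy'
    subst hyt
    have hyc : h ⟨_, hyD⟩ ∈ clH X.N := hy
    have ht : tv ![1, 0] (((N * N₂ : ℕ) : Qf a b ℤ) * t) ∈ D := by
      rw [← eU_eq_tv]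
      exact hyD
    obtain ⟨s₀, hs₀, hs₁⟩ := hK.cnj _ ht
    have hs₂ : h ⟨_, hyD⟩ = k * uH s₀ * k⁻¹ := by
      rw [← hs₀]
      congr 1
      exact Subtype.ext (eU_eq_tv _)
    obtain ⟨s, hs⟩ : ∃ s, s = u * ((N₂ : OH a b) * jH a b t) := ⟨_, rfl⟩
    have hss : s₀ = (N : OH a b) * s := by
      rw [hs]
      rw [map_mul, map_natCast] at hs₁
      push_cast at hs₁
      linear_combination (-s₀) * hu1 + u * hs₁
    rw [hss] at hs₂
    -- the value of the pull-back
    have hval : pbk m v h C Z (eU (((N * N₂ : ℕ) : Qf a b ℤ) * t)) 0 =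
        v (η ^ m * evm m (Z (h ⟨_, hyD⟩)) ((piH a b k).val.mulVec ![x₀, 1])) := by
      have h1 : pbk m v h C Z (eU (((N * N₂ : ℕ) : Qf a b ℤ) * t)) =
          (sb m (C.map v)).mulVec (fun i => v (Z (h ⟨_, hyD⟩) i)) := by
        unfold pbk
        rw [dif_pos hyD]
      rw [h1, ← Mrv_01 m ((sb m (C.map v)).mulVec (fun i => v (Z (h ⟨_, hyD⟩) i))), evm_sb]
      have h2 : (C.map v).mulVec ![0, 1] = fun i => v (C.mulVec ![0, 1] i) := by
        funext i
        simp [Matrix.mulVec, dotProduct, Fin.sum_univ_two]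
      rw [h2, evm_map, ← hw₂, hx₀, Matrix.mulVec_smul, evm_smul]
    -- the conjugation formula
    obtain ⟨x, hx⟩ : ∃ x, x = iH a b g * uH ((N : OH a b) * s) * (iH a b g)⁻¹ := ⟨_, rfl⟩
    have hpx : h ⟨_, hyD⟩ = n * x * n⁻¹ := by
      rw [hs₂, hn, hx]
      group
    have hxc : x ∈ clH X.N := by
      have h3 : x = n⁻¹ * h ⟨_, hyD⟩ * n := by
        rw [hpx]
        group
      rw [h3]
      exact mul_mem (mul_mem (inv_mem hnc) hyc) hnc
    have hkey := Mrv_key hCH hnc hxc ((piH a b k).val.mulVec ![x₀, 1])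
    rw [← hpx] at hkey
    have hk1 : (piH a b (h ⟨_, hyD⟩))⁻¹.val.mulVec ((piH a b k).val.mulVec ![x₀, 1]) =
        (piH a b k).val.mulVec ![x₀ - (N : OH a b) * s, 1] := by
      rw [hs₂, map_mul, map_mul, map_inv, hpi, ← Mrv_act]
      have h4 : (piH a b k * eU ((N : OH a b) * s) * (piH a b k)⁻¹)⁻¹ * piH a b k =
          piH a b k * (eU ((N : OH a b) * s))⁻¹ := by group
      rw [h4, Mrv_act]
      congr 1
      have h5 : (eU ((N : OH a b) * s) : SL2 (OH a b)) * eU (-((N : OH a b) * s)) = 1 := by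
        rw [← eU_add, add_neg_cancel, eU_eq_tv, tv_zero_aux]
      rw [inv_eq_of_mul_eq_one_right h5]
      show (!![1, -((N : OH a b) * s); 0, 1] : Matrix (Fin 2) (Fin 2) (OH a b)).mulVec ![x₀, 1] = _
      funext i
      fin_cases i
      · simp [Matrix.mulVec, dotProduct, Fin.sum_univ_two]
        ring
      · simp [Matrix.mulVec, dotProduct, Fin.sum_univ_two]
    have hk2 : (piH a b n)⁻¹.val.mulVec ((piH a b k).val.mulVec ![x₀, 1]) =
        (piH a b (iH a b g)).val.mulVec ![x₀, 1] := by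
      rw [← Mrv_act, ← map_inv, ← map_mul, hn]
      congr 3
      group
    have hk3 : evm m ((tH a b m (iH a b g)⁻¹).mulVec
        (Z (iH a b g * uH ((N : OH a b) * s) * (iH a b g)⁻¹))) ![x₀, 1] =
        evm m (Z x) ((piH a b (iH a b g)).val.mulVec ![x₀, 1]) := by
      have h6 : evm m ((tH a b m (iH a b g)⁻¹).mulVec
          (Z (iH a b g * uH ((N : OH a b) * s) * (iH a b g)⁻¹))) ![x₀, 1] =
          evm m (Z (iH a b g * uH ((N : OH a b) * s) * (iH a b g)⁻¹))
            ((piH a b (iH a b g)⁻¹)⁻¹.val.mulVec ![x₀, 1]) := evm_sm m _ _ _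
      rw [h6, map_inv, inv_inv, hx]
    rw [hk1, hk2, ← hPP, ← hPP] at hkey
    have hG1 := hG s x₀
    simp only [hk3] at hG1
    have hcj : v (cjq a b Zh s) = v (cjq a b Zh u) * (N₂ * cC a b t) := by
      rw [hs, map_mul, map_mul, map_mul, map_mul, map_natCast, map_natCast, Mrv_cj, hvj,
        Mrv_cC hab]
    have hvs : v s = v u * (N₂ * iC a b t) := by
      rw [hs, map_mul, map_mul, map_natCast, hvj]
    have hfin : iC a b d * v (evm m (Z (h ⟨_, hyD⟩)) ((piH a b k).val.mulVec ![x₀, 1])) =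
        ((Polynomial.C (jH a b d) * PP + G.map (jH a b)).map v).eval (v x₀) -
        ((Polynomial.C (jH a b d) * PP + G.map (jH a b)).map v).eval (v x₀ - N * v s) +
        iC a b r₀ * v (cjq a b Zh s) := by
      have h7 : jH a b d * evm m (Z (h ⟨_, hyD⟩)) ((piH a b k).val.mulVec ![x₀, 1]) =
          (Polynomial.C (jH a b d) * PP + G.map (jH a b)).eval x₀ -
          (Polynomial.C (jH a b d) * PP + G.map (jH a b)).eval (x₀ - (N : OH a b) * s) +
          jH a b r₀ * cjq a b Zh s := by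
        simp only [Polynomial.eval_add, Polynomial.eval_mul, Polynomial.eval_C]
        linear_combination jH a b d * hkey + hG1
      have h8 := congrArg v h7
      rw [map_mul, map_add, map_sub, map_mul, hvj, hvj, ← Polynomial.eval_map_apply,
        ← Polynomial.eval_map_apply, map_sub, map_mul, map_natCast] at h8
      exact h8
    rw [hval, map_mul, map_pow, Polynomial.eval_mul, Polynomial.eval_C, Polynomial.eval_sub,
      Polynomial.eval_C, Polynomial.eval_comp, Polynomial.eval_sub, Polynomial.eval_mul,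
      Polynomial.eval_C, Polynomial.eval_C, Polynomial.eval_X]
    have h9 : v (evm m (Z (h ⟨_, hyD⟩)) ((piH a b k).val.mulVec ![x₀, 1])) =
        (((Polynomial.C (jH a b d) * PP + G.map (jH a b)).map v).eval (v x₀) -
        ((Polynomial.C (jH a b d) * PP + G.map (jH a b)).map v).eval (v x₀ - N * v s) +
        iC a b r₀ * v (cjq a b Zh s)) / iC a b d := by
      rw [eq_div_iff hdC, mul_comm, hfin]
    have h10 : v x₀ - (N : ℂ) * (v u * N₂) * iC a b t = v x₀ - N * v s := by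
      rw [hvs]
      ring
    rw [h9, h10, hcj]
    ring
  · have h1 := congrArg (fun q => v (cjq a b Zh q)) hu1
    simp only [map_mul, map_one, map_pow] at h1
    rw [hη]
    simp only [map_mul, map_pow]
    field_simp
    linear_combination (v ε ^ m * v C.det ^ m * iC a b r₀ * N₂) * h1

end

end Pool.Agent.F8.NL
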