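import Pool.Agent.Lib.MP_305fdd_al.F8.NL.StmM

/-!
# MP_305fdd_al, all lattices (project NL): separation of the cusps
-/

set_option autoImplicit false

namespace Pool.Agent.F8.NL

open Pool.Agent.F8.CG Pool.Agent.F8.BG Pool.Agent.MP_305fdd_al Pool.Agent.Lib.MP_305fdd_al
  Pool.Agent.F8
open scoped QuadraticAlgebra ComplexConjugate Kronecker

noncomputable section

variable {a b : ℤ}

private theorem Msep_col {R : Type} [CommRing R] (g : SL2 R) : g.val.mulVec ![1, 0] = colG g 0 := by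
  funext i
  show ∑ j, g.val i j * (![1, 0] : Fin 2 → R) j = g.val i 0
  rw [Fin.sum_univ_two]
  simp

private theorem Msep_cj (g : GQ a b) (t : Qf a b ℤ) : g * eU t * g⁻¹ = tv (colG g 0) t := by
  rw [eU_eq_tv, (p_Vtv _ ![1, 0] 0 t).2.2.1 g, Msep_col]

private theorem Msep_ap (X : NF a b) (g : GQ a b) (N : ℕ) (s : OH a b) (M : ℕ+)
    (hM : ∀ z : Qf a b ℤ, (eU (((M : ℕ+) : ℕ) * z) : GQ a b) ∈ X.N) :
    Ap X (iH a b g * uH ((N : OH a b) * s) * (iH a b g)⁻¹)
      (tv (colG g 0) ((N : Qf a b ℤ) * lfH M s)) := by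
  have h1 : Ap X (uH ((N : OH a b) * s)) (eU ((N : Qf a b ℤ) * lfH M s)) := by
    apply uH_ap X M _ _ hM
    rw [map_mul, map_mul, lfH_rH, map_natCast, map_natCast]
  rw [← Msep_cj]
  show pr X (iH a b g * uH ((N : OH a b) * s) * (iH a b g)⁻¹) = _
  rw [map_mul, map_mul, map_inv, show pr X (uH ((N : OH a b) * s)) = _ from h1, pr_iH, map_mul,
    map_mul, map_inv]

/-- the value at the cusp -/
private theorem Msep_val (hcl : C_cl) {m : ℕ} (hB : BvM a b m (RingHom.id (Qf a b ℤ)))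
    (X : NF a b) (N : ℕ) (hLv : Lv X.N N) (z : GQ a b → Fin (m + 1) → Qf a b ℤ)
    (hz : CH (tV m (RingHom.id (Qf a b ℤ))) X.N z) (Z : GH a b → Fin (m + 1) → OH a b)
    (hZ : ExtH X.N z Z) (g : GQ a b) (s : OH a b) :
    iH a b g * uH ((N : OH a b) * s) * (iH a b g)⁻¹ ∈ clH X.N ∧
    evm m (Z (iH a b g * uH ((N : OH a b) * s) * (iH a b g)⁻¹)) (eH (colG g 0)) =
      jH a b (bv m N (RingHom.id _) z (colG g 0)) * s := by
  have hmem : iH a b g * uH ((N : OH a b) * s) * (iH a b g)⁻¹ ∈ clH X.N :=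
    ((hcl a b X.N X.fin).2.2.1 X _ _ le_rfl (Msep_ap X g N s (lvN X) (lvN_mem X))).2
      (hLv.2 _ _)
  refine ⟨hmem, ?_⟩
  apply OH_ext
  intro M
  obtain ⟨X', hX', hX''⟩ := hZ M
  have hd : (M : ℕ) ∣ ((M * lvN X' : ℕ+) : ℕ) := by
    rw [PNat.mul_coe]
    exact dvd_mul_right _ _
  have hM' : ∀ w : Qf a b ℤ, (eU ((((M * lvN X' : ℕ+) : ℕ) : Qf a b ℤ) * w) : GQ a b) ∈ X'.N := by
    intro w
    have h1 := lvN_mem X' (((M : ℕ) : Qf a b ℤ) * w)
    rw [show (((M * lvN X' : ℕ+) : ℕ) : Qf a b ℤ) * w =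
      ((lvN X' : ℕ) : Qf a b ℤ) * (((M : ℕ) : Qf a b ℤ) * w) by
      rw [PNat.mul_coe, Nat.cast_mul]
      ring]
    exact h1
  set t : Qf a b ℤ := lfH (M * lvN X') s with ht
  have h1 := hX'' _ hmem _ (Msep_ap X' g N s (M * lvN X') hM')
  have h2 : Qfm a b (Int.castRingHom (ZMod M)) t = rH a b M s := by
    rw [← Qfm_cast hd t, ht, lfH_rH, rH_map]
  rw [← evm_map (rH a b M), funext h1, show (fun i => rH a b M (eH (colG g 0) i)) =
    fun i => Qfm a b (Int.castRingHom (ZMod M)) (colG g 0 i) from funext fun i => rH_jH M _,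
    evm_map, map_mul, rH_jH, ← h2, ← map_mul]
  exact congrArg _ (hB.mul X.N N hLv z hz (colG g 0) t)

private theorem Msep_inv {R : Type} [CommRing R] (A : SL2 R) (e : Fin 2 → R)
    (h : A.val.mulVec e = e) : (A⁻¹).val.mulVec e = e := by
  have h1 : (A⁻¹).val.mulVec (A.val.mulVec e) = e := by
    rw [Matrix.mulVec_mulVec]
    show ((A⁻¹ * A).val).mulVec e = e
    rw [inv_mul_cancel]
    exact Matrix.one_mulVec e
  rw [h] at h1
  exact h1

private theorem Msep_pow (hadd : ∀ s t : OH a b, uH (s + t) = uH s * uH t) (s : OH a b) (n : ℕ) :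
    uH ((n : OH a b) * s) = uH s ^ n := by
  have h0 : uH (0 : OH a b) = 1 := by
    have h1 := hadd 0 0
    rw [add_zero] at h1
    exact (mul_eq_left.1 h1.symm)
  induction n with
  | zero => rw [Nat.cast_zero, zero_mul, h0, pow_zero]
  | succ n ih => rw [Nat.cast_succ, add_mul, one_mul, hadd, ih, pow_succ]

theorem p_Msep (hex : X_ex) (hext : C_ext) (hu : C_u) (hcl : C_cl) (hbor : C_bor) (hbv : B_bv)
    (hlv : P_lv) (ho : C_o) : M_sep := by
  intro a b M₀ m H g s s' hs hg X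
  have hdom : IsDomain (Qf a b ℤ) := BG.Qf_domain H.neg
  have hm4 := H.four
  have hB : BvM a b m (RingHom.id (Qf a b ℤ)) :=
    hbv a b H.neg m (by omega) _ _ Function.injective_id
  obtain ⟨hadd, hjH, hpi, -, -, -⟩ := hu a b
  obtain ⟨hinj, hdiv, -, -, -⟩ := ho a b H.neg
  -- the matrix
  have hm : (piH a b g).val * (eU s : SL2 (OH a b)).val =
      (eU s' : SL2 (OH a b)).val * (piH a b g).val := by
    have h1 : g * uH s = uH s' * g := by
      rw [← hg]
      group
    have h2 := congrArg (piH a b) h1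
    rw [map_mul, map_mul, hpi, hpi] at h2
    exact congrArg Subtype.val h2
  have hdet : (piH a b g).val 0 0 * (piH a b g).val 1 1 -
      (piH a b g).val 0 1 * (piH a b g).val 1 0 = 1 := by
    rw [← Matrix.det_fin_two]
    exact (piH a b g).2
  have hE : ∀ t : OH a b, (eU t : SL2 (OH a b)).val = !![1, t; 0, 1] := fun t => rfl
  rw [hE, hE] at hm
  have e11 := congrFun (congrFun hm 1) 1
  have e01 := congrFun (congrFun hm 0) 1
  simp only [Matrix.mul_apply, Fin.sum_univ_two, Matrix.of_apply, Matrix.cons_val', Matrix.cons_val_zero,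
    Matrix.cons_val_one, Matrix.cons_val_fin_one, mul_one, zero_mul, one_mul, zero_add] at e11 e01
  have hγ0 : (piH a b g).val 1 0 = 0 := by
    apply hs
    rw [mul_comm]
    exact add_eq_right.1 e11
  have hαδ : (piH a b g).val 0 0 * (piH a b g).val 1 1 = 1 := by
    have h := hdet
    rw [hγ0, mul_zero, sub_zero] at h
    exact h
  have hs' : s' = (piH a b g).val 0 0 ^ 2 * s := by
    have h1 : (piH a b g).val 0 0 * s = s' * (piH a b g).val 1 1 := by
      have h2 : (piH a b g).val 0 0 * s + (piH a b g).val 0 1 =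
        s' * (piH a b g).val 1 1 + (piH a b g).val 0 1 := by
        rw [e01]
        ring
      exact add_right_cancel h2
    calc s' = s' * ((piH a b g).val 0 0 * (piH a b g).val 1 1) := by rw [hαδ, mul_one]
      _ = (s' * (piH a b g).val 1 1) * (piH a b g).val 0 0 := by ring
      _ = _ := by
        rw [← h1]
        ring
  -- the crossed homomorphism
  obtain ⟨N, hLv⟩ := hlv a b X.N X.fin
  have hc1 : colG (1 : GQ a b) 0 = ![1, 0] := by
    rw [← Msep_col]
    exact Matrix.one_mulVec _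
  obtain ⟨z, hz, hz0, hz1⟩ := hex a b H.neg H.eu H.pid H.fg m H.four H.even H.une X.N X.fin N hLv
    ![1, 0] ⟨1, hc1⟩
  obtain ⟨Z, hZ⟩ := (hext a b H.neg X.N X.fin).1 (Fin (m + 1)) (tV m (RingHom.id _)) z hz
  have hZc := (hext a b H.neg X.N X.fin).2.1 m z hz Z hZ
  obtain ⟨γ, hγ⟩ := Ap_ex X g
  have hn : g * (iH a b γ)⁻¹ ∈ clH X.N := by
    refine ((hcl a b X.N X.fin).2.2.1 X _ 1 le_rfl ?_).2 (one_mem _)
    show pr X (g * (iH a b γ)⁻¹) = _
    rw [map_mul, map_inv, show pr X g = _ from hγ, pr_iH, map_one, mul_inv_cancel]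
  set n := g * (iH a b γ)⁻¹ with hndef
  obtain ⟨hx, hxv⟩ := Msep_val hcl hB X N hLv z hz Z hZ γ s
  set x := iH a b γ * uH ((N : OH a b) * s) * (iH a b γ)⁻¹ with hxdef
  obtain ⟨-, hwv⟩ := Msep_val hcl hB X N hLv z hz Z hZ 1 s'
  rw [map_one, one_mul, inv_one, mul_one, hc1] at hwv
  have hw : n * x * n⁻¹ = uH ((N : OH a b) * s') := by
    rw [Msep_pow hadd, ← hg, conj_pow, ← Msep_pow hadd, hxdef, hndef]
    group
  have hwm : n * x * n⁻¹ ∈ clH X.N := mul_mem (mul_mem hn hx) (inv_mem hn)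
  have h1 := hZc n hn x hx
  have h2 := hZc (n * x * n⁻¹) hwm n hn
  rw [inv_mul_cancel_right, h1, hw] at h2
  -- evaluate
  have hge : (piH a b g).val.mulVec ![1, 0] = (piH a b g).val 0 0 • (![1, 0] : Fin 2 → OH a b) := by
    rw [Msep_col]
    funext i
    fin_cases i
    · show (piH a b g).val 0 0 = (piH a b g).val 0 0 * 1
      rw [mul_one]
    · show (piH a b g).val 1 0 = (piH a b g).val 0 0 * 0
      rw [mul_zero, hγ0]
  have h3 := congrArg (fun P => evm m P ((piH a b g).val.mulVec ![1, 0])) h2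
  simp only [evm_add] at h3
  have h4 : evm m ((tH a b m n).mulVec (Z x)) ((piH a b g).val.mulVec ![1, 0]) =
      evm m (Z x) (eH (colG γ 0)) := by
    show evm m ((sm m (piH a b n)).mulVec (Z x)) _ = _
    rw [evm_sm, Matrix.mulVec_mulVec]
    congr 1
    show ((piH a b n)⁻¹ * piH a b g).val.mulVec ![1, 0] = _
    rw [hndef, map_mul, map_inv, mul_inv_rev, inv_inv, mul_assoc, inv_mul_cancel, mul_one, piH_iH,
      Msep_col]
    rfl
  have h5 : evm m ((tH a b m (uH ((N : OH a b) * s'))).mulVec (Z n))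
      ((piH a b g).val.mulVec ![1, 0]) = evm m (Z n) ((piH a b g).val.mulVec ![1, 0]) := by
    show evm m ((sm m (piH a b (uH ((N : OH a b) * s')))).mulVec (Z n)) _ = _
    rw [evm_sm]
    congr 1
    apply Msep_inv
    rw [hge, Matrix.mulVec_smul, hpi, Msep_col]
    congr 1
    funext i
    fin_cases i <;> rfl
  have he1 : eH (![1, 0] : Fin 2 → Qf a b ℤ) = ![1, 0] := by
    funext i
    fin_cases i
    · exact map_one _
    · exact map_zero _
  rw [h4, h5, hxv, hge] at h3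
  simp only [evm_smul] at h3
  rw [← he1, hwv, hs'] at h3
  have h6 : jH a b (bv m N (RingHom.id _) z (colG γ 0)) * s =
      (piH a b g).val 0 0 ^ (m + 2) * (jH a b (bv m N (RingHom.id _) z ![1, 0]) * s) := by
    have h7 : jH a b (bv m N (RingHom.id _) z (colG γ 0)) * s = (piH a b g).val 0 0 ^ m *
        (jH a b (bv m N (RingHom.id _) z ![1, 0]) * ((piH a b g).val 0 0 ^ 2 * s)) := by
      have h8 := h3
      rw [add_comm] at h8
      exact add_right_cancel h8
    rw [h7]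
    ring
  have hne : bv m N (RingHom.id _) z (colG γ 0) ≠ 0 := by
    intro h0
    rw [h0, map_zero, zero_mul] at h6
    have h7 : jH a b (bv m N (RingHom.id _) z ![1, 0]) * s = 0 := by
      calc jH a b (bv m N (RingHom.id _) z ![1, 0]) * s =
          ((piH a b g).val 0 0 * (piH a b g).val 1 1) ^ (m + 2) *
            (jH a b (bv m N (RingHom.id _) z ![1, 0]) * s) := by rw [hαδ, one_pow, one_mul]
        _ = (piH a b g).val 1 1 ^ (m + 2) * ((piH a b g).val 0 0 ^ (m + 2) *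
            (jH a b (bv m N (RingHom.id _) z ![1, 0]) * s)) := by ring
        _ = 0 := by rw [← h6, mul_zero]
    have h8 := hdiv _ s hz0 h7
    have h9 : (1 : OH a b) = 0 := hs 1 (by rw [h8, zero_mul])
    exact one_ne_zero (hinj (by rw [map_one, h9, map_zero]) : (1 : Qf a b ℤ) = 0)
  have hCs : Cs X.N ![1, 0] (colG γ 0) := by
    by_contra hc
    exact hne (hz1 _ ⟨γ, rfl⟩ hc)
  obtain ⟨y, hy, u, -, hyu⟩ := hCs
  refine ⟨y⁻¹ * γ, ?_, ?_⟩
  · show ((y⁻¹).val * γ.val) 1 0 = 0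
    rw [Msep_col] at hyu
    have h8 : ∀ i, γ.val i 0 = u * y.val i 0 := fun i => congrFun hyu i
    rw [Matrix.mul_apply, Fin.sum_univ_two, h8, h8, Matrix.SpecialLinearGroup.SL2_inv_expl]
    show (-y.val 1 0) * (u * y.val 0 0) + y.val 0 0 * (u * y.val 1 0) = 0
    ring
  · show pr X g = _
    rw [map_mul, show pr X g = _ from hγ, show QuotientGroup.mk' X.N y⁻¹ = 1 from
      (QuotientGroup.eq_one_iff _).2 (inv_mem hy), one_mul]

end

end Pool.Agent.F8.NL
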