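import Pool.Agent.Lib.MP_305fdd_al.F8.NL.StmM

/-!
# MP_305fdd_al, lattices commensurable with `SL₂(ℤ[w])`: piece Mset, the limit sets (helper4)
-/

set_option autoImplicit false

namespace Pool.Agent.F8.NL

open Pool.Agent.F8.CG Pool.Agent.F8.BG Pool.Agent.MP_305fdd_al Pool.Agent.Lib.MP_305fdd_al
  Pool.Agent.F8
open scoped QuadraticAlgebra ComplexConjugate Kronecker

noncomputable section

/-! ### Columns and approximations -/

private theorem Mset_col {R : Type} [CommRing R] (x g : SL2 R) :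
    colG (x * g) 0 = x.val.mulVec (colG g 0) := by
  ext i
  show (x.val * g.val) i 0 = _
  rw [Matrix.mul_apply]
  rfl

private theorem Mset_eU {R : Type} [CommRing R] (g : SL2 R) (r : R) :
    colG (g * eU r) 0 = colG g 0 := by
  ext i
  show (g.val * !![1, r; 0, 1]) i 0 = g.val i 0
  rw [Matrix.mul_apply, Fin.sum_univ_two]
  simp

private theorem Mset_dg {R : Type} [CommRing R] (g : SL2 R) (u v : R) (h : u * v = 1) :
    colG (g * dg u v h) 0 = u • colG g 0 := by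
  ext i
  show (g.val * !![u, 0; 0, v]) i 0 = u * g.val i 0
  rw [Matrix.mul_apply, Fin.sum_univ_two]
  simp [mul_comm]

private theorem Mset_mv {R : Type} [CommRing R] (u v : SL2 R) (e : Fin 2 → R) :
    (u * v).val.mulVec e = u.val.mulVec (v.val.mulVec e) := by
  rw [Matrix.mulVec_mulVec, ← Matrix.SpecialLinearGroup.coe_mul]

private theorem Mset_pmv {a b : ℤ} (x y : GH a b) (e : Fin 2 → OH a b) :
    (piH a b (x * y)).val.mulVec e = (piH a b x).val.mulVec ((piH a b y).val.mulVec e) := by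
  rw [map_mul, Mset_mv]

private theorem Mset_Apm {a b : ℤ} {X : NF a b} {x y : GH a b} {g g' : GQ a b}
    (h : Ap X x g) (h' : Ap X y g') : Ap X (x * y) (g * g') := by
  show pr X (x * y) = _
  rw [map_mul, map_mul, show pr X x = _ from h, show pr X y = _ from h']

private theorem Mset_Api {a b : ℤ} {X : NF a b} {x : GH a b} {g : GQ a b}
    (h : Ap X x g) : Ap X x⁻¹ g⁻¹ := by
  show pr X x⁻¹ = _
  rw [map_inv, map_inv, show pr X x = _ from h]

private theorem Mset_mem {a b : ℤ} {D : Subgroup (GQ a b)} {n : ℕ} (hn : Lv D n)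
    (t : Qf a b ℤ) : (eU ((n : Qf a b ℤ) * t) : GQ a b) ∈ D := by
  rw [eU_eq_tv]
  exact hn.2 _ _

private theorem Mset_bor {a b : ℤ} (g g' : GQ a b) (u : Qf a b ℤ)
    (h : colG g 0 = u • colG g' 0) : g'⁻¹ * g ∈ Bor a b := by
  show (g'⁻¹ * g).val 1 0 = 0
  have h1 : colG (g'⁻¹ * g) 0 = u • colG (1 : GQ a b) 0 := by
    rw [Mset_col, h, Matrix.mulVec_smul, ← Mset_col, inv_mul_cancel]
  have h3 : (u • colG (1 : GQ a b) 0) 1 = 0 := by
    show u * (1 : Matrix (Fin 2) (Fin 2) (Qf a b ℤ)) 1 0 = 0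
    simp
  exact (congrFun h1 1).trans h3

private theorem Mset_Csm {a b : ℤ} {W W' : Subgroup (GQ a b)} (hW : W ≤ W')
    {e e' : Fin 2 → Qf a b ℤ} (h : Cs W e e') : Cs W' e e' := by
  obtain ⟨x, hx, u, hu, he⟩ := h
  exact ⟨x, hW hx, u, hu, he⟩

private theorem Mset_CsH {a b : ℤ} {X Y : NF a b} (hXY : X.N ≤ Y.N) {k : GH a b}
    {e' : Fin 2 → Qf a b ℤ} (h : CsH X k e') : CsH Y k e' := by
  obtain ⟨g, hg, hc⟩ := h
  exact ⟨g, Ap_le hXY hg, Mset_Csm hXY hc⟩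

/-! ### The compactness argument -/

/-- the element `k` is, modulo `X` and on the right up to `Bor`, equal to `h (eU (n t)) k₀` -/
private def Mset_P {a b : ℤ} {D : Subgroup (GQ a b)} (h : D →* GH a b) (n : ℕ)
    (k₀ k : GH a b) (X : NF a b) (t : Qf a b ℤ) : Prop :=
  ∃ (ht : (eU ((n : Qf a b ℤ) * t) : GQ a b) ∈ D) (g : GQ a b), Ap X k g ∧
    CsH X (h ⟨_, ht⟩ * k₀) (colG g 0)

private theorem Mset_Pm {a b : ℤ} {D : Subgroup (GQ a b)} {h : D →* GH a b} {n : ℕ}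
    {k₀ k : GH a b} {X Y : NF a b} (hXY : X.N ≤ Y.N) {t : Qf a b ℤ}
    (hP : Mset_P h n k₀ k X t) : Mset_P h n k₀ k Y t := by
  obtain ⟨ht, g, hg, hc⟩ := hP
  exact ⟨ht, g, Ap_le hXY hg, Mset_CsH hXY hc⟩

private theorem Mset_zero (hdiv : M_div) (hcpt : C_cpt) (hu : C_u) {a b : ℤ}
    (hab : b ^ 2 + 4 * a < 0) {D : Subgroup (GQ a b)} (h : D →* GH a b) (n : ℕ) (hn : n ≠ 0)
    (k₁ k₀ k : GH a b) (lam mu : OH a b) (hlm : lam * mu = 1)
    (hh : ∀ (t : Qf a b ℤ) (ht : (eU ((n : Qf a b ℤ) * t) : GQ a b) ∈ D),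
      h ⟨_, ht⟩ = k₁ * uH (lam * ((n : OH a b) * jH a b t)) * k₁⁻¹)
    (hk : ∀ X : NF a b, ∃ t, Mset_P h n k₀ k X t) :
    ∃ s : OH a b, ∃ b' ∈ clH (Bor a b),
      k = k₁ * uH (lam * ((n : OH a b) * s)) * k₁⁻¹ * k₀ * b' := by
  obtain ⟨n', rfl⟩ : ∃ n' : ℕ+, (n' : ℕ) = n := ⟨⟨n, Nat.pos_of_ne_zero hn⟩, rfl⟩
  obtain ⟨x, hx⟩ := hcpt a b (fun X => {q | ∃ t, Mset_P h n' k₀ k X t ∧
      q = pr X (uH (lam * (((n' : ℕ) : OH a b) * jH a b t)))})
    (fun X => by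
      obtain ⟨t, ht⟩ := hk X
      exact ⟨_, t, ht, rfl⟩)
    (fun X Y hXY q hq => by
      obtain ⟨t, ht, rfl⟩ := hq
      exact ⟨t, Mset_Pm hXY ht, (uH (lam * (((n' : ℕ) : OH a b) * jH a b t))).2 X Y hXY⟩)
  obtain ⟨s', hs'⟩ := (hdiv a b hab).2 x (fun X => by
    obtain ⟨t, -, ht⟩ := hx X
    exact ⟨lfH (lvN X) (lam * (((n' : ℕ) : OH a b) * jH a b t)), ht⟩)
  have h1 : rH a b n' s' = 0 := by
    obtain ⟨t, -, ht⟩ := hx (NFG a b n')
    have h2 : pm n' (uH s') = pm n' (uH (lam * (((n' : ℕ) : OH a b) * jH a b t))) := by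
      have h3 : ∀ y : GH a b, pm n' y =
          QuotientGroup.kerLift (rdq a b n') (pr (NFG a b n') y) := fun _ => rfl
      rw [← hs', h3, h3, ht]
    rw [← piH_pm, ← piH_pm, (hu a b).2.2.1, (hu a b).2.2.1] at h2
    have h4 : rH a b n' s' = rH a b n' (lam * (((n' : ℕ) : OH a b) * jH a b t)) :=
      congrFun (congrFun (congrArg Subtype.val h2) 0) 1
    have h5 : ((n' : ℕ) : Qf a b (ZMod n')) = 0 := by
      ext
      · simp
      · simp
    rw [h4, map_mul, map_mul, map_natCast, h5, zero_mul, mul_zero]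
  obtain ⟨y, hy⟩ := (hdiv a b hab).1 n' s' h1
  refine ⟨mu * y, (k₁ * x * k₁⁻¹ * k₀)⁻¹ * k, ?_, ?_⟩
  · intro X
    obtain ⟨t, ⟨ht, g, hg, g', hg', n₁, hn₁, u, -, hc⟩, hxt⟩ := hx X
    refine ⟨(n₁ * g')⁻¹ * g, Mset_bor _ _ u (by rw [hc, Mset_col]), ?_⟩
    refine Mset_Apm (Mset_Api ?_) hg
    show pr X (k₁ * x * k₁⁻¹ * k₀) = _
    have h6 : QuotientGroup.mk' X.N n₁ = 1 := (QuotientGroup.eq_one_iff _).2 hn₁
    have h7 : pr X (k₁ * x * k₁⁻¹ * k₀) = pr X (h ⟨_, ht⟩ * k₀) := by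
      rw [hh t ht, map_mul, map_mul, map_mul, hxt, ← map_mul, ← map_mul, ← map_mul]
    rw [h7, map_mul (QuotientGroup.mk' X.N), h6, one_mul]
    exact hg'
  · have h8 : lam * (((n' : ℕ) : OH a b) * (mu * y)) = s' := by
      rw [hy]
      linear_combination (((n' : ℕ) : OH a b) * y) * hlm
    rw [h8, ← hs']
    group

/-! ### Matrices -/

private theorem Mset_omC {R : Type} [CommRing R] (C : Matrix (Fin 2) (Fin 2) R)
    (x y : Fin 2 → R) : CG.om (C.mulVec x) (C.mulVec y) = C.det * CG.om x y := by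
  rw [Matrix.det_fin_two]
  simp only [CG.om, Matrix.mulVec, dotProduct, Fin.sum_univ_two]
  ring

private theorem Mset_mat (hu : C_u) {a b : ℤ} (k₁ : GH a b)
    (C : Matrix (Fin 2) (Fin 2) (OH a b)) (ε lam : OH a b)
    (hv : (piH a b k₁).val.mulVec ![1, 0] = ε • C.mulVec ![1, 0])
    (hl : lam * (ε ^ 2 * C.det) = 1) (σ : OH a b) (y : Fin 2 → OH a b) :
    (piH a b (k₁ * uH (lam * σ) * k₁⁻¹)).val.mulVec (C.mulVec y) =
      C.mulVec ((eU σ : SL2 (OH a b)).val.mulVec y) := by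
  rw [map_mul, map_mul, map_inv, (hu a b).2.2.1, eU_eq_tv, (p_Vtv _ ![1, 0] 0 _).2.2.1, hv,
    (p_Vtv _ _ 0 _).2.2.2.1, (p_Vtv _ _ 0 _).1, Mset_omC, eU_eq_tv, (p_Vtv _ _ 0 _).1,
    Matrix.mulVec_add, Matrix.mulVec_smul]
  congr 2
  linear_combination (σ * CG.om ![1, 0] y) * hl

private theorem Mset_e1 {a b : ℤ} : eH (![1, 0] : Fin 2 → Qf a b ℤ) = ![1, 0] := by
  funext i
  fin_cases i
  · exact map_one (jH a b)
  · exact map_zero (jH a b)

private theorem Mset_eUmv {R : Type} [CommRing R] (t : R) (y : Fin 2 → R) :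
    (eU t : SL2 R).val.mulVec y 0 = y 0 + t * y 1 ∧ (eU t : SL2 R).val.mulVec y 1 = y 1 := by
  constructor
  · show (!![1, t; 0, 1] : Matrix (Fin 2) (Fin 2) R).mulVec y 0 = _
    simp [Matrix.mulVec, dotProduct, Fin.sum_univ_two]
  · show (!![1, t; 0, 1] : Matrix (Fin 2) (Fin 2) R).mulVec y 1 = _
    simp [Matrix.mulVec, dotProduct, Fin.sum_univ_two]

private theorem Mset_e1U {R : Type} [CommRing R] (r : R) :
    (eU r : SL2 R).val.mulVec ![1, 0] = ![1, 0] := by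
  show (!![1, r; 0, 1] : Matrix (Fin 2) (Fin 2) R).mulVec ![1, 0] = ![1, 0]
  funext i
  fin_cases i <;> simp [Matrix.mulVec, dotProduct, Fin.sum_univ_two]

private theorem Mset_e1d {R S : Type} [CommRing R] [CommRing S] (f : R →+* S) (u v : R)
    (h : u * v = 1) : (SLm f (dg u v h)).val.mulVec ![1, 0] = f u • ![1, 0] := by
  show ((!![u, 0; 0, v] : Matrix (Fin 2) (Fin 2) R).map f).mulVec ![1, 0] = _
  funext i
  fin_cases i <;> simp [Matrix.mulVec, dotProduct, Fin.sum_univ_two]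

/-! ### The admissible sets -/

private theorem Mset_adm {a b : ℤ} {D : Subgroup (GQ a b)} (h : D →* GH a b) (n : ℕ)
    (hn : Lv D n) (k₀ : GH a b) (X : NF a b) : Adm h n X (Sf h n k₀ X) := by
  refine ⟨?_, ?_, ?_⟩
  · rintro x hx e ⟨t, ht, g, hg, y, hy, u, hu, rfl⟩
    refine ⟨t, ht, g, hg, x * y, mul_mem hx hy, u, hu, ?_⟩
    rw [Matrix.mulVec_smul, ← Mset_mv]
  · rintro u hu e ⟨t, ht, g, hg, y, hy, u', hu', rfl⟩
    exact ⟨t, ht, g, hg, y, hy, u * u', hu.mul hu', by rw [smul_smul]⟩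
  · rintro t ht g hg e ⟨t', ht', g', hg', y, hy, u, hu, rfl⟩
    have h1 : (eU ((n : Qf a b ℤ) * (t + t')) : GQ a b) ∈ D := Mset_mem hn _
    have h2 : h ⟨_, h1⟩ = h ⟨_, ht⟩ * h ⟨_, ht'⟩ := by
      rw [← map_mul]
      congr 1
      apply Subtype.ext
      show (eU ((n : Qf a b ℤ) * (t + t')) : GQ a b) =
        eU ((n : Qf a b ℤ) * t) * eU ((n : Qf a b ℤ) * t')
      rw [mul_add, eU_add]
    refine ⟨t + t', h1, g * g', ?_, g * y * g⁻¹, X.nor.conj_mem y hy g, u, hu, ?_⟩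
    · rw [h2, mul_assoc]
      exact Mset_Apm hg hg'
    · rw [Matrix.mulVec_smul, ← Mset_mv, Mset_col, ← Mset_mv]
      congr 3
      group

/-- PIECE NL Mset -/
theorem p_Mset (hk : M_k) (hdiv : M_div) (hcpt : C_cpt) (hbor : C_bor) (hu : C_u) (ho : C_o)
    (hpb : P_pb) : M_set := by
  intro a b M₀ m H D hD h C E hC K ep hK n hn f₀ hf₀ hf1
  have _ := hpb
  have hab := H.neg
  have hP1 : Prm (![1, 0] : Fin 2 → Qf a b ℤ) := by
    refine ⟨1, ?_⟩
    funext i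
    fin_cases i
    · show (1 : Matrix (Fin 2) (Fin 2) (Qf a b ℤ)) 0 0 = 1
      simp
    · show (1 : Matrix (Fin 2) (Fin 2) (Qf a b ℤ)) 1 0 = 0
      simp
  have hdet : C.det * E.det = 1 := by
    rw [← Matrix.det_mul, hC.inv, Matrix.det_one]
  have hK1 := hK _ hP1
  have hK0 := hK _ hf₀
  obtain ⟨ε', hε'⟩ := isUnit_iff_exists_inv.1 hK1.unit
  have hlm : (ε' ^ 2 * E.det) * (ep ![1, 0] ^ 2 * C.det) = 1 := by
    linear_combination (ep ![1, 0] ^ 2 * ε' ^ 2) * hdet + (ep ![1, 0] * ε' + 1) * hε'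
  have hh : ∀ (t : Qf a b ℤ) (ht : (eU ((n : Qf a b ℤ) * t) : GQ a b) ∈ D),
      h ⟨_, ht⟩ = K ![1, 0] * uH ((ε' ^ 2 * E.det) * ((n : OH a b) * jH a b t)) *
        (K ![1, 0])⁻¹ := by
    intro t ht
    have h1 : tv ![1, 0] ((n : Qf a b ℤ) * t) ∈ D := by
      rw [← eU_eq_tv]
      exact ht
    obtain ⟨s, hs, hs2⟩ := hK1.cnj _ h1
    have h2 : (⟨_, ht⟩ : D) = ⟨_, h1⟩ := Subtype.ext (eU_eq_tv _)
    have h3 : s = (ε' ^ 2 * E.det) * ((n : OH a b) * jH a b t) := by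
      rw [map_mul, map_natCast] at hs2
      linear_combination (-s) * hlm + (ε' ^ 2 * E.det) * hs2
    rw [h2, hs, h3]
  have hzero := fun k hk => Mset_zero hdiv hcpt hu hab h n hn.1 (K ![1, 0]) (K f₀) k
    (ε' ^ 2 * E.det) (ep ![1, 0] ^ 2 * C.det) hlm hh hk
  refine ⟨fun X => Mset_adm h n hn (K f₀) X, ?_, ?_, ?_⟩
  · rintro X Y hXY e ⟨t, ht, hc⟩
    exact ⟨t, ht, Mset_CsH hXY hc⟩
  · intro e he
    constructor
    · intro hX
      obtain ⟨s, b', hb', hk'⟩ := hzero (K e) (fun X => by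
        obtain ⟨g, hg, t, ht, hc⟩ := hX X
        exact ⟨t, ht, g, hg, hc⟩)
      obtain ⟨u, v, huv, r, rfl⟩ := (hbor a b hab b').1 hb'
      have hv1 : (piH a b (K ![1, 0])).val.mulVec ![1, 0] = ep ![1, 0] • C.mulVec ![1, 0] := by
        rw [hK1.vec, Mset_e1]
      have h1 := (hK e he).vec
      rw [hk', Mset_pmv _ (iH a b (dg u v huv) * uH r), Mset_pmv _ (K f₀), Mset_pmv _ (uH r),
        (hu a b).2.2.1, Mset_e1U, piH_iH, Mset_e1d, Matrix.mulVec_smul, hK0.vec,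
        ← Matrix.mulVec_smul, ← Matrix.mulVec_smul, Mset_mat hu _ C _ _ hv1 hlm,
        ← Matrix.mulVec_smul] at h1
      have hEC : ∀ y : Fin 2 → OH a b, E.mulVec (C.mulVec y) = y := by
        intro y
        rw [Matrix.mulVec_mulVec, hC.inv', Matrix.one_mulVec]
      have h2 := congrArg (fun y => E.mulVec y) h1
      simp only [hEC] at h2
      obtain ⟨η, hη⟩ := isUnit_iff_exists_inv.1 (hK e he).unit
      have h30 := congrFun h2 0
      have h31 := congrFun h2 1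
      rw [(Mset_eUmv _ _).1] at h30
      rw [(Mset_eUmv _ _).2] at h31
      simp only [Pi.smul_apply, smul_eq_mul, eH] at h30 h31
      have hρ1 : jH a b (f₀ 1) * (jH a b u * ep f₀ * η) = jH a b (e 1) := by
        linear_combination η * h31 + jH a b (e 1) * hη
      obtain ⟨u', he1, hr⟩ := (ho a b hab).2.2.1 _ _ _ hf1 hρ1
      have hu' : IsUnit u' := by
        refine (ho a b hab).2.2.2.1 u' ?_
        rw [← hr]
        exact (((IsUnit.of_mul_eq_one v huv).map (jH a b)).mul hK0.unit).mul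
          (IsUnit.of_mul_eq_one (ep e) (by rw [mul_comm]; exact hη))
      obtain ⟨v', hv'⟩ := isUnit_iff_exists_inv.1 hu'
      have hv2 : jH a b u' * jH a b v' = 1 := by
        rw [← map_mul, hv', map_one]
      have hA : jH a b u' * (jH a b (f₀ 0) + (n : OH a b) * s * jH a b (f₀ 1)) =
          jH a b (e 0) := by
        linear_combination η * h30 -
          (jH a b (f₀ 0) + (n : OH a b) * s * jH a b (f₀ 1)) * hr + jH a b (e 0) * hη
      have hB : jH a b (f₀ 1) * ((n : OH a b) * s) = jH a b (v' * e 0 - f₀ 0) := by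
        rw [map_sub, map_mul]
        linear_combination jH a b v' * hA -
          (jH a b (f₀ 0) + (n : OH a b) * s * jH a b (f₀ 1)) * hv2
      obtain ⟨r', hr', hr2⟩ := (ho a b hab).2.2.1 _ _ _ hf1 hB
      obtain ⟨t, ht⟩ : ∃ t, r' = (n : Qf a b ℤ) * t := by
        obtain ⟨n', rfl⟩ : ∃ n' : ℕ+, (n' : ℕ) = n := ⟨⟨n, Nat.pos_of_ne_zero hn.1⟩, rfl⟩
        have h5 : ((n' : ℕ) : Qf a b (ZMod n')) = 0 := by
          ext
          · simp
          · simp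
        have h6 : Qfm a b (Int.castRingHom (ZMod n')) r' =
            Qfm a b (Int.castRingHom (ZMod n')) 0 := by
          rw [← rH_jH, ← hr2, map_mul, map_natCast, h5, zero_mul, map_zero]
        obtain ⟨t, ht⟩ := Qfm_dvd h6
        exact ⟨t, by rw [ht, zero_add]⟩
      refine ⟨u', t, hu', ?_⟩
      funext i
      fin_cases i
      · show e 0 = u' * (eU ((n : Qf a b ℤ) * t) : GQ a b).val.mulVec f₀ 0
        rw [(Mset_eUmv _ _).1, ← ht]
        linear_combination (-(e 0)) * hv' + u' * hr'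
      · show e 1 = u' * (eU ((n : Qf a b ℤ) * t) : GQ a b).val.mulVec f₀ 1
        rw [(Mset_eUmv _ _).2, he1, mul_comm]
    · rintro ⟨u, t, hu', rfl⟩ X
      obtain ⟨v, huv⟩ := isUnit_iff_exists_inv.1 hu'
      have ht : (eU ((n : Qf a b ℤ) * t) : GQ a b) ∈ D := Mset_mem hn t
      have hx : Prm ((eU ((n : Qf a b ℤ) * t) : GQ a b).val.mulVec f₀) := by
        obtain ⟨g, hg⟩ := hf₀
        exact ⟨eU ((n : Qf a b ℤ) * t) * g, by rw [Mset_col, hg]⟩
      have h1 := (hk a b M₀ m H D hD h C E hC f₀ (K f₀) (ep f₀) hf₀ hK0).1 ⟨_, ht⟩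
      have h2 := (hk a b M₀ m H D hD h C E hC _ _ _ hx h1).2.1 u v huv
      obtain ⟨u', v', huv', r, h3, h4⟩ :=
        (hk a b M₀ m H D hD h C E hC _ _ _ he h2).2.2.2 _ _ (hK _ he)
      obtain ⟨g', hg'⟩ := Ap_ex X (h ⟨_, ht⟩ * K f₀)
      have h0 : Ap X (uH r) (eU (lfH (lvN X) r)) :=
        uH_ap X (lvN X) r (lfH (lvN X) r) (lvN_mem X) (lfH_rH _ r).symm
      refine ⟨g' * dg u v huv * (dg u' v' huv' * eU (lfH (lvN X) r)), ?_, t, ht, g', hg', 1,
        one_mem _, u' * u, (IsUnit.of_mul_eq_one v' huv').mul hu', ?_⟩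
      · rw [h3]
        exact Mset_Apm (Mset_Apm hg' (pr_iH X _)) (Mset_Apm (pr_iH X _) h0)
      · rw [← mul_assoc, Mset_eU, Mset_dg, Mset_dg, smul_smul]
        show _ = _ • (1 : Matrix (Fin 2) (Fin 2) (Qf a b ℤ)).mulVec _
        rw [Matrix.one_mulVec]
  · intro γ hγ
    obtain ⟨s, b', hb', hk'⟩ := hzero (K ![1, 0] * iH a b γ) (fun X => by
      obtain ⟨g₁, hg₁⟩ := Ap_ex X (K ![1, 0])
      obtain ⟨t, ht, hc⟩ := hγ X g₁ hg₁
      refine ⟨t, ht, g₁ * γ, Mset_Apm hg₁ (pr_iH X _), ?_⟩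
      rw [Mset_col]
      exact hc)
    refine ⟨-((ε' ^ 2 * E.det) * ((n : OH a b) * s)), b'⁻¹, inv_mem hb', ?_⟩
    have h1 : uH (-((ε' ^ 2 * E.det) * ((n : OH a b) * s))) =
        (uH ((ε' ^ 2 * E.det) * ((n : OH a b) * s)) : GH a b)⁻¹ := by
      rw [eq_inv_iff_mul_eq_one, ← (hu a b).1, neg_add_cancel]
      have h2 := (hu a b).1 0 0
      rw [add_zero] at h2
      exact (mul_eq_left.1 h2.symm)
    rw [h1, mul_assoc _ (iH a b γ)]
    have h3 : K ![1, 0] * iH a b γ * b'⁻¹ = K ![1, 0] *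
        uH (ε' ^ 2 * E.det * ((n : OH a b) * s)) * (K ![1, 0])⁻¹ * K f₀ := by
      rw [hk']
      group
    calc K f₀ = K ![1, 0] * (uH ((ε' ^ 2 * E.det) * ((n : OH a b) * s)))⁻¹ * (K ![1, 0])⁻¹ *
          (K ![1, 0] * uH (ε' ^ 2 * E.det * ((n : OH a b) * s)) * (K ![1, 0])⁻¹ * K f₀) := by
          group
      _ = _ := by
          rw [← h3]
          group

end

end Pool.Agent.F8.NL
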