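import Pool.Agent.Lib.MP_305fdd_al.F8.NL.StmM
import Mathlib.FieldTheory.IsAlgClosed.Classification
import Mathlib.Analysis.Complex.Cardinality
import Mathlib.RingTheory.Algebraic.Cardinality
import Mathlib.NumberTheory.Padics.PadicIntegers

/-!
# MP_305fdd_al, all lattices (project NL): an embedding in the complex numbers
-/

set_option autoImplicit false

namespace Pool.Agent.F8.NL

open Pool.Agent.F8.CG Pool.Agent.F8.BG Pool.Agent.MP_305fdd_al Pool.Agent.Lib.MP_305fdd_al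
  Pool.Agent.F8
open scoped QuadraticAlgebra ComplexConjugate Kronecker Cardinal

noncomputable section

private theorem Mv_card (q : ℕ) [Fact q.Prime] : Cardinal.mk ℚ_[q] ≤ 𝔠 := by
  show Cardinal.mk (CauSeq.Completion.Cauchy (padicNorm q)) ≤ 𝔠
  apply Cardinal.mk_quotient_le.trans
  apply (Cardinal.mk_subtype_le _).trans_eq
  rw [← Cardinal.power_def, Cardinal.mk_nat, Cardinal.mkRat, Cardinal.aleph0_power_aleph0]

private theorem Mv_emb (q : ℕ) [Fact q.Prime] : ∃ σ : ℚ_[q] →+* ℂ, Function.Injective σ := by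
  have h1 : Cardinal.mk (AlgebraicClosure ℚ_[q]) ≤ 𝔠 :=
    (Algebra.IsAlgebraic.cardinalMk_le_max ℚ_[q] (AlgebraicClosure ℚ_[q])).trans
      (max_le (Mv_card q) Cardinal.aleph0_le_continuum)
  have h2 : 𝔠 ≤ Cardinal.mk (AlgebraicClosure ℚ_[q]) :=
    (continuum_le_cardinal_of_nontriviallyNormedField ℚ_[q]).trans
      (Cardinal.mk_le_of_injective (algebraMap ℚ_[q] (AlgebraicClosure ℚ_[q])).injective)
  have h3 : Cardinal.mk (AlgebraicClosure ℚ_[q]) = Cardinal.mk ℂ := by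
    rw [Cardinal.mk_complex]
    exact le_antisymm h1 h2
  have : CharZero (AlgebraicClosure ℚ_[q]) := charZero_of_injective_algebraMap
    (algebraMap ℚ_[q] (AlgebraicClosure ℚ_[q])).injective
  obtain ⟨e⟩ := IsAlgClosed.ringEquiv_of_equiv_of_charZero (K := AlgebraicClosure ℚ_[q]) (L := ℂ)
    (Cardinal.aleph0_lt_continuum.trans_le h2) (Cardinal.eq.1 h3)
  exact ⟨(e : AlgebraicClosure ℚ_[q] →+* ℂ).comp (algebraMap ℚ_[q] (AlgebraicClosure ℚ_[q])),
    RingHom.injective _⟩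

private theorem Mv_dec {a b : ℤ} (f : Qf a b ℤ →+* ℂ) (z : Qf a b ℤ) :
    f z = (z.re : ℂ) + (z.im : ℂ) * f (wq a b ℤ) := by
  have h1 : z = ((z.re : ℤ) : Qf a b ℤ) + ((z.im : ℤ) : Qf a b ℤ) * wq a b ℤ := by
    apply QuadraticAlgebra.ext <;> simp [wq]
  conv_lhs => rw [h1]
  rw [map_add, map_mul, map_intCast, map_intCast]

private theorem Mv_cj {a b : ℤ} (t : Qf a b ℤ) :
    cjq a b Zh (jH a b t) = jH a b (cjq a b ℤ t) := by
  apply QuadraticAlgebra.ext
  · rw [cjq_apply, cjq_apply]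
    simp [jH, Qfm_apply]
  · rw [cjq_apply, cjq_apply]
    simp [jH, Qfm_apply]

theorem p_Mv (hv : C_v) : M_v := by
  intro a b hneg hPID
  obtain ⟨q, hq, v₀, -, hV, -, -, -⟩ := hv a b hneg hPID 1 one_ne_zero
  obtain ⟨σ, hσ⟩ := Mv_emb q
  let v : OH a b →+* ℂ := σ.comp ((PadicInt.Coe.ringHom (p := q)).comp v₀)
  have hx : v (jH a b (wq a b ℤ)) * v (jH a b (wq a b ℤ)) =
      (a : ℂ) + (b : ℂ) * v (jH a b (wq a b ℤ)) := by
    rw [← map_mul, ← map_mul, wq_sq, map_add, map_mul, map_add, map_mul, map_intCast, map_intCast,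
      map_intCast, map_intCast]
  have hw := wC_mul a b
  have hd : (v (jH a b (wq a b ℤ)) - CG.wC a b) * (v (jH a b (wq a b ℤ)) - (b - CG.wC a b)) =
      0 := by
    linear_combination hx - hw
  rcases mul_eq_zero.1 hd with h | h
  · refine ⟨v, ?_⟩
    apply RingHom.ext
    intro z
    show (v.comp (jH a b)) z = _
    rw [Mv_dec (v.comp (jH a b)) z, iC_apply, show (v.comp (jH a b)) (wq a b ℤ) = CG.wC a b from
      sub_eq_zero.1 h]
  · refine ⟨v.comp (cjq a b Zh), ?_⟩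
    apply RingHom.ext
    intro z
    have h1 : v (cjq a b Zh (jH a b (wq a b ℤ))) = CG.wC a b := by
      rw [Mv_cj]
      show (v.comp (jH a b)) (cjq a b ℤ (wq a b ℤ)) = _
      rw [Mv_dec (v.comp (jH a b)) _, show (v.comp (jH a b)) (wq a b ℤ) = b - CG.wC a b from
        sub_eq_zero.1 h, cjq_apply]
      simp [wq]
    show ((v.comp (cjq a b Zh)).comp (jH a b)) z = _
    rw [Mv_dec ((v.comp (cjq a b Zh)).comp (jH a b)) z, iC_apply,
      show ((v.comp (cjq a b Zh)).comp (jH a b)) (wq a b ℤ) = CG.wC a b from h1]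

end

end Pool.Agent.F8.NL
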