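import Pool.Agent.Lib.MP_305fdd_al.F8.NL.P_Xv0

/-!
# [NL X cx, X ex, X ex1] integral crossed homomorphisms with one cusp
-/

set_option autoImplicit false

namespace Pool.Agent.F8.NL

open Pool.Agent.F8.CG Pool.Agent.F8.BG Pool.Agent.MP_305fdd_al Pool.Agent.Lib.MP_305fdd_al
  Pool.Agent.F8
open scoped QuadraticAlgebra

theorem Lv_one {a b : ℤ} {W : Subgroup (GQ a b)} {N : ℕ} (hN : Lv W N)
    (e : Fin 2 → Qf a b ℤ) : tv e (N : Qf a b ℤ) ∈ W := by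
  have h := hN.2 e 1
  rwa [mul_one] at h

theorem p_Xcx (hfw : X_fw) (hde : X_de) : X_cx := by
  rintro a b hn hG m W hW N hN e₀ ⟨z, hz, hz0, hz1⟩
  have hdom : IsDomain (Qf a b ℤ) := Qf_domain hn
  obtain ⟨J, n, A, E, hE⟩ := hfw a b hG m W hW
  obtain ⟨v, hv, hvz⟩ := (hE ℂ (iC a b)).1 z hz
  have hb : ∀ e, bv m N (iC a b) z e = ∑ i, iC a b (bvE m N E e i) * v i := fun e =>
    bv_bvE E (iC a b) v z e fun k => hvz _ (Lv_one hN e) k
  obtain ⟨w, hw, hw0⟩ := hde (Qf a b ℤ) ℂ (J ⊕ {e : Fin 2 → Qf a b ℤ // Prm e ∧ ¬ Cs W e₀ e})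
    (iC a b) (iC_inj hn) n (Sum.elim A fun e => bvE m N E e.1) (bvE m N E e₀) v (by
      rintro (j | ⟨e, he, he1⟩)
      · exact hv j
      · show ∑ i, iC a b (bvE m N E e i) * v i = 0
        rw [← hb]
        exact hz1 e he he1) (by
      rw [← hb]
      exact hz0)
  refine ⟨fun x k => ∑ i, E x k i * w i, (hE (Qf a b ℤ) (RingHom.id _)).2 w fun j =>
    hw (Sum.inl j), ?_, fun e he he1 => ?_⟩
  · rw [bv_bvE E (RingHom.id _) w _ e₀ fun k => rfl]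
    exact hw0
  · rw [bv_bvE E (RingHom.id _) w _ e fun k => rfl]
    exact hw (Sum.inr ⟨e, he, he1⟩)

/-- the relation `Cs` is invariant -/
theorem Cs_act {a b : ℤ} {W : Subgroup (GQ a b)} {e₀ e : Fin 2 → Qf a b ℤ} {x : GQ a b}
    (hx : x ∈ W) (h : Cs W e₀ e) : Cs W e₀ (x.val.mulVec e) := by
  obtain ⟨y, hy, u, hu, rfl⟩ := h
  refine ⟨x * y, W.mul_mem hx hy, u, hu, ?_⟩
  rw [Matrix.mulVec_smul]
  congr 1
  exact Matrix.mulVec_mulVec _ _ _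

theorem Cs_act_iff {a b : ℤ} {W : Subgroup (GQ a b)} {e₀ e : Fin 2 → Qf a b ℤ} {x : GQ a b}
    (hx : x ∈ W) : Cs W e₀ (x.val.mulVec e) ↔ Cs W e₀ e := by
  refine ⟨fun h => ?_, Cs_act hx⟩
  have h1 := Cs_act (W.inv_mem hx) h
  rw [Matrix.mulVec_mulVec] at h1
  have h2 : (x⁻¹).val * x.val = 1 := congrArg Subtype.val (inv_mul_cancel x)
  rwa [h2, Matrix.one_mulVec] at h1

theorem Cs_smul {a b : ℤ} {W : Subgroup (GQ a b)} {e₀ e : Fin 2 → Qf a b ℤ} {u : Qf a b ℤ}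
    (hu : IsUnit u) (h : Cs W e₀ e) : Cs W e₀ (u • e) := by
  obtain ⟨y, hy, u', hu', rfl⟩ := h
  exact ⟨y, hy, u * u', hu.mul hu', by rw [smul_smul]⟩

theorem Cs_smul_iff {a b : ℤ} {W : Subgroup (GQ a b)} {e₀ e : Fin 2 → Qf a b ℤ} {u : Qf a b ℤ}
    (hu : IsUnit u) : Cs W e₀ (u • e) ↔ Cs W e₀ e := by
  refine ⟨fun h => ?_, Cs_smul hu⟩
  obtain ⟨u', rfl⟩ := hu
  have h1 := Cs_smul (u'⁻¹).isUnit h
  rwa [smul_smul, Units.inv_mul, one_smul] at h1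

theorem Cs_refl {a b : ℤ} (W : Subgroup (GQ a b)) (e : Fin 2 → Qf a b ℤ) : Cs W e e := by
  refine ⟨1, W.one_mem, 1, isUnit_one, ?_⟩
  rw [one_smul]
  exact (Matrix.one_mulVec e).symm

/-- the units are finite in number -/
theorem units_card {a b : ℤ} (hn : b ^ 2 + 4 * a < 0) {k : ℕ} (hk : k ≠ 0) (h : UnE a b k) :
    Nat.card (Qf a b ℤ)ˣ ≠ 0 := by
  have hdom : IsDomain (Qf a b ℤ) := Qf_domain hn
  have : NeZero k := ⟨hk⟩
  have hfin : Finite (Qf a b ℤ)ˣ := by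
    have h1 : Function.Injective fun u : (Qf a b ℤ)ˣ => (⟨u, by
      rw [mem_rootsOfUnity]
      apply Units.ext
      rw [Units.val_pow_eq_pow_val, Units.val_one]
      exact h u u.isUnit⟩ : rootsOfUnity k (Qf a b ℤ)) := fun u v huv => by
      exact congrArg Subtype.val huv
    exact Finite.of_injective _ h1
  exact Nat.card_pos.ne'

theorem p_Xex (hE : E_main) (hcx : X_cx) : X_ex := by
  intro a b hn hEu hP hG m hm hev hun W hW N hN e₀ he₀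
  classical
  refine hcx a b hn hG m W hW N hN e₀ ?_
  obtain ⟨-, h1⟩ := hE a b hn hEu hP m hm hev hun
  obtain ⟨z, hz, h2⟩ := h1 W (fun e => if Cs W e₀ e then 1 else 0) ⟨1, fun e => by
    split_ifs <;> simp⟩ (fun x hx e _ => by
      simp only [Cs_act_iff hx]) (fun u hu e _ => by
      simp only [Cs_smul_iff hu])
  obtain ⟨h3, -⟩ := h2 N hN
  refine ⟨z, hz, ?_, fun e he he1 => ?_⟩
  · rw [h3 e₀ he₀, if_pos (Cs_refl W e₀), mul_one]
    have h4 := units_card hn (by omega) hun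
    have h5 : (N : ℂ) ≠ 0 := Nat.cast_ne_zero.2 hN.1
    have h6 : ((Nat.card (Qf a b ℤ)ˣ : ℕ) : ℂ) ≠ 0 := Nat.cast_ne_zero.2 h4
    exact mul_ne_zero h5 h6
  · rw [h3 e he, if_neg he1, mul_zero]

theorem p_Xex1 (hh1 : X_h1) (hcx : X_cx) : X_ex1 := by
  intro a b hn hEu hP hG M₀ _ hLD W hW hle N hN e₀ he₀
  exact hcx a b hn hG 1 W hW N hN e₀ (hh1 a b hn hEu hP M₀ hLD W hW hle N hN e₀ he₀)

end Pool.Agent.F8.NL
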