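import Pool.Agent.Lib.MP_305fdd_al.F8.NL.P_Xcb
import Pool.Agent.Lib.MP_305fdd_al.F8.NL.P_Xcx

/-!
# [NL X ce] the number `r` is a linear combination of the numbers `bv`
-/

set_option autoImplicit false

namespace Pool.Agent.F8.NL

open Pool.Agent.F8.CG Pool.Agent.F8.BG Pool.Agent.MP_305fdd_al Pool.Agent.Lib.MP_305fdd_al
  Pool.Agent.F8
open scoped QuadraticAlgebra

noncomputable section

/-- the linear form of the number `r` -/
def rvE {a b : ℤ} (m N : ℕ) (lam : Fin (m + 2) → ℤ) {n : ℕ}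
    (E : GQ a b → Fin (m + 1) → Fin n → Qf a b ℤ) (i : Fin n) : Qf a b ℤ :=
  ∑ j, (lam j : Qf a b ℤ) *
    (E (eU ((N : Qf a b ℤ) * (((j : ℕ) : Qf a b ℤ) * wq a b ℤ))) 0 i -
      wq a b ℤ * E (eU ((N : Qf a b ℤ) * ((j : ℕ) : Qf a b ℤ))) 0 i)

theorem rv_rvE {a b : ℤ} {m N n : ℕ} (lam : Fin (m + 2) → ℤ)
    (E : GQ a b → Fin (m + 1) → Fin n → Qf a b ℤ) {L : Type} [CommRing L]
    (f : Qf a b ℤ →+* L) (v : Fin n → L) (z : GQ a b → Fin (m + 1) → L)
    (hz : ∀ t, z (eU ((N : Qf a b ℤ) * t)) 0 = ∑ i, f (E (eU ((N : Qf a b ℤ) * t)) 0 i) * v i) :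
    ∑ j, (lam j : L) *
      (z (eU ((N : Qf a b ℤ) * (((j : ℕ) : Qf a b ℤ) * wq a b ℤ))) 0 -
        f (wq a b ℤ) * z (eU ((N : Qf a b ℤ) * ((j : ℕ) : Qf a b ℤ))) 0) =
      ∑ i, f (rvE m N lam E i) * v i := by
  unfold rvE
  have h1 : ∀ i, f (∑ j, (lam j : Qf a b ℤ) *
      (E (eU ((N : Qf a b ℤ) * (((j : ℕ) : Qf a b ℤ) * wq a b ℤ))) 0 i -
      wq a b ℤ * E (eU ((N : Qf a b ℤ) * ((j : ℕ) : Qf a b ℤ))) 0 i)) * v i =
      ∑ j, (lam j : L) *
        (f (E (eU ((N : Qf a b ℤ) * (((j : ℕ) : Qf a b ℤ) * wq a b ℤ))) 0 i) * v i -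
        f (wq a b ℤ) * (f (E (eU ((N : Qf a b ℤ) * ((j : ℕ) : Qf a b ℤ))) 0 i) * v i)) := by
    intro i
    rw [map_sum, Finset.sum_mul]
    refine Finset.sum_congr rfl fun j _ => ?_
    rw [map_mul, map_sub, map_mul, map_intCast]
    ring
  rw [Finset.sum_congr rfl fun i _ => h1 i, Finset.sum_comm]
  refine Finset.sum_congr rfl fun j _ => ?_
  rw [← Finset.mul_sum, Finset.sum_sub_distrib, ← Finset.mul_sum, ← hz, ← hz]

/-- the number `r` of a coboundary -/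
theorem RVp_cob {a b : ℤ} (m N : ℕ) {L : Type} [CommRing L] (f f' : Qf a b ℤ →+* L)
    (v : Fin (m + 1) → L) {W : Subgroup (GQ a b)} (hN : Lv W N) (z : GQ a b → Fin (m + 1) → L)
    (hz : ∀ x ∈ W, z x = (tV m f x).mulVec v - v) : RVp m N f f' z 0 := by
  refine ⟨(∑ i : Fin (m + 1), Polynomial.C (v i) *
    (Polynomial.C (-(N : L)) * Polynomial.X) ^ (i : ℕ)) - Polynomial.C (v 0), fun t => ?_⟩
  have hmem : eU ((N : Qf a b ℤ) * t) ∈ W := by
    rw [eU_eq_tv]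
    exact hN.2 _ t
  rw [hz _ hmem, zero_mul, add_zero]
  rw [Polynomial.eval_sub, Polynomial.eval_C, Polynomial.eval_finsetSum]
  show (tV m f (eU ((N : Qf a b ℤ) * t))).mulVec v 0 - v 0 = _
  congr 1
  have h1 : ∀ P : Fin (m + 1) → L, evm m P ![0, 1] = P 0 := by
    intro P
    unfold evm
    rw [Fin.sum_univ_succ]
    simp
  rw [← h1 ((tV m f (eU ((N : Qf a b ℤ) * t))).mulVec v)]
  show evm m ((sm m (SLm f (eU ((N : Qf a b ℤ) * t)))).mulVec v) ![0, 1] = _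
  rw [evm_sm]
  have h2 : ((SLm f (eU ((N : Qf a b ℤ) * t)))⁻¹).val.mulVec ![0, 1] = ![-(N : L) * f t, 1] := by
    rw [Matrix.SpecialLinearGroup.SL2_inv_expl]
    show (!![f 1, -f ((N : Qf a b ℤ) * t); -f 0, f 1] : Matrix (Fin 2) (Fin 2) L).mulVec ![0, 1] = _
    ext i
    fin_cases i <;> simp [Matrix.mulVec, dotProduct, Fin.sum_univ_two]
  rw [h2]
  unfold evm
  refine Finset.sum_congr rfl fun i _ => ?_
  simp

theorem p_Xce (hfw : X_fw) (hlin : CG.S_lin) (hv0 : X_v0) (hrep : X_rep) (hbv : B_bv)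
    (hrv : X_rv) : X_ce := by
  intro a b hn hEu hP hG m hm W hW N hN
  classical
  have hdom : IsDomain (Qf a b ℤ) := Qf_domain hn
  obtain ⟨J, n, A, E, hE⟩ := hfw a b hG m W hW
  obtain ⟨I, hI, hI1⟩ := hrep a b W hW
  obtain ⟨c, lam, hc, hcl⟩ := hrv a b m
  have hmem : ∀ t : Qf a b ℤ, eU ((N : Qf a b ℤ) * t) ∈ W := fun t => by
    rw [eU_eq_tv]
    exact hN.2 _ t
  obtain ⟨d, l, hd, hl⟩ := hlin (Qf a b ℤ) (J ⊕ {e // e ∈ I}) n
    (Sum.elim A fun e => bvE m N E e.1) (rvE m N lam E) (by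
    intro v hv
    obtain ⟨z, hzd⟩ : ∃ z : GQ a b → Fin (m + 1) → Qf a b ℤ,
        ∀ x k, z x k = ∑ i, E x k i * v i := ⟨_, fun _ _ => rfl⟩
    have hz : CH (tV m (RingHom.id (Qf a b ℤ))) W z := by
      have h := (hE (Qf a b ℤ) (RingHom.id _)).2 v fun j => hv (Sum.inl j)
      rw [show z = fun x k => ∑ i, E x k i * v i from funext fun x => funext fun k => hzd x k]
      exact h
    have hzC := CH_map (iC a b) hz
    have hB := hbv a b hn m (by omega) ℂ (iC a b) (iC_inj hn)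
    obtain ⟨u, hu⟩ := hv0 a b hn hEu hP m (Or.inr hm) W hW N hN _ hzC (fun e he => by
      obtain ⟨j, hj, x, hx, rfl⟩ := hI1 e he
      rw [hB.inv W N hN _ hzC x hx, bv_map, bv_bvE E (RingHom.id _) v z j fun k => hzd _ k]
      have h1 := hv (Sum.inr ⟨j, hj⟩)
      show iC a b (∑ i, bvE m N E j i * v i) = 0
      rw [show ∑ i, bvE m N E j i * v i = 0 from h1, map_zero])
    have h2 := hcl N W hN ℂ (iC a b) (iC_inj hn) _ hzC 0 (RVp_cob m N _ _ u hN _ hu)
    rw [mul_zero, rv_rvE lam E (iC a b) (fun i => iC a b (v i)) (fun x k => iC a b (z x k))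
      (fun t => by
        rw [hzd, map_sum]
        exact Finset.sum_congr rfl fun i _ => map_mul _ _ _)] at h2
    apply iC_inj hn
    rw [map_zero, map_sum, h2]
    exact Finset.sum_congr rfl fun i _ => map_mul _ _ _)
  refine ⟨I, d * c, fun e => if he : e ∈ I then l (Sum.inr ⟨e, he⟩) else 0, mul_ne_zero hd hc,
    hI, ?_⟩
  intro L _ _ f hf z hz r hr
  obtain ⟨v, hv, hzv⟩ := (hE L f).1 z hz
  have h1 := hcl N W hN L f hf z hz r hr
  rw [rv_rvE lam E f v z fun t => hzv _ (hmem t) 0] at h1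
  rw [map_mul, mul_assoc, h1]
  have hb : ∀ e, bv m N f z e = ∑ i, f (bvE m N E e i) * v i := fun e =>
    bv_bvE E f v z e fun k => hzv _ (Lv_one hN e) k
  have h3 : ∀ i, f (d * rvE m N lam E i) * v i = ∑ j ∈ l.support, f (l j) *
      (f ((Sum.elim A (fun e : {e // e ∈ I} => bvE m N E e.1) j) i) * v i) := by
    intro i
    rw [hl i, Finsupp.sum, map_sum, Finset.sum_mul]
    exact Finset.sum_congr rfl fun j _ => by rw [map_mul, mul_assoc]
  have h4 : f d * ∑ i, f (rvE m N lam E i) * v i = ∑ j ∈ l.support, f (l j) *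
      ∑ i, f ((Sum.elim A (fun e : {e // e ∈ I} => bvE m N E e.1) j) i) * v i := by
    rw [Finset.mul_sum]
    have h5 : ∀ i, f d * (f (rvE m N lam E i) * v i) = f (d * rvE m N lam E i) * v i := by
      intro i
      rw [map_mul, mul_assoc]
    rw [Finset.sum_congr rfl fun i _ => h5 i, Finset.sum_congr rfl fun i _ => h3 i,
      Finset.sum_comm]
    exact Finset.sum_congr rfl fun j _ => (Finset.mul_sum _ _ _).symm
  rw [h4]
  have h6 : ∑ j ∈ l.support, f (l j) *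
      ∑ i, f ((Sum.elim A (fun e : {e // e ∈ I} => bvE m N E e.1) j) i) * v i =
      ∑ j ∈ l.support ∪ Finset.univ.image Sum.inr, f (l j) *
      ∑ i, f ((Sum.elim A (fun e : {e // e ∈ I} => bvE m N E e.1) j) i) * v i := by
    refine Finset.sum_subset Finset.subset_union_left fun j _ hj => ?_
    rw [Finsupp.notMem_support_iff.1 hj, map_zero, zero_mul]
  rw [h6]
  have h7 : ∑ j ∈ l.support ∪ Finset.univ.image Sum.inr, f (l j) *
      ∑ i, f ((Sum.elim A (fun e : {e // e ∈ I} => bvE m N E e.1) j) i) * v i =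
      ∑ j ∈ (Finset.univ : Finset {e // e ∈ I}).image Sum.inr, f (l j) *
      ∑ i, f ((Sum.elim A (fun e : {e // e ∈ I} => bvE m N E e.1) j) i) * v i := by
    symm
    refine Finset.sum_subset Finset.subset_union_right fun j _ hj => ?_
    rcases j with j | j
    · rw [show ∑ i, f ((Sum.elim A (fun e : {e // e ∈ I} => bvE m N E e.1) (Sum.inl j)) i) * v i = 0
        from hv j, mul_zero]
    · exact absurd (Finset.mem_image.2 ⟨j, Finset.mem_univ _, rfl⟩) hj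
  rw [h7, Finset.sum_image (fun x _ y _ h => Sum.inr_injective h)]
  rw [← Finset.sum_coe_sort I]
  refine Finset.sum_congr rfl fun j _ => ?_
  beta_reduce
  rw [dif_pos j.2, hb]
  rfl

end

end Pool.Agent.F8.NL
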