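import Pool.Agent.Lib.MP_305fdd_al.F8.NL.StmM
import Pool.Agent.Lib.MP_305fdd_al.F8.NL.P_Xce

/-! Piece `Mvan` of project NL: the number `r` is determined by the values at the cusps. -/

set_option autoImplicit false

namespace Pool.Agent.F8.NL

open Pool.Agent.F8.CG Pool.Agent.F8.BG Pool.Agent.MP_305fdd_al Pool.Agent.Lib.MP_305fdd_al
  Pool.Agent.F8
open scoped QuadraticAlgebra ComplexConjugate

private theorem Mvan_uniq {a b : ℤ} (hn : b ^ 2 + 4 * a < 0) (m N : ℕ)
    (z : GQ a b → Fin (m + 1) → ℂ) (r r' : ℂ) (h : RVp m N (iC a b) (cC a b) z r)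
    (h' : RVp m N (iC a b) (cC a b) z r') : r = r' := by
  obtain ⟨Q, hQ⟩ := h
  obtain ⟨Q', hQ'⟩ := h'
  have h1 : ∀ t : Qf a b ℤ, (Q - Q').eval (iC a b t) + (r - r') * cC a b t = 0 := by
    intro t
    have h2 := hQ t
    rw [hQ' t] at h2
    rw [Polynomial.eval_sub]
    linear_combination -h2
  have h3 : ∀ n : ℤ, cC a b (n : Qf a b ℤ) = (n : ℂ) := fun n => by rw [map_intCast]
  have h4 : Q - Q' + Polynomial.C (r - r') * Polynomial.X = 0 := by
    apply Polynomial.eq_zero_of_infinite_isRoot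
    refine Set.Infinite.mono (s := Set.range fun n : ℤ => (n : ℂ)) ?_
      (Set.infinite_range_of_injective Int.cast_injective)
    rintro _ ⟨n, rfl⟩
    have h5 := h1 (n : Qf a b ℤ)
    rw [h3, map_intCast] at h5
    show Polynomial.eval (n : ℂ) _ = 0
    rw [Polynomial.eval_add, Polynomial.eval_mul, Polynomial.eval_C, Polynomial.eval_X]
    exact h5
  have h6 := congrArg (Polynomial.eval (CG.wC a b)) h4
  rw [Polynomial.eval_add, Polynomial.eval_mul, Polynomial.eval_C, Polynomial.eval_X,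
    Polynomial.eval_zero] at h6
  have h7 := h1 (wq a b ℤ)
  have h8 : iC a b (wq a b ℤ) = CG.wC a b := by
    rw [iC_apply]
    show ((0 : ℤ) : ℂ) + ((1 : ℤ) : ℂ) * _ = _
    rw [Int.cast_zero, Int.cast_one, zero_add, one_mul]
  have h9 : cC a b (wq a b ℤ) = conj (CG.wC a b) := by
    show conj (iC a b (wq a b ℤ)) = _
    rw [h8]
  rw [h8, h9] at h7
  have h10 : (r - r') * (CG.wC a b - conj (CG.wC a b)) = 0 := by
    linear_combination h6 - h7
  rcases mul_eq_zero.1 h10 with h | h
  · exact sub_eq_zero.1 h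
  · exfalso
    have h11 := congrArg Complex.im h
    rw [Complex.sub_im, Complex.conj_im, Complex.zero_im] at h11
    have := wC_im hn
    linarith

theorem p_Mvan (hv0 : T_v0) (hbv : B_bv) : M_van := by
  intro a b hn hEu hP m hm W hW N hN
  refine ⟨fun z r r' h h' => Mvan_uniq hn m N z r r' h h', ?_⟩
  intro z z' c c' r r' hz hz' hcc hr hr'
  have hu : CH (tV m (iC a b)) W (fun x => c • z x - c' • z' x) := by
    intro x hx y hy
    show c • z (x * y) - c' • z' (x * y) = c • z x - c' • z' x +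
      (tV m (iC a b) x).mulVec (c • z y - c' • z' y)
    rw [hz x hx y hy, hz' x hx y hy, Matrix.mulVec_sub, Matrix.mulVec_smul, Matrix.mulVec_smul,
      smul_add, smul_add]
    abel
  have hbu : ∀ e, Prm e → bv m N (iC a b) (fun x => c • z x - c' • z' x) e = 0 := by
    intro e he
    have h1 := hcc e he
    unfold bv at h1 ⊢
    have h2 : ∀ P Q : Fin (m + 1) → ℂ, ∀ v, evm m (c • P - c' • Q) v =
        c * evm m P v - c' * evm m Q v := by
      intro P Q v
      rw [sub_eq_add_neg, ← neg_smul, evm_add, evm_csmul, evm_csmul]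
      ring
    rw [h2, h1, sub_self]
  obtain ⟨v, hv⟩ := p_Xv0 hv0 hbv a b hn hEu hP m (Or.inr hm) W hW N hN _ hu hbu
  have h0 := RVp_cob m N (iC a b) (cC a b) v hN _ hv
  have h1 : RVp m N (iC a b) (cC a b) (fun x => c • z x - c' • z' x) (c * r - c' * r') := by
    obtain ⟨Q, hQ⟩ := hr
    obtain ⟨Q', hQ'⟩ := hr'
    refine ⟨Polynomial.C c * Q - Polynomial.C c' * Q', fun t => ?_⟩
    show c * z _ 0 - c' * z' _ 0 = _
    rw [hQ, hQ', Polynomial.eval_sub, Polynomial.eval_mul, Polynomial.eval_mul, Polynomial.eval_C,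
      Polynomial.eval_C]
    ring
  have h2 := Mvan_uniq hn m N _ _ _ h1 h0
  exact sub_eq_zero.1 h2

end Pool.Agent.F8.NL
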