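import Pool.Agent.Lib.MP_305fdd_al.F8.NL.StmX

/-!
# [NL X rep] representatives of the cusps
-/

set_option autoImplicit false

namespace Pool.Agent.F8.NL

open Pool.Agent.F8.CG Pool.Agent.F8.BG Pool.Agent.MP_305fdd_al Pool.Agent.Lib.MP_305fdd_al
  Pool.Agent.F8

theorem colG_mul {R : Type} [CommRing R] (x g : SL2 R) :
    colG (x * g) 0 = x.val.mulVec (colG g 0) := by
  ext i
  show (x.val * g.val) i 0 = _
  rw [Matrix.mul_apply]
  rfl

theorem p_Xrep : X_rep := by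
  intro a b W hW
  classical
  have hfin : Finite (GQ a b ⧸ W) := Subgroup.finite_quotient_of_finiteIndex
  let _ : Fintype (GQ a b ⧸ W) := Fintype.ofFinite _
  refine ⟨Finset.univ.image fun q : GQ a b ⧸ W => colG (Quotient.out q : GQ a b)⁻¹ 0, ?_, ?_⟩
  · intro e he
    obtain ⟨q, -, rfl⟩ := Finset.mem_image.1 he
    exact ⟨_, rfl⟩
  · rintro e ⟨g, rfl⟩
    let q : GQ a b ⧸ W := QuotientGroup.mk g⁻¹
    have h1 : (QuotientGroup.mk (Quotient.out q) : GQ a b ⧸ W) = QuotientGroup.mk g⁻¹ :=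
      Quotient.out_eq' q
    have h2 := QuotientGroup.eq.1 h1
    refine ⟨colG (Quotient.out q : GQ a b)⁻¹ 0, Finset.mem_image.2 ⟨q, Finset.mem_univ _, rfl⟩,
      ((Quotient.out q : GQ a b)⁻¹ * g⁻¹)⁻¹, W.inv_mem h2, ?_⟩
    rw [← colG_mul]
    congr 1
    group

end Pool.Agent.F8.NL
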