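import Pool.Agent.Lib.MP_305fdd_al.F8.NL.StmI

/-!
# MP_305fdd_al, all lattices (project NL): block H (the second cohomology of `W`)

`W ≅ F ⋊ ℤ = GR α`. For a 2-cocycle `c` of `GR α` let `RelV σ c ρ` say that `ρ` is its relation vector; `c` is a coboundary if and only if `ρ ∈ FxR α σ` (the image of the Fox map) (`H_rel`). The dimension of the cokernel is `dim Z¹ - dim V` (`H_dm`), at most the number of the cusps by `T_dim`; the cup products of the crossed homomorphisms with
one cusp are linearly independent by the torus functional `Evt`, so they span (`H_sp`).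
-/

set_option autoImplicit false

namespace Pool.Agent.F8.NL

open Pool.Agent.F8.CG Pool.Agent.F8.BG Pool.Agent.MP_305fdd_al Pool.Agent.Lib.MP_305fdd_al
  Pool.Agent.F8
open scoped QuadraticAlgebra ComplexConjugate Kronecker

noncomputable section

/-- the image of the Fox map -/
def FxR {n : ℕ} (α : MulAut (FreeGroup (Fin n))) {K V : Type} [CommRing K] [AddCommGroup V]
    [Module K V] (σ : GR α →* Module.End K V) : Submodule K (Fin n → V) where
  carrier := {ρ | ∃ (y : FreeGroup (Fin n) → V) (a₀ : V),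
    (∀ g h, y (g * h) = y g + σ (iR α g) (y h)) ∧
    ∀ i, ρ i = y (α (FreeGroup.of i)) - σ (tR α) (y (FreeGroup.of i)) +
      σ (iR α (α (FreeGroup.of i))) a₀ - a₀}
  add_mem' := by
    rintro ρ ρ' ⟨y, a₀, h1, h2⟩ ⟨y', a₀', h1', h2'⟩
    refine ⟨y + y', a₀ + a₀', fun g h => ?_, fun i => ?_⟩
    · simp only [Pi.add_apply, h1, h1', map_add]
      abel
    · simp only [Pi.add_apply, h2, h2', map_add]
      abel
  zero_mem' := ⟨0, 0, by simp, by simp⟩
  smul_mem' := by
    rintro k ρ ⟨y, a₀, h1, h2⟩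
    refine ⟨k • y, k • a₀, fun g h => ?_, fun i => ?_⟩
    · simp only [Pi.smul_apply, h1, map_smul, smul_add]
    · simp only [Pi.smul_apply, h2, map_smul, smul_add, smul_sub]

/-- `ρ` is the relation vector of `c`. -/
def RelV {n : ℕ} {α : MulAut (FreeGroup (Fin n))} {K V : Type} [CommRing K] [AddCommGroup V]
    [Module K V] (σ : GR α →* Module.End K V) (c : GR α → GR α → V) (ρ : Fin n → V) : Prop :=
  ∃ f : FreeGroup (Fin n) → V, (∀ i, f (FreeGroup.of i) = 0) ∧
    (∀ g h, f (g * h) = f g + σ (iR α g) (f h) + c (iR α g) (iR α h)) ∧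
    ∀ i, ρ i = c (tR α) (iR α (FreeGroup.of i)) - c (iR α (α (FreeGroup.of i))) (tR α) -
      f (α (FreeGroup.of i))

/-- `c` is a 2-cocycle. -/
def CocE {G K V : Type} [Group G] [CommRing K] [AddCommGroup V] [Module K V]
    (σ : G →* Module.End K V) (c : G → G → V) : Prop :=
  ∀ x y z, σ x (c y z) - c (x * y) z + c x (y * z) - c x y = 0

/-- `c` is a 2-coboundary. -/
def CobE {G K V : Type} [Group G] [CommRing K] [AddCommGroup V] [Module K V]
    (σ : G →* Module.End K V) (c : G → G → V) : Prop :=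
  ∃ f : G → V, ∀ x y, c x y = σ x (f y) - f (x * y) + f x

/-- [NL H rel] the relation vector. (Cite `p_Uext`; the proof is contained in `CG/P_Uwg.lean`, whose private lemmas can be copied.)

Proof. Let `E` be the extension of `GR α` by `V` with the cocycle `c` (`U_ext`), `j`, `s`. Existence: on the free group there is a unique `f` with `f (of i) = 0` and `f (g h) = f g + σ g (f h) + c g h` (`Uwg_free_ex`), and `ρ` is defined by the formula. (⟹) If `c x y = σ x (y₁ y) - y₁ (x y) + y₁ x` then `f = - y₁ + y_a` on the free group, `y_a` the crossed homomorphism with `y_a (of i) = y₁ (of i)` (uniqueness, `Uwg_free_uniq`), and with `t x_i = α(x_i) t`: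
`ρ i = σ t (y₁ x_i) - y₁ (t x_i) + y₁ t - σ (α x_i) (y₁ t) + y₁ (α(x_i) t) - y₁ (α x_i) + y₁ (α x_i) - y_a (α x_i) = - (y_a (α x_i) - σ t (y_a x_i) + σ (α x_i) (y₁ t) - y₁ t)`. (⟸) If `ρ i = y (α x_i) - σ t (y x_i) + σ (α x_i) a₀ - a₀` then `f' = f + y` on the free group is a twisted crossed homomorphism (`f' (g h) = f' g + σ g (f' h) + c g h`) and with `τ = a₀`:
`a₀ + σ t (f' x_i) + c t x_i = f' (α x_i) + σ (α x_i) a₀ + c (α x_i) t`: indeed `c t x_i - c (α x_i) t = ρ i + f (α x_i)`. So by `Uwg_GR_ex` there is `F : GR α → V` with `F (x y) = F x + σ x (F y) + c x y`, and `f₁ = - F` shows that `c` is a coboundary. -/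
def H_rel : Prop := ∀ (n : ℕ) (α : MulAut (FreeGroup (Fin n))) (K V : Type) [CommRing K]
  [AddCommGroup V] [Module K V] (σ : GR α →* Module.End K V) (c : GR α → GR α → V), CocE σ c →
  (∃ ρ, RelV σ c ρ) ∧ ∀ ρ, RelV σ c ρ → (CobE σ c ↔ ρ ∈ FxR α σ)

/-- [NL H dm] the dimension of the cokernel of the Fox map. (Compare `CG/P_Uwg.lean`.)

Proof. The linear map `Δ : (Fin n → V) × V → (Fin n → V)`, `(v, a₀) ↦ (y_v (α x_i) - σ t (v i) + σ (α x_i) a₀ - a₀)_i`, `y_v` the crossed homomorphism of the free group with `y_v x_i = v i` (linear in `v`), has the range `FxR α σ`, and its kernel is isomorphic to `ZE σ` by `z ↦ ((z x_i)_i, z t)`: the relation `t x_i = α(x_i) t` gives `z t + σ t (z x_i) = z (α x_i) + σ (α x_i) (z t)`; conversely `Uwg_GR_ex` with `c = 0`; injective by `homR_ext` (`Uwg_GR_uniq`).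
So `dim ZE + dim FxR = (n + 1) dim V`, and the dimension of the quotient is `n dim V - dim FxR`. -/
def H_dm : Prop := ∀ (n : ℕ) (α : MulAut (FreeGroup (Fin n))) (K V : Type) [Field K]
  [AddCommGroup V] [Module K V] [FiniteDimensional K V] (σ : GR α →* Module.End K V),
  Module.finrank K ((Fin n → V) ⧸ FxR α σ) + Module.finrank K V = Module.finrank K (ZE σ)

/-- base change of a matrix representation -/
def mpM {G κ R L : Type} [Group G] [Fintype κ] [DecidableEq κ] [CommRing R] [CommRing L]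
    (f : R →+* L) (τ : G →* Matrix κ κ R) : G →* Matrix κ κ L :=
  ((RingHom.mapMatrix f : Matrix κ κ R →+* Matrix κ κ L) : Matrix κ κ R →* Matrix κ κ L).comp τ

/-- [NL H des] descent.

Proof. (1) For `w` in the free group there are matrices `D w k : Matrix κ κ R` (Fox derivatives) such that for every commutative ring `L'`, `f' : R →+* L'` and crossed homomorphism `y` of the free group for `mpM f' τ` (restricted by `iR`) `y w = ∑ k, f'(D w k) (y (of k))` (the crossed homomorphism over `R` with values in matrices; induction on `w`), and for all values `v k` the right hand side is a crossed homomorphism. So `FxR α (tE (mpM f' τ))` is the range of the matrix `f'(A)` for a matrix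
`A` over `R` with `n #κ` rows and `(n + 1) #κ` columns. (2) Consider the system with the columns of `A` and the columns `ρ' j`, and the right hand side `ρ`. It is solvable over `L` (after applying `f`). Let `K` be the field of fractions of `R`. If it is not solvable over `K` there is a linear form on `K^(n #κ)` which vanishes on the columns and not at `ρ`; multiply it with a common denominator; its image under `f` vanishes on the columns over `L` and not at `f(ρ)` (`f` is injective), a contradiction.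
So it is solvable over `K`; multiply with a common denominator `d`. -/
def H_des : Prop := ∀ (R L : Type) [CommRing R] [IsDomain R] [Field L] (f : R →+* L),
  Function.Injective f → ∀ (n : ℕ) (α : MulAut (FreeGroup (Fin n))) (κ : Type) [Fintype κ]
  [DecidableEq κ] (τ : GR α →* Matrix κ κ R) (k : ℕ) (ρ' : Fin k → Fin n → κ → R)
  (ρ : Fin n → κ → R) (l : Fin k → L),
  (fun i u => f (ρ i u)) - ∑ j, l j • (fun i u => f (ρ' j i u)) ∈ FxR α (tE (mpM f τ)) →
  ∃ (d : R) (c : Fin k → R), d ≠ 0 ∧ d • ρ - ∑ j, c j • ρ' j ∈ FxR α (tE τ)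

/-- [NL H map] naturality of the modules, and the conjugation.

Proof. `sb_map`, `Matrix.kroneckerMap_map` or entrywise; `iC (cjq x) = conj (iC x)` (`wC_eq`: `conj wC = b - wC`). The last claim: apply `cjq` to the equations for `z`: `cjq` of `tV 1 id x` is `tV 1 cjq x` (`sb_map`, and `(SLm f x)⁻¹ = SLm f x⁻¹`). -/
def H_map : Prop := ∀ a b : ℤ, b ^ 2 + 4 * a < 0 →
  (∀ x : Qf a b ℤ, iC a b (cjq a b ℤ x) = conj (iC a b x)) ∧ Function.Injective (iC a b) ∧
  (∀ (m : ℕ) (L : Type) [CommRing L] (f : Qf a b ℤ →+* L), tV m f = mpM f (tV m (RingHom.id _))) ∧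
  (∀ m : ℕ, tM m 1 (iC a b) (cC a b) = mpM (iC a b) (tMO a b m)) ∧
  ∀ (W : Subgroup (GQ a b)) (N : ℕ) (z : GQ a b → Fin (1 + 1) → Qf a b ℤ),
    CH (tV 1 (RingHom.id _)) W z → CH (tV 1 (cjq a b ℤ)) W (fun x i => cjq a b ℤ (z x i)) ∧
    ∀ e, bv 1 N (cjq a b ℤ) (fun x i => cjq a b ℤ (z x i)) e =
      cjq a b ℤ (bv 1 N (RingHom.id _) z e)

/-- the torus functional -/
def Evt (m N : ℕ) {a b : ℤ} (e : Fin 2 → Qf a b ℤ)
    (c : GQ a b → GQ a b → Fin (m + 1) × Fin (1 + 1) → ℂ) : ℂ :=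
  evM m 1 (c (tv e (N : Qf a b ℤ)) (tv e ((N : Qf a b ℤ) * wq a b ℤ)) -
    c (tv e ((N : Qf a b ℤ) * wq a b ℤ)) (tv e (N : Qf a b ℤ))) (vC a b e)
    (fun i => conj (vC a b e i))

/-- [NL H ev] the torus functional. (Uses `H_map`, `B_bv`.)

Proof. `p = tv e N`, `p' = tv e (N w)` are in `W` and commute; both fix `e`, and `conj p`, `conj p'` fix `conj e`; `evM m n (tM x P) (e) (e') = evM m n P (x⁻¹ e) (conj x⁻¹ e')`. So `evM ((tM p - 1) v) e (conj e) = 0`. (1) `c p p' - c p' p = (p - 1) f p' - (p' - 1) f p`. (2) `cup z z' p p' = tens (z p) (p z' p')`, `evM_tens`: the value is `evm m (z p) e * evm 1 (p z' p') (conj e)` (over `ℂ`, `evm_map`), `evm 1 (p z' p') (conj e) = evm 1 (z' p') (conj e)`, and by `B_bv` (for `id` and for `cjq`)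
`evm m (z p) e = bv z e`, `evm m (z p') e = bv z e * w`, `evm 1 (z' p) (conj e) = bv z' e`, `evm 1 (z' p') (conj e) = bv z' e * conj w`. So the value is `bv z e * bv z' e * (conj w - w)`. -/
def H_ev : Prop := ∀ a b : ℤ, b ^ 2 + 4 * a < 0 → ∀ m : ℕ, 1 ≤ m → ∀ (W : Subgroup (GQ a b))
  (N : ℕ), Lv W N → ∀ e : Fin 2 → Qf a b ℤ,
  (∀ (f : GQ a b → Fin (m + 1) × Fin (1 + 1) → ℂ)
    (c : GQ a b → GQ a b → Fin (m + 1) × Fin (1 + 1) → ℂ),
    (∀ x ∈ W, ∀ y ∈ W, c x y = (tM m 1 (iC a b) (cC a b) x).mulVec (f y) - f (x * y) + f x) →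
    Evt m N e c = 0) ∧
  ∀ z, CH (tV m (RingHom.id _)) W z → ∀ z', CH (tV 1 (cjq a b ℤ)) W z' →
    Evt m N e (fun x y i => iC a b (cup z z' x y i)) =
      iC a b (bv m N (RingHom.id _) z e * bv 1 N (cjq a b ℤ) z' e) * (conj (CG.wC a b) - CG.wC a b)

/-- the inclusion of `W ≅ GR α` -/
def pb {a b : ℤ} {W : Subgroup (GQ a b)} {n : ℕ} {α : MulAut (FreeGroup (Fin n))}
    (e : W ≃* GR α) : GR α →* GQ a b := W.subtype.comp e.symm.toMonoidHom

/-- the action of `GR α` on the module over `ℤ[w]` -/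
abbrev sgO {a b : ℤ} (m : ℕ) {W : Subgroup (GQ a b)} {n : ℕ} {α : MulAut (FreeGroup (Fin n))}
    (e : W ≃* GR α) : GR α →* Module.End (Qf a b ℤ) (Fin (m + 1) × Fin (1 + 1) → Qf a b ℤ) :=
  tE ((tMO a b m).comp (pb e))

/-- a basis of the second cohomology, given by cup products -/
structure HBs (m N : ℕ) {a b : ℤ} (W : Subgroup (GQ a b)) {n : ℕ}
    {α : MulAut (FreeGroup (Fin n))} (e : W ≃* GR α) (k : ℕ) (v : Fin k → Fin 2 → Qf a b ℤ)
    (z : Fin k → GQ a b → Fin (m + 1) → Qf a b ℤ)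
    (z' : Fin k → GQ a b → Fin (1 + 1) → Qf a b ℤ)
    (ρ : Fin k → Fin n → Fin (m + 1) × Fin (1 + 1) → Qf a b ℤ) : Prop where
  /-- crossed homomorphisms -/
  ch : ∀ j, CH (tV m (RingHom.id _)) W (z j)
  /-- crossed homomorphisms -/
  ch' : ∀ j, CH (tV 1 (cjq a b ℤ)) W (z' j)
  /-- primitive vectors -/
  prm : ∀ j, Prm (v j)
  /-- the diagonal is not zero -/
  dia : ∀ j, bv m N (RingHom.id _) (z j) (v j) * bv 1 N (cjq a b ℤ) (z' j) (v j) ≠ 0
  /-- zero outside of the diagonal -/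
  off : ∀ i j, i ≠ j → bv m N (RingHom.id _) (z j) (v i) = 0
  /-- the relation vectors -/
  rel : ∀ j, RelV (sgO m e) (fun x y => cup (z j) (z' j) (pb e x) (pb e y)) (ρ j)
  /-- they span -/
  spn : ∀ ρ₀ : Fin n → Fin (m + 1) × Fin (1 + 1) → Qf a b ℤ, ∃ (d : Qf a b ℤ)
    (c : Fin k → Qf a b ℤ), d ≠ 0 ∧ d • ρ₀ - ∑ j, c j • ρ j ∈ FxR α (sgO m e)

/-- [NL H sp] the cup products are a basis. (Uses `T_dim`, `X_ex`, `X_ex1`, `H_rel`, `H_dm`, `H_des`, `H_map`, `H_ev`.)

Proof. `Cusp W` is finite (`T_dim`), of cardinality `k`; `g_j` representatives, `v j = colG g_j 0`, `z j` from `X_ex` for `v j`, `z' j` from `X_ex1` and `H_map`. `bv (z j) (v i) = 0` for `i ≠ j`: otherwise `Cs W (v j) (v i)`, `v i = u x v j`, and `g_i⁻¹ x g_j` maps `e₁` to a multiple of `e₁`, so it is in `Bor` and the cusps of `g_i`, `g_j` are the same. `cup (z j) (z' j)` is a cocycle on `W` (compute), so there is `ρ j` (`H_rel` for `K = ℤ[w]`). Over `ℂ`: let `σ = tE (mpM iC (tMO.comp (pb e)))`,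
`ρ^ℂ j = iC ∘ ρ j`, which is a relation vector of `iC ∘ cup`. The classes of `ρ^ℂ j` in `(Fin n → V) ⧸ FxR α σ` are linearly independent: if `∑ l_j ρ^ℂ j ∈ FxR` then `∑ l_j cup_j` is a coboundary on `GR α` (`H_rel`), so on `W` (transport with `e`; extend the function by zero outside of `W`), and `Evt` at `v i` gives `l_i (nonzero) = 0` (`H_ev`; `wC ≠ conj wC`). The dimension of the quotient is `dim ZE σ - 2 (m + 1) ≤ k` (`H_dm`, `T_dim`; transport `ZE` along `e`, `H_map` for
`tM m 1 iC cC = mpM iC tMO`). So they span the quotient, and for every `ρ₀` there is `l` with `iC ∘ ρ₀ - ∑ l_j ρ^ℂ j ∈ FxR`; `H_des`. -/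
def H_sp : Prop := ∀ a b : ℤ, b ^ 2 + 4 * a < 0 → Eu a b → IsPrincipalIdealRing (Qf a b ℤ) →
  Group.FG (GQ a b) → ∀ M₀ : ℕ, 3 ≤ M₀ → LD a b M₀ → ∀ m : ℕ, 4 ≤ m → Even m →
  UnE a b (m + 2) → ∀ W : Subgroup (GQ a b), W.FiniteIndex → W ≤ Gam a b M₀ →
  ∀ N : ℕ, Lv W N → ∀ (n : ℕ) (α : MulAut (FreeGroup (Fin n))) (e : W ≃* GR α),
  ∃ k v z z' ρ, HBs m N W e k v z z' ρ

/-- [NL H aa] `H_a` from `H_sp`. (Uses `H_rel`, `H_map`, `H_ev`, `H_sp`.)

Proof. `e : W ≃* GR α` from `HW`. `cup z z'` (pulled back to `GR α`) is a cocycle with a relation vector `ρ₀` (`H_rel`). `d`, `c` from `HBs.spn`. The cocycle `d cup z z' - ∑ c_j cup (z j) (z' j)` has the relation vector `d ρ₀ - ∑ c_j ρ j ∈ FxR`, so it is a coboundary: `= x f(y) - f(x y) + f(x)` on `W`. `Evt` at `v i` (over `ℂ`, `H_ev`): `0 = d bv z (v i) bv z' (v i) - c_i (nonzero)`, and the first term is zero by hypothesis; so `c_i = 0` (`HBs.off`, `HBs.dia`; `iC` is injective). So `w = - f`. -/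
def H_aa : Prop := H_a

/-- [NL H bb] `H_b` from `H_sp`. (Uses `H_rel`, `H_sp`.)

Proof. `e : W ≃* GR α` from `HW`, `Lv W N` for some `N` (`N = (index)!`, see `L_cu` in `CG/StmL.lean`, `p_Lcu`, which is proved for `W ≤ Gam a b M`, `3 ≤ M`). `R = ℤ[w]`, `R₁ = R ⧸ (q)`. The reduction of `c` modulo `q` (pulled back to `GR α`) is a cocycle for the module `κ → R₁` (`κ = Fin (m+1) × Fin 2`; `σ₁ = tE (mpM (mk) (tMO.comp (pb e)))`), so it has a relation vector with a function `f₁` on the free group (`H_rel`). Lift the relation vector to `ρ₀` over `R`, and `f₁` to `F₁` over `R`.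
`d`, `c_j` from `HBs.spn` for `ρ₀`. `R₂ = R ⧸ (d q)`. Let `C x y = ∑ c_j cup (z j) (z' j) x y - d c x y`. Modulo `d q` it is a cocycle (`d` times the cocycle equation modulo `q`) and it has the relation vector `∑ c_j ρ j - d ρ₀` with the function `∑ c_j f_j - d F₁` (the equations for `f₁` hold modulo `q`, so those for `d F₁` hold modulo `d q`), which is in `FxR` modulo `d q` (the reduction of an element of `FxR` is in `FxR`). So modulo `d q` `C` is a coboundary (`H_rel` for `R₂`):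
`C x y ≡ x f(y) - f(x y) + f(x)`; `y = - f` (lifted to `R`, extended by zero outside of `W`), and `z j` replaced by `c_j • z j`. -/
def H_bb : Prop := H_b

end

end Pool.Agent.F8.NL
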