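import Pool.Agent.Lib.MP_305fdd_al.F8.NL.StmP
import Pool.Agent.Lib.MP_305fdd_al.F8.NL.StmH
import Pool.Agent.Lib.MP_305fdd_al.F8.NL.P_Xrep
import Pool.Agent.Lib.MP_305fdd_al.F8.CG.P_Lcu

/-!
# [NL P at] one atom
-/

set_option autoImplicit false

namespace Pool.Agent.F8.NL

open Pool.Agent.F8.CG Pool.Agent.F8.BG Pool.Agent.MP_305fdd_al Pool.Agent.Lib.MP_305fdd_al
  Pool.Agent.F8
open scoped QuadraticAlgebra ComplexConjugate Kronecker

noncomputable section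

variable {a b : ℤ}

/-! ### An abstract form of the claim -/

private theorem Pat_gen {X R M L : Type} [CommRing R] [AddCommGroup M] [Module R M]
    [CommRing L] [IsDomain L] (φ : R →+* L) (hφ : Function.Injective φ) (K : M → Prop)
    (P : X → Prop) (J : Finset X) (B : M → X → R) (β : M → L) (zz : X → M)
    (hJ : ∀ j ∈ J, P j)
    (hK : ∀ (c c' : R) (z z' : M), K z → K z' → K (c • z - c' • z'))
    (hB : ∀ (c c' : R) (z z' : M) (e : X), B (c • z - c' • z') e = c * B z e - c' * B z' e)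
    (hβ : ∀ (c c' : R) (z z' : M), K z → K z' → β (c • z - c' • z') = φ c * β z - φ c' * β z')
    (h0 : ∀ z, K z → (∀ j ∈ J, B z j = 0) → β z = 0)
    (hzz : ∀ e, P e → K (zz e)) (hzz' : ∀ e, P e → B (zz e) e ≠ 0)
    (hs : ∀ z, K z → ∀ e e', P e → P e' → B z e ≠ 0 → B z e' = 0 → B (zz e) e' = 0) (n : ℕ) :
    ∀ z, K z → (∃ T : Finset X, T.card ≤ n ∧ T ⊆ J ∧ ∀ j ∈ J, B z j ≠ 0 → j ∈ T) → β z ≠ 0 →
      ∃ e, P e ∧ B z e ≠ 0 ∧ β (zz e) ≠ 0 := by
  classical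
  induction n with
  | zero =>
    rintro z hz ⟨T, hT, -, hT2⟩ hβz
    exfalso
    apply hβz
    refine h0 z hz fun j hj => ?_
    by_contra hne
    have h1 := hT2 j hj hne
    rw [Finset.card_eq_zero.1 (Nat.le_zero.1 hT)] at h1
    exact absurd h1 (Finset.notMem_empty j)
  | succ n ih =>
    rintro z hz ⟨T, hT, hTJ, hT2⟩ hβz
    by_cases hall : ∀ j ∈ J, B z j = 0
    · exact absurd (h0 z hz hall) hβz
    · push Not at hall
      obtain ⟨j, hj, hne⟩ := hall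
      by_cases hβj : β (zz j) = 0
      · set c := B (zz j) j with hc
        set y := c • z - B z j • zz j with hy
        have hyK : K y := hK _ _ _ _ hz (hzz j (hJ j hj))
        have hc0 : c ≠ 0 := hzz' j (hJ j hj)
        have hyβ : β y ≠ 0 := by
          rw [hy, hβ _ _ _ _ hz (hzz j (hJ j hj)), hβj, mul_zero, sub_zero]
          refine mul_ne_zero (fun h1 => hc0 (hφ ?_)) hβz
          rw [h1, map_zero]
        have hyB : ∀ e, P e → B z e = 0 → B y e = 0 := by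
          intro e he h1
          rw [hy, hB, h1, hs z hz j e (hJ j hj) he hne h1, mul_zero, mul_zero, sub_zero]
        have hyj : B y j = 0 := by
          rw [hy, hB, ← hc]
          ring
        have hjT : j ∈ T := hT2 j hj hne
        obtain ⟨e, he, h1, h2⟩ := ih y hyK ⟨T.erase j, by
          rw [Finset.card_erase_of_mem hjT]
          omega, (Finset.erase_subset j T).trans hTJ, fun i hi h1 => by
            rw [Finset.mem_erase]
            refine ⟨fun h2 => h1 (by rw [h2, hyj]), hT2 i hi fun h2 => h1 (hyB i (hJ i hi) h2)⟩⟩ hyβ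
        exact ⟨e, he, fun h3 => h1 (hyB e he h3), h2⟩
      · exact ⟨j, hJ j hj, hne, hβj⟩

/-! ### Extensions -/

/-- the intersection -/
private def Pat_inf (X Y : NF a b) : NF a b := ⟨X.N ⊓ Y.N, inferInstance, inferInstance⟩

private theorem Pat_mem {W : Subgroup (GQ a b)} {X : NF a b} (hX : X.N ≤ W) {x : GH a b}
    (hx : x ∈ clH W) {g : GQ a b} (hg : Ap X x g) : g ∈ W := by
  obtain ⟨g', hg', h1⟩ := hx X
  have h2 : QuotientGroup.mk' X.N g' = QuotientGroup.mk' X.N g := by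
    rw [← show pr X x = QuotientGroup.mk' X.N g' from h1]
    exact hg
  have h3 : g'⁻¹ * g ∈ X.N := QuotientGroup.eq.1 h2
  have h4 := mul_mem hg' (hX h3)
  rwa [mul_inv_cancel_left] at h4

private theorem Pat_uniq {κ : Type} {W : Subgroup (GQ a b)} {z : GQ a b → κ → Qf a b ℤ}
    {Z Z' : GH a b → κ → OH a b} (hZ : ExtH W z Z) (hZ' : ExtH W z Z') {x : GH a b}
    (hx : x ∈ clH W) : Z x = Z' x := by
  funext i
  apply OH_ext
  intro M
  obtain ⟨X, hX, h1⟩ := hZ M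
  obtain ⟨X', hX', h2⟩ := hZ' M
  obtain ⟨g, hg⟩ := Ap_ex (Pat_inf X X') x
  rw [h1 x hx g (Ap_le (X := Pat_inf X X') inf_le_left hg) i,
    h2 x hx g (Ap_le (X := Pat_inf X X') inf_le_right hg) i]

private theorem Pat_lin {κ : Type} {W : Subgroup (GQ a b)} {z z' : GQ a b → κ → Qf a b ℤ}
    {Z Z' : GH a b → κ → OH a b} (hZ : ExtH W z Z) (hZ' : ExtH W z' Z') (c c' : Qf a b ℤ) :
    ExtH W (c • z - c' • z') (fun x i => jH a b c * Z x i - jH a b c' * Z' x i) := by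
  intro M
  obtain ⟨X, hX, h1⟩ := hZ M
  obtain ⟨X', hX', h2⟩ := hZ' M
  refine ⟨Pat_inf X X', inf_le_left.trans hX, fun x hx g hg i => ?_⟩
  rw [map_sub, map_mul, map_mul, rH_jH, rH_jH,
    h1 x hx g (Ap_le (X := Pat_inf X X') inf_le_left hg) i,
    h2 x hx g (Ap_le (X := Pat_inf X X') inf_le_right hg) i, ← map_mul, ← map_mul, ← map_sub]
  rfl

private theorem Pat_mv {R S : Type} [CommRing R] [CommRing S] {ι : Type} [Fintype ι] (f : R →+* S)
    (A : Matrix ι ι R) (v : ι → R) :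
    (fun k => f (A.mulVec v k)) = (A.map f).mulVec fun k => f (v k) := by
  funext k
  simp only [Matrix.mulVec, dotProduct, map_sum, map_mul, Matrix.map_apply]

private theorem Pat_evm_sub {R : Type} [CommRing R] (m : ℕ) (P Q : Fin (m + 1) → R)
    (e : Fin 2 → R) : evm m (P - Q) e = evm m P e - evm m Q e := by
  unfold evm
  rw [← Finset.sum_sub_distrib]
  exact Finset.sum_congr rfl fun i _ => by rw [Pi.sub_apply, sub_mul]

/-- coboundaries have the value zero -/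
private theorem Pat_cob (σ : Qf a b ℤ →+* Qf a b ℤ) (σH : OH a b →+* OH a b)
    (σM : ∀ M : ℕ+, Qf a b (ZMod M) →+* Qf a b (ZMod M))
    (h1 : ∀ M x, rH a b M (σH x) = σM M (rH a b M x))
    (h2 : ∀ (M : ℕ+) x, Qfm a b (Int.castRingHom (ZMod M)) (σ x) =
      σM M (Qfm a b (Int.castRingHom (ZMod M)) x))
    {W : Subgroup (GQ a b)} {m : ℕ} {z : GQ a b → Fin (m + 1) → Qf a b ℤ}
    {Z : GH a b → Fin (m + 1) → OH a b} (hZ : ExtH W z Z) {p : GH a b} (hp : p ∈ clH W)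
    {ê : Fin 2 → OH a b} (hê : (piH a b p).val.mulVec ê = ê) {d : Qf a b ℤ}
    {u : Fin (m + 1) → Qf a b ℤ} (hd : ∀ x ∈ W, d • z x = (tV m σ x).mulVec u - u) :
    jH a b d * evm m (Z p) (fun i => σH (ê i)) = 0 := by
  apply OH_ext
  intro M
  obtain ⟨X, hX, h3⟩ := hZ M
  obtain ⟨g, hg⟩ := Ap_ex (Pat_inf X (NFG a b M)) p
  have hgX : Ap X p g := Ap_le (X := Pat_inf X (NFG a b M)) inf_le_left hg
  have hgM : Ap (NFG a b M) p g := Ap_le (X := Pat_inf X (NFG a b M)) inf_le_right hg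
  have hgW : g ∈ W := Pat_mem hX hp hgX
  set c : Qf a b ℤ →+* Qf a b (ZMod M) := Qfm a b (Int.castRingHom (ZMod M)) with hc
  -- the matrix of `p` modulo `M`
  have h4 : SLm (rH a b M) (piH a b p) = SLm c g := by
    rw [piH_pm, pm_ap M hgM]
    rfl
  have hê' : (SLm c g⁻¹).val.mulVec (fun i => rH a b M (ê i)) = fun i => rH a b M (ê i) := by
    have h5 : (piH a b p)⁻¹.val.mulVec ê = ê := by
      conv_lhs => rw [← hê]
      rw [Matrix.mulVec_mulVec]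
      have h6 : (piH a b p)⁻¹.val * (piH a b p).val = 1 := by
        have h7 : (piH a b p)⁻¹ * piH a b p = 1 := inv_mul_cancel _
        exact congrArg Subtype.val h7
      rw [h6, Matrix.one_mulVec]
    have h6 : SLm c g⁻¹ = SLm (rH a b M) (piH a b p)⁻¹ := by
      rw [map_inv, map_inv, h4]
    rw [h6]
    show ((piH a b p)⁻¹.val.map (rH a b M)).mulVec _ = _
    rw [← Pat_mv (rH a b M) (piH a b p)⁻¹.val ê, h5]
  have h5 : rH a b M (jH a b d * evm m (Z p) fun i => σH (ê i)) =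
      evm m (fun i => c (d * z g i)) fun i => σM M (rH a b M (ê i)) := by
    rw [map_mul, rH_jH, ← evm_map (rH a b M) m (Z p) fun i => σH (ê i), ← evm_csmul]
    have h6 : (fun i => rH a b M (σH (ê i))) = fun i => σM M (rH a b M (ê i)) := by
      funext i
      rw [h1]
    rw [h6]
    congr 1
    funext i
    rw [map_mul]
    show c d * rH a b M (Z p i) = _
    rw [h3 p hp g hgX i]
  rw [h5, map_zero]
  have h6 : (fun i => c (d * z g i)) = (sb m (SLm (c.comp σ) g⁻¹).val).mulVec (fun i => c (u i)) -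
      fun i => c (u i) := by
    funext i
    have h7 : d * z g i = (tV m σ g).mulVec u i - u i := congrFun (hd g hgW) i
    have h8 : (sb m (SLm (c.comp σ) g⁻¹).val) = (tV m σ g).map c := by
      show _ = (sb m ((SLm σ g)⁻¹).val).map c
      rw [← sb_map, ← map_inv]
      rfl
    rw [h7, map_sub, h8]
    have h9 := congrFun (Pat_mv c (tV m σ g) u) i
    rw [h9]
    rfl
  have h7 : (SLm (c.comp σ) g⁻¹).val.mulVec (fun i => σM M (rH a b M (ê i))) =
      fun i => σM M (rH a b M (ê i)) := by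
    have h8 : (SLm (c.comp σ) g⁻¹).val = ((SLm c g⁻¹).val).map (σM M) := by
      refine Matrix.ext fun i j => ?_
      show c (σ (g⁻¹.val i j)) = σM M (c (g⁻¹.val i j))
      exact h2 M _
    rw [h8, ← Pat_mv (σM M) (SLm c g⁻¹).val fun i => rH a b M (ê i), hê']
  rw [h6, Pat_evm_sub, evm_sb, h7, sub_self]

/-! ### The value at the cusp -/

private theorem Pat_bH (hpb : P_pb) (hn : b ^ 2 + 4 * a < 0) {D : Subgroup (GQ a b)}
    {h : D →* GH a b} {C E : Matrix (Fin 2) (Fin 2) (OH a b)} (hHD : HD h C E)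
    {W : Subgroup (GQ a b)} {N' : ℕ} (hN' : Lv (hcm h W) N') (e : Fin 2 → Qf a b ℤ)
    {q : ℕ} [Fact q.Prime] (v : OH a b →+* ℤ_[q]) :
    ∃ p ∈ clH W, (piH a b p).val.mulVec (C.mulVec (eH e)) = C.mulVec (eH e) ∧
      (∀ (m : ℕ) (Z : GH a b → Fin (m + 1) → OH a b),
        bH m h C v N' e Z = v (evm m (Z p) (fun i => RingHom.id _ (C.mulVec (eH e) i)))) ∧
      ∀ Z : GH a b → Fin (1 + 1) → OH a b,
        bH' h C v N' e Z = v (evm 1 (Z p) (fun i => cjq a b Zh (C.mulVec (eH e) i))) := by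
  have h1 := hN'.2 e 1
  rw [mul_one] at h1
  obtain ⟨y, hy, hy2⟩ := h1
  have ht : tv e (N' : Qf a b ℤ) ∈ D := by
    rw [← hy2]
    exact y.2
  have hy3 : y = ⟨_, ht⟩ := Subtype.ext hy2
  obtain ⟨h2, h3⟩ := hpb a b hn D h C E hHD
  refine ⟨h ⟨_, ht⟩, ?_, (h3 e _ ht).1, fun m Z => ?_, fun Z => ?_⟩
  · rw [← hy3]
    exact hy
  · exact ((h2 W m _ v Z).2.2 e _ ht).1
  · rw [← ((h2 W 1 _ v Z).2.2 e _ ht).2]
    show evm 1 _ (fun i => v (jH a b (cjq a b ℤ (e i)))) = evm 1 _ (fun i => v (cjq a b Zh (jH a b (e i))))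
    have h4 : ∀ x : Qf a b ℤ, jH a b (cjq a b ℤ x) = cjq a b Zh (jH a b x) := by
      intro x
      apply QuadraticAlgebra.ext
      · show (Int.castRingHom Zh) (x.re + b * x.im) = (Int.castRingHom Zh) x.re +
          b * (Int.castRingHom Zh) x.im
        rw [map_add, map_mul]
        simp
      · show (Int.castRingHom Zh) (-x.im) = -(Int.castRingHom Zh) x.im
        rw [map_neg]
    simp only [h4]

/-! ### Cusps -/

private theorem Pat_mul (x y : GQ a b) (e : Fin 2 → Qf a b ℤ) :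
    (x * y).val.mulVec e = x.val.mulVec (y.val.mulVec e) := by
  rw [Matrix.mulVec_mulVec]
  rfl

private theorem Pat_symm {W : Subgroup (GQ a b)} {e e' : Fin 2 → Qf a b ℤ} (h : Cs W e e') :
    Cs W e' e := by
  obtain ⟨x, hx, u, hu, rfl⟩ := h
  obtain ⟨w, hw⟩ := hu.exists_left_inv
  refine ⟨x⁻¹, inv_mem hx, w, IsUnit.of_mul_eq_one u hw, ?_⟩
  rw [Matrix.mulVec_smul, smul_smul, hw, one_smul, ← Pat_mul, inv_mul_cancel]
  exact (Matrix.one_mulVec e).symm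

private theorem Pat_trans {W : Subgroup (GQ a b)} {e e' e'' : Fin 2 → Qf a b ℤ}
    (h : Cs W e e') (h' : Cs W e' e'') : Cs W e e'' := by
  obtain ⟨x, hx, u, hu, rfl⟩ := h
  obtain ⟨x', hx', u', hu', rfl⟩ := h'
  refine ⟨x' * x, mul_mem hx' hx, u' * u, hu'.mul hu, ?_⟩
  rw [Matrix.mulVec_smul, smul_smul, Pat_mul]

private theorem Pat_ne {W : Subgroup (GQ a b)} {N m : ℕ} (hN : Lv W N)
    {σ : Qf a b ℤ →+* Qf a b ℤ} (hB : BvM a b m σ) {z : GQ a b → Fin (m + 1) → Qf a b ℤ}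
    (hdom : IsDomain (Qf a b ℤ))
    (hz : CH (tV m σ) W z) {e e' : Fin 2 → Qf a b ℤ} (h : Cs W e e') (h0 : bv m N σ z e ≠ 0) :
    bv m N σ z e' ≠ 0 := by
  obtain ⟨x, hx, u, hu, rfl⟩ := h
  rw [hB.hom W N hN z hz, hB.inv W N hN z hz x hx]
  exact mul_ne_zero (pow_ne_zero _ (hu.map σ).ne_zero) h0

/-! ### The claim -/

private theorem Pat_claim (hn : b ^ 2 + 4 * a < 0) (hext : C_ext)
    (σ : Qf a b ℤ →+* Qf a b ℤ) (σH : OH a b →+* OH a b)
    (σM : ∀ M : ℕ+, Qf a b (ZMod M) →+* Qf a b (ZMod M))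
    (h1 : ∀ M x, rH a b M (σH x) = σM M (rH a b M x))
    (h2 : ∀ (M : ℕ+) x, Qfm a b (Int.castRingHom (ZMod M)) (σ x) =
      σM M (Qfm a b (Int.castRingHom (ZMod M)) x))
    {W : Subgroup (GQ a b)} (hW : W.FiniteIndex) {N : ℕ} (hN : Lv W N) {m : ℕ}
    (hB : BvM a b m σ) {p : GH a b} (hp : p ∈ clH W)
    {ê : Fin 2 → OH a b} (hê : (piH a b p).val.mulVec ê = ê)
    {q : ℕ} [Fact q.Prime] (v : OH a b →+* ℤ_[q]) (hv : Function.Injective (v.comp (jH a b)))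
    (hcob : ∀ z, CH (tV m σ) W z → (∀ e, Prm e → bv m N σ z e = 0) →
      ∃ (d : Qf a b ℤ) (u : Fin (m + 1) → Qf a b ℤ), d ≠ 0 ∧
        ∀ x ∈ W, d • z x = (tV m σ x).mulVec u - u)
    (zz : (Fin 2 → Qf a b ℤ) → GQ a b → Fin (m + 1) → Qf a b ℤ)
    (hzz : ∀ e, Prm e → CH (tV m σ) W (zz e) ∧ bv m N σ (zz e) e ≠ 0 ∧
      ∀ e', Prm e' → ¬ Cs W e e' → bv m N σ (zz e) e' = 0)
    (z : GQ a b → Fin (m + 1) → Qf a b ℤ) (Z : GH a b → Fin (m + 1) → OH a b)
    (hz : CH (tV m σ) W z) (hZ : ExtH W z Z) (hne : v (evm m (Z p) fun i => σH (ê i)) ≠ 0) :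
    ∃ e, Prm e ∧ bv m N σ z e ≠ 0 ∧
      ∀ Z', ExtH W (zz e) Z' → v (evm m (Z' p) fun i => σH (ê i)) ≠ 0 := by
  classical
  have hdom : IsDomain (Qf a b ℤ) := Qf_domain hn
  obtain ⟨J, hJ, hJ2⟩ := p_Xrep a b W hW
  set β : (GQ a b → Fin (m + 1) → Qf a b ℤ) → ℤ_[q] := fun z =>
    v (evm m (Classical.epsilon (ExtH W z) p) fun i => σH (ê i)) with hβ
  have hβ1 : ∀ z Z, ExtH W z Z → β z = v (evm m (Z p) fun i => σH (ê i)) := by
    intro z Z hZ
    have h3 : ExtH W z (Classical.epsilon (ExtH W z)) :=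
      Classical.epsilon_spec (p := ExtH W z) ⟨Z, hZ⟩
    show v (evm m (Classical.epsilon (ExtH W z) p) fun i => σH (ê i)) = _
    rw [Pat_uniq h3 hZ hp]
  have hex : ∀ z, CH (tV m σ) W z → ∃ Z, ExtH W z Z := fun z hz =>
    (hext a b hn W hW).1 _ (tV m σ) z hz
  have hK : ∀ (c c' : Qf a b ℤ) (z z' : GQ a b → Fin (m + 1) → Qf a b ℤ), CH (tV m σ) W z →
      CH (tV m σ) W z' → CH (tV m σ) W (c • z - c' • z') := by
    intro c c' z z' hz hz' x hx y hy
    show c • z (x * y) - c' • z' (x * y) = (c • z x - c' • z' x) +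
      (tV m σ x).mulVec (c • z y - c' • z' y)
    rw [hz x hx y hy, hz' x hx y hy, Matrix.mulVec_sub, Matrix.mulVec_smul, Matrix.mulVec_smul,
      smul_add, smul_add]
    abel
  obtain ⟨e, he, h3, h4⟩ := Pat_gen (v.comp (jH a b)) hv (CH (tV m σ) W) Prm J
    (fun z e => bv m N σ z e) β zz hJ hK (by
      intro c c' z z' e
      show evm m (c • z (tv e (N : Qf a b ℤ)) - c' • z' (tv e (N : Qf a b ℤ))) _ = _
      rw [Pat_evm_sub, evm_csmul, evm_csmul]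
      rfl) (by
      intro c c' z z' hz hz'
      obtain ⟨Z, hZ⟩ := hex z hz
      obtain ⟨Z', hZ'⟩ := hex z' hz'
      rw [hβ1 _ _ (Pat_lin hZ hZ' c c'), hβ1 _ _ hZ, hβ1 _ _ hZ']
      show v (evm m (jH a b c • Z p - jH a b c' • Z' p) _) = v (jH a b c) * _ -
        v (jH a b c') * _
      rw [Pat_evm_sub, evm_csmul, evm_csmul, map_sub, map_mul, map_mul]) (by
      intro z hz h0
      obtain ⟨d, u, hd, hdu⟩ := hcob z hz (fun e he => by
        obtain ⟨j, hj, x, hx, rfl⟩ := hJ2 e he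
        rw [hB.inv W N hN z hz x hx]
        exact h0 j hj)
      obtain ⟨Z, hZ⟩ := hex z hz
      rw [hβ1 _ _ hZ]
      have h5 := congrArg v (Pat_cob σ σH σM h1 h2 hZ hp hê hdu)
      rw [map_mul, map_zero] at h5
      refine (mul_eq_zero.1 h5).resolve_left fun h6 => hd (hv ?_)
      rw [map_zero]
      exact h6) (fun e he => (hzz e he).1) (fun e he => (hzz e he).2.1) (by
      intro z hz e e' he he' h3 h4
      by_contra h5
      have h6 : Cs W e e' := by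
        by_contra h6
        exact h5 ((hzz e he).2.2 e' he' h6)
      exact Pat_ne hN hB hdom hz h6 h3 h4) J.card z hz ⟨J, le_rfl, subset_rfl, fun j hj _ => hj⟩
      (by
        rw [hβ1 _ _ hZ]
        exact hne)
  refine ⟨e, he, h3, fun Z' hZ' => ?_⟩
  rw [← hβ1 _ _ hZ']
  exact h4

/-- [NL P at] one atom. -/
theorem p_Pat (htwo : P_two) (hex : X_ex) (hex1 : X_ex1) (hcb : X_cb) (hmap : H_map)
    (hext : C_ext) (hpb : P_pb) (hbv : B_bv) : P_at := by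
  classical
  intro a b M₀ m hP D hD h C E hHD q _ v hvv W N' hW hWG hN' e he z z' Z Z' hz hz' hZ hZ' hne hne'
  have hn := hP.neg
  have hdom : IsDomain (Qf a b ℤ) := Qf_domain hn
  obtain ⟨N, hN⟩ : ∃ N, Lv W N := (p_Lcu a b hn M₀ hP.three W hW hWG).2.2.2
  obtain ⟨p, hp, hê, hbH, hbH'⟩ := Pat_bH hpb hn hHD hN' e v
  have hB : BvM a b m (RingHom.id (Qf a b ℤ)) := hbv a b hn m (by have := hP.four; omega) _ _
    Function.injective_id
  have hcj : Function.Injective (cjq a b ℤ) := fun x y hxy => by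
    rw [← cjq_cjq x, hxy, cjq_cjq]
  have hB1 : BvM a b 1 (RingHom.id (Qf a b ℤ)) := hbv a b hn 1 le_rfl _ _ Function.injective_id
  have hB' : BvM a b 1 (cjq a b ℤ) := hbv a b hn 1 le_rfl _ _ hcj
  have hzm := hmap a b hn
  -- the crossed homomorphisms with one cusp
  have h1 : ∀ e₀ : Fin 2 → Qf a b ℤ, ∃ z : GQ a b → Fin (m + 1) → Qf a b ℤ,
      Prm e₀ → X1 m N W e₀ z := by
    intro e₀
    by_cases he₀ : Prm e₀
    · obtain ⟨z, hz⟩ := hex a b hn hP.eu hP.pid hP.fg m hP.four hP.even hP.une W hW N hN e₀ he₀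
      exact ⟨z, fun _ => hz⟩
    · exact ⟨0, fun h => absurd h he₀⟩
  choose zz hzz using h1
  have h2 : ∀ e₀ : Fin 2 → Qf a b ℤ, ∃ z : GQ a b → Fin (1 + 1) → Qf a b ℤ,
      Prm e₀ → CH (tV 1 (cjq a b ℤ)) W z ∧ bv 1 N (cjq a b ℤ) z e₀ ≠ 0 ∧
      ∀ e', Prm e' → ¬ Cs W e₀ e' → bv 1 N (cjq a b ℤ) z e' = 0 := by
    intro e₀
    by_cases he₀ : Prm e₀
    · obtain ⟨z, hz⟩ := hex1 a b hn hP.eu hP.pid hP.fg M₀ hP.three hP.ld W hW hWG N hN e₀ he₀
      obtain ⟨h3, h4⟩ := hzm.2.2.2.2 W N z hz.1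
      refine ⟨fun x i => cjq a b ℤ (z x i), fun _ => ⟨h3, ?_, fun e' he' hc => ?_⟩⟩
      · rw [h4]
        intro h5
        exact hz.2.1 (hcj (by rw [h5, map_zero]))
      · rw [h4, hz.2.2 e' he' hc, map_zero]
    · exact ⟨0, fun h => absurd h he₀⟩
  choose zz' hzz' using h2
  -- coboundaries
  have hcob : ∀ z, CH (tV m (RingHom.id (Qf a b ℤ))) W z →
      (∀ e, Prm e → bv m N (RingHom.id _) z e = 0) →
      ∃ (d : Qf a b ℤ) (u : Fin (m + 1) → Qf a b ℤ), d ≠ 0 ∧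
        ∀ x ∈ W, d • z x = (tV m (RingHom.id _) x).mulVec u - u := fun z hz h0 =>
    hcb a b hn hP.eu hP.pid hP.fg m (Or.inr (by have := hP.four; omega)) W hW N hN z hz h0
  have hcob' : ∀ z, CH (tV 1 (cjq a b ℤ)) W z →
      (∀ e, Prm e → bv 1 N (cjq a b ℤ) z e = 0) →
      ∃ (d : Qf a b ℤ) (u : Fin (1 + 1) → Qf a b ℤ), d ≠ 0 ∧
        ∀ x ∈ W, d • z x = (tV 1 (cjq a b ℤ) x).mulVec u - u := by
    intro z hz h0
    have hT : ∀ x : GQ a b, (tV 1 (cjq a b ℤ) x).map (cjq a b ℤ) =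
        tV 1 (RingHom.id (Qf a b ℤ)) x := by
      intro x
      show (sb 1 ((SLm (cjq a b ℤ) x)⁻¹).val).map (cjq a b ℤ) =
        sb 1 ((SLm (RingHom.id (Qf a b ℤ)) x)⁻¹).val
      rw [← sb_map, ← map_inv, ← map_inv]
      congr 1
      ext1 i j
      show cjq a b ℤ (cjq a b ℤ (x⁻¹.val i j)) = x⁻¹.val i j
      exact cjq_cjq _
    have hT' : ∀ x : GQ a b, (tV 1 (RingHom.id (Qf a b ℤ)) x).map (cjq a b ℤ) =
        tV 1 (cjq a b ℤ) x := by
      intro x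
      rw [← hT x]
      ext1 i j
      exact cjq_cjq _
    have h3 : CH (tV 1 (RingHom.id (Qf a b ℤ))) W fun x i => cjq a b ℤ (z x i) := by
      intro x hx y hy
      have h4 := hz x hx y hy
      funext i
      show cjq a b ℤ (z (x * y) i) = cjq a b ℤ (z x i) + _
      rw [h4, Pi.add_apply, map_add]
      have h5 := congrFun (Pat_mv (cjq a b ℤ) (tV 1 (cjq a b ℤ) x) (z y)) i
      rw [h5, hT]
    have h4 : ∀ e, Prm e → bv 1 N (RingHom.id _) (fun x i => cjq a b ℤ (z x i)) e = 0 := by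
      intro e he
      have h5 := (hzm.2.2.2.2 W N _ h3).2 e
      have h6 : (fun (x : GQ a b) i => cjq a b ℤ (cjq a b ℤ (z x i))) = z := by
        funext x i
        exact cjq_cjq _
      rw [h6, h0 e he] at h5
      exact hcj (by rw [← h5, map_zero])
    obtain ⟨d, u, hd, hdu⟩ := hcb a b hn hP.eu hP.pid hP.fg 1 (Or.inl rfl) W hW N hN _ h3 h4
    refine ⟨cjq a b ℤ d, fun i => cjq a b ℤ (u i), fun h5 => hd (hcj (by rw [h5, map_zero])),
      fun x hx => ?_⟩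
    have h5 := hdu x hx
    funext i
    have h6 : d * cjq a b ℤ (z x i) = (tV 1 (RingHom.id (Qf a b ℤ)) x).mulVec u i - u i :=
      congrFun h5 i
    have h7 := congrArg (cjq a b ℤ) h6
    rw [map_mul, cjq_cjq, map_sub] at h7
    have h8 := congrFun (Pat_mv (cjq a b ℤ) (tV 1 (RingHom.id (Qf a b ℤ)) x) u) i
    rw [h8, hT'] at h7
    exact h7
  -- the two claims
  have hcl : ∀ z Z, CH (tV m (RingHom.id (Qf a b ℤ))) W z → ExtH W z Z → bH m h C v N' e Z ≠ 0 →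
      ∃ e₁, Prm e₁ ∧ bv m N (RingHom.id _) z e₁ ≠ 0 ∧
        ∀ Z', ExtH W (zz e₁) Z' → bH m h C v N' e Z' ≠ 0 := by
    intro z Z hz hZ hne
    rw [hbH] at hne
    obtain ⟨e₁, h3, h4, h5⟩ := Pat_claim hn hext (RingHom.id _) (RingHom.id _)
      (fun _ => RingHom.id _) (fun _ _ => rfl) (fun _ _ => rfl) hW hN hB hp hê v hvv.inj hcob zz
      hzz z Z hz hZ hne
    refine ⟨e₁, h3, h4, fun Z' hZ' => ?_⟩
    rw [hbH]
    exact h5 Z' hZ'
  have hcl' : ∀ z Z, CH (tV 1 (cjq a b ℤ)) W z → ExtH W z Z → bH' h C v N' e Z ≠ 0 →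
      ∃ e₁, Prm e₁ ∧ bv 1 N (cjq a b ℤ) z e₁ ≠ 0 ∧
        ∀ Z', ExtH W (zz' e₁) Z' → bH' h C v N' e Z' ≠ 0 := by
    intro z Z hz hZ hne
    rw [hbH'] at hne
    obtain ⟨e₁, h3, h4, h5⟩ := Pat_claim hn hext (cjq a b ℤ) (cjq a b Zh)
      (fun M => cjq a b (ZMod M)) (fun M x => by
        apply QuadraticAlgebra.ext
        · show rZ M (x.re + b * x.im) = rZ M x.re + b * rZ M x.im
          rw [map_add, map_mul, map_intCast]
        · show rZ M (-x.im) = -rZ M x.im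
          rw [map_neg]) (fun M x => by
        apply QuadraticAlgebra.ext
        · show ((x.re + b * x.im : ℤ) : ZMod M) = ((x.re : ℤ) : ZMod M) + b * ((x.im : ℤ) : ZMod M)
          push_cast
          rfl
        · show ((-x.im : ℤ) : ZMod M) = -((x.im : ℤ) : ZMod M)
          push_cast
          rfl) hW hN hB' hp hê v hvv.inj hcob' zz'
      hzz' z Z hz hZ hne
    refine ⟨e₁, h3, h4, fun Z' hZ' => ?_⟩
    rw [hbH']
    exact h5 Z' hZ'
  obtain ⟨e₂, he₂, -, hβ₂⟩ := hcl' z' Z' hz' hZ' hne'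
  obtain ⟨Z₂, hZ₂⟩ := (hext a b hn W hW).1 _ (tV 1 (cjq a b ℤ)) (zz' e₂) (hzz' e₂ he₂).1
  -- two cusps
  have hkey : ∀ e₁, Prm e₁ → (∀ Z', ExtH W (zz e₁) Z' → bH m h C v N' e Z' ≠ 0) →
      Cs W e₁ e₂ := by
    intro e₁ he₁ hβ₁
    by_contra hcs
    obtain ⟨Z₁, hZ₁⟩ := (hext a b hn W hW).1 _ (tV m (RingHom.id _)) (zz e₁) (hzz e₁ he₁).1
    have h3 := htwo a b M₀ m hP D hD h C E hHD q v hvv W N N' hW hWG hN hN' (zz e₁) (hzz e₁ he₁).1
      (zz' e₂) (hzz' e₂ he₂).1 (fun e' he' => by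
        by_cases h4 : Cs W e₁ e'
        · right
          refine (hzz' e₂ he₂).2.2 e' he' fun h5 => hcs (Pat_trans h4 (Pat_symm h5))
        · left
          exact (hzz e₁ he₁).2.2 e' he' h4) Z₁ Z₂ hZ₁ hZ₂ e
    rcases mul_eq_zero.1 h3 with h4 | h4
    · exact hβ₁ Z₁ hZ₁ h4
    · exact hβ₂ Z₂ hZ₂ h4
  obtain ⟨e₁, he₁, -, hβ₁⟩ := hcl z Z hz hZ hne
  obtain ⟨Z₁, hZ₁⟩ := (hext a b hn W hW).1 _ (tV m (RingHom.id _)) (zz e₁) (hzz e₁ he₁).1
  refine ⟨e₁, N, zz e₁, Z₁, he₁, hN, hzz e₁ he₁, hZ₁, hβ₁ Z₁ hZ₁, fun z₃ Z₃ hz₃ hZ₃ hne₃ => ?_⟩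
  obtain ⟨e₃, he₃, h3, hβ₃⟩ := hcl z₃ Z₃ hz₃ hZ₃ hne₃
  exact Pat_ne hN hB hdom hz₃ (Pat_trans (hkey e₃ he₃ hβ₃) (Pat_symm (hkey e₁ he₁ hβ₁))) h3

end

end Pool.Agent.F8.NL
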