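import Pool.Agent.Lib.MP_305fdd_al.F8.NL.StmP

/-!
# MP_305fdd_al, all lattices (project NL): a fixed cusp for every level (`P_fx`)
-/

set_option autoImplicit false

namespace Pool.Agent.F8.NL

open Pool.Agent.F8.CG Pool.Agent.F8.BG Pool.Agent.MP_305fdd_al Pool.Agent.Lib.MP_305fdd_al
  Pool.Agent.F8
open scoped QuadraticAlgebra ComplexConjugate Kronecker

noncomputable section

private theorem Pfx_prm {a b : ℤ} (g : GQ a b) {e : Fin 2 → Qf a b ℤ} (h : Prm e) :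
    Prm (g.val.mulVec e) := by
  obtain ⟨k, rfl⟩ := h
  exact ⟨g * k, rfl⟩

/-- [NL P fx] a fixed cusp for every level -/
theorem p_Pfx (hone : P_one) (hat : P_at) (hinv : P_inv) : P_fx := by
  intro a b M₀ m hP D hD h C E hHD X e he
  have hM : 0 < M₀ := lt_of_lt_of_le (by norm_num) hP.three
  let Y : NF a b := NFG a b ⟨M₀, hM⟩
  have hY : Y.N = Gam a b M₀ := rfl
  let X' : NF a b := ⟨X.N ⊓ Y.N, inferInstance, inferInstance⟩
  have hX' : X'.N ≤ Gam a b M₀ := by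
    rw [← hY]
    exact inf_le_right
  have hXX : X'.N ≤ X.N := inf_le_left
  obtain ⟨q, hq, v, W, N', hv, hWf, hWX, hLv', hnor, z, z', Z, Z', hz, hz', hZ, hZ', hb, hb'⟩ :=
    hone a b M₀ m hP D hD h C E hHD X' hX' e he
  obtain ⟨v₀, N, z₀, Z₀, hv₀, hLv, hX1, hE₀, hbH, hall⟩ :=
    hat a b M₀ m hP D hD h C E hHD q v hv W N' hWf (hWX.trans hX') hLv' e he
      z z' Z Z' hz hz' hZ hZ' hb hb'
  refine ⟨v₀, hv₀, fun t ht g hg => ?_⟩
  obtain ⟨g₀, hg₀, hex⟩ := hinv a b hP.neg m D hD h C E hHD q v W N N' hWf hLv hLv' e t ht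
    (hnor t ht) X
  obtain ⟨z₁, Z₁, hz₁, hE₁, hbH₁, hbv⟩ := hex z₀ Z₀ hX1.1 hE₀
  have h1 : bv m N (RingHom.id _) z₁ v₀ ≠ 0 := hall z₁ Z₁ hz₁ hE₁ (by
    rw [hbH₁]
    exact hbH)
  rw [hbv] at h1
  have h2 : Cs W v₀ (g₀.val.mulVec v₀) := by
    by_contra h3
    exact h1 (hX1.2.2 _ (Pfx_prm g₀ hv₀) h3)
  obtain ⟨x, hx, u, hu, hxu⟩ := h2
  have h4 : g * g₀⁻¹ ∈ X.N := by
    have h5 : QuotientGroup.mk' X.N g = QuotientGroup.mk' X.N g₀ := by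
      rw [← show pr X (h ⟨_, ht⟩) = QuotientGroup.mk' X.N g from hg]
      exact hg₀
    have h6 : QuotientGroup.mk' X.N (g * g₀⁻¹) = 1 := by
      rw [map_mul, map_inv, h5, mul_inv_cancel]
    exact (QuotientGroup.eq_one_iff (N := X.N) (g * g₀⁻¹)).1 h6
  refine ⟨g * g₀⁻¹ * x, mul_mem h4 (hXX (hWX hx)), u, hu, ?_⟩
  have h7 : g.val.mulVec v₀ = (g * g₀⁻¹).val.mulVec (g₀.val.mulVec v₀) := by
    rw [Matrix.mulVec_mulVec]
    congr 1
    show g.val = ((g * g₀⁻¹) * g₀).val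
    rw [inv_mul_cancel_right]
  rw [h7, hxu, Matrix.mulVec_smul, Matrix.mulVec_mulVec]
  rfl

end

end Pool.Agent.F8.NL
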