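import Pool.Agent.Lib.MP_305fdd_al.F8.NL.StmP

/-!
# MP_305fdd_al, all lattices (project NL): invariance
-/

set_option autoImplicit false

namespace Pool.Agent.F8.NL

open Pool.Agent.F8.CG Pool.Agent.F8.BG Pool.Agent.MP_305fdd_al Pool.Agent.Lib.MP_305fdd_al
  Pool.Agent.F8
open scoped QuadraticAlgebra ComplexConjugate Kronecker

noncomputable section

private theorem Pinv_id {a b : ℤ} (g : GQ a b) : SLm (RingHom.id (Qf a b ℤ)) g = g := by
  apply Subtype.ext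
  exact Matrix.ext fun i j => rfl

private theorem Pinv_act {R : Type} [CommRing R] (g h : SL2 R) (v : Fin 2 → R) :
    (g * h).val.mulVec v = g.val.mulVec (h.val.mulVec v) := by
  rw [Matrix.mulVec_mulVec]
  rfl

private theorem Pinv_one {R : Type} [CommRing R] (v : Fin 2 → R) :
    (1 : SL2 R).val.mulVec v = v := by
  show (1 : Matrix (Fin 2) (Fin 2) R).mulVec v = v
  rw [Matrix.one_mulVec]

private theorem Pinv_ii {R : Type} [CommRing R] (g : SL2 R) (v : Fin 2 → R) :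
    (g⁻¹).val.mulVec (g.val.mulVec v) = v := by
  rw [← Pinv_act, inv_mul_cancel, Pinv_one]

private theorem Pinv_fix {R : Type} [CommRing R] (g : SL2 R) (v : Fin 2 → R)
    (h : g.val.mulVec v = v) : (g⁻¹).val.mulVec v = v := by
  conv_lhs => rw [← h]
  exact Pinv_ii g v

private theorem Pinv_smm {R S : Type} [CommRing R] [CommRing S] (f : R →+* S) (m : ℕ)
    (g : SL2 R) : sm m (SLm f g) = (sm m g).map f := by
  show sb m ((SLm f g)⁻¹).val = (sb m (g⁻¹).val).map f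
  rw [← map_inv, ← sb_map]
  rfl

/-- the conjugation formula for the value at a fixed vector -/
private theorem Pinv_key {a b : ℤ} {m : ℕ} {V : Subgroup (GH a b)}
    {Z : GH a b → Fin (m + 1) → OH a b} (hZ : CH (tH a b m) V Z) {n x : GH a b} (hn : n ∈ V)
    (hx : x ∈ V) {ê : Fin 2 → OH a b} (hfx : (piH a b x).val.mulVec ê = ê) :
    evm m (Z (n * x * n⁻¹)) ((piH a b n).val.mulVec ê) = evm m (Z x) ê := by
  have hev : ∀ (y : GH a b) (P : Fin (m + 1) → OH a b) (v : Fin 2 → OH a b),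
      evm m ((tH a b m y).mulVec P) v = evm m P ((piH a b y)⁻¹.val.mulVec v) :=
    fun y P v => evm_sm m _ P v
  have h1 : Z 1 = 0 := by
    have h := hZ 1 (one_mem V) 1 (one_mem V)
    rw [mul_one, map_one, Matrix.one_mulVec] at h
    have h' : Z 1 + 0 = Z 1 + Z 1 := by rw [add_zero]; exact h
    exact (add_left_cancel h').symm
  have h2 : evm m (Z n⁻¹) ê + evm m (Z n) ((piH a b n).val.mulVec ê) = 0 := by
    have h := hZ n⁻¹ (inv_mem hn) n hn
    rw [inv_mul_cancel, h1] at h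
    have h' := congrArg (fun P => evm m P ê) h
    simp only [evm_add, hev] at h'
    rw [map_inv, inv_inv] at h'
    rw [← h']
    simp [evm]
  rw [hZ (n * x) (mul_mem hn hx) n⁻¹ (inv_mem hn), hZ n hn x hx, evm_add, evm_add, hev, hev,
    Pinv_ii, show (piH a b (n * x))⁻¹.val.mulVec ((piH a b n).val.mulVec ê) = ê by
      rw [map_mul, mul_inv_rev, Pinv_act, Pinv_ii]
      exact Pinv_fix _ _ hfx]
  linear_combination h2

theorem p_Pinv (hext : C_ext) (hcl : C_cl) (hpb : P_pb) : P_inv := by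
  intro a b hD m D hDf h C E hh q _ v W N N' hW hN hN' e t ht hnorm X
  obtain ⟨⟨X₁, hX₁⟩, hcl2, hcl3, -⟩ := hcl a b W hW
  obtain ⟨hpb1, hpb2⟩ := hpb a b hD D h C E hh
  let Y : NF a b := ⟨X₁.N ⊓ X.N, inferInstance, inferInstance⟩
  have hYX : Y.N ≤ X.N := inf_le_right (a := X₁.N) (b := X.N)
  have hYW : Y.N ≤ W := (inf_le_left (a := X₁.N) (b := X.N)).trans hX₁
  obtain ⟨g, hg⟩ := Ap_ex Y (h ⟨_, ht⟩)
  have hgp : pr Y (h ⟨_, ht⟩) = QuotientGroup.mk' Y.N g := hg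
  refine ⟨g, Ap_le hYX hg, fun z₀ Z₀ hz₀ hZ₀ => ?_⟩
  have hgW : ∀ x ∈ W, g * x * g⁻¹ ∈ W := by
    intro x hx
    have h1 : iH a b x ∈ clH W := (hcl2 x).2 hx
    refine (hcl3 Y _ (g * x * g⁻¹) hYW ?_).1 (hnorm _ h1)
    show pr Y _ = _
    rw [map_mul, map_mul, map_inv, hgp, pr_iH, map_mul, map_mul, map_inv]
  have hgc : ∀ x ∈ clH W, iH a b g * x * (iH a b g)⁻¹ ∈ clH W := by
    intro x hx
    obtain ⟨g', hg', hap⟩ := hx Y
    refine (hcl3 Y _ (g * g' * g⁻¹) hYW ?_).2 (hgW g' hg')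
    show pr Y _ = _
    rw [map_mul, map_mul, map_inv, show pr Y x = _ from hap, pr_iH, map_mul, map_mul, map_inv]
  have hCH : CH (tH a b m) (clH W) Z₀ := (hext a b hD W hW).2.1 m z₀ hz₀ Z₀ hZ₀
  refine ⟨fun x => (tV m (RingHom.id _) g⁻¹).mulVec (z₀ (g * x * g⁻¹)),
    fun x => (tH a b m (iH a b g)⁻¹).mulVec (Z₀ (iH a b g * x * (iH a b g)⁻¹)), ?_, ?_, ?_, ?_⟩
  · intro x hx y hy
    show (tV m (RingHom.id _) g⁻¹).mulVec (z₀ (g * (x * y) * g⁻¹)) = _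
    rw [show g * (x * y) * g⁻¹ = (g * x * g⁻¹) * (g * y * g⁻¹) by group,
      hz₀ _ (hgW x hx) _ (hgW y hy), Matrix.mulVec_add, Matrix.mulVec_mulVec, ← map_mul,
      Matrix.mulVec_mulVec, ← map_mul]
    congr 3
    group
  · intro M
    obtain ⟨X₀, hX₀, h0⟩ := hZ₀ M
    refine ⟨X₀, hX₀, fun x hx g' hg' i => ?_⟩
    have h1 : Ap X₀ (iH a b g * x * (iH a b g)⁻¹) (g * g' * g⁻¹) := by
      show pr X₀ _ = _
      rw [map_mul, map_mul, map_inv, show pr X₀ x = _ from hg', pr_iH, map_mul, map_mul, map_inv]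
    have h2 := h0 _ (hgc x hx) _ h1
    have h3 : tH a b m (iH a b g)⁻¹ = (tV m (RingHom.id _) g⁻¹).map (jH a b) := by
      show sm m (piH a b (iH a b g)⁻¹) = (sm m (SLm (RingHom.id _) g⁻¹)).map (jH a b)
      rw [← Pinv_smm, Pinv_id, ← map_inv (iH a b), piH_iH]
    show rH a b M ((tH a b m (iH a b g)⁻¹).mulVec (Z₀ (iH a b g * x * (iH a b g)⁻¹)) i) =
      Qfm a b (Int.castRingHom (ZMod M)) ((tV m (RingHom.id _) g⁻¹).mulVec (z₀ (g * g' * g⁻¹)) i)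
    rw [h3]
    simp only [Matrix.mulVec, dotProduct, map_sum, map_mul, Matrix.map_apply]
    refine Finset.sum_congr rfl fun j _ => ?_
    rw [h2 j, rH_jH]
  · -- the values at `e`
    have h4 : tv e (N' : Qf a b ℤ) ∈ hcm h W := by
      have := hN'.2 e 1
      rwa [mul_one] at this
    obtain ⟨⟨y, hyD⟩, hy, hy'⟩ := h4
    have hyt : y = tv e (N' : Qf a b ℤ) := hy'
    subst hyt
    have hyc : h ⟨_, hyD⟩ ∈ clH W := hy
    show evm m (pbk m v h C _ (tv e (N' : Qf a b ℤ))) (fun i => v (eH e i)) =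
      evm m (pbk m v h C Z₀ (tv e (N' : Qf a b ℤ))) (fun i => v (eH e i))
    rw [((hpb1 W m ℤ_[q] v _).2.2 e _ hyD).1, ((hpb1 W m ℤ_[q] v Z₀).2.2 e _ hyD).1]
    congr 1
    have hpf := (hpb2 e t ht).1
    have hxf := (hpb2 e (N' : Qf a b ℤ) hyD).1
    have hcomm : h ⟨_, ht⟩ * h ⟨_, hyD⟩ = h ⟨_, hyD⟩ * h ⟨_, ht⟩ := by
      rw [← map_mul, ← map_mul]
      congr 1
      apply Subtype.ext
      show tv e t * tv e (N' : Qf a b ℤ) = tv e (N' : Qf a b ℤ) * tv e t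
      rw [← (p_Vtv _ e t (N' : Qf a b ℤ)).2.1, ← (p_Vtv _ e (N' : Qf a b ℤ) t).2.1, add_comm]
    let n : GH a b := iH a b g * (h ⟨_, ht⟩)⁻¹
    have hnp : iH a b g = n * h ⟨_, ht⟩ := by
      show iH a b g = iH a b g * (h ⟨_, ht⟩)⁻¹ * h ⟨_, ht⟩
      rw [inv_mul_cancel_right]
    have hnc : n ∈ clH W := by
      refine (hcl3 Y n 1 hYW ?_).2 (one_mem W)
      show pr Y (iH a b g * (h ⟨_, ht⟩)⁻¹) = _
      rw [map_mul, map_inv, hgp, pr_iH, mul_inv_cancel, map_one]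
    have h5 : iH a b g * h ⟨_, hyD⟩ * (iH a b g)⁻¹ = n * h ⟨_, hyD⟩ * n⁻¹ := by
      rw [hnp, mul_inv_rev, mul_assoc n, hcomm]
      group
    show evm m ((tH a b m (iH a b g)⁻¹).mulVec
      (Z₀ (iH a b g * h ⟨_, hyD⟩ * (iH a b g)⁻¹))) (C.mulVec (eH e)) = _
    have h6 : evm m ((tH a b m (iH a b g)⁻¹).mulVec
        (Z₀ (iH a b g * h ⟨_, hyD⟩ * (iH a b g)⁻¹))) (C.mulVec (eH e)) =
        evm m (Z₀ (iH a b g * h ⟨_, hyD⟩ * (iH a b g)⁻¹))
          ((piH a b (iH a b g)⁻¹)⁻¹.val.mulVec (C.mulVec (eH e))) := evm_sm m _ _ _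
    rw [h6, map_inv, inv_inv, h5, hnp, map_mul, Pinv_act, hpf]
    exact Pinv_key hCH hnc hyc hxf
  · intro e'
    show evm m ((tV m (RingHom.id _) g⁻¹).mulVec (z₀ (g * tv e' (N : Qf a b ℤ) * g⁻¹)))
      (fun i => e' i) = evm m (z₀ (tv (g.val.mulVec e') (N : Qf a b ℤ)))
      (fun i => g.val.mulVec e' i)
    rw [(p_Vtv _ e' 0 (N : Qf a b ℤ)).2.2.1 g]
    have h7 : evm m ((tV m (RingHom.id _) g⁻¹).mulVec (z₀ (tv (g.val.mulVec e')
        (N : Qf a b ℤ)))) (fun i => e' i) = evm m (z₀ (tv (g.val.mulVec e') (N : Qf a b ℤ)))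
          ((SLm (RingHom.id _) g⁻¹)⁻¹.val.mulVec e') := evm_sm m _ _ _
    rw [h7, Pinv_id, inv_inv]

end

end Pool.Agent.F8.NL
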