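import Pool.Agent.Lib.MP_305fdd_al.F8.NL.StmP

/-! Piece `Plv` of project NL: levels. -/

set_option autoImplicit false

namespace Pool.Agent.F8.NL

open Pool.Agent.F8.CG Pool.Agent.F8.BG Pool.Agent.MP_305fdd_al Pool.Agent.Lib.MP_305fdd_al
  Pool.Agent.F8

private theorem Plv_pow {R : Type} [CommRing R] (e : Fin 2 → R) (t : R) (n : ℕ) :
    tv e t ^ n = tv e (n * t) := by
  induction n with
  | zero =>
    rw [pow_zero]
    apply Subtype.ext
    show (1 : Matrix (Fin 2) (Fin 2) R) = !![1 - ((0 : ℕ) : R) * t * e 0 * e 1,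
      ((0 : ℕ) : R) * t * e 0 ^ 2; -(((0 : ℕ) : R) * t * e 1 ^ 2), 1 + ((0 : ℕ) : R) * t * e 0 * e 1]
    ext i j
    fin_cases i <;> fin_cases j <;> simp
  | succ n ih =>
    rw [pow_succ, ih, ← (p_Vtv R e (n * t) t).2.1]
    congr 1
    push_cast
    ring

theorem p_Plv : P_lv := by
  intro a b W hW
  refine ⟨(W.index).factorial, Nat.factorial_ne_zero _, fun e t => ?_⟩
  rw [← Plv_pow]
  exact Subgroup.pow_mem_of_index_ne_zero_of_dvd hW.index_ne_zero _
    (fun m hm hm' => Nat.dvd_factorial hm hm')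

end Pool.Agent.F8.NL
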