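import Pool.Agent.Lib.MP_305fdd_al.F8.NL.StmP

/-! # NL P one: nonvanishing -/

set_option autoImplicit false

namespace Pool.Agent.F8.NL

open Pool.Agent.F8.CG Pool.Agent.F8.BG Pool.Agent.MP_305fdd_al Pool.Agent.Lib.MP_305fdd_al
  Pool.Agent.F8
open scoped QuadraticAlgebra ComplexConjugate Kronecker

noncomputable section

variable {a b : ℤ}

/-- the reduction of `ℤ[w]` -/
private abbrev Pone_ρ (a b : ℤ) (m : ℕ) : Qf a b ℤ →+* Qf a b (ZMod m) :=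
  Qfm a b (Int.castRingHom (ZMod m))

private theorem Pone_dvd {m : ℕ} {x y : Qf a b ℤ} (h : Pone_ρ a b m x = Pone_ρ a b m y) :
    (m : Qf a b ℤ) ∣ x - y := by
  obtain ⟨z, hz⟩ := Qfm_dvd h
  exact ⟨z, by rw [hz]; ring⟩

private theorem Pone_cj {R S : Type} [CommRing R] [CommRing S] (f : R →+* S) (x : Qf a b R) :
    Qfm a b f (cjq a b R x) = cjq a b S (Qfm a b f x) := by
  apply QuadraticAlgebra.ext
  · show f (x.re + b * x.im) = f x.re + b * f x.im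
    rw [map_add, map_mul, map_intCast]
  · show f (-x.im) = -f x.im
    rw [map_neg]

private theorem Pone_inf {ι : Type} [Finite ι] (X : ι → NF a b) (Y : NF a b) :
    ∃ T : NF a b, T.N ≤ Y.N ∧ ∀ i, T.N ≤ (X i).N := by
  have h1 : (⨅ i, (X i).N).FiniteIndex := Subgroup.finiteIndex_iInf fun i => (X i).fin
  have h2 : (⨅ i, (X i).N).Normal := Subgroup.normal_iInf_normal fun i => (X i).nor
  exact ⟨⟨Y.N ⊓ ⨅ i, (X i).N, inferInstance, inferInstance⟩, inf_le_left,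
    fun i => inf_le_right.trans (iInf_le _ i)⟩

private theorem Pone_inf2 (X Y : NF a b) : ∃ T : NF a b, T.N ≤ X.N ∧ T.N ≤ Y.N :=
  ⟨⟨X.N ⊓ Y.N, inferInstance, inferInstance⟩, inf_le_left, inf_le_right⟩

private theorem Pone_om {R : Type} [CommRing R] (M : Matrix (Fin 2) (Fin 2) R) (x y : Fin 2 → R) :
    CG.om (M.mulVec x) (M.mulVec y) = M.det * CG.om x y := by
  unfold CG.om
  rw [Matrix.det_fin_two]
  simp only [Matrix.mulVec, dotProduct, Fin.sum_univ_two]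
  ring

private theorem Pone_pi (hpb : P_pb) (hn : b ^ 2 + 4 * a < 0) {D : Subgroup (GQ a b)}
    {h : D →* GH a b} {C E : Matrix (Fin 2) (Fin 2) (OH a b)} (hC : HD h C E)
    (e : Fin 2 → Qf a b ℤ) (t : Qf a b ℤ) (ht : tv e t ∈ D) :
    piH a b (h ⟨_, ht⟩) = tv (C.mulVec (eH e)) (E.det * jH a b t) := by
  obtain ⟨-, h1⟩ := hpb a b hn D h C E hC
  obtain ⟨-, h3⟩ := h1 e t ht
  have hdet : E.det * C.det = 1 := by rw [← Matrix.det_mul, hC.inv', Matrix.det_one]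
  apply Subtype.ext
  apply Matrix.mulVec_injective
  funext x
  rw [(p_Vtv _ (C.mulVec (eH e)) 0 (E.det * jH a b t)).1 x]
  have h4 := congrArg (fun y => E.det • y) (h3 x)
  simp only [smul_smul, smul_add, hdet, one_smul] at h4
  rw [h4, mul_assoc]

private theorem Pone_StV {q : ℕ+} {p : GH a b} {ê : Fin 2 → OH a b}
    (hp : (piH a b p).val.mulVec ê = ê) {γ : GQ a b} {X : NF a b} (hX : X.N ≤ (NFG a b q).N)
    (hγ : Ap X p γ) : γ ∈ StV q ê := by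
  show (rdq a b q γ).val.mulVec (fun i => rH a b q (ê i)) = fun i => rH a b q (ê i)
  rw [← pm_ap q (Ap_le hX hγ), ← piH_pm]
  funext i
  have h1 := RingHom.map_mulVec (rH a b q) (piH a b p).val ê i
  rw [hp] at h1
  exact h1.symm

private theorem Pone_NFG (q : ℕ+) (ê : Fin 2 → OH a b) : (NFG a b q).N ≤ StV q ê := by
  intro g hg
  have h1 : rdq a b q g = 1 := hg
  show (rdq a b q g).val.mulVec (fun i => rH a b q (ê i)) = fun i => rH a b q (ê i)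
  rw [h1]
  exact Matrix.one_mulVec _

private theorem Pone_con {q : ℕ} [Fact q.Prime] {v : OH a b →+* ℤ_[q]} (hv : VH q v) {k : ℕ}
    {R : ℕ+} (hk : q ^ k ∣ (R : ℕ)) {x : OH a b} (hx : rH a b R x = 0) :
    (q : ℤ_[q]) ^ k ∣ v x := by
  have hq : 0 < q ^ k := pow_pos (Fact.out : q.Prime).pos k
  have h1 : (((⟨q ^ k, hq⟩ : ℕ+) : ℕ+) : ℕ) ∣ (R : ℕ) := hk
  refine hv.con k ⟨q ^ k, hq⟩ x rfl ?_
  rw [← rH_map h1, hx, map_zero]

private theorem Pone_cup {m : ℕ} {W : Subgroup (GQ a b)} (z : GQ a b → Fin (m + 1) → Qf a b ℤ)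
    {z' : GQ a b → Fin (1 + 1) → Qf a b ℤ} (hz' : CH (tV 1 (cjq a b ℤ)) W z') {x y : GQ a b}
    (hx : x ∈ W) (hy : y ∈ W) : cup z z' x y = tens (z x) (z' (x * y) - z' x) := by
  unfold cup
  rw [hz' x hx y hy, add_sub_cancel_left]

private theorem Pone_cup1 {m : ℕ} {W : Subgroup (GQ a b)} (z : GQ a b → Fin (m + 1) → Qf a b ℤ)
    {z' : GQ a b → Fin (1 + 1) → Qf a b ℤ} (hz' : CH (tV 1 (cjq a b ℤ)) W z') {x : GQ a b}
    (hx : x ∈ W) : cup z z' x 1 = 0 := by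
  rw [Pone_cup z hz' hx (one_mem W), mul_one, sub_self]
  funext i
  exact mul_zero _

private theorem Pone_lc {m : ℕ} {W : Subgroup (GQ a b)} {z : GQ a b → Fin (m + 1) → Qf a b ℤ}
    {z' : GQ a b → Fin (1 + 1) → Qf a b ℤ} (hz' : CH (tV 1 (cjq a b ℤ)) W z') {X : NF a b}
    (hX : X.N ≤ W) {r : Qf a b ℤ} (h1 : ∀ g ∈ W, ∀ n ∈ X.N, ∀ i, r ∣ z (g * n) i - z g i)
    (h2 : ∀ g ∈ W, ∀ n ∈ X.N, ∀ i, r ∣ z' (g * n) i - z' g i) {g h n n' : GQ a b} (hg : g ∈ W)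
    (hh : h ∈ W) (hn : n ∈ X.N) (hn' : n' ∈ X.N) (i : Fin (m + 1) × Fin (1 + 1)) :
    r ∣ cup z z' (g * n) (h * n') i - cup z z' g h i := by
  rw [Pone_cup z hz' (mul_mem hg (hX hn)) (mul_mem hh (hX hn')), Pone_cup z hz' hg hh]
  show r ∣ z (g * n) i.1 * (z' (g * n * (h * n')) i.2 - z' (g * n) i.2) -
    z g i.1 * (z' (g * h) i.2 - z' g i.2)
  have h3 : g * n * (h * n') = g * h * (h⁻¹ * n * h * n') := by group
  have h4 : h⁻¹ * n * h * n' ∈ X.N := by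
    refine mul_mem ?_ hn'
    have := X.nor.conj_mem n hn h⁻¹
    rwa [inv_inv] at this
  obtain ⟨u, hu⟩ := h1 g hg n hn i.1
  obtain ⟨u', hu'⟩ := h2 g hg n hn i.2
  obtain ⟨u'', hu''⟩ := h2 (g * h) (mul_mem hg hh) _ h4 i.2
  rw [h3]
  refine ⟨u * (z' (g * h * (h⁻¹ * n * h * n')) i.2 - z' (g * n) i.2) +
    z g i.1 * (u'' - u'), ?_⟩
  linear_combination (z' (g * h * (h⁻¹ * n * h * n')) i.2 - z' (g * n) i.2) * hu +
    z g i.1 * hu'' - z g i.1 * hu'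

/-- the extension property for one modulus -/
private def Pone_E {κ : Type} (W : Subgroup (GQ a b)) (M : ℕ+) (X : NF a b)
    (z : GQ a b → κ → Qf a b ℤ) (Z : GH a b → κ → OH a b) : Prop :=
  ∀ x ∈ clH W, ∀ g, Ap X x g → ∀ i, rH a b M (Z x i) = Pone_ρ a b M (z g i)

private theorem Pone_Ele {κ : Type} {W : Subgroup (GQ a b)} {M : ℕ+} {X Y : NF a b}
    {z : GQ a b → κ → Qf a b ℤ} {Z : GH a b → κ → OH a b} (h : Y.N ≤ X.N)
    (hE : Pone_E W M X z Z) : Pone_E W M Y z Z := fun x hx g hg => hE x hx g (Ap_le h hg)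

private theorem Pone_Elc {κ : Type} {W : Subgroup (GQ a b)} (hW : ∀ g ∈ W, iH a b g ∈ clH W)
    {M : ℕ+} {X : NF a b} {z : GQ a b → κ → Qf a b ℤ} {Z : GH a b → κ → OH a b}
    (hE : Pone_E W M X z Z) {r : Qf a b ℤ} (hr : r ∣ ((M : ℕ) : Qf a b ℤ)) :
    ∀ g ∈ W, ∀ n ∈ X.N, ∀ i, r ∣ z (g * n) i - z g i := by
  intro g hg n hn i
  have h1 := hE (iH a b g) (hW g hg) g rfl i
  have h2 : Ap X (iH a b g) (g * n) := by
    show QuotientGroup.mk' X.N g = QuotientGroup.mk' X.N (g * n)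
    rw [map_mul, show QuotientGroup.mk' X.N n = 1 from (QuotientGroup.eq_one_iff _).2 hn, mul_one]
  have h3 := hE (iH a b g) (hW g hg) (g * n) h2 i
  exact hr.trans (Pone_dvd (h3.symm.trans h1))

private theorem Pone_Apm {X : NF a b} {x y : GH a b} {g g' : GQ a b} (h : Ap X x g)
    (h' : Ap X y g') : Ap X (x * y) (g * g') := by
  show pr X (x * y) = _
  rw [map_mul, map_mul, h, h']

private theorem Pone_fx {W : Subgroup (GQ a b)} {Z' : GH a b → Fin (1 + 1) → OH a b}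
    (hZ' : CH (tHc a b 1) (clH W) Z') {p₁ p₂ : GH a b} (h₁ : p₁ ∈ clH W) (h₂ : p₂ ∈ clH W)
    {ê : Fin 2 → OH a b} (hf : (piH a b p₁).val.mulVec ê = ê) :
    evm 1 (Z' (p₁ * p₂)) (fun i => cjq a b Zh (ê i)) =
      evm 1 (Z' p₁) (fun i => cjq a b Zh (ê i)) + evm 1 (Z' p₂) (fun i => cjq a b Zh (ê i)) := by
  rw [hZ' p₁ h₁ p₂ h₂, evm_add]
  congr 1
  show evm 1 ((sm 1 (SLm (cjq a b Zh) (piH a b p₁))).mulVec (Z' p₂)) _ = _
  rw [evm_sm]
  congr 1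
  have h1 : (SLm (cjq a b Zh) (piH a b p₁)).val.mulVec (fun i => cjq a b Zh (ê i)) =
      fun i => cjq a b Zh (ê i) := by
    funext i
    have h2 := RingHom.map_mulVec (cjq a b Zh) (piH a b p₁).val ê i
    rw [hf] at h2
    exact h2.symm
  have h3 : ((SLm (cjq a b Zh) (piH a b p₁))⁻¹).val * (SLm (cjq a b Zh) (piH a b p₁)).val = 1 := by
    rw [← Matrix.SpecialLinearGroup.coe_mul, inv_mul_cancel, Matrix.SpecialLinearGroup.coe_one]
  conv_lhs => rw [← h1]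
  rw [Matrix.mulVec_mulVec, h3, Matrix.one_mulVec]

private theorem Pone_main {m : ℕ} {W : Subgroup (GQ a b)} {R : ℕ+} {X : NF a b}
    {z : GQ a b → Fin (m + 1) → Qf a b ℤ} {z' : GQ a b → Fin (1 + 1) → Qf a b ℤ}
    {Z : GH a b → Fin (m + 1) → OH a b} {Z' : GH a b → Fin (1 + 1) → OH a b}
    (hz' : CH (tV 1 (cjq a b ℤ)) W z') (hZ' : CH (tHc a b 1) (clH W) Z')
    (hE : Pone_E W R X z Z) (hE' : Pone_E W R X z' Z') {p₁ p₂ : GH a b} (h₁ : p₁ ∈ clH W)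
    (h₂ : p₂ ∈ clH W) {ê : Fin 2 → OH a b} (hf : (piH a b p₁).val.mulVec ê = ê)
    {γ₁ γ₂ : GQ a b} (g₁ : γ₁ ∈ W) (g₂ : γ₂ ∈ W) (a₁ : Ap X p₁ γ₁) (a₂ : Ap X p₂ γ₂)
    {e' : Fin 2 → Qf a b ℤ} (he : ∀ i, rH a b R (ê i) = Pone_ρ a b R (e' i)) :
    Pone_ρ a b R (evM m 1 (cup z z' γ₁ γ₂) e' (fun i => cjq a b ℤ (e' i))) =
      rH a b R (evm m (Z p₁) ê * evm 1 (Z' p₂) (fun i => cjq a b Zh (ê i))) := by
  have hc : ∀ i, rH a b R (cjq a b Zh (ê i)) = Pone_ρ a b R (cjq a b ℤ (e' i)) := by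
    intro i
    rw [Pone_cj]
    show Qfm a b (rZ R) (cjq a b Zh (ê i)) = _
    rw [Pone_cj]
    exact congrArg _ (he i)
  have hev : ∀ (x : GH a b) (g : GQ a b), x ∈ clH W → Ap X x g →
      Pone_ρ a b R (evm 1 (z' g) (fun i => cjq a b ℤ (e' i))) =
        rH a b R (evm 1 (Z' x) (fun i => cjq a b Zh (ê i))) := by
    intro x g hx hg
    rw [← evm_map, ← evm_map]
    congr 1
    · funext i
      exact (hE' x hx g hg i).symm
    · funext i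
      exact (hc i).symm
  have h1 : evm 1 (z' (γ₁ * γ₂)) (fun i => cjq a b ℤ (e' i)) =
      evm 1 (z' γ₁) (fun i => cjq a b ℤ (e' i)) +
      evm 1 ((tV 1 (cjq a b ℤ) γ₁).mulVec (z' γ₂)) (fun i => cjq a b ℤ (e' i)) := by
    rw [hz' γ₁ g₁ γ₂ g₂, evm_add]
  have h2 := Pone_fx hZ' h₁ h₂ hf
  unfold cup
  rw [evM_tens, map_mul, map_mul]
  congr 1
  · rw [← evm_map, ← evm_map]
    congr 1
    · funext i
      exact (hE p₁ h₁ γ₁ a₁ i).symm
    · funext i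
      exact (he i).symm
  · have h3 := hev (p₁ * p₂) (γ₁ * γ₂) (mul_mem h₁ h₂) (Pone_Apm a₁ a₂)
    rw [h1, h2, map_add, map_add, hev p₁ γ₁ h₁ a₁] at h3
    exact add_left_cancel h3

private theorem Pone_Api {X : NF a b} {x : GH a b} {g : GQ a b} (h : Ap X x g) :
    Ap X x⁻¹ g⁻¹ := by
  show pr X x⁻¹ = _
  rw [map_inv, map_inv, h]

private theorem Pone_hcm {D : Subgroup (GQ a b)} {h : D →* GH a b} {W : Subgroup (GQ a b)}
    {g : GQ a b} : g ∈ hcm h W ↔ ∃ hg : g ∈ D, h ⟨g, hg⟩ ∈ clH W := by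
  constructor
  · rintro ⟨x, hx, rfl⟩
    exact ⟨x.2, hx⟩
  · rintro ⟨hg, h1⟩
    exact ⟨⟨g, hg⟩, h1, rfl⟩

private theorem Pone_tvm {R S : Type} [CommRing R] [CommRing S] (f : R →+* S) (e : Fin 2 → R)
    (t : R) : SLm f (tv e t) = tv (fun i => f (e i)) (f t) := by
  apply Subtype.ext
  refine Matrix.ext fun i j => ?_
  fin_cases i <;> fin_cases j
  · show f (1 - t * e 0 * e 1) = 1 - f t * f (e 0) * f (e 1)
    simp
  · show f (t * e 0 ^ 2) = f t * f (e 0) ^ 2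
    simp
  · show f (-(t * e 1 ^ 2)) = -(f t * f (e 1) ^ 2)
    simp
  · show f (1 + t * e 0 * e 1) = 1 + f t * f (e 0) * f (e 1)
    simp

private theorem Pone_evMsub {R : Type} [CommRing R] {m n : ℕ} (P Q : Fin (m + 1) × Fin (n + 1) → R)
    (e e' : Fin 2 → R) : evM m n (P - Q) e e' = evM m n P e e' - evM m n Q e e' := by
  unfold evM
  rw [← Finset.sum_sub_distrib]
  exact Finset.sum_congr rfl fun i _ => by rw [Pi.sub_apply, sub_mul]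

private theorem Pone_evMsmul {R : Type} [CommRing R] {m n : ℕ} (d : R)
    (P : Fin (m + 1) × Fin (n + 1) → R) (e e' : Fin 2 → R) :
    evM m n (d • P) e e' = d * evM m n P e e' := by
  unfold evM
  rw [Finset.mul_sum]
  exact Finset.sum_congr rfl fun i _ => by rw [Pi.smul_apply, smul_eq_mul, mul_assoc]

private theorem Pone_evMsum {R : Type} [CommRing R] {m n k : ℕ}
    (P : Fin k → Fin (m + 1) × Fin (n + 1) → R) (e e' : Fin 2 → R) :
    evM m n (∑ j, P j) e e' = ∑ j, evM m n (P j) e e' := by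
  unfold evM
  rw [Finset.sum_comm]
  exact Finset.sum_congr rfl fun i _ => by rw [Finset.sum_apply, Finset.sum_mul]

private theorem Pone_nabs (hn : b ^ 2 + 4 * a < 0) (r : Qf a b ℤ) :
    r ∣ (((nq r).natAbs : ℕ) : Qf a b ℤ) := by
  refine ⟨cjq a b ℤ r, ?_⟩
  rw [mul_cjq, ← Int.cast_natCast (R := Qf a b ℤ), Int.natAbs_of_nonneg (nq_nonneg hn r)]
  apply QuadraticAlgebra.ext
  · simp
  · simp

private theorem Pone_val {q : ℕ} [Fact q.Prime] {x : ℤ_[q]} (hx : x ≠ 0) :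
    ∃ kk : ℕ, x ∣ (q : ℤ_[q]) ^ kk := by
  refine ⟨x.valuation, ((PadicInt.unitCoeff hx)⁻¹ : ℤ_[q]ˣ), ?_⟩
  rw [eq_comm, Units.mul_inv_eq_iff_eq_mul, mul_comm]
  exact PadicInt.unitCoeff_spec hx

private theorem Pone_cjH (x : Qf a b ℤ) : jH a b (cjq a b ℤ x) = cjq a b Zh (jH a b x) := by
  show Qfm a b (Int.castRingHom Zh) (cjq a b ℤ x) = _
  rw [Pone_cj]
  rfl

private theorem Pone_cjr (m : ℕ+) (x : OH a b) :
    rH a b m (cjq a b Zh x) = cjq a b (ZMod m) (rH a b m x) := by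
  show Qfm a b (rZ m) (cjq a b Zh x) = _
  rw [Pone_cj]
  rfl

private theorem Pone_red (m : ℕ+) (s t : OH a b) :
    rH a b m (jH a b (lfH m s * cjq a b ℤ (lfH m t) - lfH m t * cjq a b ℤ (lfH m s)) -
      (s * cjq a b Zh t - t * cjq a b Zh s)) = 0 := by
  rw [map_sub, rH_jH, map_sub, map_mul, map_mul, Pone_cj, Pone_cj, lfH_rH, lfH_rH, map_sub,
    map_mul, map_mul, Pone_cjr, Pone_cjr, sub_self]

private theorem Pone_alg {L : Type} [CommRing L] {n A1 A2 B1 B2 β β' x1 x2 y1 y2 : L}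
    (e1 : n * A1 = β * x1) (e2 : n * A2 = β * x2) (e3 : n * B1 = β' * y1)
    (e4 : n * B2 = β' * y2) (e5 : β * β' = 0) : n * n * (A1 * B2 - A2 * B1) = 0 := by
  linear_combination (n * B2) * e1 + (β * x1) * e4 - (n * B1) * e2 - (β * x2) * e3 +
    (x1 * y2 - x2 * y1) * e5

theorem p_Pone (hloc : C_loc) (hext : C_ext) (hv : C_v) (hcl : C_cl) (hlv : P_lv) (hpb : P_pb)
    (htor : P_tor) (hth : P_th) (hb : H_b) (hbv : B_bv) : P_one := by
  classical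
  intro a b M₀ m H D hD h C E hC X hX e he
  have hn := H.neg
  have hdom : IsDomain (Qf a b ℤ) := Qf_domain hn
  have hfi1 : (hcm h X.N).FiniteIndex := (hcl a b X.N X.fin).2.2.2 D h hD
  obtain ⟨N₁, hN₁, hN₁'⟩ := hlv a b (hcm h X.N) hfi1
  obtain ⟨q, hq, v, π, hvv, hqn, hπ, hπd⟩ := hv a b hn H.pid (2 * (m + 1) * N₁)
    (Nat.mul_ne_zero (by positivity) hN₁)
  have hqp : 0 < q := hq.out.pos
  let q' : ℕ+ := ⟨q, hqp⟩
  set ê : Fin 2 → OH a b := C.mulVec (eH e) with hê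
  have hdet : E.det * C.det = 1 := by rw [← Matrix.det_mul, hC.inv', Matrix.det_one]
  have huni : ∃ f, CG.om ê f = 1 := by
    obtain ⟨g, hg⟩ := he
    refine ⟨E.det • C.mulVec (eH (colG g 1)), ?_⟩
    have h1 := Pone_om C (eH e) (eH (colG g 1))
    have h2 : CG.om (eH e) (eH (colG g 1)) = 1 := by
      have h3 : CG.om e (colG g 1) = 1 := by
        rw [← hg]
        have h4 := g.2
        rw [Matrix.det_fin_two] at h4
        show g.val 0 0 * g.val 1 1 - g.val 1 0 * g.val 0 1 = 1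
        linear_combination h4
      have h4 := congrArg (jH a b) h3
      rw [map_one] at h4
      rw [← h4]
      show jH a b (e 0) * jH a b (colG g 1 1) - jH a b (e 1) * jH a b (colG g 1 0) =
        jH a b (e 0 * colG g 1 1 - e 1 * colG g 1 0)
      rw [map_sub, map_mul, map_mul]
    rw [h2, mul_one] at h1
    rw [← hdet, ← h1]
    unfold CG.om
    simp only [Pi.smul_apply, smul_eq_mul]
    ring
  let W : Subgroup (GQ a b) := X.N ⊓ StV q' ê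
  have hWfi : W.FiniteIndex := by
    have h1 : (StV q' ê).FiniteIndex := Subgroup.finiteIndex_of_le (Pone_NFG q' ê)
    exact inferInstance
  obtain ⟨X', hX'1, hX'2⟩ := Pone_inf2 X (NFG a b q')
  have hX'W : X'.N ≤ W := le_inf hX'1 (hX'2.trans (Pone_NFG q' ê))
  have hclW := hcl a b W hWfi
  have hfix : ∀ (t : Qf a b ℤ) (ht : tv e t ∈ D), (piH a b (h ⟨_, ht⟩)).val.mulVec ê = ê :=
    fun t ht => ((hpb a b hn D h C E hC).2 e t ht).1
  have ha : ∀ (t : Qf a b ℤ) (ht : tv e t ∈ D), ∀ x ∈ clH W,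
      h ⟨_, ht⟩ * x * (h ⟨_, ht⟩)⁻¹ ∈ clH W := by
    intro t ht x hx
    obtain ⟨γ, hγ⟩ := Ap_ex X' (h ⟨_, ht⟩)
    obtain ⟨g, hg⟩ := Ap_ex X' x
    have hgW : g ∈ W := (hclW.2.2.1 X' x g hX'W hg).1 hx
    have h1 := Pone_Apm (Pone_Apm hγ hg) (Pone_Api hγ)
    refine (hclW.2.2.1 X' _ _ hX'W h1).2 ⟨X.nor.conj_mem g hgW.1 γ, ?_⟩
    have h2 := Pone_StV (hfix t ht) hX'2 hγ
    exact (StV q' ê).mul_mem ((StV q' ê).mul_mem h2 hgW.2) ((StV q' ê).inv_mem h2)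
  obtain ⟨N', hN'⟩ := hlv a b (hcm h W) (hclW.2.2.2 D h hD)
  obtain ⟨c, hc1, hc2, hc3, hc4⟩ := hth a b hn m H.even q q' rfl
    (fun hd => hqn (hd.mul_right _)) v hvv π hπ hπd ê huni
  obtain ⟨d, k, z, z', y, hd, hz, hz', hy⟩ := hb a b hn H.eu H.pid H.fg M₀ H.three H.ld H.hw m
    H.four H.even H.une W hWfi (inf_le_left.trans hX) π c hπ
    (fun x hx y hy z hz i => hc1 x hx.2 y hy.2 z hz.2 i)
  have hextW := hext a b hn W hWfi
  have hZex : ∀ j, ∃ Z, ExtH W (z j) Z := fun j =>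
    hextW.1 (Fin (m + 1)) (tV m (RingHom.id _)) (z j) (hz j)
  choose Z hZ using hZex
  have hZ'ex : ∀ j, ∃ Z, ExtH W (z' j) Z := fun j =>
    hextW.1 (Fin (1 + 1)) (tV 1 (cjq a b ℤ)) (z' j) (hz' j)
  choose Z' hZ' using hZ'ex
  have hCZ := fun j => hextW.2.1 m (z j) (hz j) (Z j) (hZ j)
  have hCZ' := fun j => hextW.2.2.1 1 (z' j) (hz' j) (Z' j) (hZ' j)
  by_contra hcon
  have hzero : ∀ j, bH m h C v N' e (Z j) * bH' h C v N' e (Z' j) = 0 := by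
    intro j
    by_contra hj
    apply hcon
    exact ⟨q, hq, v, W, N', hvv, hWfi, inf_le_left, hN', ha, z j, z' j, Z j, Z' j, hz j, hz' j,
      hZ j, hZ' j, left_ne_zero_of_mul hj, right_ne_zero_of_mul hj⟩
  -- the moduli
  have hr : d * π ≠ 0 := mul_ne_zero hd hπ
  have hM0 : nq (d * π) ≠ 0 := fun h0 => hr (nq_eq_zero hn h0)
  have hrM : d * π ∣ (((nq (d * π)).natAbs : ℕ) : Qf a b ℤ) := Pone_nabs hn _
  have hV0 : v (jH a b (d * π)) ≠ 0 := by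
    intro h0
    exact hr (hvv.inj (h0.trans (map_zero _).symm))
  obtain ⟨kk, hkk⟩ := Pone_val hV0
  let R : ℕ+ := ⟨(nq (d * π)).natAbs * q ^ (kk + 1),
    Nat.mul_pos (Int.natAbs_pos.2 hM0) (pow_pos hqp _)⟩
  have hRM : (nq (d * π)).natAbs ∣ (R : ℕ) := dvd_mul_right _ _
  have hRk : q ^ kk ∣ (R : ℕ) := (pow_dvd_pow q (Nat.le_succ kk)).trans (dvd_mul_left _ _)
  have hRq : q ∣ (R : ℕ) := (dvd_pow_self q (Nat.succ_ne_zero kk)).trans (dvd_mul_left _ _)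
  have hrR : d * π ∣ ((R : ℕ) : Qf a b ℤ) :=
    hrM.trans (Nat.cast_dvd_cast hRM)
  -- the approximations
  choose XZ hXZ1 hXZ2 using fun j => hZ j R
  choose XZ' hXZ'1 hXZ'2 using fun j => hZ' j R
  obtain ⟨T1, hT1, hT1'⟩ := Pone_inf XZ X'
  obtain ⟨T2, hT2, hT2'⟩ := Pone_inf XZ' T1
  have hE : ∀ j, Pone_E W R T2 (z j) (Z j) := fun j =>
    Pone_Ele (hT2.trans (hT1' j)) (hXZ2 j)
  have hE' : ∀ j, Pone_E W R T2 (z' j) (Z' j) := fun j => Pone_Ele (hT2' j) (hXZ'2 j)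
  have hT2X' : T2.N ≤ X'.N := hT2.trans hT1
  have hT2W : T2.N ≤ W := hT2X'.trans hX'W
  have hWcl : ∀ g ∈ W, iH a b g ∈ clH W := fun g hg => (hclW.2.1 g).2 hg
  have hp : ∀ t : Qf a b ℤ, ∃ ht : tv e ((N₁ : Qf a b ℤ) * t) ∈ D, h ⟨_, ht⟩ ∈ clH W := by
    intro t
    obtain ⟨ht, h1⟩ := Pone_hcm.1 (hN₁' e t)
    refine ⟨ht, ?_⟩
    obtain ⟨γ, hγ⟩ := Ap_ex X' (h ⟨_, ht⟩)
    exact (hclW.2.2.1 X' _ _ hX'W hγ).2 ⟨((hcl a b X.N X.fin).2.2.1 X' _ _ hX'1 hγ).1 h1,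
      Pone_StV (hfix _ ht) hX'2 hγ⟩
  obtain ⟨ht₁, hp₁⟩ := hp 1
  obtain ⟨ht₂, hp₂⟩ := hp (wq a b ℤ)
  set p₁ := h ⟨_, ht₁⟩ with hp₁d
  set p₂ := h ⟨_, ht₂⟩ with hp₂d
  have hcomm : p₁ * p₂ = p₂ * p₁ := by
    rw [hp₁d, hp₂d, ← map_mul, ← map_mul]
    congr 1
    apply Subtype.ext
    show tv e ((N₁ : Qf a b ℤ) * 1) * tv e ((N₁ : Qf a b ℤ) * wq a b ℤ) =
      tv e ((N₁ : Qf a b ℤ) * wq a b ℤ) * tv e ((N₁ : Qf a b ℤ) * 1)
    rw [← (p_Vtv _ e ((N₁ : Qf a b ℤ) * 1) ((N₁ : Qf a b ℤ) * wq a b ℤ)).2.1,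
      ← (p_Vtv _ e ((N₁ : Qf a b ℤ) * wq a b ℤ) ((N₁ : Qf a b ℤ) * 1)).2.1, add_comm]
  have hf₁ : (piH a b p₁).val.mulVec ê = ê := hfix _ ht₁
  have hf₂ : (piH a b p₂).val.mulVec ê = ê := hfix _ ht₂
  obtain ⟨T3, hT3W, hT3⟩ := htor a b hn m W hWfi (d * π) hr
    (fun g h => ∑ j, cup (z j) (z' j) g h - d • c g h) T2 hT2W
    (by
      intro g hg h' hh n hn' n' hn'' i
      have h1 : ∀ j, d * π ∣ cup (z j) (z' j) (g * n) (h' * n') i - cup (z j) (z' j) g h' i :=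
        fun j => Pone_lc (hz' j) hT2W (Pone_Elc hWcl (hE j) hrR) (Pone_Elc hWcl (hE' j) hrR)
          hg hh hn' hn'' i
      have h2 := hc2 g h' n (hX'2 (hT2X' hn')) n' (hX'2 (hT2X' hn'')) i
      have h3 := dvd_sub (Finset.dvd_sum fun j (_ : j ∈ Finset.univ) => h1 j)
        (mul_dvd_mul_left d h2)
      show d * π ∣ ((∑ j, cup (z j) (z' j) (g * n) (h' * n')) i - d * c (g * n) (h' * n') i) -
        ((∑ j, cup (z j) (z' j) g h') i - d * c g h' i)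
      rw [Finset.sum_apply, Finset.sum_apply]
      rw [Finset.sum_sub_distrib, mul_sub] at h3
      have h4 : ∀ A B C' D' : Qf a b ℤ, A - B - (C' - D') = A - C' - (B - D') := by
        intro A B C' D'
        ring
      rw [h4]
      exact h3)
    (by
      intro g hg i
      show d * π ∣ (∑ j, cup (z j) (z' j) g 1) i - d * c g 1 i
      rw [Finset.sum_apply]
      have h1 : ∀ j, cup (z j) (z' j) g 1 i = 0 := fun j => by
        rw [Pone_cup1 (z j) (hz' j) hg]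
        rfl
      simp only [h1, Finset.sum_const_zero, zero_sub]
      exact (dvd_neg).2 (mul_dvd_mul_left d (hc3 g i)))
    y hy p₁ hp₁ p₂ hp₂ hcomm ê hf₁ hf₂
  obtain ⟨T, hTT2, hTT3⟩ := Pone_inf2 T2 T3
  have hTW : T.N ≤ W := hTT2.trans hT2W
  obtain ⟨γ₁, a₁⟩ := Ap_ex T p₁
  obtain ⟨γ₂, a₂⟩ := Ap_ex T p₂
  have g₁ : γ₁ ∈ W := (hclW.2.2.1 T _ _ hTW a₁).1 hp₁
  have g₂ : γ₂ ∈ W := (hclW.2.2.1 T _ _ hTW a₂).1 hp₂
  let e' : Fin 2 → Qf a b ℤ := fun i => lfH R (ê i)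
  have he' : ∀ i, rH a b R (ê i) = Pone_ρ a b R (e' i) := fun i => (lfH_rH R (ê i)).symm
  have hdiv := hT3 γ₁ γ₂ (Ap_le hTT3 a₁) (Ap_le hTT3 a₂) R e' hRM he'
  let ē : Fin 2 → Qf a b ℤ := fun i => cjq a b ℤ (e' i)
  let êc : Fin 2 → OH a b := fun i => cjq a b Zh (ê i)
  let Et : Qf a b ℤ := evM m 1 (c γ₁ γ₂ - c γ₂ γ₁) e' ē
  let A : Qf a b ℤ := ∑ j, (evM m 1 (cup (z j) (z' j) γ₁ γ₂) e' ē -
    evM m 1 (cup (z j) (z' j) γ₂ γ₁) e' ē)
  let S : OH a b := ∑ j, (evm m (Z j p₁) ê * evm 1 (Z' j p₂) êc -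
    evm m (Z j p₂) ê * evm 1 (Z' j p₁) êc)
  have hdiv' : d * π ∣ A - d * Et := by
    have h1 : evM m 1 ((∑ j, cup (z j) (z' j) γ₁ γ₂ - d • c γ₁ γ₂) -
        (∑ j, cup (z j) (z' j) γ₂ γ₁ - d • c γ₂ γ₁)) e' ē = A - d * Et := by
      rw [Pone_evMsub, Pone_evMsub, Pone_evMsub, Pone_evMsum, Pone_evMsum, Pone_evMsmul,
        Pone_evMsmul]
      show _ = ∑ j, (evM m 1 (cup (z j) (z' j) γ₁ γ₂) e' ē -
        evM m 1 (cup (z j) (z' j) γ₂ γ₁) e' ē) - d * evM m 1 (c γ₁ γ₂ - c γ₂ γ₁) e' ē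
      rw [Finset.sum_sub_distrib, Pone_evMsub]
      ring
    rw [← h1]
    exact hdiv
  have hA : Pone_ρ a b R A = rH a b R S := by
    show Pone_ρ a b R (∑ j, _) = rH a b R (∑ j, _)
    rw [map_sum, map_sum]
    refine Finset.sum_congr rfl fun j _ => ?_
    rw [map_sub, map_sub, Pone_main (hz' j) (hCZ' j) (hE j) (hE' j) hp₁ hp₂ hf₁ g₁ g₂
      (Ap_le hTT2 a₁) (Ap_le hTT2 a₂) he', Pone_main (hz' j) (hCZ' j) (hE j) (hE' j) hp₂ hp₁ hf₂
      g₂ g₁ (Ap_le hTT2 a₂) (Ap_le hTT2 a₁) he']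
  have h2 : rH a b R (jH a b A - S) = 0 := by
    rw [map_sub, rH_jH, ← hA, sub_self]
  have h4 : v (jH a b (d * π)) ∣ v (jH a b A - S) := hkk.trans (Pone_con hvv hRk h2)
  have h5 : v (jH a b (d * π)) ∣ v (jH a b (A - d * Et)) := map_dvd v (map_dvd (jH a b) hdiv')
  -- the numbers `β`
  have hB : BvM a b m (v.comp (jH a b)) :=
    hbv a b hn m (by have := H.four; omega) ℤ_[q] _ hvv.inj
  have hinj' : Function.Injective (v.comp ((jH a b).comp (cjq a b ℤ))) := by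
    intro x y hxy
    have h1 : cjq a b ℤ x = cjq a b ℤ y := hvv.inj hxy
    have h2 := congrArg (cjq a b ℤ) h1
    rwa [cjq_cjq, cjq_cjq] at h2
  have hB' : BvM a b 1 (v.comp ((jH a b).comp (cjq a b ℤ))) :=
    hbv a b hn 1 le_rfl ℤ_[q] _ hinj'
  have hpbk := (hpb a b hn D h C E hC).1 W
  have hβ : ∀ (t : Qf a b ℤ) (ht : tv e t ∈ D) (_ : h ⟨_, ht⟩ ∈ clH W) (j : Fin k),
      (N' : ℤ_[q]) * v (evm m (Z j (h ⟨_, ht⟩)) ê) =
        bH m h C v N' e (Z j) * v (jH a b t) := by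
    intro t ht hpt j
    have h1 := ((hpbk m ℤ_[q] v (Z j)).2.2 e t ht).1
    have h2 := hB.all (hcm h W) N' hN' _ ((hpbk m ℤ_[q] v (Z j)).1 (hCZ j)) e t
      (Pone_hcm.2 ⟨ht, hpt⟩)
    rw [hê, ← h1]
    exact h2
  have hβ' : ∀ (t : Qf a b ℤ) (ht : tv e t ∈ D) (_ : h ⟨_, ht⟩ ∈ clH W) (j : Fin k),
      (N' : ℤ_[q]) * v (evm 1 (Z' j (h ⟨_, ht⟩)) êc) =
        bH' h C v N' e (Z' j) * v (jH a b (cjq a b ℤ t)) := by
    intro t ht hpt j
    have h1 := ((hpbk 1 ℤ_[q] v (Z' j)).2.2 e t ht).2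
    have h2 := hB'.all (hcm h W) N' hN' _ ((hpbk 1 ℤ_[q] v (Z' j)).2.1 (hCZ' j)) e t
      (Pone_hcm.2 ⟨ht, hpt⟩)
    have h3 : (fun i => v (cjq a b Zh (eH e i))) =
        fun i => v.comp ((jH a b).comp (cjq a b ℤ)) (e i) := by
      funext i
      show v (cjq a b Zh (jH a b (e i))) = v (jH a b (cjq a b ℤ (e i)))
      rw [Pone_cjH]
    rw [h3] at h1
    show (N' : ℤ_[q]) * v (evm 1 (Z' j (h ⟨_, ht⟩)) (fun i => cjq a b Zh (C.mulVec (eH e) i))) = _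
    rw [← h1]
    exact h2
  have h6 : v S = 0 := by
    have hN'0 : (N' : ℤ_[q]) ≠ 0 := Nat.cast_ne_zero.2 hN'.1
    have h1 : (N' : ℤ_[q]) * N' * v S = 0 := by
      show (N' : ℤ_[q]) * N' * v (∑ j, _) = 0
      rw [map_sum, Finset.mul_sum]
      refine Finset.sum_eq_zero fun j _ => ?_
      rw [map_sub, map_mul, map_mul]
      exact Pone_alg (hβ _ ht₁ hp₁ j) (hβ _ ht₂ hp₂ j) (hβ' _ ht₁ hp₁ j) (hβ' _ ht₂ hp₂ j)
        (hzero j)
    exact (mul_eq_zero.1 h1).resolve_left (mul_ne_zero hN'0 hN'0)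
  have h7 : v (jH a b d) * v (jH a b π) ∣ v (jH a b d) * v (jH a b Et) := by
    rw [← map_mul, ← map_mul]
    have h8 := dvd_sub h4 h5
    rw [map_sub, h6, map_sub, map_sub, map_mul (jH a b) d Et, map_mul v] at h8
    have h9 : v (jH a b A) - 0 - (v (jH a b A) - v (jH a b d) * v (jH a b Et)) =
        v (jH a b d) * v (jH a b Et) := by ring
    rwa [h9] at h8
  have hd0 : v (jH a b d) ≠ 0 := by
    intro h0
    exact hd (hvv.inj (h0.trans (map_zero _).symm))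
  have h8 : π ∣ Et := (hπd Et).2 (((hπd π).1 dvd_rfl).trans ((mul_dvd_mul_iff_left hd0).1 h7))
  -- the class `Θ`
  have hTq : T.N ≤ (NFG a b q').N := hTT2.trans (hT2X'.trans hX'2)
  have heq : ∀ i, rH a b q' (ê i) = Pone_ρ a b q' (e' i) := by
    intro i
    have hq'R : (q' : ℕ) ∣ R := hRq
    rw [← rH_map hq'R, he' i]
    exact Qfm_cast hq'R _
  have hγ : ∀ (t : Qf a b ℤ) (ht : tv e t ∈ D) (γ : GQ a b), Ap T (h ⟨_, ht⟩) γ → ∀ i j,
      (q : Qf a b ℤ) ∣ γ.val i j - (tv e' (lfH q' (E.det * jH a b t))).val i j := by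
    intro t ht γ hγ i j
    have h1 : rdq a b q' γ = SLm (Pone_ρ a b q') (tv e' (lfH q' (E.det * jH a b t))) := by
      rw [← pm_ap q' (Ap_le hTq hγ), ← piH_pm, Pone_pi hpb hn hC e t ht, Pone_tvm, Pone_tvm,
        lfH_rH]
      congr 1
      funext i
      exact heq i
    exact Pone_dvd (congrFun (congrFun (congrArg Subtype.val h1) i) j)
  let S₁ : OH a b := E.det * jH a b ((N₁ : Qf a b ℤ) * 1)
  let S₂ : OH a b := E.det * jH a b ((N₁ : Qf a b ℤ) * wq a b ℤ)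
  have h9 := hc4 γ₁ g₁.2 γ₂ g₂.2 e' (lfH q' S₁) (lfH q' S₂) heq (hγ _ ht₁ γ₁ a₁)
    (hγ _ ht₂ γ₂ a₂)
  have h10 : π ∣ lfH q' S₁ * cjq a b ℤ (lfH q' S₂) - lfH q' S₂ * cjq a b ℤ (lfH q' S₁) :=
    (dvd_add_right h8).1 h9
  have h11 := (hπd _).1 h10
  have h12 : rH a b q' (jH a b (lfH q' S₁ * cjq a b ℤ (lfH q' S₂) -
      lfH q' S₂ * cjq a b ℤ (lfH q' S₁)) -
      (S₁ * cjq a b Zh S₂ - S₂ * cjq a b Zh S₁)) = 0 := Pone_red q' S₁ S₂
  have h13 : (q : ℤ_[q]) ^ 1 ∣ _ := Pone_con (k := 1) hvv (by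
    rw [pow_one]
    exact dvd_refl q) h12
  rw [pow_one, map_sub] at h13
  have h14 : (q : ℤ_[q]) ∣ v (S₁ * cjq a b Zh S₂ - S₂ * cjq a b Zh S₁) :=
    (dvd_sub_right h11).1 h13
  have h15 : S₁ * cjq a b Zh S₂ - S₂ * cjq a b Zh S₁ =
      E.det * cjq a b Zh E.det * ((N₁ : OH a b) * (N₁ : OH a b)) *
        (jH a b (cjq a b ℤ (wq a b ℤ)) - jH a b (wq a b ℤ)) := by
    show E.det * jH a b ((N₁ : Qf a b ℤ) * 1) * cjq a b Zh (E.det * jH a b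
      ((N₁ : Qf a b ℤ) * wq a b ℤ)) - E.det * jH a b ((N₁ : Qf a b ℤ) * wq a b ℤ) *
      cjq a b Zh (E.det * jH a b ((N₁ : Qf a b ℤ) * 1)) = _
    rw [mul_one, Pone_cjH]
    simp only [map_mul, map_natCast]
    ring
  have hdif := hvv.dif
  have hu1 : IsUnit (v E.det) := by
    have h1 := congrArg v hdet
    rw [map_mul, map_one] at h1
    exact IsUnit.of_mul_eq_one _ h1
  have hu2 : IsUnit (v (cjq a b Zh E.det)) := by
    have h1 := congrArg v (congrArg (cjq a b Zh) hdet)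
    rw [map_mul, map_one, map_mul, map_one] at h1
    exact IsUnit.of_mul_eq_one _ h1
  have hprime : Prime (q : ℤ_[q]) := PadicInt.prime_p
  have hnu : ∀ x : ℤ_[q], IsUnit x → ¬ (q : ℤ_[q]) ∣ x := fun x hx hd =>
    hprime.not_isUnit (isUnit_of_dvd_unit hd hx)
  have hN₁q : ¬ (q : ℤ_[q]) ∣ (N₁ : ℤ_[q]) := by
    intro h1
    have h2 : (q : ℤ_[q]) ^ 1 ∣ ((N₁ : ℤ) : ℤ_[q]) := by
      rw [pow_one, Int.cast_natCast]
      exact h1
    have h3 := (PadicInt.pow_p_dvd_int_iff 1 (N₁ : ℤ)).1 h2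
    rw [pow_one] at h3
    exact hqn ((Int.natCast_dvd_natCast.1 h3).mul_left _)
  rw [h15] at h14
  simp only [map_mul, map_natCast, map_sub] at h14
  rcases hprime.dvd_or_dvd h14 with h16 | h16
  · rcases hprime.dvd_or_dvd h16 with h17 | h17
    · rcases hprime.dvd_or_dvd h17 with h18 | h18
      · exact hnu _ hu1 h18
      · exact hnu _ hu2 h18
    · rcases hprime.dvd_or_dvd h17 with h18 | h18
      · exact hN₁q h18
      · exact hN₁q h18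
  · refine hnu _ hdif ?_
    rw [← neg_sub] at h16
    exact (dvd_neg).1 h16

end

end Pool.Agent.F8.NL
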