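import Pool.Agent.Lib.MP_305fdd_al.F8.NL.StmP

/-!
# MP_305fdd_al, lattices commensurable with `SL₂(ℤ[w])`: piece Ppair, unipotent elements correspond to unipotent elements (helper20)
-/

set_option autoImplicit false

namespace Pool.Agent.F8.NL

open Pool.Agent.F8.CG Pool.Agent.F8.BG Pool.Agent.MP_305fdd_al Pool.Agent.Lib.MP_305fdd_al
  Pool.Agent.F8
open scoped QuadraticAlgebra ComplexConjugate Kronecker

noncomputable section

/-! ### Matrices -/

private theorem Ppair_inv {R : Type} [CommRing R] {u v : SL2 R} (huv : u * v = 1)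
    (e : Fin 2 → R) : u.val.mulVec (v.val.mulVec e) = e := by
  rw [Matrix.mulVec_mulVec, ← Matrix.SpecialLinearGroup.coe_mul, huv,
    Matrix.SpecialLinearGroup.coe_one, Matrix.one_mulVec]

private theorem Ppair_mv {R : Type} [CommRing R] (u v : SL2 R) (e : Fin 2 → R) :
    (u * v).val.mulVec e = u.val.mulVec (v.val.mulVec e) := by
  rw [Matrix.mulVec_mulVec, ← Matrix.SpecialLinearGroup.coe_mul]

private theorem Ppair_col {R : Type} [CommRing R] (g : SL2 R) :
    g.val.mulVec ![1, 0] = colG g 0 := by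
  funext i
  simp [colG, Matrix.mulVec, dotProduct, Fin.sum_univ_two]

private theorem Ppair_trd {R S : Type} [CommRing R] [CommRing S] (f : R →+* S) (u v : R)
    (h : u * v = 1) (s : S) : Matrix.trace (SLm f (dg u v h) * eU s).val = f u + f v := by
  show Matrix.trace ((!![u, 0; 0, v] : Matrix (Fin 2) (Fin 2) R).map f *
    (!![1, s; 0, 1] : Matrix (Fin 2) (Fin 2) S)) = _
  simp [Matrix.trace_fin_two, Matrix.mul_apply, Fin.sum_univ_two]

private theorem Ppair_trt {R S : Type} [CommRing R] [CommRing S] (f : R →+* S)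
    (e : Fin 2 → R) (t : R) : Matrix.trace (SLm f (tv e t)).val = 2 := by
  show Matrix.trace ((!![1 - t * e 0 * e 1, t * e 0 ^ 2; -(t * e 1 ^ 2), 1 + t * e 0 * e 1] :
    Matrix (Fin 2) (Fin 2) R).map f) = 2
  simp [Matrix.trace_fin_two]
  ring

private theorem Ppair_trc {R : Type} [CommRing R] (k p : SL2 R) :
    Matrix.trace (k⁻¹ * p * k).val = Matrix.trace p.val := by
  rw [Matrix.SpecialLinearGroup.coe_mul, Matrix.SpecialLinearGroup.coe_mul,
    Matrix.trace_mul_cycle, ← Matrix.SpecialLinearGroup.coe_mul, mul_inv_cancel,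
    Matrix.SpecialLinearGroup.coe_one, one_mul]

private theorem Ppair_dg {R : Type} [CommRing R] (h : (1 : R) * 1 = 1) : dg (1 : R) 1 h = 1 := by
  apply Subtype.ext
  show (!![1, 0; 0, 1] : Matrix (Fin 2) (Fin 2) R) = 1
  ext i j
  fin_cases i <;> fin_cases j <;> simp

private theorem Ppair_omC {R : Type} [CommRing R] (C : Matrix (Fin 2) (Fin 2) R)
    (x y : Fin 2 → R) : CG.om (C.mulVec x) (C.mulVec y) = C.det * CG.om x y := by
  rw [Matrix.det_fin_two]
  simp only [CG.om, Matrix.mulVec, dotProduct, Fin.sum_univ_two]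
  ring

private theorem Ppair_oms {R : Type} [CommRing R] (c : R) (x y : Fin 2 → R) :
    CG.om (c • x) y = c * CG.om x y := by
  simp only [CG.om, Pi.smul_apply, smul_eq_mul]
  ring

private theorem Ppair_oms' {R : Type} [CommRing R] (c : R) (x y : Fin 2 → R) :
    CG.om x (c • y) = c * CG.om x y := by
  simp only [CG.om, Pi.smul_apply, smul_eq_mul]
  ring

private theorem Ppair_om0 {R : Type} [CommRing R] (x : Fin 2 → R) : CG.om x x = 0 := by
  simp only [CG.om]
  ring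

/-! ### The ring -/

private theorem Ppair_inj {a b : ℤ} (h : b ^ 2 + 4 * a < 0) {z : Qf a b ℤ}
    (hz : iC a b z = 0) : z = 0 := by
  have h1 := wC_im h
  rw [iC_apply] at hz
  have h2 := congrArg Complex.im hz
  simp only [Complex.add_im, Complex.mul_im, Complex.intCast_im, Complex.intCast_re,
    zero_mul, add_zero, zero_add, Complex.zero_im] at h2
  have h3 : z.im = 0 := by
    rcases mul_eq_zero.1 h2 with h4 | h4
    · exact_mod_cast h4
    · exact absurd h4 h1.ne'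
  rw [h3] at hz
  have h4 : z.re = 0 := by
    simpa using hz
  ext
  · exact h4
  · exact h3

private theorem Ppair_one {a b : ℤ} (h : b ^ 2 + 4 * a < 0) {u v : Qf a b ℤ}
    (h1 : u * v = 1) (h2 : u + v = 2) : u = 1 ∧ v = 1 := by
  have h3 : (iC a b (u - 1)) ^ 2 = 0 := by
    rw [← map_pow]
    rw [show (u - 1) ^ 2 = 0 by linear_combination u * h2 - h1, map_zero]
  have h4 : u - 1 = 0 := Ppair_inj h (pow_eq_zero_iff (two_ne_zero) |>.1 h3)
  have h5 : u = 1 := sub_eq_zero.1 h4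
  refine ⟨h5, ?_⟩
  rw [h5, one_mul] at h1
  exact h1

/-! ### The fixed cusps -/

section Main

variable {a b : ℤ} {D : Subgroup (GQ a b)}

/-- the property of `k`, at the level `X` -/
private def Ppair_P (h : D →* GH a b) (e : Fin 2 → Qf a b ℤ) (X : NF a b) (k : GQ a b) : Prop :=
  ∀ (t : Qf a b ℤ) (ht : tv e t ∈ D) (g : GQ a b), Ap X (h ⟨_, ht⟩) g →
    ∃ n ∈ X.N, ∃ c ∈ Bor a b, g * k = n * k * c

private theorem Ppair_ne (h : D →* GH a b) (e : Fin 2 → Qf a b ℤ) (X : NF a b)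
    (hv : ∃ v₀, Prm v₀ ∧ ∀ (t : Qf a b ℤ) (ht : tv e t ∈ D) (g : GQ a b),
      Ap X (h ⟨_, ht⟩) g → Cs X.N v₀ (g.val.mulVec v₀)) : ∃ k, Ppair_P h e X k := by
  obtain ⟨v₀, ⟨k, hk⟩, hv⟩ := hv
  refine ⟨k, fun t ht g hg => ?_⟩
  obtain ⟨x, hx, u, -, hu⟩ := hv t ht g hg
  refine ⟨x, hx, (x * k)⁻¹ * (g * k), ?_, by group⟩
  show ((x * k)⁻¹ * (g * k)).val 1 0 = 0
  have h1 : ((x * k)⁻¹ * (g * k)).val.mulVec ![1, 0] = u • ![1, 0] := by
    rw [Ppair_mv, Ppair_mv g k, Ppair_col k, hk, hu, Matrix.mulVec_smul, ← hk, ← Ppair_col k,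
      ← Ppair_mv x k, Ppair_inv (inv_mul_cancel (x * k))]
  rw [Ppair_col] at h1
  have h2 := congrFun h1 1
  simpa [colG] using h2

private theorem Ppair_cp (h : D →* GH a b) (e : Fin 2 → Qf a b ℤ) (X Y : NF a b)
    (hXY : X.N ≤ Y.N) {k : GQ a b} (hk : Ppair_P h e X k) : Ppair_P h e Y k := by
  intro t ht g hg
  obtain ⟨g', hg'⟩ := Ap_ex X (h ⟨_, ht⟩)
  obtain ⟨n, hn, c, hc, h1⟩ := hk t ht g' hg'
  have h2 : Ap Y (h ⟨_, ht⟩) g' := Ap_le hXY hg'
  have h3 : g * g'⁻¹ ∈ Y.N := by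
    have h4 : QuotientGroup.mk' Y.N g = QuotientGroup.mk' Y.N g' := hg.symm.trans h2
    rw [← QuotientGroup.eq_one_iff]
    show QuotientGroup.mk' Y.N (g * g'⁻¹) = 1
    rw [map_mul, map_inv, h4, mul_inv_cancel]
  refine ⟨g * g'⁻¹ * n, mul_mem h3 (hXY hn), c, hc, ?_⟩
  calc g * k = g * g'⁻¹ * (g' * k) := by group
    _ = g * g'⁻¹ * (n * k * c) := by rw [h1]
    _ = _ := by group

end Main

/-- PIECE NL Ppair -/
theorem p_Ppair (hfx : P_fx) (hpb : P_pb) (hcpt : C_cpt) (hbor : C_bor) (ho : C_o) (hu : C_u)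
    (hlv : P_lv) : P_pair := by
  intro a b M₀ m H D hD h C E hC e he
  have hneg := H.neg
  obtain ⟨hinj, hreg, -, -, hdec⟩ := ho a b hneg
  -- the limit
  obtain ⟨k, hk⟩ := hcpt a b (fun X => {x | ∃ g, QuotientGroup.mk' X.N g = x ∧ Ppair_P h e X g})
    (fun X => by
      obtain ⟨g, hg⟩ := Ppair_ne h e X (hfx a b M₀ m H D hD h C E hC X e he)
      exact ⟨_, g, rfl, hg⟩)
    (fun X Y hXY x hx => by
      obtain ⟨g, rfl, hg⟩ := hx
      exact ⟨g, rfl, Ppair_cp h e X Y hXY hg⟩)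
  have hkey : ∀ (t : Qf a b ℤ) (ht : tv e t ∈ D), ∃ s : OH a b,
      h ⟨_, ht⟩ = k * uH s * k⁻¹ := by
    intro t ht
    set p := h ⟨_, ht⟩ with hp
    have h1 : k⁻¹ * p * k ∈ clH (Bor a b) := by
      intro X
      obtain ⟨g, hg, hgP⟩ := hk X
      obtain ⟨g', hg'⟩ := Ap_ex X p
      obtain ⟨n, hn, c, hc, h2⟩ := hgP t ht g' hg'
      refine ⟨c, hc, ?_⟩
      have h3 : QuotientGroup.mk' X.N n = 1 := (QuotientGroup.eq_one_iff _).2 hn
      have h4 := congrArg (QuotientGroup.mk' X.N) h2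
      rw [map_mul, map_mul, map_mul, h3, one_mul, hg, ← show pr X p = _ from hg'] at h4
      show pr X (k⁻¹ * p * k) = _
      rw [map_mul, map_mul, map_inv, mul_assoc, h4, inv_mul_cancel_left]
    obtain ⟨u, v, huv, s, hs⟩ := (hbor a b hneg _).1 h1
    have h2 : Matrix.trace (piH a b (k⁻¹ * p * k)).val = 2 := by
      rw [map_mul, map_mul, map_inv, Ppair_trc, hp, hC.lft, Matrix.trace_mul_cycle, hC.inv',
        one_mul, Ppair_trt]
    rw [hs, map_mul, piH_iH, (hu a b).2.2.1, Ppair_trd, ← map_add] at h2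
    have h3 : u + v = 2 := hinj (by rw [h2, map_ofNat])
    obtain ⟨rfl, rfl⟩ := Ppair_one hneg huv h3
    rw [Ppair_dg, map_one, one_mul] at hs
    refine ⟨s, ?_⟩
    rw [← hs]
    group
  -- the vectors
  set f := (piH a b k).val.mulVec ![1, 0] with hf
  set ce := C.mulVec (eH e) with hce
  have hstar : ∀ (t : Qf a b ℤ) (ht : tv e t ∈ D) (s : OH a b), h ⟨_, ht⟩ = k * uH s * k⁻¹ →
      ∀ x, (C.det * (s * CG.om f x)) • f = (jH a b t * CG.om ce x) • ce := by
    intro t ht s hs x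
    have h1 : piH a b (h ⟨_, ht⟩) = tv f s := by
      rw [hs, map_mul, map_mul, map_inv, (hu a b).2.2.1, eU_eq_tv, (p_Vtv _ _ s s).2.2.1]
    have h2 := ((hpb a b hneg D h C E hC).2 e t ht).2 x
    rw [h1, (p_Vtv _ f s s).1, smul_add, smul_smul] at h2
    exact add_left_cancel h2
  obtain ⟨g, hg⟩ := he
  have h1 : CG.om e (colG g 1) = 1 := by
    rw [← hg]
    have := g.2
    rw [Matrix.det_fin_two] at this
    simp only [CG.om, colG]
    linear_combination this
  have h2 : CG.om (eH e) (eH (colG g 1)) = 1 := by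
    have h3 := congrArg (jH a b) h1
    rw [map_one] at h3
    rw [← h3]
    simp only [CG.om, eH, map_sub, map_mul]
  have hdet : C.det * E.det = 1 := by
    rw [← Matrix.det_mul, hC.inv, Matrix.det_one]
  set e2 := E.det • C.mulVec (eH (colG g 1)) with he2
  have h3 : CG.om ce e2 = 1 := by
    rw [he2, Ppair_oms', hce, Ppair_omC, h2, mul_one, mul_comm, hdet]
  have h4 : CG.om ce f = 0 := by
    obtain ⟨N, hN, hNt⟩ := hlv a b D hD
    obtain ⟨s, hs⟩ := hkey _ (hNt e 1)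
    have h5 := hstar _ (hNt e 1) s hs f
    rw [Ppair_om0, mul_zero, mul_zero, zero_smul] at h5
    have h6 := congrArg (fun y => CG.om y e2) h5
    rw [Ppair_oms, h3, mul_one] at h6
    refine hreg ((N : Qf a b ℤ) * 1) _ ?_ ?_
    · rw [mul_one]
      intro h7
      have h8 := congrArg QuadraticAlgebra.re h7
      simp at h8
      exact hN h8
    · rw [← h6]
      simp [CG.om]
  have h5 : f = CG.om f e2 • ce := by
    have h6 := hdec (OH a b) ce e2 f h3
    rw [h4, zero_smul, add_zero] at h6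
    exact h6
  refine ⟨k, CG.om f e2, ?_, h5, fun t ht => ?_⟩
  · have h6 : CG.om f ((piH a b k).val.mulVec ![0, 1]) = 1 := by
      rw [hf, (p_Vtv _ ![1, 0] 0 0).2.2.2.2.2]
      simp [CG.om]
    rw [h5, Ppair_oms] at h6
    exact IsUnit.of_mul_eq_one _ h6
  · obtain ⟨s, hs⟩ := hkey t ht
    refine ⟨s, hs, ?_⟩
    have h6 := hstar t ht s hs e2
    have h7 := congrArg (fun y => CG.om y e2) h6
    rw [Ppair_oms, Ppair_oms, h3] at h7
    linear_combination h7

end

end Pool.Agent.F8.NL
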