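import Pool.Agent.Lib.MP_305fdd_al.F8.NL.StmP

/-! Piece `Pth` of project NL: the class `Θ`. -/

set_option autoImplicit false

namespace Pool.Agent.F8.NL

open Pool.Agent.F8.CG Pool.Agent.F8.BG Pool.Agent.MP_305fdd_al Pool.Agent.Lib.MP_305fdd_al
  Pool.Agent.F8
open scoped QuadraticAlgebra ComplexConjugate

noncomputable section

/-! ### The standard crossed homomorphism -/

section Std

variable {R : Type} [CommRing R]

/-- the polynomial `ι ((s - X)^(m + 1) - (-X)^(m + 1))` -/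
private def Pth_T (m : ℕ) (ι s : R) : Polynomial R :=
  Polynomial.C (ι * (-1) ^ (m + 1)) *
    ((Polynomial.X + Polynomial.C (-s)) ^ (m + 1) - Polynomial.X ^ (m + 1))

private theorem Pth_T_coeff (m : ℕ) (ι s : R) (k : ℕ) : (Pth_T m ι s).coeff k =
    ι * (-1) ^ (m + 1) * ((-s) ^ (m + 1 - k) * ((m + 1).choose k : R) -
      if k = m + 1 then 1 else 0) := by
  unfold Pth_T
  rw [Polynomial.coeff_C_mul, Polynomial.coeff_sub, Polynomial.coeff_X_add_C_pow,
    Polynomial.coeff_X_pow]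

private theorem Pth_T_deg (m : ℕ) (ι s : R) : (Pth_T m ι s).natDegree < m + 1 := by
  rw [Nat.lt_succ_iff, Polynomial.natDegree_le_iff_coeff_eq_zero]
  intro k hk
  rw [Pth_T_coeff]
  rcases Nat.lt_or_ge (m + 1) k with h | h
  · rw [Nat.choose_eq_zero_of_lt h, if_neg (by omega)]
    simp
  · have h1 : k = m + 1 := by omega
    subst h1
    simp

private theorem Pth_T_comp (m : ℕ) (ι s t : R) : Pth_T m ι (s + t) =
    Pth_T m ι s + (Pth_T m ι t).comp (Polynomial.X + Polynomial.C (-s)) := by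
  unfold Pth_T
  simp only [Polynomial.mul_comp, Polynomial.C_comp, Polynomial.sub_comp, Polynomial.pow_comp,
    Polynomial.add_comp, Polynomial.X_comp, neg_add, map_add]
  ring

/-- the standard crossed homomorphism -/
private def Pth_std (m : ℕ) (ι s : R) : Fin (m + 1) → R := fun i => (Pth_T m ι s).coeff i

private theorem Pth_eU_inv (s : R) : ((eU s : SL2 R)⁻¹).val = !![1, -s; 0, 1] := by
  rw [Matrix.SpecialLinearGroup.SL2_inv_expl]
  show !![(1 : R), -s; -0, 1] = _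
  rw [neg_zero]

private theorem Pth_std_add (m : ℕ) (ι s t : R) : Pth_std m ι (s + t) =
    Pth_std m ι s + (sm m (eU s)).mulVec (Pth_std m ι t) := by
  funext i
  rw [Pi.add_apply]
  unfold Pth_std
  rw [Pth_T_comp, Polynomial.coeff_add]
  congr 1
  rw [Polynomial.comp, Polynomial.eval₂_eq_sum_range' _ (Pth_T_deg m ι t), Polynomial.finsetSum_coeff,
    Matrix.mulVec, dotProduct, Finset.sum_range]
  refine Finset.sum_congr rfl fun j _ => ?_
  rw [Polynomial.coeff_C_mul, mul_comm]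
  congr 1
  show _ = (sbp m ((eU s : SL2 R)⁻¹).val j).coeff i
  rw [Pth_eU_inv]
  unfold sbp
  congr 1
  simp

private theorem Pth_std_zero (m : ℕ) (ι : R) : Pth_std m ι 0 = 0 := by
  funext i
  show (Pth_T m ι 0).coeff i = 0
  unfold Pth_T
  simp

private theorem Pth_last (m : ℕ) (q : Fin (m + 1) → R) :
    evm m q ![1, 0] = q (Fin.last m) := by
  unfold evm
  rw [Finset.sum_eq_single (Fin.last m)]
  · simp
  · intro i _ hi
    have h : (i : ℕ) < m := by
      rcases lt_or_eq_of_le (Nat.lt_succ_iff.1 i.2) with h | h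
      · exact h
      · exact absurd (Fin.ext h) hi
    have h2 : m - (i : ℕ) ≠ 0 := by omega
    simp [h2]
  · intro h
    exact absurd (Finset.mem_univ _) h

private theorem Pth_std_ev (m : ℕ) (ι s : R) (hι : ι * ((m : R) + 1) = 1) :
    evm m (Pth_std m ι s) ![1, 0] = (-1) ^ m * s := by
  rw [Pth_last]
  show (Pth_T m ι s).coeff m = _
  rw [Pth_T_coeff, Nat.choose_succ_self_right, if_neg (by omega), show m + 1 - m = 1 by omega]
  push_cast
  linear_combination ((-1) ^ m * s) * hι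

private theorem Pth_mv (M : Matrix (Fin 2) (Fin 2) R) (v : Fin 2 → R)
    (i : Fin 2) : M.mulVec v i = M i 0 * v 0 + M i 1 * v 1 := by
  rw [Matrix.mulVec_eq_sum]
  simp [Fin.sum_univ_two, mul_comm]

/-- the matrix with the columns `e`, `f` -/
private def Pth_g (e f : Fin 2 → R) (h : CG.om e f = 1) : SL2 R :=
  AB.mx (e 0) (f 0) (e 1) (f 1) (by
    unfold CG.om at h
    linear_combination h)

/-- the coordinate of `x` -/
private def Pth_s (f : Fin 2 → R) (x : SL2 R) : R := CG.om (x.val.mulVec f) f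

private theorem Pth_xf {e f : Fin 2 → R} (h : CG.om e f = 1) {x : SL2 R}
    (hx : x.val.mulVec e = e) : x.val.mulVec f = f + Pth_s f x • e := by
  have h1 : CG.om e (x.val.mulVec f) = 1 := by
    have h2 := (p_Vtv R e 0 0).2.2.2.2.2 x f
    rw [hx, h] at h2
    exact h2
  unfold Pth_s
  generalize x.val.mulVec f = u at h1 ⊢
  unfold CG.om at h1 h ⊢
  ext i
  rw [Pi.add_apply, Pi.smul_apply, smul_eq_mul]
  fin_cases i
  · show u 0 = f 0 + (u 0 * f 1 - u 1 * f 0) * e 0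
    linear_combination (-u 0) * h + f 0 * h1
  · show u 1 = f 1 + (u 0 * f 1 - u 1 * f 0) * e 1
    linear_combination (-u 1) * h + f 1 * h1

private theorem Pth_xg {e f : Fin 2 → R} (h : CG.om e f = 1) {x : SL2 R}
    (hx : x.val.mulVec e = e) : x * Pth_g e f h = Pth_g e f h * eU (Pth_s f x) := by
  have h1 := Pth_xf h hx
  generalize Pth_s f x = s at h1 ⊢
  apply Subtype.ext
  show x.val * !![e 0, f 0; e 1, f 1] = !![e 0, f 0; e 1, f 1] * !![1, s; 0, 1]
  have h2 := congrFun hx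
  have h3 := congrFun h1
  ext i j
  rw [Matrix.mul_apply, Matrix.mul_apply, Fin.sum_univ_two, Fin.sum_univ_two]
  have h2' := h2 i
  have h3' := h3 i
  rw [Pth_mv] at h2' h3'
  rw [Pi.add_apply, Pi.smul_apply, smul_eq_mul] at h3'
  fin_cases j
  · show x.val i 0 * e 0 + x.val i 1 * e 1 = _ * 1 + _ * 0
    rw [h2', mul_zero, add_zero, mul_one]
    fin_cases i <;> rfl
  · show x.val i 0 * f 0 + x.val i 1 * f 1 = _ * s + _ * 1
    rw [h3']
    fin_cases i
    · show f 0 + s * e 0 = e 0 * s + f 0 * 1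
      ring
    · show f 1 + s * e 1 = e 1 * s + f 1 * 1
      ring

private theorem Pth_s_mul {e f : Fin 2 → R} (h : CG.om e f = 1) {x y : SL2 R}
    (hx : x.val.mulVec e = e) (hy : y.val.mulVec e = e) :
    Pth_s f (x * y) = Pth_s f x + Pth_s f y := by
  have h1 : (x * y).val.mulVec f = x.val.mulVec (y.val.mulVec f) := by
    rw [Matrix.mulVec_mulVec]
    rfl
  have h2 : (x * y).val.mulVec f = f + (Pth_s f x + Pth_s f y) • e := by
    rw [h1, Pth_xf h hy, Matrix.mulVec_add, Matrix.mulVec_smul, hx, Pth_xf h hx, add_smul]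
    abel
  have h3 : Pth_s f (x * y) = CG.om ((x * y).val.mulVec f) f := rfl
  rw [h3, h2]
  unfold CG.om at h ⊢
  simp only [Pi.add_apply, Pi.smul_apply, smul_eq_mul]
  linear_combination (Pth_s f x + Pth_s f y) * h

/-- the crossed homomorphism on the stabiliser of `e` -/
private def Pth_th (m : ℕ) (ι : R) {e f : Fin 2 → R} (h : CG.om e f = 1) (x : SL2 R) :
    Fin (m + 1) → R := (sm m (Pth_g e f h)).mulVec (Pth_std m ι (Pth_s f x))

private theorem Pth_th_mul (m : ℕ) (ι : R) {e f : Fin 2 → R} (h : CG.om e f = 1) {x y : SL2 R}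
    (hx : x.val.mulVec e = e) (hy : y.val.mulVec e = e) :
    Pth_th m ι h (x * y) = Pth_th m ι h x + (sm m x).mulVec (Pth_th m ι h y) := by
  unfold Pth_th
  rw [Pth_s_mul h hx hy, Pth_std_add, Matrix.mulVec_add, Matrix.mulVec_mulVec, Matrix.mulVec_mulVec,
    ← map_mul, ← map_mul, Pth_xg h hx]

private theorem Pth_th_one (m : ℕ) (ι : R) {e f : Fin 2 → R} (h : CG.om e f = 1) :
    Pth_th m ι h 1 = 0 := by
  unfold Pth_th
  have h1 : Pth_s f (1 : SL2 R) = 0 := by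
    unfold Pth_s
    rw [Matrix.SpecialLinearGroup.coe_one, Matrix.one_mulVec]
    unfold CG.om
    ring
  rw [h1, Pth_std_zero, Matrix.mulVec_zero]

private theorem Pth_th_ev (m : ℕ) (ι : R) (hι : ι * ((m : R) + 1) = 1) {e f : Fin 2 → R}
    (h : CG.om e f = 1) (x : SL2 R) : evm m (Pth_th m ι h x) e = (-1) ^ m * Pth_s f x := by
  unfold Pth_th
  rw [evm_sm, ← Pth_std_ev m ι _ hι]
  congr 1
  have h1 : e = (Pth_g e f h).val.mulVec ![1, 0] := by
    ext i
    rw [Pth_mv]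
    fin_cases i
    · show e 0 = e 0 * 1 + f 0 * 0
      ring
    · show e 1 = e 1 * 1 + f 1 * 0
      ring
  refine (congrArg (fun u => ((Pth_g e f h)⁻¹).val.mulVec u) h1).trans ?_
  show ((Pth_g e f h)⁻¹).val.mulVec ((Pth_g e f h).val.mulVec ![1, 0]) = ![1, 0]
  rw [Matrix.mulVec_mulVec, ← Matrix.SpecialLinearGroup.coe_mul, inv_mul_cancel,
    Matrix.SpecialLinearGroup.coe_one, Matrix.one_mulVec]

private theorem Pth_s_tv {e f : Fin 2 → R} (h : CG.om e f = 1) (t : R) :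
    Pth_s f (tv e t) = t := by
  unfold Pth_s
  rw [(p_Vtv R e 0 t).1 f, h]
  unfold CG.om at h ⊢
  simp only [Pi.add_apply, Pi.smul_apply, smul_eq_mul]
  linear_combination t * h

end Std

/-! ### The main result -/

section Main

variable {a b : ℤ}

private theorem Pth_tV {L : Type} [CommRing L] (m : ℕ) (g : Qf a b ℤ →+* Qf a b ℤ)
    (φ : Qf a b ℤ →+* L) (x : GQ a b) : (tV m g x).map φ = tV m (φ.comp g) x := by
  show (sb m ((SLm g x)⁻¹).val).map φ = sb m ((SLm (φ.comp g) x)⁻¹).val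
  rw [← sb_map, ← map_inv, ← map_inv]
  rfl

private theorem Pth_tM {L : Type} [CommRing L] (m : ℕ) (φ : Qf a b ℤ →+* L) (x : GQ a b)
    (u : Fin (m + 1) × Fin (1 + 1) → Qf a b ℤ) (i : Fin (m + 1) × Fin (1 + 1)) :
    φ ((tMO a b m x).mulVec u i) =
      (tM m 1 φ (φ.comp (cjq a b ℤ)) x).mulVec (fun j => φ (u j)) i := by
  rw [Matrix.mulVec, dotProduct, map_sum, Matrix.mulVec, dotProduct]
  refine Finset.sum_congr rfl fun j _ => ?_
  rw [map_mul]
  congr 1
  show φ (tV m (RingHom.id _) x i.1 j.1 * tV 1 (cjq a b ℤ) x i.2 j.2) =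
    tV m φ x i.1 j.1 * tV 1 (φ.comp (cjq a b ℤ)) x i.2 j.2
  rw [map_mul, ← Pth_tV 1 (cjq a b ℤ) φ x]
  have h := Pth_tV m (RingHom.id _) φ x
  rw [RingHom.comp_id] at h
  rw [← h]
  rfl

private theorem Pth_fix {L : Type} [CommRing L] (φ : Qf a b ℤ →+* L) (x : GQ a b)
    (e : Fin 2 → Qf a b ℤ) (h : ∀ i, φ (x.val.mulVec e i) = φ (e i)) :
    (SLm φ x).val.mulVec (fun i => φ (e i)) = fun i => φ (e i) := by
  ext i
  rw [← h i, Pth_mv, Pth_mv, map_add, map_mul, map_mul]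
  rfl

private theorem Pth_om {L : Type} [CommRing L] (φ : Qf a b ℤ →+* L) (e f : Fin 2 → Qf a b ℤ) :
    CG.om (fun i => φ (e i)) (fun i => φ (f i)) = φ (CG.om e f) := by
  unfold CG.om
  rw [map_sub, map_mul, map_mul]

private theorem Pth_tvm {L : Type} [CommRing L] (φ : Qf a b ℤ →+* L) (e : Fin 2 → Qf a b ℤ)
    (s : Qf a b ℤ) (x : GQ a b) (h : ∀ i j, φ (x.val i j) = φ ((tv e s).val i j)) :
    SLm φ x = tv (fun i => φ (e i)) (φ s) := by
  apply Subtype.ext
  refine Matrix.ext fun i j => ?_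
  refine (h i j).trans ?_
  show φ ((!![1 - s * e 0 * e 1, s * e 0 ^ 2; -(s * e 1 ^ 2), 1 + s * e 0 * e 1] :
    Matrix (Fin 2) (Fin 2) (Qf a b ℤ)) i j) = (!![1 - φ s * φ (e 0) * φ (e 1), φ s * φ (e 0) ^ 2;
    -(φ s * φ (e 1) ^ 2), 1 + φ s * φ (e 0) * φ (e 1)] : Matrix (Fin 2) (Fin 2) L) i j
  fin_cases i <;> fin_cases j <;> simp

theorem p_Pth : P_th := by
  intro a b _ m hm q hqf q' hq hnd v hv π _ hπ ê hê
  obtain ⟨f, hf⟩ := hê
  subst hq
  set φ : Qf a b ℤ →+* ZMod q' := (PadicInt.toZMod).comp (v.comp (jH a b)) with hφ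
  have hdv : ∀ x : Qf a b ℤ, π ∣ x ↔ φ x = 0 := by
    intro x
    rw [hπ x]
    show _ ↔ PadicInt.toZMod (v (jH a b x)) = 0
    rw [← RingHom.mem_ker, PadicInt.ker_toZMod, PadicInt.maximalIdeal_eq_span_p,
      Ideal.mem_span_singleton]
  set φ' : Qf a b ℤ →+* ZMod q' := φ.comp (cjq a b ℤ) with hφ'
  -- congruences modulo `q`
  have hK : ∀ (ψ : Qf a b ℤ →+* ZMod q') (x y : Qf a b ℤ), Qfm a b (Int.castRingHom (ZMod q')) x =
      Qfm a b (Int.castRingHom (ZMod q')) y → ψ x = ψ y := by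
    intro ψ x y h
    obtain ⟨z, hz⟩ := Qfm_dvd h
    rw [hz, map_add, map_mul, map_natCast, ZMod.natCast_self, zero_mul, add_zero]
  have hK2 : ∀ (ψ : Qf a b ℤ →+* ZMod q') (x y : Qf a b ℤ), (((q' : ℕ)) : Qf a b ℤ) ∣ x - y →
      ψ x = ψ y := by
    intro ψ x y h
    obtain ⟨z, hz⟩ := h
    have h1 : x = y + ((q' : ℕ) : Qf a b ℤ) * z := by
      rw [← hz]
      ring
    rw [h1, map_add, map_mul, map_natCast, ZMod.natCast_self, zero_mul, add_zero]
  -- lifts
  set e₀ : Fin 2 → Qf a b ℤ := fun i => lfH q' (ê i) with he₀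
  set f₀ : Fin 2 → Qf a b ℤ := fun i => lfH q' (f i) with hf₀
  have he1 : ∀ i, Qfm a b (Int.castRingHom (ZMod q')) (e₀ i) = rH a b q' (ê i) :=
    fun i => lfH_rH q' _
  have hf1 : ∀ i, Qfm a b (Int.castRingHom (ZMod q')) (f₀ i) = rH a b q' (f i) :=
    fun i => lfH_rH q' _
  have hom : ∀ ψ : Qf a b ℤ →+* ZMod q', CG.om (fun i => ψ (e₀ i)) (fun i => ψ (f₀ i)) = 1 := by
    intro ψ
    rw [Pth_om]
    have h1 : Qfm a b (Int.castRingHom (ZMod q')) (CG.om e₀ f₀) =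
        Qfm a b (Int.castRingHom (ZMod q')) 1 := by
      rw [map_one]
      have h2 := congrArg (rH a b q') hf
      rw [map_one] at h2
      rw [← h2]
      unfold CG.om
      rw [map_sub, map_mul, map_mul, map_sub, map_mul, map_mul, he1, he1, hf1, hf1]
    rw [hK ψ _ _ h1, map_one]
  have hst : ∀ (ψ : Qf a b ℤ →+* ZMod q'), ∀ x ∈ StV q' ê,
      (SLm ψ x).val.mulVec (fun i => ψ (e₀ i)) = fun i => ψ (e₀ i) := by
    intro ψ x hx
    apply Pth_fix
    intro i
    apply hK ψ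
    have h1 := congrFun (show (rdq a b q' x).val.mulVec (fun i => rH a b q' (ê i)) =
      fun i => rH a b q' (ê i) from hx) i
    rw [Pth_mv] at h1
    rw [Pth_mv, map_add, map_mul, map_mul, he1, he1, he1]
    exact h1
  -- the crossed homomorphisms
  have hne : ∀ k : ℕ, ¬ (q' : ℕ) ∣ k → ((k : ℕ) : ZMod q') ≠ 0 := by
    intro k hk h
    exact hk ((ZMod.natCast_eq_zero_iff _ _).1 h)
  have hι : (((m + 1 : ℕ) : ZMod q')⁻¹) * ((m : ZMod q') + 1) = 1 := by
    have h1 : ((m + 1 : ℕ) : ZMod q') ≠ 0 := hne _ fun h => hnd (h.mul_left 2)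
    have h2 : ((m : ZMod q') + 1) = ((m + 1 : ℕ) : ZMod q') := by push_cast; rfl
    rw [h2]
    exact inv_mul_cancel₀ h1
  have hι' : (((2 : ℕ) : ZMod q')⁻¹) * (((1 : ℕ) : ZMod q') + 1) = 1 := by
    have h1 : ((2 : ℕ) : ZMod q') ≠ 0 := hne _ fun h => hnd (h.mul_right _)
    have h2 : (((1 : ℕ) : ZMod q') + 1) = ((2 : ℕ) : ZMod q') := by
      push_cast
      ring
    rw [h2]
    exact inv_mul_cancel₀ h1
  set ι : ZMod q' := (((m + 1 : ℕ) : ZMod q')⁻¹) with hιd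
  set ι' : ZMod q' := (((2 : ℕ) : ZMod q')⁻¹) with hιd'
  let th : GQ a b → Fin (m + 1) → ZMod q' := fun x => Pth_th m ι (hom φ) (SLm φ x)
  let th' : GQ a b → Fin (1 + 1) → ZMod q' := fun x => Pth_th 1 ι' (hom φ') (SLm φ' x)
  have hth : ∀ x ∈ StV q' ê, ∀ y ∈ StV q' ê, th (x * y) = th x + (tV m φ x).mulVec (th y) := by
    intro x hx y hy
    show Pth_th m ι (hom φ) (SLm φ (x * y)) = Pth_th m ι (hom φ) (SLm φ x) +
      (sm m (SLm φ x)).mulVec (Pth_th m ι (hom φ) (SLm φ y))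
    rw [map_mul]
    exact Pth_th_mul m ι (hom φ) (hst φ x hx) (hst φ y hy)
  have hth' : ∀ x ∈ StV q' ê, ∀ y ∈ StV q' ê,
      th' (x * y) = th' x + (tV 1 φ' x).mulVec (th' y) := by
    intro x hx y hy
    show Pth_th 1 ι' (hom φ') (SLm φ' (x * y)) = Pth_th 1 ι' (hom φ') (SLm φ' x) +
      (sm 1 (SLm φ' x)).mulVec (Pth_th 1 ι' (hom φ') (SLm φ' y))
    rw [map_mul]
    exact Pth_th_mul 1 ι' (hom φ') (hst φ' x hx) (hst φ' y hy)
  let cb : GQ a b → GQ a b → Fin (m + 1) × Fin (1 + 1) → ZMod q' := fun x y =>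
    tens (th x) ((tV 1 φ' x).mulVec (th' y))
  let sec : ZMod q' → Qf a b ℤ := fun r => ((r.val : ℕ) : Qf a b ℤ)
  have hsec : ∀ r, φ (sec r) = r := by
    intro r
    show φ ((r.val : ℕ) : Qf a b ℤ) = r
    rw [map_natCast, ZMod.natCast_zmod_val]
  have hred : ∀ (ψ : Qf a b ℤ →+* ZMod q') (g n : GQ a b), n ∈ (NFG a b q').N →
      SLm ψ (g * n) = SLm ψ g := by
    intro ψ g n hn
    rw [map_mul]
    have h1 : SLm ψ n = 1 := by
      apply Subtype.ext
      refine Matrix.ext fun i j => ?_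
      have h2 : rdq a b q' n = 1 := hn
      have h3 := congrFun (congrFun (congrArg Subtype.val h2) i) j
      have h4 : Qfm a b (Int.castRingHom (ZMod q')) (n.val i j) =
          Qfm a b (Int.castRingHom (ZMod q')) ((1 : Matrix (Fin 2) (Fin 2) (Qf a b ℤ)) i j) := by
        refine Eq.trans (show _ = (1 : Matrix (Fin 2) (Fin 2) (Qf a b (ZMod q'))) i j from h3) ?_
        fin_cases i <;> fin_cases j <;> simp
      show ψ (n.val i j) = (1 : Matrix (Fin 2) (Fin 2) (ZMod q')) i j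
      rw [hK ψ _ _ h4]
      fin_cases i <;> fin_cases j <;> simp
    rw [h1, mul_one]
  refine ⟨fun x y i => sec (cb x y i), ?_, ?_, ?_, ?_⟩
  · intro x hx y hy z hz i
    rw [hdv]
    simp only [Pi.add_apply, Pi.sub_apply]
    rw [map_sub, map_add, map_sub, Pth_tM, hsec, hsec, hsec]
    have h1 : (fun j => φ (sec (cb y z j))) = cb y z := by
      funext j
      exact hsec _
    rw [h1]
    show (kr (tV m φ) (tV 1 φ') x).mulVec (tens (th y) ((tV 1 φ' y).mulVec (th' z))) i -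
      tens (th (x * y)) ((tV 1 φ' (x * y)).mulVec (th' z)) i +
      tens (th x) ((tV 1 φ' x).mulVec (th' (y * z))) i -
      tens (th x) ((tV 1 φ' x).mulVec (th' y)) i = 0
    rw [kr_tens, hth x hx y hy, hth' y hy z hz, Matrix.mulVec_add, Matrix.mulVec_mulVec,
      ← map_mul]
    unfold tens
    simp only [Pi.add_apply]
    ring
  · intro g h n hn n' hn' i
    have h1 : cb (g * n) (h * n') = cb g h := by
      show tens (Pth_th m ι (hom φ) (SLm φ (g * n))) ((sm 1 (SLm φ' (g * n))).mulVec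
        (Pth_th 1 ι' (hom φ') (SLm φ' (h * n')))) = tens (Pth_th m ι (hom φ) (SLm φ g))
        ((sm 1 (SLm φ' g)).mulVec (Pth_th 1 ι' (hom φ') (SLm φ' h)))
      rw [hred φ g n hn, hred φ' g n hn, hred φ' h n' hn']
    show π ∣ sec (cb (g * n) (h * n') i) - sec (cb g h i)
    rw [h1, sub_self]
    exact dvd_zero _
  · intro g i
    rw [hdv, hsec]
    show tens (th g) ((tV 1 φ' g).mulVec (Pth_th 1 ι' (hom φ') (SLm φ' 1))) i = 0
    rw [map_one, Pth_th_one, Matrix.mulVec_zero]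
    show _ * (0 : ZMod q') = 0
    rw [mul_zero]
  · intro γ₁ h₁ γ₂ h₂ e' s₁ s₂ he' hg₁ hg₂
    rw [hdv, map_add]
    have hee : ∀ (ψ : Qf a b ℤ →+* ZMod q') (i), ψ (e' i) = ψ (e₀ i) := fun ψ i =>
      hK ψ _ _ ((he' i).symm.trans (he1 i).symm)
    have hee2 : ∀ (ψ : Qf a b ℤ →+* ZMod q'), (fun i => ψ (e' i)) = fun i => ψ (e₀ i) :=
      fun ψ => funext (hee ψ)
    have hsv : ∀ (ψ : Qf a b ℤ →+* ZMod q') (γ : GQ a b) (s : Qf a b ℤ),
        (∀ i j, (((q' : ℕ)) : Qf a b ℤ) ∣ γ.val i j - (tv e' s).val i j) →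
        Pth_s (fun i => ψ (f₀ i)) (SLm ψ γ) = ψ s := by
      intro ψ γ s h
      rw [Pth_tvm ψ e' s γ fun i j => hK2 ψ _ _ (h i j), hee2 ψ]
      exact Pth_s_tv (hom ψ) _
    have hev : ∀ (γ γ' : GQ a b) (s s' : Qf a b ℤ), γ ∈ StV q' ê →
        (∀ i j, (((q' : ℕ)) : Qf a b ℤ) ∣ γ.val i j - (tv e' s).val i j) →
        (∀ i j, (((q' : ℕ)) : Qf a b ℤ) ∣ γ'.val i j - (tv e' s').val i j) →
        evM m 1 (cb γ γ') (fun i => φ (e₀ i)) (fun i => φ' (e₀ i)) = -(φ s * φ' s') := by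
      intro γ γ' s s' hγ h h'
      show evM m 1 (tens (th γ) ((tV 1 φ' γ).mulVec (th' γ'))) _ _ = _
      rw [evM_tens]
      have h3 : evm m (th γ) (fun i => φ (e₀ i)) = φ s := by
        show evm m (Pth_th m ι (hom φ) (SLm φ γ)) _ = _
        rw [Pth_th_ev m ι hι, hm.neg_one_pow, one_mul]
        exact hsv φ γ s h
      have h4 : evm 1 ((tV 1 φ' γ).mulVec (th' γ')) (fun i => φ' (e₀ i)) = -φ' s' := by
        show evm 1 ((sm 1 (SLm φ' γ)).mulVec (Pth_th 1 ι' (hom φ') (SLm φ' γ'))) _ = _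
        rw [evm_sm]
        have h5 : ((SLm φ' γ)⁻¹).val.mulVec (fun i => φ' (e₀ i)) = fun i => φ' (e₀ i) := by
          conv_lhs => rw [← hst φ' γ hγ]
          rw [Matrix.mulVec_mulVec, ← Matrix.SpecialLinearGroup.coe_mul, inv_mul_cancel,
            Matrix.SpecialLinearGroup.coe_one, Matrix.one_mulVec]
        rw [h5, Pth_th_ev 1 ι' hι', pow_one, neg_one_mul]
        exact congrArg Neg.neg (hsv φ' γ' s' h')
      rw [h3, h4]
      ring
    have hmap : ∀ u : Fin (m + 1) × Fin (1 + 1) → Qf a b ℤ,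
        φ (evM m 1 u e' (fun i => cjq a b ℤ (e' i))) =
        evM m 1 (fun i => φ (u i)) (fun i => φ (e₀ i)) (fun i => φ' (e₀ i)) := by
      intro u
      rw [← hee2 φ, ← hee2 φ']
      unfold evM
      rw [map_sum]
      refine Finset.sum_congr rfl fun p _ => ?_
      rw [map_mul, map_mul, map_mul, map_mul, map_pow, map_pow, map_pow, map_pow]
      rfl
    rw [hmap]
    have h6 : (fun i => φ (((fun i => sec (cb γ₁ γ₂ i)) - fun i => sec (cb γ₂ γ₁ i)) i)) =
        cb γ₁ γ₂ - cb γ₂ γ₁ := by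
      funext i
      rw [Pi.sub_apply, Pi.sub_apply, map_sub, hsec, hsec]
    rw [h6]
    have h7 : evM m 1 (cb γ₁ γ₂ - cb γ₂ γ₁) (fun i => φ (e₀ i)) (fun i => φ' (e₀ i)) =
        evM m 1 (cb γ₁ γ₂) (fun i => φ (e₀ i)) (fun i => φ' (e₀ i)) -
        evM m 1 (cb γ₂ γ₁) (fun i => φ (e₀ i)) (fun i => φ' (e₀ i)) := by
      unfold evM
      rw [← Finset.sum_sub_distrib]
      refine Finset.sum_congr rfl fun p _ => ?_
      rw [Pi.sub_apply, sub_mul]
    rw [h7, hev γ₁ γ₂ s₁ s₂ h₁ hg₁ hg₂, hev γ₂ γ₁ s₂ s₁ h₂ hg₂ hg₁, map_sub, map_mul, map_mul]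
    show -(φ s₁ * φ' s₂) - -(φ s₂ * φ' s₁) + (φ s₁ * φ' s₂ - φ s₂ * φ' s₁) = 0
    ring

end Main

end

end Pool.Agent.F8.NL
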