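import Pool.Agent.Lib.MP_305fdd_al.F8.NL.StmP
import Pool.Agent.Lib.MP_305fdd_al.F8.NL.DefsT

/-! # MP_305fdd_al, NL: the torus lemma -/

set_option autoImplicit false

namespace Pool.Agent.F8.NL

open Pool.Agent.F8.CG Pool.Agent.F8.BG Pool.Agent.MP_305fdd_al Pool.Agent.Lib.MP_305fdd_al
  Pool.Agent.F8
open scoped QuadraticAlgebra ComplexConjugate Kronecker

noncomputable section

private theorem Ptor_evM_map {R S : Type} [CommRing R] [CommRing S] (f : R →+* S) (m n : ℕ)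
    (P : Fin (m + 1) × Fin (n + 1) → R) (e e' : Fin 2 → R) :
    f (evM m n P e e') = evM m n (fun i => f (P i)) (fun i => f (e i)) (fun i => f (e' i)) := by
  unfold evM
  rw [map_sum]
  exact Finset.sum_congr rfl fun i _ => by simp only [map_mul, map_pow]

/-- the intersection of two normal subgroups -/
private def Ptor_inf {a b : ℤ} (X Y : NF a b) : NF a b where
  N := X.N ⊓ Y.N
  nor := inferInstance
  fin := inferInstance

private theorem Ptor_mem {a b : ℤ} {W : Subgroup (GQ a b)} {X : NF a b} (hX : X.N ≤ W)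
    {p : GH a b} (hp : p ∈ clH W) {g : GQ a b} (hg : Ap X p g) : g ∈ W := by
  obtain ⟨g', hg', h1⟩ := hp X
  have h2 : QuotientGroup.mk' X.N g' = QuotientGroup.mk' X.N g := h1.symm.trans hg
  have h3 : g'⁻¹ * g ∈ X.N := QuotientGroup.eq.1 h2
  have h4 := W.mul_mem hg' (hX h3)
  rwa [mul_inv_cancel_left] at h4

/-- the matrix of an approximation fixes the vector modulo the level -/
private theorem Ptor_fix {a b : ℤ} (R₀ R : ℕ+) (hR : (R₀ : ℕ) ∣ R) {p : GH a b} {g : GQ a b}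
    (hg : Ap (NFG a b R₀) p g) (ê : Fin 2 → OH a b)
    (hp : (piH a b p).val.mulVec ê = ê) (e' : Fin 2 → Qf a b ℤ)
    (he : ∀ i, rH a b R (ê i) = Qfm a b (Int.castRingHom (ZMod R)) (e' i)) (i : Fin 2) :
    ∃ z, g.val.mulVec e' i = e' i + ((R₀ : ℕ) : Qf a b ℤ) * z := by
  have he' : ∀ i, rH a b R₀ (ê i) = Qfm a b (Int.castRingHom (ZMod R₀)) (e' i) := by
    intro i
    rw [← rH_map hR, he, Qfm_cast]
  apply Qfm_dvd
  rw [← he' i]
  have h1 : Qfm a b (Int.castRingHom (ZMod R₀)) (g.val.mulVec e' i) =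
      (rdq a b R₀ g).val.mulVec (fun i => Qfm a b (Int.castRingHom (ZMod R₀)) (e' i)) i :=
    RingHom.map_mulVec (Qfm a b (Int.castRingHom (ZMod R₀))) g.val e' i
  have h2 : rH a b R₀ ((piH a b p).val.mulVec ê i) =
      (SLm (rH a b R₀) (piH a b p)).val.mulVec (fun i => rH a b R₀ (ê i)) i :=
    RingHom.map_mulVec (rH a b R₀) (piH a b p).val ê i
  rw [h1, ← pm_ap R₀ hg, ← piH_pm, ← funext he', ← h2, hp]

theorem p_Ptor (hloc : C_loc) : P_tor := by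
  intro a b hab m W hW r hr c X₀ hX₀ hc1 hc2 y hy p₁ hp₁ p₂ hp₂ hcomm ê hf1 hf2
  obtain ⟨X₁, hX₁, hloc1⟩ := hloc a b hab _ (tMO a b m) W hW r hr c X₀ hX₀ hc1 hc2 y hy
  have hn0 : (nq r).natAbs ≠ 0 := by
    intro h
    exact hr (nq_eq_zero hab (Int.natAbs_eq_zero.1 h))
  set R₀ : ℕ+ := ⟨(nq r).natAbs, Nat.pos_of_ne_zero hn0⟩ with hR₀
  -- the level is divisible by `r` and its conjugate
  have hR₀' : (((R₀ : ℕ+) : ℕ) : Qf a b ℤ) = r * cjq a b ℤ r := by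
    rw [mul_cjq]
    have h1 : (((nq r).natAbs : ℕ) : ℤ) = nq r := Int.natAbs_of_nonneg (nq_nonneg hab r)
    have h2 : (((R₀ : ℕ+) : ℕ) : Qf a b ℤ) = ((((nq r).natAbs : ℕ) : ℤ) : Qf a b ℤ) := by
      rw [Int.cast_natCast]
      rfl
    rw [h2, h1]
    apply QuadraticAlgebra.ext <;> simp
  set X : NF a b := Ptor_inf X₁ (NFG a b R₀) with hX
  have hXX₁ : X.N ≤ X₁.N := inf_le_left
  have hXW : X.N ≤ W := hXX₁.trans (hX₁.trans hX₀)
  have hXR : X.N ≤ (NFG a b R₀).N := inf_le_right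
  refine ⟨X, hXW, fun γ₁ γ₂ hγ₁ hγ₂ R e' hR he => ?_⟩
  have hm1 : γ₁ ∈ W := Ptor_mem hXW hp₁ hγ₁
  have hm2 : γ₂ ∈ W := Ptor_mem hXW hp₂ hγ₂
  have hR' : (R₀ : ℕ) ∣ R := hR
  -- the commutator
  have hcom : ∀ i, r ∣ y (γ₁ * γ₂) i - y (γ₂ * γ₁) i := by
    have h1 : QuotientGroup.mk' X.N (γ₂ * γ₁) = QuotientGroup.mk' X.N (γ₁ * γ₂) := by
      rw [map_mul, map_mul, ← show pr X p₁ = QuotientGroup.mk' X.N γ₁ from hγ₁,
        ← show pr X p₂ = QuotientGroup.mk' X.N γ₂ from hγ₂, ← map_mul, ← map_mul, hcomm]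
    have h2 : (γ₂ * γ₁)⁻¹ * (γ₁ * γ₂) ∈ X.N := QuotientGroup.eq.1 h1
    intro i
    have h3 := hloc1 (γ₂ * γ₁) (W.mul_mem hm2 hm1) _ (hXX₁ h2) i
    rwa [mul_inv_cancel_left] at h3
  have hy1 := hy γ₁ hm1 γ₂ hm2
  have hy2 := hy γ₂ hm2 γ₁ hm1
  -- the quotient ring
  let I : Ideal (Qf a b ℤ) := Ideal.span {r}
  let φ : Qf a b ℤ →+* (Qf a b ℤ ⧸ I) := Ideal.Quotient.mk I
  have hφ : ∀ x : Qf a b ℤ, r ∣ x ↔ φ x = 0 := by
    intro x
    rw [show φ x = 0 ↔ x ∈ I from Ideal.Quotient.eq_zero_iff_mem, Ideal.mem_span_singleton]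
  -- the vectors modulo `r`
  have hfix : ∀ (p : GH a b) (γ : GQ a b), Ap X p γ → (piH a b p).val.mulVec ê = ê →
      (∀ i, φ (γ⁻¹.val.mulVec e' i) = φ (e' i)) ∧
      ∀ i, φ (cjq a b ℤ (γ⁻¹.val.mulVec e' i)) = φ (cjq a b ℤ (e' i)) := by
    intro p γ hp hpf
    have h1 : Ap (NFG a b R₀) p⁻¹ γ⁻¹ := by
      have h2 := Ap_le hXR hp
      show pr _ p⁻¹ = QuotientGroup.mk' _ γ⁻¹
      rw [map_inv, map_inv, show pr (NFG a b R₀) p = _ from h2]
    have h3 : (piH a b p⁻¹).val.mulVec ê = ê := by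
      have h4 : (piH a b p⁻¹).val * (piH a b p).val = 1 := by
        have : piH a b p⁻¹ * piH a b p = 1 := by rw [← map_mul, inv_mul_cancel, map_one]
        exact congrArg Subtype.val this
      calc (piH a b p⁻¹).val.mulVec ê
          = (piH a b p⁻¹).val.mulVec ((piH a b p).val.mulVec ê) := by rw [hpf]
        _ = ê := by rw [Matrix.mulVec_mulVec, h4, Matrix.one_mulVec]
    have h5 := Ptor_fix R₀ R hR' h1 ê h3 e' he
    have h6 : φ (((R₀ : ℕ+) : ℕ) : Qf a b ℤ) = 0 := by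
      rw [← hφ, hR₀']
      exact dvd_mul_right _ _
    refine ⟨fun i => ?_, fun i => ?_⟩
    · obtain ⟨z, hz⟩ := h5 i
      rw [hz, map_add, map_mul, h6, zero_mul, add_zero]
    · obtain ⟨z, hz⟩ := h5 i
      rw [hz, map_add, map_mul, map_natCast, map_add, map_mul, h6, zero_mul, add_zero]
  -- the value of a translate modulo `r`
  have hev : ∀ (p : GH a b) (γ : GQ a b), Ap X p γ → (piH a b p).val.mulVec ê = ê →
      ∀ P : Fin (m + 1) × Fin (1 + 1) → Qf a b ℤ,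
      φ (evM m 1 ((tMO a b m γ).mulVec P) e' (fun i => cjq a b ℤ (e' i))) =
        φ (evM m 1 P e' (fun i => cjq a b ℤ (e' i))) := by
    intro p γ hp hpf P
    obtain ⟨h1, h2⟩ := hfix p γ hp hpf
    rw [evM_tM, Ptor_evM_map φ, Ptor_evM_map φ]
    have h3 : ((γ⁻¹).val.map (RingHom.id (Qf a b ℤ))).mulVec e' = (γ⁻¹).val.mulVec e' := rfl
    have h4 : ((γ⁻¹).val.map (cjq a b ℤ)).mulVec (fun i => cjq a b ℤ (e' i)) =
        fun i => cjq a b ℤ ((γ⁻¹).val.mulVec e' i) := by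
      funext i
      exact (RingHom.map_mulVec (cjq a b ℤ) (γ⁻¹).val e' i).symm
    rw [h3, h4, funext h1, funext h2]
  rw [hφ]
  have hV : ∀ i, φ ((c γ₁ γ₂ - c γ₂ γ₁ + (y γ₁ + (tMO a b m γ₁).mulVec (y γ₂)) -
      (y γ₂ + (tMO a b m γ₂).mulVec (y γ₁))) i) = 0 := by
    intro i
    rw [← hφ]
    have h1 := dvd_sub (hcom i) (dvd_sub (hy1 i) (hy2 i))
    refine (dvd_iff_dvd_of_dvd_sub ?_).1 h1
    simp only [Pi.sub_apply, Pi.add_apply]
    refine ⟨0, ?_⟩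
    ring
  have h1 := Ptor_evM_map φ m 1 (c γ₁ γ₂ - c γ₂ γ₁ + (y γ₁ + (tMO a b m γ₁).mulVec (y γ₂)) -
      (y γ₂ + (tMO a b m γ₂).mulVec (y γ₁))) e' (fun i => cjq a b ℤ (e' i))
  rw [funext hV, show (fun _ : Fin (m + 1) × Fin (1 + 1) => (0 : Qf a b ℤ ⧸ I)) = 0 from rfl,
    evM_zero, evM_sub, evM_add, evM_add, evM_add, map_sub, map_add, map_add, map_add,
    hev p₁ γ₁ hγ₁ hf1, hev p₂ γ₂ hγ₂ hf2] at h1
  linear_combination h1

end

end Pool.Agent.F8.NL
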