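import Pool.Agent.Lib.MP_305fdd_al.F8.NL.StmP

/-!
# MP_305fdd_al, all lattices (project NL): the cup product on the torus
-/

set_option autoImplicit false

namespace Pool.Agent.F8.NL

open Pool.Agent.F8.CG Pool.Agent.F8.BG Pool.Agent.MP_305fdd_al Pool.Agent.Lib.MP_305fdd_al
  Pool.Agent.F8
open scoped QuadraticAlgebra ComplexConjugate Kronecker

noncomputable section

variable {a b : ℤ}

private theorem Ptw_cj {R S : Type} [CommRing R] [CommRing S] (f : R →+* S) (x : Qf a b R) :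
    Qfm a b f (cjq a b R x) = cjq a b S (Qfm a b f x) := by
  apply QuadraticAlgebra.ext
  · show f (x.re + b * x.im) = f x.re + b * f x.im
    rw [map_add, map_mul, map_intCast]
  · show f (-x.im) = -f x.im
    rw [map_neg]

private theorem Ptw_M0 (M : ℕ+) :
    Qfm a b (Int.castRingHom (ZMod M)) (((M : ℕ) : ℕ) : Qf a b ℤ) = 0 := by
  apply QuadraticAlgebra.ext
  · show ((((M : ℕ) : Qf a b ℤ).re : ℤ) : ZMod M) = 0
    simp
  · show ((((M : ℕ) : Qf a b ℤ).im : ℤ) : ZMod M) = 0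
    simp

private theorem Ptw_dvd (M : ℕ+) (x y : Qf a b ℤ) : (((M : ℕ) : Qf a b ℤ)) ∣ x - y ↔
    Qfm a b (Int.castRingHom (ZMod M)) x = Qfm a b (Int.castRingHom (ZMod M)) y := by
  constructor
  · rintro ⟨k, hk⟩
    have h1 := congrArg (Qfm a b (Int.castRingHom (ZMod M))) hk
    rw [map_sub, map_mul, Ptw_M0, zero_mul] at h1
    exact sub_eq_zero.1 h1
  · intro h
    obtain ⟨k, hk⟩ := Qfm_dvd h
    exact ⟨k, by rw [hk]; ring⟩

private theorem Ptw_sm (m : ℕ) {R S : Type} [CommRing R] [CommRing S] (f : R →+* S) (g : SL2 R) :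
    (sm m g).map f = sm m (SLm f g) := by
  rw [sm_apply, sm_apply, ← map_inv]
  exact (sb_map f m _).symm

private theorem Ptw_mv {R S : Type} [CommRing R] [CommRing S] (f : R →+* S) (g : SL2 R)
    (v : Fin 2 → R) : (SLm f g).val.mulVec (fun i => f (v i)) = fun i => f (g.val.mulVec v i) := by
  funext i
  show ∑ j, f (g.val i j) * f (v j) = f (∑ j, g.val i j * v j)
  rw [map_sum]
  exact Finset.sum_congr rfl fun j _ => (map_mul _ _ _).symm

private theorem Ptw_mvv {ι R S : Type} [Fintype ι] [CommRing R] [CommRing S] (f : R →+* S)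
    (A : Matrix ι ι R) (v : ι → R) (i : ι) :
    f (A.mulVec v i) = (A.map f).mulVec (fun j => f (v j)) i := by
  show f (∑ j, A i j * v j) = ∑ j, f (A i j) * f (v j)
  rw [map_sum]
  exact Finset.sum_congr rfl fun j _ => map_mul _ _ _

private theorem Ptw_inv {R : Type} [CommRing R] (g : SL2 R) (v : Fin 2 → R)
    (h : g.val.mulVec v = v) : (g⁻¹).val.mulVec v = v := by
  have h1 : (g⁻¹).val * g.val = 1 := by
    have h2 : g⁻¹ * g = 1 := inv_mul_cancel g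
    exact congrArg Subtype.val h2
  calc (g⁻¹).val.mulVec v = (g⁻¹).val.mulVec (g.val.mulVec v) := by rw [h]
    _ = v := by rw [Matrix.mulVec_mulVec, h1, Matrix.one_mulVec]

private theorem Ptw_conj (M : ℕ+) (g : GQ a b) :
    SLm (Qfm a b (Int.castRingHom (ZMod M))) (SLm (cjq a b ℤ) g) =
      SLm (cjq a b (ZMod M)) (rdq a b M g) := by
  apply Subtype.ext
  refine Matrix.ext fun i j => ?_
  exact Ptw_cj (Int.castRingHom (ZMod M)) (g.val i j)

/-- the reduction of the cup product -/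
private theorem Ptw_cup (M : ℕ+) (m : ℕ) (z : GQ a b → Fin (m + 1) → Qf a b ℤ)
    (z' : GQ a b → Fin (1 + 1) → Qf a b ℤ) (g h : GQ a b) (i : Fin (m + 1) × Fin (1 + 1)) :
    Qfm a b (Int.castRingHom (ZMod M)) (cup z z' g h i) =
      Qfm a b (Int.castRingHom (ZMod M)) (z g i.1) *
      (sm 1 (SLm (cjq a b (ZMod M)) (rdq a b M g))).mulVec
        (fun j => Qfm a b (Int.castRingHom (ZMod M)) (z' h j)) i.2 := by
  show Qfm a b (Int.castRingHom (ZMod M)) (z g i.1 *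
    (sm 1 (SLm (cjq a b ℤ) g)).mulVec (z' h) i.2) = _
  rw [map_mul, Ptw_mvv, Ptw_sm, Ptw_conj]

/-- the value of the cup product -/
private theorem Ptw_val (M : ℕ+) (m : ℕ) (z : GQ a b → Fin (m + 1) → Qf a b ℤ)
    (z' : GQ a b → Fin (1 + 1) → Qf a b ℤ) (P : Fin (m + 1) → OH a b)
    (P' : Fin (1 + 1) → OH a b) (ê : Fin 2 → OH a b) (g h : GQ a b) (e' : Fin 2 → Qf a b ℤ)
    (h1 : ∀ i, rH a b M (P i) = Qfm a b (Int.castRingHom (ZMod M)) (z g i))
    (h2 : ∀ i, rH a b M (P' i) = Qfm a b (Int.castRingHom (ZMod M)) (z' h i))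
    (h3 : ∀ i, rH a b M (ê i) = Qfm a b (Int.castRingHom (ZMod M)) (e' i))
    (h4 : (rdq a b M g).val.mulVec (fun i => rH a b M (ê i)) = fun i => rH a b M (ê i)) :
    Qfm a b (Int.castRingHom (ZMod M))
      (evM m 1 (cup z z' g h) e' (fun i => cjq a b ℤ (e' i))) =
    rH a b M (evm m P ê * evm 1 P' (fun i => cjq a b Zh (ê i))) := by
  have e1 : (fun i => Qfm a b (Int.castRingHom (ZMod M)) (cjq a b ℤ (e' i))) =
      fun i => cjq a b (ZMod M) (rH a b M (ê i)) := by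
    funext i
    rw [Ptw_cj, h3]
  have e2 : (fun i => rH a b M (cjq a b Zh (ê i))) =
      fun i => cjq a b (ZMod M) (rH a b M (ê i)) := by
    funext i
    exact Ptw_cj (rZ M) (ê i)
  have e3 : (SLm (cjq a b (ZMod M)) (rdq a b M g)).val.mulVec
      (fun i => cjq a b (ZMod M) (rH a b M (ê i))) =
      fun i => cjq a b (ZMod M) (rH a b M (ê i)) := by
    rw [Ptw_mv, h4]
  have e4 := Ptw_inv _ _ e3
  rw [← Ptw_conj, ← map_inv, ← e1, Ptw_mv] at e4
  show Qfm a b (Int.castRingHom (ZMod M)) (evM m 1 (tens (z g)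
    ((sm 1 (SLm (cjq a b ℤ) g)).mulVec (z' h))) e' (fun i => cjq a b ℤ (e' i))) = _
  rw [evM_tens, map_mul, map_mul, evm_sm, ← evm_map, ← evm_map, ← evm_map, ← evm_map, e4, e1, e2]
  congr 2
  · funext i
    exact (h1 i).symm
  · funext i
    exact (h3 i).symm
  · funext i
    exact (h2 i).symm

theorem p_Ptw (hloc : C_loc) (_hext : C_ext) (htor : P_tor) (ha : H_a) (ho : C_o) : P_tw := by
  intro a b M₀ m P W hW hWM N hN z hz z' hz' hsup Z Z' hZ hZ' p₁ hp₁ p₂ hp₂ hcomm ê he₁ he₂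
  obtain ⟨d, w, hd, hw⟩ := ha a b P.neg P.eu P.pid P.fg M₀ P.three P.ld P.hw m P.four P.even P.une
    W hW hWM N hN z hz z' hz' hsup
  apply sub_eq_zero.1
  apply (ho a b P.neg).2.1 d _ hd
  apply OH_ext
  intro M
  rw [map_zero]
  have hr : ((M : ℕ) : Qf a b ℤ) ≠ 0 := by
    intro h0
    have h1 := congrArg QuadraticAlgebra.re h0
    simp at h1
  -- the level of local constancy
  have hz1 : z' 1 = 0 := by
    have h1 := hz' 1 W.one_mem 1 W.one_mem
    rw [mul_one, map_one, Matrix.one_mulVec] at h1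
    exact add_eq_left.1 h1.symm
  let Y : NF a b := ⟨W.normalCore, inferInstance, inferInstance⟩
  have hY : Y.N ≤ W := Subgroup.normalCore_le W
  obtain ⟨X₁, hX₁, h1⟩ := hloc a b P.neg (Fin (m + 1)) (tV m (RingHom.id (Qf a b ℤ))) W hW
    ((M : ℕ) : Qf a b ℤ) hr (fun _ _ => 0) Y hY (fun g _ h _ n _ n' _ i => by simp)
    (fun g _ i => by simp) z (fun g hg h hh i => by
      rw [hz g hg h hh]
      simp)
  obtain ⟨X₂, hX₂, h2⟩ := hloc a b P.neg (Fin (1 + 1)) (tV 1 (cjq a b ℤ)) W hW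
    ((M : ℕ) : Qf a b ℤ) hr (fun _ _ => 0) Y hY (fun g _ h _ n _ n' _ i => by simp)
    (fun g _ i => by simp) z' (fun g hg h hh i => by
      rw [hz' g hg h hh]
      simp)
  let X₀ : NF a b := ⟨(X₁.N ⊓ X₂.N) ⊓ (NFG a b M).N, inferInstance, inferInstance⟩
  obtain ⟨X, hXW, hX⟩ := htor a b P.neg m W hW ((M : ℕ) : Qf a b ℤ) hr
    (fun g h => d • cup z z' g h) X₀ (le_trans inf_le_left (le_trans inf_le_left (hX₁.trans hY)))
    (by
      intro g hg h hh n hn n' hn' i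
      have e1 : ∀ i, Qfm a b (Int.castRingHom (ZMod M)) (z (g * n) i) =
          Qfm a b (Int.castRingHom (ZMod M)) (z g i) := fun i =>
        (Ptw_dvd M _ _).1 (h1 g hg n hn.1.1 i)
      have e2 : ∀ i, Qfm a b (Int.castRingHom (ZMod M)) (z' (h * n') i) =
          Qfm a b (Int.castRingHom (ZMod M)) (z' h i) := fun i =>
        (Ptw_dvd M _ _).1 (h2 h hh n' hn'.1.2 i)
      have e3 : rdq a b M (g * n) = rdq a b M g := by
        rw [map_mul, show rdq a b M n = 1 from hn.2, mul_one]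
      show ((M : ℕ) : Qf a b ℤ) ∣ d * cup z z' (g * n) (h * n') i - d * cup z z' g h i
      rw [← mul_sub]
      apply Dvd.dvd.mul_left
      rw [Ptw_dvd, Ptw_cup, Ptw_cup, e3, e1]
      congr 2
      funext j
      exact e2 j)
    (by
      intro g hg i
      show ((M : ℕ) : Qf a b ℤ) ∣ d * (z g i.1 * (tV 1 (cjq a b ℤ) g).mulVec (z' 1) i.2)
      rw [hz1, Matrix.mulVec_zero]
      simp)
    w
    (by
      intro g hg h hh i
      have e0 : ∀ x y u : Fin (m + 1) × Fin (1 + 1) → Qf a b ℤ, x + y + u - x - y - u = 0 :=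
        fun x y u => by abel
      rw [hw g hg h hh, e0]
      exact dvd_zero _)
    p₁ hp₁ p₂ hp₂ hcomm ê he₁ he₂
  obtain ⟨V, hVW, hV⟩ := hZ M
  obtain ⟨V', hVW', hV'⟩ := hZ' M
  let U : NF a b := ⟨(X.N ⊓ V.N) ⊓ (V'.N ⊓ (NFG a b M).N), inferInstance, inferInstance⟩
  have u1 : U.N ≤ X.N := inf_le_left.trans inf_le_left
  have u2 : U.N ≤ V.N := inf_le_left.trans inf_le_right
  have u3 : U.N ≤ V'.N := inf_le_right.trans inf_le_left
  have u4 : U.N ≤ (NFG a b M).N := inf_le_right.trans inf_le_right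
  obtain ⟨γ₁, hγ₁⟩ := Ap_ex U p₁
  obtain ⟨γ₂, hγ₂⟩ := Ap_ex U p₂
  have hnq : 0 < (nq ((M : ℕ) : Qf a b ℤ)).natAbs := Int.natAbs_pos.2 fun h0 =>
    hr (nq_eq_zero P.neg h0)
  let R : ℕ+ := M * ⟨(nq ((M : ℕ) : Qf a b ℤ)).natAbs, hnq⟩
  have hMR : (M : ℕ) ∣ R := by
    show (M : ℕ) ∣ ((M * ⟨(nq ((M : ℕ) : Qf a b ℤ)).natAbs, hnq⟩ : ℕ+) : ℕ)
    rw [PNat.mul_coe]
    exact dvd_mul_right _ _
  have hqR : (nq ((M : ℕ) : Qf a b ℤ)).natAbs ∣ R := by
    show _ ∣ ((M * ⟨(nq ((M : ℕ) : Qf a b ℤ)).natAbs, hnq⟩ : ℕ+) : ℕ)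
    rw [PNat.mul_coe]
    exact dvd_mul_left _ _
  have hdv := hX γ₁ γ₂ (Ap_le u1 hγ₁) (Ap_le u1 hγ₂) R (fun i => lfH R (ê i)) hqR
    (fun i => (lfH_rH R (ê i)).symm)
  have he' : ∀ i, rH a b M (ê i) = Qfm a b (Int.castRingHom (ZMod M)) (lfH R (ê i)) := by
    intro i
    rw [← rH_map hMR, ← lfH_rH R, Qfm_cast hMR]
  have hfix : ∀ p : GH a b, ∀ γ : GQ a b, Ap U p γ → (piH a b p).val.mulVec ê = ê →
      (rdq a b M γ).val.mulVec (fun i => rH a b M (ê i)) = fun i => rH a b M (ê i) := by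
    intro p γ hγ hp
    rw [← pm_ap M (Ap_le u4 hγ), ← piH_pm, Ptw_mv, hp]
  have v1 := Ptw_val M m z z' (Z p₁) (Z' p₂) ê γ₁ γ₂ (fun i => lfH R (ê i))
    (hV p₁ hp₁ γ₁ (Ap_le u2 hγ₁)) (hV' p₂ hp₂ γ₂ (Ap_le u3 hγ₂)) he' (hfix p₁ γ₁ hγ₁ he₁)
  have v2 := Ptw_val M m z z' (Z p₂) (Z' p₁) ê γ₂ γ₁ (fun i => lfH R (ê i))
    (hV p₂ hp₂ γ₂ (Ap_le u2 hγ₂)) (hV' p₁ hp₁ γ₁ (Ap_le u3 hγ₁)) he' (hfix p₂ γ₂ hγ₂ he₂)
  have h3 : evM m 1 (d • cup z z' γ₁ γ₂ - d • cup z z' γ₂ γ₁) (fun i => lfH R (ê i))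
      (fun i => cjq a b ℤ (lfH R (ê i))) =
      d * evM m 1 (cup z z' γ₁ γ₂) (fun i => lfH R (ê i)) (fun i => cjq a b ℤ (lfH R (ê i))) -
      d * evM m 1 (cup z z' γ₂ γ₁) (fun i => lfH R (ê i))
        (fun i => cjq a b ℤ (lfH R (ê i))) := by
    unfold evM
    rw [Finset.mul_sum, Finset.mul_sum, ← Finset.sum_sub_distrib]
    refine Finset.sum_congr rfl fun p _ => ?_
    rw [Pi.sub_apply, Pi.smul_apply, Pi.smul_apply, smul_eq_mul, smul_eq_mul]
    ring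
  beta_reduce at hdv
  rw [h3] at hdv
  have h4 := (Ptw_dvd M _ _).1 hdv
  rw [map_mul, map_mul, v1, v2, ← rH_jH] at h4
  rw [map_mul, map_sub, mul_sub, h4, sub_self]

end

end Pool.Agent.F8.NL
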