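import Pool.Agent.Lib.MP_305fdd_al.F8.NL.StmP

/-!
# MP_305fdd_al, all lattices, [NL P two]: disjoint supports
-/

set_option autoImplicit false

namespace Pool.Agent.F8.NL

open Pool.Agent.F8.CG Pool.Agent.F8.BG Pool.Agent.MP_305fdd_al Pool.Agent.Lib.MP_305fdd_al
  Pool.Agent.F8
open scoped QuadraticAlgebra ComplexConjugate Kronecker

noncomputable section

private theorem Ptwo_cj {a b : ℤ} (t : Qf a b ℤ) :
    cjq a b Zh (jH a b t) = jH a b (cjq a b ℤ t) := by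
  apply QuadraticAlgebra.ext
  · show (Int.castRingHom Zh t.re) + ((b : ℤ) : Zh) * (Int.castRingHom Zh t.im) =
      Int.castRingHom Zh (t.re + b * t.im)
    simp
  · show -(Int.castRingHom Zh t.im) = Int.castRingHom Zh (-t.im)
    simp

private theorem Ptwo_inj {a b : ℤ} : Function.Injective (cjq a b ℤ) := by
  intro x y h
  have h1 := congrArg QuadraticAlgebra.re h
  have h2 := congrArg QuadraticAlgebra.im h
  have h3 : x.re + b * x.im = y.re + b * y.im := h1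
  have h4 : -x.im = -y.im := h2
  have h5 : x.im = y.im := neg_injective h4
  apply QuadraticAlgebra.ext
  · rw [h5] at h3
    exact add_right_cancel h3
  · exact h5

private theorem Ptwo_mem {a b : ℤ} {D : Subgroup (GQ a b)} {h : D →* GH a b}
    {W : Subgroup (GQ a b)} {x : GQ a b} (hx : x ∈ hcm h W) : ∃ hD : x ∈ D, h ⟨x, hD⟩ ∈ clH W := by
  obtain ⟨y, hy, hyx⟩ := hx
  subst hyx
  exact ⟨y.2, hy⟩

theorem p_Ptwo (hpb : P_pb) (htw : P_tw) (hext : C_ext) (hbv : B_bv) : P_two := by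
  intro a b M₀ m hP D hD h C E hC q _ v hv W N N' hW hWM hN hN' z hz z' hz' hs Z Z' hZ hZ' e
  obtain ⟨hpb1, hpb2⟩ := hpb a b hP.neg D h C E hC
  obtain ⟨-, hex2, hex3, -⟩ := hext a b hP.neg W hW
  -- the crossed homomorphisms of the closure
  have hZc := hex2 m z hz Z hZ
  have hZc' := hex3 1 z' hz' Z' hZ'
  obtain ⟨hc1, -, hc3⟩ := hpb1 W m ℤ_[q] v Z
  obtain ⟨-, hc2, hc3'⟩ := hpb1 W 1 ℤ_[q] v Z'
  have hY := hc1 hZc
  have hY' := hc2 hZc'
  -- the elements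
  have hm1 := Ptwo_mem (hN'.2 e 1)
  have hm2 := Ptwo_mem (hN'.2 e (wq a b ℤ))
  rw [mul_one] at hm1
  obtain ⟨ht1, hp1⟩ := hm1
  obtain ⟨ht2, hp2⟩ := hm2
  have hcm : h ⟨_, ht1⟩ * h ⟨_, ht2⟩ = h ⟨_, ht2⟩ * h ⟨_, ht1⟩ := by
    rw [← map_mul, ← map_mul]
    congr 1
    apply Subtype.ext
    show tv e (N' : Qf a b ℤ) * tv e ((N' : Qf a b ℤ) * wq a b ℤ) =
      tv e ((N' : Qf a b ℤ) * wq a b ℤ) * tv e (N' : Qf a b ℤ)
    rw [← (p_Vtv _ _ _ _).2.1, ← (p_Vtv _ _ _ _).2.1, add_comm]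
  have key := htw a b M₀ m hP W hW hWM N hN z hz z' hz' hs Z Z' hZ hZ' _ hp1 _ hp2 hcm
    (C.mulVec (eH e)) (hpb2 e _ ht1).1 (hpb2 e _ ht2).1
  have key2 := congrArg v key
  rw [map_mul, map_mul, ← (hc3 e _ ht1).1, ← (hc3 e _ ht2).1, ← (hc3' e _ ht1).2,
    ← (hc3' e _ ht2).2] at key2
  -- the functionals
  have hf : Function.Injective (v.comp (jH a b)) := hv.inj
  have hf' : Function.Injective (v.comp ((jH a b).comp (cjq a b ℤ))) :=
    hv.inj.comp Ptwo_inj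
  have hB := hbv a b hP.neg m (by have := hP.four; omega) ℤ_[q] (v.comp (jH a b)) hf
  have hB' := hbv a b hP.neg 1 le_rfl ℤ_[q] (v.comp ((jH a b).comp (cjq a b ℤ))) hf'
  have e1 := hB.mul _ N' hN' _ hY e (wq a b ℤ)
  have e2 := hB'.mul _ N' hN' _ hY' e (wq a b ℤ)
  have hcj : (fun i => v (cjq a b Zh (eH e i))) =
      fun i => (v.comp ((jH a b).comp (cjq a b ℤ))) (e i) := by
    funext i
    show v (cjq a b Zh (jH a b (e i))) = v (jH a b (cjq a b ℤ (e i)))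
    rw [Ptwo_cj]
  rw [hcj] at key2
  have key3 : bH m h C v N' e Z * (bH' h C v N' e Z' * v (jH a b (cjq a b ℤ (wq a b ℤ)))) =
      bH m h C v N' e Z * v (jH a b (wq a b ℤ)) * bH' h C v N' e Z' := by
    have e1' : evm m (pbk m v h C Z (tv e ((N' : Qf a b ℤ) * wq a b ℤ)))
        (fun i => v (eH e i)) = bH m h C v N' e Z * v (jH a b (wq a b ℤ)) := e1
    have e2' : evm 1 (pbk 1 v h (cjM C) Z' (tv e ((N' : Qf a b ℤ) * wq a b ℤ)))
        (fun i => (v.comp ((jH a b).comp (cjq a b ℤ))) (e i)) =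
        bH' h C v N' e Z' * v (jH a b (cjq a b ℤ (wq a b ℤ))) := e2
    rw [← e1', ← e2']
    exact key2
  have hu : IsUnit (v (jH a b (wq a b ℤ)) - v (jH a b (cjq a b ℤ (wq a b ℤ)))) := hv.dif
  have key4 : bH m h C v N' e Z * bH' h C v N' e Z' *
      (v (jH a b (wq a b ℤ)) - v (jH a b (cjq a b ℤ (wq a b ℤ)))) = 0 := by
    linear_combination -key3
  rcases mul_eq_zero.1 key4 with h0 | h0
  · exact h0
  · exact absurd h0 hu.ne_zero

end

end Pool.Agent.F8.NL
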