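import Pool.Agent.Lib.MP_305fdd_al.F8.NL.StmR

/-!
# MP_305fdd_al, lattices commensurable with `SL₂(ℤ[w])`: piece Rmain (helper20)
-/

set_option autoImplicit false

namespace Pool.Agent.F8.NL

open Pool.Agent.F8.CG Pool.Agent.F8.BG Pool.Agent.MP_305fdd_al Pool.Agent.Lib.MP_305fdd_al
  Pool.Agent.F8
open scoped QuadraticAlgebra ComplexConjugate Kronecker

noncomputable section

private theorem Rmain_col {R : Type} [CommRing R] (g : SL2 R) :
    g.val.mulVec ![1, 0] = colG g 0 := by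
  funext i
  simp [colG, Matrix.mulVec, dotProduct, Fin.sum_univ_two]

private theorem Rmain_mv {R : Type} [CommRing R] (u v : SL2 R) (e : Fin 2 → R) :
    (u * v).val.mulVec e = u.val.mulVec (v.val.mulVec e) := by
  rw [Matrix.mulVec_mulVec, ← Matrix.SpecialLinearGroup.coe_mul]

/-- two matrices with the same first column -/
private theorem Rmain_eq {R : Type} [CommRing R] {g g' : SL2 R} (h : colG g 0 = colG g' 0) :
    ∃ t, g' = g * eU t := by
  have h1 : (g⁻¹ * g').val.mulVec ![1, 0] = ![1, 0] := by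
    rw [Rmain_mv, Rmain_col g', ← h, ← Rmain_col g, ← Rmain_mv, inv_mul_cancel,
      Matrix.SpecialLinearGroup.coe_one, Matrix.one_mulVec]
  rw [Rmain_col] at h1
  set y := g⁻¹ * g' with hy
  have h2 : y.val 0 0 = 1 := congrFun h1 0
  have h3 : y.val 1 0 = 0 := congrFun h1 1
  have h4 : y.val 1 1 = 1 := by
    have h5 := y.2
    rw [Matrix.det_fin_two, h2, h3, mul_zero, sub_zero, one_mul] at h5
    exact h5
  refine ⟨y.val 0 1, ?_⟩
  have h6 : y = eU (y.val 0 1) := by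
    apply Subtype.ext
    show y.val = !![1, y.val 0 1; 0, 1]
    ext i j
    fin_cases i <;> fin_cases j
    · exact h2
    · rfl
    · exact h3
    · exact h4
  rw [← h6, hy, mul_inv_cancel_left]

/-- PIECE NL Rmain -/
theorem p_Rmain (hnm : R_nm) (hstr : R_str) (hk : M_k) (hu : C_u) (_ho : C_o) : R_main := by
  intro a b M₀ m H D hD h C E hC
  obtain ⟨C', E', δ₀, hC', hδ, hdet, hall⟩ := hnm a b M₀ m H D hD h C E hC
  have he1 : Prm (![1, 0] : Fin 2 → Qf a b ℤ) := by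
    refine ⟨1, ?_⟩
    funext i
    fin_cases i
    · rfl
    · rfl
  obtain ⟨γ', hγ', hf⟩ := hstr a b M₀ m H D hD h C' E' hC' δ₀ hδ hdet (hall _ he1)
  obtain ⟨δ₁, hδ₁⟩ := hδ.exists_right_inv
  have hA : dA δ₀ * dA δ₁ = 1 := by
    unfold dA
    rw [Matrix.mul_fin_two, Matrix.one_fin_two]
    simp [hδ₁]
  have hA' : dA δ₁ * dA δ₀ = 1 := mul_eq_one_comm.1 hA
  refine ⟨γ', dA δ₀, dA δ₁, hA, fun x => ?_⟩
  set x' := NC.cjA (dA δ₀) (dA δ₁) hA x with hx'
  have hxv : x'.val = dA δ₀ * x.val.val * dA δ₁ := rfl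
  have hxA : x'.val * dA δ₀ = dA δ₀ * x.val.val := by
    rw [hxv, Matrix.mul_assoc, hA', Matrix.mul_one]
  obtain ⟨k₁, hk₁⟩ := hall _ he1
  have hk₂ := (hk a b M₀ m H D hD h C' E' hC' _ k₁ 1 he1 hk₁).1 x
  have hxe : Prm ((x : GQ a b).val.mulVec ![1, 0]) := by
    rw [Rmain_col]
    exact ⟨x, rfl⟩
  obtain ⟨γ₁, r₁, hγ₁, h1⟩ := hf _ he1 k₁ hk₁
  obtain ⟨γ₂, r₂, hγ₂, h2⟩ := hf _ hxe _ hk₂
  obtain ⟨t, ht⟩ : ∃ t, γ₂ = x' * γ₁ * eU t := by
    apply Rmain_eq
    rw [hγ₂, ← Rmain_col (x' * γ₁), Rmain_mv, Rmain_col γ₁, hγ₁, Matrix.mulVec_mulVec,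
      Matrix.mulVec_mulVec, hxA]
  obtain ⟨hadd, hj, hpu, -, -, -⟩ := hu a b
  have hz : (uH (0 : OH a b)) = 1 := by
    have h3 := hadd 0 0
    rw [add_zero] at h3
    exact (left_eq_mul.1 h3)
  set q : OH a b := jH a b t + r₂ - r₁ with hq
  have h3 : uH (jH a b t) * uH r₂ = uH q * uH r₁ := by
    rw [← hadd, ← hadd, hq, sub_add_cancel]
  have h4 : h x = γ' * iH a b x' * (iH a b γ₁ * uH q * (iH a b γ₁)⁻¹) * γ'⁻¹ := by
    have h5 : h x = (h x * k₁) * k₁⁻¹ := by group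
    rw [h5, h2, h1, ht, map_mul, map_mul, ← hj]
    calc γ' * (iH a b x' * iH a b γ₁ * uH (jH a b t)) * uH r₂ * (γ' * iH a b γ₁ * uH r₁)⁻¹
        = γ' * iH a b x' * (iH a b γ₁ * (uH (jH a b t) * uH r₂) * (uH r₁)⁻¹ *
          (iH a b γ₁)⁻¹) * γ'⁻¹ := by group
      _ = _ := by
        rw [h3]
        group
  -- the matrices
  have h5 : piH a b (h x) * piH a b γ' = piH a b γ' * SLm (jH a b) x' := by
    apply Subtype.ext
    rw [Matrix.SpecialLinearGroup.coe_mul, Matrix.SpecialLinearGroup.coe_mul]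
    have h6 : (piH a b (h x)).val * C' = C' * (SLm (jH a b) x).val := by
      rw [hC'.lft, Matrix.mul_assoc, hC'.inv', Matrix.mul_one]
    have h7 : dA (jH a b δ₀) * dA (jH a b δ₁) = 1 := by
      unfold dA
      rw [Matrix.mul_fin_two, Matrix.one_fin_two]
      simp [← map_mul, hδ₁]
    have h8 : (SLm (jH a b) x').val * dA (jH a b δ₀) =
        dA (jH a b δ₀) * (SLm (jH a b) x).val := by
      have h9 := congrArg (fun M => M.map (jH a b)) hxA
      simp only [Matrix.map_mul] at h9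
      have h10 : (dA δ₀).map (jH a b) = dA (jH a b δ₀) := by
        unfold dA
        refine Matrix.ext fun i j => ?_
        fin_cases i <;> fin_cases j
        · exact map_one (jH a b)
        · exact map_zero (jH a b)
        · exact map_zero (jH a b)
        · rfl
      rw [h10] at h9
      exact h9
    rw [hγ'] at h6
    calc (piH a b (h x)).val * (piH a b γ').val
        = (piH a b (h x)).val * ((piH a b γ').val * dA (jH a b δ₀)) * dA (jH a b δ₁) := by
          rw [Matrix.mul_assoc, Matrix.mul_assoc, h7, Matrix.mul_one]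
      _ = (piH a b γ').val * ((SLm (jH a b) x').val * dA (jH a b δ₀)) * dA (jH a b δ₁) := by
          rw [h6, h8, Matrix.mul_assoc (piH a b γ').val]
      _ = _ := by
          rw [Matrix.mul_assoc, Matrix.mul_assoc (SLm (jH a b) x').val, h7, Matrix.mul_one]
  have h6 : SLm (jH a b) γ₁ * eU q * (SLm (jH a b) γ₁)⁻¹ = 1 := by
    rw [h4] at h5
    simp only [map_mul, map_inv, piH_iH, hpu] at h5
    rw [inv_mul_cancel_right] at h5
    have h7 : piH a b γ' * SLm (jH a b) x' * (SLm (jH a b) γ₁ * eU q * (SLm (jH a b) γ₁)⁻¹) =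
      piH a b γ' * SLm (jH a b) x' := h5
    exact mul_eq_left.1 h7
  have h7 : (eU q : SL2 (OH a b)) = 1 := by
    have h8 : (eU q : SL2 (OH a b)) = (SLm (jH a b) γ₁)⁻¹ *
      (SLm (jH a b) γ₁ * eU q * (SLm (jH a b) γ₁)⁻¹) * SLm (jH a b) γ₁ := by group
    rw [h8, h6]
    group
  have h8 : q = 0 := by
    have h9 := congrArg (fun M : SL2 (OH a b) => M.val 0 1) h7
    exact h9
  rw [h4, h8, hz]
  group

end

end Pool.Agent.F8.NL
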