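import Pool.Agent.Lib.MP_305fdd_al.F8.NL.StmR

/-!
# MP_305fdd_al, all lattices (project NL): `R_nm`

Normalisation of the matrix `C`: after the multiplication with a unit of `OH` all the numbers `ε` are one.
-/

set_option autoImplicit false

namespace Pool.Agent.F8.NL

open Pool.Agent.F8.CG Pool.Agent.F8.BG Pool.Agent.MP_305fdd_al Pool.Agent.Lib.MP_305fdd_al
  Pool.Agent.F8
open scoped QuadraticAlgebra ComplexConjugate Kronecker

variable {a b : ℤ}

private theorem Rnm_col (p q r s : Qf a b ℤ) (h : p * s - q * r = 1) : Prm (![p, r]) := by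
  refine ⟨AB.mx p q r s h, ?_⟩
  funext i
  fin_cases i <;> rfl

/-- the numbers `ε` are determined up to units by `ε₁` -/
private theorem Rnm_aux {ε ε' ε₁ δ : OH a b} {u' w w' : Qf a b ℤ} (hw : w * w' = 1)
    (h1 : ε * ε' * δ = jH a b u') (h2 : ε₁ * ε' * δ = jH a b w) :
    ε = jH a b (u' * w') * ε₁ := by
  have h3 : jH a b w * jH a b w' = 1 := by rw [← map_mul, hw, map_one]
  rw [map_mul]
  linear_combination (-ε) * h3 + (-(ε * jH a b w')) * h2 + (jH a b w' * ε₁) * h1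

private theorem Rnm_HD {D : Subgroup (GQ a b)} {h : D →* GH a b}
    {C E : Matrix (Fin 2) (Fin 2) (OH a b)} (hC : HD h C E) {l l' : OH a b} (hl : l * l' = 1) :
    HD h (l • C) (l' • E) := by
  have hl' : l' * l = 1 := by rw [mul_comm, hl]
  refine ⟨?_, ?_, fun x => ?_⟩
  · rw [Matrix.smul_mul, Matrix.mul_smul, smul_smul, hl, one_smul, hC.inv]
  · rw [Matrix.smul_mul, Matrix.mul_smul, smul_smul, hl', one_smul, hC.inv']
  · rw [hC.lft x, Matrix.smul_mul, Matrix.smul_mul, Matrix.mul_smul, smul_smul, hl, one_smul]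

private theorem Rnm_dg (u v : Qf a b ℤ) (h : u * v = 1) :
    (piH a b (iH a b (dg u v h))).val.mulVec ![1, 0] = jH a b u • ![1, 0] := by
  rw [piH_iH]
  funext i
  fin_cases i
  · simp [Matrix.mulVec, dotProduct, Fin.sum_univ_two, dg, AB.mx]
  · simp [Matrix.mulVec, dotProduct, Fin.sum_univ_two, dg, AB.mx]

/-- [NL R nm] -/
theorem p_Rnm (hpair : P_pair) (hun : R_un) (hu : C_u) (_ho : C_o) (_hk : M_k) : R_nm := by
  intro a b M₀ m hP D hD h C E hC
  have hdom : IsDomain (Qf a b ℤ) := Qf_domain hP.neg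
  have hK : ∀ e : Fin 2 → Qf a b ℤ, Prm e → ∃ (k : GH a b) (ε : OH a b), Kap h C e k ε := by
    intro e he
    obtain ⟨k, ε, h1, h2, h3⟩ := hpair a b M₀ m hP D hD h C E hC e he
    exact ⟨k, ε, h1, h2, h3⟩
  have p1 : Prm (![1, 0] : Fin 2 → Qf a b ℤ) := Rnm_col 1 0 0 1 (by ring)
  have p2 : Prm (![0, 1] : Fin 2 → Qf a b ℤ) := Rnm_col 0 (-1) 1 0 (by ring)
  have p3 : Prm (![1, 1] : Fin 2 → Qf a b ℤ) := Rnm_col 1 0 1 1 (by ring)
  obtain ⟨k1, ε₁, K1⟩ := hK _ p1
  obtain ⟨k2, ε₂, K2⟩ := hK _ p2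
  obtain ⟨k3, ε₃, K3⟩ := hK _ p3
  have o12 : CG.om (![1, 0] : Fin 2 → Qf a b ℤ) ![0, 1] ≠ 0 := by simp [CG.om]
  have o13 : CG.om (![1, 0] : Fin 2 → Qf a b ℤ) ![1, 1] ≠ 0 := by simp [CG.om]
  have o23 : CG.om (![0, 1] : Fin 2 → Qf a b ℤ) ![1, 1] ≠ 0 := by simp [CG.om]
  obtain ⟨u12, i12, e12⟩ := hun a b M₀ m hP D hD h C E hC _ _ k1 k2 ε₁ ε₂ p1 p2 o12 K1 K2
  obtain ⟨u13, i13, e13⟩ := hun a b M₀ m hP D hD h C E hC _ _ k1 k3 ε₁ ε₃ p1 p3 o13 K1 K3
  obtain ⟨u23, i23, e23⟩ := hun a b M₀ m hP D hD h C E hC _ _ k2 k3 ε₂ ε₃ p2 p3 o23 K2 K3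
  obtain ⟨w12, hw12⟩ := i12.exists_right_inv
  obtain ⟨w23, hw23⟩ := i23.exists_right_inv
  obtain ⟨l, hl⟩ := K1.unit.exists_right_inv
  have hδ : ε₁ * ε₁ * C.det = jH a b (u12 * u13 * w23) := by
    have h3 : jH a b u23 * jH a b w23 = 1 := by rw [← map_mul, hw23, map_one]
    rw [map_mul, map_mul, ← e12, ← e13]
    have h4 : ε₂ * ε₃ * C.det * jH a b w23 = 1 := by rw [e23, h3]
    linear_combination (-(ε₁ * ε₁ * C.det)) * h4
  have iδ : IsUnit (u12 * u13 * w23) :=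
    (i12.mul i13).mul (IsUnit.of_mul_eq_one u23 (by rw [mul_comm, hw23]))
  obtain ⟨w11, hw11⟩ := iδ.exists_right_inv
  have hHD := Rnm_HD hC hl
  refine ⟨ε₁ • C, l • E, u12 * u13 * w23, hHD, iδ, ?_, fun e he => ?_⟩
  · rw [Matrix.det_smul, Fintype.card_fin, ← hδ]
    ring
  · obtain ⟨k, ε, K⟩ := hK e he
    have hε : ∃ u u' : Qf a b ℤ, u * u' = 1 ∧ ε = jH a b u * ε₁ := by
      by_cases h0 : CG.om e ![1, 0] = 0
      · have h1 : CG.om e ![0, 1] ≠ 0 := by
          intro h2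
          obtain ⟨g, hg⟩ := he
          have h3 : e 1 = 0 := by
            have : CG.om e ![1, 0] = -e 1 := by simp [CG.om]
            rw [h0] at this
            exact neg_eq_zero.1 this.symm
          have h4 : e 0 = 0 := by
            have : CG.om e ![0, 1] = e 0 := by simp [CG.om]
            rw [h2] at this
            exact this.symm
          have h5 := g.2
          rw [Matrix.det_fin_two, show g.val 0 0 = e 0 from congrFun hg 0,
            show g.val 1 0 = e 1 from congrFun hg 1, h3, h4] at h5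
          simp at h5
        obtain ⟨u', iu', hu'⟩ := hun a b M₀ m hP D hD h C E hC _ _ k k2 ε ε₂ he p2 h1 K K2
        obtain ⟨u'', hu''⟩ := iu'.exists_right_inv
        refine ⟨u' * w12, u'' * u12, ?_, Rnm_aux hw12 hu' e12⟩
        linear_combination (w12 * u12) * hu'' + hw12
      · obtain ⟨u', iu', hu'⟩ := hun a b M₀ m hP D hD h C E hC _ _ k k1 ε ε₁ he p1 h0 K K1
        obtain ⟨u'', hu''⟩ := iu'.exists_right_inv
        refine ⟨u' * w11, u'' * (u12 * u13 * w23), ?_, Rnm_aux hw11 hu' hδ⟩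
        linear_combination (w11 * (u12 * u13 * w23)) * hu'' + hw11
    obtain ⟨u, v, huv, hε⟩ := hε
    have hvu : v * u = 1 := by rw [mul_comm, huv]
    have hj : jH a b v * jH a b u = 1 := by rw [← map_mul, hvu, map_one]
    refine ⟨k * iH a b (dg v u hvu), isUnit_one, ?_, fun t ht => ?_⟩
    · have h1 : (piH a b (k * iH a b (dg v u hvu))).val.mulVec ![1, 0] =
          (piH a b k).val.mulVec ((piH a b (iH a b (dg v u hvu))).val.mulVec ![1, 0]) := by
        rw [map_mul, Matrix.mulVec_mulVec]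
        rfl
      rw [h1, Rnm_dg, Matrix.mulVec_smul, K.vec, hε, one_smul, Matrix.smul_mulVec, smul_smul]
      congr 1
      linear_combination ε₁ * hj
    · obtain ⟨s, hs, hs'⟩ := K.cnj t ht
      refine ⟨jH a b u ^ 2 * s, ?_, ?_⟩
      · have h1 := (hu a b).2.2.2.2.2 v u hvu (jH a b u ^ 2 * s)
        have h2 : jH a b v ^ 2 * (jH a b u ^ 2 * s) = s := by
          linear_combination (jH a b v * jH a b u + 1) * s * hj
        rw [h2] at h1
        rw [hs, ← h1, mul_inv_rev]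
        group
      · rw [Matrix.det_smul, Fintype.card_fin, ← hs', hε]
        ring

end Pool.Agent.F8.NL
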