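import Pool.Agent.Lib.MP_305fdd_al.F8.NL.StmR
import Pool.Agent.Lib.MP_305fdd_al.F8.CG.P_Vtv

/-! # MP_305fdd_al, NL: the main result of block M for two arbitrary vectors -/

set_option autoImplicit false

namespace Pool.Agent.F8.NL

open Pool.Agent.F8.CG Pool.Agent.F8.BG Pool.Agent.MP_305fdd_al Pool.Agent.Lib.MP_305fdd_al
  Pool.Agent.F8
open scoped QuadraticAlgebra ComplexConjugate Kronecker

noncomputable section

/-- the conjugate subgroup -/
private def Rone_D {a b : ℤ} (g : GQ a b) (D : Subgroup (GQ a b)) : Subgroup (GQ a b) :=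
  D.comap (MulAut.conj g).toMonoidHom

/-- the conjugate homomorphism -/
private def Rone_h {a b : ℤ} (g : GQ a b) {D : Subgroup (GQ a b)} (h : D →* GH a b) :
    Rone_D g D →* GH a b := h.comp ((MulAut.conj g).toMonoidHom.subgroupComap D)

private theorem Rone_mem {a b : ℤ} (g : GQ a b) (D : Subgroup (GQ a b)) (x : GQ a b) :
    x ∈ Rone_D g D ↔ g * x * g⁻¹ ∈ D := Iff.rfl

private theorem Rone_apply {a b : ℤ} (g : GQ a b) {D : Subgroup (GQ a b)} (h : D →* GH a b)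
    (x : GQ a b) (hx : x ∈ Rone_D g D) : Rone_h g h ⟨x, hx⟩ = h ⟨g * x * g⁻¹, hx⟩ := rfl

private theorem Rone_GG {a b : ℤ} (g : GQ a b) :
    (SLm (jH a b) g).val * (SLm (jH a b) g⁻¹).val = 1 := by
  rw [← Matrix.SpecialLinearGroup.coe_mul, ← map_mul, mul_inv_cancel, map_one]
  rfl

private theorem Rone_GG' {a b : ℤ} (g : GQ a b) :
    (SLm (jH a b) g⁻¹).val * (SLm (jH a b) g).val = 1 := by
  rw [← Matrix.SpecialLinearGroup.coe_mul, ← map_mul, inv_mul_cancel, map_one]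
  rfl

private theorem Rone_HD {a b : ℤ} {D : Subgroup (GQ a b)} {h : D →* GH a b}
    {C E : Matrix (Fin 2) (Fin 2) (OH a b)} (hd : HD h C E) (g : GQ a b) :
    HD (Rone_h g h) (C * (SLm (jH a b) g).val) ((SLm (jH a b) g⁻¹).val * E) where
  inv := by
    rw [Matrix.mul_assoc, ← Matrix.mul_assoc _ _ E, Rone_GG, Matrix.one_mul, hd.inv]
  inv' := by
    rw [Matrix.mul_assoc, ← Matrix.mul_assoc E, hd.inv', Matrix.one_mul, Rone_GG']
  lft := by
    rintro ⟨x, hx⟩
    rw [Rone_apply, hd.lft]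
    show C * (SLm (jH a b) (g * x * g⁻¹)).val * E = _
    rw [map_mul, map_mul, Matrix.SpecialLinearGroup.coe_mul, Matrix.SpecialLinearGroup.coe_mul]
    show _ = C * (SLm (jH a b) g).val * (SLm (jH a b) x).val * ((SLm (jH a b) g⁻¹).val * E)
    simp only [Matrix.mul_assoc]

private theorem Rone_eH {a b : ℤ} (g : GQ a b) (f : Fin 2 → Qf a b ℤ) :
    eH (g.val.mulVec f) = (SLm (jH a b) g).val.mulVec (eH f) := by
  funext i
  exact RingHom.map_mulVec (jH a b) g.val f i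

private theorem Rone_Kap {a b : ℤ} {D : Subgroup (GQ a b)} {h : D →* GH a b}
    {C : Matrix (Fin 2) (Fin 2) (OH a b)} (g : GQ a b) (f : Fin 2 → Qf a b ℤ) (k : GH a b)
    (ε : OH a b) (hK : Kap h C (g.val.mulVec f) k ε) :
    Kap (Rone_h g h) (C * (SLm (jH a b) g).val) f k ε where
  unit := hK.unit
  vec := by
    rw [hK.vec, Rone_eH, Matrix.mulVec_mulVec]
  cnj := by
    intro t ht
    have h1 : g * tv f t * g⁻¹ = tv (g.val.mulVec f) t := (p_Vtv _ f 0 t).2.2.1 g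
    have ht' : tv (g.val.mulVec f) t ∈ D := by
      rw [← h1]
      exact ht
    obtain ⟨s, hs1, hs2⟩ := hK.cnj t ht'
    refine ⟨s, ?_, ?_⟩
    · rw [Rone_apply, ← hs1]
      congr 1
      exact Subtype.ext h1
    · rw [Matrix.det_mul, (SLm (jH a b) g).2, mul_one]
      exact hs2

theorem p_Rone (hmain : M_main) : R_one := by
  intro a b M₀ m hP D hD h C E hd e f k k' ε ε' he hf hef hk hk'
  obtain ⟨g, rfl⟩ := he
  obtain ⟨g₁, rfl⟩ := hf
  have e1 : colG g 0 = g.val.mulVec ![1, 0] := by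
    funext i
    simp [colG, Matrix.mulVec, dotProduct, Fin.sum_univ_two]
  have e2 : colG g₁ 0 = g.val.mulVec (colG (g⁻¹ * g₁) 0) := by
    funext i
    have h2 : g₁ = g * (g⁻¹ * g₁) := by group
    have h3 : g₁.val i 0 = (g.val * (g⁻¹ * g₁).val) i 0 := by
      conv_lhs => rw [h2]
      rw [Matrix.SpecialLinearGroup.coe_mul]
    show g₁.val i 0 = _
    rw [h3]
    rfl
  have hfin : (Rone_D g D).FiniteIndex := by
    constructor
    unfold Rone_D
    rw [Subgroup.index_comap_of_surjective D (MulAut.conj g).surjective]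
    exact hD.index_ne_zero
  have h0 : colG (g⁻¹ * g₁) 0 1 ≠ 0 := by
    rw [e1, e2, (p_Vtv _ ![1, 0] 0 0).2.2.2.2.2 g] at hef
    intro h3
    apply hef
    show (![1, 0] : Fin 2 → Qf a b ℤ) 0 * _ - (![1, 0] : Fin 2 → Qf a b ℤ) 1 * _ = 0
    rw [h3]
    simp
  rw [e1] at hk
  rw [e2] at hk'
  exact hmain a b M₀ m hP (Rone_D g D) hfin (Rone_h g h) _ _ (Rone_HD hd g) k k' ε ε'
    (colG (g⁻¹ * g₁) 0) (Rone_Kap g _ k ε hk) ⟨_, rfl⟩ h0 (Rone_Kap g _ k' ε' hk')

end

end Pool.Agent.F8.NL
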