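import Pool.Agent.Lib.MP_305fdd_al.F8.NL.StmR

/-!
# MP_305fdd_al, lattices commensurable with `SL₂(ℤ[w])`: piece Rsrf, the theorem `SRF` (helper22)
-/

set_option autoImplicit false

namespace Pool.Agent.F8.NL

open Pool.Agent.F8.CG Pool.Agent.F8.BG Pool.Agent.MP_305fdd_al Pool.Agent.Lib.MP_305fdd_al
  Pool.Agent.F8
open scoped QuadraticAlgebra ComplexConjugate Kronecker

noncomputable section

/-- the homomorphism to the completion -/
private def Rsrf_h {a b : ℤ} {D : Subgroup (GQ a b)}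
    (h : ∀ (N : Subgroup (GQ a b)) [N.Normal] [N.FiniteIndex], D →* GQ a b ⧸ N)
    (hL : NC.Lft D h) : D →* GH a b where
  toFun x := ⟨fun X => h X.N x, fun X Y hXY => hL.cmp X.N Y.N hXY x⟩
  map_one' := GH_ext fun X => map_one (h X.N)
  map_mul' x y := GH_ext fun X => map_mul (h X.N) x y

private theorem Rsrf_pr {a b : ℤ} {D : Subgroup (GQ a b)}
    (h : ∀ (N : Subgroup (GQ a b)) [N.Normal] [N.FiniteIndex], D →* GQ a b ⧸ N)
    (hL : NC.Lft D h) (X : NF a b) (x : D) : pr X (Rsrf_h h hL x) = h X.N x := rfl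

/-- PIECE NL Rsrf -/
theorem p_Rsrf (hmain : R_main) (hgl : C_gl) : R_srf := by
  intro a b M₀ m H D hDM hD h hL
  obtain ⟨C, E, hC⟩ := hgl a b D (Rsrf_h h hL) (fun m' => by
    haveI : NeZero (m' : ℕ) := ⟨m'.ne_zero⟩
    obtain ⟨C, E, h1, h2, h3⟩ := hL.cg m'
    refine ⟨C, E, h1, h2, fun x => ?_⟩
    exact h3 (NFG a b m').N le_rfl x)
  obtain ⟨γ', A, A', hA, h5⟩ := hmain a b M₀ m H D hD (Rsrf_h h hL) C E hC
  refine ⟨A, A', hA, fun N _ _ => ?_⟩
  obtain ⟨g, hg⟩ := Ap_ex (⟨N, inferInstance, inferInstance⟩ : NF a b) γ'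
  refine ⟨g, fun x => ?_⟩
  have h6 := congrArg (pr (⟨N, inferInstance, inferInstance⟩ : NF a b)) (h5 x)
  rw [map_mul, map_mul, map_inv, show pr _ γ' = _ from hg, pr_iH, ← map_mul, ← map_inv,
    ← map_mul] at h6
  exact h6

end

end Pool.Agent.F8.NL
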