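import Pool.Agent.Lib.MP_305fdd_al.F8.NL.StmR

/-!
# MP_305fdd_al, all lattices (project NL): the numbers `ε` are units up to a common factor (`R_un`)
-/

set_option autoImplicit false

namespace Pool.Agent.F8.NL

open Pool.Agent.F8.CG Pool.Agent.F8.BG Pool.Agent.MP_305fdd_al Pool.Agent.Lib.MP_305fdd_al
  Pool.Agent.F8
open scoped QuadraticAlgebra ComplexConjugate Kronecker

noncomputable section

private theorem Run_act {R : Type} [CommRing R] (g h : SL2 R) (v : Fin 2 → R) :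
    (g * h).val.mulVec v = g.val.mulVec (h.val.mulVec v) := by
  rw [Matrix.mulVec_mulVec]
  rfl

private theorem Run_om {R : Type} [CommRing R] (C : Matrix (Fin 2) (Fin 2) R) (x y : Fin 2 → R)
    (s t : R) : CG.om (s • C.mulVec x) (t • C.mulVec y) = s * t * C.det * CG.om x y := by
  unfold CG.om
  rw [Matrix.det_fin_two]
  simp only [Pi.smul_apply, smul_eq_mul, Matrix.mulVec, dotProduct, Fin.sum_univ_two]
  ring

theorem p_Run (hone : R_one) (hbor : C_bor) (hu : C_u) (ho : C_o) : R_un := by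
  intro a b M₀ m hP D hD h C E hh e f k k' ε ε' he hf hef hk hk'
  obtain ⟨s, γ, hγ, b', hb', hkk⟩ := hone a b M₀ m hP D hD h C E hh e f k k' ε ε' he hf hef hk hk'
  obtain ⟨u, v, huv, r, rfl⟩ := (hbor a b hP.neg b').1 hb'
  obtain ⟨-, -, ho3, ho4, -⟩ := ho a b hP.neg
  have hpi := (hu a b).2.2.1
  -- the vector of `k'`
  have h1 : (eU r : SL2 (OH a b)).val.mulVec ![1, 0] = ![1, 0] := by
    show (!![1, r; 0, 1] : Matrix (Fin 2) (Fin 2) (OH a b)).mulVec ![1, 0] = ![1, 0]
    funext i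
    fin_cases i <;> simp [Matrix.mulVec, dotProduct, Fin.sum_univ_two]
  have h2 : (SLm (jH a b) (dg u v huv)).val.mulVec ![1, 0] =
      jH a b u • (![1, 0] : Fin 2 → OH a b) := by
    have h3 : (SLm (jH a b) (dg u v huv)).val = !![jH a b u, 0; 0, jH a b v] := by
      refine Matrix.ext fun i j => ?_
      show jH a b ((!![u, 0; 0, v] : Matrix (Fin 2) (Fin 2) (Qf a b ℤ)) i j) = _
      fin_cases i <;> fin_cases j <;> simp
    rw [h3]
    funext i
    fin_cases i <;> simp [Matrix.mulVec, dotProduct, Fin.sum_univ_two]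
  have hv1 := hk.vec
  have hv2 := hk'.vec
  rw [hkk, map_mul, map_mul, map_mul, map_mul, hpi, hpi, piH_iH, piH_iH, Run_act, Run_act, Run_act,
    Run_act, h1, h2, Matrix.mulVec_smul, Matrix.mulVec_smul, Matrix.mulVec_smul] at hv2
  -- the form
  have h4 : CG.om ((piH a b k).val.mulVec ![1, 0]) (jH a b u • (piH a b k).val.mulVec
      ((eU s : SL2 (OH a b)).val.mulVec ((SLm (jH a b) γ).val.mulVec ![1, 0]))) =
      jH a b (u * γ.val 1 0) := by
    rw [← Matrix.mulVec_smul, (p_Vtv _ (![1, 0] : Fin 2 → OH a b) 0 0).2.2.2.2.2]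
    show (1 : OH a b) * (jH a b u * (!![1, s; 0, 1] : Matrix (Fin 2) (Fin 2) (OH a b)).mulVec
      ((SLm (jH a b) γ).val.mulVec ![1, 0]) 1) - 0 * _ = _
    have h5 : (!![1, s; 0, 1] : Matrix (Fin 2) (Fin 2) (OH a b)).mulVec
        ((SLm (jH a b) γ).val.mulVec ![1, 0]) 1 = jH a b (γ.val 1 0) := by
      simp [Matrix.mulVec, dotProduct, Fin.sum_univ_two]
    rw [h5, map_mul]
    ring
  rw [hv1, hv2, Run_om] at h4
  have h6 : CG.om (eH e) (eH f) = jH a b (CG.om e f) := by
    unfold CG.om eH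
    simp only [map_sub, map_mul]
  rw [h6, mul_comm] at h4
  obtain ⟨r', -, hr'⟩ := ho3 _ _ _ hef h4
  refine ⟨r', ?_, hr'⟩
  apply ho4
  rw [← hr']
  have hdet : IsUnit C.det := by
    have h1 := congrArg Matrix.det hh.inv
    rw [Matrix.det_mul, Matrix.det_one] at h1
    exact IsUnit.of_mul_eq_one _ h1
  exact (hk.unit.mul hk'.unit).mul hdet

end

end Pool.Agent.F8.NL
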