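import Pool.Agent.Lib.MP_305fdd_al.F8.NL.StmT

/-! Piece `T_aff` of project NL: affine substitutions. -/

set_option autoImplicit false

namespace Pool.Agent.F8.NL

open Pool.Agent.F8.CG Pool.Agent.F8.BG Pool.Agent.MP_305fdd_al Pool.Agent.Lib.MP_305fdd_al
  Pool.Agent.F8
open scoped QuadraticAlgebra ComplexConjugate

noncomputable section

/-- the lower coefficients of `B (α x + β)^(m+1)` -/
private def Taff_1 (m n : ℕ) (B α β : ℂ) (p : Fin (m + 1) × Fin (n + 1)) : ℂ :=
  if p.2 = 0 then B * (α ^ (p.1 : ℕ) * β ^ (m + 1 - p.1) * ((m + 1).choose p.1 : ℂ)) else 0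

/-- the lower coefficients of `R conj (α x + β)^(n+1)` -/
private def Taff_2 (m n : ℕ) (R α β : ℂ) (p : Fin (m + 1) × Fin (n + 1)) : ℂ :=
  if p.1 = 0 then R * (conj α ^ (p.2 : ℕ) * conj β ^ (n + 1 - p.2) * ((n + 1).choose p.2 : ℂ))
  else 0

private theorem Taff_pow (m : ℕ) (u v : ℂ) : (u + v) ^ (m + 1) = u ^ (m + 1) +
    ∑ i : Fin (m + 1), u ^ (i : ℕ) * v ^ (m + 1 - i) * ((m + 1).choose i : ℂ) := by
  rw [add_pow, Finset.sum_range_succ, Finset.sum_range]
  simp [add_comm]

private theorem Taff_ev1 (m n : ℕ) (B α β x : ℂ) : ev1 m n (Taff_1 m n B α β) x =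
    B * ((α * x + β) ^ (m + 1) - α ^ (m + 1) * x ^ (m + 1)) := by
  rw [ev1_eq, Taff_pow, mul_pow, add_sub_cancel_left, Finset.mul_sum,
    ← Finset.univ_product_univ, Finset.sum_product]
  refine Finset.sum_congr rfl fun i _ => ?_
  rw [Finset.sum_eq_single (0 : Fin (n + 1))]
  · simp only [Taff_1, if_true, Fin.val_zero, pow_zero, mul_one, mul_pow]
    ring
  · intro j _ hj
    simp [Taff_1, hj]
  · intro h
    exact absurd (Finset.mem_univ _) h

private theorem Taff_ev2 (m n : ℕ) (R α β x : ℂ) : ev1 m n (Taff_2 m n R α β) x =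
    R * (conj (α * x + β) ^ (n + 1) - conj α ^ (n + 1) * conj x ^ (n + 1)) := by
  rw [ev1_eq, map_add, map_mul, Taff_pow, mul_pow, add_sub_cancel_left, Finset.mul_sum,
    ← Finset.univ_product_univ, Finset.sum_product_right]
  refine Finset.sum_congr rfl fun j _ => ?_
  rw [Finset.sum_eq_single (0 : Fin (m + 1))]
  · simp only [Taff_2, if_true, Fin.val_zero, pow_zero, one_mul, mul_pow]
    ring
  · intro i _ hi
    simp [Taff_2, hi]
  · intro h
    exact absurd (Finset.mem_univ _) h

theorem p_Taff : T_aff := by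
  intro m n hm c B R α β
  let A : Matrix (Fin 2) (Fin 2) ℂ := !![α, β; 0, 1]
  have hA : ∀ x : ℂ, A.mulVec ![x, 1] = ![α * x + β, 1] := by
    intro x
    funext i
    fin_cases i <;> simp [A, Matrix.mulVec, dotProduct, Fin.sum_univ_two]
  have hA1 : A.mulVec ![1, 0] = α • ![1, 0] := by
    funext i
    fin_cases i <;> simp [A, Matrix.mulVec, dotProduct, Fin.sum_univ_two]
  have hl : (Fin.last m) ≠ 0 := by
    intro h
    have := congrArg Fin.val h
    simp at this
    omega
  refine ⟨sbC m n A c + Taff_1 m n B α β + Taff_2 m n R α β, fun x => ?_, fun hB => ?_,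
    fun hn hα => ?_⟩
  · have h1 : ev1 m n (sbC m n A c) x = ev1 m n c (α * x + β) := by
      unfold ev1
      rw [evc_sbC, hA]
    have h2 : ev1 m n (sbC m n A c + Taff_1 m n B α β + Taff_2 m n R α β) x =
        ev1 m n (sbC m n A c) x + ev1 m n (Taff_1 m n B α β) x +
          ev1 m n (Taff_2 m n R α β) x := by
      unfold ev1
      rw [evc_add, evc_add]
    unfold Gf
    rw [h2, h1, Taff_ev1, Taff_ev2]
    ring
  · have h1 : sbC m n A c (Fin.last m, Fin.last n) =
        α ^ m * conj α ^ n * c (Fin.last m, Fin.last n) := by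
      rw [← evc_10 m n (sbC m n A c), evc_sbC, hA1, evc_smul, evc_10]
    show sbC m n A c _ + Taff_1 m n B α β _ + Taff_2 m n R α β _ = _
    rw [h1, hB]
    simp [Taff_1, Taff_2, hl]
  · have h1 : sbC m n A c (Fin.last m, 0) = c (Fin.last m, 0) +
        (if n = 0 then 0 else c (Fin.last m, Fin.last n)) * conj β := by
      unfold sbC
      rw [← evM_11 m n (sb2 m n A (A.map (starRingEnd ℂ)) c), evM_sb2, hA1, hα, one_smul]
      have h3 : (A.map (starRingEnd ℂ)).mulVec ![0, 1] = ![conj β, 1] := by
        funext i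
        fin_cases i <;> simp [A, Matrix.mulVec, dotProduct, Fin.sum_univ_two]
      rw [h3]
      unfold evM
      rw [← Finset.univ_product_univ, Finset.sum_product, Finset.sum_eq_single (Fin.last m)]
      · interval_cases n
        · simp
        · rw [Fin.sum_univ_two]
          simp
      · intro i _ hi
        refine Finset.sum_eq_zero fun j _ => ?_
        have : m - (i : ℕ) ≠ 0 := by
          have h1 := i.2
          have h2 : (i : ℕ) ≠ m := fun h3 => hi (Fin.ext h3)
          omega
        simp [zero_pow this]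
      · intro h
        exact absurd (Finset.mem_univ _) h
    show sbC m n A c _ + Taff_1 m n B α β _ + Taff_2 m n R α β _ = _
    rw [h1]
    simp only [Taff_1, Taff_2, if_true, hl, if_false, Fin.val_last, hα, one_pow, one_mul,
      add_zero]
    rw [show m + 1 - m = 1 by omega, pow_one, Nat.choose_succ_self_right]
    push_cast
    ring

end

end Pool.Agent.F8.NL
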