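import Pool.Agent.Lib.MP_305fdd_al.F8.NL.StmT

/-! Piece `Tdim` of project NL: the dimension estimate. -/

set_option autoImplicit false

namespace Pool.Agent.F8.NL

open Pool.Agent.F8.CG Pool.Agent.F8.BG Pool.Agent.MP_305fdd_al Pool.Agent.Lib.MP_305fdd_al
  Pool.Agent.F8
open scoped QuadraticAlgebra ComplexConjugate

noncomputable section

private theorem Tdim_fin {a b : ℤ} (W : Subgroup (GQ a b)) (hW : W.FiniteIndex) :
    Finite (Cusp W) := by
  let f : GQ a b ⧸ W → Cusp W := fun q => Quotient.mk'' (((q.out)⁻¹ : GQ a b) : CG.Pr a b)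
  apply Finite.of_surjective f
  intro c
  induction c using Quotient.inductionOn' with
  | h p =>
    induction p using Quotient.inductionOn' with
    | h g =>
      refine ⟨((g⁻¹ : GQ a b) : GQ a b ⧸ W), ?_⟩
      obtain ⟨w, hw⟩ := QuotientGroup.mk_out_eq_mul W g⁻¹
      show Quotient.mk'' _ = Quotient.mk'' _
      rw [hw, mul_inv_rev, inv_inv]
      apply Quotient.sound'
      exact ⟨w⁻¹, rfl⟩

private def Tdim_g {a b : ℤ} (W : Subgroup (GQ a b)) (i : Cusp W) : GQ a b :=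
  Quotient.out (Quotient.out i : CG.Pr a b)

private theorem Tdim_rep {a b : ℤ} (W : Subgroup (GQ a b)) (g : GQ a b) :
    ∃ (i : Cusp W) (x : GQ a b), x ∈ W ∧ ∃ k ∈ Bor a b, g = x * Tdim_g W i * k := by
  let i : Cusp W := Quotient.mk'' ((g : GQ a b) : CG.Pr a b)
  have h1 : (Quotient.mk'' (Quotient.out i) : Cusp W) = Quotient.mk'' ((g : GQ a b) : CG.Pr a b) :=
    Quotient.out_eq' i
  obtain ⟨w, hw⟩ := Quotient.exact' h1
  have h2 : ((Tdim_g W i : GQ a b) : CG.Pr a b) = Quotient.out i := Quotient.out_eq' (Quotient.out i)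
  have h3 : (((w : GQ a b) * g : GQ a b) : CG.Pr a b) = ((Tdim_g W i : GQ a b) : CG.Pr a b) := by
    rw [h2, ← hw]
    rfl
  have h4 := QuotientGroup.eq.1 h3
  refine ⟨i, (w : GQ a b)⁻¹, W.inv_mem w.2, _, (Bor a b).inv_mem h4, ?_⟩
  group

private theorem Tdim_mv {R : Type} [CommRing R] (M : Matrix (Fin 2) (Fin 2) R) (v : Fin 2 → R)
    (i : Fin 2) : M.mulVec v i = M i 0 * v 0 + M i 1 * v 1 := by
  rw [Matrix.mulVec_eq_sum]
  simp [Fin.sum_univ_two, mul_comm]

private theorem Tdim_col {a b : ℤ} (g : GQ a b) : colG g 0 ≠ 0 := by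
  intro h2
  have h3 : g.val 0 0 = 0 := congrFun h2 0
  have h4 : g.val 1 0 = 0 := congrFun h2 1
  have h5 := g.2
  rw [Matrix.det_fin_two, h3, h4] at h5
  simp at h5

private theorem Tdim_om {a b : ℤ} (g : GQ a b) :
    CG.om (vC a b (colG g 0)) (vC a b (colG g 1)) = 1 := by
  have h5 := g.2
  rw [Matrix.det_fin_two] at h5
  have h6 := congrArg (iC a b) h5
  rw [map_sub, map_mul, map_mul, map_one] at h6
  unfold CG.om
  show iC a b (g.val 0 0) * iC a b (g.val 1 1) - iC a b (g.val 1 0) * iC a b (g.val 0 1) = 1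
  linear_combination h6

/-- the extension by zero -/
private def Tdim_x {a b : ℤ} {V : Type} [AddCommGroup V] (W : Subgroup (GQ a b)) (z : W → V)
    (x : GQ a b) : V := by
  classical
  exact if h : x ∈ W then z ⟨x, h⟩ else 0

private theorem Tdim_xm {a b : ℤ} {V : Type} [AddCommGroup V] {W : Subgroup (GQ a b)} (z : W → V)
    {x : GQ a b} (h : x ∈ W) : Tdim_x W z x = z ⟨x, h⟩ := by
  unfold Tdim_x
  exact dif_pos h

private theorem Tdim_CH {a b : ℤ} {m : ℕ} {W : Subgroup (GQ a b)}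
    {z : W → Fin (m + 1) × Fin (1 + 1) → ℂ}
    (hz : z ∈ ZE (tE ((tM m 1 (iC a b) (cC a b)).comp W.subtype))) :
    CH (tM m 1 (iC a b) (cC a b)) W (Tdim_x W z) := by
  intro x hx y hy
  rw [Tdim_xm z hx, Tdim_xm z hy, Tdim_xm z (mul_mem hx hy)]
  exact hz ⟨x, hx⟩ ⟨y, hy⟩

/-- the coefficients -/
private def Tdim_E {a b : ℤ} (m N : ℕ) (W : Subgroup (GQ a b)) (hN : Lv W N) (i : Cusp W)
    (t : Qf a b ℤ) (z : W → Fin (m + 1) × Fin (1 + 1) → ℂ) : ℂ :=
  evM m 1 (z ⟨tv (colG (Tdim_g W i) 0) ((N : Qf a b ℤ) * t), hN.2 _ _⟩)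
    (vC a b (colG (Tdim_g W i) 0)) (fun j => conj (vC a b (colG (Tdim_g W i) 1) j))

/-- the functionals -/
private def Tdim_L {a b : ℤ} (m N : ℕ) (W : Subgroup (GQ a b)) (hN : Lv W N) :
    (W → Fin (m + 1) × Fin (1 + 1) → ℂ) →ₗ[ℂ] (Cusp W → ℂ) where
  toFun z i := Tdim_E m N W hN i ⟨0, 1⟩ z - conj (CG.wC a b) * Tdim_E m N W hN i 1 z
  map_add' z w := by
    ext i
    simp only [Pi.add_apply]
    unfold Tdim_E
    rw [Pi.add_apply, Pi.add_apply, evM_add, evM_add]
    ring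
  map_smul' c z := by
    ext i
    simp only [Pi.smul_apply, RingHom.id_apply, smul_eq_mul]
    unfold Tdim_E
    rw [Pi.smul_apply, Pi.smul_apply, evM_csmul, evM_csmul]
    ring

/-- the coboundaries -/
private def Tdim_K {a b : ℤ} (m : ℕ) (W : Subgroup (GQ a b)) :
    (Fin (m + 1) × Fin (1 + 1) → ℂ) →ₗ[ℂ] (W → Fin (m + 1) × Fin (1 + 1) → ℂ) where
  toFun v x := (tM m 1 (iC a b) (cC a b) x.val).mulVec v - v
  map_add' v w := by
    funext x
    simp only [Matrix.mulVec_add, Pi.add_apply]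
    abel
  map_smul' c v := by
    funext x
    simp only [Matrix.mulVec_smul, Pi.smul_apply, RingHom.id_apply, smul_sub]

private theorem Tdim_HB (htd : T_td) {a b : ℤ} (hn : b ^ 2 + 4 * a < 0) {m N : ℕ} (hm : 1 ≤ m)
    (W : Subgroup (GQ a b)) (hN : Lv W N) (z : W → Fin (m + 1) × Fin (1 + 1) → ℂ)
    (hz : z ∈ ZE (tE ((tM m 1 (iC a b) (cC a b)).comp W.subtype)))
    (h0 : Tdim_L m N W hN z = 0) : HB m 1 N (Tdim_x W z) := by
  have hCH := Tdim_CH hz
  obtain ⟨T1, T2, T3, _, T5⟩ := htd a b hn m 1 le_rfl hm W N hN (Tdim_x W z) hCH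
  have hw := wC_im hn
  intro g
  obtain ⟨i, x, hx, k, hk, hg⟩ := Tdim_rep W g
  have hB : ∃ c B R, TD m 1 N (Tdim_x W z) (colG (Tdim_g W i) 0) (vC a b (colG (Tdim_g W i) 1)) c B R
      ∧ B = 0 := by
    obtain ⟨c, B, R, hTD⟩ := T1 _ _ (Tdim_col (Tdim_g W i)) (Tdim_om (Tdim_g W i))
    refine ⟨c, B, R, hTD, ?_⟩
    obtain ⟨κ, hκ⟩ := T5 _ _ _ _ _ hTD
    have h1 := hκ 1
    have h2 := hκ ⟨0, 1⟩
    rw [Tdim_xm z (hN.2 _ _)] at h1 h2
    have h3 : Tdim_E m N W hN i ⟨0, 1⟩ z - conj (CG.wC a b) * Tdim_E m N W hN i 1 z = 0 :=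
      congrFun h0 i
    unfold Tdim_E at h3
    rw [h1, h2, iC_apply, map_one] at h3
    simp only [Int.cast_zero, Int.cast_one, one_mul, zero_add, mul_one, map_mul,
      Complex.conj_natCast] at h3
    have h4 : ((m : ℂ) + 1) * B * N * (CG.wC a b - conj (CG.wC a b)) = 0 := by
      linear_combination h3
    have h5 : CG.wC a b - conj (CG.wC a b) ≠ 0 := by
      intro h5
      have h6 := congrArg Complex.im h5
      simp only [Complex.sub_im, Complex.conj_im, Complex.zero_im] at h6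
      linarith
    have h6 := (mul_eq_zero.1 h4).resolve_right h5
    have h7 : (N : ℂ) ≠ 0 := Nat.cast_ne_zero.2 hN.1
    have h8 := (mul_eq_zero.1 h6).resolve_right h7
    have h9 : ((m : ℂ) + 1) ≠ 0 := by exact_mod_cast Nat.succ_ne_zero m
    exact (mul_eq_zero.1 h8).resolve_left h9
  obtain ⟨c, B, R, hTD, hB0⟩ := hB
  set d := colG (Tdim_g W i) 0 with hd
  have hd0 : d ≠ 0 := Tdim_col _
  obtain ⟨c1, hTD1, _⟩ := T3 x hx d _ c B R hd0 (Tdim_om _) hTD
  have hcol : colG g 0 = k.val 0 0 • x.val.mulVec d := by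
    have hm : ∀ (g h : GQ a b) (i k : Fin 2),
        (g * h).val i k = g.val i 0 * h.val 0 k + g.val i 1 * h.val 1 k := fun g h i k => by
      show (g.val * h.val) i k = _
      rw [Matrix.mul_apply, Fin.sum_univ_two]
    have hk' : k.val 1 0 = 0 := hk
    ext j : 1
    show g.val j 0 = k.val 0 0 * x.val.mulVec d j
    rw [Tdim_mv]
    show _ = k.val 0 0 * (x.val j 0 * (Tdim_g W i).val 0 0 + x.val j 1 * (Tdim_g W i).val 1 0)
    rw [hg, hm, hm, hm, hk']
    ring
  have hk0 : k.val 0 0 ≠ 0 := by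
    intro h1
    rw [h1, zero_smul] at hcol
    exact Tdim_col g hcol
  have hxd : x.val.mulVec d ≠ 0 := by
    intro h1
    rw [h1, smul_zero] at hcol
    exact Tdim_col g hcol
  have hom1 : CG.om (vC a b (x.val.mulVec d)) ((iG a b x).val.mulVec
      (vC a b (colG (Tdim_g W i) 1))) = 1 := by
    rw [vC_mv, om_mv]
    exact Tdim_om _
  have hom2 : CG.om (vC a b (k.val 0 0 • x.val.mulVec d)) (vC a b (colG g 1)) = 1 := by
    rw [← hcol]
    exact Tdim_om g
  obtain ⟨c2, B2, R2, hTD2, hB2, _⟩ := T2 _ _ _ (k.val 0 0) c1 B R hxd hk0 hom1 hom2 hTD1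
  rw [← hcol] at hTD2
  obtain ⟨κ, hκ⟩ := T5 _ _ _ _ _ hTD2
  refine ⟨κ * N, fun t => ?_⟩
  rw [hκ t, hB2.1 hB0, map_mul, Complex.conj_natCast]
  ring

theorem p_Tdim (htd : T_td) (hN : T_vtN) : T_dim := by
  intro a b hn hEu hP m hm W hW
  have hfin := Tdim_fin W hW
  refine ⟨hfin, ?_⟩
  let _ : Fintype (Cusp W) := Fintype.ofFinite _
  obtain ⟨N, hL⟩ := Lv_ex W hW
  set Z := ZE (tE ((tM m 1 (iC a b) (cC a b)).comp W.subtype)) with hZ
  let L : Z →ₗ[ℂ] (Cusp W → ℂ) := Tdim_L m N W hL ∘ₗ Z.subtype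
  have h1 : Module.rank ℂ (LinearMap.range L) ≤ (Nat.card (Cusp W) : Cardinal) := by
    refine (Submodule.rank_le _).trans ?_
    rw [rank_fun', Nat.card_eq_fintype_card]
  have h2 : Module.rank ℂ (LinearMap.ker L) ≤ ((2 * (m + 1) : ℕ) : Cardinal) := by
    have h3 : ∀ z : LinearMap.ker L, z.val.val ∈ LinearMap.range (Tdim_K m W) := by
      intro z
      have h4 := z.2
      rw [LinearMap.mem_ker] at h4
      have h5 : Tdim_L m N W hL z.val.val = 0 := h4
      have h6 := Tdim_HB htd hn (by omega) W hL z.val.val z.val.2 h5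
      obtain ⟨v, hv⟩ := hN a b hn hEu hP m 1 (Or.inr ⟨rfl, hm⟩) W hW N hL _
        (Tdim_CH z.val.2) h6
      refine ⟨v, ?_⟩
      funext x
      have h7 := hv x.val x.2
      rw [Tdim_xm z.val.val x.2] at h7
      exact h7.symm
    let f : LinearMap.ker L →ₗ[ℂ] LinearMap.range (Tdim_K (a := a) (b := b) m W) :=
      LinearMap.codRestrict (LinearMap.range (Tdim_K m W))
        (Z.subtype ∘ₗ (LinearMap.ker L).subtype) h3
    have hf : Function.Injective f := by
      intro y z hyz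
      have h6 : (f y).val = (f z).val := congrArg Subtype.val hyz
      apply Subtype.ext
      apply Subtype.ext
      exact h6
    refine (LinearMap.rank_le_of_injective f hf).trans ?_
    refine (rank_range_le _).trans ?_
    rw [rank_fun', Fintype.card_prod, Fintype.card_fin, Fintype.card_fin]
    exact_mod_cast (by omega : (m + 1) * (1 + 1) ≤ 2 * (m + 1))
  have h3 : Module.rank ℂ Z ≤ ((2 * (m + 1) + Nat.card (Cusp W) : ℕ) : Cardinal) := by
    rw [← LinearMap.rank_range_add_rank_ker L]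
    calc Module.rank ℂ (LinearMap.range L) + Module.rank ℂ (LinearMap.ker L)
        ≤ (Nat.card (Cusp W) : Cardinal) + ((2 * (m + 1) : ℕ) : Cardinal) := add_le_add h1 h2
      _ = ((2 * (m + 1) + Nat.card (Cusp W) : ℕ) : Cardinal) := by
        push_cast
        rw [add_comm]
  refine ⟨?_, Module.finrank_le_of_rank_le h3⟩
  exact Module.rank_lt_aleph0_iff.1 (lt_of_le_of_lt h3 (Cardinal.natCast_lt_aleph0))

end

end Pool.Agent.F8.NL
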