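import Pool.Agent.Lib.MP_305fdd_al.F8.NL.StmT

/-!
# [NL T fam] the family of functions for block A
-/

set_option autoImplicit false

namespace Pool.Agent.F8.NL

open Pool.Agent.F8.CG Pool.Agent.F8.BG Pool.Agent.MP_305fdd_al Pool.Agent.Lib.MP_305fdd_al
  Pool.Agent.F8
open scoped QuadraticAlgebra ComplexConjugate

noncomputable section

variable {a b : ℤ}

/-! ### The field -/

private theorem Tfam_kC (t : Qf a b ℤ) : iC a b t ∈ kC a b :=
  ⟨t, 1, one_ne_zero, by rw [map_one, mul_one]⟩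

private theorem Tfam_kadd (hn : b ^ 2 + 4 * a < 0) {x y : ℂ} (hx : x ∈ kC a b)
    (hy : y ∈ kC a b) : x + y ∈ kC a b := by
  have : IsDomain (Qf a b ℤ) := Qf_domain hn
  obtain ⟨p, q, hq, h1⟩ := hx
  obtain ⟨p', q', hq', h2⟩ := hy
  refine ⟨p * q' + p' * q, q * q', mul_ne_zero hq hq', ?_⟩
  rw [map_add, map_mul, map_mul, map_mul, ← h1, ← h2]
  ring

private theorem Tfam_kmul (hn : b ^ 2 + 4 * a < 0) {x y : ℂ} (hx : x ∈ kC a b)
    (hy : y ∈ kC a b) : x * y ∈ kC a b := by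
  have : IsDomain (Qf a b ℤ) := Qf_domain hn
  obtain ⟨p, q, hq, h1⟩ := hx
  obtain ⟨p', q', hq', h2⟩ := hy
  refine ⟨p * p', q * q', mul_ne_zero hq hq', ?_⟩
  rw [map_mul, map_mul, ← h1, ← h2]
  ring

private theorem Tfam_va1 (hn : b ^ 2 + 4 * a < 0) (g : GQ a b) {e : ℂ × ℂ} (h1 : e.1 ∈ kC a b)
    (h2 : e.2 ∈ kC a b) : (va g e).1 ∈ kC a b :=
  Tfam_kadd hn (Tfam_kmul hn (Tfam_kC _) h1) (Tfam_kmul hn (Tfam_kC _) h2)

private theorem Tfam_va2 (hn : b ^ 2 + 4 * a < 0) (g : GQ a b) {e : ℂ × ℂ} (h1 : e.1 ∈ kC a b)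
    (h2 : e.2 ∈ kC a b) : (va g e).2 ∈ kC a b :=
  Tfam_kadd hn (Tfam_kmul hn (Tfam_kC _) h1) (Tfam_kmul hn (Tfam_kC _) h2)

private theorem Tfam_va0 (g : GQ a b) : va g (0 : ℂ × ℂ) = 0 := by
  ext <;> simp [va]

private theorem Tfam_vane (g : GQ a b) {e : ℂ × ℂ} (he : e ≠ 0) : va g e ≠ 0 := by
  intro h
  apply he
  rw [← va_one (a := a) (b := b) e, ← inv_mul_cancel g, va_mul, h, Tfam_va0]

private theorem Tfam_valin (g : GQ a b) (l : ℂ) (e : ℂ × ℂ) :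
    va g (l * e.1, l * e.2) = (l * (va g e).1, l * (va g e).2) := by
  ext
  · show iC a b (g.val 0 0) * (l * e.1) + iC a b (g.val 0 1) * (l * e.2) =
      l * (iC a b (g.val 0 0) * e.1 + iC a b (g.val 0 1) * e.2)
    ring
  · show iC a b (g.val 1 0) * (l * e.1) + iC a b (g.val 1 1) * (l * e.2) =
      l * (iC a b (g.val 1 0) * e.1 + iC a b (g.val 1 1) * e.2)
    ring

private theorem Tfam_vaU (β : Qf a b ℤ) (x : ℂ) :
    va (eU β : GQ a b) (x, 1) = (x + iC a b β, 1) := by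
  ext
  · show iC a b 1 * x + iC a b β * 1 = x + iC a b β
    rw [map_one, one_mul, mul_one]
  · show iC a b 0 * x + iC a b 1 * 1 = 1
    rw [map_one, map_zero, zero_mul, mul_one, zero_add]

private theorem Tfam_va10 (g : GQ a b) :
    va g (1, 0) = (iC a b (colG g 0 0), iC a b (colG g 0 1)) := by
  ext
  · show iC a b (g.val 0 0) * 1 + iC a b (g.val 0 1) * 0 = iC a b (g.val 0 0)
    rw [mul_one, mul_zero, add_zero]
  · show iC a b (g.val 1 0) * 1 + iC a b (g.val 1 1) * 0 = iC a b (g.val 1 0)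
    rw [mul_one, mul_zero, add_zero]

private theorem Tfam_pvx (g : GQ a b) (x : ℂ) :
    pv (va g (x, 1)) = x • vC a b (colG g 0) + vC a b (colG g 1) := by
  funext i
  fin_cases i
  · show iC a b (g.val 0 0) * x + iC a b (g.val 0 1) * 1 =
      x * iC a b (g.val 0 0) + iC a b (g.val 0 1)
    ring
  · show iC a b (g.val 1 0) * x + iC a b (g.val 1 1) * 1 =
      x * iC a b (g.val 1 0) + iC a b (g.val 1 1)
    ring

private theorem Tfam_col (g : GQ a b) : colG g 0 ≠ 0 := by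
  intro h2
  have h3 : g.val 0 0 = 0 := congrFun h2 0
  have h4 : g.val 1 0 = 0 := congrFun h2 1
  have h5 := g.2
  rw [Matrix.det_fin_two, h3, h4] at h5
  simp at h5

private theorem Tfam_conj (g : GQ a b) (t : Qf a b ℤ) :
    tv (colG g 0) t * g = g * eU t := by
  have h1 : g.val.mulVec ![1, 0] = colG g 0 := by
    funext i
    simp [Matrix.mulVec, dotProduct, Fin.sum_univ_two, colG]
  rw [eU_eq_tv, ← h1, ← (p_Vtv _ ![1, 0] 0 t).2.2.1 g]
  group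

/-! ### The representatives -/

/-- the representatives -/
private def Tfam_g (W : Subgroup (GQ a b)) (o : GQ a b ⧸ W) : GQ a b := (Quotient.out o)⁻¹

private theorem Tfam_gmk (W : Subgroup (GQ a b)) (o : GQ a b ⧸ W) :
    (QuotientGroup.mk (Tfam_g W o)⁻¹ : GQ a b ⧸ W) = o := by
  unfold Tfam_g
  rw [inv_inv]
  exact Quotient.out_eq o

private theorem Tfam_act (W : Subgroup (GQ a b)) (o : GQ a b ⧸ W) (h : GQ a b) :
    h⁻¹ • o = QuotientGroup.mk (Tfam_g W o * h)⁻¹ := by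
  conv_lhs => rw [← Tfam_gmk W o]
  rw [MulAction.Quotient.smul_mk, smul_eq_mul, mul_inv_rev]

private theorem Tfam_x (W : Subgroup (GQ a b)) (o : GQ a b ⧸ W) (h : GQ a b) :
    ∃ x ∈ W, Tfam_g W (h⁻¹ • o) = x * (Tfam_g W o * h) := by
  have h1 : (QuotientGroup.mk (Tfam_g W (h⁻¹ • o))⁻¹ : GQ a b ⧸ W) =
      QuotientGroup.mk (Tfam_g W o * h)⁻¹ := by
    rw [Tfam_gmk, ← Tfam_act]
  have h2 := QuotientGroup.eq.1 h1
  rw [inv_inv] at h2
  refine ⟨_, h2, ?_⟩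
  group

/-- the class of `β` -/
private theorem Tfam_cls (W : Subgroup (GQ a b)) (N : ℕ) (hN : Lv W N) (o : GQ a b ⧸ W)
    (β₀ γ : Qf a b ℤ) :
    (eU ((N : Qf a b ℤ) * γ + β₀) : GQ a b)⁻¹ • o = (eU β₀ : GQ a b)⁻¹ • o := by
  rw [Tfam_act, Tfam_act, eU_add, ← mul_assoc,
    ← Tfam_conj (Tfam_g W o) ((N : Qf a b ℤ) * γ)]
  apply QuotientGroup.eq.2
  have h1 : ((tv (colG (Tfam_g W o) 0) ((N : Qf a b ℤ) * γ) * Tfam_g W o * eU β₀)⁻¹)⁻¹ *
      (Tfam_g W o * eU β₀)⁻¹ = tv (colG (Tfam_g W o) 0) ((N : Qf a b ℤ) * γ) := by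
    group
  rw [h1]
  exact hN.2 _ γ

/-! ### The family -/

section fam

variable {m n : ℕ} {W : Subgroup (GQ a b)} {z : GQ a b → Fin (m + 1) × Fin (n + 1) → ℂ}
  {f : (Fin 2 → Qf a b ℤ) → ℂ} {F : ℂ × ℂ → ℂ}

/-- the functions of the family -/
private def Tfam_F (F : ℂ × ℂ → ℂ) (W : Subgroup (GQ a b))
    (c : GQ a b ⧸ W → Fin (m + 1) × Fin (n + 1) → ℂ) (o : GQ a b ⧸ W) (e : ℂ × ℂ) : ℂ :=
  F (va (Tfam_g W o) e) + evc m n (c o) (pv e)

private theorem Tfam_eqv (hn : b ^ 2 + 4 * a < 0) (hF : FxM m n W z f F)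
    (c : GQ a b ⧸ W → Fin (m + 1) × Fin (n + 1) → ℂ) (h : GQ a b) (o : GQ a b ⧸ W) :
    ∃ q : Fin (m + 1) × Fin (n + 1) → ℂ, ∀ e : ℂ × ℂ, e.1 ∈ kC a b → e.2 ∈ kC a b → e ≠ 0 →
      Tfam_F F W c o (va h e) = Tfam_F F W c (h⁻¹ • o) e + evc m n q (pv e) := by
  obtain ⟨x, hx, hg⟩ := Tfam_x W o h
  refine ⟨sbC m n (iG a b (Tfam_g W (h⁻¹ • o))).val (z x) + sbC m n (iG a b h).val (c o) -
    c (h⁻¹ • o), fun e h1 h2 he => ?_⟩
  rw [evc_sub, evc_add, evc_sbC, evc_sbC, ← pv_va, ← pv_va]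
  unfold Tfam_F
  have h3 : F (va (Tfam_g W (h⁻¹ • o)) e) = F (va (Tfam_g W o) (va h e)) -
      evc m n (z x) (pv (va (Tfam_g W (h⁻¹ • o)) e)) := by
    have h4 := hF.eqv x hx (va (Tfam_g W o * h) e) (Tfam_va1 hn _ h1 h2) (Tfam_va2 hn _ h1 h2)
      (Tfam_vane _ he)
    rw [← va_mul, ← hg, va_mul] at h4
    exact h4
  rw [h3]
  ring

/-- translations with elements of `N ℤ[w]` -/
private theorem Tfam_tr (hn : b ^ 2 + 4 * a < 0) {N : ℕ} (hN : Lv W N) (hF : FxM m n W z f F)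
    (c : GQ a b ⧸ W → Fin (m + 1) × Fin (n + 1) → ℂ) (R : GQ a b ⧸ W → ℂ) (o : GQ a b ⧸ W)
    (hTD : TD m n N z (colG (Tfam_g W o) 0) (vC a b (colG (Tfam_g W o) 1)) (c o) 0 (R o))
    (γ : Qf a b ℤ) (x : ℂ) (hx : x ∈ kC a b) :
    Tfam_F F W c o (x + iC a b ((N : Qf a b ℤ) * γ), 1) = Tfam_F F W c o (x, 1) -
      R o * (conj (x + iC a b ((N : Qf a b ℤ) * γ)) ^ (n + 1) - conj x ^ (n + 1)) := by
  set x' := x + iC a b ((N : Qf a b ℤ) * γ) with hx'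
  have h1 : (1 : ℂ) ∈ kC a b := by
    have := Tfam_kC (a := a) (b := b) 1
    rwa [map_one] at this
  have h0 : ((x, 1) : ℂ × ℂ) ≠ 0 := fun h => one_ne_zero (congrArg Prod.snd h)
  have h2 := hF.eqv _ (hN.2 (colG (Tfam_g W o) 0) γ) (va (Tfam_g W o) (x, 1))
    (Tfam_va1 hn _ hx h1) (Tfam_va2 hn _ hx h1) (Tfam_vane _ h0)
  rw [← va_mul, Tfam_conj, va_mul, Tfam_vaU, ← hx', Tfam_pvx, hTD γ x'] at h2
  have h3 : x' - N * iC a b γ = x := by
    rw [hx', map_mul, map_natCast]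
    ring
  rw [h3] at h2
  unfold Tfam_F
  rw [h2]
  unfold Gf ev1
  show _ - (evc m n (c o) (pv (x', 1)) + _ + _ - (evc m n (c o) (pv (x, 1)) + _ + _)) + _ = _
  ring

private theorem Tfam_bd (m n : ℕ) (q : Fin (m + 1) × Fin (n + 1) → ℂ) (x : ℂ) (hx : ‖x‖ ≤ 1) :
    ‖evc m n q (pv (x, 1))‖ ≤ ∑ p, ‖q p‖ := by
  rw [evc_pv]
  refine (norm_sum_le _ _).trans (Finset.sum_le_sum fun p _ => ?_)
  rw [norm_mul]
  refine mul_le_of_le_one_right (norm_nonneg _) ?_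
  simp only [map_one, one_pow, mul_one]
  rw [norm_mul, norm_pow, norm_pow, RCLike.norm_conj]
  exact mul_le_one₀ (pow_le_one₀ (norm_nonneg _) hx) (pow_nonneg (norm_nonneg _) _)
    (pow_le_one₀ (norm_nonneg _) hx)

end fam

theorem p_Tfam : T_fam := by
  intro a b hn m n hm W hW N hN z f hf F hF
  classical
  have hfin : Finite (GQ a b ⧸ W) := Subgroup.finite_quotient_of_finiteIndex
  let _ : Fintype (GQ a b ⧸ W) := Fintype.ofFinite _
  choose c R hc hTD using fun o : GQ a b ⧸ W => hf.uni (Tfam_g W o)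
  refine ⟨Tfam_g W, c, Tfam_gmk W, ?_⟩
  have heqv := Tfam_eqv hn hF c
  choose q hq using heqv
  refine ⟨?_, ?_, ?_, ?_⟩
  · intro o l e hl hl0 h1 h2
    rw [Tfam_valin, hF.hom l _ hl hl0 (Tfam_va1 hn _ h1 h2) (Tfam_va2 hn _ h1 h2), pv_smul,
      evc_smul]
    ring
  · intro o
    rw [Tfam_va10, hF.ext _ (Tfam_col _)]
    show f (colG (Tfam_g W o) 0) + evc m n (c o) ![1, 0] = 0
    rw [evc_10, hc]
    ring
  · intro g o
    exact ⟨_, evc_mem m n (q g o), fun e h1 h2 he => hq g o e h1 h2 he⟩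
  · set C : (GQ a b ⧸ W) → (Fin N × Fin N) → ℝ := fun o i =>
      (∑ p, ‖q (eU ⟨((i.1 : ℕ) : ℤ), ((i.2 : ℕ) : ℤ)⟩) o p‖) + ‖R o‖ *
        (1 + (1 + ‖iC a b ⟨((i.1 : ℕ) : ℤ), ((i.2 : ℕ) : ℤ)⟩‖) ^ (n + 1)) with hC
    have hC0 : ∀ o i, 0 ≤ C o i := fun o i => by
      rw [hC]
      positivity
    refine ⟨∑ o, ∑ i, C o i, fun o β x hx hx1 => ?_⟩
    have hN0 : 0 < (N : ℤ) := by
      have := hN.1
      omega
    obtain ⟨i, γ, hβ⟩ : ∃ (i : Fin N × Fin N) (γ : Qf a b ℤ),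
        β = (N : Qf a b ℤ) * γ + ⟨((i.1 : ℕ) : ℤ), ((i.2 : ℕ) : ℤ)⟩ := by
      have h1 := Int.emod_nonneg β.re hN0.ne'
      have h2 := Int.emod_lt_of_pos β.re hN0
      have h3 := Int.emod_nonneg β.im hN0.ne'
      have h4 := Int.emod_lt_of_pos β.im hN0
      refine ⟨(⟨(β.re % N).toNat, by omega⟩, ⟨(β.im % N).toNat, by omega⟩),
        ⟨β.re / N, β.im / N⟩, ?_⟩
      have h5 := Int.mul_ediv_add_emod β.re N
      have h6 := Int.mul_ediv_add_emod β.im N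
      apply QuadraticAlgebra.ext
      · simp only [QuadraticAlgebra.re_add, QuadraticAlgebra.re_mul, QuadraticAlgebra.re_natCast,
          QuadraticAlgebra.im_natCast, Int.toNat_of_nonneg h1]
        simp
        linarith
      · simp only [QuadraticAlgebra.im_add, QuadraticAlgebra.im_mul, QuadraticAlgebra.re_natCast,
          QuadraticAlgebra.im_natCast, Int.toNat_of_nonneg h3]
        simp
        linarith
    set β₀ : Qf a b ℤ := ⟨((i.1 : ℕ) : ℤ), ((i.2 : ℕ) : ℤ)⟩ with hβ₀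
    have h1 : (1 : ℂ) ∈ kC a b := by
      have := Tfam_kC (a := a) (b := b) 1
      rwa [map_one] at this
    have h0 : ((x, 1) : ℂ × ℂ) ≠ 0 := fun h => one_ne_zero (congrArg Prod.snd h)
    have hxβ : x + iC a b β = (x + iC a b β₀) + iC a b ((N : Qf a b ℤ) * γ) := by
      rw [hβ, map_add]
      ring
    have h2 := Tfam_tr hn hN hF c R o (hTD o) γ (x + iC a b β₀)
      (Tfam_kadd hn hx (Tfam_kC _))
    have h3 := hq (eU β₀) o (x, 1) hx h1 h0
    rw [Tfam_vaU] at h3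
    have h4 : (eU β : GQ a b)⁻¹ • o = (eU β₀ : GQ a b)⁻¹ • o := by
      rw [hβ]
      exact Tfam_cls W N hN o β₀ γ
    have h5 : F (va (Tfam_g W o) (x + iC a b β, 1)) + evc m n (c o) (pv (x + iC a b β, 1)) -
        (F (va (Tfam_g W ((eU β : GQ a b)⁻¹ • o)) (x, 1)) +
          evc m n (c ((eU β : GQ a b)⁻¹ • o)) (pv (x, 1))) =
        evc m n (q (eU β₀) o) (pv (x, 1)) -
          R o * (conj (x + iC a b β) ^ (n + 1) - conj (x + iC a b β₀) ^ (n + 1)) := by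
      have h6 : Tfam_F F W c o (x + iC a b β, 1) -
          Tfam_F F W c ((eU β : GQ a b)⁻¹ • o) (x, 1) = evc m n (q (eU β₀) o) (pv (x, 1)) -
          R o * (conj (x + iC a b β) ^ (n + 1) - conj (x + iC a b β₀) ^ (n + 1)) := by
        rw [h4, hxβ, h2, h3]
        ring
      exact h6
    rw [h5]
    have h6 : C o i ≤ ∑ o, ∑ i, C o i :=
      (Finset.single_le_sum (f := fun i => C o i) (fun i _ => hC0 o i) (Finset.mem_univ i)).trans
        (Finset.single_le_sum (f := fun o => ∑ i, C o i)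
          (fun o _ => Finset.sum_nonneg fun i _ => hC0 o i) (Finset.mem_univ o))
    have h7 : (1 : ℝ) ≤ (1 + ‖iC a b β‖) ^ (n + 1) :=
      one_le_pow₀ (by
        have := norm_nonneg (iC a b β)
        linarith)
    refine le_trans ?_ (mul_le_mul_of_nonneg_right h6 (zero_le_one.trans h7))
    have h8 : ‖conj (x + iC a b β) ^ (n + 1)‖ ≤ (1 + ‖iC a b β‖) ^ (n + 1) := by
      rw [norm_pow, RCLike.norm_conj]
      exact pow_le_pow_left₀ (norm_nonneg _) ((norm_add_le _ _).trans (by linarith)) _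
    have h9 : ‖conj (x + iC a b β₀) ^ (n + 1)‖ ≤ (1 + ‖iC a b β₀‖) ^ (n + 1) := by
      rw [norm_pow, RCLike.norm_conj]
      exact pow_le_pow_left₀ (norm_nonneg _) ((norm_add_le _ _).trans (by linarith)) _
    have h10 := Tfam_bd m n (q (eU β₀) o) x hx1
    have h11 : ‖evc m n (q (eU β₀) o) (pv (x, 1)) -
        R o * (conj (x + iC a b β) ^ (n + 1) - conj (x + iC a b β₀) ^ (n + 1))‖ ≤
        (∑ p, ‖q (eU β₀) o p‖) + ‖R o‖ * ((1 + ‖iC a b β‖) ^ (n + 1) +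
          (1 + ‖iC a b β₀‖) ^ (n + 1)) := by
      refine (norm_sub_le _ _).trans (add_le_add h10 ?_)
      rw [norm_mul]
      exact mul_le_mul_of_nonneg_left ((norm_sub_le _ _).trans (add_le_add h8 h9))
        (norm_nonneg _)
    refine h11.trans ?_
    have h12 : C o i = (∑ p, ‖q (eU β₀) o p‖) + ‖R o‖ *
        (1 + (1 + ‖iC a b β₀‖) ^ (n + 1)) := rfl
    rw [h12, add_mul]
    have h13 : 0 ≤ ∑ p, ‖q (eU β₀) o p‖ := Finset.sum_nonneg fun _ _ => norm_nonneg _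
    have h14 : (0 : ℝ) ≤ (1 + ‖iC a b β₀‖) ^ (n + 1) := by positivity
    refine add_le_add (le_mul_of_one_le_right h13 h7) ?_
    rw [mul_assoc]
    refine mul_le_mul_of_nonneg_left ?_ (norm_nonneg _)
    nlinarith

end

end Pool.Agent.F8.NL
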