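import Pool.Agent.Lib.MP_305fdd_al.F8.NL.StmT

/-!
# MP_305fdd_al, all lattices (project NL): the extension of the homogeneous function to `k²`
-/

set_option autoImplicit false

namespace Pool.Agent.F8.NL

open Pool.Agent.F8.CG Pool.Agent.F8.BG Pool.Agent.MP_305fdd_al Pool.Agent.Lib.MP_305fdd_al
  Pool.Agent.F8
open scoped QuadraticAlgebra ComplexConjugate

noncomputable section

variable {a b : ℤ}

/-- `e₀ / q = e` -/
private def Tfx_R (e : ℂ × ℂ) (q : Qf a b ℤ) (e₀ : Fin 2 → Qf a b ℤ) : Prop :=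
  q ≠ 0 ∧ e₀ ≠ 0 ∧ iC a b q * e.1 = iC a b (e₀ 0) ∧ iC a b q * e.2 = iC a b (e₀ 1)

/-- the automorphy factor -/
private def Tfx_c (m n : ℕ) (l : ℂ) : ℂ := l ^ m * conj l ^ n

private theorem Tfx_c_ne (m n : ℕ) {l : ℂ} (hl : l ≠ 0) : Tfx_c m n l ≠ 0 := by
  unfold Tfx_c
  exact mul_ne_zero (pow_ne_zero _ hl) (pow_ne_zero _ (by simpa using hl))

private theorem Tfx_c_mul (m n : ℕ) (l l' : ℂ) :
    Tfx_c m n (l * l') = Tfx_c m n l * Tfx_c m n l' := by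
  unfold Tfx_c
  rw [map_mul, mul_pow, mul_pow]
  ring

private theorem Tfx_mul_ne (h : b ^ 2 + 4 * a < 0) {p q : Qf a b ℤ} (hp : p ≠ 0) (hq : q ≠ 0) :
    p * q ≠ 0 := by
  intro h0
  have h1 := congrArg (iC a b) h0
  rw [map_mul, map_zero] at h1
  exact mul_ne_zero (iC_ne h hp) (iC_ne h hq) h1

private theorem Tfx_smul_ne (h : b ^ 2 + 4 * a < 0) {p : Qf a b ℤ} (hp : p ≠ 0)
    {e : Fin 2 → Qf a b ℤ} (he : e ≠ 0) : p • e ≠ 0 := by
  intro h0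
  apply he
  funext i
  have h1 : p * e i = 0 := congrFun h0 i
  by_contra h2
  exact Tfx_mul_ne h hp h2 h1

/-- the extension -/
private def Tfx_F (m n : ℕ) (f : (Fin 2 → Qf a b ℤ) → ℂ) (e : ℂ × ℂ) : ℂ :=
  open Classical in
  if h : ∃ (q : Qf a b ℤ) (e₀ : Fin 2 → Qf a b ℤ), Tfx_R e q e₀ then
    (Tfx_c m n (iC a b h.choose))⁻¹ * f h.choose_spec.choose else 0

private theorem Tfx_F_zero (h : b ^ 2 + 4 * a < 0) (m n : ℕ) (f : (Fin 2 → Qf a b ℤ) → ℂ) :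
    Tfx_F (a := a) (b := b) m n f 0 = 0 := by
  unfold Tfx_F
  rw [dif_neg]
  rintro ⟨q, e₀, _, he, h1, h2⟩
  apply he
  simp only [Prod.fst_zero, Prod.snd_zero, mul_zero] at h1 h2
  funext i
  fin_cases i
  · exact iCinj h (h1.symm.trans (map_zero _).symm)
  · exact iCinj h (h2.symm.trans (map_zero _).symm)

private theorem Tfx_uq (h : b ^ 2 + 4 * a < 0) {m n N : ℕ} {W : Subgroup (GQ a b)}
    {z : GQ a b → Fin (m + 1) × Fin (n + 1) → ℂ} {f : (Fin 2 → Qf a b ℤ) → ℂ}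
    (hf : HFn m n N W z f) {e : ℂ × ℂ} {q q' : Qf a b ℤ} {e₀ e₀' : Fin 2 → Qf a b ℤ}
    (h1 : Tfx_R e q e₀) (h2 : Tfx_R e q' e₀') :
    (Tfx_c m n (iC a b q))⁻¹ * f e₀ = (Tfx_c m n (iC a b q'))⁻¹ * f e₀' := by
  obtain ⟨hq, he, ha, hb⟩ := h1
  obtain ⟨hq', he', ha', hb'⟩ := h2
  have h3 : q' • e₀ = q • e₀' := by
    funext i
    show q' * e₀ i = q * e₀' i
    apply iCinj h
    rw [map_mul, map_mul]
    fin_cases i
    · show iC a b q' * iC a b (e₀ 0) = iC a b q * iC a b (e₀' 0)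
      rw [← ha, ← ha']
      ring
    · show iC a b q' * iC a b (e₀ 1) = iC a b q * iC a b (e₀' 1)
      rw [← hb, ← hb']
      ring
  have h4 := hf.hom q' e₀ hq' he
  have h5 := hf.hom q e₀' hq he'
  rw [h3] at h4
  have h6 : Tfx_c m n (iC a b q') * f e₀ = Tfx_c m n (iC a b q) * f e₀' := h4.symm.trans h5
  have n1 := Tfx_c_ne m n (iC_ne h hq)
  have n2 := Tfx_c_ne m n (iC_ne h hq')
  rw [inv_mul_eq_iff_eq_mul₀ n1, mul_left_comm, eq_inv_mul_iff_mul_eq₀ n2]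
  exact h6

private theorem Tfx_val (h : b ^ 2 + 4 * a < 0) {m n N : ℕ} {W : Subgroup (GQ a b)}
    {z : GQ a b → Fin (m + 1) × Fin (n + 1) → ℂ} {f : (Fin 2 → Qf a b ℤ) → ℂ}
    (hf : HFn m n N W z f) {e : ℂ × ℂ} {q : Qf a b ℤ} {e₀ : Fin 2 → Qf a b ℤ}
    (h1 : Tfx_R e q e₀) : Tfx_F m n f e = (Tfx_c m n (iC a b q))⁻¹ * f e₀ := by
  have h2 : ∃ (q : Qf a b ℤ) (e₀ : Fin 2 → Qf a b ℤ), Tfx_R e q e₀ := ⟨q, e₀, h1⟩
  unfold Tfx_F
  rw [dif_pos h2]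
  exact Tfx_uq h hf h2.choose_spec.choose_spec h1

private theorem Tfx_exR (h : b ^ 2 + 4 * a < 0) {e : ℂ × ℂ} (h1 : e.1 ∈ kC a b)
    (h2 : e.2 ∈ kC a b) (he : e ≠ 0) :
    ∃ (q : Qf a b ℤ) (e₀ : Fin 2 → Qf a b ℤ), Tfx_R e q e₀ := by
  obtain ⟨p₁, q₁, hq₁, h₁⟩ := h1
  obtain ⟨p₂, q₂, hq₂, h₂⟩ := h2
  have hq := Tfx_mul_ne h hq₁ hq₂
  have e1 : iC a b (q₁ * q₂) * e.1 = iC a b (p₁ * q₂) := by
    rw [map_mul, map_mul, ← h₁]
    ring
  have e2 : iC a b (q₁ * q₂) * e.2 = iC a b (p₂ * q₁) := by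
    rw [map_mul, map_mul, ← h₂]
    ring
  refine ⟨q₁ * q₂, ![p₁ * q₂, p₂ * q₁], hq, ?_, e1, e2⟩
  intro h0
  apply he
  have h3 : p₁ * q₂ = 0 := congrFun h0 0
  have h4 : p₂ * q₁ = 0 := congrFun h0 1
  rw [h3, map_zero] at e1
  rw [h4, map_zero] at e2
  exact Prod.ext ((mul_eq_zero.1 e1).resolve_left (iC_ne h hq))
    ((mul_eq_zero.1 e2).resolve_left (iC_ne h hq))

theorem p_Tfx : T_fx := by
  intro a b h m n N W z f hf
  refine ⟨Tfx_F m n f, ⟨Tfx_F_zero h m n f, ?_, ?_, ?_⟩⟩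
  · intro l e hl hl0 h1 h2
    by_cases he : e = 0
    · rw [he, Prod.fst_zero, Prod.snd_zero, mul_zero]
      show Tfx_F m n f 0 = l ^ m * conj l ^ n * Tfx_F m n f 0
      rw [Tfx_F_zero h, mul_zero]
    · obtain ⟨q, e₀, hR⟩ := Tfx_exR h h1 h2 he
      obtain ⟨p, r, hr, hpr⟩ := hl
      have hp : p ≠ 0 := by
        intro h0
        rw [h0, map_zero] at hpr
        exact mul_ne_zero hl0 (iC_ne h hr) hpr
      have hR' : Tfx_R (l * e.1, l * e.2) (r * q) (p • e₀) := by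
        refine ⟨Tfx_mul_ne h hr hR.1, Tfx_smul_ne h hp hR.2.1, ?_, ?_⟩
        · show iC a b (r * q) * (l * e.1) = iC a b (p * e₀ 0)
          rw [map_mul, map_mul, ← hpr, ← hR.2.2.1]
          ring
        · show iC a b (r * q) * (l * e.2) = iC a b (p * e₀ 1)
          rw [map_mul, map_mul, ← hpr, ← hR.2.2.2]
          ring
      rw [Tfx_val h hf hR, Tfx_val h hf hR']
      have h3 := hf.hom p e₀ hp hR.2.1
      have h4 : f (p • e₀) = Tfx_c m n (iC a b p) * f e₀ := h3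
      rw [h4, ← hpr, map_mul, Tfx_c_mul, Tfx_c_mul]
      show _ = Tfx_c m n l * _
      have n1 := Tfx_c_ne m n (iC_ne h hr)
      have n2 := Tfx_c_ne m n (iC_ne h hR.1)
      field_simp
  · intro e he
    have hR : Tfx_R (iC a b (e 0), iC a b (e 1)) (1 : Qf a b ℤ) e := by
      refine ⟨?_, he, ?_, ?_⟩
      · intro h0
        have h1 := congrArg (iC a b) h0
        rw [map_one, map_zero] at h1
        exact one_ne_zero h1
      · rw [map_one, one_mul]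
      · rw [map_one, one_mul]
    rw [Tfx_val h hf hR]
    unfold Tfx_c
    simp
  · intro x hx e h1 h2 he
    obtain ⟨q, e₀, hR⟩ := Tfx_exR h h1 h2 he
    have hx0 : x.val.mulVec e₀ ≠ 0 := by
      intro h0
      apply hR.2.1
      have h3 := mv_mvO x⁻¹ x e₀
      rw [inv_mul_cancel, h0, Matrix.mulVec_zero] at h3
      rw [← h3]
      exact (Matrix.one_mulVec e₀).symm
    have hR' : Tfx_R (va x e) q (x.val.mulVec e₀) := by
      refine ⟨hR.1, hx0, ?_, ?_⟩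
      · have h3 : (x.val.mulVec e₀) 0 = x.val 0 0 * e₀ 0 + x.val 0 1 * e₀ 1 := by
          simp [Matrix.mulVec, dotProduct]
        rw [h3, map_add, map_mul, map_mul, ← hR.2.2.1, ← hR.2.2.2]
        simp only [va]
        ring
      · have h3 : (x.val.mulVec e₀) 1 = x.val 1 0 * e₀ 0 + x.val 1 1 * e₀ 1 := by
          simp [Matrix.mulVec, dotProduct]
        rw [h3, map_add, map_mul, map_mul, ← hR.2.2.1, ← hR.2.2.2]
        simp only [va]
        ring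
    rw [Tfx_val h hf hR, Tfx_val h hf hR', hf.eqv x hx e₀ hR.2.1]
    have h4 : vC a b (x.val.mulVec e₀) = iC a b q • pv (va x e) := by
      funext i
      fin_cases i
      · exact hR'.2.2.1.symm
      · exact hR'.2.2.2.symm
    rw [h4, evc_smul]
    show (Tfx_c m n (iC a b q))⁻¹ * (f e₀ - Tfx_c m n (iC a b q) * _) = _
    have n2 := Tfx_c_ne m n (iC_ne h hR.1)
    rw [mul_sub, inv_mul_cancel_left₀ n2]

end

end Pool.Agent.F8.NL
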