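import Pool.Agent.Lib.MP_305fdd_al.F8.NL.StmT

/-!
# MP_305fdd_al, all lattices (project NL): the homogeneous function of a crossed homomorphism
-/

set_option autoImplicit false

namespace Pool.Agent.F8.NL

open Pool.Agent.F8.CG Pool.Agent.F8.BG Pool.Agent.MP_305fdd_al Pool.Agent.Lib.MP_305fdd_al
  Pool.Agent.F8
open scoped QuadraticAlgebra ComplexConjugate

noncomputable section

/-- a nonzero vector is a multiple of the first column of a matrix of determinant one -/
private theorem Thf_prim {R : Type} [CommRing R] [IsDomain R] [IsPrincipalIdealRing R]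
    (e : Fin 2 → R) (he : e ≠ 0) : ∃ (l : R) (g : SL2 R), l ≠ 0 ∧ e = l • colG g 0 := by
  set l := IsBezout.gcd (e 0) (e 1) with hl
  obtain ⟨d0, h0⟩ := IsBezout.gcd_dvd_left (e 0) (e 1)
  obtain ⟨d1, h1⟩ := IsBezout.gcd_dvd_right (e 0) (e 1)
  obtain ⟨x, y, hxy⟩ := IsBezout.gcd_eq_sum (e 0) (e 1)
  rw [← hl] at h0 h1 hxy
  have hl0 : l ≠ 0 := by
    intro h
    apply he
    rw [h, zero_mul] at h0 h1
    ext i
    fin_cases i
    · exact h0
    · exact h1
  have hd : x * d0 + y * d1 = 1 := by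
    apply mul_left_cancel₀ hl0
    linear_combination hxy - x * h0 - y * h1
  refine ⟨l, AB.mx d0 (-y) d1 x (by linear_combination hd), hl0, ?_⟩
  ext i
  fin_cases i
  · exact h0
  · exact h1

private theorem Thf_det {a b : ℤ} (g : GQ a b) :
    CG.om (vC a b (colG g 0)) (vC a b (colG g 1)) = 1 := by
  have h := g.2
  rw [Matrix.det_fin_two] at h
  have h1 := congrArg (iC a b) h
  rw [map_sub, map_mul, map_mul, map_one] at h1
  show iC a b (g.val 0 0) * iC a b (g.val 1 1) - iC a b (g.val 1 0) * iC a b (g.val 0 1) = 1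
  rw [← h1]
  ring

private theorem Thf_col {a b : ℤ} (g : GQ a b) : colG g 0 ≠ 0 := by
  intro h
  have h1 := Thf_det g
  rw [h] at h1
  unfold CG.om vC at h1
  simp at h1

private theorem Thf_top {m n : ℕ} (hm : 1 ≤ m) :
    ((Fin.last m, Fin.last n) : Fin (m + 1) × Fin (n + 1)) ≠ (0, 0) := by
  intro h
  have h1 := congrArg (fun p : Fin (m + 1) × Fin (n + 1) => (p.1 : ℕ)) h
  simp only [Fin.val_last, Fin.val_zero] at h1
  omega

theorem p_Thf (htd : T_td) : T_hf := by
  intro a b hab hP m n hn hm W N hL z hz hB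
  have hdom : IsDomain (Qf a b ℤ) := Qf_domain hab
  obtain ⟨h1, h2, h3, h4, h5⟩ := htd a b hab m n hn hm W N hL z hz
  -- torus data at the columns
  have hA : ∀ g : GQ a b, ∃ (c : Fin (m + 1) × Fin (n + 1) → ℂ) (R : ℂ),
      TD m n N z (colG g 0) (vC a b (colG g 1)) c 0 R := by
    intro g
    obtain ⟨c, B, R, hT⟩ := h1 _ _ (Thf_col g) (Thf_det g)
    obtain ⟨κ, hκ⟩ := h5 _ _ c B R hT
    obtain ⟨r, hr⟩ := hB g
    have hN : (N : ℂ) ≠ 0 := Nat.cast_ne_zero.2 hL.1
    have hx := (cj_ind hab (x := (m + 1) * B * N) (y := κ * N - r) fun t => by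
      have e1 := hκ t
      rw [hr t, map_mul, Complex.conj_natCast] at e1
      linear_combination -e1).1
    have hB0 : B = 0 := by
      rcases mul_eq_zero.1 hx with h | h
      · rcases mul_eq_zero.1 h with h' | h'
        · exact absurd h' (Nat.cast_add_one_ne_zero m)
        · exact h'
      · exact absurd h hN
    subst hB0
    exact ⟨c, R, hT⟩
  -- torus data at all vectors
  have hex : ∀ e : Fin 2 → Qf a b ℤ, e ≠ 0 → ∃ (v : Fin 2 → ℂ)
      (c : Fin (m + 1) × Fin (n + 1) → ℂ) (R : ℂ), CG.om (vC a b e) v = 1 ∧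
        TD m n N z e v c 0 R := by
    intro e he
    obtain ⟨l, g, hl, hg⟩ := Thf_prim e he
    obtain ⟨c, R, hT⟩ := hA g
    obtain ⟨v, hv⟩ := om_ex (vC a b e) (vC_ne hab he)
    rw [hg] at hv
    obtain ⟨c', B', R', hT', hBB, -⟩ := h2 _ _ v l c 0 R (Thf_col g) hl (Thf_det g) hv hT
    have hB' : B' = 0 := hBB.1 rfl
    subst hB'
    refine ⟨v, c', R', ?_, ?_⟩
    · rw [hg]
      exact hv
    · rw [hg]
      exact hT'
  choose! V C Rr hV hC using hex
  -- the key
  have key : ∀ (e : Fin 2 → Qf a b ℤ) (v : Fin 2 → ℂ) (c : Fin (m + 1) × Fin (n + 1) → ℂ)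
      (B R : ℂ), e ≠ 0 → CG.om (vC a b e) v = 1 → TD m n N z e v c B R →
      c (Fin.last m, Fin.last n) = C e (Fin.last m, Fin.last n) := by
    intro e v c B R he hv hT
    obtain ⟨c', B', R', hT', -, hc'⟩ := h2 e (V e) v 1 (C e) 0 (Rr e) he one_ne_zero (hV e he)
      (by rw [one_smul]; exact hv) (hC e he)
    rw [one_smul] at hT'
    obtain ⟨-, -, h6⟩ := h4 e v c c' B B' R R' hT hT'
    rw [h6 _ (Thf_top hm), hc' rfl, map_one, map_one, one_pow, one_pow, one_mul, one_mul]
  refine ⟨fun e => -C e (Fin.last m, Fin.last n), ?_, ?_, ?_⟩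
  · intro l e hl he
    have hle : l • e ≠ 0 := smul_ne_zero hl he
    obtain ⟨c', B', R', hT', -, hc'⟩ := h2 e (V e) (V (l • e)) l (C e) 0 (Rr e) he hl (hV e he)
      (hV _ hle) (hC e he)
    have h6 := key (l • e) _ c' B' R' hle (hV _ hle) hT'
    show -C (l • e) (Fin.last m, Fin.last n) = _ * -C e (Fin.last m, Fin.last n)
    rw [← h6, hc' rfl, mul_neg]
  · intro x hx e he
    have hxe : x.val.mulVec e ≠ 0 := by
      intro h
      apply he
      have h6 : (x⁻¹).val.mulVec (x.val.mulVec e) = e := by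
        rw [← mv_mvO, inv_mul_cancel]
        exact Matrix.one_mulVec e
      rw [← h6, h, Matrix.mulVec_zero]
    obtain ⟨c', hT', hc'⟩ := h3 x hx e (V e) (C e) 0 (Rr e) he (hV e he) (hC e he)
    have hv : CG.om (vC a b (x.val.mulVec e)) ((iG a b x).val.mulVec (V e)) = 1 := by
      rw [vC_mv, om_mv]
      exact hV e he
    have h6 := key _ _ c' 0 _ hxe hv hT'
    show -C (x.val.mulVec e) (Fin.last m, Fin.last n) = -C e (Fin.last m, Fin.last n) - _
    rw [← h6, hc']
    ring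
  · intro g
    obtain ⟨c, R, hT⟩ := hA g
    refine ⟨c, R, ?_, hT⟩
    rw [key _ _ c 0 R (Thf_col g) (Thf_det g) hT, neg_neg]

end

end Pool.Agent.F8.NL
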