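import Pool.Agent.Lib.MP_305fdd_al.F8.NL.StmT

/-!
# MP_305fdd_al, project NL, piece T_ind

Independence of `1`, `conj x`, `conj x ^ 2` over the polynomials in `x` on a lattice.
-/

set_option autoImplicit false

namespace Pool.Agent.F8.NL

open Pool.Agent.F8.CG Pool.Agent.F8.BG Pool.Agent.MP_305fdd_al Pool.Agent.Lib.MP_305fdd_al
  Pool.Agent.F8
open scoped QuadraticAlgebra ComplexConjugate

noncomputable section

private theorem Tind_line {a b : ℤ} (P₀ P₁ : Polynomial ℂ) (R c₀ : ℂ) (S : Finset ℂ)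
    (h : ∀ t : Qf a b ℤ, c₀ * iC a b t ∉ S → P₀.eval (c₀ * iC a b t) +
      conj (c₀ * iC a b t) * P₁.eval (c₀ * iC a b t) + R * conj (c₀ * iC a b t) ^ 2 = 0)
    (u : Qf a b ℤ) (hy : c₀ * iC a b u ≠ 0) (κ : ℂ)
    (hκ : κ * (c₀ * iC a b u) = conj (c₀ * iC a b u)) :
    P₀ + Polynomial.C κ * (Polynomial.X * P₁) + Polynomial.C (R * κ ^ 2) * Polynomial.X ^ 2 = 0 := by
  set y : ℂ := c₀ * iC a b u with hyd
  have hinj : Function.Injective (fun k : ℤ => (k : ℂ) * y) := by
    intro k l hkl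
    have h1 : (k : ℂ) = l := mul_right_cancel₀ hy hkl
    exact_mod_cast h1
  have hinf : (Set.range (fun k : ℤ => (k : ℂ) * y) \ (S : Set ℂ)).Infinite :=
    (Set.infinite_range_of_injective hinj).sdiff S.finite_toSet
  refine Polynomial.eq_zero_of_infinite_isRoot _ (hinf.mono ?_)
  rintro x ⟨⟨k, rfl⟩, hx⟩
  have hx' : (k : ℂ) * y = c₀ * iC a b ((k : Qf a b ℤ) * u) := by
    rw [map_mul, map_intCast, hyd]
    ring
  have h1 := h ((k : Qf a b ℤ) * u) (by
    rw [← hx']
    exact hx)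
  rw [← hx'] at h1
  have hc : conj ((k : ℂ) * y) = κ * ((k : ℂ) * y) := by
    rw [map_mul, map_intCast, ← hκ]
    ring
  rw [hc] at h1
  show Polynomial.eval _ _ = 0
  simp only [Polynomial.eval_add, Polynomial.eval_mul, Polynomial.eval_C, Polynomial.eval_X,
    Polynomial.eval_pow]
  linear_combination h1

private theorem Tind_sub (P₀ P₁ : Polynomial ℂ) (R κ κ' : ℂ) (hne : κ ≠ κ')
    (h : P₀ + Polynomial.C κ * (Polynomial.X * P₁) + Polynomial.C (R * κ ^ 2) *
      Polynomial.X ^ 2 = 0)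
    (h' : P₀ + Polynomial.C κ' * (Polynomial.X * P₁) + Polynomial.C (R * κ' ^ 2) *
      Polynomial.X ^ 2 = 0) :
    Polynomial.X * P₁ + Polynomial.C (R * (κ + κ')) * Polynomial.X ^ 2 = 0 := by
  have h1 : Polynomial.C (κ - κ') * (Polynomial.X * P₁ + Polynomial.C (R * (κ + κ')) *
      Polynomial.X ^ 2) = 0 := by
    have h2 : Polynomial.C (κ - κ') * (Polynomial.X * P₁ + Polynomial.C (R * (κ + κ')) *
        Polynomial.X ^ 2) =
        (P₀ + Polynomial.C κ * (Polynomial.X * P₁) + Polynomial.C (R * κ ^ 2) *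
          Polynomial.X ^ 2) -
        (P₀ + Polynomial.C κ' * (Polynomial.X * P₁) + Polynomial.C (R * κ' ^ 2) *
          Polynomial.X ^ 2) := by
      simp only [Polynomial.C_sub, Polynomial.C_mul, Polynomial.C_add, Polynomial.C_pow]
      ring
    rw [h2, h, h', sub_zero]
  rcases mul_eq_zero.1 h1 with h2 | h2
  · rw [Polynomial.C_eq_zero] at h2
    exact absurd (sub_eq_zero.1 h2) hne
  · exact h2

theorem p_Tind : T_ind := by
  intro a b hab P₀ P₁ R c₀ hc₀ S h
  have hw := wC_im hab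
  have hwc : conj (CG.wC a b) ≠ CG.wC a b := by
    intro h5
    have h6 := congrArg Complex.im h5
    simp only [Complex.conj_im] at h6
    linarith
  have hcc : conj c₀ ≠ 0 := by
    intro h0
    apply hc₀
    have := congrArg conj h0
    rwa [Complex.conj_conj, map_zero] at this
  have e1 : iC a b 1 = 1 := map_one _
  have e2 : iC a b ⟨0, 1⟩ = CG.wC a b := by
    rw [iC_apply]
    simp
  have e3 : iC a b ⟨1, 1⟩ = 1 + CG.wC a b := by
    rw [iC_apply]
    simp
  have n2 : CG.wC a b ≠ 0 := by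
    intro h0
    rw [h0] at hw
    simp at hw
  have n3 : 1 + CG.wC a b ≠ 0 := by
    intro h0
    have h6 := congrArg Complex.im h0
    simp only [Complex.add_im, Complex.one_im, Complex.zero_im] at h6
    linarith
  -- the three numbers
  have key : ∀ u : Qf a b ℤ, iC a b u ≠ 0 →
      P₀ + Polynomial.C (conj (c₀ * iC a b u) / (c₀ * iC a b u)) * (Polynomial.X * P₁) +
        Polynomial.C (R * (conj (c₀ * iC a b u) / (c₀ * iC a b u)) ^ 2) *
        Polynomial.X ^ 2 = 0 := by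
    intro u hu
    exact Tind_line P₀ P₁ R c₀ S h u (mul_ne_zero hc₀ hu) _
      (div_mul_cancel₀ _ (mul_ne_zero hc₀ hu))
  have k1 := key 1 (by rw [e1]; exact one_ne_zero)
  have k2 := key ⟨0, 1⟩ (by rw [e2]; exact n2)
  have k3 := key ⟨1, 1⟩ (by rw [e3]; exact n3)
  rw [e1] at k1
  rw [e2] at k2
  rw [e3] at k3
  have d12 : conj (c₀ * 1) / (c₀ * 1) ≠ conj (c₀ * CG.wC a b) / (c₀ * CG.wC a b) := by
    intro h0
    rw [div_eq_div_iff (mul_ne_zero hc₀ one_ne_zero) (mul_ne_zero hc₀ n2)] at h0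
    simp only [map_mul, map_one] at h0
    apply hwc
    have h1 : (conj c₀ * c₀) * (conj (CG.wC a b) - CG.wC a b) = 0 := by
      linear_combination -h0
    exact sub_eq_zero.1 ((mul_eq_zero.1 h1).resolve_left (mul_ne_zero hcc hc₀))
  have d13 : conj (c₀ * 1) / (c₀ * 1) ≠
      conj (c₀ * (1 + CG.wC a b)) / (c₀ * (1 + CG.wC a b)) := by
    intro h0
    rw [div_eq_div_iff (mul_ne_zero hc₀ one_ne_zero) (mul_ne_zero hc₀ n3)] at h0
    simp only [map_mul, map_one, map_add] at h0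
    apply hwc
    have h1 : (conj c₀ * c₀) * (conj (CG.wC a b) - CG.wC a b) = 0 := by
      linear_combination -h0
    exact sub_eq_zero.1 ((mul_eq_zero.1 h1).resolve_left (mul_ne_zero hcc hc₀))
  have d23 : conj (c₀ * CG.wC a b) / (c₀ * CG.wC a b) ≠
      conj (c₀ * (1 + CG.wC a b)) / (c₀ * (1 + CG.wC a b)) := by
    intro h0
    rw [div_eq_div_iff (mul_ne_zero hc₀ n2) (mul_ne_zero hc₀ n3)] at h0
    simp only [map_mul, map_one, map_add] at h0
    apply hwc
    have h1 : (conj c₀ * c₀) * (conj (CG.wC a b) - CG.wC a b) = 0 := by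
      linear_combination h0
    exact sub_eq_zero.1 ((mul_eq_zero.1 h1).resolve_left (mul_ne_zero hcc hc₀))
  have f12 := Tind_sub P₀ P₁ R _ _ d12 k1 k2
  have f13 := Tind_sub P₀ P₁ R _ _ d13 k1 k3
  generalize conj (c₀ * 1) / (c₀ * 1) = κ₁ at *
  generalize conj (c₀ * CG.wC a b) / (c₀ * CG.wC a b) = κ₂ at *
  generalize conj (c₀ * (1 + CG.wC a b)) / (c₀ * (1 + CG.wC a b)) = κ₃ at *
  have hR : R = 0 := by
    have h1 : Polynomial.C (R * (κ₂ - κ₃)) * Polynomial.X ^ 2 = 0 := by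
      have h2 : Polynomial.C (R * (κ₂ - κ₃)) * Polynomial.X ^ 2 =
          (Polynomial.X * P₁ + Polynomial.C (R * (κ₁ + κ₂)) * Polynomial.X ^ 2) -
          (Polynomial.X * P₁ + Polynomial.C (R * (κ₁ + κ₃)) * Polynomial.X ^ 2) := by
        simp only [Polynomial.C_sub, Polynomial.C_mul, Polynomial.C_add]
        ring
      rw [h2, f12, f13, sub_zero]
    rcases mul_eq_zero.1 h1 with h2 | h2
    · rw [Polynomial.C_eq_zero] at h2
      exact (mul_eq_zero.1 h2).resolve_right (sub_ne_zero.2 d23)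
    · exact absurd h2 (pow_ne_zero 2 Polynomial.X_ne_zero)
  have hP : P₁ = 0 := by
    rw [hR, zero_mul, Polynomial.C_0, zero_mul, add_zero] at f12
    exact (mul_eq_zero.1 f12).resolve_left Polynomial.X_ne_zero
  refine ⟨?_, hP, hR⟩
  rw [hR, hP, mul_zero, mul_zero, zero_mul, Polynomial.C_0, zero_mul, add_zero, add_zero] at k1
  exact k1

end

end Pool.Agent.F8.NL
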