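import Pool.Agent.Lib.MP_305fdd_al.F8.NL.StmT

/-!
# MP_305fdd_al, all lattices (project NL): torus data
-/

set_option autoImplicit false

namespace Pool.Agent.F8.NL

open Pool.Agent.F8.CG Pool.Agent.F8.BG Pool.Agent.MP_305fdd_al Pool.Agent.Lib.MP_305fdd_al
  Pool.Agent.F8
open scoped QuadraticAlgebra ComplexConjugate Kronecker

noncomputable section

/-- the matrix with two given columns -/
private def Ttd_A (e v : Fin 2 → ℂ) : Matrix (Fin 2) (Fin 2) ℂ := !![e 0, v 0; e 1, v 1]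

private theorem Ttd_A1 (e v : Fin 2 → ℂ) (x : ℂ) : (Ttd_A e v).mulVec ![x, 1] = x • e + v := by
  funext i
  fin_cases i <;> simp [Ttd_A, Matrix.mulVec, dotProduct, Fin.sum_univ_two, mul_comm]

private theorem Ttd_A0 (e v : Fin 2 → ℂ) : (Ttd_A e v).mulVec ![1, 0] = e := by
  funext i
  fin_cases i <;> simp [Ttd_A, Matrix.mulVec, dotProduct, Fin.sum_univ_two]

private theorem Ttd_A0' (e v : Fin 2 → ℂ) :
    ((Ttd_A e v).map (starRingEnd ℂ)).mulVec ![0, 1] = fun i => conj (v i) := by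
  funext i
  fin_cases i <;> simp [Ttd_A, Matrix.mulVec, dotProduct, Fin.sum_univ_two]

private theorem Ttd_ev1 (m n : ℕ) (P : Fin (m + 1) × Fin (n + 1) → ℂ) (e v : Fin 2 → ℂ) (x : ℂ) :
    ev1 m n (sbC m n (Ttd_A e v) P) x = evc m n P (x • e + v) := by
  unfold ev1
  rw [evc_sbC, Ttd_A1]

private theorem Ttd_smul (m n : ℕ) (k : ℂ) (c : Fin (m + 1) × Fin (n + 1) → ℂ) (B R x : ℂ) :
    Gf m n (k • c) (k * B) (k * R) x = k * Gf m n c B R x := by
  unfold Gf ev1
  rw [evc_csmul]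
  ring

private theorem Ttd_sub (m n : ℕ) (c c' : Fin (m + 1) × Fin (n + 1) → ℂ) (B B' R R' x : ℂ) :
    Gf m n (c - c') (B - B') (R - R') x = Gf m n c B R x - Gf m n c' B' R' x := by
  unfold Gf ev1
  rw [evc_sub]
  ring

private theorem Ttd_add (m n : ℕ) (c c' : Fin (m + 1) × Fin (n + 1) → ℂ) (B R x : ℂ) :
    Gf m n (c + c') B R x = Gf m n c B R x + ev1 m n c' x := by
  unfold Gf ev1
  rw [evc_add]
  ring

/-- the inverse of a transvection on the torus -/
private theorem Ttd_inv {a b : ℤ} (N : ℕ) (e : Fin 2 → Qf a b ℤ) (v : Fin 2 → ℂ)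
    (hv : CG.om (vC a b e) v = 1) (s : Qf a b ℤ) (x : ℂ) :
    (iG a b (tv e ((N : Qf a b ℤ) * s))⁻¹).val.mulVec (x • vC a b e + v) =
      (x - N * iC a b s) • vC a b e + v := by
  rw [tv_inv, tv_mv, om_add, om_smul, om_self, hv, map_neg, map_mul, map_natCast]
  rw [mul_zero, zero_add, mul_one, neg_smul, sub_smul]
  abel

theorem p_Ttd (huq : T_uq) (hto : T_to) (haff : T_aff) : T_td := by
  intro a b hab m n hn hm W N hN z hz
  have hN0 : (N : ℂ) ≠ 0 := Nat.cast_ne_zero.2 hN.1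
  refine ⟨?_, ?_, ?_, ?_, ?_⟩
  · -- existence
    intro e v _ hv
    obtain ⟨c, B, R, h⟩ := hto a b hab m n hn hm (N : ℂ) hN0
      (fun t => sbC m n (Ttd_A (vC a b e) v) (z (tv e ((N : Qf a b ℤ) * t)))) (by
        intro s t x
        rw [Ttd_ev1, Ttd_ev1, Ttd_ev1, mul_add, (p_Vtv _ e _ _).2.1, hz _ (hN.2 e s) _ (hN.2 e t),
          evc_add, evc_tM, Ttd_inv N e v hv])
    refine ⟨c, B, R, fun t x => ?_⟩
    rw [← h t x, Ttd_ev1]
  · -- scaling
    intro e v v' l c B R he hl hv hv' hTD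
    have hl0 : iC a b l ≠ 0 := iC_ne hab hl
    rw [vC_smul, om_smul'] at hv'
    obtain ⟨μ, hμ⟩ := om_par (vC a b e) (v' - (iC a b l)⁻¹ • v) (vC_ne hab he) (by
      have h1 : CG.om (vC a b e) v' = (iC a b l)⁻¹ := eq_inv_of_mul_eq_one_right hv'
      rw [sub_eq_add_neg, ← neg_smul, om_add, om_smul, h1, hv]
      ring)
    obtain ⟨c'', h1, h2, -⟩ := haff m n hm c B R (iC a b l ^ 2) (iC a b l * μ)
    let k : ℂ := (iC a b l)⁻¹ ^ m * conj (iC a b l)⁻¹ ^ n
    have hk : k ≠ 0 := mul_ne_zero (pow_ne_zero _ (inv_ne_zero hl0))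
      (pow_ne_zero _ ((map_ne_zero _).2 (inv_ne_zero hl0)))
    refine ⟨k • c'', k * (B * (iC a b l ^ 2) ^ (m + 1)),
      k * (R * conj (iC a b l ^ 2) ^ (n + 1)), ?_, ?_, ?_⟩
    · intro t x
      rw [Ttd_smul, Ttd_smul, ← h1, ← h1]
      have e1 : (tv (l • e) ((N : Qf a b ℤ) * t) : GQ a b) = tv e ((N : Qf a b ℤ) * (l ^ 2 * t)) := by
        rw [(p_Vtv _ e 0 _).2.2.2.1]
        congr 1
        ring
      have e2 : x • vC a b (l • e) + v' =
          (iC a b l)⁻¹ • ((iC a b l ^ 2 * x + iC a b l * μ) • vC a b e + v) := by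
        rw [vC_smul, sub_eq_iff_eq_add.1 hμ, smul_add, smul_smul, smul_smul]
        rw [show (iC a b l)⁻¹ * (iC a b l ^ 2 * x + iC a b l * μ) = x * iC a b l + μ by
          field_simp]
        rw [add_smul]
        abel
      rw [e1, e2, evc_smul, hTD, map_mul, map_pow]
      show k * _ = _
      rw [mul_sub]
      congr 2
      congr 1
      ring
    · constructor
      · intro h0
        rw [h0]
        ring
      · intro h0
        have h3 := (mul_eq_zero.1 h0).resolve_left hk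
        exact (mul_eq_zero.1 h3).resolve_right (pow_ne_zero _ (pow_ne_zero _ hl0))
    · intro h0
      rw [Pi.smul_apply, smul_eq_mul, h2 h0]
      show (iC a b l)⁻¹ ^ m * conj (iC a b l)⁻¹ ^ n * _ = _
      have hl1 : conj (iC a b l) ≠ 0 := (map_ne_zero _).2 hl0
      rw [map_inv₀, map_pow]
      rw [← pow_mul, ← pow_mul, mul_comm 2 m, mul_comm 2 n, pow_mul, pow_mul]
      generalize iC a b l = y at hl0 hl1
      generalize conj y = y' at hl1
      rw [inv_pow, inv_pow]
      have h3 : y ^ m ≠ 0 := pow_ne_zero _ hl0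
      have h4 : y' ^ n ≠ 0 := pow_ne_zero _ hl1
      field_simp
  · -- equivariance
    intro x hx e v c B R he hv hTD
    refine ⟨c + sbC m n (Ttd_A (vC a b (x.val.mulVec e)) ((iG a b x).val.mulVec v)) (z x),
      ?_, ?_⟩
    · intro t y
      rw [Ttd_add, Ttd_add, Ttd_ev1, Ttd_ev1]
      have hv' : CG.om (vC a b (x.val.mulVec e)) ((iG a b x).val.mulVec v) = 1 := by
        rw [vC_mv, om_mv, hv]
      have e1 : (tv (x.val.mulVec e) ((N : Qf a b ℤ) * t) : GQ a b) =
          x * tv e ((N : Qf a b ℤ) * t) * x⁻¹ := ((p_Vtv _ e 0 _).2.2.1 x).symm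
      have e2 := Ttd_inv N (x.val.mulVec e) ((iG a b x).val.mulVec v) hv' t y
      have e3 : (iG a b x⁻¹).val.mulVec (y • vC a b (x.val.mulVec e) +
          (iG a b x).val.mulVec v) = y • vC a b e + v := by
        rw [vC_mv, ← Matrix.mulVec_smul, ← Matrix.mulVec_add, mv_inv]
      rw [e1] at e2
      rw [e1, CH_conj hz hx (hN.2 e t), evc_sub, evc_add, evc_tM, evc_tM, e2, e3, hTD]
      ring
    · rw [Pi.add_apply]
      congr 1
      refine (evc_10 m n (sbC m n (Ttd_A (vC a b (x.val.mulVec e))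
        ((iG a b x).val.mulVec v)) (z x))).symm.trans ?_
      rw [evc_sbC, Ttd_A0]
  · -- uniqueness
    intro e v c c' B B' R R' hT hT'
    have h1 : ∀ t : Qf a b ℤ, Gf m n (c - c') (B - B') (R - R') (N * iC a b t) =
        Gf m n (c - c') (B - B') (R - R') 0 := by
      intro t
      have h2 := hT t (N * iC a b t)
      have h3 := hT' t (N * iC a b t)
      rw [sub_self] at h2 h3
      rw [Ttd_sub, Ttd_sub]
      linear_combination h3 - h2
    obtain ⟨-, h2, h3, h4⟩ := huq a b hab m n hn hm (c - c') (B - B') (R - R') _ (N : ℂ) hN0 ∅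
      (fun t _ => h1 t)
    refine ⟨sub_eq_zero.1 h3, sub_eq_zero.1 h4, fun p hp => ?_⟩
    have h5 := h2 p hp
    rw [Pi.sub_apply] at h5
    exact sub_eq_zero.1 h5
  · -- the coefficient
    intro e v c B R hT
    refine ⟨if n = 0 then 0 else c (Fin.last m, Fin.last n), fun t => ?_⟩
    obtain ⟨c', h1, -, h2⟩ := haff m n hm c B R 1 (-(N * iC a b t))
    have h3 := h2 hn rfl
    let P : Fin (m + 1) × Fin (n + 1) → ℂ :=
      sbC m n (Ttd_A (vC a b e) v) (z (tv e ((N : Qf a b ℤ) * t)))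
    have h4 : ∀ x, Gf m n (P - (c - c')) 0 0 x = 0 := by
      intro x
      have h5 : ev1 m n P x = Gf m n c B R x - Gf m n c B R (x - N * iC a b t) := by
        rw [← hT t x]
        exact Ttd_ev1 m n _ _ _ x
      have h6 := h1 x
      rw [one_mul, ← sub_eq_add_neg, one_pow, map_one, one_pow, mul_one, mul_one] at h6
      rw [h6] at h5
      have h7 : Gf m n (P - (c - c')) 0 0 x = ev1 m n P x - (ev1 m n c x - ev1 m n c' x) := by
        unfold Gf ev1
        rw [evc_sub, evc_sub]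
        ring
      rw [h7, h5]
      unfold Gf
      ring
    have hne : ((Fin.last m, 0) : Fin (m + 1) × Fin (n + 1)) ≠ (0, 0) := by
      intro h
      have h5 := congrArg (fun p : Fin (m + 1) × Fin (n + 1) => (p.1 : ℕ)) h
      simp only [Fin.val_last, Fin.val_zero] at h5
      omega
    have h5 := (huq a b hab m n hn hm (P - (c - c')) 0 0 0 1 one_ne_zero ∅
      (fun t _ => h4 _)).2.1 _ hne
    rw [Pi.sub_apply, Pi.sub_apply] at h5
    have h6 : P (Fin.last m, 0) = evM m n (z (tv e ((N : Qf a b ℤ) * t))) (vC a b e)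
        (fun i => conj (v i)) := by
      refine (evM_11 m n P).symm.trans ?_
      show evM m n (sb2 m n _ _ _) _ _ = _
      rw [evM_sb2, Ttd_A0, Ttd_A0']
    rw [← h6, sub_eq_zero.1 h5, h3, map_neg]
    ring

end

end Pool.Agent.F8.NL
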