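import Pool.Agent.Lib.MP_305fdd_al.F8.NL.StmT

/-!
# MP_305fdd_al, all lattices (project NL): the torus lemma for polynomials
-/

set_option autoImplicit false

namespace Pool.Agent.F8.NL

open Pool.Agent.F8.CG Pool.Agent.F8.BG Pool.Agent.MP_305fdd_al Pool.Agent.Lib.MP_305fdd_al
  Pool.Agent.F8
open scoped QuadraticAlgebra ComplexConjugate

/-- the difference of a power -/
private theorem Tto0_pow (m : ℕ) (τ : ℂ) :
    (Polynomial.X ^ (m + 1) - (Polynomial.X - Polynomial.C τ) ^ (m + 1) :
      Polynomial ℂ).natDegree ≤ m ∧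
    (Polynomial.X ^ (m + 1) - (Polynomial.X - Polynomial.C τ) ^ (m + 1) :
      Polynomial ℂ).coeff m = (m + 1) * τ := by
  rw [sub_eq_add_neg Polynomial.X (Polynomial.C τ), ← Polynomial.C_neg]
  constructor
  · rw [Polynomial.natDegree_le_iff_coeff_eq_zero]
    intro k hk
    rw [Polynomial.coeff_sub, Polynomial.coeff_X_pow, Polynomial.coeff_X_add_C_pow]
    rcases Nat.lt_or_ge (m + 1) k with h | h
    · rw [if_neg (by omega), Nat.choose_eq_zero_of_lt h]
      simp
    · have hk' : k = m + 1 := by omega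
      subst hk'
      simp
  · rw [Polynomial.coeff_sub, Polynomial.coeff_X_pow, Polynomial.coeff_X_add_C_pow,
      if_neg (by omega), show m + 1 - m = 1 by omega, Nat.choose_succ_self_right]
    push_cast
    ring

/-- the difference operator is onto -/
private theorem Tto0_sol (τ : ℂ) (hτ : τ ≠ 0) : ∀ (m : ℕ) (f : Polynomial ℂ), f.natDegree ≤ m →
    ∃ V : Polynomial ℂ, V.natDegree ≤ m + 1 ∧
      V - V.comp (Polynomial.X - Polynomial.C τ) = f := by
  intro m
  induction m with
  | zero =>
    intro f hf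
    have hf' := Polynomial.eq_C_of_natDegree_le_zero hf
    refine ⟨Polynomial.C (f.coeff 0 / τ) * Polynomial.X, ?_, ?_⟩
    · exact (Polynomial.natDegree_C_mul_le _ _).trans Polynomial.natDegree_X_le
    · rw [Polynomial.mul_comp, Polynomial.C_comp, Polynomial.X_comp, ← mul_sub, sub_sub_cancel,
        ← Polynomial.C_mul, div_mul_cancel₀ _ hτ]
      exact hf'.symm
  | succ m ih =>
    intro f hf
    obtain ⟨h1, h2⟩ := Tto0_pow (m + 1) τ
    set D : Polynomial ℂ := Polynomial.X ^ (m + 1 + 1) -
      (Polynomial.X - Polynomial.C τ) ^ (m + 1 + 1) with hD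
    have hm : ((m : ℂ) + 1 + 1) ≠ 0 := by
      have : ((m + 2 : ℕ) : ℂ) ≠ 0 := Nat.cast_ne_zero.2 (by omega)
      push_cast at this
      intro h
      exact this (by linear_combination h)
    set c : ℂ := f.coeff (m + 1) / (((m : ℂ) + 1 + 1) * τ) with hc
    have hg : (f - Polynomial.C c * D).natDegree ≤ m := by
      rw [Polynomial.natDegree_le_iff_coeff_eq_zero]
      intro k hk
      rw [Polynomial.coeff_sub, Polynomial.coeff_C_mul]
      rcases Nat.lt_or_ge (m + 1) k with h | h
      · rw [Polynomial.natDegree_le_iff_coeff_eq_zero.1 hf k h,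
          Polynomial.natDegree_le_iff_coeff_eq_zero.1 h1 k h, mul_zero, sub_zero]
      · have hk' : k = m + 1 := by omega
        subst hk'
        rw [h2, hc]
        push_cast
        rw [div_mul_cancel₀ _ (mul_ne_zero hm hτ), sub_self]
    obtain ⟨V, hV, hV'⟩ := ih _ hg
    refine ⟨V + Polynomial.C c * Polynomial.X ^ (m + 1 + 1), ?_, ?_⟩
    · refine (Polynomial.natDegree_add_le _ _).trans (max_le (by omega) ?_)
      exact Polynomial.natDegree_C_mul_X_pow_le _ _
    · rw [Polynomial.add_comp, Polynomial.mul_comp, Polynomial.C_comp, Polynomial.X_pow_comp,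
        add_sub_add_comm, hV', ← mul_sub, ← hD, sub_add_cancel]

/-- a periodic polynomial is constant -/
private theorem Tto0_con (τ : ℂ) (hτ : τ ≠ 0) (f : Polynomial ℂ)
    (h : ∀ x, f.eval x = f.eval (x - τ)) : ∀ x, f.eval x = f.eval 0 := by
  have h1 : ∀ k : ℕ, f.eval (k * τ) = f.eval 0 := by
    intro k
    induction k with
    | zero => simp
    | succ k ih =>
      rw [h, ← ih]
      congr 1
      push_cast
      ring
  have h2 : f = Polynomial.C (f.eval 0) := by
    apply Polynomial.eq_of_infinite_eval_eq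
    refine Set.infinite_of_injective_forall_mem (f := fun k : ℕ => (k : ℂ) * τ) ?_ ?_
    · intro k l hkl
      have := mul_right_cancel₀ hτ hkl
      exact_mod_cast this
    · intro k
      show f.eval (k * τ) = (Polynomial.C (f.eval 0)).eval (k * τ)
      rw [h1, Polynomial.eval_C]
  intro x
  conv_lhs => rw [h2]
  rw [Polynomial.eval_C]

/-- an additive function on the ring -/
private theorem Tto0_add {a b : ℤ} (γ : Qf a b ℤ → ℂ) (h : ∀ s t, γ (s + t) = γ s + γ t)
    (h1 : γ 1 = 0) (t : Qf a b ℤ) : γ t = t.im * γ ⟨0, 1⟩ := by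
  let F : Qf a b ℤ →+ ℂ := AddMonoidHom.mk' γ h
  have hF : ∀ x, γ x = F x := fun _ => rfl
  have ht : t = t.re • (1 : Qf a b ℤ) + t.im • (⟨0, 1⟩ : Qf a b ℤ) := by
    ext
    · simp
    · simp
  have h2 : F t = t.re • F 1 + t.im • F ⟨0, 1⟩ := by
    conv_lhs => rw [ht]
    rw [map_add, map_zsmul, map_zsmul]
  rw [hF, h2, ← hF, ← hF, h1, smul_zero, zero_add, zsmul_eq_mul]

/-- the torus lemma for polynomials -/
theorem p_Tto0 : T_to0 := by
  intro a b hD m c₀ hc₀ ζ hζ hadd
  have h1 : c₀ * iC a b 1 = c₀ := by rw [map_one, mul_one]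
  obtain ⟨V, hV, hV1⟩ := Tto0_sol c₀ hc₀ m (ζ 1) (hζ 1)
  have hadd' : ∀ s t x, (ζ (s + t)).eval x = (ζ s).eval x +
      (ζ t).eval (x - c₀ * iC a b s) := by
    intro s t x
    rw [hadd, Polynomial.eval_add, Polynomial.eval_comp]
    simp
  have hV1' : ∀ x, V.eval x - V.eval (x - c₀) = (ζ 1).eval x := by
    intro x
    rw [← hV1, Polynomial.eval_sub, Polynomial.eval_comp]
    simp
  set hh : Qf a b ℤ → Polynomial ℂ := fun t =>
    ζ t - V + V.comp (Polynomial.X - Polynomial.C (c₀ * iC a b t)) with hhd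
  have hev : ∀ t x, (hh t).eval x = (ζ t).eval x - V.eval x + V.eval (x - c₀ * iC a b t) := by
    intro t x
    rw [hhd]
    simp [Polynomial.eval_comp]
  have hper : ∀ t x, (hh t).eval x = (hh t).eval (x - c₀) := by
    intro t x
    have e1 := hadd' 1 t x
    have e2 := hadd' t 1 x
    rw [h1] at e1
    rw [add_comm t 1] at e2
    rw [hev, hev]
    have e3 := hV1' x
    have e4 := hV1' (x - c₀ * iC a b t)
    have e5 : x - c₀ * iC a b t - c₀ = x - c₀ - c₀ * iC a b t := by ring
    rw [e5] at e4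
    linear_combination e1 - e2 - e3 + e4
  have hcon : ∀ t x, (hh t).eval x = (hh t).eval 0 := fun t =>
    Tto0_con c₀ hc₀ (hh t) (hper t)
  set γ : Qf a b ℤ → ℂ := fun t => (hh t).eval 0 with hγ
  have hγadd : ∀ s t, γ (s + t) = γ s + γ t := by
    intro s t
    have e1 := hev (s + t) 0
    have e2 := hev s 0
    have e3 := hcon t (0 - c₀ * iC a b s)
    rw [hev] at e3
    have e4 := hadd' s t 0
    have e5 : (0 : ℂ) - c₀ * iC a b (s + t) = 0 - c₀ * iC a b s - c₀ * iC a b t := by
      rw [map_add]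
      ring
    rw [e5] at e1
    show (hh (s + t)).eval 0 = (hh s).eval 0 + (hh t).eval 0
    linear_combination e1 - e2 + e3 + e4
  have hγ1 : γ 1 = 0 := by
    show (hh 1).eval 0 = 0
    rw [hev, h1]
    linear_combination -(hV1' 0)
  have hγt := Tto0_add γ hγadd hγ1
  have hw : CG.wC a b - conj (CG.wC a b) ≠ 0 := by
    intro h
    have h2 := congrArg Complex.im h
    have h3 := wC_im hD
    simp only [Complex.sub_im, Complex.conj_im, Complex.zero_im] at h2
    linarith
  set κ : ℂ := γ ⟨0, 1⟩ / (CG.wC a b - conj (CG.wC a b)) with hκ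
  have hκ' : γ ⟨0, 1⟩ = κ * (CG.wC a b - conj (CG.wC a b)) := by
    rw [hκ, div_mul_cancel₀ _ hw]
  have hconj : ∀ t : Qf a b ℤ, iC a b t - conj (iC a b t) =
      t.im * (CG.wC a b - conj (CG.wC a b)) := by
    intro t
    rw [iC_apply, map_add, map_mul, map_intCast, map_intCast]
    ring
  have hc₀' : conj c₀ ≠ 0 := by
    intro h
    apply hc₀
    have := congrArg (starRingEnd ℂ) h
    simpa using this
  refine ⟨V + Polynomial.C (κ / c₀) * Polynomial.X, -κ / conj c₀, ?_, ?_⟩
  · refine (Polynomial.natDegree_add_le _ _).trans (max_le hV ?_)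
    exact ((Polynomial.natDegree_C_mul_le _ _).trans Polynomial.natDegree_X_le).trans (by omega)
  · intro t
    apply Polynomial.funext
    intro x
    have e1 := hcon t x
    rw [hev] at e1
    have e2 : (hh t).eval 0 = γ t := rfl
    have e3 := hconj t
    simp only [Polynomial.eval_add, Polynomial.eval_sub, Polynomial.eval_mul, Polynomial.eval_C,
      Polynomial.eval_X, Polynomial.eval_comp, map_mul]
    rw [e2, hγt, hκ'] at e1
    have e4 : κ / c₀ * (c₀ * iC a b t) = κ * iC a b t := by
      field_simp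
    have e5 : -κ / conj c₀ * (conj c₀ * conj (iC a b t)) = -κ * conj (iC a b t) := by
      field_simp
    rw [e5]
    linear_combination e1 - κ * e3 - e4

end Pool.Agent.F8.NL
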