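import Pool.Agent.Lib.MP_305fdd_al.F8.NL.StmT

/-!
# MP_305fdd_al, project NL, `T_uq`: uniqueness of the coefficients

The two cases `n = 0`, `n = 1` of `T_uq` from `T_ind`: the functions are
`P₀ x + conj x * P₁ x + R * conj x ^ 2` for polynomials `P₀`, `P₁`.
-/

set_option autoImplicit false

namespace Pool.Agent.F8.NL

open Pool.Agent.F8.CG Pool.Agent.F8.BG Pool.Agent.MP_305fdd_al Pool.Agent.Lib.MP_305fdd_al
  Pool.Agent.F8
open scoped QuadraticAlgebra ComplexConjugate

noncomputable section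

/-- the polynomial with the coefficients `d` -/
private def Tuq_P (m : ℕ) (d : Fin (m + 1) → ℂ) : Polynomial ℂ :=
  ∑ i, Polynomial.C (d i) * Polynomial.X ^ (i : ℕ)

private theorem Tuq_eval (m : ℕ) (d : Fin (m + 1) → ℂ) (x : ℂ) :
    (Tuq_P m d).eval x = ∑ i, d i * x ^ (i : ℕ) := by
  unfold Tuq_P
  rw [Polynomial.eval_finsetSum]
  exact Finset.sum_congr rfl fun i _ => by simp

private theorem Tuq_coeff (m : ℕ) (d : Fin (m + 1) → ℂ) (i : Fin (m + 1)) :
    (Tuq_P m d).coeff i = d i := by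
  unfold Tuq_P
  rw [Polynomial.finsetSum_coeff, Finset.sum_eq_single i]
  · simp
  · intro j _ hj
    rw [Polynomial.coeff_C_mul_X_pow, if_neg]
    exact fun h => hj (Fin.ext h.symm)
  · intro h
    exact absurd (Finset.mem_univ _) h

private theorem Tuq_coeff' (m : ℕ) (d : Fin (m + 1) → ℂ) : (Tuq_P m d).coeff (m + 1) = 0 := by
  unfold Tuq_P
  rw [Polynomial.finsetSum_coeff]
  refine Finset.sum_eq_zero fun j _ => ?_
  rw [Polynomial.coeff_C_mul_X_pow, if_neg]
  have := j.2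
  omega

/-- the coefficients of the polynomial `P + B X^(m+1) - K` -/
private theorem Tuq_zero (m : ℕ) (d : Fin (m + 1) → ℂ) (B K : ℂ)
    (h : Tuq_P m d + Polynomial.C B * Polynomial.X ^ (m + 1) - Polynomial.C K = 0) :
    d 0 = K ∧ (∀ i, i ≠ 0 → d i = 0) ∧ B = 0 := by
  have hc : ∀ k : ℕ, (Tuq_P m d).coeff k + (if k = m + 1 then B else 0) -
      (if k = 0 then K else 0) = 0 := by
    intro k
    have h1 := congrArg (fun P => Polynomial.coeff P k) h
    simp only [Polynomial.coeff_sub, Polynomial.coeff_add, Polynomial.coeff_C_mul_X_pow,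
      Polynomial.coeff_C, Polynomial.coeff_zero] at h1
    exact h1
  refine ⟨?_, fun i hi => ?_, ?_⟩
  · have h1 := hc ((0 : Fin (m + 1)) : ℕ)
    rw [Tuq_coeff, if_neg (by simp), if_pos (by simp), add_zero] at h1
    exact sub_eq_zero.1 h1
  · have h1 := hc (i : ℕ)
    have h2 : (i : ℕ) ≠ m + 1 := by
      have := i.2
      omega
    have h3 : (i : ℕ) ≠ 0 := fun h3 => hi (Fin.ext h3)
    rw [Tuq_coeff, if_neg h2, if_neg h3, add_zero, sub_zero] at h1
    exact h1
  · have h1 := hc (m + 1)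
    rw [Tuq_coeff', if_pos rfl, if_neg (Nat.succ_ne_zero m), zero_add, sub_zero] at h1
    exact h1

private theorem Tuq_eval' (m : ℕ) (d : Fin (m + 1) → ℂ) (B K x : ℂ) :
    (Tuq_P m d + Polynomial.C B * Polynomial.X ^ (m + 1) - Polynomial.C K).eval x =
      (∑ i, d i * x ^ (i : ℕ)) + B * x ^ (m + 1) - K := by
  rw [Polynomial.eval_sub, Polynomial.eval_add, Tuq_eval]
  simp

private theorem Tuq_ev0 (m : ℕ) (c : Fin (m + 1) × Fin (0 + 1) → ℂ) (x : ℂ) :
    ev1 m 0 c x = ∑ i, c (i, 0) * x ^ (i : ℕ) := by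
  rw [ev1_eq, ← Finset.univ_product_univ, Finset.sum_product]
  refine Finset.sum_congr rfl fun i _ => ?_
  refine (Fin.sum_univ_one fun j : Fin 1 => c (i, j) * (x ^ (i : ℕ) * conj x ^ (j : ℕ))).trans ?_
  rw [Fin.val_zero, pow_zero, mul_one]

private theorem Tuq_ev1 (m : ℕ) (c : Fin (m + 1) × Fin (1 + 1) → ℂ) (x : ℂ) :
    ev1 m 1 c x = (∑ i, c (i, 0) * x ^ (i : ℕ)) + conj x * ∑ i, c (i, 1) * x ^ (i : ℕ) := by
  rw [ev1_eq, ← Finset.univ_product_univ, Finset.sum_product, Finset.mul_sum,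
    ← Finset.sum_add_distrib]
  refine Finset.sum_congr rfl fun i _ => ?_
  refine (Fin.sum_univ_two fun j : Fin 2 => c (i, j) * (x ^ (i : ℕ) * conj x ^ (j : ℕ))).trans ?_
  rw [Fin.val_zero, Fin.val_one, pow_zero, mul_one, pow_one]
  ring

/-- the main statement -/
theorem p_Tuq (hind : T_ind) : T_uq := by
  intro a b hab m n hn hm c B R K c₀ hc₀ S hS
  have hn' : n = 0 ∨ n = 1 := by omega
  rcases hn' with rfl | rfl
  · have h := hind a b hab (Tuq_P m (fun i => c (i, 0)) +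
      Polynomial.C B * Polynomial.X ^ (m + 1) - Polynomial.C K) (Polynomial.C R) 0 c₀ hc₀ S
      (fun t ht => by
        have h1 := hS t ht
        rw [Tuq_eval', Polynomial.eval_C]
        unfold Gf at h1
        rw [Tuq_ev0] at h1
        linear_combination h1)
    obtain ⟨h0, h1, -⟩ := h
    obtain ⟨h2, h3, h4⟩ := Tuq_zero m _ B K h0
    refine ⟨h2, ?_, h4, Polynomial.C_eq_zero.1 h1⟩
    rintro ⟨i, j⟩ hp
    have hj : j = 0 := Fin.ext (by have := j.2; show (j : ℕ) = 0; omega)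
    subst hj
    exact h3 i fun hi => hp (by rw [hi])
  · have h := hind a b hab (Tuq_P m (fun i => c (i, 0)) +
      Polynomial.C B * Polynomial.X ^ (m + 1) - Polynomial.C K) (Tuq_P m (fun i => c (i, 1)))
      R c₀ hc₀ S
      (fun t ht => by
        have h1 := hS t ht
        rw [Tuq_eval', Tuq_eval]
        unfold Gf at h1
        rw [Tuq_ev1] at h1
        linear_combination h1)
    obtain ⟨h0, h1, h5⟩ := h
    obtain ⟨h2, h3, h4⟩ := Tuq_zero m _ B K h0
    refine ⟨h2, ?_, h4, h5⟩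
    rintro ⟨i, j⟩ hp
    have hj : j = 0 ∨ j = 1 := by
      have := j.2
      rcases (show (j : ℕ) = 0 ∨ (j : ℕ) = 1 by omega) with h | h
      · exact Or.inl (Fin.ext h)
      · exact Or.inr (Fin.ext h)
    rcases hj with rfl | rfl
    · exact h3 i fun hi => hp (by rw [hi])
    · rw [← Tuq_coeff m (fun i => c (i, 1)) i, h1, Polynomial.coeff_zero]

end

end Pool.Agent.F8.NL
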