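import Pool.Agent.Lib.MP_305fdd_al.F8.NL.StmT

/-!
# [NL T v0] the vanishing theorem for the forms of degree `m`
-/

set_option autoImplicit false

namespace Pool.Agent.F8.NL

open Pool.Agent.F8.CG Pool.Agent.F8.BG Pool.Agent.MP_305fdd_al Pool.Agent.Lib.MP_305fdd_al
  Pool.Agent.F8
open scoped QuadraticAlgebra ComplexConjugate

private theorem Tv0_evm0 (P : Fin (0 + 1) → ℂ) (e : Fin 2 → ℂ) : evm 0 P e = P 0 := by
  unfold evm
  simp

private theorem Tv0_one {a b : ℤ} (f : Qf a b ℤ →+* ℂ) (x : GQ a b) :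
    (tV 0 f x).mulVec (fun _ => 1) = fun _ => 1 := by
  funext i
  have h := evm_sm 0 (SLm f x) (fun _ => (1 : ℂ)) 0
  rw [Tv0_evm0, Tv0_evm0] at h
  have hi : i = 0 := Fin.ext (by omega)
  rw [hi]
  exact h

private theorem Tv0_tens {m : ℕ} (v : Fin (m + 1) × Fin (0 + 1) → ℂ) :
    v = tens (fun i => v (i, 0)) fun _ => 1 := by
  funext p
  obtain ⟨i, j⟩ := p
  have hj : j = 0 := Fin.ext (by omega)
  rw [hj]
  exact (mul_one _).symm

private theorem Tv0_act {a b : ℤ} {m : ℕ} (f f' : Qf a b ℤ →+* ℂ) (x : GQ a b)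
    (P : Fin (m + 1) → ℂ) : (tM m 0 f f' x).mulVec (tens P fun _ => 1) =
      tens ((tV m f x).mulVec P) fun _ => 1 :=
  (kr_tens (tV m f) (tV 0 f') x P fun _ => 1).trans (by rw [Tv0_one])

/-- the isomorphism of `ℂ²` with the forms of degree one -/
private def Tv0_P (v : Fin 2 → ℂ) : Fin (1 + 1) → ℂ := ![-v 0, v 1]

private theorem Tv0_P0 (v : Fin 2 → ℂ) : Tv0_P v 0 = -v 0 := rfl

private theorem Tv0_P1 (v : Fin 2 → ℂ) : Tv0_P v 1 = v 1 := rfl

private theorem Tv0_PP (v : Fin 2 → ℂ) : Tv0_P (Tv0_P v) = v := by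
  funext i
  fin_cases i
  · show -(-v 0) = v 0
    rw [neg_neg]
  · rfl

private theorem Tv0_evm1 (P : Fin (1 + 1) → ℂ) (e : Fin 2 → ℂ) :
    evm 1 P e = P 0 * e 1 + P 1 * e 0 := by
  unfold evm
  rw [Fin.sum_univ_two]
  simp

private theorem Tv0_om (v e : Fin 2 → ℂ) : evm 1 (Tv0_P v) e = CG.om e v := by
  rw [Tv0_evm1, Tv0_P0, Tv0_P1]
  unfold CG.om
  ring

private theorem Tv0_ext {P P' : Fin (1 + 1) → ℂ} (h : ∀ e, evm 1 P e = evm 1 P' e) : P = P' := by
  funext i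
  have h0 := h ![0, 1]
  have h1 := h ![1, 0]
  rw [Tv0_evm1, Tv0_evm1] at h0 h1
  simp only [Matrix.cons_val_zero, Matrix.cons_val_one, mul_one, mul_zero, add_zero,
    zero_add] at h0 h1
  fin_cases i
  · exact h0
  · exact h1

private theorem Tv0_eqv {a b : ℤ} (x : GQ a b) (v : Fin 2 → ℂ) :
    (tV 1 (iC a b) x).mulVec (Tv0_P v) = Tv0_P ((iG a b x).val.mulVec v) := by
  apply Tv0_ext
  intro e
  rw [Tv0_om]
  have h1 := evm_sm 1 (iG a b x) (Tv0_P v) e
  have h2 : evm 1 ((tV 1 (iC a b) x).mulVec (Tv0_P v)) e =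
      evm 1 (Tv0_P v) (((iG a b x)⁻¹).val.mulVec e) := h1
  rw [h2, Tv0_om, ← map_inv, ← om_mv x, mv_inv']

theorem p_Tv0 (hN : T_vtN) (hV : V_vt) : T_v0 := by
  intro a b hn hEu hP m hm W hW z hz h0
  rcases hm with rfl | hm
  · obtain ⟨v, hv⟩ := hV a b hn hEu hP W hW (fun x => Tv0_P (z x.val)) (fun x y => by
      show Tv0_P (z (x.val * y.val)) = Tv0_P (z x.val) + (iG a b x.val).val.mulVec (Tv0_P (z y.val))
      rw [hz x.val x.2 y.val y.2]
      have h1 := Tv0_eqv x.val (Tv0_P (z y.val))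
      rw [Tv0_PP] at h1
      rw [h1]
      funext i
      fin_cases i
      · show -(z x.val 0 + Tv0_P ((iG a b x.val).val.mulVec (Tv0_P (z y.val))) 0) =
          -z x.val 0 + (iG a b x.val).val.mulVec (Tv0_P (z y.val)) 0
        rw [Tv0_P0]
        ring
      · show z x.val 1 + Tv0_P ((iG a b x.val).val.mulVec (Tv0_P (z y.val))) 1 =
          z x.val 1 + (iG a b x.val).val.mulVec (Tv0_P (z y.val)) 1
        rw [Tv0_P1]) (fun e t h => by
      show CG.om (vC a b e) (Tv0_P (z (tv e t))) = 0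
      rw [← Tv0_om, Tv0_PP]
      exact h0 e t h)
    refine ⟨Tv0_P v, fun x hx => ?_⟩
    rw [Tv0_eqv]
    have h1 : Tv0_P (z x) = (iG a b x).val.mulVec v - v := hv ⟨x, hx⟩
    rw [← Tv0_PP (z x), h1]
    funext i
    fin_cases i
    · show -((iG a b x).val.mulVec v 0 - v 0) = -((iG a b x).val.mulVec v 0) - -v 0
      ring
    · rfl
  · obtain ⟨N, hNl⟩ := Lv_ex W hW
    obtain ⟨v, hv⟩ := hN a b hn hEu hP m 0 (Or.inl ⟨rfl, hm⟩) W hW N hNl
      (fun x => tens (z x) fun _ => 1) (fun x hx y hy => by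
        show tens (z (x * y)) (fun _ => 1) = tens (z x) (fun _ => 1) +
          (tM m 0 (iC a b) (cC a b) x).mulVec (tens (z y) fun _ => 1)
        rw [hz x hx y hy, Tv0_act]
        funext p
        show (z x + (tV m (iC a b) x).mulVec (z y)) p.1 * 1 =
          z x p.1 * 1 + (tV m (iC a b) x).mulVec (z y) p.1 * 1
        rw [Pi.add_apply, add_mul]) (fun g => ⟨0, fun t => by
        show evM m 0 (tens (z (tv (colG g 0) ((N : Qf a b ℤ) * t))) fun _ => 1) _ _ = _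
        rw [evM_tens, h0 _ _ (hNl.2 _ t), zero_mul, zero_mul]⟩)
    refine ⟨fun i => v (i, 0), fun x hx => ?_⟩
    have h1 : tens (z x) (fun _ => 1) = (tM m 0 (iC a b) (cC a b) x).mulVec v - v := hv x hx
    rw [Tv0_tens v, Tv0_act] at h1
    funext i
    have h2 := congrFun h1 (i, 0)
    have h3 : z x i * 1 = (tV m (iC a b) x).mulVec (fun i => v (i, 0)) i * 1 - v (i, 0) * 1 := h2
    rw [mul_one, mul_one, mul_one] at h3
    exact h3

end Pool.Agent.F8.NL
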