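import Pool.Agent.Lib.MP_305fdd_al.F8.NL.StmT

set_option autoImplicit false

namespace Pool.Agent.F8.NL

open Pool.Agent.F8.CG Pool.Agent.F8.BG Pool.Agent.MP_305fdd_al Pool.Agent.Lib.MP_305fdd_al
  Pool.Agent.F8
open scoped QuadraticAlgebra ComplexConjugate

noncomputable section

variable {a b : ℤ}

private theorem TvtN_kC_iC (t : Qf a b ℤ) (h1 : (1 : Qf a b ℤ) ≠ 0) : iC a b t ∈ kC a b :=
  ⟨t, 1, h1, by rw [map_one, mul_one]⟩

private theorem TvtN_kC_add (h : b ^ 2 + 4 * a < 0) {x y : ℂ} (hx : x ∈ kC a b)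
    (hy : y ∈ kC a b) : x + y ∈ kC a b := by
  obtain ⟨p, q, hq, h1⟩ := hx
  obtain ⟨p', q', hq', h2⟩ := hy
  refine ⟨p * q' + p' * q, q * q', fun h0 => ?_, ?_⟩
  · have h3 := congrArg (iC a b) h0
    rw [map_mul, map_zero] at h3
    exact mul_ne_zero (iC_ne h hq) (iC_ne h hq') h3
  · rw [map_add, map_mul, map_mul, map_mul]
    linear_combination iC a b q' * h1 + iC a b q * h2

private theorem TvtN_kC_mul (h : b ^ 2 + 4 * a < 0) {x y : ℂ} (hx : x ∈ kC a b)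
    (hy : y ∈ kC a b) : x * y ∈ kC a b := by
  obtain ⟨p, q, hq, h1⟩ := hx
  obtain ⟨p', q', hq', h2⟩ := hy
  refine ⟨p * p', q * q', fun h0 => ?_, ?_⟩
  · have h3 := congrArg (iC a b) h0
    rw [map_mul, map_zero] at h3
    exact mul_ne_zero (iC_ne h hq) (iC_ne h hq') h3
  · rw [map_mul, map_mul]
    linear_combination y * iC a b q' * h1 + iC a b p * h2

private theorem TvtN_kC_inv (h : b ^ 2 + 4 * a < 0) {x : ℂ} (hx : x ∈ kC a b)
    (h0 : x ≠ 0) : x⁻¹ ∈ kC a b := by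
  obtain ⟨p, q, hq, h1⟩ := hx
  refine ⟨q, p, fun hp => ?_, ?_⟩
  · rw [hp, map_zero] at h1
    exact mul_ne_zero h0 (iC_ne h hq) h1
  · rw [← h1]
    field_simp

private theorem TvtN_kC_va (h : b ^ 2 + 4 * a < 0) (h1 : (1 : Qf a b ℤ) ≠ 0) (g : GQ a b)
    {e : ℂ × ℂ} (he1 : e.1 ∈ kC a b) (he2 : e.2 ∈ kC a b) :
    (va g e).1 ∈ kC a b ∧ (va g e).2 ∈ kC a b :=
  ⟨TvtN_kC_add h (TvtN_kC_mul h (TvtN_kC_iC _ h1) he1) (TvtN_kC_mul h (TvtN_kC_iC _ h1) he2),
    TvtN_kC_add h (TvtN_kC_mul h (TvtN_kC_iC _ h1) he1) (TvtN_kC_mul h (TvtN_kC_iC _ h1) he2)⟩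

private theorem TvtN_one : (1 : Qf a b ℤ) ≠ 0 := by
  intro h
  have := congrArg QuadraticAlgebra.re h
  simp at this

private theorem TvtN_eq (huq : T_uq) (h : b ^ 2 + 4 * a < 0) {m n : ℕ} (hn : n ≤ 1)
    (hm : 1 ≤ m) (P Q : Fin (m + 1) × Fin (n + 1) → ℂ) (S : Finset ℂ)
    (hPQ : ∀ t : Qf a b ℤ, iC a b t ∉ S → ev1 m n P (iC a b t) = ev1 m n Q (iC a b t)) :
    P = Q := by
  obtain ⟨h1, h2, -, -⟩ := huq a b h m n hn hm (P - Q) 0 0 0 1 one_ne_zero S (by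
    intro t ht
    rw [one_mul] at ht ⊢
    unfold Gf
    rw [zero_mul, zero_mul, add_zero, add_zero]
    show evc m n (P - Q) _ = 0
    rw [evc_sub]
    exact sub_eq_zero.2 (hPQ t ht))
  funext p
  by_cases hp : p = (0, 0)
  · rw [hp]
    exact sub_eq_zero.1 h1
  · exact sub_eq_zero.1 (h2 p hp)

/-- [NL T vtN] MAIN RESULT of block T: the vanishing theorem. -/
theorem p_TvtN (hA : A_main) (huq : T_uq) (hhf : T_hf) (hfx : T_fx) (hfam : T_fam) : T_vtN := by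
  intro a b hD hEu hPI m n hmn W hW N hN z hz hHB
  have hn : n ≤ 1 := by omega
  have hm : 1 ≤ m := by omega
  obtain ⟨f, hf⟩ := hhf a b hD hPI m n hn hm W N hN z hz hHB
  obtain ⟨F, hF⟩ := hfx a b hD m n N W z f hf
  obtain ⟨g, c, hg, hFam⟩ := hfam a b hD m n hm W hW N hN z f hf F hF
  have : Finite (GQ a b ⧸ W) := Subgroup.finite_quotient_of_finiteIndex
  have h1 : (1 : Qf a b ℤ) ≠ 0 := TvtN_one
  have hk1 : (1 : ℂ) ∈ kC a b := by
    have := TvtN_kC_iC (a := a) (b := b) 1 h1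
    rwa [map_one] at this
  set o : GQ a b ⧸ W := QuotientGroup.mk 1 with ho
  obtain ⟨P, hP, hPF⟩ := hA a b hD hEu hPI m n hmn (GQ a b ⧸ W) _ hFam o
  obtain ⟨p, hp⟩ := mem_evc m n P hP
  have hgo : g o ∈ W := by
    have h2 := hg o
    rw [ho, QuotientGroup.eq, inv_inv, mul_one, ← ho] at h2
    exact h2
  set h := g o with hh
  -- the form
  set q : Fin (m + 1) × Fin (n + 1) → ℂ := p - c o + sbC m n (iG a b h).val (z h) with hq
  have hq1 : ∀ x ∈ kC a b, F (x, 1) = evc m n q (pv (x, 1)) := by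
    intro x hx
    have h2 := hPF x hx
    have h3 := hF.eqv h hgo (x, 1) hx hk1 (by
      intro h0
      have := congrArg Prod.snd h0
      exact one_ne_zero this)
    have h4 : F (va h (x, 1)) + evc m n (c o) (pv (x, 1)) = P (x, 1) := h2
    rw [hq, evc_add, evc_sub, evc_sbC, ← pv_va, ← hp, ← h4, h3]
    ring
  have hq2 : ∀ e : ℂ × ℂ, e.1 ∈ kC a b → e.2 ∈ kC a b → e.2 ≠ 0 → F e = evc m n q (pv e) := by
    intro e he1 he2 he
    have hx : e.2⁻¹ * e.1 ∈ kC a b := TvtN_kC_mul hD (TvtN_kC_inv hD he2 he) he1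
    have h2 := hF.hom e.2 (e.2⁻¹ * e.1, 1) he2 he hx hk1
    rw [hq1 _ hx, ← evc_smul, ← pv_smul] at h2
    have h3 : ((e.2 * ((e.2⁻¹ * e.1, 1) : ℂ × ℂ).1, e.2 * ((e.2⁻¹ * e.1, 1) : ℂ × ℂ).2) : ℂ × ℂ) =
        e := by
      ext
      · show e.2 * (e.2⁻¹ * e.1) = e.1
        field_simp
      · show e.2 * 1 = e.2
        rw [mul_one]
    rw [h3] at h2
    exact h2
  refine ⟨q, fun y hy => ?_⟩
  have hdet : iC a b (y.val 0 0) * iC a b (y.val 1 1) - iC a b (y.val 0 1) * iC a b (y.val 1 0) =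
      1 := by
    have h2 : y.val 0 0 * y.val 1 1 - y.val 0 1 * y.val 1 0 = 1 := by
      rw [← Matrix.det_fin_two]
      exact y.2
    have h3 := congrArg (iC a b) h2
    rw [map_sub, map_mul, map_mul, map_one] at h3
    exact h3
  have hsb : sbC m n (iG a b y).val (q + z y) = q := by
    refine TvtN_eq huq hD hn hm _ _ {-iC a b (y.val 1 1) / iC a b (y.val 1 0)} fun t ht => ?_
    have hx : iC a b t ∈ kC a b := TvtN_kC_iC t h1
    have hne : (va y (iC a b t, 1)).2 ≠ 0 := by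
      intro h0
      have h2 : iC a b (y.val 1 0) * iC a b t + iC a b (y.val 1 1) * 1 = 0 := h0
      by_cases hr : iC a b (y.val 1 0) = 0
      · rw [hr, zero_mul, zero_add, mul_one] at h2
        rw [h2, hr] at hdet
        simp at hdet
      · apply ht
        rw [Finset.mem_singleton, eq_div_iff hr]
        linear_combination h2
    have h3 := hF.eqv y hy (iC a b t, 1) hx hk1 (by
      intro h0
      have := congrArg Prod.snd h0
      exact one_ne_zero this)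
    obtain ⟨hv1, hv2⟩ := TvtN_kC_va hD h1 y (e := (iC a b t, 1)) hx hk1
    rw [hq2 _ hv1 hv2 hne, hq1 _ hx] at h3
    show evc m n (sbC m n (iG a b y).val (q + z y)) (pv (iC a b t, 1)) =
      evc m n q (pv (iC a b t, 1))
    rw [evc_sbC, evc_add, ← pv_va, h3]
    ring
  have h5 : (tM m n (iC a b) (cC a b) y).mulVec q = q + z y := by
    refine TvtN_eq huq hD hn hm _ _ ∅ fun t _ => ?_
    show evc m n ((tM m n (iC a b) (cC a b) y).mulVec q) ![iC a b t, 1] =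
      evc m n (q + z y) ![iC a b t, 1]
    rw [evc_tM]
    conv_lhs => rw [← hsb]
    rw [evc_sbC, mv_inv']
  rw [h5]
  abel

end

end Pool.Agent.F8.NL
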