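import Pool.Agent.Lib.MP_305fdd_al.F8.NL.StmU2

/-! Piece `U_cj` of project NL: compactness. -/

set_option autoImplicit false

namespace Pool.Agent.F8.NL

open Pool.Agent.F8.CG Pool.Agent.F8.BG Pool.Agent.MP_305fdd_al Pool.Agent.Lib.MP_305fdd_al
  Pool.Agent.F8
open scoped QuadraticAlgebra ComplexConjugate

theorem p_Ucj (hcpt : C_cpt) : U_cj := by
  intro a b D s hs
  obtain ⟨δ, hδ⟩ := hcpt a b (fun X => {c | ∃ d : D, c = QuotientGroup.mk' X.N (d : GQ a b) ∧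
      ∀ x : D, QuotientGroup.mk' X.N (s x : GQ a b) =
        QuotientGroup.mk' X.N (d * x * (d : GQ a b)⁻¹)}) (by
    intro X
    obtain ⟨d, hd⟩ := hs X.N
    exact ⟨QuotientGroup.mk' X.N (d : GQ a b), d, rfl, hd⟩) (by
    rintro X Y h _ ⟨d, rfl, hd⟩
    refine ⟨d, rfl, fun x => ?_⟩
    exact congrArg (QuotientGroup.map X.N Y.N (MonoidHom.id _) h) (hd x))
  refine ⟨δ, fun X => ?_, fun x => GH_ext fun X => ?_⟩
  · obtain ⟨d, hd, -⟩ := hδ X
    exact ⟨d, d.2, hd⟩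
  · obtain ⟨d, hd, hx⟩ := hδ X
    rw [map_mul, map_mul, map_inv, pr_iH, pr_iH, hd, hx x, map_mul, map_mul, map_inv]

end Pool.Agent.F8.NL
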