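import Pool.Agent.Lib.MP_305fdd_al.F8.NL.StmU2

/-!
# MP_305fdd_al, project NL, piece U_end: the main result of block U
-/

set_option autoImplicit false

namespace Pool.Agent.F8.NL

open Pool.Agent.F8.CG Pool.Agent.F8.BG Pool.Agent.MP_305fdd_al Pool.Agent.Lib.MP_305fdd_al
  Pool.Agent.F8
open scoped QuadraticAlgebra

noncomputable section

private theorem Uend_inv {R : Type} [CommRing R] (g : SL2 R) :
    (g⁻¹).val = !![g.val 1 1, -g.val 0 1; -g.val 1 0, g.val 0 0] := by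
  rw [Matrix.SpecialLinearGroup.SL2_inv_expl]
  rfl

/-- a matrix with the trace two over a principal ideal domain is unipotent -/
private theorem Uend_unip {R : Type} [CommRing R] [IsDomain R] [IsPrincipalIdealRing R]
    (y : SL2 R) (hy : y.val 0 0 + y.val 1 1 = 2) : ∃ (γ : SL2 R) (t : R), y = γ * eU t * γ⁻¹ := by
  classical
  -- it is enough to find a matrix the first column of which is fixed
  suffices h : ∃ γ : SL2 R, y.val 0 0 * γ.val 0 0 + y.val 0 1 * γ.val 1 0 = γ.val 0 0 ∧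
      y.val 1 0 * γ.val 0 0 + y.val 1 1 * γ.val 1 0 = γ.val 1 0 by
    obtain ⟨γ, h1, h2⟩ := h
    have hd := G.SL_det γ
    have hdy := G.SL_det y
    refine ⟨γ, (γ⁻¹ * y * γ).val 0 1, ?_⟩
    have h3 : γ⁻¹ * y * γ = eU ((γ⁻¹ * y * γ).val 0 1) := by
      have hinv := Uend_inv γ
      have e00 : (γ⁻¹ * y * γ).val 0 0 = 1 := by
        rw [mul_assoc, G.SL_mul, G.SL_mul, G.SL_mul, hinv]
        simp only [Matrix.of_apply, Matrix.cons_val_zero, Matrix.cons_val_one,
          Matrix.cons_val', Matrix.cons_val_fin_one]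
        rw [h1, h2]
        linear_combination hd
      have e10 : (γ⁻¹ * y * γ).val 1 0 = 0 := by
        rw [mul_assoc, G.SL_mul, G.SL_mul, G.SL_mul, hinv]
        simp only [Matrix.of_apply, Matrix.cons_val_zero, Matrix.cons_val_one,
          Matrix.cons_val', Matrix.cons_val_fin_one]
        rw [h1, h2]
        ring
      have e11 : (γ⁻¹ * y * γ).val 1 1 = 1 := by
        have := G.SL_det (γ⁻¹ * y * γ)
        rw [e00, e10] at this
        linear_combination this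
      exact G.SL_ext e00 rfl e10 e11
    rw [← h3]
    group
  have hdy := G.SL_det y
  by_cases h0 : y.val 0 0 - 1 = 0 ∧ y.val 0 1 = 0
  · refine ⟨mS, ?_, ?_⟩
    · show y.val 0 0 * 0 + y.val 0 1 * 1 = 0
      rw [h0.2]
      ring
    · show y.val 1 0 * 0 + y.val 1 1 * 1 = 1
      linear_combination hy - h0.1
  · obtain ⟨g, hg⟩ := (IsPrincipalIdealRing.principal
      (Ideal.span {y.val 0 0 - 1, y.val 0 1})).principal
    have hg' : Ideal.span {y.val 0 0 - 1, y.val 0 1} = Ideal.span {g} := hg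
    have hp : y.val 0 0 - 1 ∈ Ideal.span {g} := by
      rw [← hg']
      exact Ideal.subset_span (Set.mem_insert _ _)
    have hq : y.val 0 1 ∈ Ideal.span {g} := by
      rw [← hg']
      exact Ideal.subset_span (Set.mem_insert_of_mem _ rfl)
    have hgm : g ∈ Ideal.span {y.val 0 0 - 1, y.val 0 1} := by
      rw [hg']
      exact Ideal.mem_span_singleton_self g
    rw [Ideal.mem_span_singleton] at hp hq
    rw [Ideal.mem_span_pair] at hgm
    obtain ⟨p', hp'⟩ := hp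
    obtain ⟨q', hq'⟩ := hq
    obtain ⟨α, β, hab⟩ := hgm
    have hg0 : g ≠ 0 := by
      rintro rfl
      apply h0
      rw [hp', hq']
      simp
    have h1 : α * p' + β * q' = 1 := by
      apply mul_left_cancel₀ hg0
      rw [hp', hq'] at hab
      linear_combination hab
    refine ⟨AB.mx (-q') (-α) p' (-β) (by linear_combination h1), ?_, ?_⟩
    · show y.val 0 0 * -q' + y.val 0 1 * p' = -q'
      linear_combination (-q') * hp' + p' * hq'
    · show y.val 1 0 * -q' + y.val 1 1 * p' = p'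
      apply mul_left_cancel₀ hg0
      have e1 : g * p' = y.val 0 0 - 1 := hp'.symm
      have e2 : g * q' = y.val 0 1 := hq'.symm
      linear_combination (-y.val 1 0) * e2 + (y.val 1 1 - 1) * e1 + hdy - hy

private theorem Uend_tr {R : Type} [CommRing R] (d x : SL2 R) :
    (d * x * d⁻¹).val 0 0 + (d * x * d⁻¹).val 1 1 = x.val 0 0 + x.val 1 1 := by
  have hd := G.SL_det d
  have hinv := Uend_inv d
  rw [G.SL_mul, G.SL_mul, G.SL_mul, G.SL_mul, G.SL_mul, G.SL_mul, hinv]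
  simp only [Matrix.of_apply, Matrix.cons_val_zero, Matrix.cons_val_one,
    Matrix.cons_val', Matrix.cons_val_fin_one]
  linear_combination (x.val 0 0 + x.val 1 1) * hd

private theorem Uend_e11 {R : Type} [CommRing R] (c n : R) :
    (eU c * tv ![0, 1] n * (eU c)⁻¹ : SL2 R).val 1 1 = 1 + n * c := by
  have hinv := Uend_inv (eU c : SL2 R)
  have h00 : (eU c : SL2 R).val 0 0 = 1 := rfl
  have h01 : (eU c : SL2 R).val 0 1 = c := rfl
  have h10 : (eU c : SL2 R).val 1 0 = 0 := rfl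
  have h11 : (eU c : SL2 R).val 1 1 = 1 := rfl
  have t00 : (tv ![0, 1] n : SL2 R).val 0 0 = 1 - n * 0 * 1 := rfl
  have t01 : (tv ![0, 1] n : SL2 R).val 0 1 = n * 0 ^ 2 := rfl
  have t10 : (tv ![0, 1] n : SL2 R).val 1 0 = -(n * 1 ^ 2) := rfl
  have t11 : (tv ![0, 1] n : SL2 R).val 1 1 = 1 + n * 0 * 1 := rfl
  rw [G.SL_mul, G.SL_mul, G.SL_mul, hinv, h00, h01, h10, h11, t00, t01, t10, t11]
  simp only [Matrix.of_apply, Matrix.cons_val_zero, Matrix.cons_val_one,
    Matrix.cons_val', Matrix.cons_val_fin_one]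
  ring

theorem p_Uend (hun : U_un) (hcj : U_cj) (hbor : C_bor) (ho : C_o) (hu : C_u) (hcl : C_cl)
    (hlv : P_lv) : U_end := by
  intro a b M₀ m hP D hD hfin s hs
  have hneg := hP.neg
  have hpid := hP.pid
  have hdom : IsDomain (Qf a b ℤ) := Qf_domain hneg
  obtain ⟨hinj, -, ho3, -, -⟩ := ho a b hneg
  obtain ⟨-, hu2, hu3, -, -, -⟩ := hu a b
  obtain ⟨-, hcl2, -, -⟩ := hcl a b D hfin
  obtain ⟨δ, hδ, hδs⟩ := hcj a b D s hs
  obtain ⟨N, hN0, hN⟩ := hlv a b D hfin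
  have hN0' : (N : Qf a b ℤ) ≠ 0 := by
    rw [Nat.cast_ne_zero]
    exact hN0
  have hN' : ∀ e : Fin 2 → Qf a b ℤ, tv e (N : Qf a b ℤ) ∈ D := by
    intro e
    have := hN e 1
    rwa [mul_one] at this
  have hSinj : ∀ x y : GQ a b, iH a b x = iH a b y → x = y := by
    intro x y hxy
    have h1 : SLm (jH a b) x = SLm (jH a b) y := by
      rw [← piH_iH, ← piH_iH, hxy]
    have h2 : ∀ i k, x.val i k = y.val i k := by
      intro i k
      apply hinj
      exact congrFun (congrFun (congrArg Subtype.val h1) i) k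
    exact G.SL_ext (h2 _ _) (h2 _ _) (h2 _ _) (h2 _ _)
  -- the image of the unipotent element
  let x₁ : D := ⟨tv ![1, 0] (N : Qf a b ℤ), hN' _⟩
  have hx₁ : (x₁ : GQ a b) = eU (N : Qf a b ℤ) := (eU_eq_tv _).symm
  have htr : (s x₁ : GQ a b).val 0 0 + (s x₁ : GQ a b).val 1 1 = 2 := by
    apply hinj
    have h1 : SLm (jH a b) (s x₁ : GQ a b) =
        piH a b δ * SLm (jH a b) (x₁ : GQ a b) * (piH a b δ)⁻¹ := by
      rw [← piH_iH, ← piH_iH, hδs, map_mul, map_mul, map_inv]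
    have h2 := Uend_tr (piH a b δ) (SLm (jH a b) (x₁ : GQ a b))
    rw [← h1] at h2
    rw [map_add]
    refine Eq.trans h2 ?_
    show jH a b ((x₁ : GQ a b).val 0 0) + jH a b ((x₁ : GQ a b).val 1 1) = jH a b 2
    rw [← map_add, hx₁]
    show jH a b (1 + 1) = jH a b 2
    rw [one_add_one_eq_two]
  obtain ⟨γ, t', hγ⟩ := Uend_unip _ htr
  have hg : (iH a b γ)⁻¹ * δ * uH (jH a b (N : Qf a b ℤ)) * ((iH a b γ)⁻¹ * δ)⁻¹ =
      uH (jH a b t') := by
    have h1 := hδs x₁
    rw [hx₁, hγ, map_mul, map_mul, map_inv] at h1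
    rw [hu2, hu2]
    have h2 : iH a b (eU t') = (iH a b γ)⁻¹ * (δ * iH a b (eU (N : Qf a b ℤ)) * δ⁻¹) * iH a b γ := by
      rw [← h1]
      group
    rw [h2]
    group
  obtain ⟨u, v, huv, c, hc⟩ := (hbor a b hneg _).1 (hun a b M₀ m hP _ _ t' hN0' hg)
  obtain ⟨γ', hγ'⟩ : ∃ γ' : GQ a b, γ' = γ * dg u v huv := ⟨_, rfl⟩
  have hδ' : δ = iH a b γ' * uH c := by
    rw [hγ', map_mul, mul_assoc, ← hc]
    group
  -- the lower triangular element
  let x₂ : D := ⟨tv ![0, 1] (N : Qf a b ℤ), hN' _⟩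
  have h2 : SLm (jH a b) (γ'⁻¹ * (s x₂ : GQ a b) * γ') =
      eU c * tv ![0, 1] (jH a b (N : Qf a b ℤ)) * (eU c)⁻¹ := by
    have h3 : SLm (jH a b) (s x₂ : GQ a b) =
        piH a b δ * SLm (jH a b) (x₂ : GQ a b) * (piH a b δ)⁻¹ := by
      rw [← piH_iH, ← piH_iH, hδs, map_mul, map_mul, map_inv]
    have h4 : piH a b δ = SLm (jH a b) γ' * eU c := by
      rw [hδ', map_mul, piH_iH, hu3]
    have h5 : SLm (jH a b) (x₂ : GQ a b) = tv ![0, 1] (jH a b (N : Qf a b ℤ)) := by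
      show SLm (jH a b) (tv ![0, 1] (N : Qf a b ℤ)) = _
      rw [SLm_tv]
      congr 1
      funext i
      fin_cases i
      · exact map_zero _
      · exact map_one _
    rw [map_mul, map_mul, map_inv, h3, h4, h5]
    group
  have h3 : jH a b ((γ'⁻¹ * (s x₂ : GQ a b) * γ').val 1 1) = 1 + jH a b (N : Qf a b ℤ) * c := by
    rw [← Uend_e11, ← h2]
    rfl
  obtain ⟨r, -, hr⟩ := ho3 ((γ'⁻¹ * (s x₂ : GQ a b) * γ').val 1 1 - 1) (N : Qf a b ℤ) c hN0' (by
    rw [map_sub, map_one, h3]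
    ring)
  have hδd : δ = iH a b (γ' * eU r) := by
    rw [hδ', hr, hu2, map_mul]
  obtain ⟨d, hdd⟩ : ∃ d : GQ a b, d = γ' * eU r := ⟨_, rfl⟩
  rw [← hdd] at hδd
  have hd : d ∈ D := by
    rw [← hcl2, ← hδd]
    exact hδ
  refine ⟨⟨d, hd⟩, fun x => Subtype.ext (hSinj _ _ ?_)⟩
  rw [hδs, hδd]
  show _ = iH a b (d * (x : GQ a b) * d⁻¹)
  rw [map_mul, map_mul, map_inv]

end

end Pool.Agent.F8.NL
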