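import Pool.Agent.Lib.MP_305fdd_al.F8.NL.StmX

/-!
# [NL X fw] the crossed homomorphisms of a subgroup as solutions of linear equations
-/

set_option autoImplicit false

namespace Pool.Agent.F8.NL

open Pool.Agent.F8.CG Pool.Agent.F8.BG Pool.Agent.MP_305fdd_al Pool.Agent.Lib.MP_305fdd_al
  Pool.Agent.F8
open scoped QuadraticAlgebra

theorem tV_map {a b : ℤ} (m : ℕ) {L : Type} [CommRing L] (f : Qf a b ℤ →+* L) (x : GQ a b) :
    tV m f x = (tV m (RingHom.id (Qf a b ℤ)) x).map f := by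
  show sb m ((SLm f x)⁻¹).val = (sb m ((SLm (RingHom.id (Qf a b ℤ)) x)⁻¹).val).map f
  rw [← sb_map, ← map_inv, ← map_inv]
  congr 1

theorem p_Xfw (hfx : X_fx) : X_fw := by
  intro a b hG m W hW
  classical
  have hFG : Group.FG W := Subgroup.fg_of_index_ne_zero W
  obtain ⟨J, n, A, E, h⟩ := hfx (Qf a b ℤ) W (Fin (m + 1))
    ((tV m (RingHom.id (Qf a b ℤ))).comp W.subtype) hFG
  refine ⟨J, n, A, fun x => if hx : x ∈ W then E ⟨x, hx⟩ else fun _ _ => 0, ?_⟩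
  intro K _ f
  obtain ⟨h1, h2⟩ := h K f
  constructor
  · intro z hz
    obtain ⟨v, hv, hzv⟩ := h1 (fun x => z x.val) (fun x y => by
      have h3 := hz x.val x.2 y.val y.2
      rw [tV_map] at h3
      exact h3)
    refine ⟨v, hv, fun x hx k => ?_⟩
    rw [hzv ⟨x, hx⟩ k]
    simp only [dif_pos hx]
  · intro v hv x hx y hy
    have h3 := h2 v hv ⟨x, hx⟩ ⟨y, hy⟩
    have h4 : (⟨x, hx⟩ : W) * ⟨y, hy⟩ = ⟨x * y, W.mul_mem hx hy⟩ := rfl
    rw [h4] at h3
    simp only [dif_pos hx, dif_pos hy, dif_pos (W.mul_mem hx hy)]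
    rw [tV_map]
    exact h3

end Pool.Agent.F8.NL
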