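import Pool.Agent.Lib.MP_305fdd_al.F8.NL.P_Xv0
import Pool.Agent.Lib.MP_305fdd_al.F8.NL.P_Xfw

/-!
# [NL X cb] integral crossed homomorphisms without cusps
-/

set_option autoImplicit false

namespace Pool.Agent.F8.NL

open Pool.Agent.F8.CG Pool.Agent.F8.BG Pool.Agent.MP_305fdd_al Pool.Agent.Lib.MP_305fdd_al
  Pool.Agent.F8
open scoped QuadraticAlgebra

theorem map_mulVec' {R S ι : Type} [CommRing R] [CommRing S] [Fintype ι] (f : R →+* S)
    (M : Matrix ι ι R) (v : ι → R) :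
    (fun k => f (M.mulVec v k)) = (M.map f).mulVec fun k => f (v k) := by
  funext k
  simp only [Matrix.mulVec, dotProduct, map_sum, map_mul, Matrix.map_apply]

/-- the change of the ring -/
theorem CH_map {a b : ℤ} {m : ℕ} {L : Type} [CommRing L] (f : Qf a b ℤ →+* L)
    {W : Subgroup (GQ a b)} {z : GQ a b → Fin (m + 1) → Qf a b ℤ}
    (hz : CH (tV m (RingHom.id (Qf a b ℤ))) W z) : CH (tV m f) W fun x k => f (z x k) := by
  intro x hx y hy
  have h := hz x hx y hy
  funext k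
  show f (z (x * y) k) = f (z x k) + ((tV m f x).mulVec fun k => f (z y k)) k
  rw [h, tV_map m f x, ← map_mulVec' f (tV m (RingHom.id (Qf a b ℤ)) x) (z y), ← map_add]
  rfl

theorem bv_map {a b : ℤ} {m N : ℕ} {L : Type} [CommRing L] (f : Qf a b ℤ →+* L)
    (z : GQ a b → Fin (m + 1) → Qf a b ℤ) (e : Fin 2 → Qf a b ℤ) :
    bv m N f (fun x k => f (z x k)) e = f (bv m N (RingHom.id _) z e) :=
  evm_map f m _ e

theorem p_Xcb (hv0 : X_v0) (hl1 : X_l1) : X_cb := by
  intro a b hn hEu hP _ m hm W hW N hN z hz h0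
  have hdom : IsDomain (Qf a b ℤ) := Qf_domain hn
  obtain ⟨v, hv⟩ := hv0 a b hn hEu hP m hm W hW N hN (fun x k => iC a b (z x k))
    (CH_map (iC a b) hz) (fun e he => by rw [bv_map, h0 e he, map_zero])
  obtain ⟨d, w, hd, hw⟩ := hl1 (Qf a b ℤ) ℂ (W × Fin (m + 1)) (iC a b) (iC_inj hn) (m + 1)
    (fun j => ((tV m (RingHom.id (Qf a b ℤ)) j.1.val) - 1) j.2) (fun j => z j.1.val j.2) v (by
      rintro ⟨x, k⟩
      have h1 := congrFun (hv x.val x.2) k
      rw [tV_map m (iC a b) x.val] at h1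
      show ∑ i, iC a b (((tV m (RingHom.id (Qf a b ℤ)) x.val) - 1) k i) * v i = _
      rw [h1]
      show _ = ((tV m (RingHom.id (Qf a b ℤ)) x.val).map (iC a b)).mulVec v k - v k
      have h2 : ∀ i, iC a b (((tV m (RingHom.id (Qf a b ℤ)) x.val) - 1) k i) * v i =
          ((tV m (RingHom.id (Qf a b ℤ)) x.val).map (iC a b)) k i * v i -
            (1 : Matrix (Fin (m + 1)) (Fin (m + 1)) ℂ) k i * v i := by
        intro i
        rw [Matrix.sub_apply, map_sub, sub_mul, Matrix.map_apply, Matrix.one_apply,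
          Matrix.one_apply]
        split_ifs <;> simp
      rw [Finset.sum_congr rfl fun i _ => h2 i, Finset.sum_sub_distrib]
      congr 1
      exact congrFun (Matrix.one_mulVec v) k)
  refine ⟨d, w, hd, fun x hx => ?_⟩
  funext k
  have h1 := hw (⟨x, hx⟩, k)
  show d * z x k = (tV m (RingHom.id (Qf a b ℤ)) x).mulVec w k - w k
  rw [← h1]
  show ∑ i, ((tV m (RingHom.id (Qf a b ℤ)) x) - 1) k i * w i = _
  have h2 : ∀ i, ((tV m (RingHom.id (Qf a b ℤ)) x) - 1) k i * w i =
      (tV m (RingHom.id (Qf a b ℤ)) x) k i * w i -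
        (1 : Matrix (Fin (m + 1)) (Fin (m + 1)) (Qf a b ℤ)) k i * w i := by
    intro i
    rw [Matrix.sub_apply, sub_mul]
  rw [Finset.sum_congr rfl fun i _ => h2 i, Finset.sum_sub_distrib]
  congr 1
  exact congrFun (Matrix.one_mulVec w) k

end Pool.Agent.F8.NL
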