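import Pool.Agent.Lib.MP_305fdd_al.F8.NL.StmX

/-!
# MP_305fdd_al, all lattices, [NL X fx]: crossed homomorphisms as solutions of linear
equations, over commutative rings and for representations of any finite rank
-/

set_option autoImplicit false

namespace Pool.Agent.F8.NL

open Pool.Agent.F8.CG Pool.Agent.F8.BG Pool.Agent.MP_305fdd_al Pool.Agent.Lib.MP_305fdd_al
  Pool.Agent.F8
open scoped QuadraticAlgebra

noncomputable section

private theorem Xfx_zero {R K ι : Type} [CommRing R] [CommRing K] (f : R →+* K) :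
    (0 : Matrix ι ι R).map f = 0 := by
  ext a b
  simp

private theorem Xfx_one {G K ι : Type} [Group G] [CommRing K] [Fintype ι] [DecidableEq ι]
    (θ : G →* Matrix ι ι K) (z : G → ι → K)
    (hz : ∀ x y, z (x * y) = z x + (θ x).mulVec (z y)) : z 1 = 0 := by
  have h1 := hz 1 1
  rw [one_mul, map_one, Matrix.one_mulVec] at h1
  have h3 : z 1 + z 1 = z 1 + 0 := by rw [add_zero]; exact h1.symm
  exact add_left_cancel h3

private theorem Xfx_one' {R G K ι : Type} [Group G] [CommRing R] [CommRing K] [Fintype ι]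
    [DecidableEq ι] (θ : G →* Matrix ι ι R) (f : R →+* K) (z : G → ι → K)
    (hz : ∀ x y, z (x * y) = z x + ((θ x).map f).mulVec (z y)) : z 1 = 0 :=
  Xfx_one ((f.mapMatrix : Matrix ι ι R →+* Matrix ι ι K).toMonoidHom.comp θ) z hz

private theorem Xfx_word {R S ι : Type} [CommRing R] [Fintype S] [Fintype ι] [DecidableEq ι]
    (θ : FreeGroup S →* Matrix ι ι R) (w : FreeGroup S) :
    ∃ D : S → Matrix ι ι R, ∀ (K : Type) [CommRing K] (f : R →+* K)
      (z : FreeGroup S → ι → K),
      (∀ x y, z (x * y) = z x + ((θ x).map f).mulVec (z y)) →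
        z w = ∑ i, ((D i).map f).mulVec (z (FreeGroup.of i)) := by
  classical
  induction w using FreeGroup.induction_on with
  | C1 =>
    refine ⟨fun _ => 0, ?_⟩
    intro K _ f z hz
    rw [Xfx_one' θ f z hz]
    symm
    apply Finset.sum_eq_zero
    intro i _
    rw [Xfx_zero, Matrix.zero_mulVec]
  | of i =>
    refine ⟨fun j => if j = i then 1 else 0, ?_⟩
    intro K _ f z hz
    rw [Finset.sum_eq_single i]
    · beta_reduce
      rw [if_pos rfl, Matrix.map_one f (map_zero f) (map_one f), Matrix.one_mulVec]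
    · intro b _ hb
      beta_reduce
      rw [if_neg hb, Xfx_zero, Matrix.zero_mulVec]
    · intro h
      exact absurd (Finset.mem_univ _) h
  | inv_of i ih =>
    refine ⟨fun j => if j = i then -(θ (FreeGroup.of i)⁻¹) else 0, ?_⟩
    intro K _ f z hz
    rw [Finset.sum_eq_single i]
    · beta_reduce
      rw [if_pos rfl]
      have h3 := hz (FreeGroup.of i)⁻¹ (FreeGroup.of i)
      rw [inv_mul_cancel, Xfx_one' θ f z hz] at h3
      have h4 : (-(θ (FreeGroup.of i)⁻¹)).map f = -((θ (FreeGroup.of i)⁻¹).map f) := by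
        ext a b
        simp
      rw [h4, Matrix.neg_mulVec]
      exact eq_neg_of_add_eq_zero_left h3.symm
    · intro b _ hb
      beta_reduce
      rw [if_neg hb, Xfx_zero, Matrix.zero_mulVec]
    · intro h
      exact absurd (Finset.mem_univ _) h
  | mul v w hv hw =>
    obtain ⟨c, hc⟩ := hv
    obtain ⟨d, hd⟩ := hw
    refine ⟨fun j => c j + θ v * d j, ?_⟩
    intro K _ f z hz
    rw [hz, hc K f z hz, hd K f z hz, Matrix.mulVec_sum, ← Finset.sum_add_distrib]
    apply Finset.sum_congr rfl
    intro j _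
    have h4 : (c j + θ v * d j).map f = (c j).map f + ((θ v).map f) * ((d j).map f) := by
      rw [Matrix.map_add f (map_add f), Matrix.map_mul]
    rw [h4, Matrix.add_mulVec, Matrix.mulVec_mulVec]

/-- pairs (vector, invertible matrix) -/
private structure XfxE (ι K : Type) [CommRing K] [Fintype ι] [DecidableEq ι] where
  /-- the vector -/
  v : ι → K
  /-- the matrix -/
  g : (Matrix ι ι K)ˣ

private theorem XfxE.ext' {ι K : Type} [CommRing K] [Fintype ι] [DecidableEq ι] {x y : XfxE ι K}
    (h1 : x.v = y.v) (h2 : x.g = y.g) : x = y := by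
  cases x
  cases y
  simp only at h1 h2
  rw [h1, h2]

private instance Xfx_inst (ι K : Type) [CommRing K] [Fintype ι] [DecidableEq ι] :
    Group (XfxE ι K) :=
  letI : Mul (XfxE ι K) := ⟨fun x y => ⟨x.v + x.g.val.mulVec y.v, x.g * y.g⟩⟩
  letI : One (XfxE ι K) := ⟨⟨0, 1⟩⟩
  letI : Inv (XfxE ι K) := ⟨fun x => ⟨-((x.g⁻¹).val.mulVec x.v), x.g⁻¹⟩⟩
  Group.ofLeftAxioms
    (fun x y z => XfxE.ext'
      (by
        show x.v + x.g.val.mulVec y.v + (x.g * y.g).val.mulVec z.v =
          x.v + x.g.val.mulVec (y.v + y.g.val.mulVec z.v)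
        rw [Matrix.mulVec_add, Matrix.mulVec_mulVec, add_assoc, Units.val_mul])
      (mul_assoc _ _ _))
    (fun x => XfxE.ext'
      (by
        show (0 : ι → K) + (1 : Matrix ι ι K).mulVec x.v = x.v
        rw [Matrix.one_mulVec, zero_add])
      (one_mul _))
    (fun x => XfxE.ext'
      (by
        show -((x.g⁻¹).val.mulVec x.v) + (x.g⁻¹).val.mulVec x.v = 0
        exact neg_add_cancel _)
      (inv_mul_cancel _))

private def Xfx_pr (ι K : Type) [CommRing K] [Fintype ι] [DecidableEq ι] :
    XfxE ι K →* (Matrix ι ι K)ˣ where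
  toFun x := x.g
  map_one' := rfl
  map_mul' _ _ := rfl

private theorem Xfx_mul_v {ι K : Type} [CommRing K] [Fintype ι] [DecidableEq ι]
    (x y : XfxE ι K) : (x * y).v = x.v + x.g.val.mulVec y.v := rfl

private theorem Xfx_ex {S ι K : Type} [CommRing K] [Fintype ι] [DecidableEq ι]
    (σ : FreeGroup S →* Matrix ι ι K) (v : S → ι → K) :
    ∃ z : FreeGroup S → ι → K, (∀ x y, z (x * y) = z x + (σ x).mulVec (z y)) ∧
      ∀ i, z (FreeGroup.of i) = v i := by
  let σ' : FreeGroup S →* (Matrix ι ι K)ˣ := σ.toHomUnits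
  have hσ' : ∀ x, (σ' x).val = σ x := fun x => MonoidHom.coe_toHomUnits σ x
  let Φ : FreeGroup S →* XfxE ι K := FreeGroup.lift fun i => ⟨v i, σ' (FreeGroup.of i)⟩
  have h1 : (Xfx_pr ι K).comp Φ = σ' := by
    apply FreeGroup.ext_hom
    intro i
    show (Xfx_pr ι K) (Φ (FreeGroup.of i)) = _
    rw [FreeGroup.lift_apply_of]
    rfl
  have h2 : ∀ x, (Φ x).g = σ' x := fun x => DFunLike.congr_fun h1 x
  refine ⟨fun x => (Φ x).v, ?_, ?_⟩
  · intro x y
    show (Φ (x * y)).v = _
    rw [map_mul, Xfx_mul_v, h2, hσ']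
  · intro i
    show (Φ (FreeGroup.of i)).v = _
    rw [FreeGroup.lift_apply_of]

theorem p_Xfx : X_fx := by
  intro R G ι _ _ _ _ τ hG
  classical
  obtain ⟨S, hS, π, hπ⟩ := Group.fg_iff_exists_freeGroup_hom_surjective_finite.1 hG
  let _ : Fintype S := Fintype.ofFinite S
  choose D hD using fun w : FreeGroup S => Xfx_word (τ.comp π) w
  choose s hs using hπ
  let e : (S × ι) ≃ Fin (Fintype.card (S × ι)) := Fintype.equivFin _
  refine ⟨{w : FreeGroup S // π w = 1} × ι, Fintype.card (S × ι),
    fun j x => D j.1.1 (e.symm x).1 j.2 (e.symm x).2,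
    fun g k x => D (s g) (e.symm x).1 k (e.symm x).2, ?_⟩
  intro K _ f
  -- the equations
  have heq : ∀ (u : Fin (Fintype.card (S × ι)) → K) (w : FreeGroup S) (k : ι),
      ∑ x, f (D w (e.symm x).1 k (e.symm x).2) * u x =
        (∑ i, ((D w i).map f).mulVec (fun l => u (e (i, l)))) k := by
    intro u w k
    rw [← Equiv.sum_comp e, Fintype.sum_prod_type, Finset.sum_apply]
    apply Finset.sum_congr rfl
    intro i _
    simp only [Equiv.symm_apply_apply]
    rfl
  constructor
  · intro z hz
    have hzz : ∀ w : FreeGroup S, z (π w) =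
        ∑ i, ((D w i).map f).mulVec (z (π (FreeGroup.of i))) := by
      intro w
      exact hD w K f (fun x => z (π x)) (fun x x' => by
        show z (π (x * x')) = _
        rw [map_mul]
        exact hz (π x) (π x'))
    have hev : ∀ (w : FreeGroup S) (k : ι),
        ∑ x, f (D w (e.symm x).1 k (e.symm x).2) *
          (z (π (FreeGroup.of (e.symm x).1)) (e.symm x).2) = z (π w) k := by
      intro w k
      rw [heq (fun x => z (π (FreeGroup.of (e.symm x).1)) (e.symm x).2) w k, hzz w]
      simp only [Equiv.symm_apply_apply]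
    refine ⟨fun x => z (π (FreeGroup.of (e.symm x).1)) (e.symm x).2, ?_, ?_⟩
    · rintro ⟨⟨w, hw⟩, k⟩
      show ∑ x, f (D w (e.symm x).1 k (e.symm x).2) * _ = 0
      rw [hev w k, hw]
      exact congrFun (Xfx_one' τ f z hz) k
    · intro g k
      rw [hev (s g) k, hs]
  · intro u hu
    obtain ⟨z, hz, hzi⟩ := Xfx_ex
      ((f.mapMatrix : Matrix ι ι R →+* Matrix ι ι K).toMonoidHom.comp (τ.comp π))
      (fun (i : S) (l : ι) => u (e (i, l)))
    have hz' : ∀ x y, z (x * y) = z x + (((τ.comp π) x).map f).mulVec (z y) := hz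
    have hzw : ∀ (w : FreeGroup S) (k : ι),
        ∑ x, f (D w (e.symm x).1 k (e.symm x).2) * u x = z w k := by
      intro w k
      rw [heq u w k, hD w K f z hz']
      simp only [hzi]
    have hker : ∀ w, π w = 1 → z w = 0 := by
      intro w hw
      funext k
      rw [← hzw w k]
      exact hu (⟨w, hw⟩, k)
    have hfac : ∀ w w', π w = π w' → z w = z w' := by
      intro w w' hww
      have h1 := hz' w (w⁻¹ * w')
      rw [mul_inv_cancel_left, hker (w⁻¹ * w') (by rw [map_mul, map_inv, hww, inv_mul_cancel]),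
        Matrix.mulVec_zero, add_zero] at h1
      exact h1.symm
    have hfun : ∀ x, (fun k => ∑ i, f (D (s x) (e.symm i).1 k (e.symm i).2) * u i) = z (s x) := by
      intro x
      funext k
      exact hzw (s x) k
    intro x y
    show (fun k => ∑ i, f (D (s (x * y)) (e.symm i).1 k (e.symm i).2) * u i) =
      (fun k => ∑ i, f (D (s x) (e.symm i).1 k (e.symm i).2) * u i) +
      ((τ x).map f).mulVec fun k => ∑ i, f (D (s y) (e.symm i).1 k (e.symm i).2) * u i
    rw [hfun, hfun, hfun, hfac (s (x * y)) (s x * s y) (by rw [map_mul, hs, hs, hs]), hz']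
    show z (s x) + ((τ (π (s x))).map f).mulVec (z (s y)) = _
    rw [hs]

end

end Pool.Agent.F8.NL
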