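import Pool.Agent.Lib.MP_305fdd_al.F8.NL.StmX
import Pool.Agent.Lib.MP_305fdd_al.F8.CG.P_Scg

/-!
# [NL X v0] crossed homomorphisms without cusps are coboundaries
-/

set_option autoImplicit false

namespace Pool.Agent.F8.NL

open Pool.Agent.F8.CG Pool.Agent.F8.BG Pool.Agent.MP_305fdd_al Pool.Agent.Lib.MP_305fdd_al
  Pool.Agent.F8
open scoped QuadraticAlgebra

/-- the embedding into the complex numbers is injective -/
theorem iC_inj {a b : ℤ} (h : b ^ 2 + 4 * a < 0) : Function.Injective (iC a b) := by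
  rw [injective_iff_map_eq_zero]
  intro x hx
  have him := wC_im h
  rw [iC_apply] at hx
  have h1 := congrArg Complex.im hx
  have h2 := congrArg Complex.re hx
  simp only [Complex.add_im, Complex.intCast_im, Complex.mul_im, Complex.intCast_re, zero_mul,
    add_zero, zero_add, Complex.zero_im] at h1
  simp only [Complex.add_re, Complex.intCast_re, Complex.mul_re, Complex.intCast_im, zero_mul,
    sub_zero, Complex.zero_re] at h2
  have h3 : (x.im : ℝ) = 0 := by
    rcases mul_eq_zero.1 h1 with h | h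
    · exact h
    · exact absurd h him.ne'
  rw [h3, zero_mul, add_zero] at h2
  have h4 : x.im = 0 := by exact_mod_cast h3
  have h5 : x.re = 0 := by exact_mod_cast h2
  ext
  · exact h5
  · exact h4

/-- the functional `bv` at imprimitive vectors -/
theorem bv_zero {a b : ℤ} (hn : b ^ 2 + 4 * a < 0) (hP : IsPrincipalIdealRing (Qf a b ℤ))
    {m : ℕ} {L : Type} [CommRing L] (f : Qf a b ℤ →+* L) (hbv : BvM a b m f)
    {W : Subgroup (GQ a b)} {N : ℕ} (hN : Lv W N) {z : GQ a b → Fin (m + 1) → L}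
    (hz : CH (tV m f) W z) (h0 : ∀ e, Prm e → bv m N f z e = 0) (e : Fin 2 → Qf a b ℤ) :
    bv m N f z e = 0 := by
  by_cases he : e = 0
  · subst he
    have h1 := hbv.hom W N hN z hz 0 0
    rw [zero_smul, map_zero, zero_pow (by omega), zero_mul] at h1
    exact h1
  · obtain ⟨l, e', -, he', rfl⟩ := (p_Scg a b hn hP).dec e he
    rw [hbv.hom W N hN z hz, h0 e' he', mul_zero]

theorem p_Xv0 (hv0 : T_v0) (hbv : B_bv) : X_v0 := by
  intro a b hn hEu hP m hm W hW N hN z hz h0
  refine hv0 a b hn hEu hP m hm W hW z hz fun e t ht => ?_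
  have hB := hbv a b hn m (by omega) ℂ (iC a b) (iC_inj hn)
  have h1 := hB.all W N hN z hz e t ht
  rw [bv_zero hn hP (iC a b) hB hN hz h0, zero_mul] at h1
  rcases mul_eq_zero.1 h1 with h2 | h2
  · exact absurd h2 (Nat.cast_ne_zero.2 hN.1)
  · exact h2

end Pool.Agent.F8.NL
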