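import Pool.Agent.Lib.MP_305fdd_al.F8.NL.StmX
import Pool.Agent.Lib.MP_305fdd_al.F8.NL.P_Xv0

/-!
# [NL X h1] complex crossed homomorphisms of degree one with one cusp
-/

set_option autoImplicit false

namespace Pool.Agent.F8.NL

open Pool.Agent.F8.CG Pool.Agent.F8.BG Pool.Agent.MP_305fdd_al Pool.Agent.Lib.MP_305fdd_al
  Pool.Agent.F8
open scoped QuadraticAlgebra ComplexConjugate

private theorem Xh1_mv {R : Type} [CommRing R] (M : Matrix (Fin 2) (Fin 2) R) (v : Fin 2 → R)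
    (i : Fin 2) : M.mulVec v i = M i 0 * v 0 + M i 1 * v 1 := by
  rw [Matrix.mulVec_eq_sum]
  simp [Fin.sum_univ_two, mul_comm]

private theorem Xh1_om_add (e v w : Fin 2 → ℂ) : CG.om e (v + w) = CG.om e v + CG.om e w := by
  unfold CG.om
  simp only [Pi.add_apply]
  ring

private theorem Xh1_om_smul (e v : Fin 2 → ℂ) (c : ℂ) : CG.om e (c • v) = c * CG.om e v := by
  unfold CG.om
  simp only [Pi.smul_apply, smul_eq_mul]
  ring

/-- the form of a vector -/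
private noncomputable def Xh1_P (v : Fin 2 → ℂ) : Fin (1 + 1) → ℂ := ![-v 0, v 1]

private theorem Xh1_ev (P : Fin (1 + 1) → ℂ) (e : Fin 2 → ℂ) :
    evm 1 P e = P 0 * e 1 + P 1 * e 0 := by
  unfold evm
  rw [Fin.sum_univ_two]
  simp

private theorem Xh1_Pev (v e : Fin 2 → ℂ) : evm 1 (Xh1_P v) e = CG.om e v := by
  rw [Xh1_ev]
  show -v 0 * e 1 + v 1 * e 0 = e 0 * v 1 - e 1 * v 0
  ring

private theorem Xh1_ext {P Q : Fin (1 + 1) → ℂ} (h : ∀ e, evm 1 P e = evm 1 Q e) : P = Q := by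
  have h0 := h ![0, 1]
  have h1 := h ![1, 0]
  rw [Xh1_ev, Xh1_ev] at h0 h1
  have h0' : P 0 = Q 0 := by simpa using h0
  have h1' : P 1 = Q 1 := by simpa using h1
  ext i
  fin_cases i
  · exact h0'
  · exact h1'

private theorem Xh1_add (v w : Fin 2 → ℂ) : Xh1_P (v + w) = Xh1_P v + Xh1_P w :=
  Xh1_ext fun e => by rw [evm_add, Xh1_Pev, Xh1_Pev, Xh1_Pev, Xh1_om_add]

private theorem Xh1_act {a b : ℤ} (x : GQ a b) (v : Fin 2 → ℂ) :
    (tV 1 (iC a b) x).mulVec (Xh1_P v) = Xh1_P ((iG a b x).val.mulVec v) := by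
  refine Xh1_ext fun e => ?_
  have h2 : evm 1 ((tV 1 (iC a b) x).mulVec (Xh1_P v)) e =
      evm 1 (Xh1_P v) (((iG a b x)⁻¹).val.mulVec e) := evm_sm 1 (iG a b x) _ e
  have h3 := (p_Vtv ℂ (((iG a b x)⁻¹).val.mulVec e) 0 0).2.2.2.2.2 (iG a b x) v
  have h4 : (iG a b x).val.mulVec (((iG a b x)⁻¹).val.mulVec e) = e := by
    rw [Matrix.mulVec_mulVec]
    show ((iG a b x) * (iG a b x)⁻¹).val.mulVec e = e
    rw [mul_inv_cancel]
    exact Matrix.one_mulVec e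
  rw [h4] at h3
  rw [h2, Xh1_Pev, Xh1_Pev, h3]

private noncomputable def Xh1_g {a b : ℤ} (W : Subgroup (GQ a b)) (i : Cusp W) : GQ a b :=
  Quotient.out (Quotient.out i : CG.Pr a b)

/-- the representative of the cusp `i` -/
private noncomputable def Xh1_d {a b : ℤ} (W : Subgroup (GQ a b)) (i : Cusp W) :
    Fin 2 → Qf a b ℤ := colG (Xh1_g W i) 0

private theorem Xh1_rep {a b : ℤ} (W : Subgroup (GQ a b)) (e : Fin 2 → Qf a b ℤ) (he : Prm e) :
    ∃ (i : Cusp W) (x : GQ a b), x ∈ W ∧ ∃ u v : Qf a b ℤ, u * v = 1 ∧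
      e = u • x.val.mulVec (Xh1_d W i) := by
  obtain ⟨g, rfl⟩ := he
  let i : Cusp W := Quotient.mk'' ((g : GQ a b) : CG.Pr a b)
  have h1 : (Quotient.mk'' (Quotient.out i) : Cusp W) = Quotient.mk'' ((g : GQ a b) : CG.Pr a b) :=
    Quotient.out_eq' i
  obtain ⟨w, hw⟩ := Quotient.exact' h1
  have h2 : ((Xh1_g W i : GQ a b) : CG.Pr a b) = Quotient.out i := Quotient.out_eq' (Quotient.out i)
  have h3 : (((w : GQ a b) * g : GQ a b) : CG.Pr a b) = ((Xh1_g W i : GQ a b) : CG.Pr a b) := by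
    rw [h2, ← hw]
    rfl
  have h4 := QuotientGroup.eq.1 h3
  have h5 := (Bor a b).inv_mem h4
  set k : GQ a b := ((↑w * g)⁻¹ * Xh1_g W i)⁻¹ with hk
  have hgx : g = (w : GQ a b)⁻¹ * Xh1_g W i * k := by
    rw [hk]
    group
  have hk' : k.val 1 0 = 0 := h5
  have hdet := k.2
  rw [Matrix.det_fin_two, hk', mul_zero, sub_zero] at hdet
  refine ⟨i, (w : GQ a b)⁻¹, W.inv_mem w.2, k.val 0 0, k.val 1 1, hdet, ?_⟩
  have hm : ∀ (g h : GQ a b) (i k : Fin 2),
      (g * h).val i k = g.val i 0 * h.val 0 k + g.val i 1 * h.val 1 k := fun g h i k => by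
    show (g.val * h.val) i k = _
    rw [Matrix.mul_apply, Fin.sum_univ_two]
  ext j : 1
  show g.val j 0 = k.val 0 0 * ((w : GQ a b)⁻¹).val.mulVec (Xh1_d W i) j
  rw [Xh1_mv]
  show _ = k.val 0 0 * (((w : GQ a b)⁻¹).val j 0 * (Xh1_g W i).val 0 0 +
    ((w : GQ a b)⁻¹).val j 1 * (Xh1_g W i).val 1 0)
  rw [hgx, hm, hm, hm, hk']
  ring

/-- the extension by zero -/
private noncomputable def Xh1_z {a b : ℤ} (W : Subgroup (GQ a b)) (z : W → Fin 2 → ℂ)
    (x : GQ a b) : Fin (1 + 1) → ℂ := by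
  classical
  exact if h : x ∈ W then Xh1_P (z ⟨x, h⟩) else 0

private theorem Xh1_zm {a b : ℤ} {W : Subgroup (GQ a b)} (z : W → Fin 2 → ℂ)
    {x : GQ a b} (hx : x ∈ W) : Xh1_z W z x = Xh1_P (z ⟨x, hx⟩) := by
  unfold Xh1_z
  rw [dif_pos hx]

private theorem Xh1_ch {a b : ℤ} {W : Subgroup (GQ a b)} {z : W → Fin 2 → ℂ}
    (hz : z ∈ Z1C W.subtype) : CH (tV 1 (iC a b)) W (Xh1_z W z) := by
  intro x hx y hy
  have hz' : ∀ x y : W, z (x * y) = z x + (iG a b x.val).val.mulVec (z y) := hz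
  rw [Xh1_zm z hx, Xh1_zm z hy, Xh1_zm z (W.mul_mem hx hy), Xh1_act, ← Xh1_add]
  exact congrArg Xh1_P (hz' ⟨x, hx⟩ ⟨y, hy⟩)

private theorem Xh1_mem {a b : ℤ} {W : Subgroup (GQ a b)} {N : ℕ} (hN : Lv W N)
    (e : Fin 2 → Qf a b ℤ) : tv e (N : Qf a b ℤ) ∈ W := by
  have h := hN.2 e 1
  rwa [mul_one] at h

private theorem Xh1_bv {a b : ℤ} {W : Subgroup (GQ a b)} {N : ℕ} (hN : Lv W N)
    (z : W → Fin 2 → ℂ) (e : Fin 2 → Qf a b ℤ) :
    bv 1 N (iC a b) (Xh1_z W z) e = CG.om (vC a b e) (z ⟨_, Xh1_mem hN e⟩) := by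
  unfold bv
  rw [Xh1_zm z (Xh1_mem hN e), Xh1_Pev]
  rfl

/-- the coboundaries -/
private noncomputable def Xh1_K {a b : ℤ} (W : Subgroup (GQ a b)) :
    (Fin 2 → ℂ) →ₗ[ℂ] (W → Fin 2 → ℂ) where
  toFun v x := (iG a b x.val).val.mulVec v - v
  map_add' v w := by
    ext x i
    simp only [Matrix.mulVec_add, Pi.add_apply, Pi.sub_apply]
    ring
  map_smul' c v := by
    ext x i
    simp only [Matrix.mulVec_smul, Pi.smul_apply, Pi.sub_apply, RingHom.id_apply, smul_eq_mul]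
    ring

/-- the boundary values -/
private noncomputable def Xh1_B {a b : ℤ} {W : Subgroup (GQ a b)} {N : ℕ} (hN : Lv W N) :
    Z1C W.subtype →ₗ[ℂ] (Cusp W → ℂ) where
  toFun z i := CG.om (vC a b (Xh1_d W i)) (z.val ⟨_, Xh1_mem hN (Xh1_d W i)⟩)
  map_add' z w := by
    ext i
    exact Xh1_om_add _ _ _
  map_smul' c z := by
    ext i
    exact Xh1_om_smul _ _ _

private theorem Xh1_Pinv (u : Fin (1 + 1) → ℂ) : u = Xh1_P ![-u 0, u 1] := by
  ext i
  fin_cases i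
  · show u 0 = - -u 0
    rw [neg_neg]
  · rfl

private theorem Xh1_Pinj {v w : Fin 2 → ℂ} (h : Xh1_P v = Xh1_P w) : v = w := by
  have h0 : -v 0 = -w 0 := congrFun h 0
  have h1 : v 1 = w 1 := congrFun h 1
  ext i
  fin_cases i
  · exact neg_injective h0
  · exact h1

theorem p_Xh1 (hv0 : T_v0) (hbv : B_bv) : X_h1 := by
  intro a b hn hEu hP M₀ hLD W hW hWM N hN e₀ he₀
  have hB := hbv a b hn 1 le_rfl ℂ (iC a b) (iC_inj hn)
  obtain ⟨hfin, hrk⟩ := hLD W hWM hW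
  let _ : Fintype (Cusp W) := Fintype.ofFinite _
  have hZfin : Module.Finite ℂ (Z1C W.subtype) := Module.finite_of_finrank_pos (by omega)
  -- the value at the cusps
  have hval : ∀ z ∈ Z1C W.subtype, ∀ (i : Cusp W) (x : GQ a b), x ∈ W → ∀ u : Qf a b ℤ,
      bv 1 N (iC a b) (Xh1_z W z) (u • x.val.mulVec (Xh1_d W i)) =
        iC a b u ^ 3 * CG.om (vC a b (Xh1_d W i)) (z ⟨_, Xh1_mem hN (Xh1_d W i)⟩) := by
    intro z hz i x hx u
    rw [hB.hom W N hN _ (Xh1_ch hz), hB.inv W N hN _ (Xh1_ch hz) x hx, Xh1_bv hN]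
  have h0 : ∀ z : LinearMap.ker (Xh1_B (a := a) (b := b) hN),
      z.val.val ∈ LinearMap.range (Xh1_K W) := by
    intro z
    have h4 := z.2
    rw [LinearMap.mem_ker] at h4
    obtain ⟨v, hv⟩ := p_Xv0 hv0 hbv a b hn hEu hP 1 (Or.inl rfl) W hW N hN
      (Xh1_z W z.val.val) (Xh1_ch z.val.2) fun e he => by
        obtain ⟨i, x, hx, u, v, huv, rfl⟩ := Xh1_rep W e he
        rw [hval z.val.val z.val.2 i x hx u]
        have h5 : CG.om (vC a b (Xh1_d W i)) (z.val.val ⟨_, Xh1_mem hN (Xh1_d W i)⟩) = 0 :=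
          congrFun h4 i
        rw [h5, mul_zero]
    refine ⟨![-v 0, v 1], ?_⟩
    ext x : 1
    have h6 := hv x.val x.2
    rw [Xh1_zm _ x.2] at h6
    apply Xh1_Pinj
    have h7 : Xh1_P (Xh1_K W ![-v 0, v 1] x + ![-v 0, v 1]) =
        Xh1_P (z.val.val x + ![-v 0, v 1]) := by
      have h8 : Xh1_K W ![-v 0, v 1] x + ![-v 0, v 1] =
          (iG a b x.val).val.mulVec ![-v 0, v 1] := sub_add_cancel _ _
      rw [h8, ← Xh1_act, Xh1_add, ← Xh1_Pinv]
      have h9 : Xh1_P (z.val.val x) = Xh1_P (z.val.val ⟨x.val, x.2⟩) := rfl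
      rw [h9, h6, sub_add_cancel]
    rw [Xh1_add, Xh1_add] at h7
    exact add_right_cancel h7
  have h2 : Module.finrank ℂ (LinearMap.ker (Xh1_B (a := a) (b := b) hN)) ≤ 2 := by
    let f : LinearMap.ker (Xh1_B (a := a) (b := b) hN) →ₗ[ℂ]
        LinearMap.range (Xh1_K W) :=
      LinearMap.codRestrict (LinearMap.range (Xh1_K W))
        ((Z1C W.subtype).subtype ∘ₗ
          (LinearMap.ker (Xh1_B (a := a) (b := b) hN)).subtype) h0
    have hf : Function.Injective f := by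
      intro y z hyz
      have h6 : (f y).val = (f z).val := congrArg Subtype.val hyz
      apply Subtype.ext
      apply Subtype.ext
      exact h6
    refine (LinearMap.finrank_le_finrank_of_injective hf).trans ?_
    refine (LinearMap.finrank_range_le _).trans ?_
    rw [Module.finrank_fin_fun]
  have h3 := LinearMap.finrank_range_add_finrank_ker (Xh1_B (a := a) (b := b) hN)
  have h4 : Module.finrank ℂ (Cusp W → ℂ) = Nat.card (Cusp W) := by
    rw [Module.finrank_fintype_fun_eq_card, Nat.card_eq_fintype_card]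
  have h5 : LinearMap.range (Xh1_B (a := a) (b := b) hN) = ⊤ := by
    apply Submodule.eq_top_of_finrank_eq
    apply le_antisymm (Submodule.finrank_le _)
    omega
  obtain ⟨i₀, x₀, hx₀, u₀, v₀, huv₀, he₀'⟩ := Xh1_rep W e₀ he₀
  classical
  obtain ⟨z, hz⟩ := LinearMap.range_eq_top.1 h5 (fun i => if i = i₀ then 1 else 0)
  have hz' : ∀ i, CG.om (vC a b (Xh1_d W i)) (z.val ⟨_, Xh1_mem hN (Xh1_d W i)⟩) =
      if i = i₀ then 1 else 0 := fun i => congrFun hz i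
  refine ⟨Xh1_z W z.val, Xh1_ch z.2, ?_, ?_⟩
  · rw [he₀', hval z.val z.2 i₀ x₀ hx₀ u₀, hz', if_pos rfl, mul_one]
    have h6 : iC a b u₀ * iC a b v₀ = 1 := by rw [← map_mul, huv₀, map_one]
    exact pow_ne_zero _ (left_ne_zero_of_mul_eq_one h6)
  · intro e he hCs
    obtain ⟨i, x, hx, u, v, huv, rfl⟩ := Xh1_rep W e he
    rw [hval z.val z.2 i x hx u, hz']
    have hi : i ≠ i₀ := by
      rintro rfl
      apply hCs
      refine ⟨x * x₀⁻¹, W.mul_mem hx (W.inv_mem hx₀), u * v₀,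
        IsUnit.mul (IsUnit.of_mul_eq_one _ huv)
          (IsUnit.of_mul_eq_one _ (by rw [mul_comm]; exact huv₀)), ?_⟩
      rw [he₀', Matrix.mulVec_smul, smul_smul, Matrix.mulVec_mulVec]
      have h7 : u * v₀ * u₀ = u := by rw [mul_assoc, mul_comm v₀, huv₀, mul_one]
      have h8 : (x * x₀⁻¹).val * x₀.val = x.val := by
        show ((x * x₀⁻¹) * x₀).val = x.val
        rw [inv_mul_cancel_right]
      rw [h7, h8]
    rw [if_neg hi, mul_zero]

end Pool.Agent.F8.NL
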