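import Pool.Agent.Lib.MP_305fdd_al.F8.NL.MainSU
import Pool.Agent.Lib.MP_305fdd_al.F8.NL.P_Aapp
import Pool.Agent.Lib.MP_305fdd_al.F8.NL.P_Ac0
import Pool.Agent.Lib.MP_305fdd_al.F8.NL.P_Ac1
import Pool.Agent.Lib.MP_305fdd_al.F8.NL.P_Aext
import Pool.Agent.Lib.MP_305fdd_al.F8.NL.P_Agr
import Pool.Agent.Lib.MP_305fdd_al.F8.NL.P_Ahol
import Pool.Agent.Lib.MP_305fdd_al.F8.NL.P_Amain
import Pool.Agent.Lib.MP_305fdd_al.F8.NL.P_Aone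
import Pool.Agent.Lib.MP_305fdd_al.F8.NL.P_Apol
import Pool.Agent.Lib.MP_305fdd_al.F8.NL.P_Ared
import Pool.Agent.Lib.MP_305fdd_al.F8.NL.P_Bbv
import Pool.Agent.Lib.MP_305fdd_al.F8.NL.P_Cbor
import Pool.Agent.Lib.MP_305fdd_al.F8.NL.P_Ccl
import Pool.Agent.Lib.MP_305fdd_al.F8.NL.P_Ccpt
import Pool.Agent.Lib.MP_305fdd_al.F8.NL.P_Cext
import Pool.Agent.Lib.MP_305fdd_al.F8.NL.P_Cgl
import Pool.Agent.Lib.MP_305fdd_al.F8.NL.P_Cloc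
import Pool.Agent.Lib.MP_305fdd_al.F8.NL.P_Co
import Pool.Agent.Lib.MP_305fdd_al.F8.NL.P_Cu
import Pool.Agent.Lib.MP_305fdd_al.F8.NL.P_Cv
import Pool.Agent.Lib.MP_305fdd_al.F8.NL.P_Ebd
import Pool.Agent.Lib.MP_305fdd_al.F8.NL.P_Ebv
import Pool.Agent.Lib.MP_305fdd_al.F8.NL.P_Ecoc
import Pool.Agent.Lib.MP_305fdd_al.F8.NL.P_Edc
import Pool.Agent.Lib.MP_305fdd_al.F8.NL.P_Edif
import Pool.Agent.Lib.MP_305fdd_al.F8.NL.P_Egrn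
import Pool.Agent.Lib.MP_305fdd_al.F8.NL.P_Ejsm
import Pool.Agent.Lib.MP_305fdd_al.F8.NL.P_Emain
import Pool.Agent.Lib.MP_305fdd_al.F8.NL.P_Eom
import Pool.Agent.Lib.MP_305fdd_al.F8.NL.P_Erv
import Pool.Agent.Lib.MP_305fdd_al.F8.NL.P_Esm
import Pool.Agent.Lib.MP_305fdd_al.F8.NL.P_Haa
import Pool.Agent.Lib.MP_305fdd_al.F8.NL.P_Hbb
import Pool.Agent.Lib.MP_305fdd_al.F8.NL.P_Hdes
import Pool.Agent.Lib.MP_305fdd_al.F8.NL.P_Hdm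
import Pool.Agent.Lib.MP_305fdd_al.F8.NL.P_Hev
import Pool.Agent.Lib.MP_305fdd_al.F8.NL.P_Hmap
import Pool.Agent.Lib.MP_305fdd_al.F8.NL.P_Hrel
import Pool.Agent.Lib.MP_305fdd_al.F8.NL.P_Hsp
import Pool.Agent.Lib.MP_305fdd_al.F8.NL.P_Mbv
import Pool.Agent.Lib.MP_305fdd_al.F8.NL.P_Mdc
import Pool.Agent.Lib.MP_305fdd_al.F8.NL.P_Mdiv
import Pool.Agent.Lib.MP_305fdd_al.F8.NL.P_Mfin
import Pool.Agent.Lib.MP_305fdd_al.F8.NL.P_Mid1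
import Pool.Agent.Lib.MP_305fdd_al.F8.NL.P_Midn
import Pool.Agent.Lib.MP_305fdd_al.F8.NL.P_Mint
import Pool.Agent.Lib.MP_305fdd_al.F8.NL.P_Mk
import Pool.Agent.Lib.MP_305fdd_al.F8.NL.P_Mlim
import Pool.Agent.Lib.MP_305fdd_al.F8.NL.P_Mmain
import Pool.Agent.Lib.MP_305fdd_al.F8.NL.P_Mrv
import Pool.Agent.Lib.MP_305fdd_al.F8.NL.P_Msep
import Pool.Agent.Lib.MP_305fdd_al.F8.NL.P_Mset
import Pool.Agent.Lib.MP_305fdd_al.F8.NL.P_Mtil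
import Pool.Agent.Lib.MP_305fdd_al.F8.NL.P_Mv
import Pool.Agent.Lib.MP_305fdd_al.F8.NL.P_Mvan
import Pool.Agent.Lib.MP_305fdd_al.F8.NL.P_Pat
import Pool.Agent.Lib.MP_305fdd_al.F8.NL.P_Pfx
import Pool.Agent.Lib.MP_305fdd_al.F8.NL.P_Pinv
import Pool.Agent.Lib.MP_305fdd_al.F8.NL.P_Plv
import Pool.Agent.Lib.MP_305fdd_al.F8.NL.P_Pone
import Pool.Agent.Lib.MP_305fdd_al.F8.NL.P_Ppair
import Pool.Agent.Lib.MP_305fdd_al.F8.NL.P_Ppb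
import Pool.Agent.Lib.MP_305fdd_al.F8.NL.P_Pth
import Pool.Agent.Lib.MP_305fdd_al.F8.NL.P_Ptor
import Pool.Agent.Lib.MP_305fdd_al.F8.NL.P_Ptw
import Pool.Agent.Lib.MP_305fdd_al.F8.NL.P_Ptwo
import Pool.Agent.Lib.MP_305fdd_al.F8.NL.P_Rmain
import Pool.Agent.Lib.MP_305fdd_al.F8.NL.P_Rnm
import Pool.Agent.Lib.MP_305fdd_al.F8.NL.P_Rone
import Pool.Agent.Lib.MP_305fdd_al.F8.NL.P_Rsrf
import Pool.Agent.Lib.MP_305fdd_al.F8.NL.P_Rstr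
import Pool.Agent.Lib.MP_305fdd_al.F8.NL.P_Run
import Pool.Agent.Lib.MP_305fdd_al.F8.NL.P_Taff
import Pool.Agent.Lib.MP_305fdd_al.F8.NL.P_Tdim
import Pool.Agent.Lib.MP_305fdd_al.F8.NL.P_Tfam
import Pool.Agent.Lib.MP_305fdd_al.F8.NL.P_Tfx
import Pool.Agent.Lib.MP_305fdd_al.F8.NL.P_Thf
import Pool.Agent.Lib.MP_305fdd_al.F8.NL.P_Tind
import Pool.Agent.Lib.MP_305fdd_al.F8.NL.P_Ttd
import Pool.Agent.Lib.MP_305fdd_al.F8.NL.P_Tto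
import Pool.Agent.Lib.MP_305fdd_al.F8.NL.P_Tto0
import Pool.Agent.Lib.MP_305fdd_al.F8.NL.P_Tuq
import Pool.Agent.Lib.MP_305fdd_al.F8.NL.P_Tv0
import Pool.Agent.Lib.MP_305fdd_al.F8.NL.P_TvtN
import Pool.Agent.Lib.MP_305fdd_al.F8.NL.P_Ucj
import Pool.Agent.Lib.MP_305fdd_al.F8.NL.P_Uend
import Pool.Agent.Lib.MP_305fdd_al.F8.NL.P_Xcb
import Pool.Agent.Lib.MP_305fdd_al.F8.NL.P_Xcx
import Pool.Agent.Lib.MP_305fdd_al.F8.NL.P_Xde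
import Pool.Agent.Lib.MP_305fdd_al.F8.NL.P_Xfw
import Pool.Agent.Lib.MP_305fdd_al.F8.NL.P_Xfx
import Pool.Agent.Lib.MP_305fdd_al.F8.NL.P_Xh1
import Pool.Agent.Lib.MP_305fdd_al.F8.NL.P_Xv0

/-!
# MP_305fdd_al, all lattices (project NL): the assembly of the pieces

`m_Rsrf`: the main result on lifts (`SRF`), `m_Uend`: the main result on automorphisms. The blocks: A, T (vanishing), E (Eisenstein series), X (rationality), H (second cohomology), C (completion), P (pairs of cusps), M (measures), R (rigidity), U (automorphisms).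
-/

set_option autoImplicit false

namespace Pool.Agent.F8.NL

open Pool.Agent.F8.CG

/-! ### Blocks A, T -/

theorem m_Amain : A_main :=
  p_Amain p_Apol (p_Agr p_Apol) (p_Aapp p_Apol (p_Agr p_Apol) p_Ared) (p_Aext p_Apol) p_Ahol
    (p_Aone p_Ahol) p_Ac0 p_Ac1

theorem m_Tuq : T_uq := p_Tuq p_Tind

theorem m_Ttd : T_td := p_Ttd m_Tuq (p_Tto p_Tind p_Tto0) p_Taff

theorem m_TvtN : T_vtN := p_TvtN m_Amain m_Tuq (p_Thf m_Ttd) p_Tfx p_Tfam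

theorem m_Tv0 : T_v0 := p_Tv0 m_TvtN m_Vvt

theorem m_Tdim : T_dim := p_Tdim m_Ttd m_TvtN

/-! ### Block E -/

theorem m_Esm : E_sm := p_Esm p_Ebd

theorem m_Ecoc : E_coc := p_Ecoc p_Eom m_Esm

theorem m_Ejsm : E_jsm := p_Ejsm p_Ebd m_Esm

theorem m_Emain : E_main :=
  p_Emain m_Ecoc (p_Ebv p_Eom p_Ebd m_Esm m_Ecoc p_Bbv)
    (p_Erv p_Eom m_Esm m_Ecoc (p_Egrn p_Edif) m_Ejsm p_Edc) m_Ejsm

/-! ### Block C -/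

theorem m_Cext : C_ext := p_Cext p_Cloc p_Ccl

theorem m_Cbor : C_bor := p_Cbor p_Cu

/-! ### Block X -/

theorem m_Xde : X_de := p_Xde p_Slin

theorem m_Xcx : X_cx := p_Xcx (p_Xfw p_Xfx) m_Xde

theorem m_Xex : X_ex := p_Xex m_Emain m_Xcx

theorem m_Xex1 : X_ex1 := p_Xex1 (p_Xh1 m_Tv0 p_Bbv) m_Xcx

theorem m_Xcb : X_cb := p_Xcb (p_Xv0 m_Tv0 p_Bbv) (p_Xl1 m_Xde)

/-! ### Block H -/

theorem m_Hev : H_ev := p_Hev p_Hmap p_Bbv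

theorem m_Hsp : H_sp := p_Hsp m_Tdim m_Xex m_Xex1 p_Hrel p_Hdm p_Hdes p_Hmap m_Hev

theorem m_Ha : H_a := p_Haa p_Hrel p_Hmap m_Hev m_Hsp

theorem m_Hb : H_b := p_Hbb p_Hrel m_Hsp

/-! ### Block P -/

theorem m_Ptor : P_tor := p_Ptor p_Cloc

theorem m_Ptwo : P_two :=
  p_Ptwo p_Ppb (p_Ptw p_Cloc m_Cext m_Ptor m_Ha p_Co) m_Cext p_Bbv

theorem m_Pone : P_one :=
  p_Pone p_Cloc m_Cext p_Cv p_Ccl p_Plv p_Ppb m_Ptor p_Pth m_Hb p_Bbv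

theorem m_Pat : P_at := p_Pat m_Ptwo m_Xex m_Xex1 m_Xcb p_Hmap m_Cext p_Ppb p_Bbv

theorem m_Ppair : P_pair :=
  p_Ppair (p_Pfx m_Pone m_Pat (p_Pinv m_Cext p_Ccl p_Ppb)) p_Ppb p_Ccpt m_Cbor p_Co p_Cu p_Plv

/-! ### Block M -/

theorem m_Msep : M_sep := p_Msep m_Xex m_Cext p_Cu p_Ccl m_Cbor p_Bbv p_Plv p_Co

theorem m_Mk : M_k := p_Mk m_Msep m_Cbor p_Cu p_Co p_Plv p_Ppb

theorem m_Mfin : M_fin := p_Mfin m_Mk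

theorem m_Mid1 : M_id1 :=
  p_Mid1 m_Emain m_Xex m_Mfin (p_Mbv m_Cext p_Cu p_Bbv p_Ppb p_Ccl)
    (p_Mrv (p_Mdc m_Cext p_Cu) m_Cext p_Cu p_Ppb p_Ccl) (p_Mvan m_Tv0 p_Bbv) p_Bbv m_Cext p_Ccl
    p_Plv p_Ppb

theorem m_Mmain : M_main :=
  p_Mmain m_Ppair (p_Mv p_Cv) m_Mfin (p_Midn m_Mid1 p_Mtil m_Mfin m_Emain p_Cu) p_Mlim
    (p_Mset m_Mk (p_Mdiv m_Cbor) p_Ccpt m_Cbor p_Cu p_Co p_Ppb) p_Mint m_Emain p_Plv m_Mk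

/-! ### Blocks R, U -/

theorem m_Rone : R_one := p_Rone m_Mmain

theorem m_Rmain : R_main :=
  p_Rmain (p_Rnm m_Ppair (p_Run m_Rone m_Cbor p_Cu p_Co) p_Cu p_Co m_Mk)
    (p_Rstr m_Rone m_Mk m_Cbor p_Cu p_Co) m_Mk p_Cu p_Co

theorem m_Rsrf : R_srf := p_Rsrf m_Rmain p_Cgl

theorem m_Uun : U_un := fun a b M₀ m H g t t' ht hg =>
  m_Msep a b M₀ m H g (jH a b t) (jH a b t') (fun x hx => (p_Co a b H.neg).2.1 t x ht hx) hg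

theorem m_Uend : U_end := p_Uend m_Uun (p_Ucj p_Ccpt) m_Cbor p_Co p_Cu p_Ccl p_Plv

end Pool.Agent.F8.NL
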