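import Pool.Agent.Lib.MP_305fdd_al.F8.NL.StmU2
import Pool.Agent.Lib.MP_305fdd_al.F8.NC.MainAll
import Pool.Agent.Lib.MP_305fdd_al.F8.CG.MainLD

/-!
# MP_305fdd_al, all lattices (project NL): the five rings satisfy the hypotheses `PHyp`
-/

set_option autoImplicit false

namespace Pool.Agent.F8.NL

open Pool.Agent.F8.CG Pool.Agent.F8.BG Pool.Agent.MP_305fdd_al Pool.Agent.Lib.MP_305fdd_al
  Pool.Agent.F8
open scoped QuadraticAlgebra

private theorem SU_nq {a b : ℤ} (hn : b ^ 2 + 4 * a < 0) {u : Qf a b ℤ} (hu : IsUnit u) :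
    u.re ^ 2 + b * u.re * u.im - a * u.im ^ 2 = 1 := by
  obtain ⟨v, hv⟩ := hu.exists_right_inv
  have h1 : nq u * nq v = 1 := by
    rw [← nq_mul, hv]
    unfold nq
    simp
  have h2 := nq_nonneg hn u
  have h3 := nq_nonneg hn v
  exact Int.eq_one_or_neg_one_of_mul_eq_one h1 |>.resolve_right (by omega)

theorem une12 : ∀ p ∈ BG.fives, UnE p.1 p.2 (10 + 2) := by
  intro p hp u hu
  simp only [BG.fives, List.mem_cons, List.not_mem_nil, or_false] at hp
  rcases hp with rfl | rfl | rfl | rfl | rfl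
  · have h := SU_nq (by norm_num) hu
    obtain ⟨r, s⟩ := u
    simp only at h
    have hr : r ^ 2 ≤ 1 := by nlinarith [sq_nonneg s]
    have hs : s ^ 2 ≤ 1 := by nlinarith [sq_nonneg r]
    have hr1 : -1 ≤ r := by nlinarith
    have hr2 : r ≤ 1 := by nlinarith
    have hs1 : -1 ≤ s := by nlinarith
    have hs2 : s ≤ 1 := by nlinarith
    interval_cases r <;> interval_cases s <;> first | (exfalso; revert h; norm_num; done) | decide
  · have h := SU_nq (by norm_num) hu
    obtain ⟨r, s⟩ := u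
    simp only at h
    have hr : r ^ 2 ≤ 1 := by nlinarith [sq_nonneg s]
    have hs : s ^ 2 ≤ 1 := by nlinarith [sq_nonneg r]
    have hr1 : -1 ≤ r := by nlinarith
    have hr2 : r ≤ 1 := by nlinarith
    have hs1 : -1 ≤ s := by nlinarith
    have hs2 : s ≤ 1 := by nlinarith
    interval_cases r <;> interval_cases s <;> first | (exfalso; revert h; norm_num; done) | decide
  · have h := SU_nq (by norm_num) hu
    obtain ⟨r, s⟩ := u
    simp only at h
    have hs : s ^ 2 ≤ 1 := by nlinarith [sq_nonneg (2 * r - s)]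
    have hr : r ^ 2 ≤ 1 := by nlinarith [sq_nonneg (2 * s - r)]
    have hr1 : -1 ≤ r := by nlinarith
    have hr2 : r ≤ 1 := by nlinarith
    have hs1 : -1 ≤ s := by nlinarith
    have hs2 : s ≤ 1 := by nlinarith
    interval_cases r <;> interval_cases s <;> first | (exfalso; revert h; norm_num; done) | decide
  · have h := SU_nq (by norm_num) hu
    obtain ⟨r, s⟩ := u
    simp only at h
    have hs : s ^ 2 ≤ 1 := by nlinarith [sq_nonneg (2 * r - s)]
    have hr : r ^ 2 ≤ 1 := by nlinarith [sq_nonneg (4 * s - r)]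
    have hr1 : -1 ≤ r := by nlinarith
    have hr2 : r ≤ 1 := by nlinarith
    have hs1 : -1 ≤ s := by nlinarith
    have hs2 : s ≤ 1 := by nlinarith
    interval_cases r <;> interval_cases s <;> first | (exfalso; revert h; norm_num; done) | decide
  · have h := SU_nq (by norm_num) hu
    obtain ⟨r, s⟩ := u
    simp only at h
    have hs : s ^ 2 ≤ 1 := by nlinarith [sq_nonneg (2 * r + s)]
    have hr : r ^ 2 ≤ 1 := by nlinarith [sq_nonneg (6 * s + r)]
    have hr1 : -1 ≤ r := by nlinarith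
    have hr2 : r ≤ 1 := by nlinarith
    have hs1 : -1 ≤ s := by nlinarith
    have hs2 : s ≤ 1 := by nlinarith
    interval_cases r <;> interval_cases s <;> first | (exfalso; revert h; norm_num; done) | decide

private theorem ld_mono {a b : ℤ} {M M' : ℕ} (h : M ∣ M') (hl : LD a b M) : LD a b M' :=
  fun W hW hf => hl W (hW.trans (gam_le h)) hf

/-- the hypotheses for the five rings -/
theorem phyp : ∀ p ∈ BG.fives, ∃ M₀ : ℕ, 3 ≤ M₀ ∧ 36 ∣ M₀ ∧ PHyp p.1 p.2 M₀ 10 := by
  intro p hp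
  obtain ⟨h5, hd, -, -⟩ := datC z_thFm p hp
  obtain ⟨ι, _, α, N, w', M, c, g, G₀, η, hdat⟩ := hd
  have hM := hdat.eta.ne
  have hdv : 3 * M ∣ 36 * M := ⟨12, by ring⟩
  refine ⟨36 * M, by omega, ⟨M, rfl⟩, ⟨hdat.neg, p_Veu p.1 p.2 h5, (m_Ear p.1 p.2 h5).1,
    blk.fg p.1 p.2 ι α M c g G₀ η hdat.eta, by omega, ?_, ?_, by norm_num, ⟨5, rfl⟩, une12 p hp⟩⟩
  · exact ld_mono hdv (m_Uld p.1 p.2 h5 ι α N w' M c g G₀ η hdat).2
  · intro W hW hf
    exact p_Uw p_Ugr p.1 p.2 ι α N w' M c g G₀ η hdat W (hW.trans (gam_le hdv)) hf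

/-- the two main statements for the five rings -/
theorem su_of (hS : ∀ (a b : ℤ) (M₀ m : ℕ), PHyp a b M₀ m → NC.SRF a b M₀) (hU : U_end) :
    ∀ p ∈ BG.fives, NC.SU p.1 p.2 := by
  intro p hp
  obtain ⟨M₀, h3, h36, hP⟩ := phyp p hp
  exact ⟨M₀, h3, h36, hS _ _ _ _ hP, hU _ _ _ _ hP⟩

end Pool.Agent.F8.NL
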