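import Pool.Agent.Lib.MP_305fdd_al.F8.NL.MainSU

/-!
# MP_305fdd_al, all lattices (project NL): the final statement, from the two main statements

`rigid_wide`: let `G` be a group, `G₁` a subgroup of finite index and `f : G₁ → PSL(2, ℂ)` an
injective homomorphism whose image is commensurable with the image of `SL(2, O_K)`. Then `G` is
profinitely rigid.
-/

set_option autoImplicit false

namespace Pool.Agent.F8.NL

open Pool.Agent.F8.BG Pool.Agent.MP_305fdd_al Pool.Agent.Lib.MP_305fdd_al Pool.Agent.F8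
  Pool.Agent.F8.CG NumberField
open scoped QuadraticAlgebra MatrixGroups

/-- groups with a subgroup of finite index which is a lattice of `PSL(2, ℂ)`, over `ℤ[w]` -/
theorem wide_of' {a b : ℤ} (hn : b ^ 2 + 4 * a < 0) (h : NC.RigC (Qf a b ℤ))
    (j : Qf a b ℤ →+* ℂ) (hj : Function.Injective j) (G : Type) [Group G] (G₁ : Subgroup G)
    (hG : G₁.FiniteIndex) (f : G₁ →* PSL(2, ℂ)) (hf : Function.Injective f)
    (hc : Subgroup.Commensurable f.range (Cong.toPSL j).range) : ProfinitelyRigid G := by
  have hf3 : Finite (SL2 (Qf a b (ZMod 3))) := inferInstance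
  have h3 : (Gam a b 3).FiniteIndex := Subgroup.finiteIndex_ker _
  have hc1 : (f.range.comap (Cong.toPSL j)).FiniteIndex := by
    constructor
    rw [Subgroup.index_comap]
    exact hc.1
  let B : Subgroup (GQ a b) := Gam a b 3 ⊓ f.range.comap (Cong.toPSL j)
  have hB : B.FiniteIndex := inferInstance
  have hle : B.map (Cong.toPSL j) ≤ f.range := by
    rintro _ ⟨x, hx, rfl⟩
    exact hx.2
  have hi : (B.map (Cong.toPSL j)).relIndex f.range ≠ 0 := by
    refine Subgroup.relIndex_ne_zero_trans (K := (Cong.toPSL j).range) ?_ hc.2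
    have h5 : (B ⊔ (Cong.toPSL j).ker).FiniteIndex := Subgroup.finiteIndex_of_le le_sup_left
    have h7 : (B.map (Cong.toPSL j)).comap (Cong.toPSL j) = B ⊔ (Cong.toPSL j).ker :=
      Subgroup.comap_map_eq _ _
    rw [← Subgroup.index_comap, h7]
    exact h5.index_ne_zero
  have hinj : Function.Injective ((Cong.toPSL j).subgroupMap B) := by
    rw [injective_iff_map_eq_one]
    intro x hx
    exact Subtype.ext (NC.toPSL_inj hn j hj x x.2.1 (congrArg Subtype.val hx))
  have hD : ((B.map (Cong.toPSL j)).comap f).FiniteIndex := by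
    constructor
    rw [Subgroup.index_comap]
    exact hi
  have hD' : (((B.map (Cong.toPSL j)).comap f).map G₁.subtype).FiniteIndex := by
    constructor
    rw [Subgroup.index_map_subtype]
    exact mul_ne_zero hD.index_ne_zero hG.index_ne_zero
  refine h G (((B.map (Cong.toPSL j)).comap f).map G₁.subtype) hD' B hB ⟨?_⟩
  have e1 : ((B.map (Cong.toPSL j)).comap f) ≃* ((B.map (Cong.toPSL j)).comap f).map G₁.subtype :=
    Subgroup.equivMapOfInjective _ _ G₁.subtype_injective
  have e2 : ((B.map (Cong.toPSL j)).comap f) ≃* ((B.map (Cong.toPSL j)).comap f).map f :=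
    Subgroup.equivMapOfInjective _ _ hf
  have e3 : ((B.map (Cong.toPSL j)).comap f).map f = B.map (Cong.toPSL j) := by
    rw [Subgroup.map_comap_eq]
    exact inf_eq_right.2 hle
  exact e1.symm.trans (e2.trans ((MulEquiv.subgroupCongr e3).trans
    (MulEquiv.ofBijective _ ⟨hinj, (Cong.toPSL j).subgroupMap_surjective B⟩).symm))

/-- Groups with a subgroup of finite index which is isomorphic to a subgroup of `PSL(2, ℂ)`
commensurable with the image of `SL(2, O_K)`. -/
theorem rigid_wide (hS : ∀ (a b : ℤ) (M₀ m : ℕ), PHyp a b M₀ m → NC.SRF a b M₀) (hU : U_end)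
    (K : Type) [Field K] [NumberField K] (hK : Module.finrank ℚ K = 2) (w : K)
    (hw : w ^ 2 = -1 ∨ w ^ 2 = -2 ∨ w ^ 2 = -3 ∨ w ^ 2 = -7 ∨ w ^ 2 = -11)
    (i : 𝓞 K →+* ℂ) (G : Type) [Group G] (G₁ : Subgroup G) (hG : G₁.FiniteIndex)
    (f : G₁ →* PSL(2, ℂ)) (hf : Function.Injective f)
    (hc : Subgroup.Commensurable f.range (Cong.toPSL i).range) : ProfinitelyRigid G := by
  obtain ⟨a, b, hn, h, ⟨e⟩⟩ := NC.ex_rigC (su_of hS hU) K hK w hw
  refine wide_of' hn h (i.comp e.toRingHom) ((inj_C K i).comp e.injective) G G₁ hG f hf ?_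
  have h1 : (Cong.toPSL (i.comp e.toRingHom)).range = (Cong.toPSL i).range := by
    apply le_antisymm
    · rintro _ ⟨x, rfl⟩
      exact ⟨Matrix.SpecialLinearGroup.map e.toRingHom x, rfl⟩
    · rintro _ ⟨x, rfl⟩
      refine ⟨Matrix.SpecialLinearGroup.map e.symm.toRingHom x, ?_⟩
      show QuotientGroup.mk' _ _ = QuotientGroup.mk' _ _
      congr 1
      apply Subtype.ext
      refine Matrix.ext fun k l => ?_
      show i (e (e.symm (x k l))) = i (x k l)
      rw [e.apply_symm_apply]
  rw [h1]
  exact hc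

end Pool.Agent.F8.NL
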