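import Pool.Agent.Lib.MP_305fdd_al.F8.NL.StmA

/-!
# [NL A one] functions with good approximations `T₀ + conj x T₁`
-/

set_option autoImplicit false

namespace Pool.Agent.F8.NL

open Pool.Agent.F8.CG Pool.Agent.F8.BG Pool.Agent.MP_305fdd_al Pool.Agent.Lib.MP_305fdd_al
  Pool.Agent.F8
open scoped QuadraticAlgebra ComplexConjugate Topology Real

/-- the circle average, which computes the coefficient of `conj z` -/
private noncomputable def Aone_b (G : ℂ → ℂ) (r : ℝ) (x : ℂ) : ℂ :=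
  (2 * π * Complex.I * (r : ℂ) ^ 2)⁻¹ * ∮ z in C(x, r), G z

private theorem Aone_pol {T₀ T₁ : ℂ → ℂ} (h₀ : Differentiable ℂ T₀) (h₁ : Differentiable ℂ T₁)
    {r : ℝ} (hr : 0 < r) (x : ℂ) :
    (∮ z in C(x, r), (T₀ z + conj z * T₁ z)) = 2 * π * Complex.I * (r : ℂ) ^ 2 * T₁ x := by
  have h1 : (∮ z in C(x, r), (T₀ z + conj z * T₁ z)) =
      ∮ z in C(x, r), ((T₀ z + conj x * T₁ z) + (z - x)⁻¹ • ((r : ℂ) ^ 2 * T₁ z)) := by
    refine circleIntegral.integral_congr hr.le fun z hz => ?_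
    rw [mem_sphere_iff_norm] at hz
    have h2 : z - x ≠ 0 := by
      intro h0
      rw [h0, norm_zero] at hz
      exact hr.ne hz
    have h3 : (z - x) * conj (z - x) = (r : ℂ) ^ 2 := by
      rw [Complex.mul_conj, Complex.normSq_eq_norm_sq, hz]
      push_cast
      ring
    have h4 : conj z = conj x + (z - x)⁻¹ * (r : ℂ) ^ 2 := by
      rw [← h3, ← mul_assoc, inv_mul_cancel₀ h2, one_mul, map_sub]
      ring
    show T₀ z + conj z * T₁ z = T₀ z + conj x * T₁ z + (z - x)⁻¹ * ((r : ℂ) ^ 2 * T₁ z)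
    rw [h4]
    ring
  have hd : Differentiable ℂ fun z => T₀ z + conj x * T₁ z := h₀.add (h₁.const_mul _)
  have hd' : Differentiable ℂ fun z => (r : ℂ) ^ 2 * T₁ z := h₁.const_mul _
  have h5 : (∮ z in C(x, r), (T₀ z + conj x * T₁ z)) = 0 :=
    Complex.circleIntegral_eq_zero_of_differentiable_on_off_countable hr.le Set.countable_empty
      hd.continuous.continuousOn fun z _ => hd z
  have h6 : (∮ z in C(x, r), (z - x)⁻¹ • ((r : ℂ) ^ 2 * T₁ z)) =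
      (2 * π * Complex.I : ℂ) • ((r : ℂ) ^ 2 * T₁ x) :=
    Complex.circleIntegral_sub_inv_smul_of_differentiable_on_off_countable Set.countable_empty
      (Metric.mem_ball_self hr) hd'.continuous.continuousOn fun z _ => hd' z
  rw [h1, circleIntegral.integral_add, h5, h6, zero_add, smul_eq_mul]
  · ring
  · exact hd.continuous.continuousOn.circleIntegrable hr.le
  · have h8 : ContinuousOn (fun z : ℂ => (z - x)⁻¹) (Metric.sphere x r) := by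
      refine ContinuousOn.inv₀ (by fun_prop) ?_
      intro z hz h0
      rw [mem_sphere_iff_norm, h0, norm_zero] at hz
      exact hr.ne hz
    exact (h8.smul hd'.continuous.continuousOn).circleIntegrable hr.le

private theorem Aone_est {G T₀ T₁ : ℂ → ℂ} (hG : Continuous G) (h₀ : Differentiable ℂ T₀)
    (h₁ : Differentiable ℂ T₁) {x₀ x : ℂ} {δ r E : ℝ} (hr : 0 < r) (hx : ‖x - x₀‖ + r ≤ δ)
    (h : ∀ z, ‖z - x₀‖ ≤ δ → ‖G z - (T₀ z + conj z * T₁ z)‖ ≤ E) :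
    ‖Aone_b G r x - T₁ x‖ ≤ E / r := by
  have hc : Continuous fun z => T₀ z + conj z * T₁ z :=
    h₀.continuous.add (Complex.continuous_conj.mul h₁.continuous)
  have hk : (2 * π * Complex.I * (r : ℂ) ^ 2 : ℂ) ≠ 0 := by
    refine mul_ne_zero (mul_ne_zero (mul_ne_zero two_ne_zero ?_) Complex.I_ne_zero)
      (pow_ne_zero _ ?_)
    · exact_mod_cast Real.pi_ne_zero
    · exact_mod_cast hr.ne'
  have h1 : Aone_b G r x - T₁ x = (2 * π * Complex.I * (r : ℂ) ^ 2)⁻¹ *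
      ∮ z in C(x, r), (G z - (T₀ z + conj z * T₁ z)) := by
    rw [circleIntegral.integral_sub (hG.continuousOn.circleIntegrable hr.le)
      (hc.continuousOn.circleIntegrable hr.le), Aone_pol h₀ h₁ hr, mul_sub, ← mul_assoc,
      inv_mul_cancel₀ hk, one_mul]
    rfl
  have h2 : ‖∮ z in C(x, r), (G z - (T₀ z + conj z * T₁ z))‖ ≤ 2 * π * r * E := by
    refine circleIntegral.norm_integral_le_of_norm_le_const hr.le fun z hz => h z ?_
    rw [mem_sphere_iff_norm] at hz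
    calc ‖z - x₀‖ = ‖(z - x) + (x - x₀)‖ := by
          congr 1
          ring
      _ ≤ ‖z - x‖ + ‖x - x₀‖ := norm_add_le _ _
      _ ≤ δ := by linarith
  have h3 : ‖(2 * π * Complex.I * (r : ℂ) ^ 2 : ℂ)⁻¹‖ = (2 * π * r ^ 2)⁻¹ := by
    rw [norm_inv, norm_mul, norm_mul, norm_mul, norm_pow, Complex.norm_I, Complex.norm_real,
      Complex.norm_real, Complex.norm_two, Real.norm_eq_abs, Real.norm_eq_abs,
      abs_of_pos Real.pi_pos, abs_of_pos hr, mul_one]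
  rw [h1, norm_mul, h3]
  calc (2 * π * r ^ 2)⁻¹ * ‖∮ z in C(x, r), (G z - (T₀ z + conj z * T₁ z))‖
      ≤ (2 * π * r ^ 2)⁻¹ * (2 * π * r * E) := by
        have := Real.pi_pos
        exact mul_le_mul_of_nonneg_left h2 (by positivity)
    _ = E / r := by
        have := Real.pi_ne_zero
        field_simp

theorem p_Aone (hhol : A_hol) : A_one := by
  intro G C h
  have hC : 0 ≤ C := by
    obtain ⟨T₀, T₁, _, _, h1⟩ := h 0 (1 / 2) (by norm_num) le_rfl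
    have h2 := (sq_nonneg _).trans (h1 0 (by norm_num))
    by_contra hn
    have h3 : C * (1 / 2) ^ 5 < 0 := mul_neg_of_neg_of_pos (not_le.1 hn) (by norm_num)
    linarith
  set c := Real.sqrt C with hc
  have hc0 : 0 ≤ c := Real.sqrt_nonneg _
  have hcC : C = c ^ 2 := (Real.sq_sqrt hC).symm
  -- powers of `1/2`
  let q : ℝ := Real.sqrt (1 / 2)
  have hq0 : 0 < q := Real.sqrt_pos.2 (by norm_num)
  have hq2 : q ^ 2 = 1 / 2 := Real.sq_sqrt (by norm_num)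
  have hq1 : q < 1 := by nlinarith
  -- the approximations
  have happ : ∀ (x₀ : ℂ) (k : ℕ), 1 ≤ k → ∃ T₀ T₁ : ℂ → ℂ, Differentiable ℂ T₀ ∧
      Differentiable ℂ T₁ ∧ ∀ z, ‖z - x₀‖ ≤ (1 / 2) ^ k →
      ‖G z - (T₀ z + conj z * T₁ z)‖ ≤ c * q ^ (5 * k) := by
    intro x₀ k hk
    have h1 : ((1 : ℝ) / 2) ^ k ≤ 1 / 2 := by
      calc ((1 : ℝ) / 2) ^ k ≤ (1 / 2) ^ 1 :=
            pow_le_pow_of_le_one (by norm_num) (by norm_num) hk
        _ = 1 / 2 := pow_one _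
    obtain ⟨T₀, T₁, hT₀, hT₁, h2⟩ := h x₀ ((1 / 2) ^ k) (by positivity) h1
    refine ⟨T₀, T₁, hT₀, hT₁, fun z hz => ?_⟩
    have h3 := h2 z hz
    have h4 : C * ((1 / 2) ^ k) ^ 5 = (c * q ^ (5 * k)) ^ 2 := by
      rw [hcC, mul_pow, ← hq2]
      ring
    rw [h4] at h3
    exact (abs_le_of_sq_le_sq' h3 (by positivity)).2
  -- continuity
  have hcont : Continuous G := by
    rw [continuous_iff_continuousAt]
    intro x₀
    rw [Metric.continuousAt_iff]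
    intro ε hε
    obtain ⟨k, hk1, hk⟩ : ∃ k : ℕ, 1 ≤ k ∧ c * q ^ (5 * k) < ε / 4 := by
      obtain ⟨k, hk⟩ := exists_pow_lt_of_lt_one (show 0 < ε / 4 / (c + 1) by positivity) hq1
      refine ⟨k + 1, by omega, ?_⟩
      have h1 : q ^ (5 * (k + 1)) ≤ q ^ k := pow_le_pow_of_le_one hq0.le hq1.le (by omega)
      rw [lt_div_iff₀ (by positivity)] at hk
      have h2 : 0 ≤ q ^ k := by positivity
      nlinarith
    obtain ⟨T₀, T₁, hT₀, hT₁, h1⟩ := happ x₀ k hk1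
    have hT : Continuous fun z => T₀ z + conj z * T₁ z :=
      hT₀.continuous.add (Complex.continuous_conj.mul hT₁.continuous)
    have h2 := hT.continuousAt (x := x₀)
    rw [Metric.continuousAt_iff] at h2
    obtain ⟨η, hη0, hη⟩ := h2 (ε / 4) (by positivity)
    refine ⟨min η ((1 / 2) ^ k), lt_min hη0 (by positivity), fun x hx => ?_⟩
    have h3 := hη (hx.trans_le (min_le_left _ _))
    rw [dist_eq_norm] at h3 hx ⊢
    have h4 := h1 x (hx.trans_le (min_le_right _ _)).le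
    have h5 := h1 x₀ (by rw [sub_self, norm_zero]; positivity)
    calc ‖G x - G x₀‖ = ‖(G x - (T₀ x + conj x * T₁ x)) - (G x₀ - (T₀ x₀ + conj x₀ * T₁ x₀)) +
          ((T₀ x + conj x * T₁ x) - (T₀ x₀ + conj x₀ * T₁ x₀))‖ := by
            congr 1
            ring
      _ ≤ ‖(G x - (T₀ x + conj x * T₁ x)) - (G x₀ - (T₀ x₀ + conj x₀ * T₁ x₀))‖ +
          ‖(T₀ x + conj x * T₁ x) - (T₀ x₀ + conj x₀ * T₁ x₀)‖ := norm_add_le _ _
      _ ≤ ‖G x - (T₀ x + conj x * T₁ x)‖ + ‖G x₀ - (T₀ x₀ + conj x₀ * T₁ x₀)‖ +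
          ‖(T₀ x + conj x * T₁ x) - (T₀ x₀ + conj x₀ * T₁ x₀)‖ :=
            add_le_add_left (norm_sub_le _ _) _
      _ < ε := by linarith
  -- the averages
  let b : ℕ → ℂ → ℂ := fun k x => Aone_b G ((1 / 2) ^ (k + 1)) x
  have hqk : ∀ k : ℕ, q ^ (5 * k) = q ^ (3 * k) * (1 / 2) ^ k := by
    intro k
    rw [← hq2]
    ring
  have hb1 : ∀ (x₀ x : ℂ) (k : ℕ) (T₀ T₁ : ℂ → ℂ), Differentiable ℂ T₀ → Differentiable ℂ T₁ →
      (∀ z, ‖z - x₀‖ ≤ (1 / 2) ^ k → ‖G z - (T₀ z + conj z * T₁ z)‖ ≤ c * q ^ (5 * k)) →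
      ‖x - x₀‖ ≤ (1 / 2) ^ (k + 1) → ‖b k x - T₁ x‖ ≤ 2 * (c * q ^ (3 * k)) := by
    intro x₀ x k T₀ T₁ hT₀ hT₁ h1 hx
    have h2 := Aone_est (x := x) (r := (1 / 2) ^ (k + 1)) hcont hT₀ hT₁ (by positivity)
      (show ‖x - x₀‖ + (1 / 2) ^ (k + 1) ≤ (1 / 2) ^ k by
        rw [pow_succ] at hx ⊢
        linarith) h1
    refine h2.trans_eq ?_
    rw [hqk]
    field_simp
    rw [pow_succ]
    ring
  have hb2 : ∀ (x : ℂ) (k : ℕ), 1 ≤ k → ‖b k x - b (k + 1) x‖ ≤ 6 * (c * q ^ (3 * k)) := by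
    intro x k hk
    obtain ⟨T₀, T₁, hT₀, hT₁, h1⟩ := happ x k hk
    have h2 := hb1 x x k T₀ T₁ hT₀ hT₁ h1 (by rw [sub_self, norm_zero]; positivity)
    have h3 := Aone_est (x := x) (r := (1 / 2) ^ (k + 1 + 1)) hcont hT₀ hT₁ (by positivity)
      (show ‖x - x‖ + (1 / 2) ^ (k + 1 + 1) ≤ (1 / 2) ^ k by
        rw [sub_self, norm_zero, zero_add]
        exact pow_le_pow_of_le_one (by norm_num) (by norm_num) (by omega)) h1
    have h4 : c * q ^ (5 * k) / (1 / 2) ^ (k + 1 + 1) = 4 * (c * q ^ (3 * k)) := by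
      rw [hqk]
      field_simp
      rw [pow_succ, pow_succ]
      ring
    rw [h4] at h3
    calc ‖b k x - b (k + 1) x‖ = ‖(b k x - T₁ x) - (b (k + 1) x - T₁ x)‖ := by
          congr 1
          ring
      _ ≤ ‖b k x - T₁ x‖ + ‖b (k + 1) x - T₁ x‖ := norm_sub_le _ _
      _ ≤ 6 * (c * q ^ (3 * k)) := by
          have h5 : ‖b (k + 1) x - T₁ x‖ ≤ 4 * (c * q ^ (3 * k)) := h3
          linarith
  -- the limit
  have hlim : ∀ x : ℂ, ∃ y : ℂ, ∀ k : ℕ, 1 ≤ k → ‖b k x - y‖ ≤ 12 * (c * q ^ (3 * k)) := by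
    intro x
    have hgeo : ∀ k : ℕ, 1 ≤ k → ∀ j : ℕ, dist (b (k + j) x) (b (k + (j + 1)) x) ≤
        6 * (c * q ^ (3 * k)) * (1 / 2) ^ j := by
      intro k hk j
      rw [dist_eq_norm]
      refine (hb2 x (k + j) (by omega)).trans ?_
      have h1 : q ^ (3 * (k + j)) ≤ q ^ (3 * k) * (1 / 2) ^ j := by
        have h2 : q ^ (3 * (k + j)) = q ^ (3 * k) * (q ^ (2 * j) * q ^ j) := by ring
        rw [h2, pow_mul q 2 j, hq2]
        have h3 : q ^ j ≤ 1 := pow_le_one₀ hq0.le hq1.le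
        have h4 : (0 : ℝ) ≤ (1 / 2) ^ j := by positivity
        have h5 : 0 ≤ q ^ (3 * k) := by positivity
        calc q ^ (3 * k) * ((1 / 2) ^ j * q ^ j) ≤ q ^ (3 * k) * ((1 / 2) ^ j * 1) := by gcongr
          _ = q ^ (3 * k) * (1 / 2) ^ j := by rw [mul_one]
      calc 6 * (c * q ^ (3 * (k + j))) ≤ 6 * (c * (q ^ (3 * k) * (1 / 2) ^ j)) := by gcongr
        _ = _ := by ring
    have hcau : CauchySeq fun j => b (1 + j) x :=
      cauchySeq_of_le_geometric (1 / 2) (6 * (c * q ^ (3 * 1))) (by norm_num) (hgeo 1 le_rfl)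
    obtain ⟨y, hy⟩ := cauchySeq_tendsto_of_complete hcau
    refine ⟨y, fun k hk => ?_⟩
    have hy' : Filter.Tendsto (fun j => b (k + j) x) Filter.atTop (𝓝 y) := by
      have h1 := hy.comp (Filter.tendsto_add_atTop_nat (k - 1))
      refine h1.congr fun j => ?_
      show b (1 + (j + (k - 1))) x = b (k + j) x
      congr 1
      omega
    have h1 := dist_le_of_le_geometric_of_tendsto₀ (1 / 2) (6 * (c * q ^ (3 * k))) (by norm_num)
      (hgeo k hk) hy'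
    rw [dist_eq_norm, add_zero] at h1
    refine h1.trans_eq ?_
    ring
  choose G₁ hG₁ using hlim
  -- `G₁` and the approximations
  have hG₁T : ∀ (x₀ x : ℂ) (k : ℕ), 1 ≤ k → ∀ (T₀ T₁ : ℂ → ℂ), Differentiable ℂ T₀ →
      Differentiable ℂ T₁ →
      (∀ z, ‖z - x₀‖ ≤ (1 / 2) ^ k → ‖G z - (T₀ z + conj z * T₁ z)‖ ≤ c * q ^ (5 * k)) →
      ‖x - x₀‖ ≤ (1 / 2) ^ (k + 1) → ‖G₁ x - T₁ x‖ ≤ 14 * (c * q ^ (3 * k)) := by
    intro x₀ x k hk T₀ T₁ hT₀ hT₁ h1 hx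
    have h2 := hb1 x₀ x k T₀ T₁ hT₀ hT₁ h1 hx
    have h3 := hG₁ x k hk
    calc ‖G₁ x - T₁ x‖ = ‖(b k x - T₁ x) - (b k x - G₁ x)‖ := by
          congr 1
          ring
      _ ≤ ‖b k x - T₁ x‖ + ‖b k x - G₁ x‖ := norm_sub_le _ _
      _ ≤ 14 * (c * q ^ (3 * k)) := by linarith
  -- the choice of `k`
  have hk : ∀ δ : ℝ, 0 < δ → δ ≤ 1 / 4 → ∃ k : ℕ, 1 ≤ k ∧ δ ≤ (1 / 2) ^ (k + 1) ∧
      (q ^ (3 * k)) ^ 2 ≤ 64 * δ ^ 3 := by
    intro δ hδ0 hδ1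
    obtain ⟨n, h1, h2⟩ := exists_nat_pow_near_of_lt_one (show 0 < 4 * δ by positivity)
      (by linarith) (show (0 : ℝ) < 1 / 2 by norm_num) (by norm_num)
    refine ⟨n + 1, by omega, ?_, ?_⟩
    · rw [pow_succ, pow_succ]
      linarith
    · have h3 : (q ^ (3 * (n + 1))) ^ 2 = ((1 / 2) ^ (n + 1)) ^ 3 := by
        rw [← hq2]
        ring
      rw [h3]
      calc ((1 / 2 : ℝ) ^ (n + 1)) ^ 3 ≤ (4 * δ) ^ 3 := by gcongr
        _ = 64 * δ ^ 3 := by ring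
  have hd₁ : Differentiable ℂ G₁ := by
    refine hhol G₁ (14 ^ 2 * c ^ 2 * 64) fun x₀ δ hδ0 hδ1 => ?_
    obtain ⟨k, hk1, hk2, hk3⟩ := hk δ hδ0 hδ1
    obtain ⟨T₀, T₁, hT₀, hT₁, h1⟩ := happ x₀ k hk1
    refine ⟨T₁, hT₁, fun x hx => ?_⟩
    have h2 := hG₁T x₀ x k hk1 T₀ T₁ hT₀ hT₁ h1 (hx.trans hk2)
    calc ‖G₁ x - T₁ x‖ ^ 2 ≤ (14 * (c * q ^ (3 * k))) ^ 2 := by gcongr
      _ = 14 ^ 2 * c ^ 2 * (q ^ (3 * k)) ^ 2 := by ring
      _ ≤ 14 ^ 2 * c ^ 2 * (64 * δ ^ 3) := by gcongr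
      _ = 14 ^ 2 * c ^ 2 * 64 * δ ^ 3 := by ring
  have hd₀ : Differentiable ℂ fun x => G x - conj x * G₁ x := by
    refine hhol _ (15 ^ 2 * c ^ 2 * 64) fun x₀ δ hδ0 hδ1 => ?_
    obtain ⟨k, hk1, hk2, hk3⟩ := hk δ hδ0 hδ1
    obtain ⟨T₀, T₁, hT₀, hT₁, h1⟩ := happ x₀ k hk1
    refine ⟨fun x => T₀ x + conj x₀ * (T₁ x - G₁ x), hT₀.add ((hT₁.sub hd₁).const_mul _),
      fun x hx => ?_⟩
    have h2 := hG₁T x₀ x k hk1 T₀ T₁ hT₀ hT₁ h1 (hx.trans hk2)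
    have h3 : ‖G x - (T₀ x + conj x * T₁ x)‖ ≤ c * q ^ (3 * k) := by
      refine (h1 x (hx.trans (hk2.trans (pow_le_pow_of_le_one (by norm_num) (by norm_num)
        (by omega))))).trans ?_
      rw [hqk]
      have h4 : ((1 : ℝ) / 2) ^ k ≤ 1 := pow_le_one₀ (by norm_num) (by norm_num)
      calc c * (q ^ (3 * k) * (1 / 2) ^ k) ≤ c * (q ^ (3 * k) * 1) := by gcongr
        _ = c * q ^ (3 * k) := by rw [mul_one]
    have h4 : ‖conj (x - x₀) * (G₁ x - T₁ x)‖ ≤ 1 * (14 * (c * q ^ (3 * k))) := by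
      rw [norm_mul, RCLike.norm_conj]
      gcongr
      linarith
    have h5 : ‖G x - conj x * G₁ x - (T₀ x + conj x₀ * (T₁ x - G₁ x))‖ ≤
        15 * (c * q ^ (3 * k)) := by
      calc ‖G x - conj x * G₁ x - (T₀ x + conj x₀ * (T₁ x - G₁ x))‖
          = ‖(G x - (T₀ x + conj x * T₁ x)) - conj (x - x₀) * (G₁ x - T₁ x)‖ := by
            congr 1
            rw [map_sub]
            ring
        _ ≤ ‖G x - (T₀ x + conj x * T₁ x)‖ + ‖conj (x - x₀) * (G₁ x - T₁ x)‖ := norm_sub_le _ _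
        _ ≤ 15 * (c * q ^ (3 * k)) := by linarith
    calc ‖G x - conj x * G₁ x - (T₀ x + conj x₀ * (T₁ x - G₁ x))‖ ^ 2
        ≤ (15 * (c * q ^ (3 * k))) ^ 2 := by gcongr
      _ = 15 ^ 2 * c ^ 2 * (q ^ (3 * k)) ^ 2 := by ring
      _ ≤ 15 ^ 2 * c ^ 2 * (64 * δ ^ 3) := by gcongr
      _ = 15 ^ 2 * c ^ 2 * 64 * δ ^ 3 := by ring
  exact ⟨fun x => G x - conj x * G₁ x, G₁, hd₀, hd₁, fun x => (sub_add_cancel _ _).symm⟩

end Pool.Agent.F8.NL
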