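import Pool.Agent.Lib.MP_305fdd_al.F8.NL.StmC

/-!
# MP_305fdd_al, all lattices (project NL): local constancy of crossed homomorphisms modulo `r`
-/

set_option autoImplicit false

namespace Pool.Agent.F8.NL

open Pool.Agent.F8.CG Pool.Agent.F8.BG Pool.Agent.MP_305fdd_al Pool.Agent.Lib.MP_305fdd_al
  Pool.Agent.F8
open scoped QuadraticAlgebra ComplexConjugate Kronecker

noncomputable section

/-- the ring modulo a nonzero element is finite -/
private theorem Cloc_fin (a b : ℤ) (hn : b ^ 2 + 4 * a < 0) (r : Qf a b ℤ) (hr : r ≠ 0) :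
    Finite (Qf a b ℤ ⧸ Ideal.span {r}) := by
  have h0 : nq r ≠ 0 := fun h => hr (nq_eq_zero hn h)
  have hdvd : ∀ z w : ℤ, nq r ∣ z → nq r ∣ w → r ∣ (⟨z, w⟩ : Qf a b ℤ) := by
    rintro z w ⟨z', rfl⟩ ⟨w', rfl⟩
    refine ⟨cjq a b ℤ r * ⟨z', w'⟩, ?_⟩
    rw [← mul_assoc, mul_cjq]
    apply QuadraticAlgebra.ext
    · simp
    · simp
  have hm0 : (nq r).natAbs ≠ 0 := Int.natAbs_ne_zero.mpr h0
  obtain ⟨m, hm⟩ : ∃ m, m = (nq r).natAbs := ⟨_, rfl⟩
  have : NeZero m := ⟨by rw [hm]; exact hm0⟩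
  have hmd : ∀ z : ℤ, (z : ZMod m) = 0 → nq r ∣ z := by
    intro z hz
    rw [ZMod.intCast_zmod_eq_zero_iff_dvd, hm] at hz
    exact Int.natAbs_dvd.mp hz
  let f : ZMod m × ZMod m → Qf a b ℤ ⧸ Ideal.span {r} := fun x =>
    Ideal.Quotient.mk _ (⟨(x.1.cast : ℤ), (x.2.cast : ℤ)⟩ : Qf a b ℤ)
  apply Finite.of_surjective f
  intro q
  obtain ⟨z, rfl⟩ := Ideal.Quotient.mk_surjective q
  refine ⟨((z.re : ZMod m), (z.im : ZMod m)), ?_⟩
  show Ideal.Quotient.mk (Ideal.span {r})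
    (⟨((z.re : ZMod m).cast : ℤ), ((z.im : ZMod m).cast : ℤ)⟩ : Qf a b ℤ) =
      Ideal.Quotient.mk (Ideal.span {r}) z
  rw [Ideal.Quotient.eq, Ideal.mem_span_singleton]
  have h1 := hdvd (((z.re : ZMod m).cast : ℤ) - z.re) (((z.im : ZMod m).cast : ℤ) - z.im)
    (hmd _ (by rw [Int.cast_sub, ZMod.intCast_zmod_cast, sub_self]))
    (hmd _ (by rw [Int.cast_sub, ZMod.intCast_zmod_cast, sub_self]))
  have h2 : (⟨((z.re : ZMod m).cast : ℤ), ((z.im : ZMod m).cast : ℤ)⟩ : Qf a b ℤ) - z =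
      ⟨((z.re : ZMod m).cast : ℤ) - z.re, ((z.im : ZMod m).cast : ℤ) - z.im⟩ := by
    apply QuadraticAlgebra.ext
    · rfl
    · rfl
  rw [h2]
  exact h1

theorem p_Cloc : C_loc := by
  intro a b hn κ _ _ τ W hW r hr c X₀ hX₀ hc hc1 y hy
  have hQ : Finite (Qf a b ℤ ⧸ Ideal.span {r}) := Cloc_fin a b hn r hr
  obtain ⟨mk, hmk⟩ : ∃ mk : Qf a b ℤ →+* Qf a b ℤ ⧸ Ideal.span {r},
    mk = Ideal.Quotient.mk (Ideal.span {r}) := ⟨_, rfl⟩
  have hz : ∀ z, mk z = 0 ↔ r ∣ z := by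
    intro z
    rw [hmk, Ideal.Quotient.eq_zero_iff_mem, Ideal.mem_span_singleton]
  let T : GQ a b →* Matrix κ κ (Qf a b ℤ ⧸ Ideal.span {r}) :=
    (RingHom.mapMatrix mk).toMonoidHom.comp τ
  have hfk : Finite (Matrix κ κ (Qf a b ℤ ⧸ Ideal.span {r})) := by
    show Finite (κ → κ → _)
    infer_instance
  have hfu : Finite (Matrix κ κ (Qf a b ℤ ⧸ Ideal.span {r}))ˣ := inferInstance
  let U : GQ a b →* (Matrix κ κ (Qf a b ℤ ⧸ Ideal.span {r}))ˣ := T.toHomUnits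
  have hUk : U.ker.FiniteIndex := inferInstance
  obtain ⟨N₁, hN₁⟩ : ∃ N₁ : Subgroup (GQ a b), N₁ = X₀.N ⊓ U.ker := ⟨_, rfl⟩
  have hN₁f : N₁.FiniteIndex := by rw [hN₁]; infer_instance
  have hN₁T : ∀ n ∈ N₁, T n = 1 := by
    intro n hnn
    rw [hN₁] at hnn
    have h1 : U n = 1 := hnn.2
    have h2 := congrArg Units.val h1
    exact h2
  have hN₁X : ∀ n ∈ N₁, n ∈ X₀.N := by
    intro n hnn
    rw [hN₁] at hnn
    exact hnn.1
  -- the cocycle property modulo r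
  have hyk : ∀ g ∈ W, ∀ h ∈ W, ∀ i, mk (y (g * h) i) =
      mk (y g i) + mk ((τ g).mulVec (y h) i) + mk (c g h i) := by
    intro g hg h hh i
    have h1 := (hz _).mpr (hy g hg h hh i)
    simp only [Pi.sub_apply, map_sub] at h1
    linear_combination h1
  have hmv : ∀ (g : GQ a b) (v : κ → Qf a b ℤ) (i : κ), mk ((τ g).mulVec v i) =
      (T g).mulVec (fun j => mk (v j)) i := by
    intro g v i
    exact RingHom.map_mulVec mk (τ g) v i
  have hcc : ∀ g ∈ W, ∀ n ∈ X₀.N, ∀ i, mk (c g n i) = 0 := by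
    intro g hg n hnn i
    have h1 := (hz _).mpr (hc g hg 1 W.one_mem 1 X₀.N.one_mem n hnn i)
    have h2 := (hz _).mpr (hc1 g hg i)
    rw [map_sub, mul_one, one_mul] at h1
    rw [← h2]
    linear_combination h1
  have hmul : ∀ n ∈ N₁, ∀ n' ∈ N₁, ∀ i, mk (y (n * n') i) = mk (y n i) + mk (y n' i) := by
    intro n h1 n' h2 i
    rw [hyk n (hX₀ (hN₁X n h1)) n' (hX₀ (hN₁X n' h2)) i,
      hcc n (hX₀ (hN₁X n h1)) n' (hN₁X n' h2) i, hmv, hN₁T n h1, Matrix.one_mulVec, add_zero]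
  let φ : N₁ →* Multiplicative (κ → Qf a b ℤ ⧸ Ideal.span {r}) := MonoidHom.mk'
    (fun n => Multiplicative.ofAdd (fun i => mk (y n.1 i))) (by
      intro n n'
      rw [← ofAdd_add]
      congr 1
      funext i
      exact hmul n.1 n.2 n'.1 n'.2 i)
  have hφf : Finite (Multiplicative (κ → Qf a b ℤ ⧸ Ideal.span {r})) := by
    show Finite (κ → Qf a b ℤ ⧸ Ideal.span {r})
    infer_instance
  have hφk : φ.ker.FiniteIndex := inferInstance
  let K : Subgroup (GQ a b) := φ.ker.map N₁.subtype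
  have hKf : K.FiniteIndex := by
    refine ⟨?_⟩
    show (φ.ker.map N₁.subtype).index ≠ 0
    rw [Subgroup.index_map_subtype]
    exact mul_ne_zero hφk.index_ne_zero hN₁f.index_ne_zero
  refine ⟨⟨K.normalCore, inferInstance, inferInstance⟩, ?_, ?_⟩
  · intro n hnn
    have h1 : n ∈ K := K.normalCore_le hnn
    obtain ⟨n', h2, rfl⟩ := h1
    exact hN₁X _ n'.2
  · intro g hg n hnn i
    have h1 : n ∈ K := K.normalCore_le hnn
    obtain ⟨n', h2, rfl⟩ := h1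
    have h3 : φ n' = 1 := h2
    have h4 : ∀ j, mk (y n'.1 j) = 0 := fun j => congrFun (Multiplicative.ofAdd.injective h3) j
    rw [← hz, map_sub]
    show mk (y (g * n'.1) i) - mk (y g i) = 0
    rw [hyk g hg n'.1 (hX₀ (hN₁X _ n'.2)) i, hcc g hg n'.1 (hN₁X _ n'.2) i, hmv]
    have h5 : (fun j => mk (y n'.1 j)) = 0 := funext h4
    rw [h5, Matrix.mulVec_zero, Pi.zero_apply]
    ring

end

end Pool.Agent.F8.NL
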