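import Pool.Agent.Lib.MP_305fdd_al.F8.NL.StmE

/-!
# [NL E grn] Green's formula
-/

set_option autoImplicit false

namespace Pool.Agent.F8.NL

open Pool.Agent.F8.CG
open scoped QuadraticAlgebra ComplexConjugate Interval

theorem p_Egrn (hd : E_dif) : E_grn := by
  intro m e hm he A B
  obtain ⟨S', h1, h2, h3⟩ := hd m e hm he
  have hc : Continuous (Sx m e) := continuous_iff_continuousAt.2 fun x => (h1 x).continuousAt
  have hi : Continuous fun z : ℂ => Complex.I • S' z 1 - S' z Complex.I := by
    have h4 : (fun z : ℂ => Complex.I • S' z 1 - S' z Complex.I) =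
        fun z => -2 * Complex.I * Jd m e z := by
      funext z
      rw [smul_eq_mul]
      exact h2 z
    rw [h4]
    exact continuous_const.mul h3
  have hK : IsCompact ([[(0 : ℂ).re, (A + B * Complex.I : ℂ).re]] ×ℂ
      [[(0 : ℂ).im, (A + B * Complex.I : ℂ).im]]) :=
    IsCompact.reProdIm isCompact_uIcc isCompact_uIcc
  have h5 := Complex.integral_boundary_rect_of_hasFDerivAt_real_off_countable (Sx m e) S' 0
    (A + B * Complex.I) ∅ Set.countable_empty hc.continuousOn (fun x _ => h1 x)
    (hi.continuousOn.integrableOn_compact hK)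
  have hre : (A + B * Complex.I : ℂ).re = A := by simp
  have him : (A + B * Complex.I : ℂ).im = B := by simp
  rw [hre, him] at h5
  simp only [Complex.zero_re, Complex.zero_im, Complex.ofReal_zero, zero_mul, add_zero, zero_add,
    smul_eq_mul] at h5
  rw [h5]
  simp only [h2]
  simp only [intervalIntegral.integral_const_mul]

end Pool.Agent.F8.NL
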