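import Pool.Agent.Lib.MP_305fdd_al.F8.NL.StmH
import Pool.Agent.Lib.MP_305fdd_al.F8.CG.P_Uext

/-!
# MP_305fdd_al, all lattices (project NL): the dimension of the cokernel of the Fox map
-/

set_option autoImplicit false

namespace Pool.Agent.F8.NL

open Pool.Agent.F8.CG Pool.Agent.F8.BG Pool.Agent.MP_305fdd_al Pool.Agent.Lib.MP_305fdd_al
  Pool.Agent.F8
open scoped QuadraticAlgebra ComplexConjugate Kronecker

noncomputable section

/-! ### extensions -/

/-- an extension with the 2-cocycle `c` -/
private structure HdmX {G K V E : Type} [Group G] [Group E] [CommRing K] [AddCommGroup V]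
    [Module K V] (σ : G →* Module.End K V) (c : G → G → V) (pr : E →* G)
    (j : Multiplicative V →* E) (s : G → E) : Prop where
  inj : Function.Injective j
  ker : ∀ u, pr u = 1 ↔ ∃ v, j v = u
  sec : ∀ x, pr (s x) = x
  mul : ∀ x y, s x * s y = j (Multiplicative.ofAdd (c x y)) * s (x * y)
  cnj : ∀ u v, u * j (Multiplicative.ofAdd v) * u⁻¹ = j (Multiplicative.ofAdd (σ (pr u) v))

/-- twisted crossed homomorphisms -/
private def HdmT {G H K V : Type} [Group G] [Group H] [CommRing K] [AddCommGroup V]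
    [Module K V] (σ : G →* Module.End K V) (c : G → G → V) (ρ : H →* G) (f : H → V) : Prop :=
  ∀ g h, f (g * h) = f g + σ (ρ g) (f h) + c (ρ g) (ρ h)

section ext

variable {G H K V E : Type} [Group G] [Group H] [Group E] [CommRing K] [AddCommGroup V]
  [Module K V] {σ : G →* Module.End K V} {c : G → G → V} {pr : E →* G}
  {j : Multiplicative V →* E} {s : G → E}

private theorem Hdm_prod (h : HdmX σ c pr j s) (a b : V) (x y : G) :
    (j (Multiplicative.ofAdd a) * s x) * (j (Multiplicative.ofAdd b) * s y) =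
      j (Multiplicative.ofAdd (a + σ x b + c x y)) * s (x * y) := by
  have h1 : s x * j (Multiplicative.ofAdd b) = j (Multiplicative.ofAdd (σ x b)) * s x := by
    have h2 := h.cnj (s x) b
    rw [h.sec] at h2
    rw [← h2]
    group
  calc (j (Multiplicative.ofAdd a) * s x) * (j (Multiplicative.ofAdd b) * s y)
      = j (Multiplicative.ofAdd a) * (s x * j (Multiplicative.ofAdd b)) * s y := by group
    _ = j (Multiplicative.ofAdd a) * (j (Multiplicative.ofAdd (σ x b)) * s x) * s y := by rw [h1]
    _ = j (Multiplicative.ofAdd a) * j (Multiplicative.ofAdd (σ x b)) * (s x * s y) := by group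
    _ = j (Multiplicative.ofAdd a) * j (Multiplicative.ofAdd (σ x b)) *
          (j (Multiplicative.ofAdd (c x y)) * s (x * y)) := by rw [h.mul]
    _ = _ := by
        rw [← mul_assoc, ← map_mul, ← map_mul, ← ofAdd_add, ← ofAdd_add]

private theorem Hdm_inj (h : HdmX σ c pr j s) {a b : V} {x : G}
    (hab : j (Multiplicative.ofAdd a) * s x = j (Multiplicative.ofAdd b) * s x) : a = b := by
  have h1 := h.inj (mul_right_cancel hab)
  exact Multiplicative.ofAdd.injective h1

private def Hdm_hom (h : HdmX σ c pr j s) (ρ : H →* G) (f : H → V) (hf : HdmT σ c ρ f) : H →* E :=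
  MonoidHom.mk' (fun g => j (Multiplicative.ofAdd (f g)) * s (ρ g)) (by
    intro g g'
    rw [Hdm_prod h, hf, map_mul])

private theorem Hdm_dec (h : HdmX σ c pr j s) (ρ : H →* G) (Φ : H →* E)
    (hΦ : ∀ g, pr (Φ g) = ρ g) :
    ∃ f : H → V, (∀ g, Φ g = j (Multiplicative.ofAdd (f g)) * s (ρ g)) ∧ HdmT σ c ρ f := by
  have h1 : ∀ g, ∃ a : V, Φ g = j (Multiplicative.ofAdd a) * s (ρ g) := by
    intro g
    have h2 : pr (Φ g * (s (ρ g))⁻¹) = 1 := by
      rw [map_mul, map_inv, hΦ, h.sec, mul_inv_cancel]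
    obtain ⟨a, ha⟩ := (h.ker _).1 h2
    refine ⟨Multiplicative.toAdd a, ?_⟩
    rw [ofAdd_toAdd, ha]
    group
  choose f hf using h1
  refine ⟨f, hf, ?_⟩
  intro g g'
  have h2 := map_mul Φ g g'
  rw [hf, hf g, hf g', Hdm_prod h, map_mul] at h2
  exact Hdm_inj h h2

end ext

section free

variable {G K V E : Type} [Group G] [Group E] [CommRing K] [AddCommGroup V]
  [Module K V] {σ : G →* Module.End K V} {c : G → G → V} {pr : E →* G}
  {j : Multiplicative V →* E} {s : G → E}

private theorem Hdm_pr (h : HdmX σ c pr j s) (a : V) (x : G) :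
    pr (j (Multiplicative.ofAdd a) * s x) = x := by
  rw [map_mul, h.sec, (h.ker _).2 ⟨_, rfl⟩, one_mul]

private theorem Hdm_free_ex (h : HdmX σ c pr j s) {ι : Type} (ρ : FreeGroup ι →* G) (v : ι → V) :
    ∃ f : FreeGroup ι → V, HdmT σ c ρ f ∧ ∀ i, f (FreeGroup.of i) = v i := by
  let Φ : FreeGroup ι →* E :=
    FreeGroup.lift fun i => j (Multiplicative.ofAdd (v i)) * s (ρ (FreeGroup.of i))
  have hΦ : ∀ g, pr (Φ g) = ρ g := by
    have h1 : pr.comp Φ = ρ := by
      apply FreeGroup.ext_hom
      intro i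
      show pr (Φ (FreeGroup.of i)) = _
      rw [FreeGroup.lift_apply_of, Hdm_pr h]
    exact fun g => DFunLike.congr_fun h1 g
  obtain ⟨f, hf, hT⟩ := Hdm_dec h ρ Φ hΦ
  refine ⟨f, hT, fun i => ?_⟩
  have h1 := hf (FreeGroup.of i)
  rw [FreeGroup.lift_apply_of] at h1
  exact (Hdm_inj h h1).symm

private theorem Hdm_free_uniq (h : HdmX σ c pr j s) {ι : Type} (ρ : FreeGroup ι →* G)
    (f f' : FreeGroup ι → V) (hf : HdmT σ c ρ f) (hf' : HdmT σ c ρ f')
    (hi : ∀ i, f (FreeGroup.of i) = f' (FreeGroup.of i)) : f = f' := by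
  have h1 : Hdm_hom h ρ f hf = Hdm_hom h ρ f' hf' := by
    apply FreeGroup.ext_hom
    intro i
    show j (Multiplicative.ofAdd (f (FreeGroup.of i))) * s (ρ (FreeGroup.of i)) =
      j (Multiplicative.ofAdd (f' (FreeGroup.of i))) * s (ρ (FreeGroup.of i))
    rw [hi]
  funext g
  exact Hdm_inj h (DFunLike.congr_fun h1 g)

end free

section GRα

variable {ι K V E : Type} {α : MulAut (FreeGroup ι)} [Group E] [CommRing K] [AddCommGroup V]
  [Module K V] {σ : GR α →* Module.End K V} {c : GR α → GR α → V} {pr : E →* GR α}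
  {j : Multiplicative V →* E} {s : GR α → E}

private theorem Hdm_GR_uniq (h : HdmX σ c pr j s) (f f' : GR α → V)
    (hf : HdmT σ c (MonoidHom.id _) f) (hf' : HdmT σ c (MonoidHom.id _) f')
    (hi : ∀ i, f (iR α (FreeGroup.of i)) = f' (iR α (FreeGroup.of i)))
    (ht : f (tR α) = f' (tR α)) : f = f' := by
  have h1 : Hdm_hom h (MonoidHom.id _) f hf = Hdm_hom h (MonoidHom.id _) f' hf' := by
    apply homR_ext
    · intro i
      show j (Multiplicative.ofAdd (f (iR α (FreeGroup.of i)))) * s (iR α (FreeGroup.of i)) =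
        j (Multiplicative.ofAdd (f' (iR α (FreeGroup.of i)))) * s (iR α (FreeGroup.of i))
      rw [hi]
    · show j (Multiplicative.ofAdd (f (tR α))) * s (tR α) =
        j (Multiplicative.ofAdd (f' (tR α))) * s (tR α)
      rw [ht]
  funext g
  exact Hdm_inj h (DFunLike.congr_fun h1 g)

private theorem Hdm_GR_ex (h : HdmX σ c pr j s) (f : FreeGroup ι → V) (τ : V)
    (hf : HdmT σ c (iR α) f)
    (hrel : ∀ i, τ + σ (tR α) (f (FreeGroup.of i)) + c (tR α) (iR α (FreeGroup.of i)) =
      f (α (FreeGroup.of i)) + σ (iR α (α (FreeGroup.of i))) τ +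
        c (iR α (α (FreeGroup.of i))) (tR α)) :
    ∃ F : GR α → V, HdmT σ c (MonoidHom.id _) F ∧
      (∀ i, F (iR α (FreeGroup.of i)) = f (FreeGroup.of i)) ∧ F (tR α) = τ := by
  let X : ι → E := fun i => j (Multiplicative.ofAdd (f (FreeGroup.of i))) * s (iR α (FreeGroup.of i))
  let T : E := j (Multiplicative.ofAdd τ) * s (tR α)
  have hlift : ∀ g, FreeGroup.lift X g = j (Multiplicative.ofAdd (f g)) * s (iR α g) := by
    have h1 : FreeGroup.lift X = Hdm_hom h (iR α) f hf := by
      apply FreeGroup.ext_hom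
      intro i
      rw [FreeGroup.lift_apply_of]
      rfl
    intro g
    rw [h1]
    rfl
  have hr : ∀ i, T * X i * T⁻¹ = FreeGroup.lift X (α (FreeGroup.of i)) := by
    intro i
    rw [mul_inv_eq_iff_eq_mul, hlift]
    show (j (Multiplicative.ofAdd τ) * s (tR α)) *
      (j (Multiplicative.ofAdd (f (FreeGroup.of i))) * s (iR α (FreeGroup.of i))) =
      (j (Multiplicative.ofAdd (f (α (FreeGroup.of i)))) * s (iR α (α (FreeGroup.of i)))) *
        (j (Multiplicative.ofAdd τ) * s (tR α))
    rw [Hdm_prod h, Hdm_prod h, hrel, tR_mul]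
  let Φ : GR α →* E := liR X T hr
  have hΦi : ∀ i, Φ (iR α (FreeGroup.of i)) = X i := fun i => liR_of hr i
  have hΦt : Φ (tR α) = T := liR_tR hr
  have hΦ : ∀ g, pr (Φ g) = MonoidHom.id _ g := by
    have h1 : pr.comp Φ = MonoidHom.id _ := by
      apply homR_ext
      · intro i
        show pr (Φ (iR α (FreeGroup.of i))) = _
        rw [hΦi]
        exact Hdm_pr h _ _
      · show pr (Φ (tR α)) = _
        rw [hΦt]
        exact Hdm_pr h _ _
    exact fun g => DFunLike.congr_fun h1 g
  obtain ⟨F, hF, hT⟩ := Hdm_dec h (MonoidHom.id _) Φ hΦ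
  refine ⟨F, hT, fun i => ?_, ?_⟩
  · have h1 := hF (iR α (FreeGroup.of i))
    rw [hΦi] at h1
    exact (Hdm_inj h h1).symm
  · have h1 := hF (tR α)
    rw [hΦt] at h1
    exact (Hdm_inj h h1).symm

end GRα

/-! ### the count -/

/-- the crossed homomorphisms of the free group -/
private def HdmL {n : ℕ} {α : MulAut (FreeGroup (Fin n))} {K V : Type} [CommRing K]
    [AddCommGroup V] [Module K V] (σ : GR α →* Module.End K V) :
    Submodule K (FreeGroup (Fin n) → V) where
  carrier := {f | HdmT σ (fun _ _ => (0 : V)) (iR α) f}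
  add_mem' := by
    intro p q hp hq g h
    have h1 := hp g h
    have h2 := hq g h
    beta_reduce at h1 h2 ⊢
    simp only [Pi.add_apply, map_add]
    rw [h1, h2]
    abel
  zero_mem' := by
    intro g h
    simp
  smul_mem' := by
    intro a p hp g h
    have h1 := hp g h
    beta_reduce at h1 ⊢
    simp only [Pi.smul_apply, map_smul]
    rw [h1, smul_add, smul_add, smul_zero]

/-- the Fox map -/
private def HdmD {n : ℕ} {α : MulAut (FreeGroup (Fin n))} {K V : Type} [CommRing K]
    [AddCommGroup V] [Module K V] (σ : GR α →* Module.End K V) :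
    (HdmL σ × V) →ₗ[K] (Fin n → V) where
  toFun p i := p.1.1 (α (FreeGroup.of i)) - σ (tR α) (p.1.1 (FreeGroup.of i)) +
    σ (iR α (α (FreeGroup.of i))) p.2 - p.2
  map_add' p q := by
    funext i
    simp only [Prod.snd_add, Prod.fst_add, Submodule.coe_add, Pi.add_apply, map_add]
    abel
  map_smul' a p := by
    funext i
    simp only [Prod.smul_snd, Prod.smul_fst, Submodule.coe_smul, Pi.smul_apply, map_smul,
      RingHom.id_apply, smul_sub, smul_add]

private theorem Hdm_range {n : ℕ} {α : MulAut (FreeGroup (Fin n))} {K V : Type} [CommRing K]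
    [AddCommGroup V] [Module K V] (σ : GR α →* Module.End K V) :
    LinearMap.range (HdmD σ) = FxR α σ := by
  ext ρ
  constructor
  · rintro ⟨⟨⟨y, hy⟩, a₀⟩, rfl⟩
    refine ⟨y, a₀, fun g h => ?_, fun i => rfl⟩
    have h1 := hy g h
    beta_reduce at h1
    rw [h1, add_zero]
  · rintro ⟨y, a₀, hy, hρ⟩
    refine ⟨⟨⟨y, fun g h => ?_⟩, a₀⟩, ?_⟩
    · beta_reduce
      rw [hy, add_zero]
    · funext i
      exact (hρ i).symm

private theorem Hdm_main (n : ℕ) (α : MulAut (FreeGroup (Fin n))) (K V : Type) [Field K]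
    [AddCommGroup V] [Module K V] [FiniteDimensional K V] (σ : GR α →* Module.End K V) :
    Module.finrank K ((Fin n → V) ⧸ FxR α σ) + Module.finrank K V =
      Module.finrank K (ZE σ) := by
  obtain ⟨E, gE, pr, j, s, h1, h2, h3, h4, h5, -⟩ := p_Uext (GR α) K V σ
    (fun _ _ => (0 : V)) (by intro x y z; simp)
  have hE : HdmX σ (fun _ _ => (0 : V)) pr j s := ⟨h1, h2, h3, h4, h5⟩
  let R : HdmL σ →ₗ[K] (Fin n → V) :=
    { toFun := fun p i => p.1 (FreeGroup.of i)
      map_add' := fun p q => rfl
      map_smul' := fun a p => rfl }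
  have hRinj : Function.Injective R := by
    rintro ⟨f, hp⟩ ⟨f', hp'⟩ hpq
    have h2 : f = f' := Hdm_free_uniq hE (iR α) f f' hp hp' (fun i => congrFun hpq i)
    subst h2
    rfl
  have hRsurj : Function.Surjective R := by
    intro v
    obtain ⟨f, hf, hfi⟩ := Hdm_free_ex hE (iR α) v
    exact ⟨⟨f, hf⟩, funext hfi⟩
  let eR : HdmL σ ≃ₗ[K] (Fin n → V) := LinearEquiv.ofBijective R ⟨hRinj, hRsurj⟩
  have hfd : FiniteDimensional K (HdmL σ) := LinearEquiv.finiteDimensional eR.symm
  have hdimF : Module.finrank K (Fin n → V) = n * Module.finrank K V := by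
    rw [Module.finrank_pi_fintype]
    simp
  have hdimL : Module.finrank K (HdmL σ) = n * Module.finrank K V := by
    rw [eR.finrank_eq, hdimF]
  -- the kernel
  have hker : Module.finrank K (LinearMap.ker (HdmD σ)) = Module.finrank K (ZE σ) := by
    let P : ZE σ →ₗ[K] (HdmL σ × V) :=
      { toFun := fun z => (⟨fun g => z.1 (iR α g), fun g h => by
            beta_reduce
            rw [map_mul, z.2, add_zero]⟩, z.1 (tR α))
        map_add' := fun z z' => rfl
        map_smul' := fun a z => rfl }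
    have hP : Function.Injective P := by
      intro z z' hzz
      apply Subtype.ext
      have h6 : (fun g => z.1 (iR α g)) = fun g => z'.1 (iR α g) :=
        congrArg (fun y : HdmL σ × V => y.1.1) hzz
      refine Hdm_GR_uniq hE z.1 z'.1 ?_ ?_ (fun i => congrFun h6 (FreeGroup.of i))
        (congrArg (fun y : HdmL σ × V => y.2) hzz)
      · intro x y
        rw [add_zero]
        exact z.2 x y
      · intro x y
        rw [add_zero]
        exact z'.2 x y
    have hr : LinearMap.range P = LinearMap.ker (HdmD σ) := by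
      ext p
      constructor
      · rintro ⟨z, rfl⟩
        rw [LinearMap.mem_ker]
        funext i
        show z.1 (iR α (α (FreeGroup.of i))) - σ (tR α) (z.1 (iR α (FreeGroup.of i))) +
          σ (iR α (α (FreeGroup.of i))) (z.1 (tR α)) - z.1 (tR α) = 0
        have h6 := z.2 (tR α) (iR α (FreeGroup.of i))
        have h7 := z.2 (iR α (α (FreeGroup.of i))) (tR α)
        rw [tR_mul, h7] at h6
        rw [sub_add_eq_add_sub, h6]
        abel
      · intro hp
        rw [LinearMap.mem_ker] at hp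
        obtain ⟨⟨f, hf⟩, τ⟩ := p
        have hrel : ∀ i, τ + σ (tR α) (f (FreeGroup.of i)) +
            (fun _ _ => (0 : V)) (tR α) (iR α (FreeGroup.of i)) =
            f (α (FreeGroup.of i)) + σ (iR α (α (FreeGroup.of i))) τ +
            (fun _ _ => (0 : V)) (iR α (α (FreeGroup.of i))) (tR α) := by
          intro i
          have h6 : f (α (FreeGroup.of i)) - σ (tR α) (f (FreeGroup.of i)) +
            σ (iR α (α (FreeGroup.of i))) τ - τ = 0 := congrFun hp i
          beta_reduce
          rw [add_zero, add_zero]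
          rw [sub_eq_zero, sub_add_eq_add_sub, sub_eq_iff_eq_add] at h6
          exact h6.symm
        obtain ⟨F, hF, hFi, hFt⟩ := Hdm_GR_ex hE f τ hf hrel
        refine ⟨⟨F, fun x y => ?_⟩, ?_⟩
        · have h6 : F (x * y) = F x + σ x (F y) + 0 := hF x y
          rw [h6, add_zero]
        · refine Prod.ext ?_ hFt
          apply hRinj
          funext i
          exact hFi i
    rw [← hr]
    exact LinearMap.finrank_range_of_inj hP
  have h6 := LinearMap.finrank_range_add_finrank_ker (HdmD σ)
  have h7 := Submodule.finrank_quotient_add_finrank (FxR α σ)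
  rw [Hdm_range, hker, Module.finrank_prod, hdimL] at h6
  rw [hdimF] at h7
  omega

theorem p_Hdm : H_dm := by
  intro n α K V _ _ _ _ σ
  exact Hdm_main n α K V σ

end

end Pool.Agent.F8.NL
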