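import Pool.Agent.Lib.MP_305fdd_al.F8.NL.StmM

/-!
# MP_305fdd_al, all lattices (project NL): the identity for one cusp (`M_id1`)
-/

set_option autoImplicit false

namespace Pool.Agent.F8.NL

open Pool.Agent.F8.CG Pool.Agent.F8.BG Pool.Agent.MP_305fdd_al Pool.Agent.Lib.MP_305fdd_al
  Pool.Agent.F8
open scoped QuadraticAlgebra ComplexConjugate Kronecker

noncomputable section

private theorem Mid1_inj {a b : ℤ} (h : b ^ 2 + 4 * a < 0) : Function.Injective (iC a b) := by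
  rw [injective_iff_map_eq_zero]
  intro x hx
  have him := wC_im h
  rw [iC_apply] at hx
  have h1 := congrArg Complex.im hx
  have h2 := congrArg Complex.re hx
  simp only [Complex.add_im, Complex.intCast_im, Complex.mul_im, Complex.intCast_re, zero_mul,
    add_zero, zero_add, Complex.zero_im] at h1
  simp only [Complex.add_re, Complex.intCast_re, Complex.mul_re, Complex.intCast_im, zero_mul,
    sub_zero, Complex.zero_re] at h2
  have h3 : (x.im : ℝ) = 0 := by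
    rcases mul_eq_zero.1 h1 with h | h
    · exact h
    · exact absurd h him.ne'
  rw [h3, zero_mul, add_zero] at h2
  have h4 : x.im = 0 := by exact_mod_cast h3
  have h5 : x.re = 0 := by exact_mod_cast h2
  exact QuadraticAlgebra.ext h5 h4

private theorem Mid1_act {R : Type} [CommRing R] (g h : SL2 R) (v : Fin 2 → R) :
    (g * h).val.mulVec v = g.val.mulVec (h.val.mulVec v) := by
  rw [Matrix.mulVec_mulVec]
  rfl

private theorem Mid1_one {R : Type} [CommRing R] (v : Fin 2 → R) :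
    (1 : SL2 R).val.mulVec v = v := by
  show (1 : Matrix (Fin 2) (Fin 2) R).mulVec v = v
  rw [Matrix.one_mulVec]

private theorem Mid1_id {a b : ℤ} (g : GQ a b) : SLm (RingHom.id (Qf a b ℤ)) g = g := by
  apply Subtype.ext
  exact Matrix.ext fun i j => rfl

private theorem Mid1_prm {a b : ℤ} (g : GQ a b) {e : Fin 2 → Qf a b ℤ} (h : Prm e) :
    Prm (g.val.mulVec e) := by
  obtain ⟨k, rfl⟩ := h
  exact ⟨g * k, rfl⟩

private theorem Mid1_prmu {a b : ℤ} {u : Qf a b ℤ} (hu : IsUnit u) {e : Fin 2 → Qf a b ℤ}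
    (h : Prm e) : Prm (u • e) := by
  obtain ⟨k, rfl⟩ := h
  obtain ⟨v, hv⟩ := hu.exists_right_inv
  refine ⟨k * dg u v hv, ?_⟩
  funext i
  show (k.val * (AB.mx u 0 0 v _).val) i 0 = u * k.val i 0
  rw [Matrix.mul_apply, Fin.sum_univ_two]
  show k.val i 0 * u + k.val i 1 * 0 = _
  ring

private theorem Mid1_sm {R S : Type} [CommRing R] [CommRing S] (f : R →+* S) (m : ℕ)
    (g : SL2 R) : sm m (SLm f g) = (sm m g).map f := by
  show sb m ((SLm f g)⁻¹).val = (sb m (g⁻¹).val).map f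
  rw [← map_inv, ← sb_map]
  rfl

/-- the value of the conjugate crossed homomorphism -/
private theorem Mid1_bvcj {a b : ℤ} {m : ℕ} (g : GQ a b) (z : GQ a b → Fin (m + 1) → Qf a b ℤ)
    (N : ℕ) (e' : Fin 2 → Qf a b ℤ) :
    bv m N (RingHom.id _) (zcj g z) e' = bv m N (RingHom.id _) z (g.val.mulVec e') := by
  show evm m ((tV m (RingHom.id _) g⁻¹).mulVec (z (g * tv e' (N : Qf a b ℤ) * g⁻¹)))
      (fun i => e' i) = evm m (z (tv (g.val.mulVec e') (N : Qf a b ℤ)))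
      (fun i => g.val.mulVec e' i)
  rw [(p_Vtv _ e' 0 (N : Qf a b ℤ)).2.2.1 g]
  have h7 : evm m ((tV m (RingHom.id _) g⁻¹).mulVec (z (tv (g.val.mulVec e')
      (N : Qf a b ℤ)))) (fun i => e' i) = evm m (z (tv (g.val.mulVec e') (N : Qf a b ℤ)))
        ((SLm (RingHom.id _) g⁻¹)⁻¹.val.mulVec e') := evm_sm m _ _ _
  rw [h7, Mid1_id, inv_inv]

private theorem Mid1_CHcj {a b : ℤ} {m : ℕ} (X : NF a b) (g : GQ a b)
    {z : GQ a b → Fin (m + 1) → Qf a b ℤ} (hz : CH (tV m (RingHom.id _)) X.N z) :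
    CH (tV m (RingHom.id _)) X.N (zcj g z) := by
  intro x hx y hy
  have hg : ∀ x ∈ X.N, g * x * g⁻¹ ∈ X.N := fun x hx => X.nor.conj_mem x hx g
  show (tV m (RingHom.id _) g⁻¹).mulVec (z (g * (x * y) * g⁻¹)) =
    (tV m (RingHom.id _) g⁻¹).mulVec (z (g * x * g⁻¹)) + (tV m (RingHom.id _) x).mulVec
      ((tV m (RingHom.id _) g⁻¹).mulVec (z (g * y * g⁻¹)))
  rw [show g * (x * y) * g⁻¹ = (g * x * g⁻¹) * (g * y * g⁻¹) by group,
    hz _ (hg x hx) _ (hg y hy), Matrix.mulVec_add, Matrix.mulVec_mulVec, ← map_mul,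
    Matrix.mulVec_mulVec, ← map_mul]
  congr 3
  group

private theorem Mid1_CHC {a b : ℤ} {m : ℕ} {W : Subgroup (GQ a b)}
    {z : GQ a b → Fin (m + 1) → Qf a b ℤ} (hz : CH (tV m (RingHom.id _)) W z) :
    CH (tV m (iC a b)) W (fun x i => iC a b (z x i)) := by
  intro x hx y hy
  funext i
  show iC a b (z (x * y) i) = iC a b (z x i) + (tV m (iC a b) x).mulVec (fun i => iC a b (z y i)) i
  rw [hz x hx y hy]
  have h1 : tV m (iC a b) x = (tV m (RingHom.id _) x).map (iC a b) := by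
    show sm m (SLm (iC a b) x) = (sm m (SLm (RingHom.id _) x)).map (iC a b)
    rw [Mid1_id, Mid1_sm]
  rw [h1]
  show iC a b (z x i + ∑ j, tV m (RingHom.id _) x i j * z y j) = iC a b (z x i) +
    ∑ j, iC a b (tV m (RingHom.id _) x i j) * iC a b (z y j)
  rw [map_add, map_sum]
  simp only [map_mul]

private theorem Mid1_bvC {a b : ℤ} {m : ℕ} (z : GQ a b → Fin (m + 1) → Qf a b ℤ)
    (N : ℕ) (e : Fin 2 → Qf a b ℤ) :
    bv m N (iC a b) (fun x i => iC a b (z x i)) e = iC a b (bv m N (RingHom.id _) z e) :=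
  evm_map (iC a b) m _ _

/-- the values at all primitive vectors -/
private theorem Mid1_val {a b : ℤ} {m : ℕ} (hB : BvM a b m (RingHom.id (Qf a b ℤ)))
    (hu : UnE a b (m + 2)) {W : Subgroup (GQ a b)} {N : ℕ} (hN : Lv W N)
    {z : GQ a b → Fin (m + 1) → Qf a b ℤ} (hz : CH (tV m (RingHom.id _)) W z)
    {e₀ : Fin 2 → Qf a b ℤ}
    (h0 : ∀ e, Prm e → ¬ Cs W e₀ e → bv m N (RingHom.id _) z e = 0) {e : Fin 2 → Qf a b ℤ}
    (he : Prm e) : iC a b (bv m N (RingHom.id _) z e) =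
      indP (Cs W e₀ e) * iC a b (bv m N (RingHom.id _) z e₀) := by
  unfold indP
  by_cases h : Cs W e₀ e
  · rw [if_pos h, one_mul]
    obtain ⟨x, hx, u, hu', rfl⟩ := h
    rw [hB.hom W N hN z hz u, hB.inv W N hN z hz x hx]
    show iC a b (u ^ (m + 2) * _) = _
    rw [hu u hu', one_mul]
  · rw [if_neg h, zero_mul, h0 e he h, map_zero]

private theorem Mid1_symm {a b : ℤ} {W : Subgroup (GQ a b)} {e e' : Fin 2 → Qf a b ℤ}
    (h : Cs W e e') : Cs W e' e := by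
  obtain ⟨x, hx, u, hu, rfl⟩ := h
  obtain ⟨v, hv⟩ := hu.exists_left_inv
  refine ⟨x⁻¹, inv_mem hx, v, IsUnit.of_mul_eq_one u hv, ?_⟩
  rw [Matrix.mulVec_smul, ← Mid1_act, inv_mul_cancel, Mid1_one, smul_smul, hv, one_smul]

private theorem Mid1_trans {a b : ℤ} {W : Subgroup (GQ a b)} {e e' e'' : Fin 2 → Qf a b ℤ}
    (h : Cs W e e') (h' : Cs W e' e'') : Cs W e e'' := by
  obtain ⟨x, hx, u, hu, rfl⟩ := h
  obtain ⟨y, hy, v, hv, rfl⟩ := h'
  refine ⟨y * x, mul_mem hy hx, v * u, hv.mul hu, ?_⟩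
  rw [Matrix.mulVec_smul, ← Mid1_act, smul_smul]

private theorem Mid1_cl {a b : ℤ} {W : Subgroup (GQ a b)} {e : Fin 2 → Qf a b ℤ} {x : GQ a b}
    (hx : x ∈ W) {u : Qf a b ℤ} (hu : IsUnit u) : Cs W e (u • x.val.mulVec e) :=
  ⟨x, hx, u, hu, rfl⟩

/-- two approximations give the same cusp -/
private theorem Mid1_ap {a b : ℤ} {X : NF a b} {k : GH a b} {g g' : GQ a b} (hg : Ap X k g)
    (hg' : Ap X k g') : Cs X.N (colG g 0) (colG g' 0) := by
  have h5 : QuotientGroup.mk' X.N g' = QuotientGroup.mk' X.N g := by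
    rw [← show pr X k = QuotientGroup.mk' X.N g' from hg']
    exact hg
  have h6 : QuotientGroup.mk' X.N (g' * g⁻¹) = 1 := by
    rw [map_mul, map_inv, h5, mul_inv_cancel]
  have h4 : g' * g⁻¹ ∈ X.N := (QuotientGroup.eq_one_iff (N := X.N) (g' * g⁻¹)).1 h6
  refine ⟨g' * g⁻¹, h4, 1, isUnit_one, ?_⟩
  have h7 : g'.val = (g' * g⁻¹).val * g.val := by
    show g'.val = ((g' * g⁻¹) * g).val
    rw [inv_mul_cancel_right]
  rw [one_smul]
  funext i
  show g'.val i 0 = _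
  rw [h7]
  rfl

private theorem Mid1_CsH {a b : ℤ} {X : NF a b} {k : GH a b} {g : GQ a b} (hg : Ap X k g)
    (e₀ : Fin 2 → Qf a b ℤ) : CsH X k e₀ ↔ Cs X.N e₀ (colG g 0) := by
  constructor
  · rintro ⟨g', hg', h⟩
    exact Mid1_symm (Mid1_trans (Mid1_ap hg hg') h)
  · intro h
    exact ⟨g, hg, Mid1_symm h⟩

private theorem Mid1_RV {a b : ℤ} {m N : ℕ} (k : ℕ) {z : GQ a b → Fin (m + 1) → ℂ} {r : ℂ}
    (h : RVp m N (iC a b) (cC a b) z r) : RVp m (N * k) (iC a b) (cC a b) z (k * r) := by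
  obtain ⟨Q, hQ⟩ := h
  refine ⟨Q.comp (Polynomial.C (k : ℂ) * Polynomial.X), fun t => ?_⟩
  have h1 := hQ ((k : Qf a b ℤ) * t)
  rw [show (N : Qf a b ℤ) * ((k : Qf a b ℤ) * t) = ((N * k : ℕ) : Qf a b ℤ) * t by
    push_cast
    ring] at h1
  rw [h1, Polynomial.eval_comp]
  simp only [map_mul, map_natCast, Polynomial.eval_mul, Polynomial.eval_X,
    Polynomial.eval_natCast]
  ring

private theorem Mid1_ind {P Q : Prop} (h : P ↔ Q) : indP P = indP Q := by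
  rw [propext h]

private theorem Mid1_indn (P : Prop) : ‖indP P‖ ≤ 1 := by
  unfold indP
  split_ifs <;> simp

theorem p_Mid1 (hE : E_main) (hex : X_ex) (hfin : M_fin) (hmbv : M_bv) (hrv : M_rv)
    (hvan : M_van) (hbv : B_bv) (hext : C_ext) (hcl : C_cl) (hlv : P_lv) (hpb : P_pb) :
    M_id1 := by
  intro a b M₀ m hP D hD h C E hh K ep hK v hv n hn X
  have hdom : IsDomain (Qf a b ℤ) := Qf_domain hP.neg
  have hm1 : 1 ≤ m := le_trans (by norm_num) hP.four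
  have hm3 : 3 ≤ m := le_trans (by norm_num) hP.four
  have hB : BvM a b m (RingHom.id (Qf a b ℤ)) :=
    hbv a b hP.neg m hm1 _ (RingHom.id _) Function.injective_id
  obtain ⟨N, hN⟩ := hlv a b X.N X.fin
  have hfi : (hcm h X.N).FiniteIndex := (hcl a b X.N X.fin).2.2.2 D h hD
  obtain ⟨N₂, hN₂⟩ := hlv a b (hcm h X.N) hfi
  refine ⟨N * N₂, mul_ne_zero hN.1 hN₂.1, fun e₀ g₁ he₀ hg₁ => ?_⟩
  obtain ⟨N₃, hN₃⟩ : ∃ N₃ : ℕ, N₃ = N₂ * n := ⟨_, rfl⟩
  have hN₃0 : N₃ ≠ 0 := by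
    rw [hN₃]
    exact mul_ne_zero hN₂.1 hn
  rw [show n * (N * N₂) = N * N₃ by rw [hN₃]; ring]
  have hNa : Lv X.N (N * N₃) := by
    refine ⟨mul_ne_zero hN.1 hN₃0, fun e t => ?_⟩
    have h1 := hN.2 e ((N₃ : Qf a b ℤ) * t)
    rwa [show (N : Qf a b ℤ) * ((N₃ : Qf a b ℤ) * t) = ((N * N₃ : ℕ) : Qf a b ℤ) * t by
      push_cast
      ring] at h1
  have hNb : Lv (hcm h X.N) (N * N₃) := by
    refine ⟨mul_ne_zero hN.1 hN₃0, fun e t => ?_⟩
    have h1 := hN₂.2 e (((N * n : ℕ) : Qf a b ℤ) * t)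
    rwa [show (N₂ : Qf a b ℤ) * (((N * n : ℕ) : Qf a b ℤ) * t) = ((N * N₃ : ℕ) : Qf a b ℤ) * t by
      rw [hN₃]
      push_cast
      ring] at h1
  obtain ⟨z, hz, hz0, hz1⟩ := hex a b hP.neg hP.eu hP.pid hP.fg m hP.four hP.even hP.une X.N X.fin
    N hN e₀ he₀
  obtain ⟨Z, hZ⟩ := (hext a b hP.neg X.N X.fin).1 _ _ z hz
  have hval := fun {e : Fin 2 → Qf a b ℤ} (he : Prm e) => Mid1_val hB hP.une hN hz hz1 he
  obtain ⟨c, hc⟩ : ∃ c : ℂ, c = iC a b (bv m N (RingHom.id _) z e₀) := ⟨_, rfl⟩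
  have hc0 : c ≠ 0 := by
    rw [hc]
    exact fun h0 => hz0 ((map_eq_zero_iff _ (Mid1_inj hP.neg)).1 h0)
  rw [← hc] at hval
  -- the first crossed homomorphism
  obtain ⟨κ, hκ⟩ : ∃ κ : ℂ, κ = Nat.card (Qf a b ℤ)ˣ := ⟨_, rfl⟩
  obtain ⟨r, r', hr, hr', hrr⟩ := hrv a b hP.neg m hm1 D h C E hh X N N₃ hN hNb z hz Z hZ v hv
    (K ![1, 0]) (ep ![1, 0]) (hK _ ⟨1, by
      funext i
      fin_cases i <;> rfl⟩) g₁ hg₁
  have hr2 := Mid1_RV N₃ hr
  obtain ⟨F, hF⟩ : ∃ F : (Fin 2 → Qf a b ℤ) → ℂ, F = fun e => indP (Cs X.N e₀ (g₁.val.mulVec e)) :=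
    ⟨_, rfl⟩
  have hFa : ∀ e, F e = indP (Cs X.N e₀ (g₁.val.mulVec e)) := fun e => by rw [hF]
  have hmain := (hE a b hP.neg hP.eu hP.pid m hP.four hP.even hP.une).2
  obtain ⟨zF, hzF, hzF2⟩ := hmain X.N F ⟨1, fun e => by rw [hFa]; exact Mid1_indn _⟩
    (fun x hx e _ => by
      rw [hFa, hFa]
      refine Mid1_ind ?_
      have h1 : g₁ * x * g₁⁻¹ ∈ X.N := X.nor.conj_mem x hx g₁
      have h2 : g₁.val.mulVec (x.val.mulVec e) = (1 : Qf a b ℤ) •
          (g₁ * x * g₁⁻¹).val.mulVec (g₁.val.mulVec e) := by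
        rw [one_smul, ← Mid1_act, ← Mid1_act, inv_mul_cancel_right]
      have h3 : Cs X.N (g₁.val.mulVec e) (g₁.val.mulVec (x.val.mulVec e)) := by
        rw [h2]
        exact Mid1_cl h1 isUnit_one
      exact ⟨fun h4 => Mid1_trans h4 (Mid1_symm h3), fun h4 => Mid1_trans h4 h3⟩)
    (fun u hu e _ => by
      rw [hFa, hFa]
      refine Mid1_ind ?_
      have h3 : Cs X.N (g₁.val.mulVec e) (g₁.val.mulVec (u • e)) := by
        rw [Matrix.mulVec_smul]
        refine ⟨1, one_mem _, u, hu, ?_⟩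
        rw [Mid1_one]
      exact ⟨fun h4 => Mid1_trans h4 (Mid1_symm h3), fun h4 => Mid1_trans h4 h3⟩)
  obtain ⟨hF1, rF, hrF, hrF2⟩ := hzF2 (N * N₃) hNa
  have hI : ((N * N₃ : ℕ) * κ) * (N₃ * r) = (N₃ * c) * rF := by
    refine (hvan a b hP.neg hP.eu hP.pid m hm3 X.N X.fin (N * N₃) hNa).2
      (fun x i => iC a b (zcj g₁ z x i)) zF _ _ _ _ (Mid1_CHC (Mid1_CHcj X g₁ hz)) hzF ?_ hr2 hrF
    intro e he
    rw [hF1 e he, Mid1_bvC, hB.lev X.N N N₃ hN _ (Mid1_CHcj X g₁ hz), Mid1_bvcj, map_mul,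
      map_natCast, hval (Mid1_prm g₁ he), hFa, hκ]
    ring
  -- the second crossed homomorphism
  have hCHy : CH (tV m (iC a b)) (hcm h X.N) (pbk m v h C Z) := by
    rw [← hv]
    exact ((hpb a b hP.neg D h C E hh).1 X.N m ℂ v Z).1
      ((hext a b hP.neg X.N X.fin).2.1 m z hz Z hZ)
  have hdet : IsUnit C.det := by
    have h1 := congrArg Matrix.det hh.inv
    rw [Matrix.det_mul, Matrix.det_one] at h1
    exact IsUnit.of_mul_eq_one _ h1
  have hne : ∀ e, Prm e → v (ep e ^ (m + 2) * C.det) ≠ 0 := by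
    intro e he
    have h1 : IsUnit (ep e ^ (m + 2) * C.det) := ((hK e he).unit.pow _).mul hdet
    exact (h1.map v).ne_zero
  have hye : ∀ e, Prm e → bv m (N * N₃) (iC a b) (pbk m v h C Z) e =
      N₃ * c * ((v (ep e ^ (m + 2) * C.det))⁻¹ * indP (CsH X (K e) e₀)) := by
    intro e he
    obtain ⟨g, hg⟩ := Ap_ex X (K e)
    have h1 := hmbv a b hP.neg m hm1 D h C E hh X N N₃ hN hNb z hz Z hZ ℂ v e (K e) (ep e)
      (hK e he) g hg
    have h2 : v (jH a b (bv m N (RingHom.id _) z (colG g 0))) =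
        iC a b (bv m N (RingHom.id _) z (colG g 0)) := by
      rw [← hv]
      rfl
    rw [h2, hval ⟨g, rfl⟩, hv] at h1
    rw [Mid1_ind (Mid1_CsH hg e₀)]
    have h3 := hne e he
    field_simp
    rw [mul_comm, h1]
    ring
  obtain ⟨hfin1, J, hJ⟩ := hfin a b M₀ m hP D hD h C E hh K ep hK
  obtain ⟨G, hG⟩ : ∃ G : (Fin 2 → Qf a b ℤ) → ℂ, ∀ e, G e = indP (Prm e) *
      ((v (ep e ^ (m + 2) * C.det))⁻¹ * indP (CsH X (K e) e₀)) := ⟨_, fun e => rfl⟩
  have hGp : ∀ e, Prm e → G e = (v (ep e ^ (m + 2) * C.det))⁻¹ * indP (CsH X (K e) e₀) := by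
    intro e he
    rw [hG, show indP (Prm e) = 1 from if_pos he, one_mul]
  obtain ⟨zG, hzG, hzG2⟩ := hmain (hcm h X.N) G (by
      refine ⟨∑ j ∈ J, ‖(v (j * C.det))⁻¹‖, fun e => ?_⟩
      by_cases he : Prm e
      · rw [hGp e he, norm_mul]
        have h1 : ‖(v (ep e ^ (m + 2) * C.det))⁻¹‖ ≤ ∑ j ∈ J, ‖(v (j * C.det))⁻¹‖ :=
          Finset.single_le_sum (f := fun j => ‖(v (j * C.det))⁻¹‖) (fun _ _ => norm_nonneg _)
            (hJ e he)
        calc _ ≤ (∑ j ∈ J, ‖(v (j * C.det))⁻¹‖) * 1 :=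
              mul_le_mul h1 (Mid1_indn _) (norm_nonneg _) ((norm_nonneg _).trans h1)
          _ = _ := mul_one _
      · rw [hG, show indP (Prm e) = 0 from if_neg he, zero_mul, norm_zero]
        exact Finset.sum_nonneg fun _ _ => norm_nonneg _)
    (fun x hx e he => by
      obtain ⟨y, hy, rfl⟩ := hx
      have hyc : h y ∈ clH X.N := hy
      have h1 := hfin1 y 1 e isUnit_one he
      rw [one_smul] at h1
      have h2 : pr X (h y) = 1 := by
        obtain ⟨g, hg, hap⟩ := hyc X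
        rw [show pr X (h y) = _ from hap]
        exact (QuotientGroup.eq_one_iff g).2 hg
      have h3 : CsH X (h y * K e) e₀ ↔ CsH X (K e) e₀ := by
        have h4 : ∀ g, Ap X (h y * K e) g ↔ Ap X (K e) g := by
          intro g
          show pr X (h y * K e) = _ ↔ pr X (K e) = _
          rw [map_mul, h2, one_mul]
        unfold CsH
        simp only [h4]
      show G ((y : GQ a b).val.mulVec e) = G e
      rw [hGp _ (Mid1_prm _ he), hGp e he, map_mul, map_mul, h1.1,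
        Mid1_ind ((h1.2 X e₀).trans h3)])
    (fun u hu e he => by
      have h1 := hfin1 1 u e hu he
      rw [show ((1 : D) : GQ a b).val.mulVec e = e from Mid1_one e, map_one, one_mul] at h1
      rw [hGp _ (Mid1_prmu hu he), hGp e he, map_mul, map_mul, h1.1, Mid1_ind (h1.2 X e₀)])
  obtain ⟨hG1, rG, hrG, hrG2⟩ := hzG2 (N * N₃) hNb
  have hII : ((N * N₃ : ℕ) * κ) * r' = (N₃ * c) * rG := by
    refine (hvan a b hP.neg hP.eu hP.pid m hm3 (hcm h X.N) hfi (N * N₃) hNb).2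
      (pbk m v h C Z) zG _ _ _ _ hCHy hzG ?_ hr' hrG
    intro e he
    rw [hG1 e he, hye e he, hGp e he, hκ]
    ring
  -- the conclusion
  have hs1 : ∑' e : PV a b, indP (Cs X.N e₀ (g₁.val.mulVec e)) * Jn a b m (N * N₃) e =
      ∑' e : {e : Fin 2 → Qf a b ℤ // Prm e}, F e * Jn a b m (N * N₃) e := by
    refine tsum_congr fun e => ?_
    rw [hFa]
  have hs2 : ∑' e : PV a b, (v (ep e ^ (m + 2) * C.det))⁻¹ *
      indP (CsH X (K e) e₀) * Jn a b m (N * N₃) e =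
      ∑' e : {e : Fin 2 → Qf a b ℤ // Prm e}, G e * Jn a b m (N * N₃) e := by
    refine tsum_congr fun e => ?_
    rw [hGp _ e.2]
  rw [hs1, hs2]
  have hcc : (N₃ : ℂ) * c ≠ 0 := mul_ne_zero (Nat.cast_ne_zero.2 hN₃0) hc0
  apply mul_left_cancel₀ hcc
  have hA : ∀ S T s : ℂ, s * rF = -S → s * rG = -T → (N₃ * c) * (v (ep ![1, 0] * C.det) ^ m * S) =
      (N₃ * c) * (v (cjq a b Zh (ep ![1, 0] ^ 2 * C.det)) * T) := by
    intro S T s hS hT
    have e1 : (N₃ * c) * (v (ep ![1, 0] * C.det) ^ m * S) =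
        -(v (ep ![1, 0] * C.det) ^ m * s) * ((N₃ * c) * rF) := by
      linear_combination (N₃ * c * v (ep ![1, 0] * C.det) ^ m) * hS
    have e2 : (N₃ * c) * (v (cjq a b Zh (ep ![1, 0] ^ 2 * C.det)) * T) =
        -(v (cjq a b Zh (ep ![1, 0] ^ 2 * C.det)) * s) * ((N₃ * c) * rG) := by
      linear_combination (N₃ * c * v (cjq a b Zh (ep ![1, 0] ^ 2 * C.det))) * hT
    rw [e1, e2, ← hI, ← hII]
    linear_combination (((N * N₃ : ℕ) : ℂ) * κ * s) * hrr
  exact hA _ _ _ hrF2 hrG2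

end

end Pool.Agent.F8.NL
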