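import Pool.Agent.Lib.MP_305fdd_al.F8.NL.StmM

/-!
# MP_305fdd_al, all lattices, [NL M til]: tiling
-/

set_option autoImplicit false

namespace Pool.Agent.F8.NL

open Pool.Agent.F8.CG Pool.Agent.F8.BG Pool.Agent.MP_305fdd_al Pool.Agent.Lib.MP_305fdd_al
  Pool.Agent.F8
open scoped QuadraticAlgebra ComplexConjugate Kronecker

noncomputable section

/-! ### Integrals over rectangles -/

private theorem Mtil_one (g : ℝ → ℂ) (hg : Continuous g) (c : ℝ) (k : ℕ) :
    ∫ s in (0 : ℝ)..(c * k), g s = ∑ i ∈ Finset.range k, ∫ s in (0 : ℝ)..c, g (s + c * i) := by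
  have h := intervalIntegral.sum_integral_adjacent_intervals (f := g) (μ := MeasureTheory.volume)
    (a := fun i : ℕ => c * (i : ℝ)) (n := k) (fun i _ => hg.intervalIntegrable _ _)
  have h0 : c * ((0 : ℕ) : ℝ) = 0 := by simp
  rw [h0] at h
  rw [← h]
  refine Finset.sum_congr rfl fun i _ => ?_
  rw [intervalIntegral.integral_comp_add_right]
  congr 1
  · ring
  · push_cast
    ring

private theorem Mtil_two (G : ℝ → ℝ → ℂ) (hG : Continuous (Function.uncurry G)) (c d : ℝ)
    (k : ℕ) : ∫ s in (0 : ℝ)..(c * k), ∫ r in (0 : ℝ)..(d * k), G s r =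
      ∑ i ∈ Finset.range k, ∑ j ∈ Finset.range k,
        ∫ s in (0 : ℝ)..c, ∫ r in (0 : ℝ)..d, G (s + c * i) (r + d * j) := by
  have hin : ∀ s, Continuous (G s) := fun s =>
    hG.comp (show Continuous fun r : ℝ => (s, r) by fun_prop)
  have hout : ∀ R : ℝ, Continuous fun s => ∫ r in (0 : ℝ)..R, G s r := fun R =>
    intervalIntegral.continuous_parametric_intervalIntegral_of_continuous' hG 0 R
  rw [Mtil_one (fun s => ∫ r in (0 : ℝ)..(d * k), G s r) (hout _) c k]
  refine Finset.sum_congr rfl fun i _ => ?_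
  have h1 : ∀ s : ℝ, ∫ r in (0 : ℝ)..(d * k), G (s + c * i) r =
      ∑ j ∈ Finset.range k, ∫ r in (0 : ℝ)..d, G (s + c * i) (r + d * j) := fun s =>
    Mtil_one (G (s + c * i)) (hin _) d k
  simp only [h1]
  rw [intervalIntegral.integral_finsetSum]
  intro j _
  apply Continuous.intervalIntegrable
  have h2 : Continuous (Function.uncurry fun s r : ℝ => G (s + c * i) (r + d * j)) := by
    have h3 : (Function.uncurry fun s r : ℝ => G (s + c * i) (r + d * j)) =
        Function.uncurry G ∘ fun p : ℝ × ℝ => (p.1 + c * i, p.2 + d * j) := rfl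
    rw [h3]
    exact hG.comp (by fun_prop)
  exact intervalIntegral.continuous_parametric_intervalIntegral_of_continuous' h2 0 d

/-! ### The term of a vector -/

private theorem Mtil_den {e : Fin 2 → ℂ} (he : e ≠ 0) (x : ℂ) :
    (‖e 0 - x * e 1‖ ^ 2 + ‖e 1‖ ^ 2 : ℝ) ≠ 0 := by
  intro h
  have h1 : ‖e 1‖ ^ 2 = 0 := by nlinarith [sq_nonneg ‖e 0 - x * e 1‖, sq_nonneg ‖e 1‖]
  have h2 : ‖e 0 - x * e 1‖ ^ 2 = 0 := by nlinarith [sq_nonneg ‖e 0 - x * e 1‖, sq_nonneg ‖e 1‖]
  have h3 : e 1 = 0 := norm_eq_zero.1 (by simpa using h1)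
  have h4 : e 0 - x * e 1 = 0 := norm_eq_zero.1 (by simpa using h2)
  apply he
  rw [h3, mul_zero, sub_zero] at h4
  ext i
  fin_cases i
  · exact h4
  · exact h3

private theorem Mtil_cont (m : ℕ) {e : Fin 2 → ℂ} (he : e ≠ 0) : Continuous (Jd m e) := by
  unfold Jd
  apply Continuous.pow
  apply Continuous.div continuous_const
  · apply Complex.continuous_ofReal.comp
    fun_prop
  · intro x
    exact Complex.ofReal_ne_zero.2 (Mtil_den he x)

private theorem Mtil_inj {a b : ℤ} (h : b ^ 2 + 4 * a < 0) {z : Qf a b ℤ} (hz : iC a b z = 0) :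
    z = 0 := by
  rw [iC_apply] at hz
  have him := congrArg Complex.im hz
  have hre := congrArg Complex.re hz
  simp only [Complex.add_im, Complex.intCast_im, Complex.mul_im, Complex.intCast_re, zero_mul,
    Complex.zero_im, zero_add, add_zero] at him
  have h1 : (z.im : ℝ) = 0 := by
    rcases mul_eq_zero.1 him with h2 | h2
    · exact h2
    · exact absurd h2 (wC_im h).ne'
  simp only [Complex.add_re, Complex.intCast_re, Complex.mul_re, Complex.intCast_im, zero_mul,
    sub_zero, Complex.zero_re, h1, add_zero] at hre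
  apply QuadraticAlgebra.ext
  · exact_mod_cast hre
  · exact_mod_cast h1

private theorem Mtil_ne {a b : ℤ} (h : b ^ 2 + 4 * a < 0) {e : Fin 2 → Qf a b ℤ} (he : Prm e) :
    vC a b e ≠ 0 := by
  intro h0
  have h1 : e = 0 := by
    funext i
    exact Mtil_inj h (congrFun h0 i)
  obtain ⟨g, hg⟩ := he
  have h2 : g.val 0 0 = 0 := by
    have := congrFun hg 0
    rw [h1] at this
    exact this
  have h3 : g.val 1 0 = 0 := by
    have := congrFun hg 1
    rw [h1] at this
    exact this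
  have h4 := g.2
  rw [Matrix.det_fin_two, h2, h3] at h4
  have h5 : (0 : Qf a b ℤ) = 1 := by
    rw [← h4]
    ring
  have h6 := congrArg QuadraticAlgebra.re h5
  simp at h6

private theorem Mtil_mv {a b : ℤ} (t : Qf a b ℤ) (e : Fin 2 → Qf a b ℤ) :
    (eU t : GQ a b).val.mulVec e = ![e 0 + t * e 1, e 1] := by
  show (!![1, t; 0, 1] : Matrix (Fin 2) (Fin 2) (Qf a b ℤ)).mulVec e = _
  funext i
  fin_cases i <;> simp [Matrix.mulVec, dotProduct, Fin.sum_univ_two]

private theorem Mtil_prm {a b : ℤ} {e : Fin 2 → Qf a b ℤ} (he : Prm e) (x : GQ a b) :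
    Prm (x.val.mulVec e) := by
  obtain ⟨g, hg⟩ := he
  refine ⟨x * g, ?_⟩
  rw [← hg]
  funext i
  show (x.val * g.val) i 0 = _
  rw [Matrix.mul_apply]
  rfl

/-- the action of `eU t` on the primitive vectors -/
private def Mtil_eq {a b : ℤ} (t : Qf a b ℤ) : PV a b ≃ PV a b where
  toFun e := ⟨(eU t : GQ a b).val.mulVec e.1, Mtil_prm e.2 _⟩
  invFun e := ⟨(eU (-t) : GQ a b).val.mulVec e.1, Mtil_prm e.2 _⟩
  left_inv e := by
    apply Subtype.ext
    show (eU (-t) : GQ a b).val.mulVec ((eU t : GQ a b).val.mulVec e.1) = e.1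
    rw [Mtil_mv, Mtil_mv]
    funext i
    fin_cases i <;> simp
  right_inv e := by
    apply Subtype.ext
    show (eU t : GQ a b).val.mulVec ((eU (-t) : GQ a b).val.mulVec e.1) = e.1
    rw [Mtil_mv, Mtil_mv]
    funext i
    fin_cases i <;> simp

private theorem Mtil_sh {a b : ℤ} (m : ℕ) (l : Qf a b ℤ) (e : Fin 2 → Qf a b ℤ) (x : ℂ) :
    Jd m (vC a b ((eU (-l) : GQ a b).val.mulVec e)) x = Jd m (vC a b e) (x + iC a b l) := by
  rw [Mtil_mv]
  unfold Jd vC
  have h0 : iC a b ((![e 0 + -l * e 1, e 1] : Fin 2 → Qf a b ℤ) 0) =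
      iC a b (e 0) - iC a b l * iC a b (e 1) := by
    show iC a b (e 0 + -l * e 1) = _
    rw [map_add, map_mul, map_neg]
    ring
  have h1 : iC a b ((![e 0 + -l * e 1, e 1] : Fin 2 → Qf a b ℤ) 1) = iC a b (e 1) := rfl
  simp only [h0, h1]
  rw [show iC a b (e 0) - iC a b l * iC a b (e 1) - x * iC a b (e 1) =
    iC a b (e 0) - (x + iC a b l) * iC a b (e 1) by ring]

/-- the number `i + j (2 w - b)` -/
private def Mtil_t (a b : ℤ) (i j : ℕ) : Qf a b ℤ := ⟨(i : ℤ) - j * b, 2 * j⟩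

private theorem Mtil_iC {a b : ℤ} (h : b ^ 2 + 4 * a < 0) (n i j : ℕ) :
    iC a b ((n : Qf a b ℤ) * Mtil_t a b i j) =
      ((n : ℝ) : ℂ) * i + (((n : ℝ) * sD a b : ℝ) : ℂ) * j * Complex.I := by
  rw [map_mul, map_natCast, iC_apply, wC_eq h]
  unfold Mtil_t sD
  push_cast
  ring

private theorem Mtil_Jn {a b : ℤ} (h : b ^ 2 + 4 * a < 0) (m n n₂ : ℕ)
    {e : Fin 2 → Qf a b ℤ} (he : Prm e) :
    Jn a b m (n * n₂) e = ∑ i ∈ Finset.range n₂, ∑ j ∈ Finset.range n₂,
      Jn a b m n ((eU (-((n : Qf a b ℤ) * Mtil_t a b i j)) : GQ a b).val.mulVec e) := by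
  have hc := Mtil_cont m (Mtil_ne h he)
  have h1 := Mtil_two (fun s r => Jd m (vC a b e) (s + r * Complex.I)) (by
    show Continuous fun p : ℝ × ℝ => Jd m (vC a b e) (p.1 + p.2 * Complex.I)
    exact hc.comp (by fun_prop)) n (n * sD a b) n₂
  have h2 : Jn a b m (n * n₂) e = ∫ s in (0 : ℝ)..((n : ℝ) * n₂),
      ∫ r in (0 : ℝ)..((n : ℝ) * sD a b * n₂), Jd m (vC a b e) (s + r * Complex.I) := by
    unfold Jn
    rw [show ((n * n₂ : ℕ) : ℝ) = (n : ℝ) * n₂ by push_cast; rfl,
      show (n : ℝ) * n₂ * sD a b = n * sD a b * n₂ by ring]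
  rw [h2, h1]
  refine Finset.sum_congr rfl fun i _ => Finset.sum_congr rfl fun j _ => ?_
  unfold Jn
  apply intervalIntegral.integral_congr
  intro s _
  apply intervalIntegral.integral_congr
  intro r _
  show Jd m (vC a b e) (((s + n * i : ℝ) : ℂ) + ((r + n * sD a b * j : ℝ) : ℂ) * Complex.I) =
    Jd m (vC a b ((eU (-((n : Qf a b ℤ) * Mtil_t a b i j)) : GQ a b).val.mulVec e))
      (s + r * Complex.I)
  rw [Mtil_sh, Mtil_iC h]
  congr 1
  push_cast
  ring

theorem p_Mtil : M_til := by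
  intro a b hD m _ hsum F hF n n₂ hinv
  obtain ⟨B, hB⟩ := hF
  -- summability
  have hs : Summable fun e : PV a b => F e * Jn a b m n e := by
    refine Summable.of_norm_bounded ((hsum n).mul_left B) ?_
    intro e
    rw [norm_mul]
    exact mul_le_mul_of_nonneg_right (hB e.1 e.2) (norm_nonneg _)
  -- the translates
  have hinv' : ∀ (i j : ℕ) (e : PV a b),
      F ((eU (-((n : Qf a b ℤ) * Mtil_t a b i j)) : GQ a b).val.mulVec e.1) = F e := by
    intro i j e
    rw [show -((n : Qf a b ℤ) * Mtil_t a b i j) = (n : Qf a b ℤ) * (-Mtil_t a b i j) by ring]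
    exact hinv _ e.1 e.2
  have hterm : ∀ e : PV a b, F e * Jn a b m (n * n₂) e =
      ∑ i ∈ Finset.range n₂, ∑ j ∈ Finset.range n₂,
        (fun e' : PV a b => F e' * Jn a b m n e')
          (Mtil_eq (-((n : Qf a b ℤ) * Mtil_t a b i j)) e) := by
    intro e
    rw [Mtil_Jn hD m n n₂ e.2, Finset.mul_sum]
    refine Finset.sum_congr rfl fun i _ => ?_
    rw [Finset.mul_sum]
    refine Finset.sum_congr rfl fun j _ => ?_
    show _ = F ((eU (-((n : Qf a b ℤ) * Mtil_t a b i j)) : GQ a b).val.mulVec e.1) *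
      Jn a b m n ((eU (-((n : Qf a b ℤ) * Mtil_t a b i j)) : GQ a b).val.mulVec e.1)
    rw [hinv']
  have hs' : ∀ i j : ℕ, Summable fun e : PV a b => (fun e' : PV a b => F e' * Jn a b m n e')
      (Mtil_eq (-((n : Qf a b ℤ) * Mtil_t a b i j)) e) := fun i j =>
    ((Mtil_eq (-((n : Qf a b ℤ) * Mtil_t a b i j))).summable_iff).2 hs
  rw [tsum_congr hterm, Summable.tsum_finsetSum fun i _ => summable_sum fun j _ => hs' i j]
  have hin : ∀ i ∈ Finset.range n₂, ∑' e : PV a b, ∑ j ∈ Finset.range n₂,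
      (fun e' : PV a b => F e' * Jn a b m n e')
        (Mtil_eq (-((n : Qf a b ℤ) * Mtil_t a b i j)) e) =
      n₂ * ∑' e : PV a b, F e * Jn a b m n e := by
    intro i _
    rw [Summable.tsum_finsetSum fun j _ => hs' i j]
    have hj : ∀ j ∈ Finset.range n₂, ∑' e : PV a b, (fun e' : PV a b => F e' * Jn a b m n e')
        (Mtil_eq (-((n : Qf a b ℤ) * Mtil_t a b i j)) e) =
        ∑' e : PV a b, F e * Jn a b m n e := fun j _ =>
      Equiv.tsum_eq (Mtil_eq (-((n : Qf a b ℤ) * Mtil_t a b i j)))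
        fun e' : PV a b => F e' * Jn a b m n e'
    rw [Finset.sum_congr rfl hj, Finset.sum_const, Finset.card_range, nsmul_eq_mul]
  rw [Finset.sum_congr rfl hin, Finset.sum_const, Finset.card_range, nsmul_eq_mul]
  ring

end

end Pool.Agent.F8.NL
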