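import Pool.Agent.Lib.MP_305fdd_al.F8.NL.StmP

/-! # MP_305fdd_al, NL: pull-backs -/

set_option autoImplicit false

namespace Pool.Agent.F8.NL

open Pool.Agent.F8.CG Pool.Agent.F8.BG Pool.Agent.MP_305fdd_al Pool.Agent.Lib.MP_305fdd_al
  Pool.Agent.F8
open scoped QuadraticAlgebra ComplexConjugate Kronecker

noncomputable section

private theorem Ppb_mv {R S : Type} [CommRing R] [CommRing S] {n : ℕ} (v : R →+* S)
    (M : Matrix (Fin n) (Fin n) R) (x : Fin n → R) :
    (fun i => v (M.mulVec x i)) = (M.map v).mulVec fun i => v (x i) := by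
  funext i
  exact RingHom.map_mulVec v M x i

private theorem Ppb_inv {R S : Type} [CommRing R] [CommRing S] (f : R →+* S) (g : SL2 R) :
    (g⁻¹).val.map f = ((SLm f g)⁻¹).val := by
  rw [← map_inv]
  rfl

private theorem Ppb_cj {a b : ℤ} (t : Qf a b ℤ) :
    cjq a b Zh (jH a b t) = jH a b (cjq a b ℤ t) := by
  apply QuadraticAlgebra.ext
  · rw [cjq_apply, cjq_apply]
    simp [jH, Qfm_apply]
  · rw [cjq_apply, cjq_apply]
    simp [jH, Qfm_apply]

/-- the matrices -/
private theorem Ppb_mat {a b : ℤ} {D : Subgroup (GQ a b)} {h : D →* GH a b}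
    {C E : Matrix (Fin 2) (Fin 2) (OH a b)} (hd : HD h C E) (m : ℕ) {L : Type} [CommRing L]
    (u : OH a b →+* L) (x : D) :
    sb m (C.map u) * sb m ((SLm u (piH a b (h x)))⁻¹).val =
      sb m ((SLm (u.comp (jH a b)) x.val)⁻¹).val * sb m (C.map u) := by
  rw [← sb_mul, ← sb_mul]
  congr 1
  have h1 : (piH a b (h x⁻¹)).val * C = C * (SLm (jH a b) (x.val)⁻¹).val := by
    rw [hd.lft, Matrix.mul_assoc, Matrix.mul_assoc, hd.inv', Matrix.mul_one]
    rfl
  have h2 : ((SLm u (piH a b (h x)))⁻¹).val = (piH a b (h x⁻¹)).val.map u := by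
    rw [map_inv h, map_inv, ← map_inv]
    rfl
  have h3 : ((SLm (u.comp (jH a b)) x.val)⁻¹).val = (SLm (jH a b) (x.val)⁻¹).val.map u := by
    rw [← map_inv]
    rfl
  rw [h2, h3, ← Matrix.map_mul, ← Matrix.map_mul, h1]

private theorem Ppb_val {a b : ℤ} (m : ℕ) {L : Type} [CommRing L] (v : OH a b →+* L)
    {D : Subgroup (GQ a b)} (h : D →* GH a b) (C : Matrix (Fin 2) (Fin 2) (OH a b))
    (Z : GH a b → Fin (m + 1) → OH a b) (x : D) :
    pbk m v h C Z x.val = (sb m (C.map v)).mulVec (fun i => v (Z (h x) i)) := by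
  unfold pbk
  rw [dif_pos x.2]

/-- the crossed homomorphisms -/
private theorem Ppb_ch {a b : ℤ} {D : Subgroup (GQ a b)} {h : D →* GH a b}
    {C E : Matrix (Fin 2) (Fin 2) (OH a b)} (hd : HD h C E) (m : ℕ) {L : Type} [CommRing L]
    (v : OH a b →+* L) (κ : OH a b →+* OH a b) (C' : Matrix (Fin 2) (Fin 2) (OH a b))
    (hC' : C' = C.map κ) (f : Qf a b ℤ →+* L) (hf : (v.comp κ).comp (jH a b) = f)
    (W : Subgroup (GQ a b)) (Z : GH a b → Fin (m + 1) → OH a b)
    (hZ : CH ((sm m).comp ((SLm κ).comp (piH a b))) (clH W) Z) :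
    CH (tV m f) (hcm h W) (pbk m v h C' Z) := by
  rintro _ ⟨x, hx, rfl⟩ _ ⟨y, hy, rfl⟩
  have e0 : D.subtype x * D.subtype y = (x * y : D).val := rfl
  rw [e0]
  show pbk m v h C' Z (x * y : D).val = pbk m v h C' Z x.val + (tV m f x.val).mulVec
    (pbk m v h C' Z y.val)
  rw [Ppb_val, Ppb_val, Ppb_val, map_mul, hZ (h x) hx (h y) hy]
  have e1 : (fun i => v ((Z (h x) + (((sm m).comp ((SLm κ).comp (piH a b))) (h x)).mulVec
      (Z (h y))) i)) = (fun i => v (Z (h x) i)) +
      (((sm m).comp ((SLm κ).comp (piH a b))) (h x) |>.map v).mulVec (fun i => v (Z (h y) i)) := by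
    rw [← Ppb_mv]
    funext i
    simp only [Pi.add_apply, map_add]
  rw [e1, Matrix.mulVec_add, Matrix.mulVec_mulVec, Matrix.mulVec_mulVec]
  congr 2
  have e2 : (((sm m).comp ((SLm κ).comp (piH a b))) (h x)).map v =
      sb m ((SLm (v.comp κ) (piH a b (h x)))⁻¹).val := by
    show (sb m ((SLm κ (piH a b (h x)))⁻¹).val).map v = _
    rw [← sb_map, Ppb_inv]
    rfl
  have e3 : C'.map v = C.map (v.comp κ) := by
    rw [hC', Matrix.map_map]
    rfl
  rw [e2, e3, Ppb_mat hd, hf]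
  rfl

private theorem Ppb_om {R : Type} [CommRing R] (C : Matrix (Fin 2) (Fin 2) R) (e y : Fin 2 → R) :
    CG.om (C.mulVec e) (C.mulVec y) = C.det * CG.om e y := by
  rw [Matrix.det_fin_two]
  unfold CG.om
  simp only [Matrix.mulVec, dotProduct, Fin.sum_univ_two]
  ring

theorem p_Ppb : P_pb := by
  intro a b _ D h C E hd
  refine ⟨fun W m L _ v Z => ⟨fun hZ => ?_, fun hZ => ?_, fun e t ht => ⟨?_, ?_⟩⟩,
    fun e t ht => ?_⟩
  · refine Ppb_ch hd m v (RingHom.id _) C ?_ _ ?_ W Z ?_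
    · exact (Matrix.ext fun i j => rfl)
    · rfl
    · have e1 : (sm m).comp ((SLm (RingHom.id (OH a b))).comp (piH a b)) = tH a b m := by
        unfold tH
        congr 1
      rw [e1]
      exact hZ
  · refine Ppb_ch hd m v (cjq a b Zh) (cjM C) rfl _ ?_ W Z hZ
    apply RingHom.ext
    intro t
    show v (cjq a b Zh (jH a b t)) = v (jH a b (cjq a b ℤ t))
    rw [Ppb_cj]
  · have h1 := Ppb_val m v h C Z ⟨tv e t, ht⟩
    rw [show (⟨tv e t, ht⟩ : D).val = tv e t from rfl] at h1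
    rw [h1, evm_sb, ← Ppb_mv, evm_map]
  · have h1 := Ppb_val m v h (cjM C) Z ⟨tv e t, ht⟩
    rw [show (⟨tv e t, ht⟩ : D).val = tv e t from rfl] at h1
    have h2 : ((cjM C).map v).mulVec (fun i => v (cjq a b Zh (eH e i))) =
        fun i => v (cjq a b Zh (C.mulVec (eH e) i)) := by
      have h3 := Ppb_mv (v.comp (cjq a b Zh)) C (eH e)
      exact h3.symm
    rw [h1, evm_sb, h2]
    exact evm_map v m (Z (h ⟨tv e t, ht⟩)) (fun i => cjq a b Zh (C.mulVec (eH e) i))
  · have h1 : (SLm (jH a b) (tv e t)).val = (tv (eH e) (jH a b t)).val := by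
      show (tv e t).val.map (jH a b) = _
      refine Matrix.ext fun i j => ?_
      fin_cases i <;> fin_cases j <;>
        simp [tv, AB.mx, eH, Matrix.map_apply]
    have h2 : ∀ y : Fin 2 → OH a b, (SLm (jH a b) (tv e t)).val.mulVec y =
        y + (jH a b t * CG.om (eH e) y) • eH e := by
      intro y
      rw [h1]
      exact (p_Vtv (OH a b) (eH e) 0 (jH a b t)).1 y
    have h3 : (piH a b (h ⟨tv e t, ht⟩)).val = C * (SLm (jH a b) (tv e t)).val * E := hd.lft _
    have h4 : CG.om (eH e) (eH e) = 0 := by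
      unfold CG.om
      ring
    refine ⟨?_, fun x => ?_⟩
    · rw [h3, Matrix.mulVec_mulVec, Matrix.mul_assoc, hd.inv', Matrix.mul_one,
        ← Matrix.mulVec_mulVec, h2, h4, mul_zero, zero_smul, add_zero]
    · have h5 : C.mulVec (E.mulVec x) = x := by
        rw [Matrix.mulVec_mulVec, hd.inv, Matrix.one_mulVec]
      have h6 : C.det * CG.om (eH e) (E.mulVec x) = CG.om (C.mulVec (eH e)) x := by
        rw [← Ppb_om, h5]
      rw [h3, ← Matrix.mulVec_mulVec, ← Matrix.mulVec_mulVec, h2, Matrix.mulVec_add,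
        Matrix.mulVec_smul, h5, smul_add, smul_smul, ← h6]
      congr 2
      ring

end

end Pool.Agent.F8.NL
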