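import Pool.Agent.Lib.MP_305fdd_al.F8.NL.StmR

set_option autoImplicit false

namespace Pool.Agent.F8.NL

open Pool.Agent.F8.CG Pool.Agent.F8.BG Pool.Agent.MP_305fdd_al Pool.Agent.Lib.MP_305fdd_al
  Pool.Agent.F8
open scoped QuadraticAlgebra ComplexConjugate Kronecker

noncomputable section

private theorem Rstr_mv {R : Type} [CommRing R] (u v : SL2 R) (e : Fin 2 → R) :
    (u * v).val.mulVec e = u.val.mulVec (v.val.mulVec e) := by
  rw [Matrix.mulVec_mulVec, ← Matrix.SpecialLinearGroup.coe_mul]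

private theorem Rstr_eU {R : Type} [CommRing R] (r : R) :
    (eU r : SL2 R).val.mulVec ![1, 0] = ![1, 0] := by
  show (!![1, r; 0, 1] : Matrix (Fin 2) (Fin 2) R).mulVec ![1, 0] = ![1, 0]
  funext i
  fin_cases i <;> simp [Matrix.mulVec, dotProduct, Fin.sum_univ_two]

private theorem Rstr_inv {R : Type} [CommRing R] (g : SL2 R) (x y : Fin 2 → R)
    (h : g.val.mulVec x = g.val.mulVec y) : x = y := by
  have h1 := congrArg (fun z => g⁻¹.val.mulVec z) h
  simp only [← Rstr_mv, inv_mul_cancel] at h1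
  rwa [show ((1 : SL2 R).val) = 1 from rfl, Matrix.one_mulVec, Matrix.one_mulVec] at h1

private theorem Rstr_eH1 {a b : ℤ} : eH (![1, 0] : Fin 2 → Qf a b ℤ) = ![1, 0] := by
  funext i
  fin_cases i
  · show jH a b 1 = 1
    exact map_one _
  · show jH a b 0 = 0
    exact map_zero _

private theorem Rstr_case {a b : ℤ} (ho : C_o) (hneg : b ^ 2 + 4 * a < 0)
    (δ₀ : Qf a b ℤ) (f : Fin 2 → Qf a b ℤ) (s' : OH a b) (γ₁ : GQ a b)
    (h10 : γ₁.val 1 0 ≠ 0)
    (hE : (dA (jH a b δ₀)).mulVec (eH f) =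
      (eU s' : SL2 (OH a b)).val.mulVec ((SLm (jH a b) γ₁).val.mulVec ![1, 0])) :
    ∃ s₀ : Qf a b ℤ, s' = jH a b s₀ ∧ colG (eU s₀ * γ₁) 0 = (dA δ₀).mulVec f := by
  obtain ⟨hinj, -, hdiv, -, -⟩ := ho a b hneg
  have e0 := congrFun hE 0
  have e1 := congrFun hE 1
  have k0 : jH a b (f 0) = jH a b (γ₁.val 0 0) + s' * jH a b (γ₁.val 1 0) := by
    have l1 : (dA (jH a b δ₀)).mulVec (eH f) 0 = jH a b (f 0) := by
      simp [dA, Matrix.mulVec, dotProduct, Fin.sum_univ_two, eH]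
    have l2 : (eU s' : SL2 (OH a b)).val.mulVec ((SLm (jH a b) γ₁).val.mulVec ![1, 0]) 0 =
        jH a b (γ₁.val 0 0) + s' * jH a b (γ₁.val 1 0) := by
      show (!![1, s'; 0, 1] : Matrix (Fin 2) (Fin 2) (OH a b)).mulVec
        ((γ₁.val.map (jH a b)).mulVec ![1, 0]) 0 = _
      simp [Matrix.mulVec, dotProduct, Fin.sum_univ_two]
    rw [← l1, ← l2, e0]
  have k1 : jH a b δ₀ * jH a b (f 1) = jH a b (γ₁.val 1 0) := by
    have l1 : (dA (jH a b δ₀)).mulVec (eH f) 1 = jH a b δ₀ * jH a b (f 1) := by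
      simp [dA, Matrix.mulVec, dotProduct, Fin.sum_univ_two, eH]
    have l2 : (eU s' : SL2 (OH a b)).val.mulVec ((SLm (jH a b) γ₁).val.mulVec ![1, 0]) 1 =
        jH a b (γ₁.val 1 0) := by
      show (!![1, s'; 0, 1] : Matrix (Fin 2) (Fin 2) (OH a b)).mulVec
        ((γ₁.val.map (jH a b)).mulVec ![1, 0]) 1 = _
      simp [Matrix.mulVec, dotProduct, Fin.sum_univ_two]
    rw [← l1, ← l2, e1]
  have m1 : δ₀ * f 1 = γ₁.val 1 0 := by
    apply hinj
    rw [map_mul, k1]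
  have k2 : jH a b (γ₁.val 1 0) * s' = jH a b (f 0 - γ₁.val 0 0) := by
    rw [map_sub, k0]
    ring
  obtain ⟨s₀, hs, hs'⟩ := hdiv _ _ _ h10 k2
  refine ⟨s₀, hs', ?_⟩
  funext i
  fin_cases i
  · have l1 : colG (eU s₀ * γ₁) 0 0 = γ₁.val 0 0 + s₀ * γ₁.val 1 0 := by
      show ((!![1, s₀; 0, 1] : Matrix (Fin 2) (Fin 2) (Qf a b ℤ)) * γ₁.val) 0 0 = _
      simp [Matrix.mul_apply, Fin.sum_univ_two]
    have l2 : (dA δ₀).mulVec f 0 = f 0 := by
      simp [dA, Matrix.mulVec, dotProduct, Fin.sum_univ_two]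
    show colG (eU s₀ * γ₁) 0 0 = (dA δ₀).mulVec f 0
    rw [l1, l2]
    linear_combination -hs
  · have l1 : colG (eU s₀ * γ₁) 0 1 = γ₁.val 1 0 := by
      show ((!![1, s₀; 0, 1] : Matrix (Fin 2) (Fin 2) (Qf a b ℤ)) * γ₁.val) 1 0 = _
      simp [Matrix.mul_apply, Fin.sum_univ_two]
    have l2 : (dA δ₀).mulVec f 1 = δ₀ * f 1 := by
      simp [dA, Matrix.mulVec, dotProduct, Fin.sum_univ_two]
    show colG (eU s₀ * γ₁) 0 1 = (dA δ₀).mulVec f 1
    rw [l1, l2, m1]

/-- PIECE NL Rstr -/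
theorem p_Rstr (hone : R_one) (hk : M_k) (hbor : C_bor) (hu : C_u) (ho : C_o) : R_str := by
  intro a b M₀ m H D hD h C E hC δ₀ hδ hdet hex
  have hneg := H.neg
  obtain ⟨hinj, -, -, -, -⟩ := ho a b hneg
  obtain ⟨hadd, hjU, hpi, -, -, hconj⟩ := hu a b
  obtain ⟨k₁, hK₁⟩ := hex
  obtain ⟨δ₁, hδ₁⟩ := hδ.exists_right_inv
  have hδH : jH a b δ₀ * jH a b δ₁ = 1 := by
    rw [← map_mul, hδ₁, map_one]
  have hU0 : (uH 0 : GH a b) = 1 := by
    have h1 := hadd 0 0
    rw [add_zero] at h1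
    exact left_eq_mul.1 h1
  -- the first column
  set Q : Matrix (Fin 2) (Fin 2) (OH a b) := (piH a b k₁)⁻¹.val * C with hQ
  have hPQ : (piH a b k₁).val * Q = C := by
    rw [hQ, ← Matrix.mul_assoc, ← Matrix.SpecialLinearGroup.coe_mul, mul_inv_cancel]
    exact Matrix.one_mul C
  have hQ1 : Q.mulVec ![1, 0] = ![1, 0] := by
    have h1 := hK₁.vec
    rw [one_smul, Rstr_eH1, ← hPQ, ← Matrix.mulVec_mulVec] at h1
    exact (Rstr_inv _ _ _ h1).symm
  have hQ00 : Q 0 0 = 1 := by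
    have := congrFun hQ1 0
    simpa [Matrix.mulVec, dotProduct, Fin.sum_univ_two] using this
  have hQ10 : Q 1 0 = 0 := by
    have := congrFun hQ1 1
    simpa [Matrix.mulVec, dotProduct, Fin.sum_univ_two] using this
  have hQ11 : Q 1 1 = jH a b δ₀ := by
    have h1 : Q.det = jH a b δ₀ := by
      have h2 := congrArg Matrix.det hPQ
      rwa [Matrix.det_mul, show (piH a b k₁).val.det = 1 from (piH a b k₁).2, one_mul,
        hdet] at h2
    rw [Matrix.det_fin_two, hQ00, hQ10] at h1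
    linear_combination h1
  set b₀ : OH a b := Q 0 1 * jH a b δ₁ with hb₀
  have hQe : Q = (eU b₀ : SL2 (OH a b)).val * dA (jH a b δ₀) := by
    show Q = (!![1, b₀; 0, 1] : Matrix (Fin 2) (Fin 2) (OH a b)) * !![1, 0; 0, jH a b δ₀]
    funext i j
    fin_cases i <;> fin_cases j
    · show Q 0 0 = _
      simp [Matrix.mul_apply, Fin.sum_univ_two, hQ00]
    · show Q 0 1 = _
      simp only [Matrix.mul_apply, Fin.sum_univ_two]
      show Q 0 1 = 1 * 0 + b₀ * jH a b δ₀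
      rw [hb₀]
      linear_combination (-Q 0 1) * hδH
    · show Q 1 0 = _
      simp [Matrix.mul_apply, Fin.sum_univ_two, hQ10]
    · show Q 1 1 = _
      simp [Matrix.mul_apply, Fin.sum_univ_two, hQ11]
  have hC' : C = (piH a b (k₁ * uH b₀)).val * dA (jH a b δ₀) := by
    rw [map_mul, hpi, Matrix.SpecialLinearGroup.coe_mul, Matrix.mul_assoc, ← hQe, hPQ]
  refine ⟨k₁ * uH b₀, hC', fun f hf k hKf => ?_⟩
  by_cases hf1 : f 1 = 0
  · -- `f` is a multiple of the first vector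
    obtain ⟨g, hg⟩ := id hf
    have hg0 : g.val 0 0 = f 0 := congrFun hg 0
    have hg1 : g.val 1 0 = 0 := (congrFun hg 1).trans hf1
    have huv : g.val 0 0 * g.val 1 1 = 1 := by
      have h1 := g.2
      rw [Matrix.det_fin_two, hg1] at h1
      linear_combination h1
    have hfu : g.val 0 0 • (![1, 0] : Fin 2 → Qf a b ℤ) = f := by
      funext i
      fin_cases i
      · show g.val 0 0 * 1 = f 0
        rw [mul_one, hg0]
      · show g.val 0 0 * 0 = f 1
        rw [mul_zero, hf1]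
    have hP1 : Prm (![1, 0] : Fin 2 → Qf a b ℤ) := by
      refine ⟨1, ?_⟩
      funext i
      fin_cases i
      · show (1 : Matrix (Fin 2) (Fin 2) (Qf a b ℤ)) 0 0 = 1
        exact Matrix.one_apply_eq 0
      · show (1 : Matrix (Fin 2) (Fin 2) (Qf a b ℤ)) 1 0 = 0
        exact Matrix.one_apply_ne (by decide)
    have hKu := (hk a b M₀ m H D hD h C E hC _ k₁ 1 hP1 hK₁).2.1 _ _ huv
    rw [hfu] at hKu
    obtain ⟨u', v', hu', r, hkr, hε⟩ :=
      (hk a b M₀ m H D hD h C E hC f _ 1 hf hKu).2.2.2 k 1 hKf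
    have hu1 : u' = 1 := by
      apply hinj
      rw [map_one]
      rw [mul_one] at hε
      exact hε.symm
    have hv1 : v' = 1 := by
      rw [hu1, one_mul] at hu'
      exact hu'
    have hd1 : dg u' v' hu' = 1 := by
      apply Subtype.ext
      show (!![u', 0; 0, v'] : Matrix (Fin 2) (Fin 2) (Qf a b ℤ)) = 1
      rw [hu1, hv1]
      exact Matrix.one_fin_two.symm
    have huvH : jH a b (g.val 0 0) * jH a b (g.val 1 1) = 1 := by
      rw [← map_mul, huv, map_one]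
    have hcc := hconj _ _ huv (jH a b (g.val 1 1) ^ 2 * (-b₀))
    have hs : jH a b (g.val 0 0) ^ 2 * (jH a b (g.val 1 1) ^ 2 * (-b₀)) = -b₀ := by
      linear_combination (jH a b (g.val 0 0) * jH a b (g.val 1 1) + 1) * (-b₀) * huvH
    rw [hs] at hcc
    refine ⟨dg _ _ huv, jH a b (g.val 1 1) ^ 2 * (-b₀) + r, ?_, ?_⟩
    · funext i
      fin_cases i
      · show g.val 0 0 = (dA δ₀).mulVec f 0
        rw [hg0]
        simp [dA, Matrix.mulVec, dotProduct, Fin.sum_univ_two]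
      · show (0 : Qf a b ℤ) = (dA δ₀).mulVec f 1
        simp [dA, Matrix.mulVec, dotProduct, Fin.sum_univ_two, hf1]
    · have h2 : uH b₀ * (iH a b (dg _ _ huv) * uH (jH a b (g.val 1 1) ^ 2 * (-b₀)) *
          (iH a b (dg _ _ huv))⁻¹) = 1 := by
        rw [hcc, ← hadd, add_neg_cancel, hU0]
      rw [hkr, hd1, map_one, one_mul, hadd]
      calc k₁ * iH a b (dg _ _ huv) * uH r
          = k₁ * (uH b₀ * (iH a b (dg _ _ huv) * uH (jH a b (g.val 1 1) ^ 2 * (-b₀)) *
            (iH a b (dg _ _ huv))⁻¹)) * iH a b (dg _ _ huv) * uH r := by rw [h2, mul_one]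
        _ = _ := by group
  · -- the general case
    have hP1 : Prm (![1, 0] : Fin 2 → Qf a b ℤ) := by
      refine ⟨1, ?_⟩
      funext i
      fin_cases i
      · show (1 : Matrix (Fin 2) (Fin 2) (Qf a b ℤ)) 0 0 = 1
        exact Matrix.one_apply_eq 0
      · show (1 : Matrix (Fin 2) (Fin 2) (Qf a b ℤ)) 1 0 = 0
        exact Matrix.one_apply_ne (by decide)
    have hom : CG.om (![1, 0] : Fin 2 → Qf a b ℤ) f ≠ 0 := by
      have : CG.om (![1, 0] : Fin 2 → Qf a b ℤ) f = f 1 := by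
        show 1 * f 1 - 0 * f 0 = f 1
        ring
      rw [this]
      exact hf1
    obtain ⟨s, γ, hγ, b', hb', hkk⟩ :=
      hone a b M₀ m H D hD h C E hC ![1, 0] f k₁ k 1 1 hP1 hf hom hK₁ hKf
    obtain ⟨u, v, huv, r, hb⟩ := (hbor a b hneg _).1 hb'
    have hk2 : k = (k₁ * uH b₀) * (uH (s - b₀) * iH a b (γ * dg u v huv) * uH r) := by
      have h1 : uH b₀ * uH (s - b₀) = (uH s : GH a b) := by
        rw [← hadd, add_sub_cancel]
      rw [hkk, hb, map_mul, ← h1]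
      group
    have h10 : (γ * dg u v huv).val 1 0 ≠ 0 := by
      have h1 : (γ * dg u v huv).val 1 0 = γ.val 1 0 * u := by
        show (γ.val * !![u, 0; 0, v]) 1 0 = _
        simp [Matrix.mul_apply, Fin.sum_univ_two]
      rw [h1]
      intro h2
      apply hγ
      linear_combination v * h2 - γ.val 1 0 * huv
    have hE : (dA (jH a b δ₀)).mulVec (eH f) = (eU (s - b₀) : SL2 (OH a b)).val.mulVec
        ((SLm (jH a b) (γ * dg u v huv)).val.mulVec ![1, 0]) := by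
      have h1 := hKf.vec
      have h3 : piH a b k = piH a b (k₁ * uH b₀) * (eU (s - b₀) *
          SLm (jH a b) (γ * dg u v huv) * eU r) := by
        rw [← hpi (s - b₀), ← hpi r, ← piH_iH, ← map_mul, ← map_mul, ← map_mul]
        exact congrArg _ hk2
      have h4 : C.mulVec (eH f) = (piH a b (k₁ * uH b₀)).val.mulVec
          ((dA (jH a b δ₀)).mulVec (eH f)) := by
        rw [Matrix.mulVec_mulVec, ← hC']
      rw [one_smul, h3, Rstr_mv, Rstr_mv, Rstr_mv, Rstr_eU, h4] at h1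
      exact (Rstr_inv _ _ _ h1).symm
    obtain ⟨s₀, hs₀, hcol⟩ := Rstr_case ho hneg δ₀ f _ _ h10 hE
    refine ⟨eU s₀ * (γ * dg u v huv), r, hcol, ?_⟩
    rw [hk2, hs₀, hjU, map_mul (iH a b) (eU s₀)]
    group

end

end Pool.Agent.F8.NL
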