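import Pool.Agent.Lib.MP_305fdd_al.F8.NL.StmT

/-!
# MP_305fdd_al, all lattices (project NL): the torus lemma `T_to` for forms of bidegree `(m, n)`, `n ≤ 1`
-/

set_option autoImplicit false

namespace Pool.Agent.F8.NL

open Pool.Agent.F8.CG Pool.Agent.F8.BG Pool.Agent.MP_305fdd_al Pool.Agent.Lib.MP_305fdd_al
  Pool.Agent.F8
open scoped QuadraticAlgebra ComplexConjugate

noncomputable section

/-- the polynomial in `x` at `conj x ^ j` -/
private def Tto_pol (m n : ℕ) (c : Fin (m + 1) × Fin (n + 1) → ℂ) (j : Fin (n + 1)) :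
    Polynomial ℂ := ∑ i : Fin (m + 1), Polynomial.C (c (i, j)) * Polynomial.X ^ (i : ℕ)

private theorem Tto_pol_deg (m n : ℕ) (c : Fin (m + 1) × Fin (n + 1) → ℂ) (j : Fin (n + 1)) :
    (Tto_pol m n c j).natDegree ≤ m := by
  unfold Tto_pol
  refine Polynomial.natDegree_sum_le_of_forall_le _ _ fun i _ => ?_
  have h := i.2
  exact (Polynomial.natDegree_C_mul_X_pow_le _ _).trans (by omega)

private theorem Tto_pol_eval (m n : ℕ) (c : Fin (m + 1) × Fin (n + 1) → ℂ) (j : Fin (n + 1))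
    (x : ℂ) : (Tto_pol m n c j).eval x = ∑ i : Fin (m + 1), c (i, j) * x ^ (i : ℕ) := by
  unfold Tto_pol
  rw [Polynomial.eval_finsetSum]
  exact Finset.sum_congr rfl fun i _ => by simp

private theorem Tto_ev (m n : ℕ) (c : Fin (m + 1) × Fin (n + 1) → ℂ) (x : ℂ) :
    ev1 m n c x = ∑ j : Fin (n + 1), conj x ^ (j : ℕ) * (Tto_pol m n c j).eval x := by
  rw [ev1_eq, Fintype.sum_prod_type_right]
  refine Finset.sum_congr rfl fun j _ => ?_
  rw [Tto_pol_eval, Finset.mul_sum]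
  exact Finset.sum_congr rfl fun i _ => by ring

private theorem Tto_ev0 (m : ℕ) (c : Fin (m + 1) × Fin (0 + 1) → ℂ) (x : ℂ) :
    ev1 m 0 c x = (Tto_pol m 0 c 0).eval x := by
  rw [Tto_ev]
  simp

private theorem Tto_ev1 (m : ℕ) (c : Fin (m + 1) × Fin (1 + 1) → ℂ) (x : ℂ) :
    ev1 m 1 c x = (Tto_pol m 1 c 0).eval x + conj x * (Tto_pol m 1 c 1).eval x := by
  rw [Tto_ev, Fin.sum_univ_two]
  simp

/-- the sum of the coefficients up to `m` -/
private theorem Tto_val (m : ℕ) (V : Polynomial ℂ) (hV : V.natDegree ≤ m + 1) (x : ℂ) :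
    ∑ i : Fin (m + 1), V.coeff i * x ^ (i : ℕ) + V.coeff (m + 1) * x ^ (m + 1) = V.eval x := by
  rw [Polynomial.eval_eq_sum_range' (show V.natDegree < m + 1 + 1 by omega),
    Finset.sum_range_succ, Finset.sum_range]

private theorem Tto_coeff (V : Polynomial ℂ) (N : ℕ) (hV : V.natDegree ≤ N + 1) (τ : ℂ) :
    (V.comp (Polynomial.X - Polynomial.C τ)).coeff N =
      V.coeff N - (N + 1) * τ * V.coeff (N + 1) := by
  have h := V.as_sum_range_C_mul_X_pow' (show V.natDegree < N + 1 + 1 by omega)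
  have hX : (Polynomial.X - Polynomial.C τ : Polynomial ℂ) =
      Polynomial.X + Polynomial.C (-τ) := by
    rw [Polynomial.C_neg, sub_eq_add_neg]
  have h1 : V.comp (Polynomial.X - Polynomial.C τ) = ∑ i ∈ Finset.range (N + 1 + 1),
      Polynomial.C (V.coeff i) * (Polynomial.X + Polynomial.C (-τ)) ^ i := by
    rw [hX, Polynomial.comp, Polynomial.eval₂_eq_sum_range' _
      (show V.natDegree < N + 1 + 1 by omega)]
  rw [h1, Polynomial.finsetSum_coeff, Finset.sum_range_succ, Finset.sum_range_succ,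
    Finset.sum_eq_zero, zero_add]
  · rw [Polynomial.coeff_C_mul, Polynomial.coeff_C_mul, Polynomial.coeff_X_add_C_pow,
      Polynomial.coeff_X_add_C_pow]
    simp
    ring
  · intro i hi
    rw [Polynomial.coeff_C_mul, Polynomial.coeff_X_add_C_pow,
      Nat.choose_eq_zero_of_lt (Finset.mem_range.1 hi)]
    simp

private theorem Tto_le (V : Polynomial ℂ) (N : ℕ) (hV : V.natDegree ≤ N + 1)
    (h : V.coeff (N + 1) = 0) : V.natDegree ≤ N := by
  rw [Polynomial.natDegree_le_iff_coeff_eq_zero]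
  intro k hk
  rcases Nat.lt_or_ge (N + 1) k with h1 | h1
  · exact Polynomial.coeff_eq_zero_of_natDegree_lt (by omega)
  · have : k = N + 1 := by omega
    rw [this]
    exact h

private theorem Tto_comp (V : Polynomial ℂ) (s t : ℂ) :
    (V.comp (Polynomial.X - Polynomial.C t)).comp (Polynomial.X - Polynomial.C s) =
      V.comp (Polynomial.X - Polynomial.C (s + t)) := by
  rw [Polynomial.comp_assoc]
  congr 1
  simp
  ring

private theorem Tto_n0 (hto0 : T_to0) (a b : ℤ) (hab : b ^ 2 + 4 * a < 0) (m : ℕ) (c₀ : ℂ)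
    (hc : c₀ ≠ 0) (ζ : Qf a b ℤ → Fin (m + 1) × Fin (0 + 1) → ℂ)
    (hζ : ∀ (s t : Qf a b ℤ) (x : ℂ), ev1 m 0 (ζ (s + t)) x =
      ev1 m 0 (ζ s) x + ev1 m 0 (ζ t) (x - c₀ * iC a b s)) :
    ∃ (c : Fin (m + 1) × Fin (0 + 1) → ℂ) (B R : ℂ), ∀ (t : Qf a b ℤ) (x : ℂ),
      ev1 m 0 (ζ t) x = Gf m 0 c B R x - Gf m 0 c B R (x - c₀ * iC a b t) := by
  obtain ⟨V, R, hV, hVt⟩ := hto0 a b hab m c₀ hc (fun t => Tto_pol m 0 (ζ t) 0)
    (fun t => Tto_pol_deg m 0 (ζ t) 0) (by
      intro s t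
      apply Polynomial.funext
      intro x
      have h := hζ s t x
      rw [Tto_ev0, Tto_ev0, Tto_ev0] at h
      simp only [Polynomial.eval_add, Polynomial.eval_comp, Polynomial.eval_sub,
        Polynomial.eval_X, Polynomial.eval_C]
      exact h)
  have hG : ∀ x, Gf m 0 (fun p => V.coeff p.1) (V.coeff (m + 1)) R x =
      V.eval x + R * conj x := by
    intro x
    unfold Gf
    rw [Tto_ev0, Tto_pol_eval, Tto_val m V hV x, zero_add, pow_one]
  refine ⟨fun p => V.coeff p.1, V.coeff (m + 1), R, fun t x => ?_⟩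
  rw [hG, hG, Tto_ev0]
  have h := congrArg (Polynomial.eval x) (hVt t)
  simp only [Polynomial.eval_add, Polynomial.eval_comp, Polynomial.eval_sub,
    Polynomial.eval_X, Polynomial.eval_C] at h
  rw [h, map_sub]
  ring

private theorem Tto_n1 (hind : T_ind) (hto0 : T_to0) (a b : ℤ) (hab : b ^ 2 + 4 * a < 0) (m : ℕ)
    (c₀ : ℂ) (hc : c₀ ≠ 0) (ζ : Qf a b ℤ → Fin (m + 1) × Fin (1 + 1) → ℂ)
    (hζ : ∀ (s t : Qf a b ℤ) (x : ℂ), ev1 m 1 (ζ (s + t)) x =
      ev1 m 1 (ζ s) x + ev1 m 1 (ζ t) (x - c₀ * iC a b s)) :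
    ∃ (c : Fin (m + 1) × Fin (1 + 1) → ℂ) (B R : ℂ), ∀ (t : Qf a b ℤ) (x : ℂ),
      ev1 m 1 (ζ t) x = Gf m 1 c B R x - Gf m 1 c B R (x - c₀ * iC a b t) := by
  -- the two polynomials
  have hD : ∀ s t : Qf a b ℤ,
      Tto_pol m 1 (ζ (s + t)) 0 = Tto_pol m 1 (ζ s) 0 +
        (Tto_pol m 1 (ζ t) 0).comp (Polynomial.X - Polynomial.C (c₀ * iC a b s)) -
        Polynomial.C (conj (c₀ * iC a b s)) *
          (Tto_pol m 1 (ζ t) 1).comp (Polynomial.X - Polynomial.C (c₀ * iC a b s)) ∧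
      Tto_pol m 1 (ζ (s + t)) 1 = Tto_pol m 1 (ζ s) 1 +
        (Tto_pol m 1 (ζ t) 1).comp (Polynomial.X - Polynomial.C (c₀ * iC a b s)) := by
    intro s t
    obtain ⟨h0, h1, -⟩ := hind a b hab
      (Tto_pol m 1 (ζ (s + t)) 0 - Tto_pol m 1 (ζ s) 0 -
        (Tto_pol m 1 (ζ t) 0).comp (Polynomial.X - Polynomial.C (c₀ * iC a b s)) +
        Polynomial.C (conj (c₀ * iC a b s)) *
          (Tto_pol m 1 (ζ t) 1).comp (Polynomial.X - Polynomial.C (c₀ * iC a b s)))
      (Tto_pol m 1 (ζ (s + t)) 1 - Tto_pol m 1 (ζ s) 1 -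
        (Tto_pol m 1 (ζ t) 1).comp (Polynomial.X - Polynomial.C (c₀ * iC a b s)))
      0 1 one_ne_zero ∅ (by
        intro u _
        have h := hζ s t (1 * iC a b u)
        rw [Tto_ev1, Tto_ev1, Tto_ev1, map_sub] at h
        simp only [Polynomial.eval_add, Polynomial.eval_comp, Polynomial.eval_sub,
          Polynomial.eval_mul, Polynomial.eval_X, Polynomial.eval_C]
        linear_combination h)
    constructor
    · linear_combination h0
    · linear_combination h1
  obtain ⟨V₁, R₁, hV₁, hV₁t⟩ := hto0 a b hab m c₀ hc (fun t => Tto_pol m 1 (ζ t) 1)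
    (fun t => Tto_pol_deg m 1 (ζ t) 1) (fun s t => (hD s t).2)
  have hdeg : ∀ (V : Polynomial ℂ) (τ : ℂ),
      (V.comp (Polynomial.X - Polynomial.C τ)).natDegree ≤ V.natDegree := by
    intro V τ
    rw [Polynomial.natDegree_comp, Polynomial.natDegree_X_sub_C, mul_one]
  obtain ⟨V₀, R₀, hV₀, hV₀t⟩ := hto0 a b hab (m + 1) c₀ hc
    (fun t => Tto_pol m 1 (ζ t) 0 -
      Polynomial.C (conj (c₀ * iC a b t)) *
        V₁.comp (Polynomial.X - Polynomial.C (c₀ * iC a b t)) +
      Polynomial.C (R₁ / 2 * conj (c₀ * iC a b t) ^ 2)) (by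
      intro t
      refine (Polynomial.natDegree_add_le _ _).trans (max_le ?_ ?_)
      · refine (Polynomial.natDegree_sub_le _ _).trans (max_le ?_ ?_)
        · exact (Tto_pol_deg m 1 (ζ t) 0).trans (Nat.le_succ m)
        · exact (Polynomial.natDegree_C_mul_le _ _).trans ((hdeg _ _).trans hV₁)
      · rw [Polynomial.natDegree_C]
        exact Nat.zero_le _) (by
      intro s t
      have e1 : iC a b (s + t) = iC a b s + iC a b t := map_add _ _ _
      apply Polynomial.funext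
      intro x
      have h0 := congrArg (Polynomial.eval x) (hD s t).1
      have h1 := congrArg (Polynomial.eval (x - c₀ * iC a b s)) (hV₁t t)
      simp only [Polynomial.eval_add, Polynomial.eval_comp, Polynomial.eval_sub,
        Polynomial.eval_mul, Polynomial.eval_X, Polynomial.eval_C] at h0 h1 ⊢
      have e2 : x - c₀ * iC a b (s + t) = x - c₀ * iC a b s - c₀ * iC a b t := by
        rw [e1]
        ring
      have e3 : conj (c₀ * iC a b (s + t)) = conj (c₀ * iC a b s) + conj (c₀ * iC a b t) := by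
        rw [e1, mul_add, map_add]
      rw [e2, e3]
      linear_combination h0 - conj (c₀ * iC a b s) * h1)
  -- the top coefficients are zero
  have hco : ∀ t : Qf a b ℤ, ((m + 2) * V₀.coeff (m + 2) * c₀) * iC a b t +
      (V₁.coeff (m + 1) * conj c₀) * conj (iC a b t) = 0 := by
    intro t
    have h := congrArg (fun q => Polynomial.coeff q (m + 1)) (hV₀t t)
    simp only [Polynomial.coeff_add, Polynomial.coeff_sub, Polynomial.coeff_C_mul] at h
    rw [Tto_coeff V₀ (m + 1) hV₀, Tto_coeff V₁ (m + 1) (hV₁.trans (Nat.le_succ _)),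
      Polynomial.coeff_C_of_ne_zero (Nat.succ_ne_zero m), Polynomial.coeff_C_of_ne_zero
        (Nat.succ_ne_zero m), Polynomial.coeff_eq_zero_of_natDegree_lt
        (show (Tto_pol m 1 (ζ t) 0).natDegree < m + 1 from
          Nat.lt_succ_of_le (Tto_pol_deg m 1 (ζ t) 0)),
      Polynomial.coeff_eq_zero_of_natDegree_lt
        (show V₁.natDegree < m + 1 + 1 from Nat.lt_succ_of_le hV₁), map_mul] at h
    push_cast at h
    linear_combination -h
  obtain ⟨k0, k1⟩ := cj_ind hab hco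
  have k0' : V₀.coeff (m + 2) = 0 := by
    have h2 : ((m : ℂ) + 2) ≠ 0 := by
      exact_mod_cast Nat.succ_ne_zero (m + 1)
    exact (mul_eq_zero.1 ((mul_eq_zero.1 k0).resolve_right hc)).resolve_left h2
  have k1' : V₁.coeff (m + 1) = 0 :=
    (mul_eq_zero.1 k1).resolve_right ((map_ne_zero _).2 hc)
  have hV₁' : V₁.natDegree ≤ m := Tto_le V₁ m hV₁ k1'
  have hV₀' : V₀.natDegree ≤ m + 1 := Tto_le V₀ (m + 1) hV₀ k0'
  have hG : ∀ x, Gf m 1 (fun p => if p.2 = 0 then V₀.coeff p.1 else V₁.coeff p.1 +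
      if (p.1 : ℕ) = 0 then R₀ else 0) (V₀.coeff (m + 1)) (R₁ / 2) x =
      V₀.eval x + conj x * (V₁.eval x + R₀) + R₁ / 2 * conj x ^ 2 := by
    intro x
    unfold Gf
    have h1 := Tto_val m V₀ hV₀' x
    have h2 := Tto_val m V₁ (hV₁'.trans (Nat.le_succ m)) x
    have h3 : ∑ i : Fin (m + 1), (V₁.coeff i + if (i : ℕ) = 0 then R₀ else 0) * x ^ (i : ℕ) =
        ∑ i : Fin (m + 1), V₁.coeff i * x ^ (i : ℕ) + R₀ := by
      simp only [add_mul, Finset.sum_add_distrib]
      congr 1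
      rw [Finset.sum_eq_single (0 : Fin (m + 1))]
      · simp
      · intro i _ hi
        have : (i : ℕ) ≠ 0 := fun h => hi (Fin.ext h)
        simp [this]
      · intro h
        exact absurd (Finset.mem_univ _) h
    rw [k1', zero_mul, add_zero] at h2
    rw [Tto_ev1, Tto_pol_eval, Tto_pol_eval]
    simp only [if_true, one_ne_zero, if_false]
    rw [h3, h2]
    linear_combination h1
  refine ⟨fun p => if p.2 = 0 then V₀.coeff p.1 else V₁.coeff p.1 +
    if (p.1 : ℕ) = 0 then R₀ else 0, V₀.coeff (m + 1), R₁ / 2, fun t x => ?_⟩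
  rw [hG, hG, Tto_ev1]
  have h0 := congrArg (Polynomial.eval x) (hV₀t t)
  have h1 := congrArg (Polynomial.eval x) (hV₁t t)
  simp only [Polynomial.eval_add, Polynomial.eval_comp, Polynomial.eval_sub,
    Polynomial.eval_mul, Polynomial.eval_X, Polynomial.eval_C] at h0 h1
  rw [map_sub]
  linear_combination h0 + conj x * h1

theorem p_Tto (hind : T_ind) (hto0 : T_to0) : T_to := by
  intro a b hab m n hn _ c₀ hc ζ hζ
  rcases Nat.le_one_iff_eq_zero_or_eq_one.1 hn with rfl | rfl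
  · exact Tto_n0 hto0 a b hab m c₀ hc ζ hζ
  · exact Tto_n1 hind hto0 a b hab m c₀ hc ζ hζ

end

end Pool.Agent.F8.NL
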