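import Pool.Agent.Lib.MP_305fdd_al.F8.NL.StmT

/-!
# [NL T vt] the vanishing theorem
-/

set_option autoImplicit false

namespace Pool.Agent.F8.NL

open Pool.Agent.F8.CG Pool.Agent.F8.BG Pool.Agent.MP_305fdd_al Pool.Agent.Lib.MP_305fdd_al
  Pool.Agent.F8
open scoped QuadraticAlgebra ComplexConjugate

private theorem Tvt_col {R : Type} [CommRing R] (g : SL2 R) :
    g.val.mulVec ![1, 0] = colG g 0 := by
  funext i
  simp [Matrix.mulVec, dotProduct, Fin.sum_univ_two, colG]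

private theorem Tvt_conj {R : Type} [CommRing R] (g : SL2 R) (t : R) :
    g * eU t * g⁻¹ = tv (colG g 0) t := by
  rw [eU_eq_tv, ← Tvt_col]
  exact (p_Vtv R ![1, 0] 0 t).2.2.1 g

theorem p_Tvt (hN : T_vtN) : T_vt := by
  intro a b hn hEu hP m n hmn W hW z hz h
  obtain ⟨N, hNl⟩ := Lv_ex W hW
  refine hN a b hn hEu hP m n hmn W hW N hNl z hz fun g => ?_
  obtain ⟨r, hr⟩ := h g
  refine ⟨r * N, fun t => ?_⟩
  have h2 := hr ((N : Qf a b ℤ) * t) (by
    rw [Tvt_conj]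
    exact hNl.2 _ t)
  rw [Tvt_conj] at h2
  rw [h2, map_mul, map_natCast, map_mul, map_natCast]
  ring

end Pool.Agent.F8.NL
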