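import Pool.Agent.Lib.MP_305fdd_al.F8.NL.StmU2

/-!
# MP_305fdd_al, all lattices (project NL): block U, the values of the extension at the unipotent elements
-/

set_option autoImplicit false

namespace Pool.Agent.F8.NL

open Pool.Agent.F8.CG Pool.Agent.F8.BG Pool.Agent.MP_305fdd_al Pool.Agent.Lib.MP_305fdd_al
  Pool.Agent.F8
open scoped QuadraticAlgebra ComplexConjugate

noncomputable section

private theorem Umz_mv {R : Type} [CommRing R] (g : SL2 R) (i : Fin 2) :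
    g.val.mulVec ![1, 0] i = g.val i 0 := by
  simp [Matrix.mulVec, dotProduct, Fin.sum_univ_two]

private theorem Umz_colG {R : Type} [CommRing R] (g : SL2 R) :
    g.val.mulVec ![1, 0] = colG g 0 := funext fun i => Umz_mv g i

private theorem Umz_inf {a b : ℤ} (X Y V : NF a b) :
    ∃ U : NF a b, U.N ≤ X.N ∧ U.N ≤ Y.N ∧ U.N ≤ V.N := by
  have h1 : (X.N ⊓ (Y.N ⊓ V.N)).FiniteIndex := inferInstance
  refine ⟨⟨X.N ⊓ (Y.N ⊓ V.N), inferInstance, h1⟩, ?_, ?_, ?_⟩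
  · exact inf_le_left
  · exact inf_le_right.trans inf_le_left
  · exact inf_le_right.trans inf_le_right

private theorem Umz_tv {a b : ℤ} (g : GQ a b) (t : Qf a b ℤ) :
    g * eU t * g⁻¹ = tv (colG g 0) t := by
  rw [← Umz_colG, ← (p_Vtv _ _ t t).2.2.1 g, (p_Vtv _ (![1, 0] : Fin 2 → Qf a b ℤ) t t).2.2.2.2.1]

/-- [NL U mz] -/
theorem p_Umz (hbv : B_bv) (hcl : C_cl) (_hu : C_u) : U_mz := by
  intro a b hD m hm W hW N hN z hz Z hZ X hXW g γ hγ s
  have hdom : IsDomain (Qf a b ℤ) := Qf_domain hD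
  have hB : BvM a b m (RingHom.id (Qf a b ℤ)) := hbv a b hD m hm (Qf a b ℤ) (RingHom.id _)
    (fun x y h => h)
  obtain ⟨-, -, hc3, -⟩ := hcl a b W hW
  apply OH_ext
  intro M
  obtain ⟨X₁, hX₁, hex⟩ := hZ M
  obtain ⟨X₂, h2a, h2b, h2c⟩ := Umz_inf X X₁ (NFG a b M)
  obtain ⟨γ', hγ'⟩ := Ap_ex X₂ g
  -- the number `t`
  have hdv : (M : ℕ) ∣ (M * lvN X₂ : ℕ+) := by
    rw [PNat.mul_coe]
    exact dvd_mul_right _ _
  have ht' : Qfm a b (Int.castRingHom (ZMod (M * lvN X₂ : ℕ+))) (lfH (M * lvN X₂) s) =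
    rH a b (M * lvN X₂) s := lfH_rH _ s
  generalize lfH (M * lvN X₂) s = t at ht'
  have ht : Qfm a b (Int.castRingHom (ZMod M)) t = rH a b M s := by
    rw [← rH_map hdv, ← ht', Qfm_cast hdv]
  -- the functional at `γ'`
  have hbb : bv m N (RingHom.id _) z (colG γ' 0) = bv m N (RingHom.id _) z (colG γ 0) := by
    have h1 : Ap X g γ' := Ap_le h2a hγ'
    have h2 : QuotientGroup.mk' X.N γ = QuotientGroup.mk' X.N γ' := by
      rw [← show pr X g = _ from hγ, ← show pr X g = _ from h1]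
    have h3 : γ' * γ⁻¹ ∈ X.N := by
      rw [← QuotientGroup.eq_one_iff]
      show QuotientGroup.mk' X.N (γ' * γ⁻¹) = 1
      rw [map_mul, map_inv, h2, mul_inv_cancel]
    have h4 : colG γ' 0 = (γ' * γ⁻¹).val.mulVec (colG γ 0) := by
      rw [← Umz_colG, ← Umz_colG, Matrix.mulVec_mulVec, ← Matrix.SpecialLinearGroup.coe_mul,
        inv_mul_cancel_right]
    rw [h4]
    exact hB.inv W N hN z hz _ (hXW h3) _
  -- the approximation
  have hU : Ap X₂ (uH (jH a b (N : Qf a b ℤ) * s)) (eU ((N : Qf a b ℤ) * t)) := by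
    refine uH_ap X₂ (M * lvN X₂) _ _ ?_ ?_
    · intro y
      have h5 : ((((M * lvN X₂ : ℕ+) : ℕ) : Qf a b ℤ)) * y =
          ((lvN X₂ : ℕ+) : ℕ) * (((M : ℕ+) : ℕ) * y) := by
        rw [PNat.mul_coe, Nat.cast_mul]
        ring
      rw [h5]
      exact lvN_mem X₂ _
    · rw [map_mul, rH_jH, map_mul, ht']
  have hx : Ap X₂ (g * uH (jH a b (N : Qf a b ℤ) * s) * g⁻¹)
      (γ' * eU ((N : Qf a b ℤ) * t) * γ'⁻¹) := by
    show pr X₂ _ = _
    rw [map_mul, map_mul, map_inv, map_mul, map_mul, map_inv, show pr X₂ g = _ from hγ',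
      show pr X₂ (uH _) = _ from hU]
  rw [Umz_tv] at hx
  have hcl' : g * uH (jH a b (N : Qf a b ℤ) * s) * g⁻¹ ∈ clH W :=
    (hc3 X₂ _ _ (h2b.trans hX₁) hx).2 (hN.2 _ _)
  have hzz := hex _ hcl' _ (Ap_le h2b hx)
  have hee : ∀ i, rH a b M ((piH a b g).val.mulVec ![1, 0] i) =
      Qfm a b (Int.castRingHom (ZMod M)) (colG γ' 0 i) := by
    intro i
    rw [Umz_mv]
    have h6 : pm M g = rdq a b M γ' := pm_ap M (Ap_le h2c hγ')
    have h7 := piH_pm (a := a) (b := b) M g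
    rw [h6] at h7
    exact congrFun (congrFun (congrArg Subtype.val h7) i) 0
  rw [← evm_map, map_mul, rH_jH]
  simp only [hzz, hee]
  rw [evm_map, ← hbb, ← ht, ← map_mul]
  congr 1
  have h8 := hB.mul W N hN z hz (colG γ' 0) t
  simp only [RingHom.id_apply] at h8
  rw [h8, mul_comm]

end

end Pool.Agent.F8.NL
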