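import Pool.Agent.Lib.MP_305fdd_al.F8.NL.StmU2

/-!
# MP_305fdd_al, all lattices (project NL): block U, elements which conjugate a unipotent element of the cusp infinity to another one
-/

set_option autoImplicit false

namespace Pool.Agent.F8.NL

open Pool.Agent.F8.CG Pool.Agent.F8.BG Pool.Agent.MP_305fdd_al Pool.Agent.Lib.MP_305fdd_al
  Pool.Agent.F8
open scoped QuadraticAlgebra ComplexConjugate

noncomputable section

private theorem Uun_mv {R : Type} [CommRing R] (g : SL2 R) (i : Fin 2) :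
    g.val.mulVec ![1, 0] i = g.val i 0 := by
  simp [Matrix.mulVec, dotProduct, Fin.sum_univ_two]

private theorem Uun_colG {R : Type} [CommRing R] (g : SL2 R) :
    g.val.mulVec ![1, 0] = colG g 0 := funext fun i => Uun_mv g i

private theorem Uun_conj {R : Type} [CommRing R] (g : SL2 R) (t : R) :
    g * eU t * g⁻¹ = tv (colG g 0) t := by
  rw [← Uun_colG, ← (p_Vtv _ _ t t).2.2.1 g, (p_Vtv _ (![1, 0] : Fin 2 → R) t t).2.2.2.2.1]

/-- powers of `uH` -/
private theorem Uun_pow {a b : ℤ} (hu1 : ∀ s t : OH a b, uH (s + t) = uH s * uH t) (n : ℕ)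
    (s : OH a b) : uH (jH a b (n : Qf a b ℤ) * s) = uH s ^ n := by
  induction n with
  | zero =>
    have h0 : (uH (0 : OH a b) : GH a b) = 1 := by
      have h1 := hu1 0 0
      rw [add_zero] at h1
      exact left_eq_mul.1 h1
    rw [Nat.cast_zero, map_zero, zero_mul, pow_zero, h0]
  | succ n ih =>
    rw [pow_succ, ← ih, ← hu1]
    congr 1
    rw [Nat.cast_succ, map_add, map_one]
    ring

/-- [NL U un] -/
theorem p_Uun (hX : X_ex) (ho : C_o) (hu : C_u) (hext : C_ext) (hlv : P_lv) (hmz : U_mz) :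
    U_un := by
  intro a b M₀ m hP g t t' ht hg X
  have hneg := hP.neg
  have hdom : IsDomain (Qf a b ℤ) := Qf_domain hneg
  obtain ⟨hinj, ho2, -, -, -⟩ := ho a b hneg
  obtain ⟨hu1, -, hu3, -, -, -⟩ := hu a b
  have hm1 : 1 ≤ m := le_trans (by norm_num) hP.four
  obtain ⟨N, hN⟩ := hlv a b X.N X.fin
  have hprm : Prm (![1, 0] : Fin 2 → Qf a b ℤ) := ⟨1, by
    funext i
    fin_cases i
    · exact Matrix.one_apply_eq _
    · exact Matrix.one_apply_ne (by decide)⟩
  obtain ⟨z₀, hz, hz0, hz1⟩ := hX a b hneg hP.eu hP.pid hP.fg m hP.four hP.even hP.une X.N X.fin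
    N hN ![1, 0] hprm
  obtain ⟨Z₀, hZ₀⟩ := (hext a b hneg X.N X.fin).1 _ _ z₀ hz
  -- the matrix of `g`
  have hG : tv (colG (piH a b g) 0) (jH a b t) = eU (jH a b t') := by
    rw [← Uun_conj, ← hu3, ← hu3, ← map_mul, ← map_inv, ← map_mul, hg]
  have h00 : 1 - jH a b t * colG (piH a b g) 0 0 * colG (piH a b g) 0 1 = 1 :=
    congrFun (congrFun (congrArg Subtype.val hG) 0) 0
  have h01 : jH a b t * colG (piH a b g) 0 0 ^ 2 = jH a b t' :=
    congrFun (congrFun (congrArg Subtype.val hG) 0) 1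
  have h10 : -(jH a b t * colG (piH a b g) 0 1 ^ 2) = 0 :=
    congrFun (congrFun (congrArg Subtype.val hG) 1) 0
  have hdet := G.SL_det (piH a b g)
  have e1 : colG (piH a b g) 0 0 * colG (piH a b g) 0 1 = 0 := ho2 t _ ht (by
    linear_combination (-1 : OH a b) * h00)
  have e2 : colG (piH a b g) 0 1 ^ 2 = 0 := ho2 t _ ht (by
    linear_combination (-1 : OH a b) * h10)
  have e3 : colG (piH a b g) 0 1 = 0 := by
    have h1 : colG (piH a b g) 0 0 * (piH a b g).val 1 1 -
        (piH a b g).val 0 1 * colG (piH a b g) 0 1 = 1 := hdet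
    linear_combination (-colG (piH a b g) 0 1) * h1 + (piH a b g).val 1 1 * e1 -
      (piH a b g).val 0 1 * e2
  obtain ⟨ε, hε⟩ : ∃ ε : OH a b, ε = colG (piH a b g) 0 0 := ⟨_, rfl⟩
  have hεu : IsUnit ε := by
    refine IsUnit.of_mul_eq_one ((piH a b g).val 1 1) ?_
    have h1 : colG (piH a b g) 0 0 * (piH a b g).val 1 1 -
        (piH a b g).val 0 1 * colG (piH a b g) 0 1 = 1 := hdet
    rw [e3, mul_zero, sub_zero] at h1
    rw [hε, h1]
  have hvec : (piH a b g).val.mulVec ![1, 0] = ε • ![1, 0] := by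
    rw [Uun_colG]
    funext i
    fin_cases i
    · show colG (piH a b g) 0 0 = ε * 1
      rw [hε, mul_one]
    · show colG (piH a b g) 0 1 = ε * 0
      rw [e3, mul_zero]
  -- the values of the extension
  obtain ⟨γ, hγ⟩ := Ap_ex X g
  have hv1 := hmz a b hneg m hm1 X.N X.fin N hN z₀ hz Z₀ hZ₀ X le_rfl g γ hγ (jH a b t)
  have hap1 : Ap X (1 : GH a b) (1 : GQ a b) := by
    show pr X 1 = _
    rw [map_one, map_one]
  have hv2 := hmz a b hneg m hm1 X.N X.fin N hN z₀ hz Z₀ hZ₀ X le_rfl 1 1 hap1 (jH a b t')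
  have hpw : g * uH (jH a b (N : Qf a b ℤ) * jH a b t) * g⁻¹ =
      uH (jH a b (N : Qf a b ℤ) * jH a b t') := by
    rw [Uun_pow hu1, Uun_pow hu1, ← hg, conj_pow]
  have hone : colG (1 : GQ a b) 0 = ![1, 0] := by
    funext i
    fin_cases i
    · exact Matrix.one_apply_eq _
    · exact Matrix.one_apply_ne (by decide)
  have hone' : (piH a b 1).val.mulVec ![1, 0] = (![1, 0] : Fin 2 → OH a b) := by
    rw [map_one]
    exact Matrix.one_mulVec _
  rw [one_mul, inv_one, mul_one, hone', hone] at hv2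
  rw [hpw, hvec, evm_smul, hv2] at hv1
  have hne : bv m N (RingHom.id _) z₀ (colG γ 0) ≠ 0 := by
    intro h0
    rw [h0, map_zero, mul_zero] at hv1
    have h1 : jH a b t' * jH a b (bv m N (RingHom.id _) z₀ ![1, 0]) = 0 :=
      (hεu.pow m).mul_right_eq_zero.1 hv1
    rw [← map_mul, ← map_zero (jH a b)] at h1
    rcases mul_eq_zero.1 (hinj h1) with h2 | h2
    · rw [h2, map_zero, ← hε] at h01
      have h3 : jH a b t = 0 := (hεu.pow 2).mul_left_eq_zero.1 h01
      rw [← map_zero (jH a b)] at h3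
      exact ht (hinj h3)
    · exact hz0 h2
  have hcs : Cs X.N ![1, 0] (colG γ 0) := by
    by_contra hc
    exact hne (hz1 _ ⟨γ, rfl⟩ hc)
  obtain ⟨x, hx, u, -, hxu⟩ := hcs
  refine ⟨x⁻¹ * γ, ?_, ?_⟩
  · show (x⁻¹ * γ).val 1 0 = 0
    have h1 : colG (x⁻¹ * γ) 0 = u • ![1, 0] := by
      rw [← Uun_colG, Matrix.SpecialLinearGroup.coe_mul, ← Matrix.mulVec_mulVec, Uun_colG, hxu,
        Matrix.mulVec_smul, Matrix.mulVec_mulVec, ← Matrix.SpecialLinearGroup.coe_mul,
        inv_mul_cancel]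
      congr 1
      exact Matrix.one_mulVec _
    have h2 := congrFun h1 1
    have h3 : (x⁻¹ * γ).val 1 0 = u * 0 := h2
    rw [h3, mul_zero]
  · show pr X g = _
    rw [map_mul, map_inv, show QuotientGroup.mk' X.N x = 1 from (QuotientGroup.eq_one_iff _).2 hx,
      inv_one, one_mul]
    exact hγ

end

end Pool.Agent.F8.NL
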