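import Pool.Agent.Lib.MP_305fdd_al.F8.NL.StmX
import Pool.Agent.Lib.MP_305fdd_al.F8.CG.P_Slin

/-!
# [NL X de, X l1] linear equations over a domain
-/

set_option autoImplicit false

namespace Pool.Agent.F8.NL

open Pool.Agent.F8.CG

theorem p_Xde (hlin : CG.S_lin) : X_de := by
  intro R K J _ _ _ _ f hf n A φ v hA hφ
  by_contra hc
  have hall : ∀ v' : Fin n → R, (∀ j, ∑ i, A j i * v' i = 0) → ∑ i, φ i * v' i = 0 := by
    intro v' h
    by_contra h0
    exact hc ⟨v', h, h0⟩
  obtain ⟨c, l, hc0, hl⟩ := hlin R J n A φ hall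
  have h1 : f c * ∑ i, f (φ i) * v i = 0 := by
    have h2 : f c * ∑ i, f (φ i) * v i = ∑ i, f (c * φ i) * v i := by
      rw [Finset.mul_sum]
      exact Finset.sum_congr rfl fun i _ => by rw [map_mul, mul_assoc]
    have h3 : ∀ i, f (c * φ i) * v i = ∑ j ∈ l.support, f (l j) * (f (A j i) * v i) := by
      intro i
      rw [hl i, Finsupp.sum, map_sum, Finset.sum_mul]
      exact Finset.sum_congr rfl fun j _ => by rw [map_mul, mul_assoc]
    rw [h2, Finset.sum_congr rfl fun i _ => h3 i, Finset.sum_comm]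
    refine Finset.sum_eq_zero fun j _ => ?_
    rw [← Finset.mul_sum, hA j, mul_zero]
  rcases mul_eq_zero.1 h1 with h | h
  · exact hc0 (hf (by rw [h, map_zero]))
  · exact hφ h

theorem p_Xl1 (hde : X_de) : X_l1 := by
  intro R K J _ _ _ _ f hf n A c v hv
  obtain ⟨w, hw, hw0⟩ := hde R K J f hf (n + 1) (fun j => Fin.cons (-(c j)) (A j))
    (Fin.cons 1 fun _ => 0) (Fin.cons 1 v) (fun j => by
      rw [Fin.sum_univ_succ]
      simp only [Fin.cons_zero, Fin.cons_succ]
      rw [hv j, map_neg]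
      ring) (by
      rw [Fin.sum_univ_succ]
      simp)
  rw [Fin.sum_univ_succ] at hw0
  simp only [Fin.cons_zero, Fin.cons_succ, zero_mul, Finset.sum_const_zero, add_zero,
    one_mul] at hw0
  refine ⟨w 0, fun i => w i.succ, hw0, fun j => ?_⟩
  have h1 := hw j
  rw [Fin.sum_univ_succ] at h1
  simp only [Fin.cons_zero, Fin.cons_succ] at h1
  linear_combination h1

end Pool.Agent.F8.NL
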