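import Pool.Agent.Lib.MP_305fdd_al.F8.NL.StmX

set_option autoImplicit false

namespace Pool.Agent.F8.NL

open Pool.Agent.F8.CG Pool.Agent.F8.BG Pool.Agent.MP_305fdd_al Pool.Agent.Lib.MP_305fdd_al
  Pool.Agent.F8
open scoped QuadraticAlgebra ComplexConjugate

noncomputable section

private theorem Xdg_deg {L : Type} [Field L] [CharZero L] (Q : Polynomial L) (m : ℕ)
    (h : (Polynomial.taylor 1 Q - Q).natDegree ≤ m) : Q.natDegree ≤ m + 1 := by
  by_contra hd
  push Not at hd
  set d := Q.natDegree with hdd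
  have hd1 : m < d - 1 := by omega
  have h1 : (Polynomial.taylor 1 Q - Q).coeff (d - 1) = 0 :=
    Polynomial.coeff_eq_zero_of_natDegree_lt (lt_of_le_of_lt h hd1)
  rw [Polynomial.coeff_sub, Polynomial.taylor_coeff] at h1
  have h2 : (Polynomial.hasseDeriv (d - 1) Q).natDegree < 2 := by
    have h3 := Polynomial.natDegree_hasseDeriv_le Q (d - 1)
    omega
  rw [Polynomial.eval_eq_sum_range' h2, Finset.sum_range_succ, Finset.sum_range_one,
    Polynomial.hasseDeriv_coeff, Polynomial.hasseDeriv_coeff] at h1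
  have h4 : 0 + (d - 1) = d - 1 := by omega
  have h5 : 1 + (d - 1) = d := by omega
  rw [h4, h5, Nat.choose_self] at h1
  have h6 : d.choose (d - 1) = d := by
    have h7 := Nat.choose_symm (n := d) (k := 1) (by omega)
    rw [h7, Nat.choose_one_right]
  rw [h6] at h1
  have h8 : (d : L) * Q.coeff d = 0 := by
    have := h1
    simp only [Nat.cast_one, one_mul, one_pow, mul_one] at this
    linear_combination this
  rcases mul_eq_zero.1 h8 with h9 | h9
  · have : d = 0 := by exact_mod_cast h9
    omega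
  · have h10 : Q.leadingCoeff = 0 := h9
    rw [Polynomial.leadingCoeff_eq_zero] at h10
    rw [h10, Polynomial.natDegree_zero] at hdd
    omega

private theorem Xdg_zero {L : Type} [CommRing L] (m : ℕ) (P : Fin (m + 1) → L) :
    evm m P ![0, 1] = P 0 := by
  unfold evm
  rw [Finset.sum_eq_single 0]
  · simp
  · intro i _ hi
    have hi' : (i : ℕ) ≠ 0 := fun e => hi (Fin.ext e)
    simp [hi']
  · simp

private theorem Xdg_act {a b : ℤ} {L : Type} [CommRing L] (f : Qf a b ℤ →+* L) (m : ℕ)
    (P : Fin (m + 1) → L) (t : Qf a b ℤ) :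
    ((tV m f (eU t)).mulVec P) 0 = ∑ i, P i * (-f t) ^ (i : ℕ) := by
  have h0 := Xdg_zero m ((tV m f (eU t)).mulVec P)
  rw [← h0]
  show evm m ((sm m (SLm f (eU t))).mulVec P) ![0, 1] = _
  rw [evm_sm]
  have h1 : (SLm f (eU t) : SL2 L) = eU (f t) := by
    apply Subtype.ext
    show ((!![1, t; 0, 1] : Matrix (Fin 2) (Fin 2) (Qf a b ℤ)).map f) =
      (!![1, f t; 0, 1] : Matrix (Fin 2) (Fin 2) L)
    ext i j
    fin_cases i <;> fin_cases j <;> simp
  have h2 : ((SLm f (eU t) : SL2 L)⁻¹).val.mulVec ![0, 1] = ![-f t, 1] := by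
    rw [h1]
    unfold eU
    rw [AB.mx_inv]
    show (!![1, -f t; -0, 1] : Matrix (Fin 2) (Fin 2) L).mulVec ![0, 1] = _
    ext i
    fin_cases i <;> simp [Matrix.mulVec, dotProduct, Fin.sum_univ_two]
  rw [h2]
  unfold evm
  refine Finset.sum_congr rfl fun i _ => ?_
  simp

theorem p_Xdg : X_dg := by
  intro a b m N W hW L _ _ f _ z hz r Q hQ
  have hmem : ∀ t : Qf a b ℤ, (eU ((N : Qf a b ℤ) * t) : GQ a b) ∈ W := by
    intro t
    rw [eU_eq_tv]
    exact hW.2 _ t
  set P : Fin (m + 1) → L := z (eU ((N : Qf a b ℤ) * 1)) with hP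
  -- the polynomial of the right hand side
  set S : Polynomial L := ∑ i : Fin (m + 1),
    Polynomial.C (P i * (-(N : L)) ^ (i : ℕ)) * Polynomial.X ^ (i : ℕ) with hS
  have hSd : S.natDegree ≤ m := by
    rw [hS]
    refine Polynomial.natDegree_sum_le_of_forall_le _ _ fun i _ => ?_
    refine (Polynomial.natDegree_C_mul_X_pow_le _ _).trans ?_
    have := i.2
    omega
  have hSe : ∀ x : L, S.eval x = ∑ i : Fin (m + 1), P i * (-((N : L) * x)) ^ (i : ℕ) := by
    intro x
    rw [hS, Polynomial.eval_finsetSum]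
    refine Finset.sum_congr rfl fun i _ => ?_
    rw [Polynomial.eval_mul, Polynomial.eval_C, Polynomial.eval_pow, Polynomial.eval_X]
    rw [show -((N : L) * x) = -(N : L) * x by ring, mul_pow]
    ring
  have key : ∀ s : Qf a b ℤ, Q.eval (f s + 1) + r = Q.eval (f s) + S.eval (f s) := by
    intro s
    have h1 := hz (eU ((N : Qf a b ℤ) * s)) (hmem s) (eU ((N : Qf a b ℤ) * 1)) (hmem 1)
    rw [← eU_add, ← mul_add] at h1
    have h2 := congrFun h1 0
    rw [Pi.add_apply, hQ, hQ, Xdg_act, map_add, map_one, map_add, map_one, map_add, map_one,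
      map_mul, map_natCast] at h2
    rw [hSe]
    linear_combination h2
  have hpoly : Polynomial.taylor 1 Q - Q = S - Polynomial.C r := by
    have h1 : Polynomial.taylor 1 Q - Q - (S - Polynomial.C r) = 0 := by
      apply Polynomial.eq_zero_of_infinite_isRoot
      refine Set.Infinite.mono ?_ (Set.infinite_range_of_injective
        (Nat.cast_injective (R := L)))
      rintro _ ⟨k, rfl⟩
      show Polynomial.IsRoot _ _
      rw [Polynomial.IsRoot.def, Polynomial.eval_sub, Polynomial.eval_sub, Polynomial.eval_sub,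
        Polynomial.taylor_eval, Polynomial.eval_C]
      have h2 := key (k : Qf a b ℤ)
      rw [map_natCast] at h2
      linear_combination h2
    exact sub_eq_zero.1 h1
  apply Xdg_deg
  rw [hpoly]
  refine (Polynomial.natDegree_sub_le _ _).trans ?_
  rw [Polynomial.natDegree_C]
  exact max_le hSd (Nat.zero_le _)

end

end Pool.Agent.F8.NL
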