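import Pool.Agent.Lib.MP_305fdd_al.F8.NL.StmX

/-!
# MP_305fdd_al, all lattices (project NL): block X, interpolation
-/

set_option autoImplicit false

namespace Pool.Agent.F8.NL

/-- [NL Xip] interpolation -/
theorem p_Xip : X_ip := by
  intro m
  let V : Matrix (Fin (m + 2)) (Fin (m + 2)) ℤ :=
    Matrix.vandermonde fun i : Fin (m + 2) => ((i : ℕ) : ℤ)
  have hD : V.det ≠ 0 := by
    rw [Matrix.det_vandermonde_ne_zero_iff]
    intro i j hij
    have h : ((i : ℕ) : ℤ) = ((j : ℕ) : ℤ) := hij
    exact Fin.ext (by exact_mod_cast h)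
  refine ⟨V.det, fun j => V.adjugate 1 j, hD, ?_⟩
  intro L _ _ P hP
  have hev : ∀ j : Fin (m + 2), P.eval ((j : ℕ) : L) =
      ∑ k : Fin (m + 2), ((V j k : ℤ) : L) * P.coeff (k : ℕ) := by
    intro j
    rw [Polynomial.eval_eq_sum_range' (n := m + 2) (by omega), Finset.sum_range]
    refine Finset.sum_congr rfl fun k _ => ?_
    simp only [V, Matrix.vandermonde_apply]
    push_cast
    ring
  have hadj : ∀ k : Fin (m + 2), ∑ j, ((V.adjugate 1 j : ℤ) : L) * ((V j k : ℤ) : L) =
      if (1 : Fin (m + 2)) = k then (V.det : L) else 0 := by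
    intro k
    have h := congrFun (congrFun (Matrix.adjugate_mul V) 1) k
    rw [Matrix.mul_apply, Matrix.smul_apply, Matrix.one_apply] at h
    have h2 : ((∑ j, V.adjugate 1 j * V j k : ℤ) : L) =
        ((V.det • (if (1 : Fin (m + 2)) = k then (1 : ℤ) else 0) : ℤ) : L) := by
      rw [h]
    push_cast at h2
    rw [h2]
    split_ifs <;> simp
  calc (V.det : L) * P.coeff 1
      = ∑ k : Fin (m + 2), (∑ j, ((V.adjugate 1 j : ℤ) : L) * ((V j k : ℤ) : L)) *
          P.coeff (k : ℕ) := by
        rw [Finset.sum_congr rfl fun k _ => by rw [hadj k]]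
        simp
    _ = ∑ j, ((V.adjugate 1 j : ℤ) : L) * P.eval ((j : ℕ) : L) := by
        simp_rw [Finset.sum_mul]
        rw [Finset.sum_comm]
        refine Finset.sum_congr rfl fun j _ => ?_
        rw [hev j, Finset.mul_sum]
        refine Finset.sum_congr rfl fun k _ => ?_
        ring

end Pool.Agent.F8.NL
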