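import Pool.Agent.Lib.MP_305fdd_al.F8.NL.StmX

set_option autoImplicit false

namespace Pool.Agent.F8.NL

open Pool.Agent.F8.CG Pool.Agent.F8.BG Pool.Agent.MP_305fdd_al Pool.Agent.Lib.MP_305fdd_al
  Pool.Agent.F8
open scoped QuadraticAlgebra ComplexConjugate

noncomputable section

private theorem Xrv_c {a b : ℤ} {D : ℤ} (hD : D ≠ 0) :
    (D : Qf a b ℤ) * (cjq a b ℤ (wq a b ℤ) - wq a b ℤ) ≠ 0 := by
  intro h
  have h1 : (D : Qf a b ℤ) = ⟨D, 0⟩ := rfl
  have h2 : cjq a b ℤ (wq a b ℤ) - wq a b ℤ = ⟨b, -2⟩ := by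
    rw [cjq_apply]
    apply QuadraticAlgebra.ext
    · show 0 + b * 1 - 0 = b
      ring
    · show -1 - 1 = (-2 : ℤ)
      ring
  rw [h1, h2] at h
  have h3 := congrArg QuadraticAlgebra.im h
  have h4 : D * (-2) = 0 := by
    have : ((⟨D, 0⟩ : Qf a b ℤ) * ⟨b, -2⟩).im = D * (-2) := by
      rw [QuadraticAlgebra.im_mul]
      ring
    rw [← this, h3]
    rfl
  apply hD
  omega

private theorem Xrv_key {a b : ℤ} {m : ℕ} {D : ℤ} {lam : Fin (m + 2) → ℤ} {L : Type} [Field L]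
    (hlam : ∀ P : Polynomial L, P.natDegree ≤ m + 1 →
      (D : L) * P.coeff 1 = ∑ j, (lam j : L) * P.eval ((j : ℕ) : L))
    (f f' : Qf a b ℤ →+* L) (Q : Polynomial L) (hQ : Q.natDegree ≤ m + 1) (r : L)
    (G : Qf a b ℤ → L) (hG : ∀ t, G t = Q.eval (f t) + r * f' t) (τ : Qf a b ℤ) :
    (D : L) * (Q.coeff 1 * f τ + r * f' τ) =
      ∑ j : Fin (m + 2), (lam j : L) * G (((j : ℕ) : Qf a b ℤ) * τ) := by
  have hdeg : (Q.comp (Polynomial.C (f τ) * Polynomial.X) +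
      Polynomial.C (r * f' τ) * Polynomial.X).natDegree ≤ m + 1 := by
    refine (Polynomial.natDegree_add_le _ _).trans (max_le ?_ ?_)
    · refine Polynomial.natDegree_comp_le.trans ?_
      calc Q.natDegree * (Polynomial.C (f τ) * Polynomial.X).natDegree
          ≤ (m + 1) * 1 := Nat.mul_le_mul hQ
            ((Polynomial.natDegree_C_mul_le _ _).trans Polynomial.natDegree_X_le)
        _ = m + 1 := mul_one _
    · exact ((Polynomial.natDegree_C_mul_le _ _).trans Polynomial.natDegree_X_le).trans (by omega)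
  have h := hlam _ hdeg
  rw [Polynomial.coeff_add, Polynomial.comp_C_mul_X_coeff, Polynomial.coeff_C_mul,
    Polynomial.coeff_X_one, pow_one, mul_one] at h
  rw [h]
  refine Finset.sum_congr rfl fun j _ => ?_
  rw [hG, map_mul f, map_mul f', map_natCast f, map_natCast f']
  congr 1
  rw [Polynomial.eval_add, Polynomial.eval_comp, Polynomial.eval_mul, Polynomial.eval_C,
    Polynomial.eval_X, Polynomial.eval_mul, Polynomial.eval_C, Polynomial.eval_X,
    mul_comm (f τ)]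
  ring

/-- [NL X rv] the number `r` as a linear form -/
theorem p_Xrv (hip : X_ip) (hdg : X_dg) : X_rv := by
  intro a b m
  obtain ⟨D, lam, hD, hlam⟩ := hip m
  refine ⟨(D : Qf a b ℤ) * (cjq a b ℤ (wq a b ℤ) - wq a b ℤ), lam, Xrv_c hD, ?_⟩
  intro N W hL L _ _ f hf z hz r hr
  obtain ⟨Q, hQ⟩ := hr
  have hdeg := hdg a b m N W hL L f hf z hz r Q hQ
  have key := Xrv_key (hlam L) f (f.comp (cjq a b ℤ)) Q hdeg r
    (fun t => z (eU ((N : Qf a b ℤ) * t)) 0) hQ
  have h1 := key (wq a b ℤ)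
  have h2 := key 1
  simp only [mul_one, map_one] at h2
  have h3 : ∑ j : Fin (m + 2), (lam j : L) *
      (z (eU ((N : Qf a b ℤ) * (((j : ℕ) : Qf a b ℤ) * wq a b ℤ))) 0 -
        f (wq a b ℤ) * z (eU ((N : Qf a b ℤ) * ((j : ℕ) : Qf a b ℤ))) 0) =
      ∑ j : Fin (m + 2), (lam j : L) *
        z (eU ((N : Qf a b ℤ) * (((j : ℕ) : Qf a b ℤ) * wq a b ℤ))) 0 -
      f (wq a b ℤ) * ∑ j : Fin (m + 2), (lam j : L) *
        z (eU ((N : Qf a b ℤ) * ((j : ℕ) : Qf a b ℤ))) 0 := by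
    rw [Finset.mul_sum, ← Finset.sum_sub_distrib]
    refine Finset.sum_congr rfl fun j _ => ?_
    ring
  rw [h3, ← h1, ← h2, map_mul, map_sub, map_intCast, RingHom.comp_apply]
  ring

end

end Pool.Agent.F8.NL
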