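import Pool.Agent.Lib.MP_305fdd_al.F8.CG.StmV

/-!
# MP_305fdd_al, all lattices commensurable with `SL₂(ℤ[w])`: block A (analysis for the vanishing theorem)

THEOREM (`A_main`). Let `F ω : ℂ × ℂ → ℂ` be a finite family of functions, homogeneous of bidegree `(m, n)` under the field `k`, zero at `(1, 0)`, whose transforms under `SL₂(ℤ[w])` are again members of the family up to bihomogeneous polynomials, and such that the error for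
translations with `β` grows at most like `|β|^(n+1)`. If `n = 0`, `m ≥ 3` or `n = 1`, `m ≥ 4` then the functions `x ↦ F ω (x, 1)` on `k` are polynomials in `x`, `conj x` of bidegree at most `(m, n)`.

The proof. (1) growth `O((1 + |x|)^(n+1))` by the euclidean algorithm (`A_gr`); (2) reduction theory (`A_red`, from `V_cov`) gives on every ball of radius `δ` a polynomial approximation with an error `O(δ^((m+n)/2))` (`A_app`), and a continuous extension to `ℂ` (`A_ext`);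
(3) the exponent is greater than `n + 1`, so the function is holomorphic (`n = 0`, `A_hol`), or `G₀ + conj x G₁` with holomorphic `G₀, G₁` (`A_one`), and by the growth a polynomial (`A_c0`, `A_c1`).
-/

set_option autoImplicit false

namespace Pool.Agent.F8.NL

open Pool.Agent.F8.CG Pool.Agent.F8.BG Pool.Agent.MP_305fdd_al Pool.Agent.Lib.MP_305fdd_al
  Pool.Agent.F8
open scoped QuadraticAlgebra ComplexConjugate

noncomputable section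

/-- the functions on `ℂ²` given by bihomogeneous polynomials of bidegree `(m, n)` -/
def PolH (m n : ℕ) : Submodule ℂ (ℂ × ℂ → ℂ) :=
  Submodule.span ℂ (Set.range fun p : Fin (m + 1) × Fin (n + 1) => fun e : ℂ × ℂ =>
    e.1 ^ (p.1 : ℕ) * e.2 ^ (m - p.1) * (conj e.1 ^ (p.2 : ℕ) * conj e.2 ^ (n - p.2)))

/-- The families of functions for the theorem. -/
structure FamA (a b : ℤ) (m n : ℕ) {Ω : Type} [MulAction (GQ a b) Ω] (F : Ω → ℂ × ℂ → ℂ) :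
    Prop where
  /-- homogeneous -/
  hom : ∀ (o : Ω) (l : ℂ) (e : ℂ × ℂ), l ∈ kC a b → l ≠ 0 → e.1 ∈ kC a b → e.2 ∈ kC a b →
    F o (l * e.1, l * e.2) = l ^ m * conj l ^ n * F o e
  /-- zero at infinity -/
  inf : ∀ o : Ω, F o (1, 0) = 0
  /-- equivariant up to polynomials -/
  eqv : ∀ (g : GQ a b) (o : Ω), ∃ P ∈ PolH m n, ∀ e : ℂ × ℂ, e.1 ∈ kC a b → e.2 ∈ kC a b →
    e ≠ 0 → F o (va g e) = F (g⁻¹ • o) e + P e
  /-- growth of the error for translations -/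
  gro : ∃ C : ℝ, ∀ (o : Ω) (β : Qf a b ℤ), ∀ x ∈ kC a b, ‖x‖ ≤ 1 →
    ‖F o (x + iC a b β, 1) - F ((eU β : GQ a b)⁻¹ • o) (x, 1)‖ ≤ C * (1 + ‖iC a b β‖) ^ (n + 1)

/-- [NL A pol] bihomogeneous polynomials.

Proof. lin: the monomials of the four linear forms `p e.1 + q e.2`, `r e.1 + s e.2` and their conjugates expand to combinations of monomials of the same bidegree (binomial theorem, `add_pow`); `Submodule.span_induction`. hom, cont: on the generators. one: put `e.2 = 1`. rep: the converse of one (`e.1 ^ i conj e.1 ^ j` is the value at `(e.1, 1)` of a monomial). -/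
def A_pol : Prop := ∀ m n : ℕ,
  (∀ P ∈ PolH m n, ∀ p q r s : ℂ, (fun e : ℂ × ℂ => P (p * e.1 + q * e.2, r * e.1 + s * e.2)) ∈
    PolH m n) ∧
  (∀ P ∈ PolH m n, ∀ (l : ℂ) (e : ℂ × ℂ), P (l * e.1, l * e.2) = l ^ m * conj l ^ n * P e) ∧
  (∀ P ∈ PolH m n, Continuous P) ∧
  (∀ P ∈ PolH m n, ∃ c : Fin (m + 1) → Fin (n + 1) → ℂ, ∀ x : ℂ,
    P (x, 1) = ∑ i, ∑ j, c i j * (x ^ (i : ℕ) * conj x ^ (j : ℕ))) ∧
  ∀ c : Fin (m + 1) → Fin (n + 1) → ℂ, ∃ P ∈ PolH m n, ∀ x : ℂ,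
    P (x, 1) = ∑ i, ∑ j, c i j * (x ^ (i : ℕ) * conj x ^ (j : ℕ))

/-- [NL A gr] the growth. (Uses `A_pol`. Compare `CG/P_Vgr.lean`.)

Proof. Let `θ = 31/32`. Claim: there is `κ` with `‖F o (x, 1)‖ ≤ κ` for all `o` and all `x ∈ kC` with `‖x‖ ≤ θ`. Induction on `nq q`, `x q = p`, `q ≠ 0`. `x = 0`: `(0, 1) = va mS (1, 0)`, `F o (0, 1) = 0 + P (1, 0)` (`eqv`, `inf`), one of finitely many numbers. `x ≠ 0`: `(x, 1) = va mS (1, -x)`, `F o (x, 1) = F o' (1, -x) + P (1, -x)` with `o' = mS⁻¹ • o` and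
`F o' (1, -x) = (-x)^m conj(-x)^n F o' (-1/x, 1)` (`hom`). Choose `β` (`Eu`) with `‖-1/x - β‖ ≤ θ`, `y = -1/x - β`; `‖F o' (y + β, 1)‖ ≤ ‖F o'' (y, 1)‖ + C (1 + ‖β‖)^(n+1)` (`gro`), `‖β‖ ≤ 1/‖x‖ + 1`; the denominator of `y` is `p` with `nq p < nq q` (as in `P_Vgr.lean`; or `y = 0`, then use the bound for `x = 0`), so `‖F o'' (y, 1)‖ ≤ κ` by induction. As `‖x‖^(m+n) (2 + 1/‖x‖)^(n+1) ≤ 3^(n+1)` (`m ≥ 1`, `‖x‖ ≤ 1`):
`‖F o (x, 1)‖ ≤ θ^(m+n) κ + |C| 3^(n+1) + C'`, `C'` a bound for the finitely many polynomials `P` on `{(1, -x) : ‖x‖ ≤ 1}` (`A_pol`: continuous, compact set). So choose `κ ≥ (|C| 3^(n+1) + C') / (1 - θ)` and `κ ≥` the values at `0`. General `x`: `x = y + β`, `‖y‖ ≤ θ`, `gro`. -/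
def A_gr : Prop := ∀ a b : ℤ, b ^ 2 + 4 * a < 0 → Eu a b → ∀ m n : ℕ, 1 ≤ m →
  ∀ (Ω : Type) [MulAction (GQ a b) Ω] [Finite Ω] (F : Ω → ℂ × ℂ → ℂ), FamA a b m n F →
  ∃ κ : ℝ, 0 ≤ κ ∧ ∀ o, ∀ x ∈ kC a b, ‖F o (x, 1)‖ ≤ κ * (1 + ‖x‖) ^ (n + 1)

/-- [NL A red] reduction theory. (Uses `V_cov`, proved in `CG/P_Vcov.lean`.)

Proof. `X = ((x₀, δ), (1, 0)) : MM`, `dX X = - δ ≠ 0`. `V_cov` gives `g` with `Y = ac g X ∈ Sg`, `Y.1 = (p x₀ + q, p δ)`, `Y.2 = (r x₀ + s, r δ)` (`p, q, r, s` the images of the entries of `g`), `dX Y = - δ` (the determinant is preserved). `D = nr Y = ‖r x₀ + s‖² + ‖r δ‖² ≤ 5 δ`. `D > 0` (otherwise `dX Y = 0`). The identity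
`(‖Y.1.1‖² + ‖Y.1.2‖²) D = ‖Y.1.1 conj Y.2.1 + Y.1.2 conj Y.2.2‖² + ‖dX Y‖² ≤ D² + δ²`. -/
def A_red : Prop := ∀ a b : ℤ, b ^ 2 + 4 * a < 0 → Eu a b → IsPrincipalIdealRing (Qf a b ℤ) →
  ∀ (x₀ : ℂ) (δ : ℝ), 0 < δ → ∃ (g : GQ a b) (D : ℝ), 0 < D ∧ D ≤ 5 * δ ∧
  ‖iC a b (g.val 1 0) * x₀ + iC a b (g.val 1 1)‖ ^ 2 + (‖iC a b (g.val 1 0)‖ * δ) ^ 2 = D ∧
  ‖iC a b (g.val 0 0) * x₀ + iC a b (g.val 0 1)‖ ^ 2 + (‖iC a b (g.val 0 0)‖ * δ) ^ 2 ≤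
    D + δ ^ 2 / D

/-- [NL A app] local approximation by polynomials. (Uses `A_pol`, `A_gr`, `A_red`.)

Proof. `κ` from `A_gr`. Given `o`, `x₀`, `0 < δ ≤ 1` let `g`, `D` be from `A_red`, `p, q, r, s` the images of the entries. For `x ∈ kC` with `‖x - x₀‖ ≤ δ`: `‖r x + s‖ ≤ ‖r x₀ + s‖ + ‖r‖ δ ≤ √(2 D)`, `‖p x + q‖ ≤ √(2 (D + δ²/D))`. `eqv` for `g` and the element `o' = g • o`: `F o (x, 1) = F (g⁻¹ • o') (x, 1) = F o' (p x + q, r x + s) - P (x, 1)`. If `r x + s ≠ 0`: by `hom`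
`‖F o' (p x + q, r x + s)‖ = ‖r x + s‖^(m+n) ‖F o' (y, 1)‖`, `y = (p x + q)/(r x + s) ∈ kC`, at most `κ ‖r x + s‖^(m+n) (1 + ‖y‖)^(n+1) ≤ κ 2^(n+1) (‖r x + s‖^(m+n) + ‖r x + s‖^(m-1) ‖p x + q‖^(n+1))`. If `r x + s = 0` then `F o' (p x + q, 0) = 0` (`hom`, `inf`; `p x + q ≠ 0`). `‖r x + s‖^(m+n) ≤ (10 δ)^((m+n)/2)`; and the square of `‖r x + s‖^(m-1) ‖p x + q‖^(n+1)` is at most
`(2 D)^(m-1) (2 (D + δ²/D))^(n+1) ≤ c (D^(m+n) + D^(m-1) δ^(2(n+1)) / D^(n+1)) = c (D^(m+n) + D^(m-n-2) δ^(2n+2)) ≤ c' δ^(m+n)` as `D ≤ 5 δ` and `m ≥ n + 2`. -/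
def A_app : Prop := ∀ a b : ℤ, b ^ 2 + 4 * a < 0 → Eu a b → IsPrincipalIdealRing (Qf a b ℤ) →
  ∀ m n : ℕ, n + 2 ≤ m → ∀ (Ω : Type) [MulAction (GQ a b) Ω] [Finite Ω] (F : Ω → ℂ × ℂ → ℂ),
  FamA a b m n F → ∃ C : ℝ, 0 ≤ C ∧ ∀ (o : Ω) (x₀ : ℂ) (δ : ℝ), 0 < δ → δ ≤ 1 →
  ∃ P ∈ PolH m n, ∀ x ∈ kC a b, ‖x - x₀‖ ≤ δ → ‖F o (x, 1) - P (x, 1)‖ ^ 2 ≤ C * δ ^ (m + n)

/-- [NL A ext] the continuous extension. (Uses `A_pol`. `kC` is dense, see `CG/P_Vlim.lean`.)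

Proof. Let `f x = F (x, 1)`, `s = (m + n) / 2`, so the error is `≤ √C δ^s`, `s > 0`. For `x₀ : ℂ` let `P_δ` be the polynomial for `δ = 2^-k`; for `x ∈ kC` close to `x₀` `f x` is within `√C δ^s` of `P_δ (x, 1)`, which is continuous: `f` satisfies the Cauchy criterion at `x₀` along `kC`, so the limit `G x₀` exists, and `G x₀ = f x₀` if `x₀ ∈ kC` (the inequality holds also at `x = x₀`). For `‖y - x₀‖ < δ` the inequality for `x ∈ kC`, `x → y`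
gives `‖G y - P_δ (y, 1)‖² ≤ C δ^(m+n)` in the limit. For the closed ball use the polynomial for `2 δ`, `δ ≤ 1/2`, and `C' = 2^(m+n) C`. The growth: limit of the growth of `f`. -/
def A_ext : Prop := ∀ a b : ℤ, b ^ 2 + 4 * a < 0 → ∀ m n : ℕ, 1 ≤ m → ∀ (f : ℂ → ℂ) (C κ : ℝ),
  (∀ x ∈ kC a b, ‖f x‖ ≤ κ * (1 + ‖x‖) ^ (n + 1)) →
  (∀ (x₀ : ℂ) (δ : ℝ), 0 < δ → δ ≤ 1 → ∃ P ∈ PolH m n, ∀ x ∈ kC a b, ‖x - x₀‖ ≤ δ →
    ‖f x - P (x, 1)‖ ^ 2 ≤ C * δ ^ (m + n)) →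
  ∃ (G : ℂ → ℂ) (C' : ℝ), (∀ x ∈ kC a b, G x = f x) ∧ (∀ x, ‖G x‖ ≤ κ * (1 + ‖x‖) ^ (n + 1)) ∧
  ∀ (x₀ : ℂ) (δ : ℝ), 0 < δ → δ ≤ 1 / 2 → ∃ P ∈ PolH m n, ∀ x, ‖x - x₀‖ ≤ δ →
    ‖G x - P (x, 1)‖ ^ 2 ≤ C' * δ ^ (m + n)

/-- [NL A hol] a function with good holomorphic approximations is holomorphic.

Proof. The error is `≤ c δ^(3/2)`, `c = √C`. `G` is continuous (`G` is within `c δ^(3/2)` of a continuous function near `x₀`; let `δ → 0`). Morera: for a rectangle of side lengths at most `L` divide it into `N²` congruent rectangles; each is contained in a ball of radius `δ = 2 L / N` around its centre, and the integral of `G` over its boundary is the integral of `G - T`, at most `8 δ c δ^(3/2)`; the sum is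
at most `N² 8 c δ^(5/2)`, which tends to zero for `N → ∞`. So the integral of `G` over the boundary of every rectangle is zero and `G` is holomorphic (Mathlib: `Mathlib/Analysis/Complex/HasPrimitives.lean`, Morera's theorem; or construct the primitive by wedge integrals). Other way: with `T_k` for `δ_k = 2^-k` at `x₀`: `T_k - T_(k+1)` is holomorphic and at most `2 c δ_k^(3/2)` on the ball of radius `δ_(k+1)`, so its derivative at `x₀`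
is at most `4 c δ_k^(1/2)` and its second derivative is at most `c'' δ_k^(-1/2)` on the ball of radius `δ_(k+2)` (Cauchy); so `T_k' x₀` converges to a number `d`, and for `‖x - x₀‖ ≤ δ_(k+2)` `‖T_k x - T_k x₀ - T_k' x₀ (x - x₀)‖ ≤ (M + c''' δ_k^(-1/2)) δ_k²`; so `G` has the derivative `d` at `x₀`. -/
def A_hol : Prop := ∀ (G : ℂ → ℂ) (C : ℝ), (∀ (x₀ : ℂ) (δ : ℝ), 0 < δ → δ ≤ 1 / 4 →
    ∃ T : ℂ → ℂ, Differentiable ℂ T ∧ ∀ x, ‖x - x₀‖ ≤ δ → ‖G x - T x‖ ^ 2 ≤ C * δ ^ 3) →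
  Differentiable ℂ G

/-- [NL A one] the case `n = 1`. (Uses `A_hol`.)

Proof. Error `≤ c δ^(5/2)`, `c = √C`. `G` is continuous. For a continuous function `g` on the circle of radius `r` around `x` let `M_r g x = (2 π r)⁻¹ ∫_0^(2π) g (x + r e^(iθ)) e^(iθ) dθ`. (a) If `g y = T₀ y + conj y T₁ y` with entire `T₀, T₁` then `M_r g x = T₁ x` (write `conj y = conj x + r e^(-iθ)`; the mean value property for the holomorphic functions: `∫ (T₀ + conj x T₁)(x + r e^(iθ)) e^(iθ) dθ = 0` and `(2π)⁻¹ ∫ T₁ (x + r e^(iθ)) dθ = T₁ x`).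
(b) `‖M_r g x‖ ≤ r⁻¹ sup ‖g‖`. So for `x₀`, `δ ≤ 1/2`, `T₀, T₁` the approximation on the ball `B(x₀, δ)`, `x ∈ B(x₀, δ/2)` and `0 < r ≤ δ/2`: `‖M_r G x - T₁ x‖ ≤ c δ^(5/2) / r`. Let `b_k x = M_(2^-k) G x`. Apply this at the centre `x` with `δ = 2^-k`, `r = 2^-(k+1)` and `r = 2^-(k+2)`: `‖b_(k+1) x - b_(k+2) x‖ ≤ 6 c (2^-k)^(3/2)`; so `b_k x` converges to a number `G₁ x`, `‖G₁ x - b_(k+1) x‖ ≤ c' (2^-k)^(3/2)`, and for `x ∈ B(x₀, δ/2)`, `δ = 2^-k`: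
`‖G₁ x - T₁ x‖ ≤ c'' δ^(3/2)`. So `A_hol` applies to `G₁` (for general `δ ≤ 1/4` take the power of two between `2 δ` and `4 δ`): `G₁` is entire. `G₀ y = G y - conj y G₁ y`: on `B(x₀, δ/2)` `G y` is within `c δ^(5/2)` of `T₀ y + conj y T₁ y`; `T₀ y + conj y T₁ y - conj y G₁ y = (T₀ y + conj x₀ (T₁ y - G₁ y)) + conj (y - x₀) (T₁ y - G₁ y)`, the first summand is entire, the second is at most `δ c'' δ^(3/2)`. So `A_hol` applies to `G₀`. -/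
def A_one : Prop := ∀ (G : ℂ → ℂ) (C : ℝ), (∀ (x₀ : ℂ) (δ : ℝ), 0 < δ → δ ≤ 1 / 2 →
    ∃ T₀ T₁ : ℂ → ℂ, Differentiable ℂ T₀ ∧ Differentiable ℂ T₁ ∧
      ∀ x, ‖x - x₀‖ ≤ δ → ‖G x - (T₀ x + conj x * T₁ x)‖ ^ 2 ≤ C * δ ^ 5) →
  ∃ G₀ G₁ : ℂ → ℂ, Differentiable ℂ G₀ ∧ Differentiable ℂ G₁ ∧ ∀ x, G x = G₀ x + conj x * G₁ x

/-- [NL A c0] the growth, `n = 0`.

Proof. An entire function with `‖G x‖ ≤ κ (1 + ‖x‖)` is `x ↦ α x + β` (the second derivative is zero by Cauchy's estimate, or the function `(G x - G 0) / x` is bounded: Liouville). -/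
def A_c0 : Prop := ∀ (G : ℂ → ℂ) (κ : ℝ), Differentiable ℂ G →
  (∀ x, ‖G x‖ ≤ κ * (1 + ‖x‖) ^ 1) → ∃ α β : ℂ, ∀ x, G x = α * x + β

/-- [NL A c1] the growth, `n = 1`.

Proof. `G = G₀ + conj x G₁`, `G₀ = ∑ a_i x^i`, `G₁ = ∑ b_i x^i` (power series, `Differentiable` on `ℂ`). For `R > 0`, `i : ℤ` let `I_i = (2π)⁻¹ ∫_0^(2π) G (R e^(iθ)) e^(-i(i-1)θ) dθ = a_(i-1) R^(i-1) + b_i R^(i+1)` (`a_(-1) = 0`), and `‖I_i‖ ≤ κ (1 + R)²`. For `i ≥ 2` divide by `R^(i+1)` and let `R → ∞`: `b_i = 0`; then for `i ≥ 4` divide by `R^(i-1)`: `a_(i-1) = 0`. So `G₀` is a polynomial of degree at most `2` and `G₁` of degree at most `1`.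
(Other way: the function `x G₀ x + R² G₁ x` is entire and equal to `x G x` on the circle of radius `R`, so at most `κ R (1 + R)²` on the disc of radius `R` by the maximum principle; apply this for `R` and `2 R` and subtract: `‖G₁ x‖ ≤ c (1 + R)` for `‖x‖ ≤ R`; so `G₁` is affine, and `‖G₀ x‖ ≤ c' (1 + ‖x‖)²`.) -/
def A_c1 : Prop := ∀ (G₀ G₁ : ℂ → ℂ) (κ : ℝ), Differentiable ℂ G₀ → Differentiable ℂ G₁ →
  (∀ x, ‖G₀ x + conj x * G₁ x‖ ≤ κ * (1 + ‖x‖) ^ 2) →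
  ∃ α β γ α' β' : ℂ, ∀ x, G₀ x = α * x ^ 2 + β * x + γ ∧ G₁ x = α' * x + β'

/-- [NL A main] MAIN RESULT of block A. (Uses `A_pol`, `A_gr`, `A_app`, `A_ext`, `A_hol`, `A_one`, `A_c0`, `A_c1`.)

Proof. `A_gr`, `A_app`, `A_ext` for `f x = F o (x, 1)`: `G`. `n = 0`: `P (x, 1)` is a polynomial in `x` (`A_pol`), so entire, and the error is `C δ^m ≤ C δ^3` (`m ≥ 3`, `δ ≤ 1`): `A_hol`, `A_c0`, and `α x + β` is the value at `(x, 1)` of an element of `PolH m 0` (`A_pol`). `n = 1`: `P (x, 1) = T₀ x + conj x T₁ x`, the error is `C δ^(m+1) ≤ C δ^5`: `A_one`, `A_c1`, `A_pol` (`2 ≤ m`). -/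
def A_main : Prop := ∀ a b : ℤ, b ^ 2 + 4 * a < 0 → Eu a b → IsPrincipalIdealRing (Qf a b ℤ) →
  ∀ m n : ℕ, ((n = 0 ∧ 3 ≤ m) ∨ (n = 1 ∧ 4 ≤ m)) → ∀ (Ω : Type) [MulAction (GQ a b) Ω]
  [Finite Ω] (F : Ω → ℂ × ℂ → ℂ), FamA a b m n F → ∀ o, ∃ P ∈ PolH m n, ∀ x ∈ kC a b,
  F o (x, 1) = P (x, 1)

end

end Pool.Agent.F8.NL
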