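import Pool.Agent.Lib.MP_305fdd_al.F8.NL.StmI

/-!
# MP_305fdd_al, all lattices (project NL): block C (completions)

Facts about the ring `OH`, the group `GH`, the homomorphism `uH` and closures; extensions of crossed homomorphisms to closures (`ExtH`); the valuations `OH → ℤ_q` at split primes. `HD D h C E`: `h : D → GH` lifts the conjugation with the matrix `C` (with the inverse `E`).
-/

set_option autoImplicit false

namespace Pool.Agent.F8.NL

open Pool.Agent.F8.CG Pool.Agent.F8.BG Pool.Agent.MP_305fdd_al Pool.Agent.Lib.MP_305fdd_al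
  Pool.Agent.F8
open scoped QuadraticAlgebra ComplexConjugate Kronecker

noncomputable section

/-- [NL C o] arithmetic of `OH`.

Proof. An element `x : OH` is zero iff `rH m x = 0` for all `m` (`OH_ext`); for `t : ℤ[w]`, `rH m (jH t)` is the class of `t`, zero iff `m ∣ t`. (1) `m ∣ t` for all `m` implies `t = 0`. (2) Let `n = nq t` (`t * cjq t = n`), a positive integer. For `m`: let `y = lfH (m n) x`; `t y` is divisible by `m n`, `t y = m n z = m t (cjq t) z`, so `y = m (cjq t) z` (a domain), and `rH m x = 0` (`rH_map`). (3) Let `n = nq q`, `y = lfH n x`: `q y - p` is divisible by `n = q cjq q`, so `q ∣ p`, `p = q r`, and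
`jH q * (x - jH r) = 0`, (2). (4) Let `x` be the inverse, (3) for `q = t`, `p = 1`. (5) An identity: `f = (f₀ e'₁ - f₁ e'₀) e + (e₀ f₁ - e₁ f₀) e'` if `e₀ e'₁ - e₁ e'₀ = 1`. -/
def C_o : Prop := ∀ a b : ℤ, b ^ 2 + 4 * a < 0 → Function.Injective (jH a b) ∧
  (∀ (t : Qf a b ℤ) (x : OH a b), t ≠ 0 → jH a b t * x = 0 → x = 0) ∧
  (∀ (p q : Qf a b ℤ) (x : OH a b), q ≠ 0 → jH a b q * x = jH a b p →
    ∃ r, p = q * r ∧ x = jH a b r) ∧
  (∀ t : Qf a b ℤ, IsUnit (jH a b t) → IsUnit t) ∧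
  ∀ (R : Type) [CommRing R] (e e' f : Fin 2 → R), CG.om e e' = 1 →
    f = CG.om f e' • e + CG.om e f • e'

/-- the diagonal matrix `diag(u, v)`, `u v = 1` -/
def dg {R : Type} [CommRing R] (u v : R) (h : u * v = 1) : SL2 R :=
  AB.mx u 0 0 v (by rw [h]; ring)

/-- [NL C u] the homomorphism `uH`.

Proof. Use `uH_ap`: if all `eU (m z) ∈ X.N` (for example `m = lvN X`, `lvN_mem`) and `rH m s` is the class of `t` then `pr X (uH s)` is the class of `eU t`. (1) Let `m = lvN X`, `t`, `t'` with the classes `rH m s`, `rH m s'`; then `t + t'` has the class `rH m (s + s')`. (2) `t` itself. (3) `SL_jH_ext`, `piH_pm`: let `X = NFG a b M` and approximate: `pm M (uH s) = rdq M (eU t)` for `rH M s = [t]` (`M` works as a level of `NFG a b M`). (4) `M = lvN X`, `t = 0`. (5) If `rH m s = 0` for all `m` then `s = 0`; by (3) and the entry `(0, 1)`.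
(6) `diag(u, v) eU t diag(u, v)⁻¹ = eU (u² t)`, and `rH m (jH u ^ 2 * s)` is the class of `u² t`. -/
def C_u : Prop := ∀ a b : ℤ, (∀ s t : OH a b, uH (s + t) = uH s * uH t) ∧
  (∀ t : Qf a b ℤ, uH (jH a b t) = iH a b (eU t)) ∧ (∀ s : OH a b, piH a b (uH s) = eU s) ∧
  (∀ X : NF a b, ∃ M : ℕ+, ∀ s : OH a b, rH a b M s = 0 → pr X (uH s) = 1) ∧
  (∀ s : OH a b, uH s = 1 → s = 0) ∧
  ∀ (u v : Qf a b ℤ) (h : u * v = 1) (s : OH a b),
    iH a b (dg u v h) * uH s * (iH a b (dg u v h))⁻¹ = uH (jH a b u ^ 2 * s)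

/-- [NL C cpt] compactness.

Proof. `NF a b` is directed (the intersection of two normal subgroups of finite index), the quotients are finite, so the inverse limit of the nonempty finite sets `S X` is not empty (`nonempty_sections_of_finite_inverse_system`, or Tychonoff's theorem: the product of the finite discrete spaces `S X` is compact, and the closed conditions for the pairs `X ≤ Y` have the finite intersection property). -/
def C_cpt : Prop := ∀ (a b : ℤ) (S : ∀ X : NF a b, Set (GQ a b ⧸ X.N)),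
  (∀ X, (S X).Nonempty) → (∀ (X Y : NF a b) (h : X.N ≤ Y.N), ∀ x ∈ S X,
    QuotientGroup.map X.N Y.N (MonoidHom.id _) h x ∈ S Y) → ∃ x : GH a b, ∀ X, pr X x ∈ S X

/-- [NL C bor] the closure of the upper triangular matrices. (Uses `C_u`, `C_cpt`.)

Proof. Let `m ≥ 3`, `X₀ = NFG a b m`. For `X : NF` let `x ≡ b` modulo `X ∩ X₀`, `b ∈ Bor`, `b = [[u, r], [0, v]]`, `u v = 1`. The unit `u` is determined by its class modulo `m` (`p_Cun` in `CG/P_Cun.lean`: a unit congruent to one modulo `m ≥ 3` is one), and this class is the entry of `pm m x`. So `u`, `v` are the same for all `X`. Let `x' = (iH (dg u v))⁻¹ x`; for all `X` it is congruent to some `eU t` modulo `X`. Let `s` be the entry `(0, 1)` of `piH x'`. For `X` let `M = lvN X` and approximate `x'` modulo `X ∩ NFG M` by `eU t`: `rH M s = [t]`, so by `uH_ap` `pr X (uH s) = [eU t] = pr X x'`.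
Conversely, the right hand side is in the closure. -/
def C_bor : Prop := ∀ a b : ℤ, b ^ 2 + 4 * a < 0 → ∀ x : GH a b, x ∈ clH (Bor a b) ↔
  ∃ (u v : Qf a b ℤ) (h : u * v = 1) (s : OH a b), x = iH a b (dg u v h) * uH s

/-- [NL C cl] closures.

Proof. (1) `X.N = W.normalCore` is in `NF`; if `iH g ≡ g'` modulo `X` with `g' ∈ W` then `g'⁻¹ g ∈ X.N ≤ W`. (2) the same: if `Ap X x g`, `X.N ≤ W` and `x ∈ clH W` then `x ≡ g' ∈ W` and `g ∈ W`; conversely, if `Ap X x g`, `g ∈ W`, `X.N ≤ W`: for `Y : NF` approximate `x` modulo `X ∩ Y` by `g''`; `g'' ∈ g X.N ⊆ W`. (3) `(clH W).comap h` has finite index in `D`: with `X` as before it contains the kernel of `pr X ∘ h`; `Subgroup.index_map_subtype`. -/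
def C_cl : Prop := ∀ (a b : ℤ) (W : Subgroup (GQ a b)), W.FiniteIndex →
  (∃ X : NF a b, X.N ≤ W) ∧ (∀ g, iH a b g ∈ clH W ↔ g ∈ W) ∧
  (∀ (X : NF a b) (x : GH a b) (g : GQ a b), X.N ≤ W → Ap X x g → (x ∈ clH W ↔ g ∈ W)) ∧
  ∀ (D : Subgroup (GQ a b)) (h : D →* GH a b), D.FiniteIndex →
    (((clH W).comap h).map D.subtype).FiniteIndex

/-- `h : D → GH` lifts the conjugation with `C`. -/
structure HD {a b : ℤ} {D : Subgroup (GQ a b)} (h : D →* GH a b)
    (C E : Matrix (Fin 2) (Fin 2) (OH a b)) : Prop where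
  /-- the inverse -/
  inv : C * E = 1
  /-- the inverse -/
  inv' : E * C = 1
  /-- the lift -/
  lft : ∀ x : D, (piH a b (h x)).val = C * (SLm (jH a b) x).val * E

/-- [NL C gl] the matrix `C`.

Proof. For `m : ℕ+` the set of the pairs `(C, E)` as in the hypothesis is finite and not empty, and reduction maps the set for `n` to the set for `m` if `m ∣ n` (`pm_map`, `rdq_map`). So there is a compatible family of such pairs (`nonempty_sections_of_finite_inverse_system`, for the directed set `ℕ+` with divisibility; or along the sequence `n!` and then restrict), i.e. matrices over `OH`. -/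
def C_gl : Prop := ∀ (a b : ℤ) (D : Subgroup (GQ a b)) (h : D →* GH a b),
  (∀ m : ℕ+, ∃ C E : Matrix (Fin 2) (Fin 2) (Qf a b (ZMod m)), C * E = 1 ∧ E * C = 1 ∧
    ∀ x : D, (pm m (h x)).val = C * (rdq a b m x).val * E) →
  ∃ C E : Matrix (Fin 2) (Fin 2) (OH a b), HD h C E

/-- [NL C loc] local constancy.

Proof. Work modulo `r`: the ring `ℤ[w] ⧸ (r)` is finite. Replace `X₀` by a smaller one so that `τ n ≡ 1` modulo `r` for `n ∈ X₀.N` (the kernel of the homomorphism of the group to the finite group of invertible matrices modulo `r`). For `n, n' ∈ X₀.N`: `c n n' ≡ c 1 1 ≡ 0`, so `y (n n') ≡ y n + y n'`: `y` is a homomorphism from `X₀.N` to a finite additive group, so it is zero modulo `r` on a subgroup of finite index of `X₀.N`, and on a normal subgroup `X.N` of finite index of the whole group (normal core). For `g ∈ W`, `n ∈ X.N`: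
`y (g n) ≡ y g + τ g (y n) + c g n ≡ y g + 0 + c g 1 ≡ y g`. -/
def C_loc : Prop := ∀ a b : ℤ, b ^ 2 + 4 * a < 0 → ∀ (κ : Type) [Fintype κ] [DecidableEq κ]
  (τ : GQ a b →* Matrix κ κ (Qf a b ℤ)) (W : Subgroup (GQ a b)), W.FiniteIndex →
  ∀ (r : Qf a b ℤ), r ≠ 0 → ∀ (c : GQ a b → GQ a b → κ → Qf a b ℤ) (X₀ : NF a b), X₀.N ≤ W →
  (∀ g ∈ W, ∀ h ∈ W, ∀ n ∈ X₀.N, ∀ n' ∈ X₀.N, ∀ i, r ∣ c (g * n) (h * n') i - c g h i) →
  (∀ g ∈ W, ∀ i, r ∣ c g 1 i) → ∀ y : GQ a b → κ → Qf a b ℤ,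
  (∀ g ∈ W, ∀ h ∈ W, ∀ i, r ∣ (y (g * h) - y g - (τ g).mulVec (y h) - c g h) i) →
  ∃ X : NF a b, X.N ≤ X₀.N ∧ ∀ g ∈ W, ∀ n ∈ X.N, ∀ i, r ∣ y (g * n) i - y g i

/-- `Z` is the extension of `z` to the closure of `W`. -/
def ExtH {a b : ℤ} {κ : Type} (W : Subgroup (GQ a b)) (z : GQ a b → κ → Qf a b ℤ)
    (Z : GH a b → κ → OH a b) : Prop :=
  ∀ M : ℕ+, ∃ X : NF a b, X.N ≤ W ∧ ∀ x ∈ clH W, ∀ g, Ap X x g → ∀ i,
    rH a b M (Z x i) = Qfm a b (Int.castRingHom (ZMod M)) (z g i)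

/-- the forms of degree `m` over `OH` -/
def tH (a b : ℤ) (m : ℕ) : GH a b →* Matrix (Fin (m + 1)) (Fin (m + 1)) (OH a b) :=
  (sm m).comp (piH a b)

/-- the forms of degree `m` over `OH`, with the conjugate action -/
def tHc (a b : ℤ) (m : ℕ) : GH a b →* Matrix (Fin (m + 1)) (Fin (m + 1)) (OH a b) :=
  (sm m).comp ((SLm (cjq a b Zh)).comp (piH a b))

/-- [NL C ext] the extension of a crossed homomorphism. (Uses `C_loc`, `C_cl`.)

Proof. (1) For `M : ℕ+` let `X_M` be from `C_loc` for `r = M`, `c = 0` (`X₀` the normal core of `W`). For `x ∈ clH W` choose `g` with `Ap X_M x g` (`g ∈ W` by `C_cl`): the class of `z g i` modulo `M` does not depend on the choice of `g` (`g' = g n`, `n ∈ X_M.N`), and for `M ∣ M'` the classes are compatible (approximate modulo `X_M ∩ X_M'`). So they define an element `Z x i : OH` (the components `re` and `im` are in `Zh`). (2), (3): modulo `M`, with approximations `g`, `h` of `x`, `y` modulo an `X` contained in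 the `X_M`'s and in `NFG M`: `g h` approximates `x y`,
and `rH M` of `piH x` is the class of `g` (`piH_pm`, `pm_ap`); `sb_map` for the ring homomorphisms `rH M` and `ℤ[w] → (ℤ/M)[w]`; for (3) `cjq` commutes with them. (4) `Ap X (iH g) g`. -/
def C_ext : Prop := ∀ a b : ℤ, b ^ 2 + 4 * a < 0 → ∀ W : Subgroup (GQ a b), W.FiniteIndex →
  (∀ (κ : Type) [Fintype κ] [DecidableEq κ] (τ : GQ a b →* Matrix κ κ (Qf a b ℤ))
    (z : GQ a b → κ → Qf a b ℤ), CH τ W z → ∃ Z, ExtH W z Z) ∧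
  (∀ (m : ℕ) z, CH (tV m (RingHom.id (Qf a b ℤ))) W z → ∀ Z, ExtH W z Z →
    CH (tH a b m) (clH W) Z) ∧
  (∀ (m : ℕ) z, CH (tV m (cjq a b ℤ)) W z → ∀ Z, ExtH W z Z → CH (tHc a b m) (clH W) Z) ∧
  ∀ (κ : Type) (z : GQ a b → κ → Qf a b ℤ) Z, ExtH W z Z → ∀ g ∈ W, ∀ i,
    Z (iH a b g) i = jH a b (z g i)

/-- a valuation of `OH`: the element `w` is mapped to the `q`-adic number `T`. -/
structure VH {a b : ℤ} (q : ℕ) [Fact q.Prime] (v : OH a b →+* ℤ_[q]) : Prop where
  /-- continuity -/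
  con : ∀ (k : ℕ) (m : ℕ+) (x : OH a b), (m : ℕ) = q ^ k → rH a b m x = 0 → (q : ℤ_[q]) ^ k ∣ v x
  /-- the difference of the two roots is a unit -/
  dif : IsUnit (v (jH a b (wq a b ℤ)) - v (jH a b (cjq a b ℤ (wq a b ℤ))))
  /-- injective on `ℤ[w]` -/
  inj : Function.Injective (v.comp (jH a b))

/-- [NL C v] split primes. (Cite `p_CCsp`.)

Proof. `p_CCsp` for `n' = n (b² + 4 a)` gives `q`, not dividing `n` and `b² + 4 a`, and a root `t` of `t² = a + b t` modulo `q`; `(2 t - b)² = b² + 4 a ≠ 0`. Hensel's lemma (`hensels_lemma`, for `X² - b X - a`) gives `T : ℤ_[q]` with `T² = a + b T`, `T ≡ t`. `Zh → ℤ_[q]`: `PadicInt.lift` for the projections to `ZMod (q ^ k)`. `v = evq a b (Zh → ℤ_[q]) T`. con: if `rH (q^k) x = 0` then the two coordinates are divisible by `q^k` in `ℤ_[q]` (`PadicInt.lift_spec`, the kernel of `ℤ_[q] → ZMod (q^k)`). dif: `T - (b - T) = 2 T - b` is not divisible by `q`.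
inj: `v (jH x) = 0` implies `v (jH (x * cjq x)) = nq x = 0`. `π`: a generator of the kernel of `ℤ[w] → ℤ_[q] → ZMod q` (`PadicInt.toZMod`), not zero as it divides `q`. -/
def C_v : Prop := ∀ a b : ℤ, b ^ 2 + 4 * a < 0 → IsPrincipalIdealRing (Qf a b ℤ) → ∀ n : ℕ, n ≠ 0 →
  ∃ (q : ℕ) (_ : Fact q.Prime) (v : OH a b →+* ℤ_[q]) (π : Qf a b ℤ), VH q v ∧ ¬ q ∣ n ∧ π ≠ 0 ∧
    ∀ x : Qf a b ℤ, π ∣ x ↔ (q : ℤ_[q]) ∣ v (jH a b x)

end

end Pool.Agent.F8.NL
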