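import Pool.Agent.Lib.MP_305fdd_al.F8.NL.StmI

/-!
# MP_305fdd_al, all lattices (project NL): block E (Eisenstein series)

For a vector `e` and `g ∈ SL₂(ℂ)` let `s = sE e g` (`CG/StmL.lean`; `ω(e, s) = 1`). `OmE m e g g'` is the form `v ↦ ∫ ω(s + x e, v)^m dx`, the integral from `s = sE e g` to `s' = sE e g'`; it is `ω(s', s) / (m + 1) ∑ ω(s', v)^i ω(s, v)^(m - i)`. The Eisenstein series is `Ez F g = ∑ F(e) OmE m e 1 g`, over the primitive vectors.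
-/

set_option autoImplicit false

namespace Pool.Agent.F8.NL

open Pool.Agent.F8.CG Pool.Agent.F8.BG Pool.Agent.MP_305fdd_al Pool.Agent.Lib.MP_305fdd_al
  Pool.Agent.F8
open scoped QuadraticAlgebra ComplexConjugate

noncomputable section

/-- the form `v ↦ ω(s', v)^i ω(s, v)^(m - i)` -/
def lf (m : ℕ) (s s' : Fin 2 → ℂ) (i : Fin (m + 1)) : Fin (m + 1) → ℂ :=
  fun k => sb m !![-s' 1, s' 0; -s 1, s 0] k i

/-- the integral from `s` to `s'` -/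
def Om (m : ℕ) (s s' : Fin 2 → ℂ) : Fin (m + 1) → ℂ :=
  (CG.om s' s / ((m : ℂ) + 1)) • ∑ i, lf m s s' i

/-- the term of the vector `e` -/
def OmE (m : ℕ) (e : Fin 2 → ℂ) (g g' : SL2 ℂ) : Fin (m + 1) → ℂ := Om m (sE e g) (sE e g')

/-- the Eisenstein series -/
def Ez (a b : ℤ) (m : ℕ) (F : (Fin 2 → Qf a b ℤ) → ℂ) (g : GQ a b) : Fin (m + 1) → ℂ :=
  ∑' e : {e : Fin 2 → Qf a b ℤ // Prm e}, F e • OmE m (vC a b e) 1 (iG a b g)

/-- the value of the term of `e` for `[[1, x], [0, 1]]` at `(x, 1)` -/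
def Sx (m : ℕ) (e : Fin 2 → ℂ) (x : ℂ) : ℂ := evm m (OmE m e 1 (eU x)) ![x, 1]

/-- [NL E om] the algebra of `Om`.

Proof. (1) `evm m (column i of sb m A) v = evm m ((sb m A).mulVec (Pi.single i 1)) v = evm m (Pi.single i 1) (A v) = (A v)₀^i (A v)₁^(m-i)` (`evm_sb`), `A v = (ω(s', v), ω(s, v))`. (2) Both vectors of ratio: `s' - s = ζ e` with `ζ = ω(s', s)` (`ω(e, s' - s) = 0`, `e ≠ 0`, and `ω(s', s) = ω(s + ζ e, s) = ζ`), so `ω(s', v) - ω(s, v) = ω(s', s) ω(e, v)`, and the geometric sum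
(`Commute.geom_sum₂_mul` or `geom_sum₂_mul`). (6) Choose `v₀` with `ω(e, v₀) ≠ 0`; if `P ≠ Q` the polynomial `x ↦ evm m (P - Q) (x, 1)` (or `(1, x)`) is not zero, so `evm m (P - Q) v ≠ 0` for some `v = (x, 1)` with `ω(e, v) ≠ 0` (only finitely many `x` are excluded; `ω(e, (x, 1)) = e₀ - x e₁` is not identically zero). (3) by (2) and (6): both sides have the same values at `v` with `ω(e, v) ≠ 0`.
(4) by `evm_sm`, (2), (6): `ω(h s, v) = ω(s, h⁻¹ v)`, or directly from (1): `ω(h s', h s) = ω(s', s)` and `evm m (lf (h s) (h s') i) v = ω(s', h⁻¹ v)^i ω(s, h⁻¹ v)^(m-i)`. (5) `ω(s, e) = ω(s', e) = -1`, so every summand is `(-1)^m`. -/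
def E_om : Prop := ∀ m : ℕ,
  (∀ (s s' : Fin 2 → ℂ) (i : Fin (m + 1)) (v : Fin 2 → ℂ),
    evm m (lf m s s' i) v = CG.om s' v ^ (i : ℕ) * CG.om s v ^ (m - i)) ∧
  (∀ e s s' v : Fin 2 → ℂ, CG.om e s = 1 → CG.om e s' = 1 →
    ((m : ℂ) + 1) * CG.om e v * evm m (Om m s s') v = CG.om s' v ^ (m + 1) - CG.om s v ^ (m + 1)) ∧
  (∀ e s s' s'' : Fin 2 → ℂ, CG.om e s = 1 → CG.om e s' = 1 → CG.om e s'' = 1 →
    Om m s s' + Om m s' s'' = Om m s s'') ∧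
  (∀ (h : SL2 ℂ) (s s' : Fin 2 → ℂ), Om m (h.val.mulVec s) (h.val.mulVec s') =
    (sm m h).mulVec (Om m s s')) ∧
  (∀ e s s' : Fin 2 → ℂ, CG.om e s = 1 → CG.om e s' = 1 →
    evm m (Om m s s') e = (-1) ^ m * CG.om s' s) ∧
  ∀ (P Q : Fin (m + 1) → ℂ) (e : Fin 2 → ℂ), e ≠ 0 →
    (∀ v, CG.om e v ≠ 0 → evm m P v = evm m Q v) → P = Q

/-- [NL E bd] estimates. (Cite `p_Lalg`.)

Proof. `‖·‖` is the maximum norm. (1) `|ω(s', s)| ≤ 2 ‖s‖ ‖s'‖`. The entries of `sb m A` are the coefficients of a product of `m` polynomials `p X + q` with `|p|, |q| ≤ κ`, `κ` the maximum of the absolute values of the entries of `A`; they are bounded by `2^m κ^m` (induction on the number of factors: sum of the absolute values of the coefficients). (2) For `g = eU x` (columns `(1, 0)`, `(x, 1)`) `nE e g = |e₁|² + |e₀ - x e₁|²` (up to signs) `≥ κ ‖e‖²`, with `κ > 0` depending only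 on `R`:
`|e₀| ≤ |e₀ - x e₁| + R |e₁|`. `‖sE e g‖ ≤ (nE e g)⁻¹ · 2 · (2 ‖e‖ (1 + R)) (1 + R)`. (3) is (2) for general `g`: see the proof of `L_bd` (`P_Lbd.lean`). (4) `|evm m P v| ≤ (m + 1) ‖P‖ ‖v‖^m`. -/
def E_bd : Prop := (∀ m : ℕ, ∃ C : ℝ, ∀ s s' : Fin 2 → ℂ,
    ‖Om m s s'‖ ≤ C * (‖s‖ + ‖s'‖) ^ (m + 2)) ∧
  (∀ R : ℝ, ∃ C : ℝ, ∀ (e : Fin 2 → ℂ) (x : ℂ), e ≠ 0 → ‖x‖ ≤ R → ‖sE e (eU x)‖ ≤ C / ‖e‖) ∧
  (∀ g : SL2 ℂ, ∃ C : ℝ, ∀ e : Fin 2 → ℂ, e ≠ 0 → ‖sE e g‖ ≤ C / ‖e‖) ∧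
  ∀ (m : ℕ) (P : Fin (m + 1) → ℂ) (v : Fin 2 → ℂ), ‖evm m P v‖ ≤ (m + 1) * ‖P‖ * ‖v‖ ^ m

/-- [NL E sm] summability. (Uses `E_bd`; cite `p_Llat`.)

Proof. (1) For `e ≠ 0` `‖vC e‖ ≥ 1` (a nonzero coordinate has `|iC x|² = nq x ≥ 1`), so `(‖vC e‖^k)⁻¹ ≤ (‖vC e‖^5)⁻¹` for `k ≥ 5` (also for `e = 0`: `0 ≤ 0`), and `p_Llat`. (2) `E_bd`: `‖OmE m e g g'‖ ≤ C ‖e‖^-(m+2)`, and primitive vectors are not zero. -/
def E_sm : Prop := ∀ a b : ℤ, b ^ 2 + 4 * a < 0 →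
  (∀ e : Fin 2 → Qf a b ℤ, e ≠ 0 → 1 ≤ ‖vC a b e‖) ∧
  (∀ k : ℕ, 5 ≤ k → Summable fun e : Fin 2 → Qf a b ℤ => (‖vC a b e‖ ^ k)⁻¹) ∧
  ∀ m : ℕ, 3 ≤ m → ∀ F : (Fin 2 → Qf a b ℤ) → ℂ, (∃ C : ℝ, ∀ e, ‖F e‖ ≤ C) → ∀ g g' : SL2 ℂ,
  Summable fun e : {e : Fin 2 → Qf a b ℤ // Prm e} => F e • OmE m (vC a b e) g g'

/-- [NL E coc] the Eisenstein series is a crossed homomorphism. (Uses `E_om`, `E_sm`; cite `p_Lalg`.)

Proof. `g = iG x`, `h = iG y`. `OmE m e 1 (g h) = OmE m e 1 g + OmE m e g (g h)` (`E_om` (3), `p_Lalg`), and with `e = x e'`, i.e. `vC e = g (vC e')` (`vC` of a product): `OmE m e g (g h) = (sm m g) OmE m e' 1 h` (`p_Lalg`: `sE (g v) (g h) = g (sE v h)`; `E_om` (4)). Sum over `e` (`E_sm`), reindex with the bijection `e' ↦ x e'` of the primitive vectors, `F (x e') = F e'`; the matrix commutes with the sum (`Matrix.mulVec` is a continuous linear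 map; or coordinatewise with `tsum_mul_left`). -/
def E_coc : Prop := ∀ a b : ℤ, b ^ 2 + 4 * a < 0 → ∀ m : ℕ, 3 ≤ m →
  ∀ (W : Subgroup (GQ a b)) (F : (Fin 2 → Qf a b ℤ) → ℂ), (∃ C : ℝ, ∀ e, ‖F e‖ ≤ C) →
  (∀ x ∈ W, ∀ e, Prm e → F (x.val.mulVec e) = F e) → CH (tV m (iC a b)) W (Ez a b m F)

/-- [NL E bv] the values at the cusps. (Uses `E_om`, `E_bd`, `E_sm`, `E_coc`, `B_bv`; cite `p_Lalg`, `p_Vtv`.)

Proof. Let `e` be primitive, `t ∈ ℤ[w]`, `τ = tv e (N t)` (`iG τ = tv (vC e) (N t)`; write `e` for `vC e`). `evm m (Ez τ) e = ∑ F(f) evm m (OmE m f 1 τ) e`. `sE f τ = τ (sE (τ⁻¹ f) 1)`. (1) The `f` with `ω(f, e) = 0`: `f = u e` with a unit `u` (both are primitive), `τ f = f`; `s = sE f 1`, `s' = τ s = s + N t ω(e, s) e = s + N t u⁻² f` (`ω(f, s) = 1`), `ω(s', s) = N t u⁻²`, `evm m (Om m s s') e = u^-m evm m (Om m s s') f = u^-m (-1)^m N t u⁻² = N t` (`UnE`,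 `m` even).
The sum over the units is `N t #units F(e)`. (2) The other `f`: `|ω(f, e)| ≥ 1` (the image of a nonzero element of the ring), and by `E_om` (2) `|evm m (OmE m f 1 τ) e| ≤ |ω(s', e)|^(m+1) + |ω(s, e)|^(m+1)`; `|ω(s, e)| ≤ C / ‖f‖`, `ω(s', e) = ω(sE (τ⁻¹ f) 1, τ⁻¹ e) = ω(sE (τ⁻¹ f) 1, e)`, so `|ω(s', e)| ≤ C / ‖τ⁻¹ f‖`. So the sum over these `f` is bounded by a constant `C'` which does not depend on `t`
(`∑ ‖τ⁻¹ f‖^-(m+1) ≤ ∑ ‖f‖^-(m+1) < ∞`, a reindexing; `m + 1 ≥ 5`). (3) By `B_bv` (`BvM.mul`) the left hand side is `bv e * t`. So `‖bv e - N #units F(e)‖ ‖t‖ ≤ C'` for `t = 1, 2, 3, ...`, and `bv e = N #units F(e)`. -/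
def E_bv : Prop := ∀ a b : ℤ, b ^ 2 + 4 * a < 0 → ∀ m : ℕ, 4 ≤ m → Even m → UnE a b (m + 2) →
  ∀ (W : Subgroup (GQ a b)) (F : (Fin 2 → Qf a b ℤ) → ℂ), (∃ C : ℝ, ∀ e, ‖F e‖ ≤ C) →
  (∀ x ∈ W, ∀ e, Prm e → F (x.val.mulVec e) = F e) →
  (∀ u : Qf a b ℤ, IsUnit u → ∀ e, Prm e → F (u • e) = F e) → ∀ N : ℕ, Lv W N →
  ∀ e, Prm e → bv m N (iC a b) (Ez a b m F) e = N * Nat.card (Qf a b ℤ)ˣ * F e

/-- [NL E dif] the derivative of the term.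

Proof. `g = eU x` has the columns `(1, 0)` and `(x, 1)`; `nE e g = D = |e₀ - x e₁|² + |e₁|²`. `s' = sE e g`: `ω(e, (1, 0)) = - e₁`, `ω(e, (x, 1)) = e₀ - x e₁`, so `s' = D⁻¹ (- conj e₁ (1, 0) + conj (e₀ - x e₁) (x, 1))`. `s = sE e 1` does not depend on `x`, `s' = s + ζ e`, `ζ = ω(s', s)`. With `v = (x, 1)`, `p = ω(s, v)`, `q = ω(e, v)` (affine functions of `x`): `ω(s', v) = p + ζ q`,
`Sx = ζ / (m + 1) ∑ (p + ζ q)^i p^(m-i) = G(ζ, x)` for a polynomial `G` with `∂G/∂ζ = (p + ζ q)^m` (for `q ≠ 0` `G = ((p + ζ q)^(m+1) - p^(m+1)) / ((m+1) q)`; in general `G = ∑_k C(m,k) p^(m-k) q^k ζ^(k+1) / (k+1)`). So `Sx` is real differentiable, and the operator `f ↦ i ∂_1 f - ∂_i f` (`= 2 i ∂f/∂(conj x)`, zero on holomorphic functions, a derivation) gives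
`i Sx'(1) - Sx'(i) = (p + ζ q)^m (i ζ'(1) - ζ'(i))`. `p + ζ q = ω(s', v) = - conj e₁ / D` (compute: `ω((1,0), v) = 1`, `ω(v, v) = 0`). `∂(D)/∂(conj x) = - (e₀ - x e₁) conj e₁`, so `∂s'/∂(conj x) = - (conj e₁)² / D² · e` (compute both coordinates; the second one: `∂/∂(conj x) (conj (e₀ - x e₁) / D) = conj e₁ (|e₀ - x e₁|² - D) / D² = - e₁ (conj e₁)² / D²`), `∂ζ/∂(conj x) = - (conj e₁)² / D²` (`ω(e, s) = 1`).
So `∂Sx/∂(conj x) = - (- conj e₁ / D)^m (conj e₁)² / D² = - Jd m e x` (`m` even). -/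
def E_dif : Prop := ∀ (m : ℕ) (e : Fin 2 → ℂ), Even m → e ≠ 0 → ∃ S' : ℂ → ℂ →L[ℝ] ℂ,
  (∀ x, HasFDerivAt (Sx m e) (S' x) x) ∧ (∀ x, Complex.I * S' x 1 - S' x Complex.I =
    -2 * Complex.I * Jd m e x) ∧ Continuous fun x => Jd m e x

/-- [NL E grn] Green's formula. (Uses `E_dif`.)

Proof. `Complex.integral_boundary_rect_of_hasFDerivAt_real_off_countable` (or the version without the exceptional set) for `Sx m e`, `z = 0`, `w = A + B i`; the integrand `I • S' x 1 - S' x I` is the continuous function `- 2 I Jd m e x`. -/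
def E_grn : Prop := ∀ (m : ℕ) (e : Fin 2 → ℂ), Even m → e ≠ 0 → ∀ A B : ℝ,
  (∫ x in (0 : ℝ)..A, Sx m e x) - (∫ x in (0 : ℝ)..A, Sx m e (x + B * Complex.I)) +
    Complex.I * (∫ y in (0 : ℝ)..B, Sx m e (A + y * Complex.I)) -
    Complex.I * ∫ y in (0 : ℝ)..B, Sx m e (y * Complex.I) =
  -2 * Complex.I * ∫ x in (0 : ℝ)..A, ∫ y in (0 : ℝ)..B, Jd m e (x + y * Complex.I)

/-- [NL E jsm] the sum of the integrals, and the uniform convergence. (Uses `E_bd`, `E_sm`.)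

Proof. (1) For `‖x‖ ≤ R` `D = |e₀ - x e₁|² + |e₁|² ≥ κ ‖e‖²` with `κ = κ(R) > 0`, `|e₁| ≤ ‖e‖`, so `‖Jd m e x‖ ≤ C ‖e‖^-(m+2)`, and the integral over the rectangle is at most `C N² sD ‖e‖^-(m+2)`. (2) `E_bd`: `‖Sx m e x‖ ≤ (m+1) ‖Om‖ ‖(x, 1)‖^m ≤ C ‖e‖^-(m+2)`. -/
def E_jsm : Prop := ∀ a b : ℤ, b ^ 2 + 4 * a < 0 → ∀ m : ℕ, 3 ≤ m →
  (∀ N : ℕ, Summable fun e : {e : Fin 2 → Qf a b ℤ // Prm e} => ‖Jn a b m N e‖) ∧
  ∀ R : ℝ, ∃ C : ℝ, ∀ e : Fin 2 → Qf a b ℤ, Prm e → ∀ x : ℂ, ‖x‖ ≤ R →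
    ‖Sx m (vC a b e) x‖ ≤ C * (‖vC a b e‖ ^ (m + 2))⁻¹

/-- [NL E dc] the crossed homomorphisms of the group of the matrices `eU (N t)`.

Proof. Let `ζ_t(α) = evm m (z (eU (N t))) (α, 1)`, a polynomial in `α` of degree at most `m`; `eU s` acts by `(eU s P)(α, 1) = P(α - s, 1)`, so `ζ_(s+t)(α) = ζ_s(α) + ζ_t(α - N s)` (write `s`, `t` also for `iC s`, `iC t`). The operator `(D_t G)(α) = G(α) - G(α - N t)` maps the polynomials of degree at most `m + 1` onto those of degree at most `m`, for `t ≠ 0`, with the kernel the constants (dimension, or induction on the degree). Let `D_1 G = ζ_1`. For all `t`: `D_1 ζ_t = D_t ζ_1`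
(`ζ_(1+t) = ζ_(t+1)`), so `c_t = ζ_t - D_t G` satisfies `D_1 c_t = 0`: a constant, and `c_(s+t) = c_s + c_t`. So `c_t = p t + r conj t` (every additive function on `ℤ[w]` is of this form, `wC_im`). With `G + (p / N) α` in place of `G`: `ζ_t(α) = G(α) - G(α - N t) + r conj t`. Put `α = x + N t`. -/
def E_dc : Prop := ∀ a b : ℤ, b ^ 2 + 4 * a < 0 → ∀ (m : ℕ) (W : Subgroup (GQ a b)) (N : ℕ),
  Lv W N → ∀ z : GQ a b → Fin (m + 1) → ℂ, CH (tV m (iC a b)) W z →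
  ∃ (G : Polynomial ℂ) (r : ℂ), ∀ (t : Qf a b ℤ) (x : ℂ),
    evm m (z (eU ((N : Qf a b ℤ) * t))) ![x + N * iC a b t, 1] =
      G.eval (x + N * iC a b t) - G.eval x + r * conj (iC a b t)

/-- [NL E rv] the number `r`. (Uses `E_om`, `E_sm`, `E_coc`, `E_grn`, `E_jsm`, `E_dc`; cite `p_Lalg`.)

Proof. `S x = ∑ F(e) Sx m e x` (`e` primitive; absolutely and locally uniformly convergent, `E_jsm`, `E_sm`), a continuous function (`Sx m e` is continuous). (1) For `l = N t`, `t ∈ ℤ[w]`: `S(x + l) = S x + evm m (Ez (eU l)) (x + l, 1)`: `OmE m e 1 (eU (x + l)) = OmE m e 1 (eU l) + OmE m e (eU l) (eU l * eU x)`, and the second term is `(sm m (eU l)) OmE m e' 1 (eU x)` with `e = (eU l) e'`; its value at `(x + l, 1)` is `Sx m e' x`; reindex (`F` is invariant under `eU l ∈ W`).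
(2) `G`, `r` from `E_dc` for `z = Ez F` (`E_coc`): `S₀ = S - G` satisfies `S₀ (x + N t) = S₀ x + r conj t`. `RVp`: for `x = - N t`: `z (eU (N t)) 0 = evm m (z (eU (N t))) (0, 1) = G(0) - G(- N t) + r conj t`. (3) Let `A = N`, `B = N sD`; `i B = N iC(2 w - b)` (`wC_eq`), `conj (iC (2 w - b)) = - i sD`. The left hand side of `E_grn` for `S₀` in place of `Sx m e` (it is continuous) is `∫_0^A (S₀ x - S₀ (x + i B)) dx + i ∫_0^B (S₀ (A + i y) - S₀ (i y)) dy = A r i sD + i B r = 2 i N sD r`.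
It is zero for the polynomial `G` (`Complex.integral_boundary_rect_eq_zero_of_differentiableOn`), so it is the same for `S`, and that is the sum of those for `F(e) Sx m e` (`intervalIntegral.hasSum_integral_of_summable_norm` or similar, `E_jsm`), which are `- 2 i F(e) Jn e` (`E_grn`). -/
def E_rv : Prop := ∀ a b : ℤ, b ^ 2 + 4 * a < 0 → ∀ m : ℕ, 3 ≤ m → Even m →
  ∀ (W : Subgroup (GQ a b)) (F : (Fin 2 → Qf a b ℤ) → ℂ), (∃ C : ℝ, ∀ e, ‖F e‖ ≤ C) →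
  (∀ x ∈ W, ∀ e, Prm e → F (x.val.mulVec e) = F e) → ∀ N : ℕ, Lv W N →
  ∃ r : ℂ, RVp m N (iC a b) (cC a b) (Ez a b m F) r ∧ (N * sD a b : ℝ) * r =
    -∑' e : {e : Fin 2 → Qf a b ℤ // Prm e}, F e * Jn a b m N e

end

end Pool.Agent.F8.NL
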