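import Pool.Agent.Lib.MP_305fdd_al.F8.NL.Defs
import Pool.Agent.Lib.MP_305fdd_al.F8.NL.StmA
import Pool.Agent.Lib.MP_305fdd_al.F8.CG.StmU

/-!
# MP_305fdd_al, all lattices (project NL): the main statements of the blocks T (vanishing theorem), E (Eisenstein series), X (rationality), H (second cohomology)

`RVp m N f f' z r`: the lowest coefficient of `z (eU (N t))` is a polynomial in `f t` plus `r f' t`. `Jn m N e` is the integral of the term of the vector `e` over the rectangle with the sides `N`, `N √-D`.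
-/

set_option autoImplicit false

namespace Pool.Agent.F8.NL

open Pool.Agent.F8.CG Pool.Agent.F8.BG Pool.Agent.MP_305fdd_al Pool.Agent.Lib.MP_305fdd_al
  Pool.Agent.F8
open scoped QuadraticAlgebra ComplexConjugate

noncomputable section

/-- the conjugate embedding -/
def cC (a b : ℤ) : Qf a b ℤ →+* ℂ := (starRingEnd ℂ).comp (iC a b)

/-- a matrix representation as a representation by linear maps -/
def tE {G ι L : Type} [Group G] [Fintype ι] [DecidableEq ι] [CommRing L]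
    (τ : G →* Matrix ι ι L) : G →* Module.End L (ι → L) where
  toFun g := Matrix.mulVecLin (τ g)
  map_one' := by
    rw [map_one, Matrix.mulVecLin_one]
    rfl
  map_mul' g h := by
    rw [map_mul, Matrix.mulVecLin_mul]
    rfl

/-! ### Block T -/

/-- [NL T vt] MAIN RESULT of block T: the vanishing theorem for the forms of bidegree `(m, n)`. (Uses `A_main`.) -/
def T_vt : Prop := ∀ a b : ℤ, b ^ 2 + 4 * a < 0 → Eu a b → IsPrincipalIdealRing (Qf a b ℤ) →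
  ∀ m n : ℕ, ((n = 0 ∧ 3 ≤ m) ∨ (n = 1 ∧ 4 ≤ m)) → ∀ W : Subgroup (GQ a b), W.FiniteIndex →
  ∀ z : GQ a b → Fin (m + 1) × Fin (n + 1) → ℂ, CH (tM m n (iC a b) (cC a b)) W z →
  (∀ g : GQ a b, ∃ r : ℂ, ∀ t : Qf a b ℤ, g * eU t * g⁻¹ ∈ W →
    evM m n (z (g * eU t * g⁻¹)) (vC a b (colG g 0)) (fun i => conj (vC a b (colG g 1) i)) =
      r * conj (iC a b t)) →
  ∃ v, ∀ x ∈ W, z x = (tM m n (iC a b) (cC a b) x).mulVec v - v

/-- [NL T v0] the vanishing theorem for the forms of degree `m`. (Uses `T_vt`, `V_vt`.) -/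
def T_v0 : Prop := ∀ a b : ℤ, b ^ 2 + 4 * a < 0 → Eu a b → IsPrincipalIdealRing (Qf a b ℤ) →
  ∀ m : ℕ, (m = 1 ∨ 3 ≤ m) → ∀ W : Subgroup (GQ a b), W.FiniteIndex →
  ∀ z : GQ a b → Fin (m + 1) → ℂ, CH (tV m (iC a b)) W z →
  (∀ (e : Fin 2 → Qf a b ℤ) (t : Qf a b ℤ), tv e t ∈ W →
    evm m (z (tv e t)) (vC a b e) = 0) →
  ∃ v, ∀ x ∈ W, z x = (tV m (iC a b) x).mulVec v - v

/-- [NL T dim] the dimension of the space of the crossed homomorphisms with values in the forms of bidegree `(m, 1)`. (Uses `T_vt`.) -/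
def T_dim : Prop := ∀ a b : ℤ, b ^ 2 + 4 * a < 0 → Eu a b → IsPrincipalIdealRing (Qf a b ℤ) →
  ∀ m : ℕ, 4 ≤ m → ∀ W : Subgroup (GQ a b), W.FiniteIndex → Finite (Cusp W) ∧
  FiniteDimensional ℂ (ZE (tE ((tM m 1 (iC a b) (cC a b)).comp W.subtype))) ∧
  Module.finrank ℂ (ZE (tE ((tM m 1 (iC a b) (cC a b)).comp W.subtype))) ≤
    2 * (m + 1) + Nat.card (Cusp W)

/-! ### The functionals -/

/-- the basic facts about the functional `bv` -/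
structure BvM (a b : ℤ) (m : ℕ) {L : Type} [CommRing L] (f : Qf a b ℤ →+* L) : Prop where
  /-- all multiples -/
  mul : ∀ (W : Subgroup (GQ a b)) (N : ℕ), Lv W N → ∀ z, CH (tV m f) W z →
    ∀ (e : Fin 2 → Qf a b ℤ) (t : Qf a b ℤ),
    evm m (z (tv e ((N : Qf a b ℤ) * t))) (fun i => f (e i)) = bv m N f z e * f t
  /-- all elements -/
  all : ∀ (W : Subgroup (GQ a b)) (N : ℕ), Lv W N → ∀ z, CH (tV m f) W z →
    ∀ (e : Fin 2 → Qf a b ℤ) (t : Qf a b ℤ), tv e t ∈ W →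
    (N : L) * evm m (z (tv e t)) (fun i => f (e i)) = bv m N f z e * f t
  /-- invariance -/
  inv : ∀ (W : Subgroup (GQ a b)) (N : ℕ), Lv W N → ∀ z, CH (tV m f) W z →
    ∀ x ∈ W, ∀ e : Fin 2 → Qf a b ℤ, bv m N f z (x.val.mulVec e) = bv m N f z e
  /-- homogeneous -/
  hom : ∀ (W : Subgroup (GQ a b)) (N : ℕ), Lv W N → ∀ z, CH (tV m f) W z →
    ∀ (l : Qf a b ℤ) (e : Fin 2 → Qf a b ℤ), bv m N f z (l • e) = f l ^ (m + 2) * bv m N f z e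
  /-- the level -/
  lev : ∀ (W : Subgroup (GQ a b)) (N k : ℕ), Lv W N → ∀ z, CH (tV m f) W z →
    ∀ e : Fin 2 → Qf a b ℤ, bv m (N * k) f z e = k * bv m N f z e
  /-- coboundaries -/
  cob : ∀ (W : Subgroup (GQ a b)) (N : ℕ), Lv W N → ∀ z, (∃ v, ∀ x ∈ W, z x =
    (tV m f x).mulVec v - v) → ∀ e : Fin 2 → Qf a b ℤ, bv m N f z e = 0

/-- [NL B bv] the functional `bv`.

Proof. Write `p_t = tv e (N t)`, `e` also for `f e`. `tv e s e = e` and `evm m ((tV m f x).mulVec P) e = evm m P (x⁻¹ e)` (`evm_sm`). cob: `evm m ((x - 1) v) e = 0` for `x = tv e N`. mul: first let `e ≠ 0`. `z (p q) = z p + p z q = z q + q z p` for commuting `p, q ∈ W`. For `v` with `ω(e, v) = 1`, over the fraction field, use the coordinates `(α, 1) ↦ α e + v`: the polynomial `ζ_t(α) = evm m (z p_t) (α e + v)` of degree at most `m` has the coefficient of `α^m` equal to `evm m (z p_t) e`.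
(Choose `v` in the plane over the field of fractions of `L`; or avoid `v`: for an arbitrary vector `v ∈ ℤ[w]²` with `ω(e, v) = c ≠ 0` take `α e + v`; `p_s⁻¹ (α e + v) = (α - c N s) e + v`.) The relation gives `ζ_s(α) + ζ_t(α - c N s) = ζ_t(α) + ζ_s(α - c N t)`; the coefficient of `α^(m-1)`: `m c N s [ζ_t]_m = m c N t [ζ_s]_m`. So `f s * evm m (z p_t) e = f t * evm m (z p_s) e`; `s = 1`. Additivity is not needed. all: the same computation for `p_1 = tv e N` and `tv e t ∈ W`.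
`e = 0`: `evm m P 0 = 0` as `m ≥ 1`. inv: `tv (x e) s = x tv e s x⁻¹`, `z (x p x⁻¹) = z x + x z p - (x p x⁻¹) z x` (`z (x⁻¹) = - x⁻¹ z x`), evaluated at `x e` (fixed by `x p x⁻¹`): `evm m (x z p) (x e) = evm m (z p) e`. hom: `tv (l e) N = tv e (N l²)` (`p_Vtv`), `evm m P (l e) = l^m evm m P e` (`evm_smul`), mul for `t = l²`. lev: mul for `t = k`. -/
def B_bv : Prop := ∀ a b : ℤ, b ^ 2 + 4 * a < 0 → ∀ m : ℕ, 1 ≤ m → ∀ (L : Type) [CommRing L]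
  [IsDomain L] [CharZero L] (f : Qf a b ℤ →+* L), Function.Injective f → BvM a b m f

/-- the number `r` -/
def RVp (m N : ℕ) {a b : ℤ} {L : Type} [CommRing L] (f f' : Qf a b ℤ →+* L)
    (z : GQ a b → Fin (m + 1) → L) (r : L) : Prop :=
  ∃ Q : Polynomial L, ∀ t : Qf a b ℤ, z (eU ((N : Qf a b ℤ) * t)) 0 = Q.eval (f t) + r * f' t

/-! ### Block E -/

/-- the absolute value of the square root of the discriminant -/
def sD (a b : ℤ) : ℝ := Real.sqrt (-((b ^ 2 + 4 * a : ℤ) : ℝ))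

/-- the term of the vector `e`, at the point `x` -/
def Jd (m : ℕ) (e : Fin 2 → ℂ) (x : ℂ) : ℂ :=
  (conj (e 1) / ((‖e 0 - x * e 1‖ ^ 2 + ‖e 1‖ ^ 2 : ℝ) : ℂ)) ^ (m + 2)

/-- the integral over the rectangle with the sides `N`, `N √-D` -/
def Jn (a b : ℤ) (m N : ℕ) (e : Fin 2 → Qf a b ℤ) : ℂ :=
  ∫ s in (0 : ℝ)..N, ∫ r in (0 : ℝ)..(N * sD a b), Jd m (vC a b e) (s + r * Complex.I)

/-- the units have the exponent `k` -/
def UnE (a b : ℤ) (k : ℕ) : Prop := ∀ u : Qf a b ℤ, IsUnit u → u ^ k = 1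

/-- [NL E main] MAIN RESULT of block E: Eisenstein series. -/
def E_main : Prop := ∀ a b : ℤ, b ^ 2 + 4 * a < 0 → Eu a b → IsPrincipalIdealRing (Qf a b ℤ) →
  ∀ m : ℕ, 4 ≤ m → Even m → UnE a b (m + 2) →
  (∀ N : ℕ, N ≠ 0 → Summable fun e : {e : Fin 2 → Qf a b ℤ // Prm e} => ‖Jn a b m N e‖) ∧
  ∀ (W : Subgroup (GQ a b)) (F : (Fin 2 → Qf a b ℤ) → ℂ),
  (∃ C : ℝ, ∀ e, ‖F e‖ ≤ C) → (∀ x ∈ W, ∀ e, Prm e → F (x.val.mulVec e) = F e) →
  (∀ u : Qf a b ℤ, IsUnit u → ∀ e, Prm e → F (u • e) = F e) →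
  ∃ z : GQ a b → Fin (m + 1) → ℂ, CH (tV m (iC a b)) W z ∧ ∀ N : ℕ, Lv W N →
  (∀ e, Prm e → bv m N (iC a b) z e = N * Nat.card (Qf a b ℤ)ˣ * F e) ∧
  ∃ r : ℂ, RVp m N (iC a b) (cC a b) z r ∧ (N * sD a b : ℝ) * r =
    -∑' e : {e : Fin 2 → Qf a b ℤ // Prm e}, F e * Jn a b m N e

/-! ### Block X -/

/-- `z` is an integral crossed homomorphism of `W` with the support in the cusp of `e₀`. -/
def X1 (m N : ℕ) {a b : ℤ} (W : Subgroup (GQ a b)) (e₀ : Fin 2 → Qf a b ℤ)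
    (z : GQ a b → Fin (m + 1) → Qf a b ℤ) : Prop :=
  CH (tV m (RingHom.id _)) W z ∧ bv m N (RingHom.id _) z e₀ ≠ 0 ∧
  ∀ e, Prm e → ¬ Cs W e₀ e → bv m N (RingHom.id _) z e = 0

/-- [NL X ex] integral crossed homomorphisms with one cusp. (Uses `E_main`.) -/
def X_ex : Prop := ∀ a b : ℤ, b ^ 2 + 4 * a < 0 → Eu a b → IsPrincipalIdealRing (Qf a b ℤ) →
  Group.FG (GQ a b) → ∀ m : ℕ, 4 ≤ m → Even m → UnE a b (m + 2) →
  ∀ W : Subgroup (GQ a b), W.FiniteIndex → ∀ N : ℕ, Lv W N → ∀ e₀, Prm e₀ →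
  ∃ z, X1 m N W e₀ z

/-- [NL X ex1] integral crossed homomorphisms with one cusp, degree one. (Uses `T_v0`, `LD`.) -/
def X_ex1 : Prop := ∀ a b : ℤ, b ^ 2 + 4 * a < 0 → Eu a b → IsPrincipalIdealRing (Qf a b ℤ) →
  Group.FG (GQ a b) → ∀ M₀ : ℕ, 3 ≤ M₀ → LD a b M₀ →
  ∀ W : Subgroup (GQ a b), W.FiniteIndex → W ≤ Gam a b M₀ → ∀ N : ℕ, Lv W N → ∀ e₀, Prm e₀ →
  ∃ z, X1 1 N W e₀ z

/-- [NL X cb] integral crossed homomorphisms without cusps. (Uses `T_v0`.) -/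
def X_cb : Prop := ∀ a b : ℤ, b ^ 2 + 4 * a < 0 → Eu a b → IsPrincipalIdealRing (Qf a b ℤ) →
  Group.FG (GQ a b) → ∀ m : ℕ, (m = 1 ∨ 3 ≤ m) → ∀ W : Subgroup (GQ a b), W.FiniteIndex →
  ∀ N : ℕ, Lv W N → ∀ z, CH (tV m (RingHom.id (Qf a b ℤ))) W z →
  (∀ e, Prm e → bv m N (RingHom.id _) z e = 0) →
  ∃ (d : Qf a b ℤ) (v : Fin (m + 1) → Qf a b ℤ), d ≠ 0 ∧ ∀ x ∈ W,
    d • z x = (tV m (RingHom.id _) x).mulVec v - v

/-- [NL X ce] the number `r` is a linear combination of the numbers `bv`, over all fields. (Uses `T_v0`.) -/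
def X_ce : Prop := ∀ a b : ℤ, b ^ 2 + 4 * a < 0 → Eu a b → IsPrincipalIdealRing (Qf a b ℤ) →
  Group.FG (GQ a b) → ∀ m : ℕ, 3 ≤ m → ∀ W : Subgroup (GQ a b), W.FiniteIndex →
  ∀ N : ℕ, Lv W N → ∃ (J : Finset (Fin 2 → Qf a b ℤ)) (c : Qf a b ℤ)
  (α : (Fin 2 → Qf a b ℤ) → Qf a b ℤ), c ≠ 0 ∧ (∀ e ∈ J, Prm e) ∧
  ∀ (L : Type) [Field L] [CharZero L] (f : Qf a b ℤ →+* L), Function.Injective f →
  ∀ z, CH (tV m f) W z → ∀ r, RVp m N f (f.comp (cjq a b ℤ)) z r →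
  f c * r = ∑ j ∈ J, f (α j) * bv m N f z j

/-! ### Block H -/

/-- the subgroups of finite index of `Γ(M₀)` are of the form `F ⋊ ℤ`. -/
def HW (a b : ℤ) (M₀ : ℕ) : Prop := ∀ W : Subgroup (GQ a b), W ≤ Gam a b M₀ → W.FiniteIndex →
  ∃ (n : ℕ) (α : MulAut (FreeGroup (Fin n))), Nonempty (W ≃* GR α)

/-- the module of the forms of bidegree `(m, 1)` over `ℤ[w]` -/
abbrev tMO (a b : ℤ) (m : ℕ) : GQ a b →* Matrix (Fin (m + 1) × Fin (1 + 1))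
    (Fin (m + 1) × Fin (1 + 1)) (Qf a b ℤ) := tM m 1 (RingHom.id _) (cjq a b ℤ)

/-- the cup product -/
def cup {a b : ℤ} {m : ℕ} (z : GQ a b → Fin (m + 1) → Qf a b ℤ)
    (z' : GQ a b → Fin (1 + 1) → Qf a b ℤ) (x y : GQ a b) :
    Fin (m + 1) × Fin (1 + 1) → Qf a b ℤ :=
  tens (z x) ((tV 1 (cjq a b ℤ) x).mulVec (z' y))

/-- [NL H a] cup products of crossed homomorphisms with disjoint supports. -/
def H_a : Prop := ∀ a b : ℤ, b ^ 2 + 4 * a < 0 → Eu a b → IsPrincipalIdealRing (Qf a b ℤ) →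
  Group.FG (GQ a b) → ∀ M₀ : ℕ, 3 ≤ M₀ → LD a b M₀ → HW a b M₀ → ∀ m : ℕ, 4 ≤ m → Even m →
  UnE a b (m + 2) → ∀ W : Subgroup (GQ a b), W.FiniteIndex → W ≤ Gam a b M₀ →
  ∀ N : ℕ, Lv W N → ∀ z, CH (tV m (RingHom.id _)) W z → ∀ z', CH (tV 1 (cjq a b ℤ)) W z' →
  (∀ e, Prm e → bv m N (RingHom.id _) z e = 0 ∨ bv 1 N (cjq a b ℤ) z' e = 0) →
  ∃ (d : Qf a b ℤ) (w : GQ a b → Fin (m + 1) × Fin (1 + 1) → Qf a b ℤ), d ≠ 0 ∧
  ∀ x ∈ W, ∀ y ∈ W, w (x * y) = w x + (tMO a b m x).mulVec (w y) + d • cup z z' x y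

/-- [NL H b] cup products span the second cohomology. -/
def H_b : Prop := ∀ a b : ℤ, b ^ 2 + 4 * a < 0 → Eu a b → IsPrincipalIdealRing (Qf a b ℤ) →
  Group.FG (GQ a b) → ∀ M₀ : ℕ, 3 ≤ M₀ → LD a b M₀ → HW a b M₀ → ∀ m : ℕ, 4 ≤ m → Even m →
  UnE a b (m + 2) → ∀ W : Subgroup (GQ a b), W.FiniteIndex → W ≤ Gam a b M₀ →
  ∀ (q : Qf a b ℤ) (c : GQ a b → GQ a b → Fin (m + 1) × Fin (1 + 1) → Qf a b ℤ), q ≠ 0 →
  (∀ x ∈ W, ∀ y ∈ W, ∀ z ∈ W, ∀ i, q ∣ ((tMO a b m x).mulVec (c y z) - c (x * y) z +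
    c x (y * z) - c x y) i) →
  ∃ (d : Qf a b ℤ) (k : ℕ) (z : Fin k → GQ a b → Fin (m + 1) → Qf a b ℤ)
    (z' : Fin k → GQ a b → Fin (1 + 1) → Qf a b ℤ)
    (y : GQ a b → Fin (m + 1) × Fin (1 + 1) → Qf a b ℤ), d ≠ 0 ∧
  (∀ j, CH (tV m (RingHom.id _)) W (z j)) ∧ (∀ j, CH (tV 1 (cjq a b ℤ)) W (z' j)) ∧
  ∀ g ∈ W, ∀ h ∈ W, ∀ i, d * q ∣ (y (g * h) - y g - (tMO a b m g).mulVec (y h) -
    (∑ j, cup (z j) (z' j) g h - d • c g h)) i

end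

end Pool.Agent.F8.NL
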