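import Pool.Agent.Lib.MP_305fdd_al.F8.NL.StmP

/-!
# MP_305fdd_al, all lattices (project NL): block M (the correspondence of the cusps)

`Kap h C e k ε`: the data of `P_pair` for the primitive vector `e`. MAIN RESULT (`M_main`): if `k₁` belongs to `e₁ = (1, 0)` and `k₀` to `f₀`, not proportional to `e₁`, then `k₀ = k₁ uH(s) iH(γ) b` with `γ ∈ SL₂(ℤ[w])`, `γ e₁` not proportional to `e₁`, and `b` in the closure of the upper triangular matrices.

The proof. For a set `S` of cusps modulo `X` consider an integral crossed homomorphism `z` with the support `S`, and its pull-back under `h`. The numbers `r` at infinity (`RVp`) of both are given by the Eisenstein series, and this gives the identity `M_idn`: `A ∑_(g₁ e ∈ S) J(e) = B ∑_(κ(e) ∈ S) a(e) J(e)` with absolutely convergent sums. Let `S` shrink to the closure of `{h(eU (n t)) κ(f₀)}`: the right hand side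
tends to a multiple of `∑_t J(eU (n t) f₀) ≠ 0`, so the left hand side is not an empty sum in the limit.
-/

set_option autoImplicit false

namespace Pool.Agent.F8.NL

open Pool.Agent.F8.CG Pool.Agent.F8.BG Pool.Agent.MP_305fdd_al Pool.Agent.Lib.MP_305fdd_al
  Pool.Agent.F8
open scoped QuadraticAlgebra ComplexConjugate Kronecker

noncomputable section

/-- the data of `P_pair` -/
structure Kap {a b : ℤ} {D : Subgroup (GQ a b)} (h : D →* GH a b)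
    (C : Matrix (Fin 2) (Fin 2) (OH a b)) (e : Fin 2 → Qf a b ℤ) (k : GH a b) (ε : OH a b) :
    Prop where
  unit : IsUnit ε
  vec : (piH a b k).val.mulVec ![1, 0] = ε • C.mulVec (eH e)
  cnj : ∀ (t : Qf a b ℤ) (ht : tv e t ∈ D), ∃ s : OH a b, h ⟨_, ht⟩ = k * uH s * k⁻¹ ∧
    ε ^ 2 * C.det * s = jH a b t

/-- `e'` is, modulo `X` and up to units, the vector `k e₁`. -/
def CsH {a b : ℤ} (X : NF a b) (k : GH a b) (e' : Fin 2 → Qf a b ℤ) : Prop :=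
  ∃ g, Ap X k g ∧ Cs X.N (colG g 0) e'

/-- [NL M div] divisibility in `OH`.

Proof. (1) `rZ m x = 0` implies `x = m y` in `Zh`: for `n : ℕ+` the component `x_(m n)` is divisible by `m`, `x_(m n) = m c` with `c` unique modulo `n`, let `y_n = c`; compatible. (2) If for all `X` there is `t` with `Ap X x (eU t)` then `x = uH s`: by `C_bor` (`eU t ∈ Bor`) `x = iH (dg u v) uH s`, and modulo `NFG 3` the entry `u` is one, so `u = 1` (`p_Cun`), `v = 1`. -/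
def M_div : Prop := ∀ a b : ℤ, b ^ 2 + 4 * a < 0 →
  (∀ (m : ℕ+) (x : OH a b), rH a b m x = 0 → ∃ y : OH a b, x = ((m : ℕ) : OH a b) * y) ∧
  ∀ x : GH a b, (∀ X : NF a b, ∃ t : Qf a b ℤ, Ap X x (eU t)) → ∃ s : OH a b, x = uH s

/-- [NL M sep] separation of the cusps. (Uses `X_ex`, `C_ext`, `C_u`, `C_cl`, `C_bor`, `B_bv`, `P_lv`, `C_o`.)

Proof. `piH g = [[α, β], [γ, δ]]`: `(piH g) (eU s) = (eU s') (piH g)` gives `γ s = 0`, so `γ = 0`, `α δ = 1`, `α s = s' δ`, `s' = α² s`. Let `X : NF` be given; we have to find an element of `Bor` approximating `g` modulo `X`. `W = X.N`, `N` a level, `e₁ = (1, 0)`, `z` from `X_ex` for `e₁`, `Z` its extension. `γ₀` an approximation of `g` modulo `X`, `g = n iH γ₀`, `n ∈ clH X.N`. (1) For `s'' : OH`: `evm m (Z (uH (N s''))) e₁ = jH (bv z e₁) s''`: for `s'' = jH t` this is `BvM.mul` (`C_ext` (4), `eU = tv e₁`),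
and in general approximate modulo `M` (`ExtH`, `uH_ap`: `uH (N s'')` is approximated modulo any `X'` by `eU (N t)` for `t ≡ s''` modulo a suitable number). (2) The crossed homomorphism `z₁ x = γ₀⁻¹ z (γ₀ x γ₀⁻¹)` of `W` (normal), with the extension `Z₁ x = γ₀⁻¹ Z (γ₀ x γ₀⁻¹)`, has `bv z₁ e₁ = bv z (γ₀ e₁)`; so by (1) for `z₁`: `evm m (Z (γ₀ y γ₀⁻¹)) (γ₀ e₁) = jH (bv z (γ₀ e₁)) s`, `y = uH (N s)`. (3) `g y g⁻¹ = n (γ₀ y γ₀⁻¹) n⁻¹`, `Z (n x n⁻¹) = Z n + n Z x - (n x n⁻¹) Z n`, so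
`evm m (Z (g y g⁻¹)) (g e₁) = evm m (Z (γ₀ y γ₀⁻¹)) (γ₀ e₁)` (`g e₁ = n γ₀ e₁` is fixed by `g y g⁻¹`). (4) `g y g⁻¹ = (g uH(s) g⁻¹)^N = uH (N s')`, `g e₁ = α e₁`: `evm m (Z (uH (N s'))) (α e₁) = α^m jH (bv z e₁) s' = α^(m+2) jH (bv z e₁) s`. So `jH (bv z (γ₀ e₁)) s = α^(m+2) jH (bv z e₁) s`, and if `bv z (γ₀ e₁) = 0` then `s = 0` times a unit times `jH` of a nonzero element, a contradiction (`s` is not a zero divisor, `C_o` (2); `1 ≠ 0`).
So `Cs X.N e₁ (γ₀ e₁)`: `γ₀ e₁ = u x e₁`, `x ∈ X.N`, `x⁻¹ γ₀ ∈ Bor`, and it approximates `g` modulo `X`. -/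
def M_sep : Prop := ∀ (a b : ℤ) (M₀ m : ℕ), PHyp a b M₀ m → ∀ (g : GH a b) (s s' : OH a b),
  (∀ x, s * x = 0 → x = 0) → g * uH s * g⁻¹ = uH s' → g ∈ clH (Bor a b)

/-- [NL M k] the basic facts about `Kap`. (Uses `M_sep`, `C_bor`, `C_u`, `C_o`, `P_lv`, `P_pb`; cite `p_Vtv`.)

Proof. (1) `tv (x e) t = x tv e t x⁻¹` (`p_Vtv`), `piH (h x) C = C x`. (2) `tv (u e) t = tv e (u² t)`; `(k iH (dg u v)) uH(s) (..)⁻¹ = k uH(u² s) k⁻¹` (`C_u` (6)); take `v² s'` for the `s'` of `u² t`. (3) `uH r` commutes with `uH s`, `(eU r) e₁ = e₁`. (4) Let `t ≠ 0`, `tv e t ∈ D` (`P_lv`): `k uH(s) k⁻¹ = k' uH(s') k'⁻¹`, `g = k⁻¹ k'`: `g uH(s') g⁻¹ = uH(s)`, `s'` is not a zero divisor (`ε'² det(C) s' = t`, `C_o` (2)). `M_sep`, `C_bor`: `g = iH (dg u v) uH r`. `ε' C e = (piH k') e₁ = (piH k) (u e₁) = u ε C e`, and `C e` is unimodular. -/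
def M_k : Prop := ∀ (a b : ℤ) (M₀ m : ℕ), PHyp a b M₀ m → ∀ (D : Subgroup (GQ a b)),
  D.FiniteIndex → ∀ (h : D →* GH a b) (C E : Matrix (Fin 2) (Fin 2) (OH a b)), HD h C E →
  ∀ (e : Fin 2 → Qf a b ℤ) (k : GH a b) (ε : OH a b), Prm e → Kap h C e k ε →
  (∀ x : D, Kap h C ((x : GQ a b).val.mulVec e) (h x * k) ε) ∧
  (∀ (u v : Qf a b ℤ) (hu : u * v = 1), Kap h C (u • e) (k * iH a b (dg u v hu)) ε) ∧
  (∀ r : OH a b, Kap h C e (k * uH r) ε) ∧
  ∀ (k' : GH a b) (ε' : OH a b), Kap h C e k' ε' → ∃ (u v : Qf a b ℤ) (hu : u * v = 1)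
    (r : OH a b), k' = k * (iH a b (dg u v hu) * uH r) ∧ ε' = jH a b u * ε

/-- a choice of the data for all primitive vectors -/
def KF {a b : ℤ} {D : Subgroup (GQ a b)} (h : D →* GH a b) (C : Matrix (Fin 2) (Fin 2) (OH a b))
    (K : (Fin 2 → Qf a b ℤ) → GH a b) (ep : (Fin 2 → Qf a b ℤ) → OH a b) : Prop :=
  ∀ e, Prm e → Kap h C e (K e) (ep e)

/-- [NL M fin] the numbers `ep e` up to units. (Uses `M_k`; cite `p_Lcu`-like finiteness of the cusps of `D`.)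

Proof. (1) `M_k` (1), (2): `Kap (u • x e) (h x * K e * iH (dg u v)) (ep e)`, and `M_k` (4): `ep (u • x e) = u' ep e` with a unit `u'` of `ℤ[w]`, `u'^(m+2) = 1`; and `K (u • x e) = h x * K e * b` with `b = iH (dg ..) uH r`, so the vector `K (u • x e) e₁` is a unit multiple of `h x K e e₁`; modulo `X` (approximations). (2) `D` has finitely many orbits on the primitive vectors up to units (finite index: the cosets `D g`), so the numbers `ep e ^ (m+2)` are finitely many. -/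
def M_fin : Prop := ∀ (a b : ℤ) (M₀ m : ℕ), PHyp a b M₀ m → ∀ (D : Subgroup (GQ a b)),
  D.FiniteIndex → ∀ (h : D →* GH a b) (C E : Matrix (Fin 2) (Fin 2) (OH a b)), HD h C E →
  ∀ K ep, KF h C K ep →
  (∀ (x : D) (u : Qf a b ℤ) (e : Fin 2 → Qf a b ℤ), IsUnit u → Prm e →
    ep (u • (x : GQ a b).val.mulVec e) ^ (m + 2) = ep e ^ (m + 2) ∧
    ∀ (X : NF a b) (e' : Fin 2 → Qf a b ℤ), CsH X (K (u • (x : GQ a b).val.mulVec e)) e' ↔
      CsH X (h x * K e) e') ∧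
  ∃ J : Finset (OH a b), ∀ e, Prm e → ep e ^ (m + 2) ∈ J

/-- [NL M v] an embedding in the complex numbers. (Uses `C_v`.)

Proof. `C_v` gives `q`, `v₀ : OH → ℤ_[q]`, injective on `ℤ[w]`. The algebraic closure of `ℚ_[q]` is an algebraically closed field of characteristic zero with the cardinality of the continuum, so it is isomorphic to `ℂ` (`IsAlgClosed.ringEquivOfCardinalEqOfCharZero`; the cardinality: `Cardinal.mk ℚ_[q]` is at most the continuum: a separable metric space, or a quotient of Cauchy sequences of rationals; `Algebra.IsAlgebraic.cardinalMk_le_max`; and at least the continuum: an uncountable complete space; alternatively, choose a transcendence basis of `ℚ_[q]` over `ℚ`, of cardinality at most the continuum, embed it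
in a transcendence basis of `ℂ` and extend with `IsAlgClosed.lift`). So there is `σ : ℚ_[q] →+* ℂ`; `v = σ ∘ coe ∘ v₀`. `v ∘ jH` is injective and `x = v (jH w)` satisfies `x² = a + b x`, so `x = wC` or `x = b - wC = conj wC`. In the second case replace `v` by `v ∘ cjq`. -/
def M_v : Prop := ∀ a b : ℤ, b ^ 2 + 4 * a < 0 → IsPrincipalIdealRing (Qf a b ℤ) →
  ∃ v : OH a b →+* ℂ, v.comp (jH a b) = iC a b

/-- the conjugate crossed homomorphism -/
def zcj {a b : ℤ} {m : ℕ} (g : GQ a b) (z : GQ a b → Fin (m + 1) → Qf a b ℤ) (x : GQ a b) :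
    Fin (m + 1) → Qf a b ℤ := (tV m (RingHom.id _) g⁻¹).mulVec (z (g * x * g⁻¹))

/-- [NL M dc] the crossed homomorphisms on the group of the `uH s`. (Uses `C_ext`, `C_u`; compare `E_dc`.)

Proof. (1) As `E_dc`, over the field of fractions `K` of `ℤ[w]` (every additive map `ℤ[w] → K` is `p t + r conj t`, solve for `t = 1, w`), multiplied with a common denominator `d`: for `t, x ∈ ℤ[w]`: `d evm m (z (eU (N t))) (x, 1) = G x - G (x - N t) + r conj t`, `G` a polynomial over `ℤ[w]`, `r ∈ ℤ[w]`. Over `ℂ` (apply `iC`, put `x = 0`) this gives `RVp m N iC cC (iC ∘ z) (iC r / iC d)`. (2) For `s, x : OH`: modulo `M` approximate `s ≡ t`, `x ≡ x'` modulo `M M'`, where `M'` is such that `uH (N s)` is approximated by `eU (N t)` modulo the `X` of `ExtH` for `M`. Both sides of the claim have the same reduction modulo `M`. -/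
def M_dc : Prop := ∀ a b : ℤ, b ^ 2 + 4 * a < 0 → ∀ (m : ℕ) (X : NF a b) (N : ℕ), Lv X.N N →
  ∀ z, CH (tV m (RingHom.id (Qf a b ℤ))) X.N z → ∀ Z, ExtH X.N z Z →
  ∃ (d r : Qf a b ℤ) (G : Polynomial (Qf a b ℤ)), d ≠ 0 ∧
  RVp m N (iC a b) (cC a b) (fun x i => iC a b (z x i)) (iC a b r / iC a b d) ∧
  ∀ s x : OH a b, jH a b d * evm m (Z (uH ((N : OH a b) * s))) ![x, 1] =
    (G.map (jH a b)).eval x - (G.map (jH a b)).eval (x - (N : OH a b) * s) +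
      jH a b r * cjq a b Zh s

/-- [NL M bv] the values of the pull-back at the cusps. (Uses `C_ext`, `C_u`, `B_bv`, `P_pb`, `C_cl`.)

Proof. `e₁ = (1, 0)`, `k = n iH g`, `n ∈ clH X.N`. As in the proof of `M_sep` ((1), (2), (3)): for `s'' : OH`: `evm m (Z (k uH(N s'') k⁻¹)) (k e₁) = jH (bv z (g e₁)) s''`. `N' = N N₂`; `h (tv e N') = k uH(s) k⁻¹` with `ε² det(C) s = N N₂`; let `s'' = (ε² det C)⁻¹ N₂`, so `s = N s''`. `C e = ε⁻¹ k e₁`. `bv (pbk Z) e = v (evm m (Z (h (tv e N'))) (C e)) = v (ε^-m jH (bv z (g e₁)) s'')` (`P_pb`), multiply with `ε^(m+2) det C`. -/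
def M_bv : Prop := ∀ a b : ℤ, b ^ 2 + 4 * a < 0 → ∀ m : ℕ, 1 ≤ m → ∀ (D : Subgroup (GQ a b))
  (h : D →* GH a b) (C E : Matrix (Fin 2) (Fin 2) (OH a b)), HD h C E → ∀ (X : NF a b) (N N₂ : ℕ),
  Lv X.N N → Lv (hcm h X.N) (N * N₂) → ∀ z, CH (tV m (RingHom.id (Qf a b ℤ))) X.N z →
  ∀ Z, ExtH X.N z Z → ∀ (L : Type) [Field L] (v : OH a b →+* L) (e : Fin 2 → Qf a b ℤ)
  (k : GH a b) (ε : OH a b), Kap h C e k ε → ∀ g, Ap X k g →
  v (ε ^ (m + 2) * C.det) * bv m (N * N₂) (v.comp (jH a b)) (pbk m v h C Z) e =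
    N₂ * v (jH a b (bv m N (RingHom.id _) z (colG g 0)))

/-- [NL M rv] the number `r` of the pull-back. (Uses `M_dc`, `C_ext`, `C_u`, `P_pb`, `C_cl`.)

Proof. `k = n iH g`, `n ∈ clH X.N`; `z₁ = zcj g z` with the extension `Z₁ x = (iH g)⁻¹ Z (iH g x iH g⁻¹)`. `M_dc` for `z₁`: `d`, `r₀`, `G`; the number `r` is `iC r₀ / iC d` (`RVp` determines `r`: `(Q - Q')(t) + (r - r') conj t = 0` for all `t ∈ ℤ[w]`; for `t ∈ ℤ` the polynomial `Q - Q' + (r - r') X` is zero, then `t = w`). For `y = uH(N s)`, `w' = (x, 1)`: `Z (k y k⁻¹) = Z n + n Z (g y g⁻¹) - (k y k⁻¹) Z n`, so with the polynomial `P(x) = evm m (Z n) ((piH k) (x, 1))` over `OH`: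
`evm m (Z (k y k⁻¹)) ((piH k) (x, 1)) = P(x) - P(x - N s) + evm m (Z₁ y) (x, 1)`, and `d` times this is `G'(x) - G'(x - N s) + r₀ conj s` with `G' = G + d P`. Now `e₁ = (1, 0)`, `N' = N N₂`: `h (eU (N' t)) = k uH(N s) k⁻¹`, `s = (ε² det C)⁻¹ N₂ t`. The matrix `(piH k)⁻¹ C` maps `e₁` to `ε⁻¹ e₁` and has the determinant `det C`, so it maps `(0, 1)` to `(β, η)`, `η = ε det C`. `pbk Z (eU (N' t)) 0 = evm m (pbk ..) (0, 1) = v (evm m (Z (h ..)) (C (0, 1)))` (`pbk` is `sb m (C.map v)`, `evm_sb`),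
`C (0, 1) = (piH k) (β, η) = η (piH k) (x₀, 1)`, `x₀ = β / η`. So `iC d * pbk Z (eU (N' t)) 0 = v (η^m (G'(x₀) - G'(x₀ - N s) + r₀ conj s))`, a polynomial in `v (jH t) = iC t` plus `v(η)^m iC(r₀) v(conj (ε² det C))⁻¹ N₂ conj (iC t)` (`v (conj (jH t)) = v (jH (cjq t)) = iC (cjq t)`). -/
def M_rv : Prop := ∀ a b : ℤ, b ^ 2 + 4 * a < 0 → ∀ m : ℕ, 1 ≤ m → ∀ (D : Subgroup (GQ a b))
  (h : D →* GH a b) (C E : Matrix (Fin 2) (Fin 2) (OH a b)), HD h C E → ∀ (X : NF a b) (N N₂ : ℕ),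
  Lv X.N N → Lv (hcm h X.N) (N * N₂) → ∀ z, CH (tV m (RingHom.id (Qf a b ℤ))) X.N z →
  ∀ Z, ExtH X.N z Z → ∀ v : OH a b →+* ℂ, v.comp (jH a b) = iC a b →
  ∀ (k : GH a b) (ε : OH a b), Kap h C ![1, 0] k ε → ∀ g, Ap X k g → ∃ r r' : ℂ,
  RVp m N (iC a b) (cC a b) (fun x i => iC a b (zcj g z x i)) r ∧
  RVp m (N * N₂) (iC a b) (cC a b) (pbk m v h C Z) r' ∧
  v (cjq a b Zh (ε ^ 2 * C.det)) * r' = v (ε * C.det) ^ m * N₂ * r

/-- [NL M van] the number `r` is determined by the values at the cusps. (Uses `T_v0`, `B_bv`.)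

Proof. (1) See the proof of `M_rv`. (2) `evm m (z (tv e t)) e = 0` for all `e`, `t` with `tv e t ∈ W` (`BvM.all`; `e = l • e'` with `e'` primitive, `BvM.hom`), so by `T_v0` `z x = x u - u`, and `z (eU (N t)) 0 = evm m (z ..) (0, 1) = evm m u (- N t, 1) - evm m u (0, 1)`, a polynomial in `iC t`. (3) `RVp` is linear. -/
def M_van : Prop := ∀ a b : ℤ, b ^ 2 + 4 * a < 0 → Eu a b → IsPrincipalIdealRing (Qf a b ℤ) →
  ∀ m : ℕ, 3 ≤ m → ∀ W : Subgroup (GQ a b), W.FiniteIndex → ∀ N : ℕ, Lv W N →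
  (∀ z r r', RVp m N (iC a b) (cC a b) z r → RVp m N (iC a b) (cC a b) z r' → r = r') ∧
  ∀ (z z' : GQ a b → Fin (m + 1) → ℂ) (c c' r r' : ℂ), CH (tV m (iC a b)) W z →
  CH (tV m (iC a b)) W z' → (∀ e, Prm e → c * bv m N (iC a b) z e = c' * bv m N (iC a b) z' e) →
  RVp m N (iC a b) (cC a b) z r → RVp m N (iC a b) (cC a b) z' r' → c * r = c' * r'

open Classical in
/-- the indicator function of a proposition -/
def indP (P : Prop) : ℂ := if P then 1 else 0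

/-- the primitive vectors -/
abbrev PV (a b : ℤ) : Type := {e : Fin 2 → Qf a b ℤ // Prm e}

/-- [NL M id1] the identity for one cusp. (Uses `E_main`, `X_ex`, `M_fin`, `M_bv`, `M_rv`, `M_van`, `B_bv`, `C_ext`, `C_cl`, `P_lv`, `P_pb`.)

Proof. `N` a level of `X.N`, `N₂` a level of `hcm h X.N` (finite index, `C_cl`), `N' = N N₂ n`, `N₃ = N₂ n`. `e₀` primitive, `z` from `X_ex` for `X.N`, `e₀`, `Z` its extension, `c = bv z e₀ ≠ 0`; for primitive `e`: `bv z e = c` if `Cs X.N e₀ e` (`BvM.inv`, `BvM.hom`, `UnE`), and `0` otherwise. Let `κ = #units`. (1) `z₁ = zcj g₁ z`: a crossed homomorphism of `X.N` with `bv z₁ e = bv z (g₁ e)`. `F e = indP (Cs X.N e₀ (g₁ e))` is invariant under `X.N` and the units. `E_main` (for the level `N'`): `z_F`, `bv_(N') z_F e = N' κ F e`, `N' sD r_F = - ∑ F(e) J(e)`, `J = Jn a b m N'`.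
`iC ∘ z₁` has at the level `N'` the values `bv_(N') = N₃ iC(c) F e` (`BvM.lev`) and the number `r_1 N₃` if `r_1` is the number at the level `N`. `M_van`: `N' κ r_1 N₃ = N₃ iC(c) r_F`. So `N' κ N' sD r_1 = - iC(c) ∑ F(e) J(e)`. (2) `y = pbk m v h C Z`, a crossed homomorphism of `hcm h X.N` (`P_pb`, `C_ext`), `bv_(N') y e = N₃ v(ep e^(m+2) det C)⁻¹ iC(c) F'(e)`, `F'(e) = indP (CsH X (K e) e₀)` (`M_bv`; `colG g 0` for `Ap X (K e) g`; `Cs` is symmetric). The function `F''(e) = v(ep e^(m+2) det C)⁻¹ F'(e)` is bounded and invariant under `hcm h X.N` and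
units (`M_fin`: for `x ∈ hcm`, `h x ∈ clH X.N`, `CsH X (h x * K e) e' ↔ CsH X (K e) e'`). `E_main`: `bv z_F'' e = N' κ F''(e)`, `N' sD r_F'' = - ∑ F''(e) J(e)`. `M_van`: `N' κ r' = N₃ iC(c) r_F''`, `r'` the number of `y` at the level `N'`. (3) `M_rv` (for `N`, `N₃`): `v(conj(ε² det C)) r' = v(ε det C)^m N₃ r_1`, `ε = ep e₁`. Combine: multiply (3) with `N' κ N' sD`: `v(conj(ε² det C)) (- N₃ iC(c) ∑ F'' J) = v(ε det C)^m N₃ (- iC(c) ∑ F J)`, cancel `N₃ iC(c) ≠ 0`. -/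
def M_id1 : Prop := ∀ (a b : ℤ) (M₀ m : ℕ), PHyp a b M₀ m → ∀ (D : Subgroup (GQ a b)),
  D.FiniteIndex → ∀ (h : D →* GH a b) (C E : Matrix (Fin 2) (Fin 2) (OH a b)), HD h C E →
  ∀ K ep, KF h C K ep → ∀ v : OH a b →+* ℂ, v.comp (jH a b) = iC a b →
  ∀ n : ℕ, n ≠ 0 → ∀ X : NF a b, ∃ n₂ : ℕ, n₂ ≠ 0 ∧ ∀ (e₀ : Fin 2 → Qf a b ℤ) (g₁ : GQ a b),
  Prm e₀ → Ap X (K ![1, 0]) g₁ →
  v (ep ![1, 0] * C.det) ^ m * ∑' e : PV a b, indP (Cs X.N e₀ (g₁.val.mulVec e)) *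
    Jn a b m (n * n₂) e =
  v (cjq a b Zh (ep ![1, 0] ^ 2 * C.det)) * ∑' e : PV a b, (v (ep e ^ (m + 2) * C.det))⁻¹ *
    indP (CsH X (K e) e₀) * Jn a b m (n * n₂) e

/-- [NL M til] tiling. (Uses `E_jsm` from `StmE`, as a hypothesis: the summability of `‖Jn‖`.)

Proof. The rectangle for `n n₂` is the union of the translates of the rectangle for `n` by `l = n (i + j (2 w - b))`, `0 ≤ i, j < n₂` (`iC (2 w - b) = i sD`), and `Jd m (vC e) (x + l) = Jd m (vC (eU (-l) e)) x`. So `Jn (n n₂) e = ∑_(i,j) Jn n (eU (-l_(i,j)) e)` (`intervalIntegral` of a continuous function: `D > 0` for `e ≠ 0`; sum over adjacent intervals). Sum over `e` and reindex with `e ↦ eU (l) e`, `F (eU (n t) e) = F e`. -/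
def M_til : Prop := ∀ a b : ℤ, b ^ 2 + 4 * a < 0 → ∀ m : ℕ, 3 ≤ m →
  (∀ N : ℕ, Summable fun e : PV a b => ‖Jn a b m N e‖) →
  ∀ F : (Fin 2 → Qf a b ℤ) → ℂ, (∃ B : ℝ, ∀ e, Prm e → ‖F e‖ ≤ B) → ∀ n n₂ : ℕ,
  (∀ (t : Qf a b ℤ) (e : Fin 2 → Qf a b ℤ), Prm e →
    F ((eU ((n : Qf a b ℤ) * t) : GQ a b).val.mulVec e) = F e) →
  ∑' e : PV a b, F e * Jn a b m (n * n₂) e = n₂ ^ 2 * ∑' e : PV a b, F e * Jn a b m n e

/-- a set of vectors which is admissible modulo `X` -/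
structure Adm {a b : ℤ} {D : Subgroup (GQ a b)} (h : D →* GH a b) (n : ℕ) (X : NF a b)
    (S : Set (Fin 2 → Qf a b ℤ)) : Prop where
  inv : ∀ x ∈ X.N, ∀ e ∈ S, x.val.mulVec e ∈ S
  uni : ∀ u : Qf a b ℤ, IsUnit u → ∀ e ∈ S, u • e ∈ S
  tra : ∀ (t : Qf a b ℤ) (ht : (eU ((n : Qf a b ℤ) * t) : GQ a b) ∈ D) (g : GQ a b),
    Ap X (h ⟨_, ht⟩) g → ∀ e ∈ S, g.val.mulVec e ∈ S

/-- [NL M idn] the identity. (Uses `M_id1`, `M_til`, `M_fin`, `E_main`, `C_u`.)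

Proof. (1) The primitive vectors in `S` are a disjoint union of finitely many classes of `Cs X.N` (finite index), with representatives `e₀ ∈ J`. `indP (g₁ e ∈ S) = ∑_(e₀ ∈ J) indP (Cs X.N e₀ (g₁ e))` and `indP (∃ g, Ap X (K e) g ∧ colG g 0 ∈ S) = ∑_(e₀ ∈ J) indP (CsH X (K e) e₀)` for primitive `e`. So the sum of the identities of `M_id1` over `J` is the identity with `n n₂` instead of `n` (the sums converge absolutely, `E_main`). (2) Both functions are invariant under `e ↦ eU (n t) e`: the second one: `x = eU (n t) ∈ D`, `ep (x e)^(m+2) = ep e^(m+2)`, `CsH X (K (x e)) e' ↔ CsH X (h x * K e) e'` (`M_fin`),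
and `S` is invariant under the approximations of `h x` (`Adm.tra` for `t` and `- t`). The first one: `g₁ eU (n t) g₁⁻¹` approximates `k₁ uH(n t) k₁⁻¹`, `k₁ = K e₁`; let `t' ∈ ℤ[w]` be congruent to `ε² det(C) t` modulo a number `M` which is divisible by the `M` of `C_u` (4) for `X`; `h (eU (n t')) = k₁ uH(s') k₁⁻¹`, `ε² det(C) s' = n t'`, so `s' - n t` has the reduction zero modulo `M` and `k₁ uH(n t) k₁⁻¹` and `h (eU (n t'))` have the same class modulo `X`; so `S` is invariant under `g₁ eU (n t) g₁⁻¹`. `M_til`; cancel `n₂²`. -/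
def M_idn : Prop := ∀ (a b : ℤ) (M₀ m : ℕ), PHyp a b M₀ m → ∀ (D : Subgroup (GQ a b)),
  D.FiniteIndex → ∀ (h : D →* GH a b) (C E : Matrix (Fin 2) (Fin 2) (OH a b)), HD h C E →
  ∀ K ep, KF h C K ep → ∀ v : OH a b →+* ℂ, v.comp (jH a b) = iC a b →
  ∀ n : ℕ, Lv D n → ∀ (X : NF a b) (S : Set (Fin 2 → Qf a b ℤ)) (g₁ : GQ a b), Adm h n X S →
  Ap X (K ![1, 0]) g₁ →
  v (ep ![1, 0] * C.det) ^ m * ∑' e : PV a b, indP (g₁.val.mulVec e ∈ S) * Jn a b m n e =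
  v (cjq a b Zh (ep ![1, 0] ^ 2 * C.det)) * ∑' e : PV a b, (v (ep e ^ (m + 2) * C.det))⁻¹ *
    indP (∃ g, Ap X (K e) g ∧ colG g 0 ∈ S) * Jn a b m n e

/-- [NL M lim] the limit.

Proof. Let `ε > 0`. Choose a finite set `T` with `∑_(i ∉ T) ‖J i‖ < ε` (`Summable`), for every `i ∈ T` which is not in all `P X` choose `X_i` with `¬ P X_i i`, and let `X` be the intersection of the `X_i` (an element of `NF`). For `Y ≤ X` the two sums differ only in terms `i ∉ T`, so by at most `ε`. Apply this to both families, with `‖b i J i‖ ≤ B ‖J i‖`: the two sides of the limit identity differ by at most `(‖α‖ + B) ε` for all `ε > 0`. -/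
def M_lim : Prop := ∀ (a b : ℤ) (I : Type) (J c : I → ℂ) (P Q : NF a b → I → Prop) (α B : ℝ)
  (α' : ℂ), (Summable fun i => ‖J i‖) → (∀ i, ‖c i‖ ≤ B) → ‖α'‖ ≤ α →
  (∀ (X Y : NF a b), X.N ≤ Y.N → ∀ i, (P X i → P Y i) ∧ (Q X i → Q Y i)) →
  (∀ X, α' * ∑' i, indP (P X i) * J i = ∑' i, c i * indP (Q X i) * J i) →
  α' * ∑' i, indP (∀ X, P X i) * J i = ∑' i, c i * indP (∀ X, Q X i) * J i

/-- the neighbourhoods of the orbit of `K f₀` -/
def Sf {a b : ℤ} {D : Subgroup (GQ a b)} (h : D →* GH a b) (n : ℕ) (k₀ : GH a b) (X : NF a b) :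
    Set (Fin 2 → Qf a b ℤ) :=
  {e' | ∃ (t : Qf a b ℤ) (ht : (eU ((n : Qf a b ℤ) * t) : GQ a b) ∈ D), CsH X (h ⟨_, ht⟩ * k₀) e'}

/-- [NL M set] the limit sets. (Uses `M_k`, `M_div`, `C_cpt`, `C_bor`, `C_u`, `C_o`, `P_pb`.)

Proof. Let `k₁`, `ε₁` belong to `e₁ = (1, 0)`, `k₀`, `ε₀` to `f₀`. `h (eU (n t)) = k₁ uH(λ n t) k₁⁻¹`, `λ = (ε₁² det C)⁻¹`. (0) If `k ∈ GH` is such that for all `X` there is `t` with the following property: there are approximations `g` of `k`, `g'` of `h (eU (n t)) k₀` modulo `X` with `Cs X.N (g' e₁) (g e₁)` (†), then there is `s : OH` with `k ∈ k₁ uH(λ n s) k₁⁻¹ k₀ clH(Bor)`: let `T X` be the set of the classes of the `pr X (uH (λ n jH t))` for the `t` with (†); not empty and compatible; `C_cpt`: `x` with `pr X x ∈ T X` for all `X`; `M_div` (2): `x = uH s'` (each `uH (λ n jH t)` is approximated by `eU` of something);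
`λ⁻¹ s'` is congruent to `n t` modulo every number, so `λ⁻¹ s' = n s` (`M_div` (1)). And for all `X`: `k₀⁻¹ k₁ x⁻¹ k₁⁻¹ k` is approximated by an element of `Bor` (from (†): `g = n' g' b`, `n' ∈ X.N`, `b ∈ Bor`). (1) Let `e` be primitive and `∀ X, ∃ g, Ap X (K e) g ∧ g e₁ ∈ Sf X`. (0) for `k = K e`: `K e = k₁ uH(λ n s) k₁⁻¹ k₀ b`, `b = iH (dg u v) uH r` (`C_bor`). Apply `piH` and `e₁`: `ep e C e = u (piH (k₁ uH(λ n s) k₁⁻¹)) ε₀ C f₀`, and `piH (k₁ uH(λ n s) k₁⁻¹) = C (eU (n s)) E` (compare `tv`: it is `tv (k₁ e₁) (λ n s) = tv (ε₁ C e₁) (λ n s)`,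
`p_Vtv`), so `e = ρ (eU (n s)) f₀` with the unit `ρ = u ε₀ (ep e)⁻¹` of `OH`. Second coordinate: `e 1 = ρ f₀ 1`, so `ρ = jH u'` with a unit `u'` (`C_o` (3), (4)), and the first coordinate: `u'⁻¹ e 0 - f₀ 0 = n s f₀ 1`, so `n s = jH t'`, and `n ∣ t'` (`rH n (n s) = 0`), so `e = u' (eU (n t)) f₀`. Conversely, for `e = u' (eU (n t)) f₀`: `Kap e (h(eU (n t)) k₀ iH(dg u' v')) ε₀` (`M_k`), and `K e` differs from it by an element of `clH Bor` on the right (`M_k` (4)). (2) Let `e = γ e₁` be primitive and `g₁ e ∈ Sf X` for all `X` and all approximations `g₁` of `k₁`.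
(0) for `k = k₁ iH γ`: `k₁ iH γ = k₁ uH(λ n s) k₁⁻¹ k₀ b`, `k₀ = k₁ uH(- λ n s) iH γ b⁻¹`. (3) `Adm`: clear (`h (eU (n t)) h (eU (n t')) = h (eU (n (t + t')))`; `Cs` is an equivalence relation, `X.N` is normal). (4) monotone: `Ap_le`. -/
def M_set : Prop := ∀ (a b : ℤ) (M₀ m : ℕ), PHyp a b M₀ m → ∀ (D : Subgroup (GQ a b)),
  D.FiniteIndex → ∀ (h : D →* GH a b) (C E : Matrix (Fin 2) (Fin 2) (OH a b)), HD h C E →
  ∀ K ep, KF h C K ep → ∀ n : ℕ, Lv D n → ∀ f₀, Prm f₀ → f₀ 1 ≠ 0 →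
  (∀ X : NF a b, Adm h n X (Sf h n (K f₀) X)) ∧
  (∀ X Y : NF a b, X.N ≤ Y.N → Sf h n (K f₀) X ⊆ Sf h n (K f₀) Y) ∧
  (∀ e, Prm e → ((∀ X : NF a b, ∃ g, Ap X (K e) g ∧ colG g 0 ∈ Sf h n (K f₀) X) ↔
    ∃ u t : Qf a b ℤ, IsUnit u ∧ e = u • (eU ((n : Qf a b ℤ) * t) : GQ a b).val.mulVec f₀)) ∧
  ∀ γ : GQ a b, (∀ (X : NF a b) (g₁ : GQ a b), Ap X (K ![1, 0]) g₁ →
      g₁.val.mulVec (colG γ 0) ∈ Sf h n (K f₀) X) →
    ∃ s : OH a b, ∃ b' ∈ clH (Bor a b), K f₀ = K ![1, 0] * uH s * iH a b γ * b'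

/-- [NL M int] the sum over the orbit of `f₀`. (Uses the summability of `‖Jn‖`.)

Proof. `f₀ 1 ≠ 0`. `Jd m (vC (eU l f₀)) x = Jd m (vC f₀) (x - l)` (`D` is translated). (1) `∑_t Jn n (eU (n t) f₀)`: `t ∈ ℤ[w]`; the elements `n (i + j (2 w - b))` are a subgroup of finite index `κ` (one or two) of `n ℤ[w]`, with the fundamental domain `Π_n`; so the sum over `t` is the sum over the cosets `c` of `∫_ℂ Jd m (vC f₀) (x - c) dx = ∫_ℂ Jd m (vC f₀)`, i.e. `κ ∫_ℂ`, and `∫_ℂ Jd m (vC f₀) = (conj f₀₁)^(m+2) ∫_ℂ D^-(m+2)`, `D > 0`, which is not zero. (It may be easier to avoid the integral over the plane: `Jn n (eU (n t) f₀) = (conj f₀₁)^(m+2) c_t` with real `c_t > 0` (the integral of the positive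
continuous function `D^-(m+2)` over a rectangle with nonempty interior: `n > 0`, `sD > 0`), and a summable sum of positive numbers is positive.) (2) The map `(u, t) ↦ u • (eU (n t)) f₀` from units times `ℤ[w]` to the set of the claim is bijective (`f₀ 1 ≠ 0`: the second coordinate `u f₀ 1` determines `u`, then the first one determines `t`), `Jn n (u • e) = Jn n e` (`conj(u)^(m+2) = 1`, `|u| = 1`), and `c` is constant on the set. So the sum is `c(f₀) #units ∑_t Jn n (eU (n t) f₀)`. -/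
def M_int : Prop := ∀ a b : ℤ, b ^ 2 + 4 * a < 0 → ∀ m : ℕ, UnE a b (m + 2) →
  (∀ N : ℕ, Summable fun e : PV a b => ‖Jn a b m N e‖) →
  ∀ n : ℕ, n ≠ 0 → ∀ f₀, Prm f₀ → f₀ 1 ≠ 0 → ∀ c : (Fin 2 → Qf a b ℤ) → ℂ, c f₀ ≠ 0 →
  (∀ u t : Qf a b ℤ, IsUnit u →
    c (u • (eU ((n : Qf a b ℤ) * t) : GQ a b).val.mulVec f₀) = c f₀) →
  ∑' e : PV a b, c e * indP (∃ u t : Qf a b ℤ, IsUnit u ∧
    (e : Fin 2 → Qf a b ℤ) = u • (eU ((n : Qf a b ℤ) * t) : GQ a b).val.mulVec f₀) *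
    Jn a b m n e ≠ 0

/-- [NL M main] MAIN RESULT of block M. (Uses `P_pair`, `M_v`, `M_fin`, `M_idn`, `M_lim`, `M_set`, `M_int`, `E_main`, `P_lv`, `M_k`.)

Proof. `P_pair` gives a family `K`, `ep` (`KF`) with the given data for `e₁` and `f₀` (choose `K e₁ = k₁` etc.; `f₀ ≠ e₁`). `v` from `M_v`, `n` a level of `D` (`P_lv`). For all `X` the identity `M_idn` for `S = Sf h n (K f₀) X`. The property `g₁ e ∈ Sf X` does not depend on the approximation `g₁` of `K e₁` modulo `X` (`Adm.inv`), so let `P X e` be `∀ g₁, Ap X (K e₁) g₁ → g₁ e ∈ Sf X`, `Q X e` be `∃ g, Ap X (K e) g ∧ g e₁ ∈ Sf X`; both are monotone (`M_set`, `Ap_le`). `A = v (ep e₁ det C)^m`, `B' = v (conj (ep e₁² det C))` are not zero (units). `M_lim` with `α' = A`, `c e = B' (v (ep e^(m+2) det C))⁻¹` (bounded by `M_fin`):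
`A ∑ indP (∀ X, P X e) Jn e = ∑ c(e) indP (∀ X, Q X e) Jn e`, and by `M_set` and `M_int` the right hand side is not zero (`c` is constant on the set by `M_fin`). So there is `e` with `∀ X, P X e` and `Jn e ≠ 0`, so `e 1 ≠ 0` (otherwise `Jd = 0`). `e = γ e₁`; `M_set` (last part). -/
def M_main : Prop := ∀ (a b : ℤ) (M₀ m : ℕ), PHyp a b M₀ m → ∀ (D : Subgroup (GQ a b)),
  D.FiniteIndex → ∀ (h : D →* GH a b) (C E : Matrix (Fin 2) (Fin 2) (OH a b)), HD h C E →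
  ∀ (k₁ k₀ : GH a b) (ε₁ ε₀ : OH a b) (f₀ : Fin 2 → Qf a b ℤ), Kap h C ![1, 0] k₁ ε₁ → Prm f₀ →
  f₀ 1 ≠ 0 → Kap h C f₀ k₀ ε₀ → ∃ (s : OH a b) (γ : GQ a b), γ.val 1 0 ≠ 0 ∧
  ∃ b' ∈ clH (Bor a b), k₀ = k₁ * uH s * iH a b γ * b'

end

end Pool.Agent.F8.NL
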