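import Pool.Agent.Lib.MP_305fdd_al.F8.NL.StmC

/-!
# MP_305fdd_al, all lattices (project NL): block P (unipotent elements correspond to unipotent elements)

MAIN RESULT (`P_pair`): let `h : D → GH` lift the conjugation with `C`. For every primitive `e` there are `g ∈ GH` and a unit `ε` with `g e₁ = ε C e` and `h (tv e t) = g uH(s) g⁻¹`, `ε² det(C) s = t`.

The proof. Let `W` be a subgroup of finite index, `z` an integral crossed homomorphism of `W` with values in the forms of degree `m`. `β(z) = bv (pbk Z) e` is the value at `e` of the crossed homomorphism `Z ∘ h` of `h⁻¹(W^)`. (1) If `z`, `z'` have disjoint supports then `β(z) β'(z') = 0`, because the cup product is a coboundary (`P_two`). (2) `β`, `β'` are not zero, because the cup products span the cohomology (`P_one`). So there is one cusp of `W` with `β(z) ≠ 0`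
only if `z` is not zero at this cusp (`P_at`), and this cusp is fixed by `h (tv e t)` (`P_inv`, `P_fx`).
-/

set_option autoImplicit false

namespace Pool.Agent.F8.NL

open Pool.Agent.F8.CG Pool.Agent.F8.BG Pool.Agent.MP_305fdd_al Pool.Agent.Lib.MP_305fdd_al
  Pool.Agent.F8
open scoped QuadraticAlgebra ComplexConjugate Kronecker

noncomputable section

/-- the hypotheses on the ring and the degree -/
structure PHyp (a b : ℤ) (M₀ m : ℕ) : Prop where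
  neg : b ^ 2 + 4 * a < 0
  eu : Eu a b
  pid : IsPrincipalIdealRing (Qf a b ℤ)
  fg : Group.FG (GQ a b)
  three : 3 ≤ M₀
  ld : LD a b M₀
  hw : HW a b M₀
  four : 4 ≤ m
  even : Even m
  une : UnE a b (m + 2)

/-- the vector `e` over `OH` -/
def eH {a b : ℤ} (e : Fin 2 → Qf a b ℤ) : Fin 2 → OH a b := fun i => jH a b (e i)

/-- `h⁻¹` of the closure of `W`, as a subgroup of `SL₂(ℤ[w])` -/
def hcm {a b : ℤ} {D : Subgroup (GQ a b)} (h : D →* GH a b) (W : Subgroup (GQ a b)) :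
    Subgroup (GQ a b) := ((clH W).comap h).map D.subtype

open Classical in
/-- the pull-back of the crossed homomorphism `Z` -/
def pbk {a b : ℤ} (m : ℕ) {L : Type} [CommRing L] (v : OH a b →+* L) {D : Subgroup (GQ a b)}
    (h : D →* GH a b) (C : Matrix (Fin 2) (Fin 2) (OH a b)) (Z : GH a b → Fin (m + 1) → OH a b)
    (x : GQ a b) : Fin (m + 1) → L :=
  if hx : x ∈ D then (sb m (C.map v)).mulVec (fun i => v (Z (h ⟨x, hx⟩) i)) else 0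

/-- the conjugate matrix -/
def cjM {a b : ℤ} (C : Matrix (Fin 2) (Fin 2) (OH a b)) : Matrix (Fin 2) (Fin 2) (OH a b) :=
  C.map (cjq a b Zh)

/-- [NL P lv] levels.

Proof. `tv e t ^ N = tv e (N t)`, `N = (index of W)!` (`Subgroup.pow_mem_of_index_ne_zero_of_dvd`; see `P_Lcu.lean`). -/
def P_lv : Prop := ∀ (a b : ℤ) (W : Subgroup (GQ a b)), W.FiniteIndex → ∃ N, Lv W N

/-- [NL P pb] pull-backs. (Cite `evm_sb`, `sb_mul`, `sb_map`, `p_Vtv`.)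

Proof. (1) `x ∈ hcm h W` iff `x ∈ D` and `h x ∈ clH W`. For `x, y ∈ hcm`: `Z (h x h y) = Z (h x) + (sb m (piH (h x))⁻¹) Z (h y)`, apply `v` and `sb m (C.map v)`: `sb C sb (piH (h x))⁻¹ = sb ((piH (h x))⁻¹ C) = sb (C x⁻¹) = sb (x⁻¹) sb C` (`piH (h x) C = C x` by `HD`). (2) the same for the conjugates: `cjq (jH t) = jH (cjq t)`. (3) `bv` is `evm m ((sb m C) (v ∘ Z p)) (v (jH e)) = evm m (v ∘ Z p) (v (C e)) = v (evm m (Z p) (C e))` (`evm_map`), `p = h (tv e t)`. (4) the same for the conjugates.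
(5) `piH (h (tv e t)) (C e) = C (tv e t) e = C e`. (6) `(C tv(e, t) E) x = x + t ω(e, E x) C e`, `ω(e, E x) = det(E) ω(C e, x)`, i.e. `det(C) ω(e, E x) = ω(C e, x)`. -/
def P_pb : Prop := ∀ a b : ℤ, b ^ 2 + 4 * a < 0 → ∀ (D : Subgroup (GQ a b)) (h : D →* GH a b)
  (C E : Matrix (Fin 2) (Fin 2) (OH a b)), HD h C E →
  (∀ (W : Subgroup (GQ a b)) (m : ℕ) (L : Type) [CommRing L] (v : OH a b →+* L) Z,
    (CH (tH a b m) (clH W) Z → CH (tV m (v.comp (jH a b))) (hcm h W) (pbk m v h C Z)) ∧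
    (CH (tHc a b m) (clH W) Z → CH (tV m (v.comp ((jH a b).comp (cjq a b ℤ)))) (hcm h W)
      (pbk m v h (cjM C) Z)) ∧
    ∀ (e : Fin 2 → Qf a b ℤ) (t : Qf a b ℤ) (ht : tv e t ∈ D),
      evm m (pbk m v h C Z (tv e t)) (fun i => v (eH e i)) =
        v (evm m (Z (h ⟨_, ht⟩)) (C.mulVec (eH e))) ∧
      evm m (pbk m v h (cjM C) Z (tv e t)) (fun i => v (cjq a b Zh (eH e i))) =
        v (evm m (Z (h ⟨_, ht⟩)) (fun i => cjq a b Zh (C.mulVec (eH e) i)))) ∧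
  ∀ (e : Fin 2 → Qf a b ℤ) (t : Qf a b ℤ) (ht : tv e t ∈ D),
    (piH a b (h ⟨_, ht⟩)).val.mulVec (C.mulVec (eH e)) = C.mulVec (eH e) ∧
    ∀ x : Fin 2 → OH a b, C.det • (piH a b (h ⟨_, ht⟩)).val.mulVec x =
      C.det • x + (jH a b t * CG.om (C.mulVec (eH e)) x) • C.mulVec (eH e)

/-- [NL P tor] the torus lemma. (Uses `C_loc`.)

Proof. `y` is locally constant modulo `r`: `C_loc` gives `X₁`. Let `R₀ = |nq r|` (divisible by `r` and by `cjq r`), `X = X₁ ∩ NFG R₀ ∩ X₀`. Let `γ₁`, `γ₂` be approximations modulo `X`; they are in `W`. `γ₁ γ₂ ≡ γ₂ γ₁` modulo `X` (both approximate `p₁ p₂`), so `y (γ₁ γ₂) ≡ y (γ₂ γ₁)` modulo `r`. So `r` divides all coordinates of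
`c γ₁ γ₂ - c γ₂ γ₁ + (y γ₁ + γ₁ y γ₂) - (y γ₂ + γ₂ y γ₁)`. Evaluate at `(e', conj e')`: modulo `R₀` the matrix of `γ_i` is that of `p_i`, and `e'` is `ê`, so `γ_i e' ≡ e'` modulo `R₀` and `conj γ_i conj e' ≡ conj e'` modulo `R₀`, and so `evM m 1 (γ_i P) e' (conj e') = evM m 1 P (γ_i⁻¹ e') (conj γ_i⁻¹ conj e') ≡ evM m 1 P e' (conj e')` modulo `r`. So the terms with `y` cancel. -/
def P_tor : Prop := ∀ a b : ℤ, b ^ 2 + 4 * a < 0 → ∀ (m : ℕ) (W : Subgroup (GQ a b)),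
  W.FiniteIndex → ∀ r : Qf a b ℤ, r ≠ 0 →
  ∀ (c : GQ a b → GQ a b → Fin (m + 1) × Fin (1 + 1) → Qf a b ℤ) (X₀ : NF a b), X₀.N ≤ W →
  (∀ g ∈ W, ∀ h ∈ W, ∀ n ∈ X₀.N, ∀ n' ∈ X₀.N, ∀ i, r ∣ c (g * n) (h * n') i - c g h i) →
  (∀ g ∈ W, ∀ i, r ∣ c g 1 i) → ∀ y : GQ a b → Fin (m + 1) × Fin (1 + 1) → Qf a b ℤ,
  (∀ g ∈ W, ∀ h ∈ W, ∀ i, r ∣ (y (g * h) - y g - (tMO a b m g).mulVec (y h) - c g h) i) →
  ∀ p₁ ∈ clH W, ∀ p₂ ∈ clH W, p₁ * p₂ = p₂ * p₁ → ∀ ê : Fin 2 → OH a b,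
  (piH a b p₁).val.mulVec ê = ê → (piH a b p₂).val.mulVec ê = ê →
  ∃ X : NF a b, X.N ≤ W ∧ ∀ γ₁ γ₂ : GQ a b, Ap X p₁ γ₁ → Ap X p₂ γ₂ →
  ∀ (R : ℕ+) (e' : Fin 2 → Qf a b ℤ), (nq r).natAbs ∣ R →
  (∀ i, rH a b R (ê i) = Qfm a b (Int.castRingHom (ZMod R)) (e' i)) →
  r ∣ evM m 1 (c γ₁ γ₂ - c γ₂ γ₁) e' (fun i => cjq a b ℤ (e' i))

/-- [NL P tw] the cup product on the torus. (Uses `C_loc`, `C_ext`, `P_tor`, `H_a`, `C_o`.)

Proof. `H_a` (level `N` from `P_lv`; the support condition is a hypothesis) gives `d ≠ 0`, `w` with `w (x y) = w x + x w y + d cup z z' x y`. Let `M : ℕ+` be arbitrary and apply `P_tor` with `r = M`, `y = w`, `c = d • cup z z'` (`z`, `z'` are locally constant modulo `M` by `C_loc` with `c = 0`; `cup z z' g 1 = tens (z g) (g z' 1) = 0`). `evM (cup z z' γ₁ γ₂) e' (conj e') = evm m (z γ₁) e' * evm 1 (γ₁ z' γ₂) (conj e')` and the second factor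 is `evm 1 (z' γ₂) (conj (γ₁⁻¹ e')) ≡ evm 1 (z' γ₂) (conj e')` modulo `M`
(if the approximation is modulo `X ∩ NFG M`). For `e'` with the class `rH M ê` and deep approximations `rH M (evm m (Z p₁) ê)` is the class of `evm m (z γ₁) e'` etc. So `jH d (evm m (Z p₁) ê evm 1 (Z' p₂) (conj ê) - evm m (Z p₂) ê evm 1 (Z' p₁) (conj ê))` has the reduction zero modulo all `M`; `C_o`. -/
def P_tw : Prop := ∀ (a b : ℤ) (M₀ m : ℕ), PHyp a b M₀ m → ∀ W : Subgroup (GQ a b),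
  W.FiniteIndex → W ≤ Gam a b M₀ → ∀ N : ℕ, Lv W N → ∀ z, CH (tV m (RingHom.id _)) W z →
  ∀ z', CH (tV 1 (cjq a b ℤ)) W z' →
  (∀ e, Prm e → bv m N (RingHom.id _) z e = 0 ∨ bv 1 N (cjq a b ℤ) z' e = 0) →
  ∀ Z Z', ExtH W z Z → ExtH W z' Z' → ∀ p₁ ∈ clH W, ∀ p₂ ∈ clH W, p₁ * p₂ = p₂ * p₁ →
  ∀ ê : Fin 2 → OH a b, (piH a b p₁).val.mulVec ê = ê → (piH a b p₂).val.mulVec ê = ê →
  evm m (Z p₁) ê * evm 1 (Z' p₂) (fun i => cjq a b Zh (ê i)) =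
    evm m (Z p₂) ê * evm 1 (Z' p₁) (fun i => cjq a b Zh (ê i))

/-- the data for one prime and one level -/
structure PDat {a b : ℤ} {D : Subgroup (GQ a b)} (m : ℕ) (h : D →* GH a b)
    (C : Matrix (Fin 2) (Fin 2) (OH a b)) {q : ℕ} [Fact q.Prime] (v : OH a b →+* ℤ_[q])
    (W : Subgroup (GQ a b)) (N N' : ℕ) : Prop where
  fi : W.FiniteIndex
  lv : Lv W N
  lv' : Lv (hcm h W) N'

/-- the number `β(z)`, `Z` the extension of `z` -/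
def bH {a b : ℤ} {D : Subgroup (GQ a b)} (m : ℕ) (h : D →* GH a b)
    (C : Matrix (Fin 2) (Fin 2) (OH a b)) {q : ℕ} [Fact q.Prime] (v : OH a b →+* ℤ_[q])
    (N' : ℕ) (e : Fin 2 → Qf a b ℤ) (Z : GH a b → Fin (m + 1) → OH a b) : ℤ_[q] :=
  bv m N' (v.comp (jH a b)) (pbk m v h C Z) e

/-- the number `β'(z')`, `Z'` the extension of `z'` -/
def bH' {a b : ℤ} {D : Subgroup (GQ a b)} (h : D →* GH a b)
    (C : Matrix (Fin 2) (Fin 2) (OH a b)) {q : ℕ} [Fact q.Prime] (v : OH a b →+* ℤ_[q])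
    (N' : ℕ) (e : Fin 2 → Qf a b ℤ) (Z' : GH a b → Fin (1 + 1) → OH a b) : ℤ_[q] :=
  bv 1 N' (v.comp ((jH a b).comp (cjq a b ℤ))) (pbk 1 v h (cjM C) Z') e

/-- [NL P two] disjoint supports. (Uses `P_pb`, `P_tw`, `C_ext`, `B_bv`.)

Proof. `f = v ∘ jH`, `f' = v ∘ jH ∘ cjq` are injective (`VH.inj`), `ℤ_[q]` is a domain of characteristic zero. `p₁ = h (tv e N')`, `p₂ = h (tv e (N' w))`, `ê = C e` (`P_pb`). `v` of the equation of `P_tw`: with `β = bH`, `β' = bH'` and `BvM.mul` for the crossed homomorphisms `pbk ..` on `hcm h W` (`P_pb`, `C_ext`): `v (evm m (Z p₁) ê) = β`, `v (evm m (Z p₂) ê) = β f(w)`, `v (evm 1 (Z' p₁) (conj ê)) = β'`, `v (evm 1 (Z' p₂) (conj ê)) = β' f'(w)`. So `β β' (f'(w) - f(w)) = 0`; `VH.dif`. -/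
def P_two : Prop := ∀ (a b : ℤ) (M₀ m : ℕ), PHyp a b M₀ m → ∀ (D : Subgroup (GQ a b)),
  D.FiniteIndex → ∀ (h : D →* GH a b) (C E : Matrix (Fin 2) (Fin 2) (OH a b)), HD h C E →
  ∀ (q : ℕ) [Fact q.Prime] (v : OH a b →+* ℤ_[q]), VH q v → ∀ (W : Subgroup (GQ a b)) (N N' : ℕ),
  W.FiniteIndex → W ≤ Gam a b M₀ → Lv W N → Lv (hcm h W) N' →
  ∀ z, CH (tV m (RingHom.id _)) W z → ∀ z', CH (tV 1 (cjq a b ℤ)) W z' →
  (∀ e, Prm e → bv m N (RingHom.id _) z e = 0 ∨ bv 1 N (cjq a b ℤ) z' e = 0) →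
  ∀ Z Z', ExtH W z Z → ExtH W z' Z' → ∀ e, bH m h C v N' e Z * bH' h C v N' e Z' = 0

/-- the stabiliser of the vector `ê` modulo `q` -/
def StV {a b : ℤ} (q : ℕ+) (ê : Fin 2 → OH a b) : Subgroup (GQ a b) where
  carrier := {g | (rdq a b q g).val.mulVec (fun i => rH a b q (ê i)) = fun i => rH a b q (ê i)}
  mul_mem' {g g'} hg hg' := by
    show (rdq a b q (g * g')).val.mulVec _ = _
    rw [map_mul]
    show ((rdq a b q g).val * (rdq a b q g').val).mulVec _ = _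
    rw [← Matrix.mulVec_mulVec, show (rdq a b q g').val.mulVec _ = _ from hg',
      show (rdq a b q g).val.mulVec _ = _ from hg]
  one_mem' := by
    show (rdq a b q 1).val.mulVec _ = _
    rw [map_one]
    exact Matrix.one_mulVec _
  inv_mem' {g} hg := by
    show (rdq a b q g⁻¹).val.mulVec _ = _
    have h1 : (rdq a b q g).val.mulVec (fun i => rH a b q (ê i)) = fun i => rH a b q (ê i) := hg
    have h2 : (rdq a b q g⁻¹).val * (rdq a b q g).val = 1 := by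
      have h3 : rdq a b q g⁻¹ * rdq a b q g = 1 := by rw [← map_mul, inv_mul_cancel, map_one]
      exact congrArg Subtype.val h3
    calc (rdq a b q g⁻¹).val.mulVec (fun i => rH a b q (ê i))
        = (rdq a b q g⁻¹).val.mulVec ((rdq a b q g).val.mulVec fun i => rH a b q (ê i)) := by
          rw [h1]
      _ = _ := by rw [Matrix.mulVec_mulVec, h2, Matrix.one_mulVec]

/-- [NL P th] the class `Θ`.

Proof. Choose `e₀, e' ∈ ℤ[w]²` with the classes `rH q ê` and `ω(e₀, e') ≡ 1` modulo `q` (lift a vector over `OH`, or over `(ℤ/q)[w]`, with `ω(ê, ·) = 1`). `ι ∈ ℤ` with `ι (m + 1) ≡ 1` modulo `q`, `ι'` with `2 ι' ≡ 1`. Over a commutative ring `R` in which `ι (m + 1) = 1` let `Om_R(s, s') = ι ω(s', s) ∑_i (v ↦ ω(s', v)^i ω(s, v)^(m-i))` (a sum of columns of `sb m !![-s'1, s'0; -s1, s0]`), see `StmE.lean`. For vectors `s, s', s''` with `ω(e₀, ·) = 1` over a domain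 `R`:
`(m+1) ω(e₀, v) Om_R(s, s')(v) = ω(s', v)^(m+1) - ω(s, v)^(m+1)`, so `Om_R(s, s') + Om_R(s', s'') = Om_R(s, s'')` (compare the values at `(X, 1)`, over `R[X]`), `Om_R(g s, g s') = g Om_R(s, s')`, `Om_R(s, s')(e₀) = (-1)^m ω(s', s)`. So for the domain `R = ℤ[w] ⧸ (π)` (the map to `ZMod q` is injective): `θ(x) = Om_R(e', x e')` is a crossed homomorphism on the stabiliser of `e₀` in `SL₂(R)`, and the same for the degree one, where `x` acts by the conjugate matrix (reduce `cjq` of the entries modulo `π`; `q` is divisible by `π`, so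
`x ∈ StV` fixes `e₀` and `conj x` fixes `conj e₀` modulo `π`). Let `θ`, `θ'` be lifts of these functions to `ℤ[w]`, given by the same formulas over `ℤ[w]` (with `ι`, `ι'`), and `c x y = tens (θ x) (conj x θ' y)`. (1) is the cocycle identity of the cup product. (2), (3) `c x y` modulo `π` depends only on `x`, `y` modulo `q`, and `θ' 1 = Om(conj e', conj e') = 0`. (4) `x ≡ tv e₀ s` modulo `q`: `x e' = e' + s e₀`, `θ(x)(e₀) = (-1)^m ω(e' + s e₀, e') = (-1)^m s`,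
`θ'(x)(conj e₀) = - conj s`, so the value is `(-1)^(m+1) (s₁ conj s₂ - s₂ conj s₁)`; for even `m` this is the claim (`conj γ₁` fixes `conj e₀` modulo `π`). The vector `e''` of the claim is congruent to `e₀` modulo `q`. -/
def P_th : Prop := ∀ a b : ℤ, b ^ 2 + 4 * a < 0 → ∀ m : ℕ, Even m → ∀ (q : ℕ) [Fact q.Prime]
  (q' : ℕ+), (q' : ℕ) = q → ¬ q ∣ 2 * (m + 1) → ∀ v : OH a b →+* ℤ_[q], VH q v →
  ∀ π : Qf a b ℤ, π ≠ 0 → (∀ x : Qf a b ℤ, π ∣ x ↔ (q : ℤ_[q]) ∣ v (jH a b x)) →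
  ∀ ê : Fin 2 → OH a b, (∃ f, CG.om ê f = 1) →
  ∃ c : GQ a b → GQ a b → Fin (m + 1) × Fin (1 + 1) → Qf a b ℤ,
  (∀ x ∈ StV q' ê, ∀ y ∈ StV q' ê, ∀ z ∈ StV q' ê, ∀ i, π ∣ ((tMO a b m x).mulVec (c y z) -
    c (x * y) z + c x (y * z) - c x y) i) ∧
  (∀ g h : GQ a b, ∀ n ∈ (NFG a b q').N, ∀ n' ∈ (NFG a b q').N, ∀ i,
    π ∣ c (g * n) (h * n') i - c g h i) ∧ (∀ g i, π ∣ c g 1 i) ∧
  ∀ γ₁ ∈ StV q' ê, ∀ γ₂ ∈ StV q' ê, ∀ (e' : Fin 2 → Qf a b ℤ) (s₁ s₂ : Qf a b ℤ),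
    (∀ i, rH a b q' (ê i) = Qfm a b (Int.castRingHom (ZMod q')) (e' i)) →
    (∀ i j, (q : Qf a b ℤ) ∣ γ₁.val i j - (tv e' s₁).val i j) →
    (∀ i j, (q : Qf a b ℤ) ∣ γ₂.val i j - (tv e' s₂).val i j) →
    π ∣ evM m 1 (c γ₁ γ₂ - c γ₂ γ₁) e' (fun i => cjq a b ℤ (e' i)) +
      (s₁ * cjq a b ℤ s₂ - s₂ * cjq a b ℤ s₁)

/-- [NL P one] nonvanishing. (Uses `C_loc`, `C_ext`, `C_v`, `C_cl`, `P_lv`, `P_pb`, `P_tor`, `P_th`, `H_b`, `B_bv`.)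

Proof. Let `X` be given, `X.N ≤ Gam a b M₀`, `N₁` a level of `hcm h X.N` (`C_cl`, `P_lv`). `C_v` for `n = 2 (m + 1) N₁` gives `q`, `v`, `π`. `ê = C e` (unimodular: `ω(C e, C f) = det C ω(e, f)`, `det C` is a unit, `e` primitive). `W = X.N ⊓ StV q ê`, of finite index (`StV` contains `NFG q`). (a) For `p = h (tv e t)`: `p` fixes `ê` (`P_pb`). `x ∈ clH W` iff `pr X x = 1` and `pm q x` fixes `rH q ê` (`C_cl` for `X' = X ∩ NFG q`), so `p x p⁻¹ ∈ clH W`.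
(b) `c̃` from `P_th` for `ê`. `H_b` for `W`, the element `π` and `c̃`: `d ≠ 0`, `k`, `z j`, `z' j`, `y`. `Z j`, `Z' j` extensions (`C_ext`). `P_tor` with `r = d π`, `c = ∑ cup (z j) (z' j) - d c̃` (locally constant modulo `r` by `C_loc` for the `z j`, `z' j` and `P_th` (2); `c g 1 ≡ 0`), `p₁ = h (tv e N₁)`, `p₂ = h (tv e (N₁ w))`, elements of `clH W`. Let `γ₁`, `γ₂` be deep approximations, `R` a large multiple of `nq r` and `q`, `e' ≡ ê` modulo `R`: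
`d π ∣ ∑_j (evm m (z j γ₁) e' evm 1 (z' j γ₂) (conj e') - evm m (z j γ₂) e' evm 1 (z' j γ₁) (conj e')) - d E`, modulo `d π` (as in `P_tw`), where `E = evM m 1 (c̃ γ₁ γ₂ - c̃ γ₂ γ₁) e' (conj e')`. Apply `v ∘ jH`; the sum is congruent modulo `v(d π)` to `v` of the sum for `Z j p₁` etc. (if `R` is divisible by `nq (d π)`). With `BvM.all` for `pbk`: `N' v(evm m (Z j p₁) ê) = β_j f(N₁)`, `N' v(evm m (Z j p₂) ê) = β_j f(N₁ w)`, and the same for `Z'` with `f'`; so `N'²` times the sum is `∑ β_j β'_j N₁² (f'(w) - f(w))`.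
If all `β_j β'_j` were zero then the sum would be zero and `v(d π) ∣ v(d) v(E)`, so `q ∣ v(E)`. But by `P_th` `v(E) ≡ - v(s₁ conj s₂ - s₂ conj s₁)` modulo `q`, where `s_i` are determined modulo `q` by `γ_i ≡ tv e' s_i`: by `P_pb` `det(C) s₁ ≡ N₁`, `det(C) s₂ ≡ N₁ w` modulo `q`, so `v(det C conj(det C)) v(s₁ conj s₂ - s₂ conj s₁) ≡ N₁² (f'(w) - f(w))`, which is a unit. So there is `j` with `β_j β'_j ≠ 0`. -/
def P_one : Prop := ∀ (a b : ℤ) (M₀ m : ℕ), PHyp a b M₀ m → ∀ (D : Subgroup (GQ a b)),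
  D.FiniteIndex → ∀ (h : D →* GH a b) (C E : Matrix (Fin 2) (Fin 2) (OH a b)), HD h C E →
  ∀ X : NF a b, X.N ≤ Gam a b M₀ → ∀ e, Prm e →
  ∃ (q : ℕ) (_ : Fact q.Prime) (v : OH a b →+* ℤ_[q]) (W : Subgroup (GQ a b)) (N' : ℕ), VH q v ∧
  W.FiniteIndex ∧ W ≤ X.N ∧ Lv (hcm h W) N' ∧
  (∀ (t : Qf a b ℤ) (ht : tv e t ∈ D), ∀ x ∈ clH W, h ⟨_, ht⟩ * x * (h ⟨_, ht⟩)⁻¹ ∈ clH W) ∧
  ∃ z z' Z Z', CH (tV m (RingHom.id _)) W z ∧ CH (tV 1 (cjq a b ℤ)) W z' ∧ ExtH W z Z ∧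
    ExtH W z' Z' ∧ bH m h C v N' e Z ≠ 0 ∧ bH' h C v N' e Z' ≠ 0

/-- [NL P at] one atom. (Uses `P_two`, `X_ex`, `X_ex1`, `X_cb`, `H_map`, `C_ext`, `P_pb`, `B_bv`; cite `p_Lcu`.)

Proof. `Cusp W` is finite (`p_Lcu`), let `v_1, ..., v_k` be primitive vectors such that every primitive vector is `Cs W v_i` for exactly one `i`; `N` a level of `W`. `z_i` from `X_ex`, `z'_i` from `X_ex1` and `H_map`; extensions `Z_i`, `Z'_i`. Claim: if `z` is a crossed homomorphism with the extension `Z` and `β(Z) ≠ 0` then there is `i` with `bv z v_i ≠ 0` and `β(Z_i) ≠ 0`; and the same for `z'`, `β'`. Proof: let `c = ∏ bv z_i v_i ≠ 0`, `c_i = (c / bv z_i v_i) bv z v_i`, `y = c z - ∑ c_i z_i`; `bv y v_j = 0` for all `j`, so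
`bv y e' = 0` for all primitive `e'` (`BvM.inv`, `BvM.hom`). `X_cb`: `d y x = x u - u` on `W`; its extension is `x ↦ x u - u` on `clH W`, and `β` of it is zero (`P_pb`, `evm m (x P) ê = evm m P ê` if `x ê = ê`). So `d c β(Z) = d ∑ c_i β(Z_i)` (`β` depends only on `Z` on `clH W`, which is determined by `z`; linear), and there is `i` with `c_i ≠ 0`, `β(Z_i) ≠ 0`. Now let `β(Z) ≠ 0`, `β'(Z') ≠ 0`; `i`, `j` from the claim. If `i' ≠ j` then `z_i'` and `z'_j` have disjoint supports and `β(Z_i') = 0` (`P_two`). So `i = j`,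
and `β(Z_i') = 0` for all `i' ≠ i`. `v₀ = v_i`, `z₀ = z_i`; if `β(Z₁) ≠ 0` the claim gives `i'` with `bv z₁ v_i' ≠ 0`, `β(Z_i') ≠ 0`, so `i' = i`. -/
def P_at : Prop := ∀ (a b : ℤ) (M₀ m : ℕ), PHyp a b M₀ m → ∀ (D : Subgroup (GQ a b)),
  D.FiniteIndex → ∀ (h : D →* GH a b) (C E : Matrix (Fin 2) (Fin 2) (OH a b)), HD h C E →
  ∀ (q : ℕ) [Fact q.Prime] (v : OH a b →+* ℤ_[q]), VH q v → ∀ (W : Subgroup (GQ a b)) (N' : ℕ),
  W.FiniteIndex → W ≤ Gam a b M₀ → Lv (hcm h W) N' → ∀ e, Prm e →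
  ∀ z z' Z Z', CH (tV m (RingHom.id _)) W z → CH (tV 1 (cjq a b ℤ)) W z' → ExtH W z Z →
    ExtH W z' Z' → bH m h C v N' e Z ≠ 0 → bH' h C v N' e Z' ≠ 0 →
  ∃ (v₀ : Fin 2 → Qf a b ℤ) (N : ℕ) (z₀ : GQ a b → Fin (m + 1) → Qf a b ℤ) (Z₀ : _),
    Prm v₀ ∧ Lv W N ∧ X1 m N W v₀ z₀ ∧ ExtH W z₀ Z₀ ∧ bH m h C v N' e Z₀ ≠ 0 ∧
    ∀ z₁ Z₁, CH (tV m (RingHom.id _)) W z₁ → ExtH W z₁ Z₁ → bH m h C v N' e Z₁ ≠ 0 →
      bv m N (RingHom.id _) z₁ v₀ ≠ 0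

/-- [NL P inv] invariance. (Uses `C_ext`, `C_cl`, `P_pb`.)

Proof. `p = h (tv e t)`. Let `X'' ∈ NF` with `X''.N ≤ W ∩ X.N`, `g` an approximation of `p` modulo `X''`. `g` normalises `W`: for `x ∈ W`: `p x p⁻¹ ∈ clH W` and it is approximated by `g x g⁻¹` modulo `X''` (`C_cl`); so `g W g⁻¹ ≤ W`, and `g⁻¹ W g ≤ W` as well (finite index: `g W g⁻¹` has the same index). `z₁ x = g⁻¹ z₀ (g x g⁻¹)` (`g⁻¹` acts by `tV m id g⁻¹`) is a crossed homomorphism of `W`, `Z₁ x = (tH m (iH g))⁻¹ Z₀ (iH g x iH g⁻¹)` its extension. `bv z₁ e' = bv z₀ (g e')`: `g (tv e' N) g⁻¹ = tv (g e') N`, `evm m (g⁻¹ P) e' = evm m P (g e')`.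
`bH Z₁ = bH Z₀`: let `x = h (tv e N')`, it commutes with `p`; `iH g = n p` with `n ∈ clH X''.N` (`n = iH g p⁻¹`). `iH g x iH g⁻¹ = n x n⁻¹`, `Z₀ (n x n⁻¹) = Z₀ n + n Z₀ x - (n x n⁻¹) Z₀ n`, so with `ê = C e`, `p ê = ê`, `iH g ê = n ê`: `evm m (Z₁ x) ê = evm m (Z₀ (n x n⁻¹)) (n ê) = evm m (Z₀ x) ê` (`n x n⁻¹` fixes `n ê`). -/
def P_inv : Prop := ∀ a b : ℤ, b ^ 2 + 4 * a < 0 → ∀ (m : ℕ) (D : Subgroup (GQ a b)),
  D.FiniteIndex → ∀ (h : D →* GH a b) (C E : Matrix (Fin 2) (Fin 2) (OH a b)), HD h C E →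
  ∀ (q : ℕ) [Fact q.Prime] (v : OH a b →+* ℤ_[q]) (W : Subgroup (GQ a b)) (N N' : ℕ),
  W.FiniteIndex → Lv W N → Lv (hcm h W) N' → ∀ (e : Fin 2 → Qf a b ℤ) (t : Qf a b ℤ)
  (ht : tv e t ∈ D), (∀ x ∈ clH W, h ⟨_, ht⟩ * x * (h ⟨_, ht⟩)⁻¹ ∈ clH W) →
  ∀ X : NF a b, ∃ g : GQ a b, Ap X (h ⟨_, ht⟩) g ∧ ∀ z₀ Z₀, CH (tV m (RingHom.id _)) W z₀ →
  ExtH W z₀ Z₀ → ∃ z₁ Z₁, CH (tV m (RingHom.id _)) W z₁ ∧ ExtH W z₁ Z₁ ∧
    bH m h C v N' e Z₁ = bH m h C v N' e Z₀ ∧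
    ∀ e' : Fin 2 → Qf a b ℤ, bv m N (RingHom.id _) z₁ e' = bv m N (RingHom.id _) z₀ (g.val.mulVec e')

/-- [NL P fx] a fixed cusp for every level. (Uses `P_one`, `P_at`, `P_inv`.)

Proof. `X' = X ∩ NFG M₀`. `P_one` for `X'`: `q`, `v`, `W ≤ X'.N`, ..., `P_at`: `v₀`, `z₀`. Let `t` be given, `p = h (tv e t)`. `P_inv` for `X`: `g₀` with `Ap X p g₀`, `z₁`, `Z₁`: `bH Z₁ = bH Z₀ ≠ 0`, so `bv z₁ v₀ ≠ 0`, `bv z₀ (g₀ v₀) ≠ 0`, and `Cs W v₀ (g₀ v₀)` (`X1`; `g₀ v₀` is primitive): `g₀ v₀ = u x v₀`, `x ∈ W ≤ X.N`. For any `g` with `Ap X p g`: `g = g₀ n = n' g₀` with `n' ∈ X.N`, so `g v₀ = n' g₀ v₀ = u n' x v₀`. -/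
def P_fx : Prop := ∀ (a b : ℤ) (M₀ m : ℕ), PHyp a b M₀ m → ∀ (D : Subgroup (GQ a b)),
  D.FiniteIndex → ∀ (h : D →* GH a b) (C E : Matrix (Fin 2) (Fin 2) (OH a b)), HD h C E →
  ∀ X : NF a b, ∀ e, Prm e → ∃ v₀, Prm v₀ ∧ ∀ (t : Qf a b ℤ) (ht : tv e t ∈ D) (g : GQ a b),
    Ap X (h ⟨_, ht⟩) g → Cs X.N v₀ (g.val.mulVec v₀)

/-- [NL P pair] MAIN RESULT of block P. (Uses `P_fx`, `P_pb`, `C_cpt`, `C_bor`, `C_o`, `C_u`; cite `p_Vtv`.)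

Proof. For `X : NF` let `S X` be the set of the classes of the `k` such that for all `t` with `tv e t ∈ D` and all `g` with `Ap X (h (tv e t)) g` there are `n ∈ X.N`, `b ∈ Bor` with `g k = n k b`. It depends only on the class of `k` modulo `X.N`, it is not empty by `P_fx` (`k e₁ = v₀`; `Cs X.N v₀ (g v₀)`: `g k e₁ = u n k e₁`, so `(n k)⁻¹ g k e₁ = u e₁` and it is in `Bor`), and it is compatible. `C_cpt` gives `k̂ ∈ GH`. Then `k̂⁻¹ h(tv e t) k̂ ∈ clH Bor`: for `X` let `k`, `g` be approximations modulo `X` of `k̂` and `h (tv e t)`, `g k = n k b`, `k⁻¹ g k = (k⁻¹ n k) b ≡ b`.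
`C_bor`: `h (tv e t) = k̂ iH(dg u v) uH(s) k̂⁻¹`. The trace of `piH (h (tv e t))` is `2` (`HD`; trace of a conjugate of `tv e t`), and it is `u + v` (in `OH`), so `u + v = 2`, `u v = 1` in `ℤ[w]` (`C_o`), `(u - 1)² = 0`, `u = v = 1`. So `h (tv e t) = k̂ uH(s) k̂⁻¹` (for all `t`, with the same `k̂`). Let `f = (piH k̂) e₁`, unimodular. `piH (h (tv e t))` is `tv f s` (`p_Vtv`, `C_u` (3)), and `det(C) (tv f s x - x) = t ω(C e, x) C e` (`P_pb`). Take `t ≠ 0` with `tv e t ∈ D` (`P_lv`); `x = f`: `0 = t ω(C e, f) C e`, so `t ω(C e, f) = 0` (`C e` is unimodular), `ω(C e, f) = 0` (`C_o` (2)),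
and `f = ε C e` (`C_o` (5)), `ε` a unit (both vectors are unimodular: `ω(f, f') = 1` implies `ε ω(C e, f') = 1`). For all `t`: `det(C) s ω(f, x) f = t ω(C e, x) C e`, with `f = ε C e`: `det(C) s ε² ω(C e, x) C e = t ω(C e, x) C e`; choose `x` with `ω(C e, x) = 1`, and `C e` is unimodular. -/
def P_pair : Prop := ∀ (a b : ℤ) (M₀ m : ℕ), PHyp a b M₀ m → ∀ (D : Subgroup (GQ a b)),
  D.FiniteIndex → ∀ (h : D →* GH a b) (C E : Matrix (Fin 2) (Fin 2) (OH a b)), HD h C E →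
  ∀ e, Prm e → ∃ (k : GH a b) (ε : OH a b), IsUnit ε ∧
    (piH a b k).val.mulVec ![1, 0] = ε • C.mulVec (eH e) ∧
    ∀ (t : Qf a b ℤ) (ht : tv e t ∈ D), ∃ s : OH a b, h ⟨_, ht⟩ = k * uH s * k⁻¹ ∧
      ε ^ 2 * C.det * s = jH a b t

end

end Pool.Agent.F8.NL
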