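import Pool.Agent.Lib.MP_305fdd_al.F8.NL.StmM

/-!
# MP_305fdd_al, all lattices (project NL): block R (the theorem `SRF`)

MAIN RESULT (`R_srf`): a homomorphism `h : D → GH` which lifts the inclusion up to the conjugation with a matrix over `OH` is the conjugation with an element of `GH`, composed with the conjugation with a matrix in `GL₂(ℤ[w])`.
-/

set_option autoImplicit false

namespace Pool.Agent.F8.NL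

open Pool.Agent.F8.CG Pool.Agent.F8.BG Pool.Agent.MP_305fdd_al Pool.Agent.Lib.MP_305fdd_al
  Pool.Agent.F8
open scoped QuadraticAlgebra ComplexConjugate Kronecker

noncomputable section

/-- [NL R one] `M_main` for two arbitrary vectors. (Uses `M_main`.)

Proof. Let `g₀ e₁ = e`, `e₁ = (1, 0)`. `D₁ = g₀⁻¹ D g₀` (of finite index), `h₁ x = h (g₀ x g₀⁻¹)`, `C₁ = C (SLm jH g₀)`, `E₁ = (SLm jH g₀)⁻¹ E`: `HD h₁ C₁ E₁`, `det C₁ = det C`. `Kap h C (g₀ f₁) k ε ↔ Kap h₁ C₁ f₁ k ε`: `C g₀ f₁ = C₁ f₁`, `tv (g₀ f₁) t = g₀ (tv f₁ t) g₀⁻¹` (`p_Vtv`). With `f₁ = e₁` and `f₁ = g₀⁻¹ f`, whose second coordinate is `ω(e₁, g₀⁻¹ f) = ω(e, f) ≠ 0`. -/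
def R_one : Prop := ∀ (a b : ℤ) (M₀ m : ℕ), PHyp a b M₀ m → ∀ (D : Subgroup (GQ a b)),
  D.FiniteIndex → ∀ (h : D →* GH a b) (C E : Matrix (Fin 2) (Fin 2) (OH a b)), HD h C E →
  ∀ (e f : Fin 2 → Qf a b ℤ) (k k' : GH a b) (ε ε' : OH a b), Prm e → Prm f → CG.om e f ≠ 0 →
  Kap h C e k ε → Kap h C f k' ε' → ∃ (s : OH a b) (γ : GQ a b), γ.val 1 0 ≠ 0 ∧
  ∃ b' ∈ clH (Bor a b), k' = k * uH s * iH a b γ * b'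

/-- [NL R un] the numbers `ε` are units of `ℤ[w]`, up to a common factor. (Uses `R_one`, `C_bor`, `C_u`, `C_o`.)

Proof. `k' = k uH(s) iH(γ) b'`, `b' = iH (dg u v) uH r` (`C_bor`). `ε' C f = (piH k') e₁ = (piH k) (eU s) γ (u e₁)`, `ε C e = (piH k) e₁`. `ω` of the two vectors: `ε ε' det(C) ω(e, f) = ω(e₁, (eU s) γ (u e₁)) = u γ₁₀` (in `OH`; `ω(C x, C y) = det(C) ω(x, y)`, `ω` is invariant under `SL₂`). So `jH (ω(e, f)) * (ε ε' det C) = jH (u γ₁₀)`, by `C_o` (3) `ε ε' det C = jH r'`, and it is a unit, so `r'` is a unit (`C_o` (4)). -/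
def R_un : Prop := ∀ (a b : ℤ) (M₀ m : ℕ), PHyp a b M₀ m → ∀ (D : Subgroup (GQ a b)),
  D.FiniteIndex → ∀ (h : D →* GH a b) (C E : Matrix (Fin 2) (Fin 2) (OH a b)), HD h C E →
  ∀ (e f : Fin 2 → Qf a b ℤ) (k k' : GH a b) (ε ε' : OH a b), Prm e → Prm f → CG.om e f ≠ 0 →
  Kap h C e k ε → Kap h C f k' ε' → ∃ u : Qf a b ℤ, IsUnit u ∧ ε * ε' * C.det = jH a b u

/-- [NL R nm] normalisation. (Uses `P_pair`, `R_un`, `C_u`, `C_o`, `M_k`.)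

Proof. `P_pair` gives `k_e`, `ε_e` for all primitive `e`. Let `e₁ = (1, 0)`, `e₂ = (0, 1)`, `e₃ = (1, 1)`, `δ = det C`. `R_un` for the three pairs: `ε₁ ε₂ δ`, `ε₁ ε₃ δ`, `ε₂ ε₃ δ` are images of units, so `ε₁² δ = (ε₁ ε₂ δ) (ε₁ ε₃ δ) (ε₂ ε₃ δ)⁻¹` is the image of a unit `δ₀`. `C' = ε₁ C`, `E' = ε₁⁻¹ E`: `HD h C' E'` (scalars cancel), `det C' = ε₁² δ = jH δ₀`. For a primitive `e` `Kap h C' e k_e ε'` with `ε' = ε_e ε₁⁻¹`. If `ω(e, e₁) ≠ 0` then `ε' = (ε_e ε₁ δ) (ε₁² δ)⁻¹` is the image of a unit; if `ω(e, e₁) = 0` then `e = u e₁`, `ω(e, e₂) ≠ 0`, and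
`ε' = (ε_e ε₂ δ) (ε₁ ε₂ δ)⁻¹`. So `ε' = jH u`, and with `k = k_e iH (dg u⁻¹ u)`: `Kap h C' e k 1` (`(piH k) e₁ = u⁻¹ ε' C' e = C' e`; `k uH(s') k⁻¹ = k_e uH(u⁻² s') k_e⁻¹`, take `s' = u² s`). -/
def R_nm : Prop := ∀ (a b : ℤ) (M₀ m : ℕ), PHyp a b M₀ m → ∀ (D : Subgroup (GQ a b)),
  D.FiniteIndex → ∀ (h : D →* GH a b) (C E : Matrix (Fin 2) (Fin 2) (OH a b)), HD h C E →
  ∃ (C' E' : Matrix (Fin 2) (Fin 2) (OH a b)) (δ₀ : Qf a b ℤ), HD h C' E' ∧ IsUnit δ₀ ∧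
    C'.det = jH a b δ₀ ∧ ∀ e, Prm e → ∃ k, Kap h C' e k 1

/-- the matrix `diag(1, δ)` -/
def dA {R : Type} [CommRing R] (δ : R) : Matrix (Fin 2) (Fin 2) R := !![1, 0; 0, δ]

/-- [NL R str] the structure of the data. (Uses `R_one`, `M_k`, `C_bor`, `C_u`, `C_o`.)

Proof. Let `Kap h C e₁ k₁ 1`, `e₁ = (1, 0)`. `(piH k₁)⁻¹ C e₁ = e₁`, so `(piH k₁)⁻¹ C = [[1, β], [0, jH δ₀]] = (eU b₀) (dA (jH δ₀))` with `b₀ = β (jH δ₀)⁻¹`. `γ̂ = k₁ uH(b₀)`: `C = (piH γ̂) (dA (jH δ₀))`. Let `f` be primitive, `Kap h C f k 1`. If `f₁ ≠ 0`: `R_one`: `k = k₁ uH(s) iH(γ) b'`, `b' = iH (dg u v) uH r`, so `k = γ̂ uH(s') iH(γ') uH(r)`, `s' = s - b₀`, `γ' = γ (dg u v)`. Apply `piH` and `e₁`: `C f = (piH γ̂) (eU s') γ' e₁`, so `(dA δ₀) f = (eU s') γ' e₁` over `OH`, i.e. `f₀ = γ'₀₀ + s' γ'₁₀`, `δ₀ f₁ = γ'₁₀`. `γ'₁₀ ≠ 0`, so `s' = jH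 s₀` (`C_o` (3)), and
`γ_f = (eU s₀) γ'` (`uH (jH s₀) = iH (eU s₀)`). If `f₁ = 0`: `f = u e₁`, `u` a unit, `M_k` (2) and (4): `k = k₁ iH (dg u v) iH (dg u' v') uH r` with `jH u' = 1`, so `dg u' v' = 1`; `k₁ iH(dg u v) = γ̂ uH(- b₀) iH(dg u v) = γ̂ iH(dg u v) uH(..)` (`C_u` (6)); `γ_f = dg u v`, `(dg u v) e₁ = u e₁ = (dA δ₀) f`. -/
def R_str : Prop := ∀ (a b : ℤ) (M₀ m : ℕ), PHyp a b M₀ m → ∀ (D : Subgroup (GQ a b)),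
  D.FiniteIndex → ∀ (h : D →* GH a b) (C E : Matrix (Fin 2) (Fin 2) (OH a b)), HD h C E →
  ∀ δ₀ : Qf a b ℤ, IsUnit δ₀ → C.det = jH a b δ₀ → (∃ k, Kap h C ![1, 0] k 1) →
  ∃ γ' : GH a b, C = (piH a b γ').val * dA (jH a b δ₀) ∧
  ∀ f, Prm f → ∀ k, Kap h C f k 1 → ∃ (γ : GQ a b) (r : OH a b),
    colG γ 0 = (dA δ₀).mulVec f ∧ k = γ' * iH a b γ * uH r

/-- [NL R main] (Uses `R_nm`, `R_str`, `M_k`, `C_u`, `C_o`.)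

Proof. `R_nm`, `R_str`: `γ'`, `δ₀`; `A = dA δ₀`, `A' = dA δ₀⁻¹`. Let `x ∈ D`, `x' = A x A'` (`NC.cjA A A' hA x`). `Kap h C e₁ k₁ 1`, so `Kap h C (x e₁) (h x k₁) 1` (`M_k` (1)). `R_str` for `e₁` and for `x e₁`: `k₁ = γ' iH(γ₁) uH(r₁)`, `h x k₁ = γ' iH(γ₂) uH(r₂)`, `γ₁ e₁ = A e₁`, `γ₂ e₁ = A x e₁ = x' A e₁ = x' γ₁ e₁`, so `γ₂ = x' γ₁ (eU t)`. So `y = (iH x')⁻¹ γ'⁻¹ (h x) γ' = iH(γ₁) uH(t + r₂ - r₁) iH(γ₁)⁻¹`. `piH y = 1`: `piH (h x) = C x E` and `C = (piH γ') A`, `E = A' (piH γ')⁻¹`. So `eU (t + r₂ - r₁) = 1`, `t + r₂ - r₁ = 0` and `y = 1`. -/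
def R_main : Prop := ∀ (a b : ℤ) (M₀ m : ℕ), PHyp a b M₀ m → ∀ (D : Subgroup (GQ a b)),
  D.FiniteIndex → ∀ (h : D →* GH a b) (C E : Matrix (Fin 2) (Fin 2) (OH a b)), HD h C E →
  ∃ (γ' : GH a b) (A A' : Matrix (Fin 2) (Fin 2) (Qf a b ℤ)) (hA : A * A' = 1),
    ∀ x : D, h x = γ' * iH a b (NC.cjA A A' hA x) * γ'⁻¹

/-- [NL R srf] MAIN RESULT. (Uses `R_main`, `C_gl`.)

Proof. Let `h N` be a family with `NC.Lft D h`. `ĥ x = (X ↦ h X.N x)`, an element of `GH` by `Lft.cmp`, a homomorphism. The hypothesis of `C_gl`: `pm m (ĥ x) = QuotientGroup.kerLift (rdq a b m) (h (Γ(m)) x)`, and `Lft.cg` for `N = Gam a b m = (rdq a b m).ker` (`QuotientGroup.lift N (rdq a b m) hN` and `kerLift` agree). `R_main`: `ĥ x = γ' iH(A x A') γ'⁻¹`; for `N` let `g` be an approximation of `γ'` modulo `N`; apply `pr`. -/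
def R_srf : Prop := ∀ (a b : ℤ) (M₀ m : ℕ), PHyp a b M₀ m → NC.SRF a b M₀

end

end Pool.Agent.F8.NL
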