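import Pool.Agent.Lib.MP_305fdd_al.F8.NL.DefsT

/-!
# MP_305fdd_al, all lattices (project NL): block T (the vanishing theorem for the forms of bidegree `(m, n)`)

THEOREM (`T_vtN`). Let `z` be a crossed homomorphism of a subgroup `W` of finite index of `SL₂(ℤ[w])`, with values in the forms of bidegree `(m, n)`, `n = 0, m ≥ 3` or `n = 1, m ≥ 4`. If the leading coefficient of `z` at every cusp is `r conj t` then `z` is a coboundary.

The proof. At every cusp `z` is `Gf x - Gf (x - N t)` for a function `Gf x = c x + B x^(m+1) + R conj x^(n+1)`, `c` a form (`T_to`, `T_td`); the hypothesis is `B = 0`. Minus the leading coefficient of `c` is a homogeneous function `f` on the vectors (`T_hf`, `T_fx`); `f ∘ g + c_g` is a family for the theorem `A_main` of block A (`T_fam`), so `f` is a form, and `z` its coboundary (`T_vtN`).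
-/

set_option autoImplicit false

namespace Pool.Agent.F8.NL

open Pool.Agent.F8.CG Pool.Agent.F8.BG Pool.Agent.MP_305fdd_al Pool.Agent.Lib.MP_305fdd_al
  Pool.Agent.F8
open scoped QuadraticAlgebra ComplexConjugate

noncomputable section

/-- [NL T ind] independence of `1`, `conj x`, `conj x ^ 2` over the polynomials in `x`.

Proof. For `u` one of `1`, `w`, `1 + w` let `y = c₀ iC u ≠ 0`, `κ = conj y / y`. For `k : ℤ` the point `x = c₀ iC (k u) = k y` has `conj x = κ x`. So the polynomial `P₀ + C κ * X * P₁ + C (R κ²) * X²` vanishes at all `k y ∉ S`, infinitely many points, so it is zero. The three numbers `κ` are different: `conj y * y' = conj y' * y` with `y = c₀ iC u`, `y' = c₀ iC u'` gives `conj (iC u) * iC u' = conj (iC u') * iC u`, which is for the three pairs equivalent to `conj wC = wC`, false by `wC_im`.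
Subtract the polynomials for `κ₁`, `κ₂` and divide by `κ₁ - κ₂`: `X P₁ + C ((κ₁ + κ₂) R) X² = 0`, in the same way with `κ₁, κ₃`; subtract: `R = 0`, then `P₁ = 0`, `P₀ = 0`. -/
def T_ind : Prop := ∀ a b : ℤ, b ^ 2 + 4 * a < 0 → ∀ (P₀ P₁ : Polynomial ℂ) (R c₀ : ℂ), c₀ ≠ 0 →
  ∀ S : Finset ℂ, (∀ t : Qf a b ℤ, c₀ * iC a b t ∉ S → P₀.eval (c₀ * iC a b t) +
    conj (c₀ * iC a b t) * P₁.eval (c₀ * iC a b t) + R * conj (c₀ * iC a b t) ^ 2 = 0) →
  P₀ = 0 ∧ P₁ = 0 ∧ R = 0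

/-- [NL T uq] uniqueness of the coefficients. (Uses `T_ind`.)

Proof. `ev1_eq`. `n = 0`: `T_ind` for `P₀ = ∑ i, C (c (i, 0)) * X ^ i + C B * X ^ (m + 1) - C K`, `P₁ = C R`, and `0`. `n = 1`: `P₀` is the same, `P₁ = ∑ i, C (c (i, 1)) * X ^ i`, and `R`. Compare the coefficients. -/
def T_uq : Prop := ∀ a b : ℤ, b ^ 2 + 4 * a < 0 → ∀ m n : ℕ, n ≤ 1 → 1 ≤ m →
  ∀ (c : Fin (m + 1) × Fin (n + 1) → ℂ) (B R K c₀ : ℂ), c₀ ≠ 0 → ∀ S : Finset ℂ,
  (∀ t : Qf a b ℤ, c₀ * iC a b t ∉ S → Gf m n c B R (c₀ * iC a b t) = K) →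
  c (0, 0) = K ∧ (∀ p, p ≠ (0, 0) → c p = 0) ∧ B = 0 ∧ R = 0

/-- [NL T to0] the torus lemma for polynomials.

Proof. Let `τ t = c₀ iC t`, `D_t f = f - f.comp (X - C (τ t))`; these operators commute, `D_(s + t) f = D_s f + (D_t f).comp (X - C (τ s))`. (1) For every `τ ≠ 0` and every `f` of degree at most `m` there is a `V` of degree at most `m + 1` with `V - V.comp (X - C τ) = f`: induction on `m`; `X^(m+1) - (X - C τ)^(m+1)` has degree at most `m` and its coefficient of `X^m` is `(m + 1) τ`, so subtracting a multiple lowers the degree of `f`.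
(2) If `D_t f = 0` for some `t ≠ 0` then `f` is constant (`f` has the same value at all `k τ t`, `k : ℕ`). (3) Let `V` be from (1) for `f = ζ 1`, `τ = τ 1 = c₀`, and `h t = ζ t - D_t V`. `ζ (s + t) = ζ (t + s)` gives `D_s (ζ t) = D_t (ζ s)`, so `D_1 (h t) = D_t (ζ 1) - D_t D_1 V = 0`, `h t = C (γ t)` is constant, `γ` is additive, and `γ 1 = 0`. So `γ t = t.im * γ w` (`w = ⟨0, 1⟩`), and `iC t - conj (iC t) = t.im * (wC - conj wC)`; so
`γ t = κ (iC t - conj (iC t))` with `κ = γ w / (wC - conj wC)` (`wC_im`), which is `(κ / c₀) τ t - (κ / conj c₀) conj (τ t)`. Replace `V` by `V + C (κ / c₀) * X`, and let `R = - κ / conj c₀`. -/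
def T_to0 : Prop := ∀ a b : ℤ, b ^ 2 + 4 * a < 0 → ∀ (m : ℕ) (c₀ : ℂ), c₀ ≠ 0 →
  ∀ ζ : Qf a b ℤ → Polynomial ℂ, (∀ t, (ζ t).natDegree ≤ m) →
  (∀ s t, ζ (s + t) = ζ s + (ζ t).comp (Polynomial.X - Polynomial.C (c₀ * iC a b s))) →
  ∃ (V : Polynomial ℂ) (R : ℂ), V.natDegree ≤ m + 1 ∧ ∀ t,
    ζ t = V - V.comp (Polynomial.X - Polynomial.C (c₀ * iC a b t)) +
      Polynomial.C (R * conj (c₀ * iC a b t))

/-- [NL T to] the torus lemma. (Uses `T_ind`, `T_to0`.)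

Proof. `ev1_eq`. `n = 0`: `ev1 m 0 P x` is the value of the polynomial `∑ i, C (P (i, 0)) * X ^ i`; two polynomials with the same values at all points are equal, so `T_to0` applies: `c (i, 0) = V.coeff i`, `B = V.coeff (m + 1)`, the same `R`. `n = 1`: `ev1 m 1 P x = P₀ x + conj x * P₁ x`, `P_j = ∑ i, C (P (i, j)) * X ^ i`, of degree at most `m`. With `conj (x - τ) = conj x - conj τ` and `T_ind` (`R = 0`, `c₀ = 1`, `S = ∅`): the polynomials of `ζ` satisfy `ζ₁ (s + t) = ζ₁ s + (ζ₁ t).comp (X - τ s)`,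
so `T_to0` gives `V₁`, `R₁` with `ζ₁ t = D_t V₁ + C (R₁ conj (τ t))`. Let `G₁ x = conj x * V₁ x + R₁ / 2 * conj x ^ 2`. Then `G₁ x - G₁ (x - τ) = conj x * (D_t V₁ x + R₁ conj τ) + conj τ * V₁ (x - τ) - R₁ / 2 * conj τ ^ 2` (`τ = τ t`), so `ev1 (ζ t) x - (G₁ x - G₁ (x - τ)) = η t x` for the polynomial `η t = ζ₀ t - C (conj τ) * V₁.comp (X - C τ) + C (R₁ / 2 * conj τ ^ 2)` of degree at most `m + 1`. `η (s + t) x = η s x + η t (x - τ s)` (true for the two other terms).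
`T_to0` with `m + 1`: `η t = D_t V₀ + C (R₀ conj (τ t))`, `V₀` of degree at most `m + 2`. Coefficient of `X^(m+1)`: `- conj (τ t) * V₁.coeff (m + 1) = (m + 2) * τ t * V₀.coeff (m + 2)` for all `t`, so both coefficients are zero (`cj_ind`). So `V₁` has degree at most `m`, `V₀` at most `m + 1`, and the result is `G x = V₀ x + conj x * (V₁ x + R₀) + R₁ / 2 * conj x ^ 2`: `c (i, 0) = V₀.coeff i`, `B = V₀.coeff (m + 1)`, `c (i, 1) = V₁.coeff i` for `i ≠ 0`, `c (0, 1) = V₁.coeff 0 + R₀`, `R = R₁ / 2`. -/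
def T_to : Prop := ∀ a b : ℤ, b ^ 2 + 4 * a < 0 → ∀ m n : ℕ, n ≤ 1 → 1 ≤ m → ∀ c₀ : ℂ, c₀ ≠ 0 →
  ∀ ζ : Qf a b ℤ → Fin (m + 1) × Fin (n + 1) → ℂ,
  (∀ (s t : Qf a b ℤ) (x : ℂ), ev1 m n (ζ (s + t)) x =
    ev1 m n (ζ s) x + ev1 m n (ζ t) (x - c₀ * iC a b s)) →
  ∃ (c : Fin (m + 1) × Fin (n + 1) → ℂ) (B R : ℂ), ∀ (t : Qf a b ℤ) (x : ℂ),
    ev1 m n (ζ t) x = Gf m n c B R x - Gf m n c B R (x - c₀ * iC a b t)

/-- [NL T aff] affine substitutions.

Proof. `![α x + β, 1] = A.mulVec ![x, 1]` for `A = !![α, β; 0, 1]`, so `ev1 m n c (α x + β) = ev1 m n (sbC m n A c) x` (`evc_sbC`). `B (α x + β)^(m+1) = B α^(m+1) x^(m+1) + ∑ i ≤ m, B (m+1 choose i) α^i β^(m+1-i) x^i`, and `R conj (α x + β)^(n+1)` in the same way. So `c' = sbC m n A c + c₁ + c₂` with `c₁ (i, 0) = B (m+1 choose i) α^i β^(m+1-i)`, `c₁ (i, j) = 0` for `j ≠ 0`, and `c₂ (0, j) = R (n+1 choose j) conj α^j conj β^(n+1-j)`, `c₂ (i, j) = 0`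 for `i ≠ 0`.
The coefficient at the top of `sbC m n A c` is `evc m n c (A.mulVec ![1, 0]) = evc m n c ![α, 0] = α^m conj α^n c top` (`evc_10`, `evc_sbC`, `evc_smul`), of `c₁` zero if `B = 0`, of `c₂` zero as `m ≥ 1`. The coefficient at `(last m, 0)` for `α = 1`: `evM_11`, `evM_sb2` give `evM m n c ![1, 0] ![conj β, 1] = c (last m, 0) + (n = 1) c (last m, 1) conj β`; `c₁` has `B (m+1) β`. -/
def T_aff : Prop := ∀ m n : ℕ, 1 ≤ m → ∀ (c : Fin (m + 1) × Fin (n + 1) → ℂ) (B R α β : ℂ),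
  ∃ c' : Fin (m + 1) × Fin (n + 1) → ℂ,
  (∀ x, Gf m n c B R (α * x + β) = Gf m n c' (B * α ^ (m + 1)) (R * conj α ^ (n + 1)) x) ∧
  (B = 0 → c' (Fin.last m, Fin.last n) = α ^ m * conj α ^ n * c (Fin.last m, Fin.last n)) ∧
  (n ≤ 1 → α = 1 → c' (Fin.last m, 0) = c (Fin.last m, 0) + (m + 1) * B * β +
    (if n = 0 then 0 else c (Fin.last m, Fin.last n)) * conj β)

/-- [NL T td] torus data. (Uses `T_uq`, `T_to`, `T_aff`.)

Proof. (1) Existence. Let `A` be the matrix with the columns `vC e`, `v`, so `A.mulVec ![x, 1] = x • vC e + v`, and `ζ t = sbC m n A (z (tv e (N t)))` (`evc_sbC`). `tv e (N (s + t)) = tv e (N s) * tv e (N t)`, `CH`, `evc_tM`, `tv_inv`, `tv_mv`, `om (vC e) v = 1`: `T_to` with `c₀ = N` (`Lv`: `N ≠ 0`). (2) Scaling. `v' = l⁻¹ v + μ e` (`om_par` for `v' - l⁻¹ v`; write `l` for `iC l`, `e` for `vC e`), `tv (l e) (N t) = tv e (N (l² t))` (`p_Vtv`), `x (l e) + v' = l⁻¹ ((l² x +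 l μ) e + v)`, so by `evc_smul` the value is
`l^-m conj l^-n (Gf (l² x + l μ) - Gf (l² x + l μ - N l² t))`, and `l² x + l μ - N l² t = l² (x - N t) + l μ`. `T_aff` for `α = l²`, `β = l μ` gives `c''`; `c' = l^-m conj l^-n c''`, `B' = l^-m conj l^-n l^(2m+2) B`, `R'` similarly. (3) `tv (x e) (N t) = x * tv e (N t) * x⁻¹` (`p_Vtv`), `CH_conj`, evaluated at `y (x e) + x v = x (y e + v)`: `evc (z x) (x (y e + v)) + evc (z p) (y e + v) - evc (z x) (x ((y - N t) e + v))`, `p = tv e (N t)`. So `c' = c + sbC m n A' (z x)`, `A'` the matrix with the columns `x e`, `x v`;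
the top coefficient of the second summand is `evc m n (z x) (x e)` (`evc_10`). (4) Uniqueness. The difference `H = Gf m n (c - c') (B - B') (R - R')` of the two functions satisfies `H x = H (x - N t)` for all `x`, `t`; so `H (N t) = H 0`: `T_uq` with `c₀ = N`, `S = ∅`. (5) `P' = sbC m n A (z (tv e (N t)))`, `A` as in (1): `ev1 m n P' x = Gf x - Gf (x - N t)`; `T_aff` for `α = 1`, `β = - N t` gives `c'`, and `ev1 m n P' x = ev1 m n (c - c') x`, so by `T_uq` (`c₀ = 1`, `B = R = K = 0`) `P' (last m, 0) = c (last m, 0) - c' (last m, 0) = (m + 1) B N t + κ conj (N t)`, and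
`P' (last m, 0) = evM m n (z (tv e (N t))) (vC e) (conj v)` (`evM_11`, `evM_sb2`). -/
def T_td : Prop := ∀ a b : ℤ, b ^ 2 + 4 * a < 0 → ∀ m n : ℕ, n ≤ 1 → 1 ≤ m →
  ∀ (W : Subgroup (GQ a b)) (N : ℕ), Lv W N →
  ∀ z : GQ a b → Fin (m + 1) × Fin (n + 1) → ℂ, CH (tM m n (iC a b) (cC a b)) W z →
  (∀ (e : Fin 2 → Qf a b ℤ) (v : Fin 2 → ℂ), e ≠ 0 → CG.om (vC a b e) v = 1 →
    ∃ c B R, TD m n N z e v c B R) ∧
  (∀ (e : Fin 2 → Qf a b ℤ) (v v' : Fin 2 → ℂ) (l : Qf a b ℤ) (c : Fin (m + 1) × Fin (n + 1) → ℂ)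
    (B R : ℂ), e ≠ 0 → l ≠ 0 → CG.om (vC a b e) v = 1 → CG.om (vC a b (l • e)) v' = 1 →
    TD m n N z e v c B R → ∃ c' B' R', TD m n N z (l • e) v' c' B' R' ∧ (B = 0 ↔ B' = 0) ∧
    (B = 0 → c' (Fin.last m, Fin.last n) =
      iC a b l ^ m * conj (iC a b l) ^ n * c (Fin.last m, Fin.last n))) ∧
  (∀ x ∈ W, ∀ (e : Fin 2 → Qf a b ℤ) (v : Fin 2 → ℂ) (c : Fin (m + 1) × Fin (n + 1) → ℂ)
    (B R : ℂ), e ≠ 0 → CG.om (vC a b e) v = 1 → TD m n N z e v c B R →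
    ∃ c', TD m n N z (x.val.mulVec e) ((iG a b x).val.mulVec v) c' B R ∧
    c' (Fin.last m, Fin.last n) = c (Fin.last m, Fin.last n) +
      evc m n (z x) (vC a b (x.val.mulVec e))) ∧
  (∀ (e : Fin 2 → Qf a b ℤ) (v : Fin 2 → ℂ) (c c' : Fin (m + 1) × Fin (n + 1) → ℂ)
    (B B' R R' : ℂ), TD m n N z e v c B R → TD m n N z e v c' B' R' →
    B = B' ∧ R = R' ∧ ∀ p, p ≠ (0, 0) → c p = c' p) ∧
  (∀ (e : Fin 2 → Qf a b ℤ) (v : Fin 2 → ℂ) (c : Fin (m + 1) × Fin (n + 1) → ℂ)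
    (B R : ℂ), TD m n N z e v c B R → ∃ κ : ℂ, ∀ t : Qf a b ℤ,
    evM m n (z (tv e ((N : Qf a b ℤ) * t))) (vC a b e) (fun i => conj (v i)) =
      (m + 1) * B * (N * iC a b t) + κ * conj (N * iC a b t))

/-- the leading coefficient of `z` at every cusp is `r conj t` -/
def HB (m n N : ℕ) {a b : ℤ} (z : GQ a b → Fin (m + 1) × Fin (n + 1) → ℂ) : Prop :=
  ∀ g : GQ a b, ∃ r : ℂ, ∀ t : Qf a b ℤ,
    evM m n (z (tv (colG g 0) ((N : Qf a b ℤ) * t))) (vC a b (colG g 0))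
      (fun i => conj (vC a b (colG g 1) i)) = r * conj (iC a b t)

/-- [NL T hf] the homogeneous function. (Uses `T_td`.)

Proof. Let `g : GQ a b`; `om (vC (colG g 0)) (vC (colG g 1)) = 1` (the determinant). By (1) and (5) of `T_td` there are torus data `c, B, R` for `colG g 0`, `vC (colG g 1)`, and `(m + 1) B N iC t + κ N conj (iC t) = r conj (iC t)` for all `t`, so `B = 0` (`cj_ind`). For general `e ≠ 0`: the ring is a principal ideal domain, `e = l • colG g 0`, `l ≠ 0` (see `Uub_prim` in `CG/P_Uub.lean`), so by (2) there are for every `v` with `om (vC e) v = 1` torus data with `B = 0`. For `e ≠ 0` choose `v` (`om_ex`) and torus data `c, 0, R` and let `f e = - c top`; `f 0 = 0`.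
Key: if `TD m n N z e v c B R` for `e ≠ 0` and some `v` with `om (vC e) v = 1` then `B = 0` and `c top = - f e`: (2) with `l = 1` from the chosen `v` to this `v`, and (4) (`top ≠ (0, 0)` as `m ≥ 1`). hom: (2) and the key. eqv: (3) and the key (`om_mv`, `vC_mv`). uni: the key. -/
def T_hf : Prop := ∀ a b : ℤ, b ^ 2 + 4 * a < 0 → IsPrincipalIdealRing (Qf a b ℤ) →
  ∀ m n : ℕ, n ≤ 1 → 1 ≤ m → ∀ (W : Subgroup (GQ a b)) (N : ℕ), Lv W N →
  ∀ z : GQ a b → Fin (m + 1) × Fin (n + 1) → ℂ, CH (tM m n (iC a b) (cC a b)) W z →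
  HB m n N z → ∃ f, HFn m n N W z f

/-- [NL T fx] the extension to `k²`.

Proof. For `e : ℂ × ℂ` let `F e = (iC q ^ m * conj (iC q) ^ n)⁻¹ * f e₀` if there are `q ≠ 0` in the ring and `e₀ ≠ 0` in the square of the ring with `iC q * e.1 = iC (e₀ 0)`, `iC q * e.2 = iC (e₀ 1)` (choose them), and `F e = 0` otherwise. The value does not depend on the choice: for `q', e₀'` we have `q • e₀' = q' • e₀` (`iCinj`), and `HFn.hom`. For `e.1, e.2 ∈ kC`, `e ≠ 0` there are such `q`, `e₀` (common denominator). ext: `q = 1`. hom: `l = p / r`; `e` has `q, e₀`, so `l e` has `r q`, `p • e₀`. `e = 0`: both sides are zero. eqv: `va x e` has `q` and `x e₀` (`x e₀ ≠ 0`), `pv (va x e) = (iC q)⁻¹ • vC (x e₀)` and `evc_smul`. -/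
def T_fx : Prop := ∀ a b : ℤ, b ^ 2 + 4 * a < 0 → ∀ (m n N : ℕ) (W : Subgroup (GQ a b))
  (z : GQ a b → Fin (m + 1) × Fin (n + 1) → ℂ) (f : (Fin 2 → Qf a b ℤ) → ℂ),
  HFn m n N W z f → ∃ F : ℂ × ℂ → ℂ, FxM m n W z f F

/-- [NL T fam] the family.

Proof. `g o = (Quotient.out o)⁻¹`, `c o`, `R o` from `HFn.uni` for `g o`; the function is `Φ o e = F (va (g o) e) + evc m n (c o) (pv e)`. `va g e = 0` only for `e = 0`; `va` preserves the pairs with entries in `kC`. hom: `FxM.hom`, `evc_smul`, `pv_smul`. inf: `va (g o) (1, 0) = (iC (colG (g o) 0 0), iC (colG (g o) 0 1))`, `FxM.ext`, `evc_10`. eqv: let `g' = g (h⁻¹ • o)`. `h⁻¹ • o` is the class of `(g o * h)⁻¹` and of `g'⁻¹`, so `g' = x * (g o * h)` with `x ∈ W` (`Vvt_mk`, `Vvt_act` in `CG/P_Vvt.lean`). `FxM.eqv`: `F (va g' e) = F (va (g o * h) e) - evc m n (z x) (pv (va g' e))` (`va_mul`), so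
`Φ o (va h e) - Φ (h⁻¹ • o) e = evc m n (c o) (pv (va h e)) - evc m n (c (h⁻¹ • o)) (pv e) + evc m n (z x) (pv (va g' e))`, which is in `PolH m n` (`pv_va`, `evc_sbC`, `evc_mem`). gro: (i) for `β = N γ` and all `x ∈ kC`: `g o * eU β = y * g o`, `y = tv (colG (g o) 0) (N γ) ∈ W`, `(eU β)⁻¹ • o = o`, `va (eU β) (x, 1) = (x + β, 1)`, `F (va (g o) (x + β, 1)) = F (va y (va (g o) (x, 1))) = F (va (g o) (x, 1)) - evc (z y) ((x + β) colG 0 + colG 1)`, and by `TD` (with `B = 0`) the last term is `Gf (x + β) - Gf x`, so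
`Φ o (x + β, 1) = Φ o (x, 1) - R o (conj (x + β)^(n+1) - conj x^(n+1))`. (ii) General `β = N γ + β₀`, `β₀` in the finite set of the `⟨i, j⟩`, `0 ≤ i, j < N`: `Φ o (x + β, 1) = Φ o (x + β₀, 1) - R o (conj (x + β)^(n+1) - conj (x + β₀)^(n+1))` by (i) (for `x + β₀`), `Φ o (x + β₀, 1) = Φ ((eU β₀)⁻¹ • o) (x, 1) + P (x, 1)` by eqv, `(eU β)⁻¹ • o = (eU β₀)⁻¹ • o`. For `‖x‖ ≤ 1` the numbers `‖P (x, 1)‖` are bounded (finitely many `P`, `β₀`, `o`; `P (x, 1)` is continuous, or estimate `evc_pv`), and the other terms are at most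
`‖R o‖ (2 + ‖β‖)^(n+1) + ‖R o‖ (1 + ‖β₀‖)^(n+1) ≤ C (1 + ‖β‖)^(n+1)`. -/
def T_fam : Prop := ∀ a b : ℤ, b ^ 2 + 4 * a < 0 → ∀ m n : ℕ, 1 ≤ m →
  ∀ (W : Subgroup (GQ a b)), W.FiniteIndex → ∀ N : ℕ, Lv W N →
  ∀ z : GQ a b → Fin (m + 1) × Fin (n + 1) → ℂ, ∀ f, HFn m n N W z f → ∀ F, FxM m n W z f F →
  ∃ (g : GQ a b ⧸ W → GQ a b) (c : GQ a b ⧸ W → Fin (m + 1) × Fin (n + 1) → ℂ),
    (∀ o, QuotientGroup.mk (g o)⁻¹ = o) ∧
    FamA a b m n fun (o : GQ a b ⧸ W) (e : ℂ × ℂ) => F (va (g o) e) + evc m n (c o) (pv e)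

/-- [NL T vtN] MAIN RESULT of block T: the vanishing theorem. (Uses `A_main`, `T_uq`, `T_hf`, `T_fx`, `T_fam`.)

Proof. `f`, `F`, `g`, `c` from `T_hf`, `T_fx`, `T_fam`; `Ω = GQ a b ⧸ W`. `A_main` for the class `o` of `1`: `F (va (g o) (x, 1)) + evc m n (c o) (pv (x, 1)) = P (x, 1)`, `x ∈ kC`. `g o ∈ W`, so `F (va (g o) (x, 1)) = F (x, 1) - evc m n (z (g o)) (pv (va (g o) (x, 1)))` and there is a form `q` with `F (x, 1) = ev1 m n q x` for all `x ∈ kC` (`mem_evc`, `pv_va`, `evc_sbC`). By `FxM.hom` `F e = evc m n q (pv e)` for all `e` with entries in `kC`, `e.2 ≠ 0`. Let `y ∈ W`, `r, s` the second row of `y`. For `x ∈ kC` with `r x + s ≠ 0`, `FxM.eqv` for `e = (x, 1)`: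
`evc m n q (pv (va y e)) = ev1 m n q x - evc m n (z y) (pv (va y e))`, that is `ev1 m n (sbC m n A (q + z y) - q) x = 0`, `A` the complex matrix of `y`, for all `x ∈ kC` but one. By `T_uq` (`c₀ = 1`, `S` the exceptional point; `iC t ∈ kC`): `sbC m n A (q + z y) = q`. So `q + z y = (tM y).mulVec q`: apply `evc_tM`, `evc_sbC`, `mv_inv'` to see that `ev1` of both sides is the same at all points, and `T_uq`. So `v = q`. -/
def T_vtN : Prop := ∀ a b : ℤ, b ^ 2 + 4 * a < 0 → Eu a b → IsPrincipalIdealRing (Qf a b ℤ) →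
  ∀ m n : ℕ, ((n = 0 ∧ 3 ≤ m) ∨ (n = 1 ∧ 4 ≤ m)) → ∀ W : Subgroup (GQ a b), W.FiniteIndex →
  ∀ N : ℕ, Lv W N → ∀ z : GQ a b → Fin (m + 1) × Fin (n + 1) → ℂ,
  CH (tM m n (iC a b) (cC a b)) W z → HB m n N z →
  ∃ v, ∀ x ∈ W, z x = (tM m n (iC a b) (cC a b) x).mulVec v - v

end

end Pool.Agent.F8.NL
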