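import Pool.Agent.Lib.MP_305fdd_al.F8.NL.StmP
import Pool.Agent.Lib.MP_305fdd_al.F8.NC.DefsF

/-!
# MP_305fdd_al, all lattices (project NL): block U, automorphisms which are inner in all finite quotients (`U2D`)

Let `s` be an automorphism of `D` which is inner in the finite quotients. There is `δ` in the closure of `D` with `s x = δ x δ⁻¹` (`U_cj`). An element of `GH` which conjugates an element `eU t ≠ 1` to an element `eU t'` is in the closure of the upper triangular matrices (`U_un`, by the crossed homomorphisms with one cusp). So `δ` is the product of an element of `SL₂(ℤ[w])`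
and an element `uH c`, and `c` is in `ℤ[w]` (`U_end`).
-/

set_option autoImplicit false

namespace Pool.Agent.F8.NL

open Pool.Agent.F8.CG Pool.Agent.F8.BG Pool.Agent.MP_305fdd_al Pool.Agent.Lib.MP_305fdd_al
  Pool.Agent.F8
open scoped QuadraticAlgebra ComplexConjugate

noncomputable section

/-- [NL U mz] the values of the extension at the unipotent elements. (Uses `B_bv`, `C_cl`, `C_u`.)

Proof. By `OH_ext` it is enough to compare the images under `rH M`, `M : ℕ+` arbitrary. `X₁` from `ExtH` for `M`; `X₂ ∈ NF` contained in `X`, `X₁` and `NFG M`, `M'` a multiple of `M` which is a level of `X₂` (all `eU (M' t) ∈ X₂.N`; for example `M * lvN X₂`), `t` with `rH M' s = [t]` (`lfH`, `lfH_rH`), `γ'` with `Ap X₂ g γ'`. As `γ`, `γ'` both approximate `g` modulo `X`: `γ' = n γ` with `n ∈ X.N ≤ W`, so `bv z (γ' e₁) = bv z (γ e₁)` (`BvM.inv` for `f = id`; `colG (n γ) 0 = n (colG γ 0)`).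
The element `x = g uH(N s) g⁻¹` is approximated modulo `X₂` by `γ' eU(N t) γ'⁻¹ = tv (colG γ' 0) (N t) ∈ W` (`uH_ap` for `N s`, `N t`; `p_Vtv`), so `x ∈ clH W` (`C_cl`) and `rH M (Z x i)` is the class of `z (tv (γ' e₁) (N t)) i`. `rH M` of `(piH g) e₁` is the class of `γ' e₁` (`piH_pm`, `pm_ap`). So (`evm_map` twice) `rH M` of the left hand side is the class of `evm m (z (tv (γ' e₁) (N t))) (γ' e₁) = bv z (γ' e₁) * t` (`BvM.mul`), and this is `rH M` of the right hand side. -/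
def U_mz : Prop := ∀ a b : ℤ, b ^ 2 + 4 * a < 0 → ∀ m : ℕ, 1 ≤ m → ∀ W : Subgroup (GQ a b),
  W.FiniteIndex → ∀ N : ℕ, Lv W N → ∀ z, CH (tV m (RingHom.id (Qf a b ℤ))) W z →
  ∀ Z, ExtH W z Z → ∀ X : NF a b, X.N ≤ W → ∀ (g : GH a b) (γ : GQ a b), Ap X g γ →
  ∀ s : OH a b, evm m (Z (g * uH (jH a b (N : Qf a b ℤ) * s) * g⁻¹))
    ((piH a b g).val.mulVec ![1, 0]) = s * jH a b (bv m N (RingHom.id _) z (colG γ 0))

/-- [NL U un] elements which conjugate a unipotent element of the cusp `∞` to another one. (Uses `X_ex`, `C_o`, `C_u`, `C_ext`, `P_lv`, `U_mz`.)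

Proof. Let `X : NF`; we need `b ∈ Bor` with `Ap X g b`. `N` a level of `X.N` (`P_lv`), `z₀` from `X_ex` for `W = X.N` and `e₁ = ![1, 0]` (`X1`), `Z₀` an extension (`C_ext`). `ê = (piH g) e₁`. Apply `piH` to the hypothesis: `tv ê (jH t) = tv e₁ (jH t')` (`C_u` (3), `p_Vtv`, `eU_eq_tv`); at the vector `ê`: `jH t' * ω(e₁, ê) = 0`, and `t' ≠ 0` (otherwise `uH (jH t) = 1`, `C_u` (5), `C_o` (1)), so `ê 1 = 0` (`C_o` (2)). So `ê = ε • e₁`, `ε = ê 0`, and `ε` times the entry `(1, 1)` of `piH g` is `1` (the determinant). Let `γ` with `Ap X g γ`.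
`g uH(jH N jH t) g⁻¹ = uH(jH N jH t')` (the `N`-th power of the hypothesis, `C_u` (1)). `U_mz` for `g`, `γ`, `s = jH t`, and for `1`, `1`, `s = jH t'`: `jH t * jH (bv z₀ (γ e₁)) = evm m (Z₀ ..) (ε • e₁) = ε^m * jH t' * jH (bv z₀ e₁)` (`evm_smul`). The right hand side is not zero: `ε` is a unit, `jH (t' * bv z₀ e₁) ≠ 0`. So `bv z₀ (γ e₁) ≠ 0`, and by `X1` `Cs X.N e₁ (γ e₁)`: `γ e₁ = u • x e₁`, `x ∈ X.N`. `b = x⁻¹ γ ∈ Bor`, and `Ap X g b`. -/
def U_un : Prop := ∀ (a b : ℤ) (M₀ m : ℕ), PHyp a b M₀ m → ∀ (g : GH a b) (t t' : Qf a b ℤ),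
  t ≠ 0 → g * uH (jH a b t) * g⁻¹ = uH (jH a b t') → g ∈ clH (Bor a b)

/-- [NL U cj] compactness. (Uses `C_cpt`.)

Proof. `C_cpt` for `S X = {the classes of the d ∈ D such that for all x : D the classes of s x and of d x d⁻¹ modulo X.N are equal}`; not empty by the hypothesis, compatible with `QuotientGroup.map`. -/
def U_cj : Prop := ∀ (a b : ℤ) (D : Subgroup (GQ a b)) (s : D ≃* D),
  (∀ (N : Subgroup (GQ a b)) [N.Normal] [N.FiniteIndex], ∃ d : D, ∀ x : D,
    QuotientGroup.mk' N (s x : GQ a b) = QuotientGroup.mk' N (d * x * (d : GQ a b)⁻¹)) →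
  ∃ δ ∈ clH D, ∀ x : D, iH a b (s x) = δ * iH a b x * δ⁻¹

/-- [NL U end] MAIN RESULT of block U. (Uses `U_un`, `U_cj`, `C_bor`, `C_o`, `C_u`, `C_cl`, `P_lv`.)

Proof. `δ` from `U_cj`, `N` a level of `D`, `x₁ = eU N = tv ![1, 0] N ∈ D`. `piH`: `SLm jH (s x₁)` is conjugate to `eU (jH N)`, so the trace of `s x₁` is `2` (`C_o` (1)), and `s x₁ ≠ 1`. As `ℤ[w]` is a principal ideal domain there is a primitive vector in the kernel of `s x₁ - 1`, so `s x₁ = γ eU(t') γ⁻¹` for some `γ` and `t'` (`γ⁻¹ (s x₁) γ` fixes `e₁` and has the determinant one). `g = (iH γ)⁻¹ δ` satisfies `g uH(jH N) g⁻¹ = uH(jH t')` (`C_u` (2)), so by `U_un` and `C_bor` `g = iH (dg u v) * uH c`, `δ = iH (γ dg u v) * uH c`. Let `x₂ = tv ![0, 1] N ∈ D`, a lower triangular matrix with the entry `-N`.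
`piH` of `iH (s x₂) = δ iH(x₂) δ⁻¹`: with `γ' = γ dg u v` the matrix `SLm jH (γ'⁻¹ (s x₂) γ')` is `eU c * tv ![0, 1] (jH N) * eU (-c)`, and its entry `(1, 1)` is `1 + jH N * c`. So `jH N * c = jH p` for some `p`, and `c = jH r` (`C_o` (3)). So `δ = iH (γ' * eU r)` (`C_u` (2)), and `d = γ' * eU r ∈ D` as `δ ∈ clH D` (`C_cl` (2)). `iH` is injective (`piH_iH`, `C_o` (1)): `s x = d x d⁻¹`. -/
def U_end : Prop := ∀ (a b : ℤ) (M₀ m : ℕ), PHyp a b M₀ m → NC.U2D a b M₀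

end

end Pool.Agent.F8.NL
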