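import Pool.Agent.Lib.MP_305fdd_al.F8.NL.StmI

/-!
# MP_305fdd_al, all lattices (project NL): block X, rationality

The crossed homomorphisms of a subgroup `W` of finite index are the solutions of a system of linear equations with coefficients in `ℤ[w]`, and the functionals `bv` and `r` are linear forms with coefficients in `ℤ[w]`. So results on complex crossed homomorphisms give results on integral crossed homomorphisms, and on crossed homomorphisms over arbitrary fields.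
-/

set_option autoImplicit false

namespace Pool.Agent.F8.NL

open Pool.Agent.F8.CG Pool.Agent.F8.BG Pool.Agent.MP_305fdd_al Pool.Agent.Lib.MP_305fdd_al
  Pool.Agent.F8
open scoped QuadraticAlgebra ComplexConjugate

noncomputable section

/-! ### Linear equations -/

/-- [NL X fx] the crossed homomorphisms as solutions of linear equations.

Proof. As `S_fx` (`CG/P_Sfx.lean`, copy it), with `Fin 2` replaced by `ι` and the matrices `(SLm f (ρ x)).val` by `(τ x).map f`: let `s : S → G` be finitely many generators, `π : FreeGroup S →* G`, `D w i` the matrices over `R` (Fox derivatives) with `z w = ∑ i, ((D w i).map f).mulVec (z (of i))` for every crossed homomorphism `z` of the free group; every family of values on the generators is possible. `n = card (S × ι)`, `A (w, k)`, `w ∈ π.ker`, are the equations `z w = 0`, and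
`E x k` is the row for `z w`, `π w = x` (choose `w` for every `x : G`). If `v` is a solution then `z w` depends only on `π w`. -/
def X_fx : Prop := ∀ (R G ι : Type) [CommRing R] [Group G] [Fintype ι] [DecidableEq ι]
  (τ : G →* Matrix ι ι R), Group.FG G → ∃ (J : Type) (n : ℕ) (A : J → Fin n → R)
  (E : G → ι → Fin n → R), ∀ (K : Type) [CommRing K] (f : R →+* K),
  (∀ z : G → ι → K, (∀ x y, z (x * y) = z x + ((τ x).map f).mulVec (z y)) →
    ∃ v : Fin n → K, (∀ j, ∑ i, f (A j i) * v i = 0) ∧ ∀ x k, z x k = ∑ i, f (E x k i) * v i) ∧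
  ∀ v : Fin n → K, (∀ j, ∑ i, f (A j i) * v i = 0) → ∀ x y : G,
    (fun k => ∑ i, f (E (x * y) k i) * v i) = (fun k => ∑ i, f (E x k i) * v i) +
      ((τ x).map f).mulVec fun k => ∑ i, f (E y k i) * v i

/-- [NL X fw] the same for the subgroup `W` of finite index. (Uses `X_fx`.) -/
def X_fw : Prop := ∀ a b : ℤ, Group.FG (GQ a b) → ∀ (m : ℕ) (W : Subgroup (GQ a b)),
  W.FiniteIndex → ∃ (J : Type) (n : ℕ) (A : J → Fin n → Qf a b ℤ)
  (E : GQ a b → Fin (m + 1) → Fin n → Qf a b ℤ), ∀ (K : Type) [CommRing K] (f : Qf a b ℤ →+* K),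
  (∀ z, CH (tV m f) W z → ∃ v : Fin n → K, (∀ j, ∑ i, f (A j i) * v i = 0) ∧
    ∀ x ∈ W, ∀ k, z x k = ∑ i, f (E x k i) * v i) ∧
  ∀ v : Fin n → K, (∀ j, ∑ i, f (A j i) * v i = 0) →
    CH (tV m f) W fun x k => ∑ i, f (E x k i) * v i

/-- [NL X de] solutions over `R`. (Uses `S_lin`.) -/
def X_de : Prop := ∀ (R K J : Type) [CommRing R] [IsDomain R] [CommRing K] [IsDomain K]
  (f : R →+* K), Function.Injective f → ∀ (n : ℕ) (A : J → Fin n → R) (φ : Fin n → R)
  (v : Fin n → K), (∀ j, ∑ i, f (A j i) * v i = 0) → ∑ i, f (φ i) * v i ≠ 0 →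
  ∃ w : Fin n → R, (∀ j, ∑ i, A j i * w i = 0) ∧ ∑ i, φ i * w i ≠ 0

/-- [NL X l1] inhomogeneous equations over `R`. (Uses `X_de`.) -/
def X_l1 : Prop := ∀ (R K J : Type) [CommRing R] [IsDomain R] [CommRing K] [IsDomain K]
  (f : R →+* K), Function.Injective f → ∀ (n : ℕ) (A : J → Fin n → R) (c : J → R)
  (v : Fin n → K), (∀ j, ∑ i, f (A j i) * v i = f (c j)) →
  ∃ (d : R) (w : Fin n → R), d ≠ 0 ∧ ∀ j, ∑ i, A j i * w i = d * c j

/-! ### The linear form of `bv` -/

variable {a b : ℤ}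

/-- the linear form of `bv` -/
def bvE (m N : ℕ) {n : ℕ} (E : GQ a b → Fin (m + 1) → Fin n → Qf a b ℤ)
    (e : Fin 2 → Qf a b ℤ) (i : Fin n) : Qf a b ℤ :=
  evm m (fun k => E (tv e (N : Qf a b ℤ)) k i) e

theorem bv_bvE {m N n : ℕ} (E : GQ a b → Fin (m + 1) → Fin n → Qf a b ℤ) {L : Type} [CommRing L]
    (f : Qf a b ℤ →+* L) (v : Fin n → L) (z : GQ a b → Fin (m + 1) → L) (e : Fin 2 → Qf a b ℤ)
    (hz : ∀ k, z (tv e (N : Qf a b ℤ)) k = ∑ i, f (E (tv e (N : Qf a b ℤ)) k i) * v i) :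
    bv m N f z e = ∑ i, f (bvE m N E e i) * v i := by
  unfold bv bvE evm
  have h1 : ∀ i, f (∑ k : Fin (m + 1), E (tv e (N : Qf a b ℤ)) k i *
      (e 0 ^ (k : ℕ) * e 1 ^ (m - k))) * v i = ∑ k : Fin (m + 1),
      f (E (tv e (N : Qf a b ℤ)) k i) * v i * (f (e 0) ^ (k : ℕ) * f (e 1) ^ (m - k)) := by
    intro i
    rw [map_sum, Finset.sum_mul]
    refine Finset.sum_congr rfl fun k _ => ?_
    rw [map_mul, map_mul, map_pow, map_pow]
    ring
  rw [Finset.sum_congr rfl fun i _ => h1 i, Finset.sum_comm]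
  refine Finset.sum_congr rfl fun k _ => ?_
  rw [hz, Finset.sum_mul]

/-! ### Cusps -/

/-- [NL X rep] representatives of the cusps. -/
def X_rep : Prop := ∀ (a b : ℤ) (W : Subgroup (GQ a b)), W.FiniteIndex →
  ∃ J : Finset (Fin 2 → Qf a b ℤ), (∀ e ∈ J, Prm e) ∧
    ∀ e, Prm e → ∃ j ∈ J, ∃ x ∈ W, e = x.val.mulVec j

/-- [NL X v0] crossed homomorphisms without cusps are coboundaries. (Uses `T_v0`, `B_bv`.) -/
def X_v0 : Prop := ∀ a b : ℤ, b ^ 2 + 4 * a < 0 → Eu a b → IsPrincipalIdealRing (Qf a b ℤ) →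
  ∀ m : ℕ, (m = 1 ∨ 3 ≤ m) → ∀ W : Subgroup (GQ a b), W.FiniteIndex → ∀ N : ℕ, Lv W N →
  ∀ z : GQ a b → Fin (m + 1) → ℂ, CH (tV m (iC a b)) W z →
  (∀ e, Prm e → bv m N (iC a b) z e = 0) →
  ∃ v, ∀ x ∈ W, z x = (tV m (iC a b) x).mulVec v - v

/-! ### One cusp -/

/-- [NL X cx] from complex to integral crossed homomorphisms with one cusp. (Uses `X_fw`, `X_de`.) -/
def X_cx : Prop := ∀ a b : ℤ, b ^ 2 + 4 * a < 0 → Group.FG (GQ a b) → ∀ m : ℕ,
  ∀ W : Subgroup (GQ a b), W.FiniteIndex → ∀ N : ℕ, Lv W N → ∀ e₀,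
  (∃ z : GQ a b → Fin (m + 1) → ℂ, CH (tV m (iC a b)) W z ∧ bv m N (iC a b) z e₀ ≠ 0 ∧
    ∀ e, Prm e → ¬ Cs W e₀ e → bv m N (iC a b) z e = 0) →
  ∃ z, X1 m N W e₀ z

/-- [NL X h1] complex crossed homomorphisms with one cusp, degree one. (Uses `T_v0`, `B_bv`, `LD`; compare `CG/P_Sh1.lean`.)

Proof. `P v = ![- v 0, v 1]`, a linear isomorphism `ℂ² → ℂ²`; `evm 1 (P v) e = om e v`, and `(tV 1 (iC a b) x).mulVec (P v) = P ((iG a b x).val.mulVec v)`: both sides are forms of degree one, and at `e` (a complex vector) the left hand side is `om (x⁻¹ e) v`, the right hand side `om e (x v)` (`evm_sm`; `tV` is `sm 1` composed with `SLm (iC a b) = iG a b`; two forms of degree one with the same values are equal; or compute the entries of `sb 1`). So `z' ↦ (x ↦ P (z' x))` maps `Z1C W.subtype` to the crossed homomorphisms of `W` for `tV 1 (iC a b)` (extend by zero to `GQ a b`), and `bv 1 N (iC a b) z e = om (vC a b e) (z' (tv e N))` for the image `z`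 of `z'`.
Let `g_i`, `i : Cusp W`, be representatives, `d_i = colG g_i 0`, and `B : Z1C W.subtype → (Cusp W → ℂ)`, `(B z') i = om (vC a b d_i) (z' (tv d_i N))` (`tv d_i N ∈ W` by `Lv W N`, `t = 1`). For primitive `e = colG g 0` there are `i`, `x ∈ W`, `k ∈ Bor a b` with `g = x g_i k`, so `e = u • x d_i` with the unit `u = k₀₀`, and `bv e = u³ bv d_i` (`BvM.hom`, `BvM.inv` from `B_bv` for `m = 1`, `L = ℂ`, `f = iC a b`, which is injective, see `Sh1_inj` in `CG/P_Sh1.lean`). Claim: if `B z' = 0` then `z'` is a coboundary: `bv e = 0` for all primitive `e`; for `tv e t ∈ W`: if `e = 0` then `evm 1 _ 0 = 0`; otherwise `e = l • e'` with `e'` primitive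
(a principal ideal domain), `bv e = l³ bv e' = 0`, and `BvM.all` gives `evm 1 (z (tv e t)) e = 0` (`N ≠ 0`). By `T_v0` (`m = 1`) `z` is a coboundary `x ↦ (tV 1 x - 1) v`, so `z'` is the coboundary of `P⁻¹ v`. So the kernel of `B` has dimension at most two (as in `P_Sh1.lean`), and `LD` (`W ≤ Gam a b M₀`): `dim Z1C = 2 + #Cusp W`, so `B` is surjective. Let `i₀` be the cusp of `e₀`, and `z'` with `(B z') i = 1` for `i = i₀` and `0` for the other `i`. Then `bv e₀ = u³ ≠ 0`; and if `e` is primitive and `¬ Cs W e₀ e` then the cusp of `e` is not `i₀`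
(otherwise `e = u • x d`, `e₀ = u₀ • x₀ d`, `e = (u u₀⁻¹) • (x x₀⁻¹) e₀`, `Cs W e₀ e`), so `bv e = 0`. -/
def X_h1 : Prop := ∀ a b : ℤ, b ^ 2 + 4 * a < 0 → Eu a b → IsPrincipalIdealRing (Qf a b ℤ) →
  ∀ M₀ : ℕ, LD a b M₀ → ∀ W : Subgroup (GQ a b), W.FiniteIndex → W ≤ Gam a b M₀ →
  ∀ N : ℕ, Lv W N → ∀ e₀, Prm e₀ → ∃ z : GQ a b → Fin (1 + 1) → ℂ, CH (tV 1 (iC a b)) W z ∧
    bv 1 N (iC a b) z e₀ ≠ 0 ∧ ∀ e, Prm e → ¬ Cs W e₀ e → bv 1 N (iC a b) z e = 0

/-! ### The number `r` -/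

/-- [NL X ip] interpolation.

Proof. Let `V i j = (i : ℤ) ^ (j : ℕ)`, `i, j : Fin (m + 2)`, be the Vandermonde matrix over `ℤ` of the numbers `0, ..., m + 1` (`Matrix.vandermonde`), `D = V.det ≠ 0` (`Matrix.det_vandermonde_ne_zero_iff`), `lam j = V.adjugate 1 j`. Over `L`: `P.eval (i : L) = ∑ k : Fin (m + 2), V i k * P.coeff k` (`Polynomial.eval_eq_sum_range'`), and `adjugate V * V = D • 1` (`Matrix.adjugate_mul`), mapped to `L`. -/
def X_ip : Prop := ∀ m : ℕ, ∃ (D : ℤ) (lam : Fin (m + 2) → ℤ), D ≠ 0 ∧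
  ∀ (L : Type) [Field L] [CharZero L] (P : Polynomial L), P.natDegree ≤ m + 1 →
  (D : L) * P.coeff 1 = ∑ j, (lam j : L) * P.eval ((j : ℕ) : L)

/-- [NL X dg] the degree of the polynomial.

Proof. Write `G t = z (eU (N t)) 0 = Q (f t) + r f'(t)`, `f' = f ∘ cjq`. `eU (N (s + t)) = eU (N s) * eU (N t)` (`eU_add`), so `G (s + t) = G s + ((tV m f (eU (N s))).mulVec (z (eU (N t)))) 0`, and for a form `P` of degree `m`: the component `0` of `P` is `evm m P ![0, 1]`, so by `evm_sm` the component `0` of `(tV m f (eU (N s))).mulVec P` is `evm m P ![- N f s, 1] = ∑ i, P i * (- N f s) ^ i`, a polynomial in `f s` of degree at most `m`.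
So for fixed `t = 1`: `Q (f s + 1) - Q (f s) = (a polynomial in f s of degree at most m)` (the terms `r f'` are additive and cancel up to the constant `r`). `f s` takes infinitely many values (`f` is injective), so this is an identity of polynomials: `Q.comp (X + 1) - Q` has degree at most `m`. In characteristic zero the degree of `Q.comp (X + 1) - Q` is `deg Q - 1` if `deg Q ≥ 1` (the coefficient of `X ^ (d - 1)` is `d` times the leading coefficient; see for example `Polynomial.taylor`, `Polynomial.taylor_coeff` and the Hasse derivative: the coefficient of `X ^ (d - 1)` in `taylor 1 Q` is `∑ k, choose ...`). So `deg Q ≤ m + 1`. -/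
def X_dg : Prop := ∀ (a b : ℤ) (m N : ℕ) (W : Subgroup (GQ a b)), Lv W N →
  ∀ (L : Type) [Field L] [CharZero L] (f : Qf a b ℤ →+* L), Function.Injective f →
  ∀ z, CH (tV m f) W z → ∀ (r : L) (Q : Polynomial L),
  (∀ t : Qf a b ℤ, z (eU ((N : Qf a b ℤ) * t)) 0 = Q.eval (f t) + r * f (cjq a b ℤ t)) →
  Q.natDegree ≤ m + 1

/-- [NL X rv] the number `r` as a linear form. (Uses `X_ip`, `X_dg`.)

Proof. `D`, `lam` from `X_ip` for `m`, `c = D (b - 2 w)`, `w = wq a b ℤ` (`cjq w = b - w`; `c ≠ 0`: its second coordinate is `- 2 D`). `G t = z (eU (N t)) 0 = Q (f t) + r f (cjq t)`, `deg Q ≤ m + 1` (`X_dg`). For `τ : Qf a b ℤ` the polynomial `P_τ = Q.comp (C (f τ) * X) + C (r * f (cjq τ)) * X` has degree at most `m + 1`, `P_τ (j) = G (j τ)`, and the coefficient of `X` in it is `Q.coeff 1 * f τ + r f (cjq τ)`. So `D (Q.coeff 1 * f τ + r f (cjq τ)) = ∑ j, lam j * G (j τ)`.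
Take this for `τ = w` minus `f w` times this for `τ = 1`: `D r (f (cjq w) - f w) = ∑ j, lam j * (G (j w) - f w * G j)`. -/
def X_rv : Prop := ∀ (a b : ℤ) (m : ℕ), ∃ (c : Qf a b ℤ) (lam : Fin (m + 2) → ℤ), c ≠ 0 ∧
  ∀ (N : ℕ) (W : Subgroup (GQ a b)), Lv W N →
  ∀ (L : Type) [Field L] [CharZero L] (f : Qf a b ℤ →+* L), Function.Injective f →
  ∀ z, CH (tV m f) W z → ∀ r : L, RVp m N f (f.comp (cjq a b ℤ)) z r →
  f c * r = ∑ j, (lam j : L) *
    (z (eU ((N : Qf a b ℤ) * (((j : ℕ) : Qf a b ℤ) * wq a b ℤ))) 0 -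
      f (wq a b ℤ) * z (eU ((N : Qf a b ℤ) * ((j : ℕ) : Qf a b ℤ))) 0)

end

end Pool.Agent.F8.NL
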